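import Pool.Agent.MP_af6f1c_gt.geo.Core

/-! PROJECT GEO: basic facts on chains, push forward, subdivision and ranks. -/

set_option linter.unusedSectionVars false

open Set Topology Finsupp

noncomputable section

namespace Pool.Agent.MP_af6f1c_gt.Geo

open Pool.Agent.H80 (Sx face)

variable {K : Type} [Field K] {X Y Z : Type} [TopologicalSpace X] [TopologicalSpace Y]
  [TopologicalSpace Z]

/-! ### linear maps on finitely supported functions -/

lemma lin_ext {α M : Type} [AddCommGroup M] [Module K M] {L L' : (α →₀ K) →ₗ[K] M}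
    (h : ∀ a, L (single a 1) = L' (single a 1)) (z : α →₀ K) : L z = L' z := by
  have : L = L' := by
    ext a
    simpa using h a
  rw [this]

lemma lin_mem {α M : Type} [AddCommGroup M] [Module K M] (L : (α →₀ K) →ₗ[K] M) {S : Set α}
    {P : Submodule K M} (h : ∀ a ∈ S, L (single a 1) ∈ P) {z : α →₀ K}
    (hz : z ∈ supported K K S) : L z ∈ P := by
  rw [supported_eq_span_single] at hz
  have : Submodule.span K ((fun i => single i (1 : K)) '' S) ≤ P.comap L := by
    rw [Submodule.span_le]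
    rintro _ ⟨a, ha, rfl⟩
    exact h a ha
  exact this hz

lemma lin_eq_on {α M : Type} [AddCommGroup M] [Module K M] {L L' : (α →₀ K) →ₗ[K] M} {S : Set α}
    (h : ∀ a ∈ S, L (single a 1) = L' (single a 1)) {z : α →₀ K}
    (hz : z ∈ supported K K S) : L z = L' z := by
  have := lin_mem (L - L') (P := ⊥) (fun a ha => by simp [h a ha]) hz
  simpa [sub_eq_zero] using this

/-! ### boundary and carriers -/

lemma bd_single {n : ℕ} (σ : C(Sx (n + 1), X)) :
    bd K n (single σ 1) = ∑ i : Fin (n + 2), (-1 : K) ^ (i : ℕ) • single (σ.comp (face i)) 1 := by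
  simp only [bd, linearCombination_single, one_smul]

lemma single_mem_In {n : ℕ} {A : Set X} {σ : C(Sx n, X)} (h : ∀ t, σ t ∈ A) :
    single σ (1 : K) ∈ In K n A := single_mem_supported K 1 h

lemma In_mono {n : ℕ} {A B : Set X} (h : A ⊆ B) : In K n A ≤ In K n B :=
  supported_mono fun _ hσ t => h (hσ t)

lemma mem_In_univ {n : ℕ} (z : Ch K n X) : z ∈ In K n (univ : Set X) := fun _ _ _ => trivial

lemma mem_In_inter {n : ℕ} {A B : Set X} {z : Ch K n X} (hA : z ∈ In K n A) (hB : z ∈ In K n B) :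
    z ∈ In K n (A ∩ B) := fun _ hσ t => ⟨hA hσ t, hB hσ t⟩

lemma mem_In_iff {n : ℕ} {A : Set X} {z : Ch K n X} :
    z ∈ In K n A ↔ ∀ σ ∈ z.support, ∀ t, σ t ∈ A := Iff.rfl

lemma In_empty (n : ℕ) : In K n (∅ : Set X) = ⊥ := by
  rw [eq_bot_iff]
  intro z hz
  rw [Submodule.mem_bot, ← support_eq_empty, Finset.eq_empty_iff_forall_notMem]
  exact fun σ hσ => mem_In_iff.1 hz σ hσ (H80.vtx 0)

lemma bd_mem {n : ℕ} {A : Set X} {z : Ch K (n + 1) X} (hz : z ∈ In K (n + 1) A) :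
    bd K n z ∈ In K n A := by
  refine lin_mem _ (fun σ hσ => ?_) hz
  rw [bd_single]
  exact Submodule.sum_mem _ fun i _ => Submodule.smul_mem _ _ (single_mem_In fun t => hσ _)

/-- integral chains as chains with coefficients in `K` -/
def cst (K : Type) [Field K] (n : ℕ) : H80.Ch n X →ₗ[ℤ] Ch K n X :=
  linearCombination ℤ fun σ => single σ (1 : K)

lemma cst_single {n : ℕ} (σ : C(Sx n, X)) : cst K n (single σ 1) = single σ 1 := by
  simp [cst]

lemma bd_cst {n : ℕ} (z : H80.Ch (n + 1) X) :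
    bd K n (cst K (n + 1) z) = cst K n (H80.bdry n z) := by
  refine H80.lin_ext (L := (bd K n).restrictScalars ℤ ∘ₗ cst K (n + 1))
    (L' := cst K n ∘ₗ H80.bdry n) (fun σ => ?_) z
  simp only [LinearMap.comp_apply, LinearMap.restrictScalars_apply, cst_single, bd_single,
    H80.bdry_single, map_sum, map_smul]
  refine Finset.sum_congr rfl fun i _ => ?_
  rw [← Int.cast_smul_eq_zsmul K]
  simp

lemma cst_mem {n : ℕ} {A : Set X} {z : H80.Ch n X} (hz : z ∈ H80.In n A) :
    cst K n z ∈ In K n A :=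
  H80.lin_mem (cst K n) (P := (In K n A).restrictScalars ℤ)
    (fun σ hσ => by rw [cst_single]; exact single_mem_In hσ) hz

lemma bd_bd {n : ℕ} (z : Ch K (n + 2) X) : bd K n (bd K (n + 1) z) = 0 := by
  refine lin_ext (L := bd K n ∘ₗ bd K (n + 1)) (L' := 0) (fun σ => ?_) z
  rw [LinearMap.comp_apply, ← cst_single, bd_cst, bd_cst, H80.bdry_bdry, map_zero]
  rfl

/-- every chain has a compact carrier -/
lemma exists_compact {n : ℕ} {A : Set X} {z : Ch K n X} (hz : z ∈ In K n A) :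
    ∃ C, IsCompact C ∧ C ⊆ A ∧ z ∈ In K n C := by
  refine ⟨⋃ σ ∈ z.support, range σ, z.support.isCompact_biUnion fun σ _ =>
    isCompact_range σ.continuous, ?_, fun σ hσ t => ?_⟩
  · refine iUnion₂_subset fun σ hσ => ?_
    rintro _ ⟨t, rfl⟩
    exact hz hσ t
  · exact mem_iUnion₂.2 ⟨σ, hσ, t, rfl⟩

open Classical in
/-- the part of a chain that is carried by `A` -/
def flt (K : Type) [Field K] (n : ℕ) (A : Set X) : Ch K n X →ₗ[K] Ch K n X :=
  linearCombination K fun σ => if ∀ t, σ t ∈ A then single σ 1 else 0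

lemma flt_single_of {n : ℕ} {A : Set X} {σ : C(Sx n, X)} (h : ∀ t, σ t ∈ A) :
    flt K n A (single σ 1) = single σ 1 := by
  simp only [flt, linearCombination_single, one_smul, if_pos h]

lemma flt_single_not {n : ℕ} {A : Set X} {σ : C(Sx n, X)} (h : ¬ ∀ t, σ t ∈ A) :
    flt K n A (single σ 1) = 0 := by
  simp only [flt, linearCombination_single, one_smul, if_neg h]

lemma flt_mem {n : ℕ} (A : Set X) (z : Ch K n X) : flt K n A z ∈ In K n A := by
  refine lin_mem _ (fun σ _ => ?_) (mem_In_univ z)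
  by_cases h : ∀ t, σ t ∈ A
  · rw [flt_single_of h]; exact single_mem_In h
  · rw [flt_single_not h]; exact zero_mem _

lemma flt_mem_of {n : ℕ} (A : Set X) {B : Set X} {z : Ch K n X} (hz : z ∈ In K n B) :
    flt K n A z ∈ In K n B := by
  refine lin_mem _ (fun σ hσ => ?_) hz
  by_cases h : ∀ t, σ t ∈ A
  · rw [flt_single_of h]; exact single_mem_In hσ
  · rw [flt_single_not h]; exact zero_mem _

lemma flt_eq {n : ℕ} {A : Set X} {z : Ch K n X} (hz : z ∈ In K n A) : flt K n A z = z :=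
  lin_eq_on (L' := LinearMap.id) (fun _ hσ => flt_single_of hσ) hz

/-- removing the part carried by `A` from a chain of `A` and `B` leaves a chain of `B` -/
lemma sub_flt_mem {n : ℕ} {A B : Set X} {z : Ch K n X} (hz : z ∈ In K n A ⊔ In K n B) :
    z - flt K n A z ∈ In K n B := by
  obtain ⟨a, ha, b, hb, rfl⟩ := Submodule.mem_sup.1 hz
  rw [map_add, flt_eq ha, add_sub_add_left_eq_sub]
  exact sub_mem hb (flt_mem_of A hb)

/-! ### push forward -/

lemma push_single {n : ℕ} {f : X → Y} {σ : C(Sx n, X)} (h : Continuous fun t => f (σ t)) :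
    push K n f (single σ 1) = single ⟨fun t => f (σ t), h⟩ 1 := by
  simp only [push, linearCombination_single, one_smul, dif_pos h]

lemma push_single_not {n : ℕ} {f : X → Y} {σ : C(Sx n, X)} (h : ¬ Continuous fun t => f (σ t)) :
    push K n f (single σ 1) = 0 := by
  simp only [push, linearCombination_single, one_smul, dif_neg h]

lemma cont_comp {n : ℕ} {f : X → Y} {S : Set X} (hf : ContinuousOn f S) {σ : C(Sx n, X)}
    (hσ : ∀ t, σ t ∈ S) : Continuous fun t => f (σ t) :=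
  hf.comp_continuous σ.continuous hσ

lemma push_mem {n : ℕ} {f : X → Y} {A : Set X} {B : Set Y} (h : MapsTo f A B) {z : Ch K n X}
    (hz : z ∈ In K n A) : push K n f z ∈ In K n B := by
  refine lin_mem _ (fun σ hσ => ?_) hz
  by_cases hc : Continuous fun t => f (σ t)
  · rw [push_single hc]; exact single_mem_In fun t => h (hσ t)
  · rw [push_single_not hc]; exact zero_mem _

lemma bd_push {n : ℕ} {f : X → Y} {S : Set X} (hf : ContinuousOn f S) {z : Ch K (n + 1) X}
    (hz : z ∈ In K (n + 1) S) : bd K n (push K (n + 1) f z) = push K n f (bd K n z) := by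
  refine lin_eq_on (L := bd K n ∘ₗ push K (n + 1) f) (L' := push K n f ∘ₗ bd K n)
    (fun σ hσ => ?_) hz
  simp only [LinearMap.comp_apply, push_single (cont_comp hf hσ), bd_single, map_sum, map_smul]
  refine Finset.sum_congr rfl fun i _ => ?_
  rw [push_single (cont_comp hf (σ := σ.comp (face i)) fun t => hσ _)]
  rfl

lemma push_congr {n : ℕ} {f g : X → Y} {S : Set X} (h : EqOn f g S) {z : Ch K n X}
    (hz : z ∈ In K n S) : push K n f z = push K n g z := by
  refine lin_eq_on (fun σ hσ => ?_) hz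
  have e : (fun t => f (σ t)) = fun t => g (σ t) := funext fun t => h (hσ t)
  by_cases hc : Continuous fun t => f (σ t)
  · rw [push_single hc, push_single (e ▸ hc)]
    congr 2
  · rw [push_single_not hc, push_single_not (e ▸ hc)]

lemma push_push {n : ℕ} {f : X → Y} {g : Y → Z} {S : Set X} (hf : ContinuousOn f S)
    {z : Ch K n X} (hz : z ∈ In K n S) :
    push K n g (push K n f z) = push K n (fun x => g (f x)) z := by
  refine lin_eq_on (L := push K n g ∘ₗ push K n f) (fun σ hσ => ?_) hz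
  rw [LinearMap.comp_apply, push_single (cont_comp hf hσ)]
  by_cases hc : Continuous fun t => g (f (σ t))
  · rw [push_single (f := fun x => g (f x)) hc, push_single (f := g) (by exact hc)]
    rfl
  · rw [push_single_not (f := fun x => g (f x)) hc, push_single_not (f := g) (by exact hc)]

lemma push_id {n : ℕ} (z : Ch K n X) : push K n (fun x => x) z = z := by
  refine lin_ext (L' := LinearMap.id) (fun σ => ?_) z
  rw [push_single (f := fun x => x) σ.continuous]
  rfl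

lemma push_eq_self {n : ℕ} {f : X → X} {S : Set X} (h : ∀ x ∈ S, f x = x) {z : Ch K n X}
    (hz : z ∈ In K n S) : push K n f z = z := by
  rw [push_congr (g := fun x => x) h hz, push_id]

/-! ### relative cycles and boundaries -/

lemma mem_Zr_zero {S A : Set X} {z : Ch K 0 X} : z ∈ Zr K 0 S A ↔ z ∈ In K 0 S := Iff.rfl

lemma mem_Zr_succ {n : ℕ} {S A : Set X} {z : Ch K (n + 1) X} :
    z ∈ Zr K (n + 1) S A ↔ z ∈ In K (n + 1) S ∧ bd K n z ∈ In K n A := Iff.rfl

lemma mem_Br {n : ℕ} {S A : Set X} {z : Ch K n X} :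
    z ∈ Br K n S A ↔ ∃ w ∈ In K (n + 1) S, z - bd K n w ∈ In K n A := by
  constructor
  · intro h
    obtain ⟨a, ha, _, ⟨w, hw, rfl⟩, rfl⟩ := Submodule.mem_sup.1 h
    exact ⟨w, hw, by simpa using ha⟩
  · rintro ⟨w, hw, h⟩
    exact Submodule.mem_sup.2 ⟨_, h, _, ⟨w, hw, rfl⟩, by simp⟩

lemma mem_Br_empty {n : ℕ} {S : Set X} {z : Ch K n X} :
    z ∈ Br K n S ∅ ↔ ∃ w ∈ In K (n + 1) S, bd K n w = z := by
  simp only [mem_Br, In_empty, Submodule.mem_bot, sub_eq_zero]
  exact exists_congr fun w => and_congr_right fun _ => eq_comm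

lemma Zr_le_In {n : ℕ} {S A : Set X} : Zr K n S A ≤ In K n S := by
  cases n with
  | zero => exact le_rfl
  | succ n => exact inf_le_left

lemma In_le_Br {n : ℕ} {S A : Set X} : In K n A ≤ Br K n S A := le_sup_left

lemma bd_mem_Br {n : ℕ} {S A : Set X} {w : Ch K (n + 1) X} (hw : w ∈ In K (n + 1) S) :
    bd K n w ∈ Br K n S A := Submodule.mem_sup_right ⟨w, hw, rfl⟩

lemma Zr_mono {n : ℕ} {S A S' A' : Set X} (h : S ⊆ S') (h' : A ⊆ A') :
    Zr K n S A ≤ Zr K n S' A' := by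
  cases n with
  | zero => exact In_mono h
  | succ n => exact fun z hz => ⟨In_mono h hz.1, In_mono h' hz.2⟩

lemma Br_mono {n : ℕ} {S A S' A' : Set X} (h : S ⊆ S') (h' : A ⊆ A') :
    Br K n S A ≤ Br K n S' A' := sup_le_sup (In_mono h') (Submodule.map_mono (In_mono h))

lemma In_le_Zr {n : ℕ} {S A : Set X} (h : A ⊆ S) : In K n A ≤ Zr K n S A := by
  cases n with
  | zero => exact In_mono h
  | succ n => exact fun z hz => ⟨In_mono h hz, bd_mem hz⟩

lemma bd_mem_Zr {n : ℕ} {S A : Set X} {w : Ch K (n + 1) X} (hw : bd K n w ∈ In K n S) :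
    bd K n w ∈ Zr K n S A := by
  cases n with
  | zero => exact hw
  | succ n => exact ⟨hw, by rw [SetLike.mem_coe, Submodule.mem_comap, bd_bd]; exact zero_mem _⟩

lemma Br_le_Zr {n : ℕ} {S A : Set X} (h : A ⊆ S) : Br K n S A ≤ Zr K n S A := by
  refine sup_le (In_le_Zr h) ?_
  rintro _ ⟨w, hw, rfl⟩
  exact bd_mem_Zr (bd_mem hw)

lemma Br_le_In {n : ℕ} {S A : Set X} (h : A ⊆ S) : Br K n S A ≤ In K n S :=
  (Br_le_Zr h).trans Zr_le_In

/-- a relative cycle with a smaller carrier -/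
lemma mem_Zr_of_In {n : ℕ} {S A S' : Set X} {z : Ch K n X} (hz : z ∈ Zr K n S A)
    (h : z ∈ In K n S') : z ∈ Zr K n S' (A ∩ S') := by
  cases n with
  | zero => exact h
  | succ n => exact ⟨h, mem_In_inter hz.2 (bd_mem h)⟩

/-- compact carriers of a relative cycle -/
lemma exists_compact_Zr {n : ℕ} {S A : Set X} (hA : A ⊆ S) {z : Ch K n X} (hz : z ∈ Zr K n S A) :
    ∃ C B, IsCompact C ∧ IsCompact B ∧ B ⊆ C ∧ C ⊆ S ∧ B ⊆ A ∧ z ∈ Zr K n C B := by
  cases n with
  | zero =>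
    obtain ⟨C, hC, h1, h2⟩ := exists_compact (show z ∈ In K 0 S from hz)
    exact ⟨C, ∅, hC, isCompact_empty, empty_subset _, h1, empty_subset _, h2⟩
  | succ n =>
    obtain ⟨C, hC, h1, h2⟩ := exists_compact hz.1
    obtain ⟨B, hB, h3, h4⟩ := exists_compact (show bd K n z ∈ In K n A from hz.2)
    exact ⟨C ∪ B, B, hC.union hB, hB, subset_union_right, union_subset h1 (h3.trans hA), h3,
      In_mono subset_union_left h2, h4⟩

lemma push_Zr {n : ℕ} {f : X → Y} {S A : Set X} {S' A' : Set Y} (hf : ContinuousOn f S)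
    (h : MapsTo f S S') (h' : MapsTo f A A') {z : Ch K n X} (hz : z ∈ Zr K n S A) :
    push K n f z ∈ Zr K n S' A' := by
  cases n with
  | zero => exact push_mem h hz
  | succ n =>
    refine ⟨push_mem h hz.1, ?_⟩
    rw [SetLike.mem_coe, Submodule.mem_comap, bd_push hf hz.1]
    exact push_mem h' hz.2

lemma push_Br {n : ℕ} {f : X → Y} {S A : Set X} {S' A' : Set Y} (hf : ContinuousOn f S)
    (h : MapsTo f S S') (h' : MapsTo f A A') {z : Ch K n X} (hz : z ∈ Br K n S A) :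
    push K n f z ∈ Br K n S' A' := by
  obtain ⟨w, hw, h1⟩ := mem_Br.1 hz
  refine mem_Br.2 ⟨push K (n + 1) f w, push_mem h hw, ?_⟩
  rw [bd_push hf hw, ← map_sub]
  exact push_mem h' h1

/-! ### subdivision -/

/-- barycentric subdivision -/
def Sd (K : Type) [Field K] (n : ℕ) : Ch K n X →ₗ[K] Ch K n X :=
  linearCombination K fun σ => cst K n (H80.Sd n (single σ 1))

lemma Sd_cst {n : ℕ} (z : H80.Ch n X) : Sd K n (cst K n z) = cst K n (H80.Sd n z) := by
  refine H80.lin_ext (L := (Sd K n).restrictScalars ℤ ∘ₗ cst K n) (L' := cst K n ∘ₗ H80.Sd n)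
    (fun σ => ?_) z
  simp only [LinearMap.comp_apply, LinearMap.restrictScalars_apply, cst_single, Sd,
    linearCombination_single, one_smul]

lemma Sd_pow_succ {n m : ℕ} (z : Ch K n X) : (Sd K n ^ (m + 1)) z = Sd K n ((Sd K n ^ m) z) := by
  rw [pow_succ']; rfl

lemma Sd_pow_cst {n : ℕ} (m : ℕ) (z : H80.Ch n X) :
    (Sd K n ^ m) (cst K n z) = cst K n ((H80.Sd n ^ m) z) := by
  induction m with
  | zero => simp
  | succ m ih => rw [Sd_pow_succ, ih, Sd_cst, H80.Sd_pow_succ]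

lemma Sd_pow_mem {n : ℕ} {A : Set X} {z : Ch K n X} (hz : z ∈ In K n A) (m : ℕ) :
    (Sd K n ^ m) z ∈ In K n A := by
  refine lin_mem _ (fun σ hσ => ?_) hz
  rw [← cst_single, Sd_pow_cst]
  exact cst_mem (H80.Sd_pow_mem (H80.single_mem_In hσ) m)

lemma bd_Sd_pow {n : ℕ} (m : ℕ) (z : Ch K (n + 1) X) :
    bd K n ((Sd K (n + 1) ^ m) z) = (Sd K n ^ m) (bd K n z) := by
  refine lin_ext (L := bd K n ∘ₗ (Sd K (n + 1) ^ m)) (L' := (Sd K n ^ m) ∘ₗ bd K n)
    (fun σ => ?_) z
  rw [LinearMap.comp_apply, LinearMap.comp_apply, ← cst_single, Sd_pow_cst, bd_cst, bd_cst,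
    Sd_pow_cst, H80.bdry_Sd_pow]

lemma Sd_pow_Zr {n : ℕ} {S A : Set X} {z : Ch K n X} (hz : z ∈ Zr K n S A) (m : ℕ) :
    (Sd K n ^ m) z ∈ Zr K n S A := by
  cases n with
  | zero => exact Sd_pow_mem hz m
  | succ n =>
    refine ⟨Sd_pow_mem hz.1 m, ?_⟩
    rw [SetLike.mem_coe, Submodule.mem_comap, bd_Sd_pow]
    exact Sd_pow_mem hz.2 m

/-- the chain homotopy between the identity and the subdivision -/
def Th (K : Type) [Field K] (n : ℕ) : Ch K n X →ₗ[K] Ch K (n + 1) X :=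
  linearCombination K fun σ => cst K (n + 1) (H80.Th n (single σ 1))

lemma Th_cst {n : ℕ} (z : H80.Ch n X) : Th K n (cst K n z) = cst K (n + 1) (H80.Th n z) := by
  refine H80.lin_ext (L := (Th K n).restrictScalars ℤ ∘ₗ cst K n)
    (L' := cst K (n + 1) ∘ₗ H80.Th n) (fun σ => ?_) z
  simp only [LinearMap.comp_apply, LinearMap.restrictScalars_apply, cst_single, Th,
    linearCombination_single, one_smul]

lemma Th_mem {n : ℕ} {A : Set X} {z : Ch K n X} (hz : z ∈ In K n A) :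
    Th K n z ∈ In K (n + 1) A := by
  refine lin_mem _ (fun σ hσ => ?_) hz
  rw [← cst_single, Th_cst]
  exact cst_mem (H80.Th_mem (H80.single_mem_In hσ))

lemma sub_Sd_mem {n : ℕ} {S A : Set X} {z : Ch K n X} (hz : z ∈ Zr K n S A) :
    z - Sd K n z ∈ Br K n S A := by
  refine mem_Br.2 ⟨Th K n z, Th_mem (Zr_le_In hz), ?_⟩
  cases n with
  | zero =>
    have : bd K 0 (Th K 0 z) = z - Sd K 0 z := by
      refine lin_ext (L := bd K 0 ∘ₗ Th K 0) (L' := LinearMap.id - Sd K 0) (fun σ => ?_) z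
      rw [LinearMap.comp_apply, LinearMap.sub_apply, LinearMap.id_apply, ← cst_single, Th_cst,
        bd_cst, H80.bdry_Th_zero, Sd_cst, map_sub]
    rw [this, sub_self]
    exact zero_mem _
  | succ n =>
    have : bd K (n + 1) (Th K (n + 1) z) = z - Sd K (n + 1) z - Th K n (bd K n z) := by
      refine lin_ext (L := bd K (n + 1) ∘ₗ Th K (n + 1))
        (L' := LinearMap.id - Sd K (n + 1) - Th K n ∘ₗ bd K n) (fun σ => ?_) z
      rw [LinearMap.comp_apply, LinearMap.sub_apply, LinearMap.sub_apply, LinearMap.id_apply,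
        LinearMap.comp_apply, ← cst_single, Th_cst, bd_cst, H80.bdry_Th, Sd_cst, bd_cst, Th_cst,
        map_sub, map_sub]
    rw [this, sub_sub_cancel]
    exact Th_mem hz.2

/-- a relative cycle is homologous to its subdivisions -/
lemma sub_Sd_pow_mem {n : ℕ} {S A : Set X} {z : Ch K n X} (hz : z ∈ Zr K n S A) (m : ℕ) :
    z - (Sd K n ^ m) z ∈ Br K n S A := by
  induction m with
  | zero => simp
  | succ m ih =>
    have := add_mem ih (sub_Sd_mem (Sd_pow_Zr hz m))
    rwa [sub_add_sub_cancel, ← Sd_pow_succ] at this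

/-- small simplices -/
lemma small {n : ℕ} {S U V : Set X} (hU : IsOpen U) (hV : IsOpen V) (hS : S ⊆ U ∪ V)
    {z : Ch K n X} (hz : z ∈ In K n S) :
    ∀ᶠ m in Filter.atTop, (Sd K n ^ m) z ∈ In K n (S ∩ U) ⊔ In K n (S ∩ V) := by
  have key : ∀ᶠ m in Filter.atTop, (Sd K n ^ m) z ∈ In K n U ⊔ In K n V := by
    rw [In, supported_eq_span_single] at hz
    induction hz using Submodule.span_induction with
    | zero => simp
    | add x y _ _ hx hy =>
      filter_upwards [hx, hy] with m h1 h2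
      rw [map_add]; exact add_mem h1 h2
    | smul a x _ hx =>
      filter_upwards [hx] with m h1
      rw [map_smul]; exact Submodule.smul_mem _ _ h1
    | mem x hx =>
      obtain ⟨σ, hσ, rfl⟩ := hx
      filter_upwards [H80.eventually_small hU hV
        (H80.single_mem_In (σ := σ) fun t => hS (hσ t))] with m hm
      obtain ⟨a, ha, b, hb, e⟩ := Submodule.mem_sup.1 hm
      show (Sd K n ^ m) (single σ 1) ∈ _
      rw [← cst_single, Sd_pow_cst, ← e, map_add]
      exact add_mem (Submodule.mem_sup_left (cst_mem ha)) (Submodule.mem_sup_right (cst_mem hb))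
  filter_upwards [key] with m hm
  have h0 := Sd_pow_mem hz m
  refine Submodule.mem_sup.2 ⟨flt K n U _, mem_In_inter (flt_mem_of U h0) (flt_mem U _), _,
    mem_In_inter (sub_mem h0 (flt_mem_of U h0)) (sub_flt_mem hm), by simp⟩

/-! ### ranks -/

section rank

variable {V W : Type} [AddCommGroup V] [Module K V] [AddCommGroup W] [Module K W]
  {P P' Q Q' : Submodule K V} {r r' : ℕ}

lemma rk_iff : Rk P Q r ↔ Module.rank K (P ⧸ Q.comap P.subtype) ≤ r := by
  have e : LinearMap.range (Q.mkQ ∘ₗ P.subtype) = P.map Q.mkQ := by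
    rw [LinearMap.range_comp, Submodule.range_subtype]
  have e' : LinearMap.ker (Q.mkQ ∘ₗ P.subtype) = Q.comap P.subtype := by
    rw [LinearMap.ker_comp, Submodule.ker_mkQ]
  rw [Rk, ← e, ← e', (LinearMap.quotKerEquivRange _).rank_eq]

/-- the main tool: a linear map that detects membership in `Q` -/
lemma Rk.of_inj {P₁ Q₁ : Submodule K W} (h : Rk P₁ Q₁ r) (f : V →ₗ[K] W)
    (hf : ∀ z ∈ P, f z ∈ P₁ ⊔ Q₁) (hi : ∀ z ∈ P, f z ∈ Q₁ → z ∈ Q) : Rk P Q r := by
  let g : P →ₗ[K] P₁.map Q₁.mkQ := LinearMap.codRestrict _ (Q₁.mkQ ∘ₗ f ∘ₗ P.subtype) (by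
    rintro ⟨z, hz⟩
    obtain ⟨a, ha, b, hb, e⟩ := Submodule.mem_sup.1 (hf z hz)
    refine ⟨a, ha, ?_⟩
    simp only [LinearMap.comp_apply, Submodule.subtype_apply, ← e, map_add]
    rw [Submodule.mkQ_apply Q₁ b, (Submodule.Quotient.mk_eq_zero Q₁).2 hb, add_zero])
  have hk : LinearMap.ker g ≤ Q.comap P.subtype := by
    rintro ⟨z, hz⟩ h0
    refine hi z hz ((Submodule.Quotient.mk_eq_zero Q₁).1 ?_)
    exact congrArg Subtype.val (LinearMap.mem_ker.1 h0)
  rw [rk_iff]
  refine (LinearMap.rank_le_of_surjective (Submodule.factor hk)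
    (Submodule.factor_surjective hk)).trans (le_trans ?_ h)
  rw [(LinearMap.quotKerEquivRange g).rank_eq]
  exact Submodule.rank_le _

lemma Rk.of_le_sup (h : Rk P' Q r) (hP : P ≤ P' ⊔ Q) : Rk P Q r :=
  h.of_inj LinearMap.id hP fun _ _ h => h

lemma Rk.mono (h : Rk P Q r) (hP : P' ≤ P) (hQ : Q ≤ Q') (hr : r ≤ r') : Rk P' Q' r' :=
  le_trans (h.of_inj (P := P') (Q := Q') LinearMap.id
    (fun _ hz => Submodule.mem_sup_left (hP hz)) fun _ _ h => hQ h) (Nat.cast_le.2 hr)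

lemma rk_zero : Rk P Q 0 ↔ P ≤ Q := by
  rw [Rk, Nat.cast_zero, nonpos_iff_eq_zero, Submodule.rank_eq_zero, eq_bot_iff,
    Submodule.map_le_iff_le_comap, Submodule.comap_bot, Submodule.ker_mkQ]

lemma Rk.of_le (h : P ≤ Q) (r : ℕ) : Rk P Q r := (rk_zero.2 h).mono le_rfl le_rfl (Nat.zero_le _)

lemma rk_span (T : Finset V) (Q : Submodule K V) : Rk (Submodule.span K (T : Set V)) Q T.card :=
  (rank_map_le _ _).trans (rank_span_finset_le T)

lemma Rk.exists_span (h : Rk P Q r) :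
    ∃ T : Finset V, T.card ≤ r ∧ (∀ z ∈ T, z ∈ P) ∧ P ≤ Submodule.span K (T : Set V) ⊔ Q := by
  classical
  have hfin : Module.Finite K (P.map Q.mkQ) :=
    Module.rank_lt_aleph0_iff.1 (lt_of_le_of_lt h Cardinal.natCast_lt_aleph0)
  let b := Module.finBasis K (P.map Q.mkQ)
  choose s hs hs' using fun i => (b i).2
  refine ⟨Finset.univ.image s, ?_, ?_, fun z hz => ?_⟩
  · refine Finset.card_image_le.trans ?_
    rw [Finset.card_univ, Fintype.card_fin]
    exact Module.finrank_le_of_rank_le h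
  · intro z hz
    obtain ⟨i, _, rfl⟩ := Finset.mem_image.1 hz
    exact hs i
  · have e := congrArg Subtype.val (b.sum_repr ⟨Q.mkQ z, z, hz, rfl⟩)
    refine Submodule.mem_sup.2 ⟨∑ i, b.repr ⟨Q.mkQ z, z, hz, rfl⟩ i • s i,
      Submodule.sum_mem _ fun i _ => Submodule.smul_mem _ _ (Submodule.subset_span (by simp)),
      z - ∑ i, b.repr ⟨Q.mkQ z, z, hz, rfl⟩ i • s i, ?_, by simp⟩
    rw [← Submodule.Quotient.mk_eq_zero, ← Submodule.mkQ_apply, map_sub, map_sum, sub_eq_zero]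
    simp only [map_smul, hs']
    rw [Submodule.coe_sum] at e
    exact e.symm

lemma Rk.sup {P₂ : Submodule K V} {r₂ : ℕ} (h : Rk P Q r) (h₂ : Rk P₂ Q r₂) :
    Rk (P ⊔ P₂) Q (r + r₂) := by
  rw [Rk, Submodule.map_sup, Nat.cast_add]
  exact (Submodule.rank_add_le_rank_add_rank _ _).trans (add_le_add h h₂)

lemma Rk.add {P₂ Q₁ : Submodule K V} {r₂ : ℕ} (h : Rk P Q₁ r) (hle : P ⊓ Q₁ ≤ P₂ ⊔ Q)
    (h₂ : Rk P₂ Q r₂) : Rk P Q (r + r₂) := by
  obtain ⟨T, hT, hP, hs⟩ := h.exists_span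
  refine (((rk_span T Q).mono le_rfl le_rfl hT).sup h₂).of_le_sup fun z hz => ?_
  obtain ⟨a, ha, b, hb, e⟩ := Submodule.mem_sup.1 (hs hz)
  have ha' : a ∈ P := Submodule.span_le.2 (fun x hx => hP x hx) ha
  have hb' : b ∈ P := by
    have := sub_mem hz ha'
    rwa [← e, add_sub_cancel_left] at this
  rw [← e, sup_assoc]
  exact add_mem (Submodule.mem_sup_left ha) (Submodule.mem_sup_right (hle ⟨hb', hb⟩))

lemma Rk.trans {R : Submodule K V} {r₂ : ℕ} (h : Rk P Q r) (h₂ : Rk Q R r₂) :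
    Rk P R (r + r₂) := h.add (inf_le_right.trans le_sup_left) h₂

lemma Rk.map {Q₁ : Submodule K W} (h : Rk P Q r) (f : V →ₗ[K] W)
    (hf : ∀ z ∈ P, z ∈ Q → f z ∈ Q₁) : Rk (P.map f) Q₁ r := by
  classical
  obtain ⟨T, hT, hP, hs⟩ := h.exists_span
  refine ((rk_span (T.image f) Q₁).mono le_rfl le_rfl
    (Finset.card_image_le.trans hT)).of_le_sup ?_
  rintro _ ⟨z, hz, rfl⟩
  obtain ⟨a, ha, b, hb, e⟩ := Submodule.mem_sup.1 (hs hz)
  have ha' : a ∈ P := Submodule.span_le.2 (fun x hx => hP x hx) ha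
  have hb' : b ∈ P := by
    have := sub_mem hz ha'
    rwa [← e, add_sub_cancel_left] at this
  rw [← e, map_add]
  refine add_mem (Submodule.mem_sup_left ?_) (Submodule.mem_sup_right (hf b hb' hb))
  rw [Finset.coe_image, ← Submodule.map_span]
  exact ⟨a, ha, rfl⟩

/-- ranks can be checked on finite families -/
lemma Rk.of_fg (h : ∀ T : Finset V, (∀ z ∈ T, z ∈ P) → Rk (Submodule.span K (T : Set V)) Q r) :
    Rk P Q r := by
  classical
  refine rank_le fun s hs => ?_
  choose t ht ht' using fun x : P.map Q.mkQ => x.2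
  have h1 := h (s.image t) fun z hz => by
    obtain ⟨x, _, rfl⟩ := Finset.mem_image.1 hz
    exact ht x
  let v : s → (Submodule.span K ((s.image t : Finset V) : Set V)).map Q.mkQ := fun x =>
    ⟨x.1.1, t x.1, Submodule.subset_span (Finset.mem_coe.2 (Finset.mem_image_of_mem t x.2)), ht' x.1⟩
  have hv : LinearIndependent K v := by
    refine LinearIndependent.of_comp (Submodule.subtype _) ?_
    exact hs.map' (Submodule.subtype _) (Submodule.ker_subtype _)
  have := hv.cardinal_le_rank.trans h1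
  simpa using this

/-- one power of an eventual property serves a whole finitely generated submodule -/
lemma eventually_span {T : Finset V} {p : ℕ → Submodule K V}
    (h : ∀ z ∈ T, ∀ᶠ m in Filter.atTop, z ∈ p m) :
    ∃ m, Submodule.span K (T : Set V) ≤ p m := by
  obtain ⟨m, hm⟩ := ((Filter.eventually_all_finset T).2 h).exists
  exact ⟨m, Submodule.span_le.2 fun z hz => hm z hz⟩

end rank

lemma RP.mono {n r r' : ℕ} {S A S' A' T B T' B' : Set X} (h : RP K n S A S' A' r) (h1 : T ⊆ S)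
    (h2 : B ⊆ A) (h3 : S' ⊆ T') (h4 : A' ⊆ B') (hr : r ≤ r') : RP K n T B T' B' r' :=
  Rk.mono h (Zr_mono h1 h2) (Br_mono h3 h4) hr

lemma RO.mono {n r r' : ℕ} {O S S' T T' : Set X} (h : RO K n O S S' r) (h1 : T ⊆ S)
    (h3 : S' ⊆ T') (hr : r ≤ r') : RO K n O T T' r' :=
  RP.mono h h1 (inter_subset_inter_left _ h1) h3 (inter_subset_inter_left _ h3) hr

lemma Lp.mono {n r r' : ℕ} {O : Set X} {x : X} (h : Lp K n O x r) (hr : r ≤ r') :
    Lp K n O x r' := fun V' hV' =>
  (h V' hV').imp fun _ hV => ⟨hV.1, hV.2.mono Subset.rfl Subset.rfl hr⟩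

lemma Loc.mono {n r r' : ℕ} {O Γ : Set X} (h : Loc K n O Γ r) (hr : r ≤ r') :
    Loc K n O Γ r' := fun V' hV' =>
  (h V' hV').imp fun _ hV => ⟨hV.1, hV.2.mono Subset.rfl Subset.rfl hr⟩

/-- the neighbourhood in `Lp` can be taken open and small -/
lemma Lp.exists_open {n r : ℕ} {O : Set X} {x : X} (h : Lp K n O x r) {V' W : Set X}
    (hV' : V' ∈ 𝓝 x) (hW : W ∈ 𝓝 x) : ∃ V, IsOpen V ∧ x ∈ V ∧ V ⊆ W ∧ RO K n O V V' r := by
  obtain ⟨V, hV, h1⟩ := h V' hV'
  obtain ⟨U, hU, ho, hx⟩ := mem_nhds_iff.1 (Filter.inter_mem hV hW)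
  exact ⟨U, ho, hx, hU.trans inter_subset_right,
    h1.mono (hU.trans inter_subset_left) Subset.rfl le_rfl⟩

/-- the neighbourhood in `Loc` can be taken open and small -/
lemma Loc.exists_open {n r : ℕ} {O Γ : Set X} (h : Loc K n O Γ r) {V' W : Set X}
    (hV' : V' ∈ 𝓝ˢ Γ) (hW : W ∈ 𝓝ˢ Γ) : ∃ V, IsOpen V ∧ Γ ⊆ V ∧ V ⊆ W ∧ RO K n O V V' r := by
  obtain ⟨V, hV, h1⟩ := h V' hV'
  obtain ⟨U, ho, hx, hU⟩ := mem_nhdsSet_iff_exists.1 (Filter.inter_mem hV hW)
  exact ⟨U, ho, hx, hU.trans inter_subset_right,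
    h1.mono (hU.trans inter_subset_left) Subset.rfl le_rfl⟩

/-- only the germ of `O` matters -/
lemma Lp.congr {n r : ℕ} {O O' W : Set X} {x : X} (h : Lp K n O x r) (hW : W ∈ 𝓝 x)
    (e : W ∩ O = W ∩ O') : Lp K n O' x r := by
  intro V' hV'
  obtain ⟨V, ho, hx, hV, h1⟩ := h.exists_open (Filter.inter_mem hV' hW) hW
  refine ⟨V, ho.mem_nhds hx, RP.mono h1 Subset.rfl ?_ inter_subset_left ?_ le_rfl⟩
  · exact fun y hy => ⟨hy.1, (e.symm.subset ⟨hV hy.1, hy.2⟩).2⟩
  · exact fun y hy => ⟨hy.1.1, (e.subset ⟨hy.1.2, hy.2⟩).2⟩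

/-! ### geodesics and levels -/

section geo

variable {M : Type} [MetricSpace M]

lemma LL_mono {a b : ℝ} (h : a ≤ b) : LL M a ⊆ LL M b :=
  fun _ hl => le_trans hl (ENNReal.ofReal_le_ofReal h)

lemma Fil_mono {i : ℕ} {a b : ℝ} (h : a ≤ b) : Fil M K i a ≤ Fil M K i b :=
  sup_le_sup_right (Zr_mono (LL_mono h) Subset.rfl) _

lemma Fil_le_Zr {i : ℕ} {a : ℝ} : Fil M K i a ≤ Zr K i univ ∅ :=
  sup_le (Zr_mono (subset_univ _) Subset.rfl) (Br_le_Zr (empty_subset _))

lemma CG.shift {γ : ℝ → M} {c : ℝ} (h : CG γ c) (s : ℝ) : CG (fun t => γ (t + s)) c := by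
  obtain ⟨h1, h2, h3, ε, hε, h4⟩ := h
  refine ⟨by fun_prop, fun t => ?_, h3, ε, hε, fun a b hab => ?_⟩
  · show γ (t + 1 + s) = γ (t + s)
    rw [add_right_comm, h2]
  · have := h4 (a + s) (b + s) (by simpa using hab)
    simpa using this

lemma CG.rev {γ : ℝ → M} {c : ℝ} (h : CG γ c) : CG (fun t => γ (-t)) c := by
  obtain ⟨h1, h2, h3, ε, hε, h4⟩ := h
  refine ⟨by fun_prop, fun t => ?_, h3, ε, hε, fun a b hab => ?_⟩
  · show γ (-(t + 1)) = γ (-t)
    rw [← h2 (-(t + 1))]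
    congr 1
    ring
  · have e : |-a - -b| = |a - b| := by rw [← abs_neg]; congr 1; ring
    have := h4 (-a) (-b) (by rwa [e])
    rwa [e] at this

lemma CG.itr {γ : ℝ → M} {c : ℝ} (h : CG γ c) {m : ℕ} (hm : 1 ≤ m) : CG (itr m γ) (m * c) := by
  obtain ⟨h1, h2, h3, ε, hε, h4⟩ := h
  have hm' : (0 : ℝ) < m := by exact_mod_cast hm
  refine ⟨by unfold Geo.itr; fun_prop, fun t => ?_, by positivity, ε / m, by positivity,
    fun a b hab => ?_⟩
  · show γ (m * (t + 1)) = γ (m * t)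
    have := h2.nat_mul m (m * t)
    rw [← this]
    congr 1
    ring
  · have e : |(m : ℝ) * a - m * b| = m * |a - b| := by
      rw [← mul_sub, abs_mul, abs_of_pos hm']
    have := h4 (m * a) (m * b) (by rw [e]; rwa [lt_div_iff₀ hm', mul_comm] at hab)
    show dist (γ (m * a)) (γ (m * b)) = _
    rw [this, e]
    ring

/-- the speed of a closed geodesic is determined by the curve -/
lemma CG.speed_eq {γ : ℝ → M} {c c' : ℝ} (h : CG γ c) (h' : CG γ c') : c = c' := by
  obtain ⟨-, -, -, ε, hε, h4⟩ := h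
  obtain ⟨-, -, -, ε', hε', h4'⟩ := h'
  have hp : 0 < min ε ε' / 2 := by positivity
  have e : |min ε ε' / 2 - 0| = min ε ε' / 2 := by rw [sub_zero, abs_of_pos hp]
  have a := h4 (min ε ε' / 2) 0 (by rw [e]; linarith [min_le_left ε ε'])
  have b := h4' (min ε ε' / 2) 0 (by rw [e]; linarith [min_le_right ε ε'])
  rw [e] at a b
  exact mul_right_cancel₀ hp.ne' (a.symm.trans b)

lemma mem_GI {L : ℝ} {A : Set M} : A ∈ GI M L ↔ ∃ γ c, CG γ c ∧ c ≤ L ∧ A = range γ := by
  have key : ∀ (γ : ℝ → M) (c : ℝ), 0 < c → ∀ s t : ℝ,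
      (edist (γ s) (γ t) = ENNReal.ofReal (c * |s - t|) ↔ dist (γ s) (γ t) = c * |s - t|) :=
    fun γ c hc s t => by
      rw [edist_dist, ENNReal.ofReal_eq_ofReal_iff dist_nonneg (by positivity)]
  constructor
  · rintro ⟨γ, c, h1, h2, h3, h4, ⟨ε, hε, h5⟩, h6⟩
    exact ⟨γ, c, ⟨h1, h2, h3, ε, hε, fun s t h => (key γ c h3 s t).1 (h5 s t h)⟩, h4, h6⟩
  · rintro ⟨γ, c, ⟨h1, h2, h3, ε, hε, h5⟩, h4, h6⟩
    exact ⟨γ, c, h1, h2, h3, h4, ⟨ε, hε, fun s t h => (key γ c h3 s t).2 (h5 s t h)⟩, h6⟩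

end geo

end Pool.Agent.MP_af6f1c_gt.Geo
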