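import Mathlib.AlgebraicTopology.SingularHomology.Basic
import Mathlib.Algebra.Category.ModuleCat.Abelian
import Mathlib.Algebra.Category.ModuleCat.Colimits
import Mathlib.Analysis.Complex.Circle
import Mathlib.Topology.CompactOpen
import Mathlib.Data.Set.Card

/-! Definitions used in the final statements: homology of the free loop space and images of
periodic geodesics, in the vocabulary of the frozen statement. -/

namespace Pool.Agent.MP_af6f1c_gt.Geo

/-- The `i`-th singular homology of the free loop space of `M` with coefficients in `K`. -/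
noncomputable abbrev LH (K : Type) [Field K] (M : Type) [TopologicalSpace M] (i : ℕ) :
    ModuleCat.{0} K :=
  ((AlgebraicTopology.singularHomologyFunctor (ModuleCat.{0} K) i).obj
    (ModuleCat.of K K)).obj (TopCat.of C(Circle, M))

/-- The set of images of periodic geodesics of length at most `L`. -/
def GI (M : Type) [EMetricSpace M] (L : ℝ) : Set (Set M) :=
  {A : Set M | ∃ (γ : ℝ → M) (c : ℝ), Continuous γ ∧ Function.Periodic γ 1 ∧
    0 < c ∧ c ≤ L ∧
    (∃ ε > (0 : ℝ), ∀ s t : ℝ, |s - t| < ε →
      edist (γ s) (γ t) = ENNReal.ofReal (c * |s - t|)) ∧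
    A = Set.range γ}

end Pool.Agent.MP_af6f1c_gt.Geo
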