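import Mathlib.LinearAlgebra.Dimension.Constructions
import Mathlib.LinearAlgebra.Dimension.RankNullity
import Mathlib.LinearAlgebra.Dimension.DivisionRing
import Mathlib.Analysis.InnerProductSpace.PiL2
import Mathlib.Analysis.Calculus.ContDiff.Defs
import Mathlib.Analysis.Quaternion
import Mathlib.Analysis.Normed.Field.UnitBall
import Mathlib.Topology.Instances.AddCircle.Real
import Mathlib.Topology.EMetricSpace.BoundedVariation
import Mathlib.Topology.ContinuousMap.Compact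
import Mathlib.Topology.ContinuousMap.Algebra
import Mathlib.Data.ZMod.Basic
import Pool.Agent.Lib.helper80.Chains
import Pool.Agent.MP_af6f1c_gt.geo.Defs

/-! PROJECT GEO: internal definitions (chains, ranks, geodesic structure, broken geodesics). -/

open Set Topology Finsupp Metric
open scoped ContDiff ENNReal

noncomputable section

namespace Pool.Agent.MP_af6f1c_gt.Geo

open Pool.Agent.H80 (Sx face)

/-! ### singular chains with coefficients in a field -/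

section chains

variable (K : Type) [Field K] {X Y : Type} [TopologicalSpace X] [TopologicalSpace Y]

/-- singular `n`-chains -/
abbrev Ch (n : ℕ) (X : Type) [TopologicalSpace X] : Type := C(Sx n, X) →₀ K

/-- boundary -/
def bd (n : ℕ) : Ch K (n + 1) X →ₗ[K] Ch K n X :=
  linearCombination K fun σ => ∑ i : Fin (n + 2), (-1 : K) ^ (i : ℕ) • single (σ.comp (face i)) 1

/-- chains carried by `A` -/
def In (n : ℕ) (A : Set X) : Submodule K (Ch K n X) := supported K K {σ | ∀ t, σ t ∈ A}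

open Classical in
/-- push forward along any function; meaningful on chains carried by a set where `f` is
continuous -/
def push (n : ℕ) (f : X → Y) : Ch K n X →ₗ[K] Ch K n Y :=
  linearCombination K fun σ =>
    if h : Continuous fun t => f (σ t) then single ⟨fun t => f (σ t), h⟩ 1 else 0

/-- relative cycles of the pair `(S, A)` -/
def Zr : (n : ℕ) → Set X → Set X → Submodule K (Ch K n X)
  | 0, S, _ => In K 0 S
  | n + 1, S, A => In K (n + 1) S ⊓ (In K n A).comap (bd K n)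

/-- relative boundaries of the pair `(S, A)` -/
def Br (n : ℕ) (S A : Set X) : Submodule K (Ch K n X) :=
  In K n A ⊔ (In K (n + 1) S).map (bd K n)

variable {K} in
/-- the image of `Z` modulo `B` has dimension at most `r` -/
def Rk {V : Type} [AddCommGroup V] [Module K V] (Z B : Submodule K V) (r : ℕ) : Prop :=
  Module.rank K (Z.map B.mkQ) ≤ r

/-- the map `H_n(S, A) → H_n(S', A')` induced by inclusion has rank at most `r` -/
def RP (n : ℕ) (S A S' A' : Set X) (r : ℕ) : Prop := Rk (Zr K n S A) (Br K n S' A') r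

/-- the map `H_n(S, S ∩ O) → H_n(S', S' ∩ O)` has rank at most `r` -/
def RO (n : ℕ) (O S S' : Set X) (r : ℕ) : Prop := RP K n S (S ∩ O) S' (S' ∩ O) r

/-- local homology rank at a set -/
def Loc (n : ℕ) (O Γ : Set X) (r : ℕ) : Prop := ∀ V' ∈ 𝓝ˢ Γ, ∃ V ∈ 𝓝ˢ Γ, RO K n O V V' r

/-- local homology rank at a point -/
def Lp (n : ℕ) (O : Set X) (x : X) (r : ℕ) : Prop := ∀ V' ∈ 𝓝 x, ∃ V ∈ 𝓝 x, RO K n O V V' r

/-- the `n`-th homology of the subspace `S` has dimension at most `r` -/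
def RH (n : ℕ) (S : Set X) (r : ℕ) : Prop := RP K n S ∅ S ∅ r

end chains

/-- the open set of the suspended pair -/
def SO {X : Type} (O : Set X) (E : Type) [Zero E] : Set (X × E) := {p | p.1 ∈ O ∨ p.2 ≠ 0}

/-! ### complexes whose cells are products of simplices -/

section cells

variable {J V : Type} [Fintype J] [Fintype V]

/-- the union of the open cells with supports in `𝒮` -/
def Pl (𝒮 : Set (J → Finset V)) : Set (J → V → ℝ) :=
  {x | (∀ j v, 0 ≤ x j v) ∧ (∀ j, ∑ v, x j v = 1) ∧ ∃ S ∈ 𝒮, ∀ j v, x j v ≠ 0 ↔ v ∈ S j}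

/-- closed under faces -/
def Dn (𝒮 : Set (J → Finset V)) : Prop := ∀ S ∈ 𝒮, ∀ S' : J → Finset V, (∀ j, S' j ⊆ S j) → S' ∈ 𝒮

/-- dimension of a cell -/
def cdim (S : J → Finset V) : ℕ := ∑ j, ((S j).card - 1)

/-- geometric realisation of a simplicial complex -/
def Cx (𝒩 : Set (Finset V)) : Set (V → ℝ) :=
  {y | (∀ v, 0 ≤ y v) ∧ ∑ v, y v = 1 ∧ ∃ S ∈ 𝒩, ∀ v, y v ≠ 0 ↔ v ∈ S}

end cells

/-! ### geodesic structure of a metric space -/

/-- Euclidean space -/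
abbrev Eu (n : ℕ) : Type := EuclideanSpace ℝ (Fin n)

/-- second derivative -/
abbrev D2 {D : Type} [NormedAddCommGroup D] [NormedSpace ℝ D] (F : D → ℝ) (x : D) :
    D →L[ℝ] D →L[ℝ] ℝ := fderiv ℝ (fderiv ℝ F) x

/-- twist condition for a bilinear form on `E × E` -/
def Tw {E : Type} [NormedAddCommGroup E] [NormedSpace ℝ E]
    (H : (E × E) →L[ℝ] (E × E) →L[ℝ] ℝ) : Prop :=
  (∀ u, (∀ v, H (u, 0) (0, v) = 0) → u = 0) ∧ ∀ v, (∀ u, H (u, 0) (0, v) = 0) → v = 0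

section geo

variable {M : Type} [MetricSpace M]

/-- squared distance read in two charts -/
def sqd {n : ℕ} (φ ψ : OpenPartialHomeomorph M (Eu n)) (w : Eu n × Eu n) : ℝ :=
  dist (φ.symm w.1) (ψ.symm w.2) ^ 2

/-- `γ` is locally an isometry with speed `c` -/
def LocMin (γ : ℝ → M) (c : ℝ) : Prop :=
  ∃ ε > (0 : ℝ), ∀ s t : ℝ, |s - t| < ε → dist (γ s) (γ t) = c * |s - t|

/-- closed geodesic of period one and length `c` -/
def CG (γ : ℝ → M) (c : ℝ) : Prop :=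
  Continuous γ ∧ Function.Periodic γ 1 ∧ 0 < c ∧ LocMin γ c

/-- the metric properties of short geodesics, valid for points in a set `B` up to size `ρ` -/
structure Short (B : Set M) (ρ : ℝ) : Prop where
  btw : ∀ x ∈ B, ∀ y, dist x y < ρ → ∀ t ∈ Icc (0 : ℝ) 1,
    ∃! z, dist x z = t * dist x y ∧ dist z y = (1 - t) * dist x y
  ext : ∀ x ∈ B, ∀ y, x ≠ y → ∀ s, dist x y ≤ s → s < ρ →
    ∃ z, dist x z = s ∧ dist x y + dist y z = s
  nobr : ∀ x ∈ B, ∀ z y y', x ≠ z → dist x y < ρ → dist x y' = dist x y →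
    dist x z + dist z y = dist x y → dist x z + dist z y' = dist x y' → y = y'
  mid : ∀ x ∈ B, ∀ a b m, dist x a < ρ → dist x b < ρ → a ≠ b → dist a m = dist a b / 2 →
    dist m b = dist a b / 2 → 2 * dist x m ^ 2 < dist x a ^ 2 + dist x b ^ 2

variable (M) in
/-- what Riemannian geometry delivers -/
structure G0 (n : ℕ) (ρ : ℝ) (ch : M → OpenPartialHomeomorph M (Eu n)) : Prop where
  pos : 0 < ρ
  short : Short (univ : Set M) ρ
  mem : ∀ p, p ∈ (ch p).source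
  smooth : ∀ p q, dist p q < ρ → ContDiffAt ℝ 2 (sqd (ch p) (ch q)) (ch p p, ch q q)
  twist : ∀ p q, dist p q < ρ → Tw (D2 (sqd (ch p) (ch q)) (ch p p, ch q q))

variable (M) in
/-- geodesic structure -/
structure GS (n : ℕ) where
  ρ : ℝ
  ch : M → OpenPartialHomeomorph M (Eu n)
  seg : M → M → ℝ → M
  g0 : G0 M n ρ ch
  cont : ContinuousOn (fun q : M × M × ℝ => seg q.1 q.2.1 q.2.2)
    {q | dist q.1 q.2.1 < ρ ∧ q.2.2 ∈ Icc (0 : ℝ) 1}
  zero : ∀ x y, dist x y < ρ → seg x y 0 = x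
  one : ∀ x y, dist x y < ρ → seg x y 1 = y
  dist_seg : ∀ x y, dist x y < ρ → ∀ s ∈ Icc (0 : ℝ) 1, ∀ t ∈ Icc (0 : ℝ) 1,
    dist (seg x y s) (seg x y t) = |s - t| * dist x y
  uniq : ∀ x y, dist x y < ρ → ∀ t ∈ Icc (0 : ℝ) 1, ∀ z, dist x z = t * dist x y →
    dist z y = (1 - t) * dist x y → z = seg x y t
  locmin : ∀ (γ : ℝ → M) (c : ℝ), 0 ≤ c → LocMin γ c → ∀ s t, c * |s - t| < ρ →
    dist (γ s) (γ t) = c * |s - t|

variable (M) in
/-- the free loop space -/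
abbrev Lo : Type := C(UnitAddCircle, M)

/-- a loop as a periodic curve -/
def crv (l : Lo M) (t : ℝ) : M := l (t : UnitAddCircle)

open Classical in
/-- the loop given by a closed curve on `[0, 1]` -/
def mkL (γ : ℝ → M) : Lo M :=
  if h : Continuous (AddCircle.liftIco 1 0 γ) then ⟨_, h⟩ else ContinuousMap.const _ (γ 0)

/-- length of a curve on `[0, 1]` -/
def len (γ : ℝ → M) : ℝ≥0∞ := eVariationOn γ (Icc 0 1)

variable (M) in
/-- loops of length at most `a` -/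
def LL (a : ℝ) : Set (Lo M) := {l | len (crv l) ≤ ENNReal.ofReal a}

variable (M) in
/-- chains homologous to a cycle of loops of length at most `a` -/
def Fil (K : Type) [Field K] (i : ℕ) (a : ℝ) : Submodule K (Ch K i (Lo M)) :=
  Zr K i (LL M a) ∅ ⊔ Br K i univ ∅

/-- loops that oscillate less than `ε` on intervals of length `1 / J` -/
def Osc (J : ℕ) (ε : ℝ) : Set (Lo M) :=
  {l | ∀ s t : ℝ, |s - t| ≤ 1 / J → dist (crv l s) (crv l t) < ε}

/-- sampling at `N` points -/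
def smp (N : ℕ) (γ : ℝ → M) : ZMod N → M := fun j => γ ((j.val : ℝ) / N)

/-- discrete energy -/
def En {N : ℕ} [NeZero N] (x : ZMod N → M) : ℝ := ∑ j, dist (x j) (x (j + 1)) ^ 2

/-- the strict sublevel set that belongs to the length `c` -/
def Sub (M : Type) [MetricSpace M] (N : ℕ) [NeZero N] (c : ℝ) : Set (ZMod N → M) :=
  {x | En x < c ^ 2 / N}

/-- the samples of all shifts of a curve -/
def orb (N : ℕ) (γ : ℝ → M) : Set (ZMod N → M) := range fun s : ℝ => smp N fun t => γ (t + s)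

/-- `m`-fold iterate -/
def itr (m : ℕ) (γ : ℝ → M) : ℝ → M := fun t => γ (m * t)

/-- local homology rank of a closed geodesic -/
def LocG (K : Type) [Field K] (i : ℕ) (γ : ℝ → M) (c : ℝ) (r : ℕ) : Prop :=
  ∃ N₀ : ℕ, ∀ (N : ℕ) [NeZero N], N₀ ≤ N → Loc K i (Sub M N c) (orb N γ) r

variable (M) in
/-- finitely many closed geodesics below every length, up to shift -/
def FinOrb : Prop :=
  ∀ b : ℝ, ∃ T : Set (ℝ → M), T.Finite ∧
    ∀ γ c, CG γ c → c ≤ b → ∃ γ' ∈ T, ∃ s : ℝ, ∀ t, γ t = γ' (t + s)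

namespace GS

variable {n : ℕ} (G : GS M n)

/-- admissible vertex sequences -/
def Gd (N : ℕ) : Set (ZMod N → M) := {x | ∀ j, dist (x j) (x (j + 1)) < G.ρ}

/-- broken geodesic -/
def bg {N : ℕ} (x : ZMod N → M) (t : ℝ) : M :=
  G.seg (x (⌊(N : ℝ) * t⌋ : ℤ)) (x ((⌊(N : ℝ) * t⌋ : ℤ) + 1)) (Int.fract ((N : ℝ) * t))

/-- rotation followed by resampling -/
def rot {N : ℕ} (s : ℝ) (x : ZMod N → M) : ZMod N → M := smp N fun t => G.bg x (t + s)

/-- broken geodesic as a loop -/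
def toL {N : ℕ} (x : ZMod N → M) : Lo M := mkL (G.bg x)

end GS

end geo

/-! ### periodic discrete Lagrangians -/

section disc

variable {E : Type} [NormedAddCommGroup E] [NormedSpace ℝ E]

/-- cyclic sum of two-point bilinear forms -/
def QF (H : ℕ → (E × E) →L[ℝ] (E × E) →L[ℝ] ℝ) (N : ℕ) [NeZero N] (ξ η : ZMod N → E) : ℝ :=
  ∑ j : ZMod N, H j.val (ξ j, ξ (j + 1)) (η j, η (j + 1))

/-- cyclic sum of two-point functions -/
def AF (S : ℕ → E × E → ℝ) (N : ℕ) [NeZero N] (ξ : ZMod N → E) : ℝ :=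
  ∑ j : ZMod N, S j.val (ξ j, ξ (j + 1))

variable (E) in
/-- sequences of period `T` -/
def Fx (N T : ℕ) : Submodule ℝ (ZMod N → E) where
  carrier := {ξ | ∀ j, ξ (j + (T : ZMod N)) = ξ j}
  add_mem' := fun ha hb j => by simp [ha j, hb j]
  zero_mem' := fun _ => rfl
  smul_mem' := fun c _ ha j => by simp [ha j]

end disc

/-! ### geodesic flow in a chart -/

/-- the metric tensor `g` in the chart `φ` computes the distance -/
structure CM {M : Type} [MetricSpace M] {n : ℕ} (φ : OpenPartialHomeomorph M (Eu n))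
    (g : Eu n → Eu n →L[ℝ] Eu n →L[ℝ] ℝ) : Prop where
  smooth : ContDiffOn ℝ ∞ g φ.target
  symm : ∀ y ∈ φ.target, ∀ v w, g y v w = g y w v
  pos : ∀ y ∈ φ.target, ∀ v, v ≠ 0 → 0 < g y v v
  upper : ∀ (c : ℝ → Eu n) (l : ℝ), ContDiffOn ℝ 1 c (Icc 0 1) → MapsTo c (Icc 0 1) φ.target →
    0 ≤ l → (∀ t ∈ Ioo (0 : ℝ) 1, g (c t) (deriv c t) (deriv c t) ≤ l ^ 2) →
    dist (φ.symm (c 0)) (φ.symm (c 1)) ≤ l
  lower : ∀ (W : Set (Eu n)) (f : Eu n → ℝ) (x y : M) (r : ℝ), IsOpen W → W ⊆ φ.target →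
    ContDiffOn ℝ 1 f W → (∀ z ∈ W, ∀ w, fderiv ℝ f z w ^ 2 ≤ g z w w) →
    ball x r ⊆ φ.source ∩ φ ⁻¹' W → dist x y < r → |f (φ y) - f (φ x)| ≤ dist x y

/-- local geodesic flow and logarithm of the metric tensor `g` near `p` -/
structure GD {n : ℕ} (g : Eu n → Eu n →L[ℝ] Eu n →L[ℝ] ℝ) (U : Set (Eu n)) (p : Eu n) where
  r : ℝ
  R : ℝ
  fl : ℝ → Eu n × Eu n → Eu n × Eu n
  lg : Eu n × Eu n → Eu n
  r_pos : 0 < r
  R_pos : 0 < R
  sm : ContDiff ℝ ∞ fun q : ℝ × (Eu n × Eu n) => fl q.1 q.2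
  zero : ∀ a, fl 0 a = a
  add : ∀ s t a, fl (s + t) a = fl s (fl t a)
  mem : ∀ x ∈ ball p r, ∀ v ∈ ball (0 : Eu n) R, ∀ t ∈ Icc (-2 : ℝ) 2, (fl t (x, v)).1 ∈ U
  der : ∀ x ∈ ball p r, ∀ v ∈ ball (0 : Eu n) R, ∀ t ∈ Icc (-2 : ℝ) 2,
    HasDerivAt (fun s => (fl s (x, v)).1) (fl t (x, v)).2 t
  el : ∀ x ∈ ball p r, ∀ v ∈ ball (0 : Eu n) R, ∀ t ∈ Icc (-2 : ℝ) 2, ∀ w,
    HasDerivAt (fun s => g (fl s (x, v)).1 (fl s (x, v)).2 w)
      (1 / 2 * fderiv ℝ g (fl t (x, v)).1 w (fl t (x, v)).2 (fl t (x, v)).2) t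
  scale : ∀ x ∈ ball p r, ∀ v ∈ ball (0 : Eu n) R, ∀ s ∈ Icc (-1 : ℝ) 1, ∀ t ∈ Icc (-2 : ℝ) 2,
    fl t (x, s • v) = ((fl (s * t) (x, v)).1, s • (fl (s * t) (x, v)).2)
  lg_sm : ContDiffOn ℝ ∞ lg (ball p r ×ˢ ball p r)
  lg_mem : ∀ x ∈ ball p r, ∀ y ∈ ball p r, lg (x, y) ∈ ball (0 : Eu n) R
  lg_ex : ∀ x ∈ ball p r, ∀ y ∈ ball p r, (fl 1 (x, lg (x, y))).1 = y
  lg_uniq : ∀ x ∈ ball p r, ∀ v ∈ ball (0 : Eu n) R, (fl 1 (x, v)).1 ∈ ball p r →
    lg (x, (fl 1 (x, v)).1) = v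
  lg_der : ∀ u v, fderiv ℝ lg (p, p) (u, v) = v - u

namespace GD

variable {n : ℕ} {g : Eu n → Eu n →L[ℝ] Eu n →L[ℝ] ℝ} {U : Set (Eu n)} {p : Eu n} (D : GD g U p)

/-- energy of the short geodesic between two points -/
def e (w : Eu n × Eu n) : ℝ := g w.1 (D.lg w) (D.lg w)

/-- conservation of energy, first variation and the Hessian on the diagonal -/
structure FV : Prop where
  cons : ∀ x ∈ ball p D.r, ∀ v ∈ ball (0 : Eu n) D.R, ∀ t ∈ Icc (-2 : ℝ) 2,
    g (D.fl t (x, v)).1 (D.fl t (x, v)).2 (D.fl t (x, v)).2 = g x v v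
  sm : ContDiffOn ℝ ∞ D.e (ball p D.r ×ˢ ball p D.r)
  var : ∀ x ∈ ball p D.r, ∀ y ∈ ball p D.r, ∀ u w, fderiv ℝ D.e (x, y) (u, w) =
    2 * g y (D.fl 1 (x, D.lg (x, y))).2 w - 2 * g x (D.lg (x, y)) u
  hess : ∀ u v u' v', D2 D.e (p, p) (u, v) (u', v') = 2 * g p (v - u) (v' - u')

end GD

/-! ### the three-sphere and its path space -/

/-- unit quaternions -/
abbrev S3 : Type := sphere (0 : Quaternion ℝ) 1

/-- paths in the three-sphere -/
abbrev PS : Type := C(unitInterval, S3)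

/-- paths from `1` to `q` -/
def Om (q : S3) : Set PS := {w | w 0 = 1 ∧ w 1 = q}

/-- paths from `1` to `q` of length at most `a` -/
def OmL (q : S3) (a : ℝ) : Set PS := {w | w ∈ Om q ∧ eVariationOn w univ ≤ ENNReal.ofReal a}

end Pool.Agent.MP_af6f1c_gt.Geo
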