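import Mathlib.Geometry.Manifold.Riemannian.Basic
import Mathlib.Geometry.Manifold.Instances.Real
import Mathlib.AlgebraicTopology.FundamentalGroupoid.SimplyConnected
import Mathlib.Analysis.Convex.Function
import Mathlib.Analysis.SpecialFunctions.Log.Basic
import Mathlib.Analysis.SpecialFunctions.Complex.Circle
import Pool.Agent.MP_af6f1c_gt.geo.Core

/-! PROJECT GEO: the statements of all rows. -/

open Set Topology Metric Module Bundle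
open scoped ContDiff ENNReal Manifold

noncomputable section

namespace Pool.Agent.MP_af6f1c_gt.Geo

section hom

variable (K : Type) [Field K]

/-- row PRISM: the prism operator -/
def PrismStmt : Prop :=
  ∀ (X Y : Type) [TopologicalSpace X] [TopologicalSpace Y] (h : ℝ × X → Y),
    ∃ P : ∀ n, Ch K n X →ₗ[K] Ch K (n + 1) Y, ∀ S : Set X,
      ContinuousOn h (Icc 0 1 ×ˢ S) →
      (∀ n (S' : Set Y), MapsTo h (Icc 0 1 ×ˢ S) S' → ∀ z ∈ In K n S, P n z ∈ In K (n + 1) S') ∧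
      (∀ z ∈ In K 0 S, bd K 0 (P 0 z) =
        push K 0 (fun x => h (1, x)) z - push K 0 (fun x => h (0, x)) z) ∧
      ∀ n, ∀ z ∈ In K (n + 1) S, bd K (n + 1) (P (n + 1) z) + P n (bd K n z) =
        push K (n + 1) (fun x => h (1, x)) z - push K (n + 1) (fun x => h (0, x)) z

/-- row PRISM: homotopy invariance for pairs -/
def HomStmt : Prop :=
  ∀ (X Y : Type) [TopologicalSpace X] [TopologicalSpace Y] (h : ℝ × X → Y) (S A : Set X)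
    (S' A' : Set Y) (n : ℕ), A ⊆ S → ContinuousOn h (Icc 0 1 ×ˢ S) →
    MapsTo h (Icc 0 1 ×ˢ S) S' → MapsTo h (Icc 0 1 ×ˢ A) A' → ∀ z ∈ Zr K n S A,
    push K n (fun x => h (1, x)) z - push K n (fun x => h (0, x)) z ∈ Br K n S' A'

/-- row EXC: excision, surjective and injective part -/
def ExcStmt : Prop :=
  ∀ (X : Type) [TopologicalSpace X] (S A U V : Set X) (n : ℕ), IsOpen U → IsOpen V →
    S ⊆ U ∪ V → S ∩ V ⊆ A → A ⊆ S →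
    Zr K n S A ≤ Zr K n (S ∩ U) (A ∩ U) ⊔ Br K n S A ∧
    Zr K n (S ∩ U) (A ∩ U) ⊓ Br K n S A ≤ Br K n (S ∩ U) (A ∩ U)

/-- row EXC: rank inequality of a triple -/
def TriStmt : Prop :=
  ∀ (X : Type) [TopologicalSpace X] (S A B S₁ A₁ B₁ S' A' : Set X) (n r₁ r₂ : ℕ),
    A ⊆ B → A ⊆ A₁ → S₁ ⊆ S' → RP K n S B S₁ B₁ r₁ → RP K n B₁ A₁ S' A' r₂ →
    RP K n S A S' A' (r₁ + r₂)

/-- row EXC: Mayer-Vietoris rank inequality -/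
def MVStmt : Prop :=
  ∀ (X : Type) [TopologicalSpace X] (O S U₁ U₂ T T₁ T₂ S' : Set X) (n r₀ r₁ r₂ : ℕ),
    IsOpen U₁ → IsOpen U₂ → S ⊆ U₁ ∪ U₂ → S ⊆ S' → S ∩ U₁ ⊆ T₁ → S ∩ U₂ ⊆ T₂ →
    (RO K 0 O T₁ S' r₁ → RO K 0 O T₂ S' r₂ → RO K 0 O S S' (r₁ + r₂)) ∧
    (T ⊆ T₁ → T ⊆ T₂ → RO K n O (S ∩ U₁ ∩ U₂) T r₀ → RO K (n + 1) O T₁ S' r₁ →
      RO K (n + 1) O T₂ S' r₂ → RO K (n + 1) O S S' (r₀ + r₁ + r₂))

/-- row EXC: additivity over separated pieces -/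
def DisjStmt : Prop :=
  ∀ (X : Type) [TopologicalSpace X] (O S U₁ U₂ S' A' : Set X) (n r₁ r₂ : ℕ),
    IsOpen U₁ → IsOpen U₂ → Disjoint U₁ U₂ → S ⊆ U₁ ∪ U₂ →
    RP K n (S ∩ U₁) (S ∩ U₁ ∩ O) S' A' r₁ → RP K n (S ∩ U₂) (S ∩ U₂ ∩ O) S' A' r₂ →
    RP K n S (S ∩ O) S' A' (r₁ + r₂)

/-- row DEF: deformation of the part of a cycle that lies in `U` -/
def DefStmt : Prop :=
  ∀ (X : Type) [TopologicalSpace X] (h : ℝ × X → X) (S U V S' S'' : Set X) (n : ℕ),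
    IsOpen U → IsOpen V → S ⊆ U ∪ V → ContinuousOn h (Icc 0 1 ×ˢ (S ∩ U)) →
    (∀ x ∈ S ∩ U, h (0, x) = x) → S ⊆ S' → MapsTo h (Icc 0 1 ×ˢ (S ∩ U)) S' → S ∩ V ⊆ S'' →
    MapsTo h (Icc 0 1 ×ˢ (S ∩ U ∩ V)) S'' → (∀ x ∈ S ∩ U, h (1, x) ∈ S'') →
    Zr K n S ∅ ≤ Zr K n S'' ∅ ⊔ Br K n S' ∅

/-- row DEF: local domination -/
def DomStmt : Prop :=
  ∀ (X Y : Type) [TopologicalSpace X] [TopologicalSpace Y] (f : X → Y) (g : Y → X)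
    (h : ℝ × X → X) (x₀ : X) (y₀ : Y) (O W : Set X) (O' W' : Set Y) (n r : ℕ),
    W ∈ 𝓝 x₀ → W' ∈ 𝓝 y₀ → ContinuousOn f W → ContinuousOn g W' → f x₀ = y₀ → g y₀ = x₀ →
    MapsTo f (W ∩ O) O' → MapsTo g (W' ∩ O') O → ContinuousOn h (Icc 0 1 ×ˢ W) →
    (∀ x ∈ W, h (0, x) = x) → (∀ x ∈ W, h (1, x) = g (f x)) →
    (∀ u ∈ Icc (0 : ℝ) 1, h (u, x₀) = x₀) → MapsTo h (Icc 0 1 ×ˢ (W ∩ O)) O →
    Lp K n O' y₀ r → Lp K n O x₀ r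

/-- row DEF: homology of a point, and transport of ranks along a homotopy domination -/
def PtStmt : Prop :=
  (∀ (X : Type) [TopologicalSpace X] (x : X),
    RH K 0 ({x} : Set X) 1 ∧ ∀ n, RH K (n + 1) ({x} : Set X) 0) ∧
  ∀ (X Y : Type) [TopologicalSpace X] [TopologicalSpace Y] (f : X → Y) (g : Y → X)
    (h : ℝ × X → X) (S A S' A' : Set X) (T B T' B' : Set Y) (n r : ℕ), A ⊆ S → B' ⊆ T' →
    ContinuousOn f S → ContinuousOn g T' → MapsTo f S T → MapsTo f A B → MapsTo g T' S' →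
    MapsTo g B' A' → ContinuousOn h (Icc 0 1 ×ˢ S) → (∀ x ∈ S, h (0, x) = x) →
    (∀ x ∈ S, h (1, x) = g (f x)) → MapsTo h (Icc 0 1 ×ˢ S) S' → MapsTo h (Icc 0 1 ×ˢ A) A' →
    RP K n T B T' B' r → RP K n S A S' A' r

/-- the homological tool box -/
structure Tools : Prop where
  prism : PrismStmt K
  hom : HomStmt K
  exc : ExcStmt K
  tri : TriStmt K
  mv : MVStmt K
  disj : DisjStmt K
  dfm : DefStmt K
  dom : DomStmt K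
  pt : PtStmt K

/-- row LINK: comparison with the singular homology of Mathlib -/
def LinkStmt : Prop :=
  ∀ (M : Type) [MetricSpace M] (i r : ℕ),
    RH K i (univ : Set (Lo M)) r ↔ Module.rank K (LH K M i) ≤ r

/-- row SUSP: the suspension isomorphism on the chain level -/
def SuspStmt : Prop :=
  ∀ (X : Type) [TopologicalSpace X] (μ : ℕ),
    ∃ c : ∀ n, Ch K n X →ₗ[K] Ch K (n + μ) (X × (Fin μ → ℝ)),
      (∀ n (V A : Set X), A ⊆ V → ∀ z ∈ Zr K n V A, c n z ∈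
        Zr K (n + μ) (V ×ˢ closedBall 0 1) (A ×ˢ closedBall 0 1 ∪ V ×ˢ sphere 0 1)) ∧
      (∀ n (V A : Set X), A ⊆ V → ∀ z ∈ Br K n V A, c n z ∈
        Br K (n + μ) (V ×ˢ univ) (A ×ˢ univ ∪ V ×ˢ {0}ᶜ)) ∧
      (∀ n (V O : Set X), IsOpen O →
        (∀ w ∈ Zr K (n + μ) (V ×ˢ univ) (V ×ˢ univ ∩ SO O (Fin μ → ℝ)),
          ∃ z ∈ Zr K n V (V ∩ O),
            w - c n z ∈ Br K (n + μ) (V ×ˢ univ) (V ×ˢ univ ∩ SO O (Fin μ → ℝ))) ∧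
        ∀ z ∈ Zr K n V (V ∩ O),
          c n z ∈ Br K (n + μ) (V ×ˢ univ) (V ×ˢ univ ∩ SO O (Fin μ → ℝ)) →
          z ∈ Br K n V (V ∩ O)) ∧
      ∀ j < μ, ∀ V O : Set X, IsOpen O →
        RO K j (SO O (Fin μ → ℝ)) (V ×ˢ univ) (V ×ˢ univ) 0

/-- row SUSP: rank form for any finite dimensional fibre -/
def SuspRkStmt : Prop :=
  ∀ (X E : Type) [TopologicalSpace X] [NormedAddCommGroup E] [NormedSpace ℝ E]
    [FiniteDimensional ℝ E] (O V V' : Set X), IsOpen O → V ⊆ V' →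
    (∀ n r, RO K n O V V' r → RO K (n + finrank ℝ E) (SO O E) (V ×ˢ univ) (V' ×ˢ univ) r) ∧
    ∀ j < finrank ℝ E, RO K j (SO O E) (V ×ˢ univ) (V' ×ˢ univ) 0

/-- row CELL: cells bound the homology of a pair of complexes -/
def CellStmt : Prop :=
  ∀ (J V : Type) [Fintype J] [Fintype V] (𝒮 𝒮' : Set (J → Finset V)), Dn 𝒮 → Dn 𝒮' → 𝒮' ⊆ 𝒮 →
    ∀ i, RP K i (Pl 𝒮) (Pl 𝒮') (Pl 𝒮) (Pl 𝒮') {S | S ∈ 𝒮 \ 𝒮' ∧ cdim S = i}.ncard

/-- row CUBE: a compact pair in an open pair -/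
def CubeStmt : Prop :=
  ∀ (E : Type) [NormedAddCommGroup E] [NormedSpace ℝ E] [FiniteDimensional ℝ E]
    (C A V B : Set E), IsCompact C → IsCompact A → A ⊆ C → IsOpen V → IsOpen B → C ⊆ V → A ⊆ B →
    B ⊆ V → ∃ r, (∀ j, RP K j C A V B r) ∧ ∀ j, finrank ℝ E < j → RP K j C A V B 0

/-- row CUBE: no homology above the dimension -/
def DimStmt : Prop :=
  ∀ (E : Type) [NormedAddCommGroup E] [NormedSpace ℝ E] [FiniteDimensional ℝ E]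
    (O W : Set E) (x : E) (j : ℕ), W ∈ 𝓝 x → (∃ O', IsOpen O' ∧ W ∩ O = W ∩ O') →
    finrank ℝ E < j → Lp K j O x 0

/-- row CVX: strictly concave directions shift the degree -/
def ConcStmt : Prop :=
  ∀ (X E : Type) [TopologicalSpace X] [NormedAddCommGroup E] [NormedSpace ℝ E]
    [FiniteDimensional ℝ E] (F : X × E → ℝ) (f : X → ℝ) (x₀ : X) (W : Set X) (δ : ℝ),
    W ∈ 𝓝 x₀ → 0 < δ → ContinuousOn F (W ×ˢ closedBall 0 δ) →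
    (∀ x ∈ W, StrictConcaveOn ℝ (closedBall 0 δ) fun e => F (x, e)) →
    (∀ x ∈ W, IsGreatest ((fun e => F (x, e)) '' closedBall 0 δ) (f x)) → f x₀ = F (x₀, 0) →
    (∀ n r, Lp K n {x | f x < f x₀} x₀ r →
      Lp K (n + finrank ℝ E) {p | F p < f x₀} (x₀, 0) r) ∧
    ∀ j < finrank ℝ E, Lp K j {p | F p < f x₀} (x₀, 0) 0

/-- row CVX: strictly convex directions can be dropped -/
def ConvStmt : Prop :=
  ∀ (X E : Type) [TopologicalSpace X] [NormedAddCommGroup E] [NormedSpace ℝ E]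
    [FiniteDimensional ℝ E] (F : X × E → ℝ) (f : X → ℝ) (x₀ : X) (W : Set X) (δ : ℝ),
    W ∈ 𝓝 x₀ → 0 < δ → ContinuousOn F (W ×ˢ closedBall 0 δ) →
    (∀ x ∈ W, StrictConvexOn ℝ (closedBall 0 δ) fun e => F (x, e)) →
    (∀ x ∈ W, IsLeast ((fun e => F (x, e)) '' closedBall 0 δ) (f x)) → f x₀ = F (x₀, 0) →
    ContinuousOn f W ∧
    ∀ n r, Lp K n {x | f x < f x₀} x₀ r → Lp K n {p | F p < f x₀} (x₀, 0) r

/-- row SPLV: the local homology of a critical point lives in the index window -/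
def SplitVStmt : Prop :=
  ∀ (D : Type) [NormedAddCommGroup D] [NormedSpace ℝ D] [FiniteDimensional ℝ D] (F : D → ℝ)
    (U : Submodule ℝ D), ContDiffAt ℝ 2 F 0 → fderiv ℝ F 0 = 0 →
    ((∀ u ∈ U, u ≠ 0 → D2 F 0 u u < 0) → ∀ j < finrank ℝ U, Lp K j {x | F x < F 0} 0 0) ∧
    ((∀ u ∈ U, u ≠ 0 → 0 < D2 F 0 u u) →
      ∀ j, finrank ℝ D < j + finrank ℝ U → Lp K j {x | F x < F 0} 0 0)

/-- row SPLB: reduction to an invariant subspace with nondegenerate normal Hessian -/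
def SplitBStmt : Prop :=
  ∀ (D : Type) [NormedAddCommGroup D] [NormedSpace ℝ D] [FiniteDimensional ℝ D] (F : D → ℝ)
    (Y Nm Np : Submodule ℝ D) (r : ℕ), ContDiffAt ℝ 2 F 0 → IsCompl Y (Nm ⊔ Np) →
    (∀ u ∈ Nm, u ≠ 0 → D2 F 0 u u < 0) → (∀ u ∈ Np, u ≠ 0 → 0 < D2 F 0 u u) →
    (∀ᶠ y : Y in 𝓝 0, ∀ u ∈ Nm ⊔ Np, fderiv ℝ F y u = 0) →
    (∀ j, Lp K j {y : Y | F y < F 0} 0 r) → ∀ j, Lp K j {x | F x < F 0} 0 r

/-- row ISO: finite local homology at a point that is isolated for a descending deformation -/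
def IsoStmt : Prop :=
  ∀ (X D : Type) [MetricSpace X] [NormedAddCommGroup D] [NormedSpace ℝ D] [FiniteDimensional ℝ D]
    (φ : OpenPartialHomeomorph X D) (F : X → ℝ) (k : ℝ × X → X) (x₀ : X) (W : Set X),
    x₀ ∈ φ.source → Continuous F → W ∈ 𝓝 x₀ → ContinuousOn k (Icc 0 1 ×ˢ W) →
    (∀ x ∈ W, k (0, x) = x) → (∀ u ∈ Icc (0 : ℝ) 1, k (u, x₀) = x₀) →
    (∀ u ∈ Icc (0 : ℝ) 1, ∀ x ∈ W, F (k (u, x)) ≤ F x) →
    (∀ x ∈ W, F (k (1, x)) = F x → F x = F x₀ ∧ k (1, x) = x₀) →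
    ∃ r, ∀ j, Lp K j {x | F x < F x₀} x₀ r

end hom

/-! ### Riemannian geometry -/

/-- row R1: the metric tensor in a chart -/
def ChartMetricStmt : Prop :=
  ∀ (n : ℕ) (M : Type) [MetricSpace M] [ChartedSpace (Eu n) M] [IsManifold (𝓡 n) ∞ M]
    [RiemannianBundle (fun x : M => TangentSpace (𝓡 n) x)]
    [IsContMDiffRiemannianBundle (𝓡 n) ∞ (Eu n) (fun x : M => TangentSpace (𝓡 n) x)]
    [IsRiemannianManifold (𝓡 n) M] (p : M), ∃ g, CM (chartAt (Eu n) p) g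

/-- row R2: geodesic flow and logarithm -/
def GeodStmt : Prop :=
  ∀ (n : ℕ) (g : Eu n → Eu n →L[ℝ] Eu n →L[ℝ] ℝ) (U : Set (Eu n)) (p : Eu n), IsOpen U → p ∈ U →
    ContDiffOn ℝ ∞ g U → (∀ y ∈ U, ∀ v w, g y v w = g y w v) →
    (∀ y ∈ U, ∀ v, v ≠ 0 → 0 < g y v v) → Nonempty (GD g U p)

/-- row R3: first variation -/
def VarStmt : Prop :=
  ∀ (n : ℕ) (g : Eu n → Eu n →L[ℝ] Eu n →L[ℝ] ℝ) (U : Set (Eu n)) (p : Eu n) (D : GD g U p),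
    IsOpen U → ContDiffOn ℝ ∞ g U → (∀ y ∈ U, ∀ v w, g y v w = g y w v) → D.FV

/-- row R4: short geodesics realise the distance -/
def DistStmt : Prop :=
  ∀ (n : ℕ) (M : Type) [MetricSpace M] (φ : OpenPartialHomeomorph M (Eu n))
    (g : Eu n → Eu n →L[ℝ] Eu n →L[ℝ] ℝ) (p : M) (D : GD g φ.target (φ p)), p ∈ φ.source →
    CM φ g → D.FV → ∃ r > (0 : ℝ), ball p r ⊆ φ.source ∩ φ ⁻¹' ball (φ p) D.r ∧
      (∀ x ∈ ball p r, ∀ y ∈ ball p r, dist x y ^ 2 = D.e (φ x, φ y)) ∧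
      ∀ x ∈ ball p r, ∀ y ∈ ball p r, ∀ t ∈ Icc (0 : ℝ) 1, ∀ z,
        (dist x z = t * dist x y ∧ dist z y = (1 - t) * dist x y) ↔
          z = φ.symm (D.fl t (φ x, D.lg (φ x, φ y))).1

/-- row R5: extension, no branching, midpoint inequality and twist near a point -/
def LocalStmt : Prop :=
  ∀ (n : ℕ) (M : Type) [MetricSpace M] (φ : OpenPartialHomeomorph M (Eu n))
    (g : Eu n → Eu n →L[ℝ] Eu n →L[ℝ] ℝ) (p : M) (D : GD g φ.target (φ p)) (r : ℝ),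
    p ∈ φ.source → CM φ g → D.FV → 0 < r → ball p r ⊆ φ.source ∩ φ ⁻¹' ball (φ p) D.r →
    (∀ x ∈ ball p r, ∀ y ∈ ball p r, dist x y ^ 2 = D.e (φ x, φ y)) →
    (∀ x ∈ ball p r, ∀ y ∈ ball p r, ∀ t ∈ Icc (0 : ℝ) 1, ∀ z,
      (dist x z = t * dist x y ∧ dist z y = (1 - t) * dist x y) ↔
        z = φ.symm (D.fl t (φ x, D.lg (φ x, φ y))).1) →
    ∃ s > (0 : ℝ), ball p (2 * s) ⊆ φ.source ∧ Short (ball p s) s ∧
      ∀ x ∈ ball p (2 * s), ∀ y ∈ ball p (2 * s),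
        ContDiffAt ℝ 2 (sqd φ φ) (φ x, φ y) ∧ Tw (D2 (sqd φ φ) (φ x, φ y))

/-- row R6: the geodesic structure of a compact Riemannian manifold -/
def RiemStmt : Prop :=
  ∀ (n : ℕ) (M : Type) [MetricSpace M] [ChartedSpace (Eu n) M] [IsManifold (𝓡 n) ∞ M]
    [CompactSpace M] [RiemannianBundle (fun x : M => TangentSpace (𝓡 n) x)]
    [IsContMDiffRiemannianBundle (𝓡 n) ∞ (Eu n) (fun x : M => TangentSpace (𝓡 n) x)]
    [IsRiemannianManifold (𝓡 n) M], ∃ ρ ch, G0 M n ρ ch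

/-- row SEG: from the metric properties to the geodesic structure -/
def SegStmt : Prop :=
  ∀ (n : ℕ) (M : Type) [MetricSpace M] [CompactSpace M] (ρ : ℝ)
    (ch : M → OpenPartialHomeomorph M (Eu n)), G0 M n ρ ch → Nonempty (GS M n)

/-- row SEG: prime closed geodesics -/
def PrimeStmt : Prop :=
  ∀ (n : ℕ) (M : Type) [MetricSpace M] (_ : GS M n) (γ₀ : ℝ → M) (c₀ : ℝ), CG γ₀ c₀ →
    ∃ γ c, CG γ c ∧ range γ = range γ₀ ∧ ∀ γ' c', CG γ' c' → range γ' = range γ₀ →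
      ∃ (m : ℕ) (s : ℝ), 1 ≤ m ∧ c' = m * c ∧
        ((∀ t, γ' t = γ (m * (t + s))) ∨ ∀ t, γ' t = γ (-(m * (t + s))))

/-! ### broken geodesics -/

/-- row LOOP: curves and loops -/
structure LoopStmt (M : Type) [MetricSpace M] : Prop where
  crv_cont : Continuous fun q : Lo M × ℝ => crv q.1 q.2
  crv_per : ∀ l : Lo M, Function.Periodic (crv l) 1
  crv_mk : ∀ γ : ℝ → M, ContinuousOn γ (Icc 0 1) → γ 0 = γ 1 →
    ∀ t ∈ Icc (0 : ℝ) 1, crv (mkL γ) t = γ t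
  crv_mk' : ∀ γ : ℝ → M, Continuous γ → Function.Periodic γ 1 → crv (mkL γ) = γ
  mk_crv : ∀ l : Lo M, mkL (crv l) = l
  mk_cont : ∀ (X : Type) [TopologicalSpace X] (F : X → ℝ → M) (S : Set X),
    ContinuousOn (fun q : X × ℝ => F q.1 q.2) (S ×ˢ Icc 0 1) → (∀ x ∈ S, F x 0 = F x 1) →
    ContinuousOn (fun x => mkL (F x)) S
  dist_lt : ∀ (l l' : Lo M) (ε : ℝ), (∀ t ∈ Icc (0 : ℝ) 1, dist (crv l t) (crv l' t) < ε) →
    dist l l' < ε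
  osc : ∀ C : Set (Lo M), IsCompact C → ∀ ε > (0 : ℝ), ∃ J₀ : ℕ, ∀ J, J₀ ≤ J → C ⊆ Osc J ε

/-- row BG: broken geodesics and the Birkhoff map -/
structure BGStmt {n : ℕ} {M : Type} [MetricSpace M] (G : GS M n) (N : ℕ) [NeZero N] : Prop where
  isOpen : IsOpen (G.Gd N)
  en_cont : Continuous (En : (ZMod N → M) → ℝ)
  sub : ∀ x : ZMod N → M, En x < G.ρ ^ 2 → x ∈ G.Gd N
  cont : ContinuousOn (fun q : (ZMod N → M) × ℝ => G.bg q.1 q.2) (G.Gd N ×ˢ univ)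
  per : ∀ x : ZMod N → M, Function.Periodic (G.bg x) 1
  vert : ∀ x ∈ G.Gd N, ∀ j : ℤ, G.bg x ((j : ℝ) / N) = x j
  smp_bg : ∀ x ∈ G.Gd N, smp N (G.bg x) = x
  len_le : ∀ x ∈ G.Gd N, len (G.bg x) ≤ ENNReal.ofReal (∑ j, dist (x j) (x (j + 1)))
  sum_le : ∀ (γ : ℝ → M) (a : ℝ), Function.Periodic γ 1 → 0 ≤ a → len γ ≤ ENNReal.ofReal a →
    ∑ j, dist (smp N γ j) (smp N γ (j + 1)) ≤ a
  rot_cont : ContinuousOn (fun q : ℝ × (ZMod N → M) => G.rot q.1 q.2) (univ ×ˢ G.Gd N)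
  rot_mem : ∀ s, ∀ x ∈ G.Gd N, G.rot s x ∈ G.Gd N
  rot_zero : ∀ x ∈ G.Gd N, G.rot 0 x = x
  rot_le : ∀ s, ∀ x ∈ G.Gd N, En (G.rot s x) ≤ En x
  birk : ∀ s : ℝ, 0 < s → s < 1 / N → ∀ x ∈ G.Gd N, En (G.rot s x) = En x →
    En x = 0 ∨ ∃ c, CG (G.bg x) c ∧ En x = c ^ 2 / N ∧ c / N < G.ρ
  geo : ∀ γ c, CG γ c → c / N < G.ρ → smp N γ ∈ G.Gd N ∧ G.bg (smp N γ) = γ ∧
    En (smp N γ) = c ^ 2 / N ∧ ∀ s, G.rot s (smp N γ) = smp N fun t => γ (t + s)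
  near : ∀ l ∈ Osc N (G.ρ / 2), smp N (crv l) ∈ G.Gd N ∧ dist l (G.toL (smp N (crv l))) < G.ρ
  toL_cont : ContinuousOn G.toL (G.Gd N)
  crv_toL : ∀ x ∈ G.Gd N, crv (G.toL x) = G.bg x

/-- all basic facts on loops and broken geodesics -/
def Basics : Prop :=
  (∀ (M : Type) [MetricSpace M], LoopStmt M) ∧
  ∀ (n : ℕ) (M : Type) [MetricSpace M] (G : GS M n) (N : ℕ) [NeZero N], BGStmt G N

/-- row CIRC: the phase of the orbit of a closed geodesic -/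
def PhaseStmt : Prop :=
  ∀ (n : ℕ) (M : Type) [MetricSpace M] [CompactSpace M] (G : GS M n) (N : ℕ) [NeZero N]
    (γ : ℝ → M) (c : ℝ), CG γ c → c / N < G.ρ →
    ∃ (T : ℝ) (Θ : (ZMod N → M) → ℂ), 0 < T ∧ Continuous Θ ∧ Function.Periodic γ T ∧
      ∀ s : ℝ, Θ (smp N fun t => γ (t + s)) = Complex.exp (2 * Real.pi * s / T * Complex.I)

/-- row IDX1: the index window of the iterates -/
def IndexStmt : Prop :=
  ∀ (n k : ℕ) (H : ℕ → (Eu n × Eu n) →L[ℝ] (Eu n × Eu n) →L[ℝ] ℝ), 3 ≤ k →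
    (∀ j, H (j + k) = H j) → (∀ j a b, H j a b = H j b a) → (∀ j, Tw (H j)) →
    ∃ α : ℝ, ∀ (m N : ℕ) [NeZero N], N = k * m → ∃ Um Up : Submodule ℝ (ZMod N → Eu n),
      (∀ ξ ∈ Um, ξ ≠ 0 → QF H N ξ ξ < 0) ∧ (∀ ξ ∈ Up, ξ ≠ 0 → 0 < QF H N ξ ξ) ∧
      m * α - n ≤ (finrank ℝ Um : ℝ) ∧ (n * N : ℝ) ≤ finrank ℝ Up + m * α + 3 * n

/-- row IDX2: finitely many types of null spaces -/
def TypeStmt : Prop :=
  ∀ (n k : ℕ) (H : ℕ → (Eu n × Eu n) →L[ℝ] (Eu n × Eu n) →L[ℝ] ℝ), 3 ≤ k →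
    (∀ j, H (j + k) = H j) → (∀ j a b, H j a b = H j b a) → (∀ j, Tw (H j)) →
    ∃ m₀ : ℕ, 1 ≤ m₀ ∧ ∀ (m N : ℕ) [NeZero N], N = k * m → ∃ d, d ∣ m ∧ d ∣ m₀ ∧
      ∃ Nm Np : Submodule ℝ (ZMod N → Eu n),
        (∀ ξ ∈ Nm, ξ ≠ 0 → QF H N ξ ξ < 0) ∧ (∀ ξ ∈ Np, ξ ≠ 0 → 0 < QF H N ξ ξ) ∧
        IsCompl (Fx (Eu n) N (k * d)) (Nm ⊔ Np) ∧
        ∀ ξ ∈ Nm ⊔ Np, ∀ j, ∑ l ∈ Finset.range (m / d), ξ (j + (l * (k * d) : ℕ)) = 0

section morse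

variable (K : Type) [Field K]

/-- row NEAR: close families of loops are homologous; short loops are constant -/
def NearStmt : Prop :=
  ∀ (n : ℕ) (M : Type) [MetricSpace M] (G : GS M n),
    (∀ (X : Type) [TopologicalSpace X] (f g : X → Lo M) (S : Set X) (i : ℕ), ContinuousOn f S →
      ContinuousOn g S → (∀ x ∈ S, dist (f x) (g x) < G.ρ) → ∀ z ∈ Zr K i S ∅,
      push K i f z - push K i g z ∈ Br K i univ ∅) ∧
    ∀ (i r : ℕ) (a : ℝ), a < G.ρ → RH K i (univ : Set M) r → Rk (Fil M K i a) (Br K i univ ∅) r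

/-- row SAMP: finite dimensional approximation -/
def SampStmt : Prop :=
  ∀ (n : ℕ) (M : Type) [MetricSpace M] (G : GS M n),
    (∀ a δ : ℝ, 0 ≤ a → 0 < δ → ∃ N₀ : ℕ, ∀ (N : ℕ) [NeZero N], N₀ ≤ N → ∀ i,
      Fil M K i a ≤ (Zr K i {x | x ∈ G.Gd N ∧ En x ≤ (a + δ) ^ 2 / N} ∅).map (push K i G.toL) ⊔
        Br K i univ ∅) ∧
    ∀ (b : ℝ) (N : ℕ) [NeZero N], 0 ≤ b → ∀ x ∈ G.Gd N, En x ≤ b ^ 2 / N → G.toL x ∈ LL M b

/-- row MORSE: the Morse inequality between two levels -/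
def MorseStmt : Prop :=
  ∀ (n : ℕ) (M : Type) [MetricSpace M] [CompactSpace M] (_ : GS M n) (ι : Type) (T : Finset ι)
    (γ : ι → ℝ → M) (c : ι → ℝ) (r : ι → ℕ) (i : ℕ) (a b : ℝ), FinOrb M → 0 < a → a ≤ b →
    (∀ q ∈ T, CG (γ q) (c q) ∧ LocG K i (γ q) (c q) (r q)) →
    (∀ γ' c', CG γ' c' → a ≤ c' → c' ≤ b → ∃ q ∈ T, ∃ s : ℝ, ∀ t, γ' t = γ q (t + s)) →
    Rk (Fil M K i b) (Fil M K i a) (∑ q ∈ T, r q)

/-- row CIRC: from a point of the orbit to the orbit -/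
def CircStmt : Prop :=
  ∀ (n : ℕ) (M : Type) [MetricSpace M] [CompactSpace M] (G : GS M n) (N : ℕ) [NeZero N]
    (γ : ℝ → M) (c : ℝ), CG γ c → c / N < G.ρ →
    (∀ r, Lp K 0 (Sub M N c) (smp N γ) r → Loc K 0 (Sub M N c) (orb N γ) (2 * r)) ∧
    ∀ i r₀ r₁, Lp K i (Sub M N c) (smp N γ) r₀ → Lp K (i + 1) (Sub M N c) (smp N γ) r₁ →
      Loc K (i + 1) (Sub M N c) (orb N γ) (2 * r₀ + 2 * r₁)

/-- row TRANS: independence of the number of vertices -/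
def TransStmt : Prop :=
  ∀ (n : ℕ) (M : Type) [MetricSpace M] (G : GS M n) (N N' : ℕ) [NeZero N] [NeZero N']
    (γ : ℝ → M) (c : ℝ), CG γ c → c / N < G.ρ → c / N' < G.ρ →
    ∀ i r, Lp K i (Sub M N' c) (smp N' γ) r → Lp K i (Sub M N c) (smp N γ) r

/-- row FINL: finite local homology of an isolated closed geodesic -/
def FinlStmt : Prop :=
  ∀ (n : ℕ) (M : Type) [MetricSpace M] [CompactSpace M] (G : GS M n) (N : ℕ) [NeZero N]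
    (γ : ℝ → M) (c : ℝ), FinOrb M → CG γ c → c / N < G.ρ →
    ∃ r, ∀ i, Lp K i (Sub M N c) (smp N γ) r

/-- row CHART: the energy near the iterates of a closed geodesic, in coordinates -/
def ChartStmt : Prop :=
  ∀ (n : ℕ) (M : Type) [MetricSpace M] (G : GS M n) (γ : ℝ → M) (c : ℝ) (k : ℕ), CG γ c →
    3 ≤ k → 2 * c / k < G.ρ → ∃ S : ℕ → Eu n × Eu n → ℝ, (∀ j, S (j + k) = S j) ∧
      (∀ j, ContDiffAt ℝ 2 (S j) 0) ∧ (∀ j, Tw (D2 (S j) 0)) ∧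
      (∀ j a b, D2 (S j) 0 a b = D2 (S j) 0 b a) ∧
      ∀ (m N : ℕ) [NeZero N], N = k * m →
        ContDiffAt ℝ 2 (AF S N) 0 ∧ fderiv ℝ (AF S N) 0 = 0 ∧
        (∀ ξ η, D2 (AF S N) 0 ξ η = QF (fun j => D2 (S j) 0) N ξ η) ∧
        ∀ i r, Lp K i {ξ | AF S N ξ < AF S N 0} 0 r ↔
          Lp K i (Sub M N (m * c)) (smp N (itr m γ)) r

/-- row WIN: the local homology of the iterates lives near multiples of the mean index -/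
def WinStmt : Prop :=
  ∀ (n : ℕ) (M : Type) [MetricSpace M] [CompactSpace M] (_ : GS M n) (γ : ℝ → M) (c : ℝ),
    CG γ c → ∃ α : ℝ, ∀ m i : ℕ, 1 ≤ m → (3 * n + 1 : ℝ) < |(i : ℝ) - m * α| →
      LocG K i (itr m γ) (m * c) 0

/-- row BND: the local homology of the iterates is bounded -/
def BndStmt : Prop :=
  ∀ (n : ℕ) (M : Type) [MetricSpace M] [CompactSpace M] (_ : GS M n) (γ : ℝ → M) (c : ℝ),
    FinOrb M → CG γ c → ∃ B : ℕ, ∀ m i : ℕ, 1 ≤ m → LocG K i (itr m γ) (m * c) B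

/-- row COUNT: the Morse inequality in terms of the images of geodesics -/
def CountStmt : Prop :=
  ∀ (n : ℕ) (M : Type) [MetricSpace M] [CompactSpace M] (_ : GS M n),
    (∀ L, (GI M L).Finite) →
    ∃ (P : Type) (A : P → Set M) (o : P → Bool) (c α : P → ℝ) (B : P → ℕ),
      Function.Injective (fun p => (A p, o p)) ∧ (∀ p, 0 < c p) ∧
      (∀ p L, A p ∈ GI M L ↔ c p ≤ L) ∧
      ∀ (i : ℕ) (a b : ℝ) (T : Finset (P × ℕ)), 0 < a → a ≤ b →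
        (∀ p (m : ℕ), 1 ≤ m → a ≤ m * c p → m * c p ≤ b → |(i : ℝ) - m * α p| ≤ 3 * n + 1 →
          (p, m) ∈ T) →
        Rk (Fil M K i b) (Fil M K i a) (∑ q ∈ T, B q.1)

end morse

/-! ### the theorem of Gromov on the level of homology classes -/

/-- row NERVE: domination by a finite complex -/
def NerveStmt : Prop :=
  ∀ (n : ℕ) (M : Type) [MetricSpace M] [CompactSpace M] [Nonempty M] (G : GS M n),
    ∃ (q : ℕ) (𝒩 : Set (Finset (Fin q))) (φ : M → Fin q → ℝ) (ψ : (Fin q → ℝ) → M) (ε : ℝ),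
      0 < ε ∧ (∀ S ∈ 𝒩, ∀ S' ⊆ S, S' ∈ 𝒩) ∧ Continuous φ ∧ ContinuousOn ψ (Cx 𝒩) ∧
      (∀ x, (∀ v, 0 ≤ φ x v) ∧ ∑ v, φ x v = 1) ∧
      ∀ x, ∃ S ∈ 𝒩, (∀ x', dist x x' < ε → ∀ v, φ x' v ≠ 0 → v ∈ S) ∧
        ∀ y ∈ Cx 𝒩, (∀ v, y v ≠ 0 → v ∈ S) → dist x (ψ y) < G.ρ

/-- row COLL: collapsing the one-skeleton -/
def CollStmt : Prop :=
  ∀ (M : Type) [TopologicalSpace M] [SimplyConnectedSpace M] (q : ℕ) (𝒩 : Set (Finset (Fin q)))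
    (ψ : (Fin q → ℝ) → M), (∀ S ∈ 𝒩, ∀ S' ⊆ S, S' ∈ 𝒩) → ContinuousOn ψ (Cx 𝒩) →
    ∃ (H : ℝ × (Fin q → ℝ) → M) (x₀ : M), ContinuousOn H (Icc 0 1 ×ˢ Cx 𝒩) ∧
      (∀ y ∈ Cx 𝒩, H (0, y) = ψ y) ∧
      ∀ y ∈ Cx 𝒩, {v | y v ≠ 0}.ncard ≤ 2 → H (1, y) = x₀

section gromov

variable (K : Type) [Field K]

/-- row GROM: every class of degree `i` has level at most `C (i + 1)` -/
def GromStmt : Prop :=
  ∀ (n : ℕ) (M : Type) [MetricSpace M] [CompactSpace M] [SimplyConnectedSpace M] (_ : GS M n),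
    ∃ C : ℝ, 0 < C ∧ ∀ i, Zr K i (univ : Set (Lo M)) ∅ ≤ Fil M K i (C * (i + 1))

/-- row TOP: the manifold has no homology in high degrees -/
def TopStmt : Prop :=
  ∀ (n : ℕ) (M : Type) [MetricSpace M] [CompactSpace M] [Nonempty M] (_ : GS M n),
    ∃ q, ∀ i, q < i → RH K i (univ : Set M) 0

/-- row WANG: the Wang sequence of the path fibration over the three-sphere, with levels -/
def WangStmt : Prop :=
  ∀ (Y : Type) [TopologicalSpace Y] (p : S3), p ≠ 1 → -p ≠ 1 →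
    ∃ (Q : Set (Fin 3 → ℝ)) (κ : (Fin 3 → ℝ) → PS)
      (c : ∀ j, Ch K j (PS × Y) →ₗ[K] Ch K (j + 2) ((PS × Y) × (Fin 3 → ℝ)))
      (T : ∀ j, Ch K j (PS × Y) →ₗ[K] Ch K (j + 2) (PS × Y)),
      IsCompact Q ∧ ContinuousOn κ Q ∧ (∀ s ∈ Q, κ s 0 = 1 ∧ p * κ s 1 = -p) ∧
      (∀ j (A : Set (PS × Y)), A ⊆ Om p ×ˢ univ → ∀ z ∈ Zr K j A ∅,
        c j z ∈ Zr K (j + 2) (A ×ˢ Q) ∅ ∧
        T j z = push K (j + 2) (fun b : (PS × Y) × (Fin 3 → ℝ) => (b.1.1 * κ b.2, b.1.2)) (c j z)) ∧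
      (∀ j, ∀ z ∈ Zr K j (Om p ×ˢ (univ : Set Y)) ∅, z ∈ Br K j (Om p ×ˢ (univ : Set Y)) ∅ →
        T j z ∈ Br K (j + 2) (Om (-p) ×ˢ univ) ∅) ∧
      (∀ j (a : ℝ), ∀ z ∈ Zr K j (Om p ×ˢ (univ : Set Y)) ∅,
        T j z ∈ Zr K (j + 2) (OmL (-p) a ×ˢ univ) ∅ ⊔ Br K (j + 2) (Om (-p) ×ˢ univ) ∅ →
        z ∈ Zr K j (OmL p (a - 1) ×ˢ univ) ∅ ⊔ Br K j (Om p ×ˢ univ) ∅) ∧
      (∀ j, ∀ z ∈ Zr K j (Om p ×ˢ (univ : Set Y)) ∅,
        push K (j + 2) Prod.snd (T j z) ∈ Br K (j + 2) (univ : Set Y) ∅) ∧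
      (∀ j r₁ r₂, RH K j (Om p ×ˢ (univ : Set Y)) r₁ → RH K (j + 2) (univ : Set Y) r₂ →
        RH K (j + 2) (Om (-p) ×ˢ (univ : Set Y)) (r₁ + r₂)) ∧
      ∀ j ≤ 1, ∀ r, RH K j (univ : Set Y) r → RH K j (Om (-p) ×ˢ (univ : Set Y)) r

/-- row LEV: acting by a compact family of loops raises the level by a constant -/
def LevStmt : Prop :=
  ∀ (n : ℕ) (M Z : Type) [MetricSpace M] [CompactSpace M] [TopologicalSpace Z] (_ : GS M n)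
    (Q : Set Z) (β : M × Z × ℝ → M), IsCompact Q → ContinuousOn β (univ ×ˢ Q ×ˢ Icc 0 1) →
    (∀ x, ∀ s ∈ Q, β (x, s, 0) = x ∧ β (x, s, 1) = x) →
    ∃ C : ℝ, 0 < C ∧ ∀ (a : ℝ) (j : ℕ), 0 ≤ a → ∀ w ∈ Zr K j (LL M a ×ˢ Q) ∅,
      push K j (fun b : Lo M × Z => mkL fun t => β (crv b.1 t, b.2, t)) w ∈ Fil M K j (a + C)

/-- row S3L: a chain of classes with controlled levels on a product with the three-sphere -/
def ChainStmt : Prop :=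
  ∀ (n : ℕ) (M N : Type) [MetricSpace M] [CompactSpace M] [MetricSpace N] (_ : GS M n)
    (h : M ≃ₜ S3 × N) (lam : ℝ), 0 < lam → (∀ x y, lam * dist (h x).1 (h y).1 ≤ dist x y) →
    ∃ C : ℝ, 0 < C ∧ ∀ (x₀ : S3) (j : ℕ), ∀ β ∈ Zr K j (univ : Set (Lo N)) ∅,
      β ∉ Br K j univ ∅ → ∃ z : ∀ s : ℕ, Ch K (j + 2 * s) (Lo M),
        z 0 = push K j (fun l : Lo N => mkL fun t => h.symm (x₀, crv l t)) β ∧
        (∀ (s : ℕ) (a : ℝ), 0 ≤ a → z s ∈ Fil M K (j + 2 * s) a →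
          z (s + 1) ∈ Fil M K (j + 2 * (s + 1)) (a + C)) ∧
        ∀ (s : ℕ) (a : ℝ), 0 ≤ a → a + C < lam * s → z s ∉ Fil M K (j + 2 * s) a

/-- row S3U: upper bound for the Betti numbers of the loop space of the product -/
def UpStmt : Prop :=
  ∀ (M N : Type) [MetricSpace M] [MetricSpace N] (_ : M ≃ₜ S3 × N) (b : ℕ → ℕ),
    (∀ j, RH K j (univ : Set (Lo N)) (b j)) →
    ∀ i, RH K i (univ : Set (Lo M)) (2 * ∑ j ∈ Finset.range (i + 1), b j)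

/-- row S3U: lower bound for the Betti numbers of the loop space of the product -/
def LowStmt : Prop :=
  ∀ (M N : Type) [MetricSpace M] [MetricSpace N] (_ : M ≃ₜ S3 × N) (i r : ℕ) (F : Finset ℕ),
    (∀ k ∈ F, 2 * k ≤ i ∧ ¬ RH K (i - 2 * k) (univ : Set (Lo N)) 0) →
    RH K i (univ : Set (Lo M)) r → F.card ≤ r

end gromov

/-! ### arithmetic -/

/-- row ARA: windows around multiples cannot cover the integers cheaply -/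
def ArithAStmt : Prop :=
  ∀ (P : Type) (c α : P → ℝ) (B : P → ℕ) (b : ℕ → ℕ) (w C : ℝ) (D i₀ : ℕ), 0 ≤ w → 0 < C →
    (∀ p, 0 < c p) → (∀ L, {p | c p ≤ L}.Finite) →
    (∀ i, i₀ ≤ i → ∀ T : Finset (P × ℕ),
      (∀ p (m : ℕ), 1 ≤ m → m * c p ≤ C * (i + 1) → |(i : ℝ) - m * α p| ≤ w → (p, m) ∈ T) →
      b i ≤ ∑ q ∈ T, B q.1) →
    (∀ B' : ℕ, ∃ x₀, ∀ x, x₀ ≤ x → ∃ i, x ≤ i ∧ i ≤ x + D ∧ B' ≤ b i) →
    (∃ κ > (0 : ℝ), ∃ L₀ : ℝ, ∀ L, L₀ ≤ L → κ * Real.log L ≤ ({p | c p ≤ L}.ncard : ℝ)) ∧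
    ¬ Summable fun p => (c p)⁻¹

/-- row ARB: slowly moving slopes need many rays -/
def ArithBStmt : Prop :=
  ∀ w C : ℝ, 0 ≤ w → 0 < C → ∃ κ > (0 : ℝ), ∀ (P : Type) (F : Finset P) (c α : P → ℝ) (j : ℕ)
    (t : ℕ → ℝ), (∀ p, 0 < c p) → t 0 ≤ (j + 1) / 100 → (∀ s, t (s + 1) ≤ t s + C) →
    (∀ s : ℕ, s - C ≤ t s) →
    (∀ s ≤ j, (j : ℝ) / 10 ≤ t s → ∃ p ∈ F, ∃ m : ℕ, 1 ≤ m ∧ m * c p = t s ∧
      |((j + 2 * s : ℕ) : ℝ) - m * α p| ≤ w) →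
    κ * j - κ⁻¹ ≤ F.card

/-! ### the final statements -/

/-- the round three-sphere -/
abbrev Sph : Type := sphere (0 : EuclideanSpace ℝ (Fin 4)) 1

/-- the Betti numbers of the free loop space tend to infinity in windows of bounded size -/
def Wd (K : Type) [Field K] (M : Type) [TopologicalSpace M] : Prop :=
  ∃ D : ℕ, ∀ B : ℕ, ∃ x₀ : ℕ, ∀ x, x₀ ≤ x → ∃ i, x ≤ i ∧ i ≤ x + D ∧
    (B : Cardinal) ≤ Module.rank K (LH K M i)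

/-- row FINA -/
def MainAStmt : Prop :=
  ∀ (n : ℕ) (M : Type) [EMetricSpace M] [ChartedSpace (Eu n) M] [IsManifold (𝓡 n) ∞ M]
    [CompactSpace M] [ConnectedSpace M] [SimplyConnectedSpace M]
    [RiemannianBundle (fun x : M => TangentSpace (𝓡 n) x)]
    [IsContMDiffRiemannianBundle (𝓡 n) ∞ (Eu n) (fun x : M => TangentSpace (𝓡 n) x)]
    [IsRiemannianManifold (𝓡 n) M] (K : Type) [Field K],
    (Wd K M ∨ Nonempty (M ≃ₜ Sph × Sph)) →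
    (∃ κ > (0 : ℝ), ∃ L₀ : ℝ, ∀ L, L₀ ≤ L →
      ENNReal.ofReal (κ * Real.log L) ≤ (((GI M L).encard : ℕ∞) : ℝ≥0∞)) ∧
    ∑' A : {A : Set M // ∃ L, A ∈ GI M L}, (ENNReal.ofReal (sInf {L | A.1 ∈ GI M L}))⁻¹ = ⊤

/-- row FINB -/
def MainBStmt : Prop :=
  ∀ (k : ℕ) (N : Type) [EMetricSpace N] [ChartedSpace (Eu k) N] [IsManifold (𝓡 k) ∞ N]
    [CompactSpace N] [ConnectedSpace N] [SimplyConnectedSpace N]
    [RiemannianBundle (fun x : N => TangentSpace (𝓡 k) x)]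
    [IsContMDiffRiemannianBundle (𝓡 k) ∞ (Eu k) (fun x : N => TangentSpace (𝓡 k) x)]
    [IsRiemannianManifold (𝓡 k) N] (K : Type) [Field K],
    ((∃ B : ℕ, ∀ i, Module.rank K (LH K N i) ≤ B) ∨ Nonempty (N ≃ₜ Sph)) →
    ∃ ε > (0 : ℝ), ∀ (n : ℕ) (M : Type) [EMetricSpace M] [ChartedSpace (Eu n) M]
      [IsManifold (𝓡 n) ∞ M] [CompactSpace M] [ConnectedSpace M]
      [RiemannianBundle (fun x : M => TangentSpace (𝓡 n) x)]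
      [IsContMDiffRiemannianBundle (𝓡 n) ∞ (Eu n) (fun x : M => TangentSpace (𝓡 n) x)]
      [IsRiemannianManifold (𝓡 n) M] (h : M ≃ₜ Sph × N) (x₀ : Sph) (lam : ℝ), 0 < lam →
      (∀ x y, ENNReal.ofReal lam * edist (h x).1 (h y).1 ≤ edist x y) →
      (∀ y y', edist (h.symm (x₀, y)) (h.symm (x₀, y')) ≤ ENNReal.ofReal (ε * lam) * edist y y') →
      ∃ a b : ℝ, 0 < a ∧ 0 < b ∧ ∃ L₀ : ℝ, ∀ L : ℝ, L₀ ≤ L →
        ENNReal.ofReal (a / L * ∑ i ∈ Finset.range (⌊b * L⌋₊ + 1), (finrank K (LH K M i) : ℝ)) ≤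
          (((GI M L).encard : ℕ∞) : ℝ≥0∞)

end Pool.Agent.MP_af6f1c_gt.Geo
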