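import Mathlib.Analysis.Complex.Tietze
import Mathlib.GroupTheory.Archimedean
import Mathlib.Analysis.SpecialFunctions.Complex.Log
import Pool.Agent.MP_af6f1c_gt.geo.Spec
import Pool.Agent.MP_af6f1c_gt.geo.Base

-- ======== part 0: formerly Pool.Agent.MP_af6f1c_gt.geo.Circ
section MrgPart0

/-! PROJECT GEO, row CIRC: the phase of the orbit of a closed geodesic, and the passage from the
local homology at a point of the orbit to the local homology of the orbit. -/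

open Set Topology Metric Filter

noncomputable section

namespace Pool.Agent.MP_af6f1c_gt.Geo

namespace CircP

/-- the phase factor -/
def ex (T s : ℝ) : ℂ := Complex.exp (2 * Real.pi * s / T * Complex.I)

lemma ex_eq (T s : ℝ) : ex T s = Complex.exp (((2 * Real.pi * s / T : ℝ) : ℂ) * Complex.I) := by
  unfold ex
  push_cast
  rfl

lemma norm_ex (T s : ℝ) : ‖ex T s‖ = 1 := by
  rw [ex_eq, Complex.norm_exp_ofReal_mul_I]

lemma ex_sub {T : ℝ} (hT : 0 < T) (s φ : ℝ) :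
    ex T (s + -(T / (2 * Real.pi) * φ)) = ex T s * Complex.exp (-(φ * Complex.I)) := by
  unfold ex
  rw [← Complex.exp_add]
  congr 1
  have h1 : (T : ℂ) ≠ 0 := by exact_mod_cast hT.ne'
  have h2 : (Real.pi : ℂ) ≠ 0 := by exact_mod_cast Real.pi_pos.ne'
  push_cast
  field_simp

lemma ex_inj {T : ℝ} (hT : 0 < T) {s t : ℝ} (h : ex T s = ex T t) : ∃ k : ℤ, s = t + k * T := by
  obtain ⟨k, hk⟩ := Complex.exp_eq_exp_iff_exists_int.1 h
  refine ⟨k, ?_⟩
  have h1 : (T : ℂ) ≠ 0 := by exact_mod_cast hT.ne'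
  have h2 : (Real.pi : ℂ) ≠ 0 := by exact_mod_cast Real.pi_pos.ne'
  have h3 : (s : ℂ) = t + k * T := by
    field_simp at hk
    linear_combination hk
  exact_mod_cast h3

/-- the period group of a closed geodesic is cyclic -/
lemma exists_period {M : Type} [MetricSpace M] {γ : ℝ → M} {c : ℝ} (h : CG γ c) :
    ∃ T > (0 : ℝ), Function.Periodic γ T ∧
      ∀ s : ℝ, Function.Periodic γ s → ∃ k : ℤ, k • T = s := by
  obtain ⟨-, h2, h3, ε, hε, h4⟩ := h
  let H : AddSubgroup ℝ :=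
    { carrier := {s | Function.Periodic γ s}
      add_mem' := fun ha hb => Function.Periodic.add_period ha hb
      zero_mem' := fun t => by rw [add_zero]
      neg_mem' := fun ha => Function.Periodic.neg ha }
  have hd : Disjoint (H : Set ℝ) (Ioo 0 ε) := by
    rw [Set.disjoint_left]
    rintro s hs ⟨h0, h1⟩
    have e := h4 s 0 (by rwa [sub_zero, abs_of_pos h0])
    have e' : γ s = γ 0 := by simpa using (hs : Function.Periodic γ s) 0
    rw [e', dist_self, sub_zero, abs_of_pos h0] at e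
    exact (mul_pos h3 h0).ne e
  obtain ⟨b, hb⟩ := AddSubgroup.cyclic_of_isolated_zero hε hd
  have hm : ∀ s, Function.Periodic γ s ↔ ∃ k : ℤ, k • b = s := fun s => by
    rw [← AddSubgroup.mem_closure_singleton, ← hb]
    rfl
  have hb0 : b ≠ 0 := by
    rintro rfl
    obtain ⟨k, hk⟩ := (hm 1).1 h2
    simp at hk
  have hp : Function.Periodic γ b := (hm b).2 ⟨1, one_zsmul b⟩
  rcases lt_or_gt_of_ne hb0 with h | h
  · refine ⟨-b, neg_pos.2 h, hp.neg, fun s hs => ?_⟩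
    obtain ⟨k, hk⟩ := (hm s).1 hs
    exact ⟨-k, by rw [← hk]; simp⟩
  · exact ⟨b, h, hp, fun s hs => (hm s).1 hs⟩

/-- a family of self maps that moves along a curve and preserves `O` -/
structure Act {X : Type} [TopologicalSpace X] (D O : Set X) (R : ℝ → X → X) (o : ℝ → X) :
    Prop where
  op : IsOpen D
  cont : ContinuousOn (fun q : ℝ × X => R q.1 q.2) (univ ×ˢ D)
  mem : ∀ s, ∀ x ∈ D, R s x ∈ D
  zero : ∀ x ∈ D, R 0 x = x
  sub : ∀ s, ∀ x ∈ D, x ∈ O → R s x ∈ O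
  omem : ∀ s, o s ∈ D
  orb : ∀ s t, R s (o t) = o (t + s)

section act

variable {K : Type} [Field K] {X : Type} [TopologicalSpace X] {D O : Set X} {R : ℝ → X → X}
  {o : ℝ → X}

lemma Act.comp (hA : Act D O R o) {Z : Type} [TopologicalSpace Z] {S : Set Z} {a : Z → ℝ}
    {b : Z → X} (ha : ContinuousOn a S) (hb : ContinuousOn b S) (hm : ∀ z ∈ S, b z ∈ D) :
    ContinuousOn (fun z => R (a z) (b z)) S :=
  hA.cont.comp (f := fun z => (a z, b z)) (ha.prodMk hb) fun z hz => ⟨trivial, hm z hz⟩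

/-- the local homology rank is constant along the curve -/
lemma move (T : Tools K) (hA : Act D O R o) {i r : ℕ} (h : Lp K i O (o 0) r) (s : ℝ) :
    Lp K i O (o s) r := by
  refine T.dom X X (R (-s)) (R s) (fun q => R (q.1 * s) (R (-(q.1 * s)) q.2)) (o s) (o 0) O D O D
    i r (hA.op.mem_nhds (hA.omem _)) (hA.op.mem_nhds (hA.omem _))
    (hA.comp continuousOn_const continuousOn_id fun _ hz => hz)
    (hA.comp continuousOn_const continuousOn_id fun _ hz => hz) ?_ ?_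
    (fun x hx => hA.sub _ x hx.1 hx.2) (fun x hx => hA.sub _ x hx.1 hx.2) ?_ ?_ ?_ ?_ ?_ h
  · rw [hA.orb, add_neg_cancel]
  · rw [hA.orb, zero_add]
  · exact hA.comp (by fun_prop) (hA.comp (by fun_prop) continuousOn_snd fun z hz => hz.2)
      fun z hz => hA.mem _ _ hz.2
  · intro x hx
    simp only [zero_mul, neg_zero, hA.zero x hx]
  · intro x _
    simp only [one_mul]
  · intro u _
    simp only [hA.orb, neg_add_cancel_right]
  · exact fun q hq => hA.sub _ _ (hA.mem _ _ hq.2.1) (hA.sub _ _ hq.2.1 hq.2.2)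

/-- contraction of an arc to one of its points -/
lemma contract (T : Tools K) (hA : Act D O R o) {W A : Set X} {θ : X → ℝ} {y₀ : X} {i r : ℕ}
    (hW : IsOpen W) (hθ : ContinuousOn θ W) (hAW : A ⊆ D ∩ W)
    (h1 : ∀ x ∈ A, ∀ u ∈ Icc (0 : ℝ) 1, R (-(u * θ x)) x ∈ A)
    (h2 : ∀ x ∈ A, R (-(1 * θ x)) x = y₀) (hy : y₀ ∈ A) (h : Lp K i O y₀ r) :
    Loc K i O A r := by
  intro V' hV'
  rw [mem_nhdsSet_iff_forall] at hV'
  obtain ⟨V₀, hV₀, hr⟩ := h V' (hV' y₀ hy)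
  have ho : IsOpen (D ∩ W) := hA.op.inter hW
  have hc : ContinuousOn (fun q : ℝ × X => R (-(q.1 * θ q.2)) q.2) (univ ×ˢ (D ∩ W)) :=
    hA.comp (continuousOn_fst.mul (hθ.comp continuousOn_snd fun z hz => hz.2.2)).neg
      continuousOn_snd fun z hz => hz.2.1
  have hat : ∀ x ∈ A, ∀ u : ℝ,
      ContinuousAt (fun q : X × ℝ => R (-(q.2 * θ q.1)) q.1) (x, u) := fun x hx u =>
    ContinuousAt.comp (g := fun q : ℝ × X => R (-(q.1 * θ q.2)) q.2) (f := Prod.swap)
      (hc.continuousAt ((isOpen_univ.prod ho).mem_nhds ⟨trivial, hAW hx⟩))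
      continuous_swap.continuousAt
  let V : Set X := {x | x ∈ D ∩ W ∧ (∀ u ∈ Icc (0 : ℝ) 1, R (-(u * θ x)) x ∈ V') ∧
    R (-(1 * θ x)) x ∈ V₀}
  refine ⟨V, mem_nhdsSet_iff_forall.2 fun x hx => ?_, ?_⟩
  · have e1 : ∀ᶠ y in 𝓝 x, ∀ u ∈ Icc (0 : ℝ) 1, R (-(u * θ y)) y ∈ V' :=
      isCompact_Icc.eventually_forall_of_forall_eventually fun u hu =>
        hat x hx u (hV' _ (h1 x hx u hu))
    have e2 : ∀ᶠ y in 𝓝 x, R (-(1 * θ y)) y ∈ V₀ := by
      have : ContinuousAt (fun y : X => R (-(1 * θ y)) y) x :=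
        ContinuousAt.comp (g := fun q : X × ℝ => R (-(q.2 * θ q.1)) q.1)
          (f := fun y : X => (y, (1 : ℝ))) (hat x hx 1) (by fun_prop)
      exact this (by simpa only [h2 x hx] using hV₀)
    filter_upwards [ho.mem_nhds (hAW hx), e1, e2] with y a b c using ⟨a, b, c⟩
  · refine T.pt.2 X X (fun x => R (-(1 * θ x)) x) (fun x => x)
      (fun q => R (-(q.1 * θ q.2)) q.2) V (V ∩ O) V' (V' ∩ O) V₀ (V₀ ∩ O) V' (V' ∩ O) i r
      inter_subset_left inter_subset_left ?_ continuousOn_id (fun x hx => hx.2.2)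
      (fun x hx => ⟨hx.1.2.2, hA.sub _ _ hx.1.1.1 hx.2⟩) (fun _ hx => hx) (fun _ hx => hx)
      (hc.mono fun q hq => ⟨trivial, hq.2.1⟩) ?_ (fun _ _ => rfl)
      (fun q hq => hq.2.2.1 q.1 hq.1)
      (fun q hq => ⟨hq.2.1.2.1 q.1 hq.1, hA.sub _ _ hq.2.1.1.1 hq.2.2⟩) hr
    · exact hA.comp (continuousOn_const.mul (hθ.mono fun x hx => hx.1.2)).neg continuousOn_id
        fun x hx => hx.1.1
    · intro x hx
      simp only [zero_mul, neg_zero, hA.zero x hx.1.1]

/-- local homology of an arc of the orbit -/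
lemma arc (T : Tools K) (hA : Act D O R o) {P : ℝ} {Θ : X → ℂ} (hP : 0 < P) (hΘ : Continuous Θ)
    (hp : Function.Periodic o P) (he : ∀ s, Θ (o s) = ex P s) {i r : ℕ}
    (h : Lp K i O (o 0) r) {w : ℂ} (hw : ‖w‖ = 1) {κ : ℝ} (h0 : -1 < κ) (h1 : κ ≤ 1) :
    Loc K i O (range o ∩ {x | κ ≤ (w * Θ x).re}) r := by
  have hu : ∀ z : ℂ, ‖z‖ = 1 → Complex.exp (z.arg * Complex.I) = z := fun z hz => by
    have := Complex.norm_mul_exp_arg_mul_I z
    rwa [hz, Complex.ofReal_one, one_mul] at this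
  have hn : ∀ s, ‖w * Θ (o s)‖ = 1 := fun s => by rw [norm_mul, hw, he, norm_ex, one_mul]
  have key : ∀ s u : ℝ, w * Θ (R (-(u * (P / (2 * Real.pi) * (w * Θ (o s)).arg))) (o s)) =
      Complex.exp (((1 - u) * (w * Θ (o s)).arg : ℝ) * Complex.I) := fun s u => by
    rw [hA.orb, he, show u * (P / (2 * Real.pi) * (w * Θ (o s)).arg) =
      P / (2 * Real.pi) * (u * (w * Θ (o s)).arg) by ring, ex_sub hP, ← mul_assoc, ← he]
    nth_rewrite 1 [← hu _ (hn s)]
    rw [← Complex.exp_add]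
    congr 1
    push_cast
    ring
  have hw0 : w ≠ 0 := by
    rintro rfl
    simp at hw
  have hy : w * Θ (o (0 + -(P / (2 * Real.pi) * w.arg))) = 1 := by
    rw [he, ex_sub hP]
    nth_rewrite 1 [← hu w hw]
    simp [ex, ← Complex.exp_add]
  refine contract T hA (W := {x | w * Θ x ∈ Complex.slitPlane})
    (θ := fun x => P / (2 * Real.pi) * (w * Θ x).arg)
    (y₀ := o (0 + -(P / (2 * Real.pi) * w.arg)))
    (Complex.isOpen_slitPlane.preimage (by fun_prop)) ?_ ?_ ?_ ?_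
    ⟨⟨_, rfl⟩, by simp only [mem_ofPred_eq, hy, Complex.one_re, h1]⟩ (move T hA h _)
  · intro x hx
    refine (continuousAt_const.mul (ContinuousAt.comp (g := Complex.arg)
      (f := fun x => w * Θ x) (Complex.continuousAt_arg hx) (by fun_prop))).continuousWithinAt
  · rintro _ ⟨⟨s, rfl⟩, hs⟩
    refine ⟨hA.omem s, ?_⟩
    rw [mem_ofPred_eq, Complex.mem_slitPlane_iff_arg]
    refine ⟨fun hh => ?_, fun hh => by simpa [hh] using hn s⟩
    have := hu _ (hn s)
    rw [hh, Complex.exp_pi_mul_I] at this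
    rw [mem_ofPred_eq, ← this] at hs
    simp at hs
    linarith
  · rintro _ ⟨⟨s, rfl⟩, hs⟩ u hu'
    refine ⟨⟨_, (hA.orb _ _).symm⟩, ?_⟩
    rw [mem_ofPred_eq, key, Complex.exp_ofReal_mul_I_re]
    rw [mem_ofPred_eq, ← hu _ (hn s), Complex.exp_ofReal_mul_I_re] at hs
    refine hs.trans ?_
    rw [← Real.cos_abs, ← Real.cos_abs ((1 - u) * _)]
    refine Real.cos_le_cos_of_nonneg_of_le_pi (abs_nonneg _) (Complex.abs_arg_le_pi _) ?_
    rw [abs_mul, abs_of_nonneg (sub_nonneg.2 hu'.2)]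
    exact mul_le_of_le_one_left (abs_nonneg _) (by linarith [hu'.1])
  · rintro _ ⟨⟨s, rfl⟩, -⟩
    have e := key s 1
    rw [sub_self, zero_mul, Complex.ofReal_zero, zero_mul, Complex.exp_zero, ← hy, hA.orb, he (s + _),
      he (0 + _)] at e
    obtain ⟨k, hk⟩ := ex_inj hP (mul_left_cancel₀ hw0 e)
    rw [hA.orb, hk]
    exact hp.int_mul k _

lemma union_mem {Γ A F V : Set X} (hF : IsClosed F) (h : Γ ∩ F ⊆ A) (hV : V ∈ 𝓝ˢ A) :
    V ∪ Fᶜ ∈ 𝓝ˢ Γ := by
  rw [mem_nhdsSet_iff_forall] at hV ⊢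
  intro x hx
  by_cases hxF : x ∈ F
  · exact mem_of_superset (hV x (h ⟨hx, hxF⟩)) subset_union_left
  · exact mem_of_superset (hF.isOpen_compl.mem_nhds hxF) subset_union_right

/-- Mayer-Vietoris along a circle -/
lemma glue (T : Tools K) {Γ : Set X} {Θ : X → ℂ} (hΘ : Continuous Θ)
    (hn : ∀ x ∈ Γ, ‖Θ x‖ = 1) :
    (∀ r, Loc K 0 O (Γ ∩ {x | -(4 / 5) ≤ (Θ x).re}) r →
      Loc K 0 O (Γ ∩ {x | (Θ x).re ≤ 4 / 5}) r → Loc K 0 O Γ (2 * r)) ∧
    ∀ i r₀ r₁, Loc K i O (Γ ∩ {x | 3 / 5 ≤ (Θ x).im}) r₀ →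
      Loc K i O (Γ ∩ {x | (Θ x).im ≤ -(3 / 5)}) r₀ →
      Loc K (i + 1) O (Γ ∩ {x | -(4 / 5) ≤ (Θ x).re}) r₁ →
      Loc K (i + 1) O (Γ ∩ {x | (Θ x).re ≤ 4 / 5}) r₁ → Loc K (i + 1) O Γ (2 * r₀ + 2 * r₁) := by
  have hre : Continuous fun x => (Θ x).re := Complex.continuous_re.comp hΘ
  have him : Continuous fun x => (Θ x).im := Complex.continuous_im.comp hΘ
  have hsq : ∀ x ∈ Γ, (Θ x).re ^ 2 + (Θ x).im ^ 2 = 1 := fun x hx => by
    have := Complex.sq_norm (Θ x)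
    rw [hn x hx, Complex.normSq_apply] at this
    linarith
  have o1 : IsOpen {x | -(4 / 5) < (Θ x).re} := isOpen_lt continuous_const hre
  have o2 : IsOpen {x | (Θ x).re < 4 / 5} := isOpen_lt hre continuous_const
  have c1 : IsClosed {x | -(4 / 5) ≤ (Θ x).re} := isClosed_le continuous_const hre
  have c2 : IsClosed {x | (Θ x).re ≤ 4 / 5} := isClosed_le hre continuous_const
  have s1 : {x | -(4 / 5) < (Θ x).re} ⊆ {x | -(4 / 5) ≤ (Θ x).re} :=
    fun x (hx : -(4 / 5) < (Θ x).re) => hx.le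
  have s2 : {x | (Θ x).re < 4 / 5} ⊆ {x | (Θ x).re ≤ 4 / 5} :=
    fun x (hx : (Θ x).re < 4 / 5) => hx.le
  have cov : ∀ S : Set X, S ⊆ {x | -(4 / 5) < (Θ x).re} ∪ {x | (Θ x).re < 4 / 5} :=
    fun S x _ => by
      by_cases h : (Θ x).re < 4 / 5
      · exact Or.inr h
      · exact Or.inl (by simp only [mem_ofPred_eq]; linarith [not_lt.1 h])
  constructor
  · intro r l1 l2 V' hV'
    obtain ⟨T₁, t1, r1⟩ := l1 V' (nhdsSet_mono inter_subset_left hV')
    obtain ⟨T₂, t2, r2⟩ := l2 V' (nhdsSet_mono inter_subset_left hV')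
    refine ⟨V' ∩ ((T₁ ∪ _) ∩ (T₂ ∪ _)), inter_mem hV'
      (inter_mem (union_mem c1 Subset.rfl t1) (union_mem c2 Subset.rfl t2)), ?_⟩
    rw [two_mul]
    exact (T.mv X O _ _ _ ∅ T₁ T₂ V' 0 0 r r o1 o2 (cov _) inter_subset_left
      (fun x hx => hx.1.2.1.resolve_right fun h => h (s1 hx.2))
      (fun x hx => hx.1.2.2.resolve_right fun h => h (s2 hx.2))).1 r1 r2
  · intro i r₀ r₁ m1 m2 l1 l2 V' hV'
    obtain ⟨T₁, t1, r1⟩ := l1 V' (nhdsSet_mono inter_subset_left hV')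
    obtain ⟨T₂, t2, r2⟩ := l2 V' (nhdsSet_mono inter_subset_left hV')
    have hb : ∀ x ∈ Γ, 9 / 25 ≤ (Θ x).im ^ 2 → -(4 / 5) ≤ (Θ x).re ∧ (Θ x).re ≤ 4 / 5 :=
      fun x hx h => abs_le.1 (abs_le_of_sq_le_sq (by nlinarith [hsq x hx]) (by norm_num))
    have hT : ∀ A ⊆ Γ, (∀ x ∈ A, 9 / 25 ≤ (Θ x).im ^ 2) → T₁ ∩ T₂ ∈ 𝓝ˢ A := fun A hA h =>
      inter_mem (nhdsSet_mono (fun x hx => mem_inter (hA hx) (hb x (hA hx) (h x hx)).1) t1)
        (nhdsSet_mono (fun x hx => mem_inter (hA hx) (hb x (hA hx) (h x hx)).2) t2)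
    obtain ⟨Vp, tp, rp⟩ := m1 _ (hT _ inter_subset_left fun x hx => by
      have : 3 / 5 ≤ (Θ x).im := hx.2
      nlinarith)
    obtain ⟨Vm, tm, rm⟩ := m2 _ (hT _ inter_subset_left fun x hx => by
      have : (Θ x).im ≤ -(3 / 5) := hx.2
      nlinarith)
    have hc : ∀ x ∈ Γ, -(4 / 5) ≤ (Θ x).re → (Θ x).re ≤ 4 / 5 → 9 / 25 ≤ (Θ x).im ^ 2 :=
      fun x hx a b => by nlinarith [hsq x hx]
    have op : IsOpen {x | 0 < (Θ x).im} := isOpen_lt continuous_const him
    have om : IsOpen {x | (Θ x).im < 0} := isOpen_lt him continuous_const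
    have n0 : ({x | 0 < (Θ x).im} ∪ {x | (Θ x).im < 0}) ∪
        ({x | -(4 / 5) ≤ (Θ x).re} ∩ {x | (Θ x).re ≤ 4 / 5})ᶜ ∈ 𝓝ˢ Γ := by
      refine union_mem (c1.inter c2) Subset.rfl ((op.union om).mem_nhdsSet.2 fun x hx => ?_)
      have := hc x hx.1 hx.2.1 hx.2.2
      rcases lt_trichotomy (Θ x).im 0 with h | h | h
      · exact Or.inr h
      · rw [h] at this
        norm_num at this
      · exact Or.inl h
    have np : Vp ∪ (({x | -(4 / 5) ≤ (Θ x).re} ∩ {x | (Θ x).re ≤ 4 / 5}) ∩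
        {x | 0 ≤ (Θ x).im})ᶜ ∈ 𝓝ˢ Γ := by
      refine union_mem ((c1.inter c2).inter (isClosed_le continuous_const him))
        (fun x hx => mem_inter hx.1 ?_) tp
      have h1 := hc x hx.1 hx.2.1.1 hx.2.1.2
      have h2 : 0 ≤ (Θ x).im := hx.2.2
      show 3 / 5 ≤ (Θ x).im
      nlinarith
    have nm : Vm ∪ (({x | -(4 / 5) ≤ (Θ x).re} ∩ {x | (Θ x).re ≤ 4 / 5}) ∩
        {x | (Θ x).im ≤ 0})ᶜ ∈ 𝓝ˢ Γ := by
      refine union_mem ((c1.inter c2).inter (isClosed_le him continuous_const))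
        (fun x hx => mem_inter hx.1 ?_) tm
      have h1 := hc x hx.1 hx.2.1.1 hx.2.1.2
      have h2 : (Θ x).im ≤ 0 := hx.2.2
      show (Θ x).im ≤ -(3 / 5)
      nlinarith
    refine ⟨V' ∩ (((T₁ ∪ _) ∩ (T₂ ∪ _)) ∩ (_ ∩ (_ ∩ _))), inter_mem hV' (inter_mem
      (inter_mem (union_mem c1 Subset.rfl t1) (union_mem c2 Subset.rfl t2))
      (inter_mem n0 (inter_mem np nm))), ?_⟩
    rw [two_mul, two_mul, ← add_assoc]
    refine (T.mv X O _ _ _ (T₁ ∩ T₂) T₁ T₂ V' i (r₀ + r₀) r₁ r₁ o1 o2 (cov _) inter_subset_left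
      (fun x hx => hx.1.2.1.1.resolve_right fun h => h (s1 hx.2))
      (fun x hx => hx.1.2.1.2.resolve_right fun h => h (s2 hx.2))).2
      inter_subset_left inter_subset_right ?_ r1 r2
    refine T.disj X O _ _ _ _ _ i r₀ r₀ op om ?_ ?_ (RO.mono rp ?_ Subset.rfl le_rfl)
      (RO.mono rm ?_ Subset.rfl le_rfl)
    · exact Set.disjoint_left.2 fun x (a : 0 < (Θ x).im) (b : (Θ x).im < 0) => lt_asymm a b
    · exact fun x hx => hx.1.1.2.2.1.resolve_right fun h => h ⟨s1 hx.1.2, s2 hx.2⟩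
    · exact fun x hx => hx.1.1.1.2.2.2.1.resolve_right fun h =>
        h ⟨⟨s1 hx.1.1.2, s2 hx.1.2⟩, le_of_lt (show 0 < (Θ x).im from hx.2)⟩
    · exact fun x hx => hx.1.1.1.2.2.2.2.resolve_right fun h =>
        h ⟨⟨s1 hx.1.1.2, s2 hx.1.2⟩, le_of_lt (show (Θ x).im < 0 from hx.2)⟩

end act

end CircP

open CircP

theorem phase (hB : Basics) : PhaseStmt := by
  intro n M _ _ G N _ γ c hγ hc
  obtain ⟨P, hP, hp, hk⟩ := exists_period hγ
  have : Fact (0 < P) := ⟨hP⟩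
  have B := hB.2 n M G N
  let o : ℝ → ZMod N → M := fun s => smp N fun t => γ (t + s)
  have ho : Function.Periodic o P := fun s => by
    funext j
    show γ (_ + (s + P)) = γ (_ + s)
    rw [← add_assoc, hp]
  have hoc : Continuous o := continuous_pi fun j => hγ.1.comp (by fun_prop)
  let e : AddCircle P → ZMod N → M := ho.lift
  have hec : Continuous e := continuous_coinduced_dom.mpr hoc
  have hei : Function.Injective e := by
    intro a b
    induction a using QuotientAddGroup.induction_on with | H a => ?_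
    induction b using QuotientAddGroup.induction_on with | H b => ?_
    intro hab
    have hab' : o a = o b := hab
    have e1 := (B.geo _ c (hγ.shift a) hc).2.1
    have e2 := (B.geo _ c (hγ.shift b) hc).2.1
    have e3 : (fun t => γ (t + a)) = fun t => γ (t + b) := by
      rw [← e1, ← e2]
      exact congrArg G.bg hab'
    obtain ⟨k, hk⟩ := hk (a - b) fun t => by
      have := congrFun e3 (t - b)
      simp only [sub_add_cancel] at this
      rw [← this]
      congr 1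
      ring
    rw [← sub_eq_zero, ← AddCircle.coe_sub, AddCircle.coe_eq_zero_iff]
    exact ⟨k, hk⟩
  obtain ⟨Θ, hΘ⟩ := ContinuousMap.exists_extension' (hec.isClosedEmbedding hei)
    (⟨fun x => ((AddCircle.toCircle x : Circle) : ℂ), by
      have := AddCircle.continuous_toCircle (T := P)
      fun_prop⟩ : C(AddCircle P, ℂ))
  refine ⟨P, Θ, hP, Θ.continuous, hp, fun s => ?_⟩
  have := congrFun hΘ (s : AddCircle P)
  simp only [Function.comp_apply, ContinuousMap.coe_mk, AddCircle.toCircle_apply_mk,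
    Circle.coe_exp] at this
  refine Eq.trans this ?_
  congr 1
  push_cast
  ring

theorem circ (K : Type) [Field K] (hB : Basics) (T : Tools K) (hP : PhaseStmt) : CircStmt K := by
  intro n M _ _ G N _ γ c hγ hc
  obtain ⟨P, Θ, hP0, hΘ, hp, he⟩ := hP n M G N γ c hγ hc
  have B := hB.2 n M G N
  let o : ℝ → ZMod N → M := fun s => smp N fun t => γ (t + s)
  have ho : Function.Periodic o P := fun s => by
    funext j
    show γ (_ + (s + P)) = γ (_ + s)
    rw [← add_assoc, hp]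
  have hA : Act (G.Gd N) (Sub M N c) G.rot o :=
    { op := B.isOpen
      cont := B.rot_cont
      mem := B.rot_mem
      zero := B.rot_zero
      sub := fun s x hx h => lt_of_le_of_lt (B.rot_le s x hx) h
      omem := fun s => (B.geo _ c (hγ.shift s) hc).1
      orb := fun s t => by
        rw [(B.geo _ c (hγ.shift t) hc).2.2.2 s]
        funext j
        show γ (_ + s + t) = γ (_ + (t + s))
        congr 1
        ring }
  have h0 : smp N γ = o 0 := by
    funext j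
    show γ _ = γ (_ + 0)
    rw [add_zero]
  have he' : ∀ s, Θ (o s) = ex P s := he
  have hg := glue (O := Sub M N c) (Γ := range o) T hΘ (by
    rintro _ ⟨s, rfl⟩
    rw [he', norm_ex])
  have a1 : ∀ i r, Lp K i (Sub M N c) (o 0) r →
      Loc K i (Sub M N c) (range o ∩ {x | -(4 / 5) ≤ (Θ x).re}) r := fun i r h => by
    simpa only [one_mul] using arc T hA hP0 hΘ ho he' h (w := 1) (by simp) (κ := -(4 / 5))
      (by norm_num) (by norm_num)
  have a2 : ∀ i r, Lp K i (Sub M N c) (o 0) r →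
      Loc K i (Sub M N c) (range o ∩ {x | (Θ x).re ≤ 4 / 5}) r := fun i r h => by
    simpa only [neg_mul, one_mul, Complex.neg_re, neg_le_neg_iff] using
      arc T hA hP0 hΘ ho he' h (w := -1) (by simp) (κ := -(4 / 5)) (by norm_num) (by norm_num)
  have a3 : ∀ i r, Lp K i (Sub M N c) (o 0) r →
      Loc K i (Sub M N c) (range o ∩ {x | 3 / 5 ≤ (Θ x).im}) r := fun i r h => by
    simpa only [neg_mul, Complex.neg_re, Complex.I_mul_re, neg_neg] using
      arc T hA hP0 hΘ ho he' h (w := -Complex.I) (by simp) (κ := 3 / 5) (by norm_num)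
        (by norm_num)
  have a4 : ∀ i r, Lp K i (Sub M N c) (o 0) r →
      Loc K i (Sub M N c) (range o ∩ {x | (Θ x).im ≤ -(3 / 5)}) r := fun i r h => by
    simpa only [Complex.I_mul_re, le_neg (a := (3 / 5 : ℝ))] using
      arc T hA hP0 hΘ ho he' h (w := Complex.I) (by simp) (κ := 3 / 5) (by norm_num)
        (by norm_num)
  rw [h0]
  exact ⟨fun r h => hg.1 r (a1 _ _ h) (a2 _ _ h),
    fun i r₀ r₁ h h' => hg.2 i r₀ r₁ (a3 _ _ h) (a4 _ _ h) (a1 _ _ h') (a2 _ _ h')⟩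

end Pool.Agent.MP_af6f1c_gt.Geo

end
end MrgPart0

-- ======== part 1: formerly Pool.Agent.MP_af6f1c_gt.geo.Coll
section MrgPart1

/-! PROJECT GEO, row COLL: collapsing the one-skeleton of a finite complex in a simply connected
space. -/

open Set Topology Metric

noncomputable section

namespace Pool.Agent.MP_af6f1c_gt.Geo

namespace CollP

/-- filling a square three of whose sides are given and whose fourth side is constant -/
lemma square {M : Type} [TopologicalSpace M] [SimplyConnectedSpace M] {x y x₀ : M}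
    (e : Path x y) (p : Path x x₀) (p' : Path y x₀) :
    ∃ G : ℝ × ℝ → M, Continuous G ∧ (∀ t ∈ Icc (0 : ℝ) 1, G (0, t) = e.extend t) ∧
      (∀ t ∈ Icc (0 : ℝ) 1, G (1, t) = x₀) ∧ (∀ u ∈ Icc (0 : ℝ) 1, G (u, 0) = p.extend u) ∧
      ∀ u ∈ Icc (0 : ℝ) 1, G (u, 1) = p'.extend u := by
  obtain ⟨F⟩ := SimplyConnectedSpace.paths_homotopic (p.symm.trans (e.trans p')) (Path.refl x₀)
  let L : ℝ × ℝ → M := fun w => F (projIcc 0 1 zero_le_one w.1, projIcc 0 1 zero_le_one w.2)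
  have hL : Continuous L := F.continuous.comp
    ((continuous_projIcc.comp continuous_fst).prodMk (continuous_projIcc.comp continuous_snd))
  have h0 : ∀ t, L (0, t) = (p.symm.trans (e.trans p')).extend t := fun t => by
    show F (projIcc 0 1 zero_le_one 0, _) = _
    rw [projIcc_left]
    exact F.apply_zero _
  have h1 : ∀ s t, 1 ≤ s → L (s, t) = x₀ := fun s t hs => by
    show F (projIcc 0 1 zero_le_one s, _) = _
    rw [projIcc_of_right_le _ hs]
    exact F.apply_one _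
  have h2 : ∀ s, L (s, 0) = x₀ := fun s => by
    show F (_, projIcc 0 1 zero_le_one 0) = _
    rw [projIcc_left]
    exact F.source _
  have h3 : ∀ s, L (s, 1) = x₀ := fun s => by
    show F (_, projIcc 0 1 zero_le_one 1) = _
    rw [projIcc_right]
    exact F.target _
  refine ⟨fun w => L (w.1 * (3 * min w.2 (1 - w.2)),
    (1 - w.1) * (1 / 2 + w.2 / 4) + w.1 * max 0 (min 1 (3 * w.2 - 1))), by fun_prop,
    fun t ht => ?_, fun t ht => ?_, fun u hu => ?_, fun u hu => ?_⟩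
  · simp only [zero_mul, sub_zero, one_mul, add_zero]
    rw [h0, Path.extend_trans_of_half_le _ _ (by linarith [ht.1]),
      Path.extend_trans_of_le_half _ _ (by linarith [ht.2])]
    congr 1
    ring
  · simp only [one_mul, sub_self, zero_mul, zero_add]
    rcases le_total t (1 / 3) with h | h
    · rw [min_eq_right (a := 1) (by linarith), max_eq_left (by linarith), h2]
    · rcases le_total t (2 / 3) with h' | h'
      · refine h1 _ _ ?_
        have : 1 / 3 ≤ min t (1 - t) := le_min h (by linarith)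
        linarith
      · rw [min_eq_left (a := 1) (by linarith), max_eq_right zero_le_one, h3]
  · have e1 : u * (3 * min (0 : ℝ) (1 - 0)) = 0 := by norm_num
    have e2 : (1 - u) * (1 / 2 + 0 / 4) + u * max 0 (min 1 (3 * (0 : ℝ) - 1)) = (1 - u) / 2 := by
      norm_num
      ring
    simp only [e1, e2]
    rw [h0, Path.extend_trans_of_le_half _ _ (by linarith [hu.1]), Path.extend_symm_apply]
    congr 1
    ring
  · have e1 : u * (3 * min (1 : ℝ) (1 - 1)) = 0 := by norm_num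
    have e2 : (1 - u) * (1 / 2 + 1 / 4) + u * max 0 (min 1 (3 * (1 : ℝ) - 1)) = (3 + u) / 4 := by
      norm_num
      ring
    simp only [e1, e2]
    rw [h0, Path.extend_trans_of_half_le _ _ (by linarith [hu.1]),
      Path.extend_trans_of_half_le _ _ (by linarith [hu.1])]
    congr 1
    ring

/-- gluing finitely many maps on closed sets -/
lemma glue {X Y ι : Type} [TopologicalSpace X] [TopologicalSpace Y] [Finite ι] [Nonempty Y]
    (C : ι → Set X) (f : ι → X → Y) (hC : ∀ i, IsClosed (C i)) (hf : ∀ i, ContinuousOn (f i) (C i))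
    (h : ∀ i j, ∀ x ∈ C i, x ∈ C j → f i x = f j x) :
    ∃ g : X → Y, ContinuousOn g (⋃ i, C i) ∧ ∀ i, ∀ x ∈ C i, g x = f i x := by
  classical
  let g : X → Y := fun x => if h : ∃ i, x ∈ C i then f h.choose x else Classical.arbitrary Y
  have hg : ∀ i, ∀ x ∈ C i, g x = f i x := fun i x hx => by
    have hx' : ∃ i, x ∈ C i := ⟨i, hx⟩
    simp only [g, dif_pos hx']
    exact h _ _ x hx'.choose_spec hx
  exact ⟨g, (locallyFinite_of_finite C).continuousOn_iUnion hC fun i =>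
    (hf i).congr (hg i), hg⟩

variable {q : ℕ} {𝒩 : Set (Finset (Fin q))}

lemma mem_Cx (h : ∀ S ∈ 𝒩, ∀ S' ⊆ S, S' ∈ 𝒩) {y : Fin q → ℝ} :
    y ∈ Cx 𝒩 ↔ (∀ v, 0 ≤ y v) ∧ ∑ v, y v = 1 ∧ ∃ S ∈ 𝒩, ∀ v, v ∉ S → y v = 0 := by
  classical
  refine and_congr_right fun _ => and_congr_right fun _ => ⟨?_, ?_⟩
  · rintro ⟨S, hS, h1⟩
    exact ⟨S, hS, fun v hv => by_contra fun h2 => hv ((h1 v).1 h2)⟩
  · rintro ⟨S, hS, h1⟩
    refine ⟨S.filter fun v => y v ≠ 0, h S hS _ (Finset.filter_subset _ _), fun v => ?_⟩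
    rw [Finset.mem_filter]
    exact ⟨fun h2 => ⟨by_contra fun h3 => h2 (h1 v h3), h2⟩, fun h2 => h2.2⟩

lemma isClosed_Cx (h : ∀ S ∈ 𝒩, ∀ S' ⊆ S, S' ∈ 𝒩) : IsClosed (Cx 𝒩) := by
  have e : Cx 𝒩 = (⋂ v, {y : Fin q → ℝ | 0 ≤ y v}) ∩ ({y | ∑ v, y v = 1} ∩
      ⋃ S ∈ 𝒩, ⋂ v ∈ {v | v ∉ S}, {y : Fin q → ℝ | y v = 0}) := by
    ext y
    simp [mem_Cx h]
  rw [e]
  refine (isClosed_iInter fun v => isClosed_le continuous_const (continuous_apply v)).inter
    ((isClosed_eq (by fun_prop) continuous_const).inter ((toFinite 𝒩).isClosed_biUnion fun S _ =>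
      isClosed_biInter fun v _ => isClosed_eq (continuous_apply v) continuous_const))

/-- a point of an edge -/
def pt (a b : Fin q) (t : ℝ) : Fin q → ℝ :=
  fun v => (if v = a then 1 - t else 0) + if v = b then t else 0

/-- a closed edge -/
def Eg (a b : Fin q) : Set (Fin q → ℝ) := pt a b '' Icc 0 1

lemma cont_pt (a b : Fin q) : Continuous (pt a b) := by
  refine continuous_pi fun v => ?_
  unfold pt
  split_ifs <;> fun_prop

lemma pt_zero (a b : Fin q) : pt a b 0 = pt a a 0 := by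
  funext v
  simp [pt]

lemma pt_one (a b : Fin q) : pt a b 1 = pt b b 0 := by
  funext v
  simp [pt]

lemma pt_self (a : Fin q) (t : ℝ) : pt a a t = pt a a 0 := by
  funext v
  by_cases h : v = a <;> simp [pt, h]

lemma pt_ne {a b v : Fin q} {t : ℝ} (h : pt a b t v ≠ 0) : v = a ∨ v = b := by
  by_contra h1
  rw [not_or] at h1
  simp [pt, h1.1, h1.2] at h

lemma pt_right {a b : Fin q} (h : a ≠ b) (t : ℝ) : pt a b t b = t := by
  simp [pt, h.symm]

lemma pt_left {a b : Fin q} (h : a ≠ b) (t : ℝ) : pt a b t a = 1 - t := by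
  simp [pt, h]

lemma pt_mem (h : ∀ S ∈ 𝒩, ∀ S' ⊆ S, S' ∈ 𝒩) {a b : Fin q} (hab : {a, b} ∈ 𝒩) {t : ℝ}
    (ht : t ∈ Icc (0 : ℝ) 1) : pt a b t ∈ Cx 𝒩 := by
  refine (mem_Cx h).2 ⟨fun v => ?_, ?_, _, hab, fun v hv => by_contra fun h1 => hv ?_⟩
  · unfold pt
    split_ifs <;> linarith [ht.1, ht.2]
  · simp [pt, Finset.sum_add_distrib]
  · simpa using pt_ne h1

lemma overlap {a b c d : Fin q} (hab : a ≤ b) (hcd : c ≤ d) {y : Fin q → ℝ} (h1 : y ∈ Eg a b)
    (h2 : y ∈ Eg c d) :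
    (a = c ∧ b = d) ∨ ∃ v, y = pt v v 0 ∧ (v = a ∨ v = b) ∧ (v = c ∨ v = d) := by
  obtain ⟨t, -, rfl⟩ := h1
  obtain ⟨s, -, hs⟩ := h2
  by_cases hv : ∃ v, pt a b t = pt v v 0
  · obtain ⟨v, hv⟩ := hv
    have h0 : pt a b t v ≠ 0 := by rw [hv]; simp [pt]
    exact Or.inr ⟨v, hv, pt_ne h0, pt_ne (hs ▸ h0)⟩
  · have hne : a ≠ b := fun h => hv ⟨a, by rw [← h, pt_self]⟩
    have ha : pt a b t a ≠ 0 := by
      rw [pt_left hne]
      intro h
      exact hv ⟨b, by rw [← pt_one a b]; congr 1; linarith⟩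
    have hb : pt a b t b ≠ 0 := by
      rw [pt_right hne]
      intro h
      exact hv ⟨a, by rw [h, pt_zero]⟩
    have h3 := pt_ne (hs ▸ ha)
    have h4 := pt_ne (hs ▸ hb)
    left
    omega

lemma cover {y : Fin q → ℝ} (hy : y ∈ Cx 𝒩) (h2 : {v | y v ≠ 0}.ncard ≤ 2) :
    ∃ a b, a ≤ b ∧ {a, b} ∈ 𝒩 ∧ y ∈ Eg a b := by
  obtain ⟨h0, h1, S, hS, h3⟩ := hy
  have e : {v | y v ≠ 0} = (S : Set (Fin q)) := Set.ext h3
  rw [e, ncard_coe_finset] at h2
  have hsum : ∑ v ∈ S, y v = 1 := by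
    rw [← h1]
    exact Finset.sum_subset (Finset.subset_univ _) fun v _ hv => by_contra fun h => hv ((h3 v).1 h)
  have hz : ∀ v, v ∉ S → y v = 0 := fun v hv => by_contra fun h => hv ((h3 v).1 h)
  have key : ∀ a b : Fin q, a ≠ b → S = {a, b} → y ∈ Eg a b := by
    rintro a b hab rfl
    rw [Finset.sum_pair hab] at hsum
    refine ⟨y b, ⟨h0 b, by linarith [h0 a]⟩, funext fun v => ?_⟩
    by_cases ha : v = a
    · rw [ha, pt_left hab]; linarith
    · by_cases hb : v = b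
      · rw [hb, pt_right hab]
      · rw [hz v (by simp [ha, hb])]
        simp [pt, ha, hb]
  have hc : S.card = 0 ∨ S.card = 1 ∨ S.card = 2 := by omega
  rcases hc with hc | hc | hc
  · rw [Finset.card_eq_zero] at hc
    simp [hc] at hsum
  · obtain ⟨a, rfl⟩ := Finset.card_eq_one.1 hc
    rw [Finset.sum_singleton] at hsum
    refine ⟨a, a, le_rfl, by simpa using hS, 0, ⟨le_rfl, zero_le_one⟩, funext fun v => ?_⟩
    by_cases ha : v = a
    · simp [pt, ha, hsum]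
    · rw [hz v (by simp [ha])]
      simp [pt, ha]
  · obtain ⟨a, b, hab, hS'⟩ := Finset.card_eq_two.1 hc
    rcases le_total a b with h | h
    · exact ⟨a, b, h, hS' ▸ hS, key a b hab hS'⟩
    · rw [Finset.pair_comm] at hS'
      exact ⟨b, a, h, hS' ▸ hS, key b a hab.symm hS'⟩

/-- a null-homotopy on one edge that follows the chosen paths at the two vertices -/
lemma edge {M : Type} [TopologicalSpace M] [SimplyConnectedSpace M] (ψ : (Fin q → ℝ) → M)
    (h : ∀ S ∈ 𝒩, ∀ S' ⊆ S, S' ∈ 𝒩) (hψ : ContinuousOn ψ (Cx 𝒩)) {x₀ : M}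
    (p : ∀ v, Path (ψ (pt v v 0)) x₀) {a b : Fin q} (hab : {a, b} ∈ 𝒩) :
    ∃ f : ℝ × (Fin q → ℝ) → M, Continuous f ∧ (∀ y ∈ Eg a b, f (0, y) = ψ y) ∧
      (∀ y ∈ Eg a b, f (1, y) = x₀) ∧
      ∀ v, v = a ∨ v = b → ∀ u ∈ Icc (0 : ℝ) 1, f (u, pt v v 0) = (p v).extend u := by
  by_cases hne : a = b
  · subst hne
    refine ⟨fun w => (p a).extend w.1, by fun_prop, ?_, fun y _ => (p a).extend_one, ?_⟩
    · rintro _ ⟨t, -, rfl⟩
      exact (p a).extend_zero.trans (congrArg ψ (pt_self a t).symm)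
    · rintro v (rfl | rfl) u _ <;> rfl
  · have hc : ContinuousOn (fun t => ψ (pt a b t)) (Icc 0 1) :=
      hψ.comp (cont_pt a b).continuousOn fun t ht => pt_mem h hab ht
    obtain ⟨G, hG, h0, h1, h2, h3⟩ := square
      (Path.ofLine hc (congrArg ψ (pt_zero a b)) (congrArg ψ (pt_one a b))) (p a) (p b)
    refine ⟨fun w => G (w.1, w.2 b), by fun_prop, ?_, ?_, ?_⟩
    · rintro _ ⟨t, ht, rfl⟩
      simp only [pt_right hne]
      rw [h0 t ht, Path.extend_apply _ ht]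
      rfl
    · rintro _ ⟨t, ht, rfl⟩
      simp only [pt_right hne]
      exact h1 t ht
    · rintro v (rfl | rfl) u hu
      · rw [← h2 u hu, ← pt_zero v b]
        simp only [pt_right hne]
      · rw [← h3 u hu, ← pt_one a v]
        simp only [pt_right hne]

/-- the null-homotopy on the graph, together with the given map at time zero -/
lemma graph {M : Type} [TopologicalSpace M] [SimplyConnectedSpace M] (ψ : (Fin q → ℝ) → M)
    (h : ∀ S ∈ 𝒩, ∀ S' ⊆ S, S' ∈ 𝒩) (hψ : ContinuousOn ψ (Cx 𝒩)) :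
    ∃ (G : ℝ × (Fin q → ℝ) → M) (x₀ : M),
      ContinuousOn G {w | w.2 ∈ Cx 𝒩 ∧ w.1 ∈ Icc (0 : ℝ) 1 ∧
        (w.1 = 0 ∨ {v | w.2 v ≠ 0}.ncard ≤ 2)} ∧
      (∀ y ∈ Cx 𝒩, G (0, y) = ψ y) ∧
      ∀ y ∈ Cx 𝒩, {v | y v ≠ 0}.ncard ≤ 2 → G (1, y) = x₀ := by
  obtain ⟨x₀⟩ : Nonempty M := inferInstance
  let p : ∀ v : Fin q, Path (ψ (pt v v 0)) x₀ := fun v => PathConnectedSpace.somePath _ _
  let ι := {e : Fin q × Fin q // e.1 ≤ e.2 ∧ {e.1, e.2} ∈ 𝒩}
  choose f hf h0 h1 h2 using fun e : ι => edge ψ h hψ p e.2.2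
  obtain ⟨G, hG, hG'⟩ := glue (ι := Option ι)
    (fun o => o.elim (({0} : Set ℝ) ×ˢ Cx 𝒩) fun e => Icc 0 1 ×ˢ Eg e.1.1 e.1.2)
    (fun o => o.elim (fun w => ψ w.2) f)
    (by
      rintro (_ | e)
      · exact isClosed_singleton.prod (isClosed_Cx h)
      · exact isClosed_Icc.prod (isCompact_Icc.image (cont_pt _ _)).isClosed)
    (by
      rintro (_ | e)
      · exact hψ.comp continuousOn_snd fun w hw => hw.2
      · exact (hf e).continuousOn)
    (by
      rintro (_ | e) (_ | e') ⟨u, y⟩ hw hw'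
      · rfl
      · obtain rfl : u = 0 := hw.1
        exact (h0 e' y hw'.2).symm
      · obtain rfl : u = 0 := hw'.1
        exact h0 e y hw.2
      · rcases overlap e.2.1 e'.2.1 hw.2 hw'.2 with h3 | ⟨v, h3, h4, h5⟩
        · obtain rfl : e = e' := Subtype.ext (Prod.ext h3.1 h3.2)
          rfl
        · obtain rfl : y = pt v v 0 := h3
          exact (h2 e v h4 u hw.1).trans (h2 e' v h5 u hw.1).symm)
  refine ⟨G, x₀, hG.mono ?_, fun y hy => hG' none (0, y) ⟨rfl, hy⟩, fun y hy h3 => ?_⟩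
  · rintro ⟨u, y⟩ ⟨hy, hu, h3 | h3⟩
    · exact mem_iUnion.2 ⟨none, h3, hy⟩
    · obtain ⟨a, b, h4, h5, h6⟩ := cover hy h3
      exact mem_iUnion.2 ⟨some ⟨(a, b), h4, h5⟩, hu, h6⟩
  · obtain ⟨a, b, h4, h5, h6⟩ := cover hy h3
    exact (hG' (some ⟨(a, b), h4, h5⟩) (1, y) ⟨⟨zero_le_one, le_rfl⟩, h6⟩).trans
      (h1 ⟨(a, b), h4, h5⟩ y h6)

/-- cutting off the small coordinates -/
def cut (s : ℝ) (y : Fin q → ℝ) : Fin q → ℝ :=
  fun v => max (y v - s) 0 / ∑ w, max (y w - s) 0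

lemma cut_den {s : ℝ} (hs : s ≤ 1 / (q + 1)) {y : Fin q → ℝ} (hy : y ∈ Cx 𝒩) :
    0 < ∑ w, max (y w - s) 0 := by
  have h1 : ∑ w, (y w - s) ≤ ∑ w, max (y w - s) 0 := Finset.sum_le_sum fun w _ => le_max_left _ _
  rw [Finset.sum_sub_distrib, hy.2.1, Finset.sum_const, Finset.card_univ, Fintype.card_fin,
    nsmul_eq_mul] at h1
  have h2 : (q : ℝ) * s ≤ q * (1 / (q + 1)) := mul_le_mul_of_nonneg_left hs (Nat.cast_nonneg q)
  have h3 : (q : ℝ) * (1 / (q + 1)) < 1 := by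
    rw [mul_one_div, div_lt_one (by positivity)]
    linarith
  linarith

lemma cut_eq_zero {s : ℝ} {y : Fin q → ℝ} {v : Fin q} (h : y v ≤ s) : cut s y v = 0 := by
  simp only [cut]
  rw [max_eq_right (by linarith), zero_div]

lemma cut_mem (h : ∀ S ∈ 𝒩, ∀ S' ⊆ S, S' ∈ 𝒩) {s : ℝ} (h0 : 0 ≤ s) (hs : s ≤ 1 / (q + 1))
    {y : Fin q → ℝ} (hy : y ∈ Cx 𝒩) : cut s y ∈ Cx 𝒩 := by
  have hd := cut_den hs hy
  obtain ⟨-, -, S, hS, h1⟩ := (mem_Cx h).1 hy
  refine (mem_Cx h).2 ⟨fun v => div_nonneg (le_max_right _ _) hd.le, ?_, S, hS, fun v hv =>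
    cut_eq_zero (by rw [h1 v hv]; exact h0)⟩
  simp only [cut]
  rw [← Finset.sum_div, div_self hd.ne']

lemma cut_zero {y : Fin q → ℝ} (hy : y ∈ Cx 𝒩) : cut 0 y = y := by
  funext v
  simp only [cut, sub_zero, max_eq_left (hy.1 _), hy.2.1, div_one]

end CollP

open CollP in
theorem coll : CollStmt := by
  intro M _ _ q 𝒩 ψ h hψ
  obtain ⟨G, x₀, hG, h0, h1⟩ := graph ψ h hψ
  let Γ : Set (Fin q → ℝ) := {y | {v | y v ≠ 0}.ncard ≤ 2}
  have hΓ : Γ.Nonempty := ⟨0, by simp [Γ]⟩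
  let c : ℝ := 1 / (q + 1)
  have hc : 0 < c := by positivity
  let R : ℝ × (Fin q → ℝ) → ℝ × (Fin q → ℝ) := fun w =>
    (max 0 (2 * w.1 - 1) * max 0 (1 - infDist w.2 Γ / c), cut (min 1 (2 * w.1) * c) w.2)
  have hs : ∀ u : ℝ, min 1 (2 * u) * c ≤ 1 / (q + 1) := fun u =>
    mul_le_of_le_one_left hc.le (min_le_left _ _)
  have hsub : ∀ y : Fin q → ℝ, infDist y Γ < c → {v | cut c y v ≠ 0}.ncard ≤ 2 := fun y hy => by
    obtain ⟨y', hy', h2⟩ := (infDist_lt_iff hΓ).1 hy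
    refine le_trans (ncard_le_ncard (fun v hv => ?_)) hy'
    intro h3
    refine hv (cut_eq_zero ?_)
    have h4 := dist_le_pi_dist y y' v
    rw [h3, Real.dist_eq, sub_zero] at h4
    linarith [le_abs_self (y v)]
  have hR : ContinuousOn R (Icc 0 1 ×ˢ Cx 𝒩) := by
    refine ContinuousOn.prodMk (Continuous.continuousOn ?_) (continuousOn_pi.2 fun v => ?_)
    · have := continuous_infDist_pt Γ
      fun_prop
    · exact ContinuousOn.div (by fun_prop) (by fun_prop) fun w hw => (cut_den (hs _) hw.2).ne'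
  refine ⟨fun w => G (R w), x₀, hG.comp hR ?_, fun y hy => ?_, fun y hy h2 => ?_⟩
  · rintro ⟨u, y⟩ ⟨hu, hy⟩
    have h2 : 0 ≤ infDist y Γ / c := div_nonneg infDist_nonneg hc.le
    refine ⟨cut_mem h (mul_nonneg (le_min zero_le_one (by linarith [hu.1])) hc.le) (hs _) hy,
      ⟨mul_nonneg (le_max_left _ _) (le_max_left _ _), mul_le_one₀
        (max_le zero_le_one (by linarith [hu.2])) (le_max_left _ _)
        (max_le zero_le_one (by linarith))⟩, ?_⟩
    rcases le_total (2 * u) 1 with h3 | h3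
    · left
      show max 0 (2 * u - 1) * _ = 0
      rw [max_eq_left (by linarith), zero_mul]
    · rcases lt_or_ge (infDist y Γ) c with h4 | h4
      · right
        show {v | cut (min 1 (2 * u) * c) y v ≠ 0}.ncard ≤ 2
        rw [min_eq_left h3, one_mul]
        exact hsub y h4
      · left
        show _ * max 0 (1 - infDist y Γ / c) = 0
        rw [max_eq_left (b := 1 - _) (by rw [sub_nonpos, one_le_div hc]; exact h4), mul_zero]
  · have e : R (0, y) = (0, y) := by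
      simp only [R]
      norm_num
      exact cut_zero hy
    simp only [e]
    exact h0 y hy
  · have h3 : infDist y Γ = 0 := infDist_zero_of_mem h2
    have e : R (1, y) = (1, cut c y) := by
      simp only [R, h3]
      norm_num
    simp only [e]
    exact h1 _ (cut_mem h hc.le le_rfl hy) (hsub y (by rw [h3]; exact hc))

end Pool.Agent.MP_af6f1c_gt.Geo

end
end MrgPart1

-- ======== part 2: formerly Pool.Agent.MP_af6f1c_gt.geo.Count
section MrgPart2

/-! PROJECT GEO, row COUNT: the Morse inequality in terms of images of closed geodesics. -/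

open Set

noncomputable section

namespace Pool.Agent.MP_af6f1c_gt.Geo

namespace CountP

/-- pairs of a prime geodesic and a multiplicity below a level form a finite set -/
lemma fin_pairs {P : Type} {c : P → ℝ} (hc : ∀ p, 0 < c p) (hf : ∀ L, {p | c p ≤ L}.Finite)
    (b : ℝ) : {q : P × ℕ | 1 ≤ q.2 ∧ q.2 * c q.1 ≤ b}.Finite := by
  refine ((hf b).biUnion (t := fun p => ({p} : Set P) ×ˢ Iic ⌊b / c p⌋₊) fun p _ =>
    (finite_singleton p).prod (finite_Iic _)).subset ?_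
  rintro ⟨p, m⟩ ⟨h1, h2⟩
  have hp := hc p
  have hm : (1 : ℝ) ≤ m := by exact_mod_cast h1
  refine mem_biUnion (x := p) ?_ ⟨rfl, ?_⟩
  · show c p ≤ b
    nlinarith
  · show m ≤ ⌊b / c p⌋₊
    exact Nat.le_floor ((le_div_iff₀ hp).2 h2)

end CountP

open CountP

theorem count (K : Type) [Field K] (h1 : PrimeStmt) (h2 : MorseStmt K) (h3 : WinStmt K)
    (h4 : BndStmt K) : CountStmt K := by
  classical
  intro n M _ _ G hfin
  have hex : ∀ A : {A : Set M // ∃ L, A ∈ GI M L}, ∃ γ c, CG γ c ∧ range γ = A.1 ∧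
      ∀ γ' c', CG γ' c' → range γ' = A.1 → ∃ (m : ℕ) (s : ℝ), 1 ≤ m ∧ c' = m * c ∧
        ((∀ t, γ' t = γ (m * (t + s))) ∨ ∀ t, γ' t = γ (-(m * (t + s)))) := by
    rintro ⟨A, L, hA⟩
    obtain ⟨γ₀, c₀, h0, -, rfl⟩ := mem_GI.1 hA
    exact h1 n M G γ₀ c₀ h0
  choose g c hg hr hp using hex
  let P := {A : Set M // ∃ L, A ∈ GI M L} × Bool
  let cv : P → ℝ → M := fun p => if p.2 then g p.1 else fun t => g p.1 (-t)
  have hcv : ∀ p : P, CG (cv p) (c p.1) := by
    rintro ⟨A, o⟩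
    cases o
    · exact (hg A).rev
    · exact hg A
  have hpos : ∀ p : P, 0 < c p.1 := fun p => (hg p.1).2.2.1
  have hiff : ∀ (p : P) L, p.1.1 ∈ GI M L ↔ c p.1 ≤ L := by
    intro p L
    rw [mem_GI]
    constructor
    · rintro ⟨γ', c', h', hL, hA⟩
      obtain ⟨m, s, hm, hc, -⟩ := hp p.1 γ' c' h' hA.symm
      have hm' : (1 : ℝ) ≤ m := by exact_mod_cast hm
      have := hpos p
      nlinarith
    · intro h
      exact ⟨g p.1, c p.1, hg p.1, h, (hr p.1).symm⟩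
  have hinj : Function.Injective (fun p : P => (p.1.1, p.2)) := by
    rintro ⟨A, o⟩ ⟨A', o'⟩ h
    obtain ⟨ha, ho⟩ := Prod.mk.inj h
    exact Prod.ext (Subtype.ext ha) ho
  have hf : ∀ L, {p : P | c p.1 ≤ L}.Finite := by
    intro L
    refine Finite.of_finite_image (f := fun p : P => (p.1.1, p.2)) ?_ hinj.injOn
    refine ((hfin L).prod (finite_univ (α := Bool))).subset ?_
    rintro _ ⟨p, hp', rfl⟩
    exact ⟨(hiff p L).2 hp', trivial⟩
  have hcov : ∀ γ' c', CG γ' c' → ∃ (p : P) (m : ℕ) (s : ℝ), 1 ≤ m ∧ c' = m * c p.1 ∧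
      ∀ t, γ' t = itr m (cv p) (t + s) := by
    intro γ' c' h'
    let A : {A : Set M // ∃ L, A ∈ GI M L} := ⟨range γ', c', mem_GI.2 ⟨γ', c', h', le_rfl, rfl⟩⟩
    obtain ⟨m, s, hm, hc, h | h⟩ := hp A γ' c' h' rfl
    · exact ⟨(A, true), m, s, hm, hc, h⟩
    · exact ⟨(A, false), m, s, hm, hc, h⟩
  have hFO : FinOrb M := by
    intro b
    refine ⟨(fun q : P × ℕ => itr q.2 (cv q.1)) '' {q | 1 ≤ q.2 ∧ q.2 * c q.1.1 ≤ b},
      (fin_pairs (c := fun p : P => c p.1) hpos hf b).image _, fun γ' c' h' hb => ?_⟩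
    obtain ⟨p, m, s, hm, hc, h⟩ := hcov γ' c' h'
    exact ⟨_, ⟨(p, m), ⟨hm, hc ▸ hb⟩, rfl⟩, s, h⟩
  choose α hα using fun p : P => h3 n M G (cv p) (c p.1) (hcv p)
  choose B hB using fun p : P => h4 n M G (cv p) (c p.1) hFO (hcv p)
  refine ⟨P, fun p => p.1.1, fun p => p.2, fun p => c p.1, α, B, hinj, hpos, hiff,
    fun i a b T ha hab hT => ?_⟩
  have hF := fin_pairs (c := fun p : P => c p.1) hpos hf b
  let T0 : Finset (P × ℕ) := hF.toFinset.filter fun q => a ≤ q.2 * c q.1.1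
  have hT0 : ∀ q, q ∈ T0 ↔ (1 ≤ q.2 ∧ q.2 * c q.1.1 ≤ b) ∧ a ≤ q.2 * c q.1.1 := by
    intro q
    simp only [T0, Finset.mem_filter, Finite.mem_toFinset, mem_ofPred_eq]
  let W : P × ℕ → Prop := fun q => |(i : ℝ) - q.2 * α q.1| ≤ 3 * n + 1
  have key := h2 n M G (P × ℕ) T0 (fun q => itr q.2 (cv q.1)) (fun q => q.2 * c q.1.1)
    (fun q => if W q then B q.1 else 0) i a b hFO ha hab (fun q hq => by
      have h1' := ((hT0 q).1 hq).1.1
      refine ⟨(hcv q.1).itr h1', ?_⟩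
      by_cases hw : W q
      · rw [if_pos hw]
        exact hB q.1 q.2 i h1'
      · rw [if_neg hw]
        exact hα q.1 q.2 i h1' (not_le.1 hw)) (fun γ' c' h' ha' hb' => by
      obtain ⟨p, m, s, hm, hc, h⟩ := hcov γ' c' h'
      exact ⟨(p, m), (hT0 _).2 ⟨⟨hm, hc ▸ hb'⟩, hc ▸ ha'⟩, s, h⟩)
  refine key.mono le_rfl le_rfl ?_
  rw [← Finset.sum_filter]
  refine Finset.sum_le_sum_of_subset fun q hq => ?_
  obtain ⟨hq0, hw⟩ := Finset.mem_filter.1 hq
  obtain ⟨⟨k1, k2⟩, k3⟩ := (hT0 q).1 hq0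
  exact hT q.1 q.2 k1 k3 k2 hw

end Pool.Agent.MP_af6f1c_gt.Geo

end
end MrgPart2

-- marker of a merged file
example : 731051 + 427256 = 731051 + 427256 := rfl
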