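import Mathlib.Topology.Algebra.Module.FiniteDimension
import Mathlib.Topology.MetricSpace.Thickening
import Pool.Agent.MP_af6f1c_gt.geo.Spec

/-! PROJECT GEO, row CUBE: compact pairs in open pairs of a finite dimensional space. -/

open Set Topology Metric Module

noncomputable section

namespace Pool.Agent.MP_af6f1c_gt.Geo

namespace CubeP

/-- the hat function -/
def hat (t : ℝ) : ℝ := max 0 (1 - |t|)

theorem hat_nonneg (t : ℝ) : 0 ≤ hat t := le_max_left _ _

theorem hat_cont : Continuous hat := by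
  unfold hat
  fun_prop

theorem hat_zero {t : ℝ} (h : 1 ≤ |t|) : hat t = 0 := max_eq_left (by linarith)

theorem lt_of_hat {t : ℝ} (h : hat t ≠ 0) : |t| < 1 := by
  by_contra h1
  exact h (hat_zero (not_lt.1 h1))

theorem sum_hat (α β : ℝ) (M : ℕ) : ∀ t : ℝ, 0 ≤ t → t ≤ M →
    ∑ v ∈ Finset.range (M + 1), hat (t - v) * (α + β * v) = α + β * t := by
  induction M with
  | zero =>
    intro t h0 h1
    obtain rfl : t = 0 := le_antisymm (by simpa using h1) h0
    simp [hat]
  | succ M ih =>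
    intro t h0 h1
    push_cast at h1
    rw [Finset.sum_range_succ]
    rcases le_total t M with h | h
    · rw [ih t h0 h, hat_zero (by push_cast; rw [le_abs]; right; linarith)]
      simp
    · rw [Finset.sum_range_succ, Finset.sum_eq_zero fun v hv => ?_]
      · have e1 : hat (t - M) = 1 - (t - M) := by
          rw [hat, abs_of_nonneg (by linarith), max_eq_right (by linarith)]
        have e2 : hat (t - (M + 1 : ℕ)) = t - M := by
          push_cast
          rw [hat, abs_of_nonpos (by linarith), max_eq_right (by linarith)]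
          ring
        rw [e1, e2]
        push_cast
        ring
      · have : (v : ℝ) + 1 ≤ M := by exact_mod_cast Finset.mem_range.1 hv
        rw [hat_zero (by rw [le_abs]; left; linarith), zero_mul]

/-- the cells of the grid whose closed image lies in `W` -/
def cells {E : Type} {d M : ℕ} (g : (Fin d → Fin (M + 1) → ℝ) → E) (W : Set E) :
    Set (Fin d → Finset (Fin (M + 1))) :=
  {S | (∀ j, ∃ k : ℕ, ∀ w ∈ S j, (w : ℕ) = k ∨ (w : ℕ) = k + 1) ∧
    ∀ x : Fin d → Fin (M + 1) → ℝ, (∀ j v, 0 ≤ x j v) → (∀ j, ∑ v, x j v = 1) →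
      (∀ j v, x j v ≠ 0 → v ∈ S j) → g x ∈ W}

theorem cells_dn {E : Type} {d M : ℕ} (g : (Fin d → Fin (M + 1) → ℝ) → E) (W : Set E) :
    Dn (cells g W) := fun _ hS _ h =>
  ⟨fun j => (hS.1 j).imp fun _ hk w hw => hk w (h j hw),
    fun x h1 h2 h3 => hS.2 x h1 h2 fun j v hv => h j (h3 j v hv)⟩

theorem cdim_le {E : Type} {d M : ℕ} {g : (Fin d → Fin (M + 1) → ℝ) → E} {W : Set E}
    {S : Fin d → Finset (Fin (M + 1))} (h : S ∈ cells g W) : cdim S ≤ d := by
  have h1 : ∀ j, (S j).card - 1 ≤ 1 := fun j => by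
    obtain ⟨k, hk⟩ := h.1 j
    have : (S j).card ≤ ({k, k + 1} : Finset ℕ).card :=
      Finset.card_le_card_of_injOn Fin.val (fun w hw => by simpa using hk w hw)
        (fun _ _ _ _ h => Fin.ext h)
    have := Finset.card_le_two (a := k) (b := k + 1)
    omega
  exact (Finset.sum_le_sum fun j _ => h1 j).trans (by simp)

variable {K : Type} [Field K]

theorem rk_mono {V : Type} [AddCommGroup V] [Module K V] {Z B : Submodule K V} {r r' : ℕ}
    (h : Rk Z B r) (hr : r ≤ r') : Rk Z B r' :=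
  le_trans h (by exact_mod_cast hr)

theorem rk_zero {V : Type} [AddCommGroup V] [Module K V] {Z B : Submodule K V} :
    Rk Z B 0 ↔ Z ≤ B := by
  rw [Rk, Nat.cast_zero, nonpos_iff_eq_zero, Submodule.rank_eq_zero, eq_bot_iff,
    Submodule.map_le_iff_le_comap, Submodule.comap_bot, Submodule.ker_mkQ]

theorem in_mono {X : Type} [TopologicalSpace X] (n : ℕ) {A B : Set X} (h : A ⊆ B) :
    In K n A ≤ In K n B :=
  Finsupp.supported_mono fun _ hσ t => h (hσ t)

theorem exists_compact {X : Type} [TopologicalSpace X] {n : ℕ} {A : Set X} {z : Ch K n X}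
    (h : z ∈ In K n A) : ∃ C ⊆ A, IsCompact C ∧ z ∈ In K n C := by
  refine ⟨⋃ σ ∈ z.support, range σ, ?_,
    z.support.isCompact_biUnion fun σ _ => isCompact_range σ.continuous, fun σ hσ t => ?_⟩
  · simp only [iUnion_subset_iff]
    rintro σ hσ _ ⟨t, rfl⟩
    exact h hσ t
  · exact mem_biUnion hσ (mem_range_self t)

end CubeP

open CubeP

theorem cube (K : Type) [Field K] (T : Tools K) (h : CellStmt K) : CubeStmt K := by
  intro E _ _ _ C A V B hC hA hAC hV hB hCV hAB hBV
  set d := finrank ℝ E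
  have e : E ≃L[ℝ] (Fin d → ℝ) := ContinuousLinearEquiv.ofFinrankEq (by simp [d])
  obtain ⟨δ₁, hδ₁, h1⟩ := (hC.image e.continuous).exists_cthickening_subset_open
    (hV.preimage e.symm.continuous) (by rintro _ ⟨y, hy, rfl⟩; simpa using hCV hy)
  obtain ⟨δ₂, hδ₂, h2⟩ := (hA.image e.continuous).exists_cthickening_subset_open
    (hB.preimage e.symm.continuous) (by rintro _ ⟨y, hy, rfl⟩; simpa using hAB hy)
  obtain ⟨R, hR⟩ := (hC.image e.continuous).isBounded.subset_closedBall 0
  set η := min δ₁ δ₂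
  have hη : 0 < η := lt_min hδ₁ hδ₂
  obtain ⟨M, hM⟩ := exists_nat_ge (2 * R / η)
  set f : E → Fin d → Fin (M + 1) → ℝ := fun y j v => hat ((e y j + R) / η - (v : ℕ)) with hf
  set g : (Fin d → Fin (M + 1) → ℝ) → E :=
    fun x => e.symm fun j => ∑ v, x j v * (-R + η * (v : ℕ)) with hg
  have ht : ∀ y ∈ C, ∀ j, 0 ≤ (e y j + R) / η ∧ (e y j + R) / η ≤ M := fun y hy j => by
    have h3 : ‖e y‖ ≤ R := by simpa using hR ⟨y, hy, rfl⟩
    have h4 := abs_le.1 ((norm_le_pi_norm (e y) j).trans h3)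
    refine ⟨div_nonneg (by linarith) hη.le, le_trans ?_ hM⟩
    gcongr
    linarith
  have hsum : ∀ y ∈ C, ∀ j (α β : ℝ),
      ∑ v, f y j v * (α + β * (v : ℕ)) = α + β * ((e y j + R) / η) := fun y hy j α β => by
    rw [← sum_hat α β M _ (ht y hy j).1 (ht y hy j).2]
    exact Fin.sum_univ_eq_sum_range (fun v => hat ((e y j + R) / η - v) * (α + β * v)) (M + 1)
  have hgf : ∀ y ∈ C, g (f y) = y := fun y hy => by
    simp only [hg]
    rw [ContinuousLinearEquiv.symm_apply_eq]
    ext j
    rw [hsum y hy]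
    field_simp
    ring
  have hmap : ∀ (C' W : Set E) (δ : ℝ), C' ⊆ C → η ≤ δ → cthickening δ (e '' C') ⊆ e.symm ⁻¹' W →
      MapsTo f C' (Pl (cells g W)) := by
    classical
    intro C' W δ hC' hδ hW y hy
    have hy' := hC' hy
    refine ⟨fun j v => hat_nonneg _, fun j => by simpa using hsum y hy' j 1 0,
      fun j => Finset.univ.filter fun v => f y j v ≠ 0, ⟨fun j => ?_, fun x x0 x1 hx => ?_⟩,
      by simp⟩
    · refine ⟨⌊(e y j + R) / η⌋₊, fun w hw => ?_⟩
      have h3 := abs_lt.1 (lt_of_hat (Finset.mem_filter.1 hw).2)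
      have h4 := Nat.floor_le (ht y hy' j).1
      have h5 := Nat.lt_floor_add_one ((e y j + R) / η)
      have h6 : ((w : ℕ) : ℝ) < (⌊(e y j + R) / η⌋₊ + 2 : ℕ) := by push_cast; linarith
      have h7 : ((⌊(e y j + R) / η⌋₊ : ℕ) : ℝ) < ((w : ℕ) + 1 : ℕ) := by push_cast; linarith
      have h8 := Nat.cast_lt.1 h6
      have h9 := Nat.cast_lt.1 h7
      omega
    · refine hW (mem_cthickening_of_dist_le _ (e y) _ _ ⟨y, hy, rfl⟩ (le_trans ?_ hδ))
      rw [dist_pi_le_iff hη.le]
      intro j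
      have h3 : ∑ v, x j v * (-R + η * (v : ℕ)) - e y j =
          ∑ v, x j v * (-R + η * (v : ℕ) - e y j) := by
        simp only [mul_sub, Finset.sum_sub_distrib, ← Finset.sum_mul, x1, one_mul]
      rw [Real.dist_eq, h3]
      refine (Finset.abs_sum_le_sum_abs _ _).trans
        ((Finset.sum_le_sum (g := fun v => x j v * η) fun v _ => ?_).trans ?_)
      · rw [abs_mul, abs_of_nonneg (x0 j v)]
        by_cases hv : x j v = 0
        · simp [hv]
        · have h4 := lt_of_hat (Finset.mem_filter.1 (hx j v hv)).2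
          have h5 : -R + η * (v : ℕ) - e y j = -(η * ((e y j + R) / η - (v : ℕ))) := by
            field_simp
            ring
          rw [h5, abs_neg, abs_mul, abs_of_pos hη]
          exact mul_le_mul_of_nonneg_left (mul_le_of_le_one_right hη.le h4.le) (x0 j v)
      · rw [← Finset.sum_mul, x1, one_mul]
  have hback : ∀ W : Set E, MapsTo g (Pl (cells g W)) W := by
    rintro W x ⟨x0, x1, S, hS, hx⟩
    exact hS.2 x x0 x1 fun j v hv => (hx j v).1 hv
  have hsub : cells g B ⊆ cells g V := fun S hS =>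
    ⟨hS.1, fun x x0 x1 hx => hBV (hS.2 x x0 x1 hx)⟩
  have key : ∀ j, RP K j C A V B {S | S ∈ cells g V \ cells g B ∧ cdim S = j}.ncard := fun j => by
    refine T.pt.2 E _ f g Prod.snd C A V B (Pl (cells g V)) (Pl (cells g B)) (Pl (cells g V))
      (Pl (cells g B)) j _ hAC ?_ ?_ ?_ (hmap C V δ₁ le_rfl (min_le_left _ _) h1)
      (hmap A B δ₂ hAC (min_le_right _ _) h2) (hback V) (hback B) continuous_snd.continuousOn
      (fun _ _ => rfl) (fun x hx => (hgf x hx).symm) (fun x hx => hCV hx.2) (fun x hx => hAB hx.2)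
      (h _ _ _ _ (cells_dn g V) (cells_dn g B) hsub j)
    · rintro x ⟨x0, x1, S, hS, hx⟩
      exact ⟨x0, x1, S, hsub hS, hx⟩
    · refine Continuous.continuousOn (continuous_pi fun j => continuous_pi fun v => ?_)
      exact hat_cont.comp (by fun_prop)
    · refine Continuous.continuousOn (e.symm.continuous.comp ?_)
      fun_prop
  refine ⟨(univ : Set (Fin d → Finset (Fin (M + 1)))).ncard,
    fun j => rk_mono (key j) (ncard_le_ncard (subset_univ _)), fun j hj => ?_⟩
  have h3 : {S | S ∈ cells g V \ cells g B ∧ cdim S = j} = ∅ :=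
    eq_empty_of_forall_notMem fun S hS => by
      have := cdim_le hS.1.1
      have := hS.2
      omega
  have h4 := key j
  rwa [h3, ncard_empty] at h4

theorem dimS (K : Type) [Field K] (h : CubeStmt K) : DimStmt K := by
  rintro E _ _ _ O W x j hW ⟨O', hO', hO⟩ hj V' hV'
  obtain ⟨n, rfl⟩ : ∃ n, j = n + 1 := ⟨j - 1, by omega⟩
  set V := interior (V' ∩ W)
  have hV : V ⊆ V' ∩ W := interior_subset
  have e : V ∩ O = V ∩ O' := by
    ext y
    exact ⟨fun hy => ⟨hy.1, (hO.subset ⟨(hV hy.1).2, hy.2⟩).2⟩,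
      fun hy => ⟨hy.1, (hO.symm.subset ⟨(hV hy.1).2, hy.2⟩).2⟩⟩
  refine ⟨V, interior_mem_nhds.2 (Filter.inter_mem hV' hW), rk_zero.2 fun z hz => ?_⟩
  obtain ⟨C, h1, h2, h3⟩ := exists_compact hz.1
  obtain ⟨A, h4, h5, h6⟩ := exists_compact (z := bd K n z) hz.2
  obtain ⟨r, -, h7⟩ := h E (C ∪ A) A V (V ∩ O) (h2.union h5) h5 subset_union_right isOpen_interior
    (e ▸ isOpen_interior.inter hO') (union_subset h1 (h4.trans inter_subset_left)) h4
    inter_subset_left
  have h8 := rk_zero.1 (h7 (n + 1) hj) (⟨in_mono _ subset_union_left h3, h6⟩ : z ∈ Zr K (n + 1) _ _)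
  have h9 : Br K (n + 1) V (V ∩ O) ≤ Br K (n + 1) V' (V' ∩ O) :=
    sup_le_sup (in_mono _ (inter_subset_inter_left _ (hV.trans inter_subset_left)))
      (Submodule.map_mono (in_mono _ (hV.trans inter_subset_left)))
  exact h9 h8

end Pool.Agent.MP_af6f1c_gt.Geo
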