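import Pool.Agent.MP_af6f1c_gt.geo.Spec
import Pool.Agent.MP_af6f1c_gt.geo.Base
import Mathlib.Analysis.SpecialFunctions.Complex.Arg
import Mathlib.AlgebraicTopology.SimplicialSet.TopAdj
import Mathlib.Algebra.Homology.ShortComplex.ModuleCat
import Mathlib.Algebra.Homology.ShortComplex.HomologicalComplex

-- ======== part 0: formerly Pool.Agent.MP_af6f1c_gt.geo.FinA
section MrgPart0

/-! PROJECT GEO: assembly of the logarithmic lower bound and of the divergence of the sum of the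
inverse lengths. -/

open Set Topology Metric Module Bundle
open scoped ContDiff ENNReal Manifold

noncomputable section

namespace Pool.Agent.MP_af6f1c_gt.Geo

namespace FinAP

lemma GI_mono {M : Type} [EMetricSpace M] {L L' : ℝ} (h : L ≤ L') : GI M L ⊆ GI M L' := by
  rintro A ⟨γ, c, h1, h2, h3, h4, h5⟩
  exact ⟨γ, c, h1, h2, h3, h4.trans h, h5⟩

lemma GI_pos {M : Type} [EMetricSpace M] {L : ℝ} {A : Set M} (h : A ∈ GI M L) : 0 < L := by
  obtain ⟨γ, c, -, -, h3, h4, -⟩ := h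
  exact h3.trans_le h4

lemma edist_ne_top_of_connected (M : Type) [EMetricSpace M] [ConnectedSpace M] (x y : M) :
    edist x y ≠ ⊤ := by
  have h1 : IsClopen (Metric.eball x ⊤) := ⟨Metric.isClosed_eball_top, Metric.isOpen_eball⟩
  have h2 := h1.eq_univ ⟨x, by simp⟩
  have h3 : y ∈ Metric.eball x ⊤ := h2 ▸ mem_univ y
  rw [edist_comm]
  exact (Metric.mem_eball.1 h3).ne

/-- unit quaternions and the round sphere -/
lemma exists_iso : Nonempty (Sph ≃ᵢ S3) := by
  let e := Quaternion.linearIsometryEquivTuple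
  refine ⟨⟨⟨fun x => ⟨e.symm x.1, by simp⟩, fun y => ⟨e y.1, by simp⟩,
    fun x => by simp, fun y => by simp⟩, ?_⟩⟩
  exact Isometry.of_dist_eq fun x y => e.symm.dist_map _ _

variable {K : Type} [Field K]

lemma lo_unit_zero (T : Tools K) : RH K 0 (univ : Set (Lo PUnit)) 1 ∧
    ∀ n, RH K (n + 1) (univ : Set (Lo PUnit)) 0 := by
  have e : (univ : Set (Lo PUnit)) = {ContinuousMap.const _ PUnit.unit} := by
    ext l
    simp only [mem_univ, mem_singleton_iff, true_iff]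
    ext t
  rw [e]
  exact T.pt.1 _ _

/-- the total sum of the coefficients of a zero chain -/
def aug (K : Type) [Field K] (X : Type) [TopologicalSpace X] : Ch K 0 X →ₗ[K] K :=
  Finsupp.linearCombination K fun _ => 1

lemma not_RH_zero {X : Type} [TopologicalSpace X] (x : X) : ¬ RH K 0 (univ : Set X) 0 := by
  intro h
  have h1 := rk_zero.1 h (mem_In_univ (Finsupp.single (ContinuousMap.const _ x) (1 : K)))
  obtain ⟨w, -, hw⟩ := mem_Br_empty.1 h1
  have h2 : aug K X (bd K 0 w) = 0 := by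
    refine lin_ext (L := aug K X ∘ₗ bd K 0) (L' := 0) (fun σ => ?_) w
    simp [bd_single, aug, Fin.sum_univ_two]
  rw [hw] at h2
  simp [aug] at h2

/-- the loop space of the three-sphere has homology in every even degree -/
lemma s3_ne (hL : LowStmt K) (k : ℕ) : ¬ RH K (2 * k) (univ : Set (Lo S3)) 0 := by
  intro h
  have := hL S3 PUnit (Homeomorph.prodPUnit S3).symm (2 * k) 0 {k} (by
    intro j hj
    rw [Finset.mem_singleton.1 hj, Nat.sub_self]
    exact ⟨le_rfl, not_RH_zero (ContinuousMap.const _ PUnit.unit)⟩) h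
  simp at this

lemma wd_of_homeo (hK : LinkStmt K) (hL : LowStmt K) (M : Type) [MetricSpace M]
    (h : M ≃ₜ Sph × Sph) : Wd K M := by
  obtain ⟨e⟩ := exists_iso
  have h' : M ≃ₜ S3 × S3 := h.trans (e.toHomeomorph.prodCongr e.toHomeomorph)
  refine ⟨1, fun B => ⟨2 * B, fun x hx => ⟨2 * ((x + 1) / 2), by omega, by omega, ?_⟩⟩⟩
  by_contra hlt
  rw [not_le] at hlt
  obtain ⟨r, hr⟩ := Cardinal.lt_aleph0.1 (hlt.trans Cardinal.natCast_lt_aleph0)
  have h1 := hL M S3 h' (2 * ((x + 1) / 2)) r (Finset.range ((x + 1) / 2 + 1)) (by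
    intro j hj
    rw [Finset.mem_range] at hj
    refine ⟨by omega, ?_⟩
    have : 2 * ((x + 1) / 2) - 2 * j = 2 * ((x + 1) / 2 - j) := by omega
    rw [this]
    exact s3_ne hL _) ((hK M _ r).2 hr.le)
  rw [hr, Nat.cast_lt] at hlt
  rw [Finset.card_range] at h1
  omega

/-- counting images against pairs of an image and an orientation -/
lemma ncard_le_two_mul {M P : Type} [EMetricSpace M] {A : P → Set M} {o : P → Bool} {c : P → ℝ}
    (hi : Function.Injective fun p => (A p, o p)) (hA : ∀ p L, A p ∈ GI M L ↔ c p ≤ L)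
    (L : ℝ) (hf : (GI M L).Finite) :
    {p | c p ≤ L}.Finite ∧ {p | c p ≤ L}.ncard ≤ 2 * (GI M L).ncard := by
  have hs : (fun p => (A p, o p)) '' {p | c p ≤ L} ⊆ GI M L ×ˢ (univ : Set Bool) := by
    rintro _ ⟨p, hp, rfl⟩
    exact ⟨(hA p L).2 hp, trivial⟩
  have hfin : (GI M L ×ˢ (univ : Set Bool)).Finite := hf.prod finite_univ
  refine ⟨(hfin.subset hs).of_finite_image hi.injOn, ?_⟩
  rw [← ncard_image_of_injective _ hi]
  refine (ncard_le_ncard hs hfin).trans ?_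
  rw [ncard_prod, ncard_univ, mul_comm]
  simp

lemma core (hN : NearStmt K) (hT : TopStmt K) (hG : GromStmt K) (hC : CountStmt K)
    (hK : LinkStmt K) (hA : ArithAStmt) (n : ℕ) (M : Type) [MetricSpace M] [CompactSpace M]
    [SimplyConnectedSpace M] (G : GS M n) (hW : Wd K M) :
    (∃ κ > (0 : ℝ), ∃ L₀ : ℝ, ∀ L, L₀ ≤ L →
      ENNReal.ofReal (κ * Real.log L) ≤ (((GI M L).encard : ℕ∞) : ℝ≥0∞)) ∧
    ∑' A : {A : Set M // ∃ L, A ∈ GI M L}, (ENNReal.ofReal (sInf {L | A.1 ∈ GI M L}))⁻¹ = ⊤ := by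
  by_cases hfin : ∀ L, (GI M L).Finite
  swap
  · push Not at hfin
    obtain ⟨L₁, hL₁⟩ := hfin
    have hinf : (GI M L₁).Infinite := hL₁
    refine ⟨⟨1, one_pos, L₁, fun L hL => ?_⟩, ?_⟩
    · rw [(hinf.mono (GI_mono hL)).encard_eq]
      simp
    · have := hinf.to_subtype
      let j : GI M L₁ → {A : Set M // ∃ L, A ∈ GI M L} := fun A => ⟨A.1, L₁, A.2⟩
      have hj : Function.Injective j := fun a b h =>
        Subtype.ext (congrArg (fun x : {A : Set M // ∃ L, A ∈ GI M L} => x.1) h)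
      refine top_le_iff.1 (le_trans ?_ (ENNReal.tsum_comp_le_tsum_of_injective hj _))
      rw [← ENNReal.tsum_const_eq_top_of_ne_zero (α := GI M L₁)
        (c := (ENNReal.ofReal L₁)⁻¹) (by simp)]
      refine ENNReal.tsum_le_tsum fun A => ENNReal.inv_le_inv.2 (ENNReal.ofReal_le_ofReal ?_)
      exact csInf_le ⟨0, fun L hL => (GI_pos hL).le⟩ A.2
  obtain ⟨P, A, o, c, α, B, hi, hc, hAc, hm⟩ := hC n M G hfin
  obtain ⟨C, hC0, hCg⟩ := hG n M G
  obtain ⟨q, hq⟩ := hT n M G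
  have hρ := G.g0.pos
  have hP := fun L => ncard_le_two_mul hi hAc L (hfin L)
  have bound : ∀ i, q + 1 ≤ i → ∀ T : Finset (P × ℕ),
      (∀ p (m : ℕ), 1 ≤ m → m * c p ≤ C * (i + 1) → |(i : ℝ) - m * α p| ≤ 3 * n + 1 →
        (p, m) ∈ T) → Module.rank K (LH K M i) ≤ (∑ q ∈ T, B q.1 : ℕ) := by
    intro i hi' T hT'
    have ha : 0 < min (G.ρ / 2) C := lt_min (by positivity) hC0
    have hab : min (G.ρ / 2) C ≤ C * (i + 1) :=
      (min_le_right _ _).trans (le_mul_of_one_le_right hC0.le (by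
        have : (0 : ℝ) ≤ i := Nat.cast_nonneg i
        linarith))
    have h1 := hm i _ _ T ha hab fun p m h1 _ h3 h4 => hT' p m h1 h3 h4
    have h2 := (hN n M G).2 i 0 (min (G.ρ / 2) C)
      ((min_le_left _ _).trans_lt (by linarith)) (hq i hi')
    exact (hK M i _).1 ((h1.trans h2).mono (hCg i) le_rfl le_rfl)
  have small : ∀ i, q + 1 ≤ i → Module.rank K (LH K M i) < Cardinal.aleph0 := by
    intro i hi'
    have hf : {x : P × ℕ | 1 ≤ x.2 ∧ x.2 * c x.1 ≤ C * (i + 1)}.Finite := by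
      have h1 : (⋃ p ∈ {p | c p ≤ C * (i + 1)},
          ({p} : Set P) ×ˢ Iic ⌊C * (i + 1) / c p⌋₊).Finite :=
        (hP _).1.biUnion fun p _ => (finite_singleton p).prod (finite_Iic _)
      refine h1.subset fun x hx => mem_iUnion₂.2 ⟨x.1, ?_, rfl, ?_⟩
      · have : (1 : ℝ) ≤ x.2 := by exact_mod_cast hx.1
        exact (le_mul_of_one_le_left (hc _).le this).trans hx.2
      · exact Nat.le_floor ((le_div_iff₀ (hc _)).2 hx.2)
    exact (bound i hi' hf.toFinset fun p m h1 h2 _ => hf.mem_toFinset.2 ⟨h1, h2⟩).trans_lt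
      Cardinal.natCast_lt_aleph0
  obtain ⟨D, hD⟩ := hW
  obtain ⟨⟨κ, hκ, L₀, hL⟩, hS⟩ := hA P c α B (fun i => finrank K (LH K M i)) (3 * n + 1) C D
    (q + 1) (by positivity) hC0 hc (fun L => (hP L).1)
    (fun i hi' T hT' => finrank_le_of_rank_le (bound i hi' T hT')) (by
      intro B'
      obtain ⟨x₀, hx₀⟩ := hD B'
      refine ⟨max x₀ (q + 1), fun x hx => ?_⟩
      obtain ⟨i, h1, h2, h3⟩ := hx₀ x ((le_max_left _ _).trans hx)
      refine ⟨i, h1, h2, ?_⟩
      have := Cardinal.toNat_le_toNat h3 (small i (((le_max_right _ _).trans hx).trans h1))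
      rwa [Cardinal.toNat_natCast] at this)
  refine ⟨⟨κ / 2, by positivity, L₀, fun L hL' => ?_⟩, ?_⟩
  · rw [← (hfin L).cast_ncard_eq, ENat.toENNReal_coe, ← ENNReal.ofReal_natCast]
    refine ENNReal.ofReal_le_ofReal ?_
    have h1 := hL L hL'
    have h2 : (({p | c p ≤ L}.ncard : ℕ) : ℝ) ≤ 2 * (GI M L).ncard := by exact_mod_cast (hP L).2
    linarith
  · by_contra hne
    apply hS
    let j : P → {A : Set M // ∃ L, A ∈ GI M L} × Bool := fun p =>
      (⟨A p, c p, (hAc p _).2 le_rfl⟩, o p)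
    have hj : Function.Injective j := fun a b h => hi (Prod.ext
      (congrArg (fun x => x.1.1) h) (congrArg (fun x => x.2) h))
    have h1 := ENNReal.tsum_comp_le_tsum_of_injective hj
      fun x => (ENNReal.ofReal (sInf {L | x.1.1 ∈ GI M L}))⁻¹
    have h2 : ∑' x : {A : Set M // ∃ L, A ∈ GI M L} × Bool,
        (ENNReal.ofReal (sInf {L | x.1.1 ∈ GI M L}))⁻¹ ≠ ⊤ := by
      rw [ENNReal.tsum_prod', ENNReal.tsum_comm, tsum_fintype]
      exact ENNReal.sum_ne_top.2 fun _ _ => hne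
    have h3 : ∀ p, (ENNReal.ofReal (sInf {L | (j p).1.1 ∈ GI M L}))⁻¹ =
        ENNReal.ofReal (c p)⁻¹ := by
      intro p
      have : {L | (j p).1.1 ∈ GI M L} = Ici (c p) := Set.ext fun L => hAc p L
      rw [this, csInf_Ici, ENNReal.ofReal_inv_of_pos (hc p)]
    simp only [h3] at h1
    have h4 := ENNReal.summable_toReal (ne_top_of_le_ne_top h2 h1)
    refine h4.congr fun p => ?_
    exact ENNReal.toReal_ofReal (inv_nonneg.2 (hc p).le)

end FinAP

theorem mainA (hR : RiemStmt) (hS : SegStmt) (hA : ArithAStmt)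
    (h : ∀ (K : Type) [Field K], NearStmt K ∧ TopStmt K ∧ GromStmt K ∧ CountStmt K ∧ LinkStmt K ∧
      LowStmt K) : MainAStmt := by
  intro n M _ _ _ _ _ _ _ _ _ K _ hW
  obtain ⟨h1, h2, h3, h4, h5, h6⟩ := h K
  let _ : MetricSpace M := EMetricSpace.toMetricSpace (FinAP.edist_ne_top_of_connected M)
  obtain ⟨ρ, ch, g0⟩ := hR n M
  obtain ⟨G⟩ := hS n M ρ ch g0
  refine FinAP.core h1 h2 h3 h4 h5 hA n M G ?_
  rcases hW with hW | ⟨⟨e⟩⟩
  · exact hW
  · exact FinAP.wd_of_homeo h5 h6 M e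

end Pool.Agent.MP_af6f1c_gt.Geo

end
end MrgPart0

-- ======== part 1: formerly Pool.Agent.MP_af6f1c_gt.geo.Finl
section MrgPart1

/-! PROJECT GEO, row FINL: finite local homology of an isolated closed geodesic. -/

open Set Topology

noncomputable section

namespace Pool.Agent.MP_af6f1c_gt.Geo

namespace FinlP

variable {M : Type} [MetricSpace M]

/-- the orbit of a closed geodesic is closed -/
lemma orb_closed (N : ℕ) {γ : ℝ → M} {c : ℝ} (h : CG γ c) : IsClosed (orb N γ) := by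
  have hp : Function.Periodic (fun s : ℝ => smp N fun t => γ (t + s)) 1 := by
    intro s
    funext j
    simp only [smp]
    rw [← add_assoc, h.2.1]
  have hc : Continuous fun s : ℝ => smp N fun t => γ (t + s) := by
    refine continuous_pi fun j => ?_
    have := h.1
    simp only [smp]
    fun_prop
  exact (hp.compact_of_continuous one_ne_zero hc).isClosed

/-- the local phase recovers the shift modulo the period -/
lemma phase (T s : ℝ) (hT : 0 < T) : ∃ m : ℤ,
    T / (2 * Real.pi) * Complex.arg (Complex.exp (2 * Real.pi * s / T * Complex.I)) =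
      s - m * T := by
  have e : (2 * Real.pi * s / T : ℂ) = ((2 * Real.pi * s / T : ℝ) : ℂ) := by push_cast; rfl
  refine ⟨toIocDiv Real.two_pi_pos (-Real.pi) (2 * Real.pi * s / T), ?_⟩
  rw [e, Complex.arg_exp_mul_I, ← self_sub_toIocDiv_zsmul, zsmul_eq_mul]
  have := Real.pi_pos
  field_simp

/-- for a small shift the local phase is the shift -/
lemma phase_small (T s : ℝ) (hT : 0 < T) (h0 : 0 < s) (h1 : s < T / 2) :
    Complex.exp (2 * Real.pi * s / T * Complex.I) ∈ Complex.slitPlane ∧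
    T / (2 * Real.pi) * Complex.arg (Complex.exp (2 * Real.pi * s / T * Complex.I)) = s := by
  have e : (2 * Real.pi * s / T : ℂ) = ((2 * Real.pi * s / T : ℝ) : ℂ) := by push_cast; rfl
  have hp := Real.pi_pos
  have h2 : 2 * Real.pi * s / T < Real.pi := by
    rw [div_lt_iff₀ hT]
    nlinarith
  have h3 : 0 < 2 * Real.pi * s / T := by positivity
  have ha : Complex.arg (Complex.exp (2 * Real.pi * s / T * Complex.I)) =
      2 * Real.pi * s / T := by
    rw [e, Complex.arg_exp_mul_I, toIocMod_eq_self]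
    constructor <;> linarith
  refine ⟨Complex.mem_slitPlane_iff_arg.2 ⟨by rw [ha]; exact h2.ne, Complex.exp_ne_zero _⟩, ?_⟩
  rw [ha]
  field_simp

variable {n : ℕ} {G : GS M n} {N : ℕ} [NeZero N]

/-- near the samples of an isolated closed geodesic every closed geodesic is a shift of it -/
lemma isolated (B : BGStmt G N) (hF : FinOrb M) {γ : ℝ → M} {c : ℝ} (h : CG γ c)
    (hc : c / N < G.ρ) : ∀ᶠ x in 𝓝 (smp N γ), ∀ c', x ∈ G.Gd N → CG (G.bg x) c' → c' ≤ c + 1 →
      c' / N < G.ρ → ∃ σ : ℝ, x = smp N fun t => γ (t + σ) := by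
  obtain ⟨T, hT, hcov⟩ := hF (c + 1)
  have key : ∀ γ' ∈ T, ∀ᶠ x in 𝓝 (smp N γ), ∀ c', CG γ' c' → x ∈ orb N γ' →
      smp N γ ∈ orb N γ' := by
    intro γ' _
    by_cases h1 : smp N γ ∈ orb N γ'
    · exact Filter.Eventually.of_forall fun _ _ _ _ => h1
    by_cases h2 : ∃ c', CG γ' c'
    · obtain ⟨c', h2⟩ := h2
      filter_upwards [(orb_closed N h2).isOpen_compl.mem_nhds h1] with x hx _ _ hx'
      exact absurd hx' hx
    · exact Filter.Eventually.of_forall fun _ c' h3 _ => absurd ⟨c', h3⟩ h2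
  filter_upwards [(Filter.eventually_all_finite hT).2 key] with x hx c' hG hcg hle hlt
  obtain ⟨γ', hγ', σ, hσ⟩ := hcov _ _ hcg hle
  have e1 : γ' = fun t => G.bg x (t + -σ) := by
    funext t
    rw [hσ]
    congr 1
    ring
  have hcg' : CG γ' c' := e1 ▸ hcg.shift (-σ)
  have e2 : x = smp N fun t => γ' (t + σ) := by
    rw [← B.smp_bg x hG]
    congr 1
    exact funext hσ
  obtain ⟨σ₀, h0⟩ := hx γ' hγ' c' hcg' ⟨σ, e2.symm⟩
  have e3 : (fun t => γ' (t + σ₀)) = γ := by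
    rw [← (B.geo _ _ (hcg'.shift σ₀) hlt).2.1, ← (B.geo _ _ h hc).2.1]
    exact congrArg G.bg h0
  refine ⟨σ - σ₀, e2.trans ?_⟩
  congr 1
  funext t
  rw [← e3]
  congr 1
  ring

/-- rotation acts on the orbit by shifts -/
lemma rot_orb (B : BGStmt G N) {γ : ℝ → M} {c : ℝ} (h : CG γ c) (hc : c / N < G.ρ) (σ s : ℝ) :
    G.rot s (smp N fun t => γ (t + σ)) = smp N fun t => γ (t + (s + σ)) := by
  rw [(B.geo _ _ (h.shift σ) hc).2.2.2]
  simp only [add_assoc]

end FinlP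

open FinlP in
theorem finl (K : Type) [Field K] (hB : Basics) (hP : PhaseStmt) (hI : IsoStmt K) :
    FinlStmt K := by
  intro n M _ _ G N _ γ c hF h hc
  have B := hB.2 n M G N
  obtain ⟨T, Θ, hT, hΘ, hper, hph⟩ := hP n M G N γ c h hc
  obtain ⟨hG, -, hE, hrot⟩ := B.geo γ c h hc
  have hN : (0 : ℝ) < N := Nat.cast_pos.2 (Nat.pos_of_ne_zero (NeZero.ne N))
  have hc0 : 0 < c := h.2.2.1
  obtain ⟨s, hs0, hs1, hs2⟩ : ∃ s : ℝ, 0 < s ∧ s < 1 / (N : ℝ) ∧ s < T / 2 := by
    have h1 : (0 : ℝ) < min (1 / (N : ℝ)) (T / 2) := lt_min (by positivity) (by positivity)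
    exact ⟨min (1 / (N : ℝ)) (T / 2) / 2, by positivity,
      (half_lt_self h1).trans_le (min_le_left _ _), (half_lt_self h1).trans_le (min_le_right _ _)⟩
  obtain ⟨hsl, hsa⟩ := phase_small T s hT hs0 hs2
  have hrc : ∀ a : ℝ, ContinuousOn (G.rot a) (G.Gd N) := fun a =>
    B.rot_cont.comp (f := fun x => (a, x)) (by fun_prop) fun x hx => ⟨trivial, hx⟩
  let τ : (ZMod N → M) → ℝ := fun x => T / (2 * Real.pi) * Complex.arg (Θ (G.rot s x))
  let W : Set (ZMod N → M) := {x | x ∈ G.Gd N ∧ Θ (G.rot s x) ∈ Complex.slitPlane ∧ 0 < En x ∧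
    En x < (c + 1) ^ 2 / N ∧ ∀ c', x ∈ G.Gd N → CG (G.bg x) c' → c' ≤ c + 1 →
      c' / N < G.ρ → ∃ σ : ℝ, x = smp N fun t => γ (t + σ)}
  have hGn : G.Gd N ∈ 𝓝 (smp N γ) := B.isOpen.mem_nhds hG
  have hW : W ∈ 𝓝 (smp N γ) := by
    have h1 : ContinuousAt (fun x => Θ (G.rot s x)) (smp N γ) :=
      hΘ.continuousAt.comp ((hrc s).continuousAt hGn)
    have h2 : Complex.slitPlane ∈ 𝓝 (Θ (G.rot s (smp N γ))) := by
      refine Complex.isOpen_slitPlane.mem_nhds ?_
      rw [hrot, hph]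
      exact hsl
    have h3 : ∀ᶠ x in 𝓝 (smp N γ), 0 < En x :=
      continuousAt_const.eventually_lt B.en_cont.continuousAt (by rw [hE]; positivity)
    have h4 : ∀ᶠ x in 𝓝 (smp N γ), En x < (c + 1) ^ 2 / N :=
      B.en_cont.continuousAt.eventually_lt continuousAt_const
        (by rw [hE]; exact div_lt_div_of_pos_right (by nlinarith) hN)
    filter_upwards [hGn, h1 h2, h3, h4, isolated B hF h hc] with x a1 a2 a3 a4 a5
    exact ⟨a1, a2, a3, a4, a5⟩
  have hτ : ContinuousOn τ W := by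
    refine continuousOn_const.mul (Complex.continuousOn_arg.comp ?_ fun x hx => hx.2.1)
    exact hΘ.comp_continuousOn ((hrc s).mono fun x hx => hx.1)
  have hτ0 : τ (smp N γ) = s := by
    simp only [τ]
    rw [hrot, hph]
    exact hsa
  have e0 : (smp N fun t => γ (t + 0)) = smp N γ := by simp only [add_zero]
  have key := hI (ZMod N → M) (ZMod N → Eu n)
    (OpenPartialHomeomorph.pi fun j => G.ch (smp N γ j)) En
    (fun q => G.rot (-(q.1 * τ q.2)) (G.rot (q.1 * s) q.2)) (smp N γ) W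
    (fun j _ => G.g0.mem _) B.en_cont hW ?_ ?_ ?_ ?_ ?_
  · rw [hE] at key
    exact key
  · have h1 : ContinuousOn (fun q : ℝ × (ZMod N → M) => G.rot (q.1 * s) q.2) (Icc 0 1 ×ˢ W) :=
      B.rot_cont.comp (f := fun q : ℝ × (ZMod N → M) => (q.1 * s, q.2)) (by fun_prop)
        fun q hq => ⟨trivial, hq.2.1⟩
    have h2 : ContinuousOn (fun q : ℝ × (ZMod N → M) => -(q.1 * τ q.2)) (Icc 0 1 ×ˢ W) :=
      (continuousOn_fst.mul (hτ.comp continuousOn_snd fun q hq => hq.2)).neg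
    exact B.rot_cont.comp (h2.prodMk h1) fun q hq => ⟨trivial, B.rot_mem _ _ hq.2.1⟩
  · intro x hx
    simp only [zero_mul, neg_zero, B.rot_zero x hx.1]
  · intro u _
    simp only [hτ0]
    rw [hrot, rot_orb B h hc, neg_add_cancel, e0]
  · intro u _ x hx
    exact (B.rot_le _ _ (B.rot_mem _ _ hx.1)).trans (B.rot_le _ _ hx.1)
  · intro x hx hEq
    simp only [one_mul] at hEq ⊢
    have h1 : En (G.rot s x) = En x :=
      le_antisymm (B.rot_le _ _ hx.1) (hEq.ge.trans (B.rot_le _ _ (B.rot_mem _ _ hx.1)))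
    rcases B.birk s hs0 hs1 x hx.1 h1 with h2 | ⟨c', hcg, h2, h3⟩
    · exact absurd h2 hx.2.2.1.ne'
    have h4 : c' ≤ c + 1 := by
      have h5 := hx.2.2.2.1
      rw [h2, div_lt_div_iff_of_pos_right hN] at h5
      exact (lt_of_pow_lt_pow_left₀ 2 (by positivity) h5).le
    obtain ⟨σ, rfl⟩ := hx.2.2.2.2 c' hx.1 hcg h4 h3
    refine ⟨by rw [(B.geo _ _ (h.shift σ) hc).2.2.1, hE], ?_⟩
    obtain ⟨m, hm⟩ := phase T (s + σ) hT
    have h6 : τ (smp N fun t => γ (t + σ)) = s + σ - m * T := by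
      simp only [τ]
      rw [rot_orb B h hc, hph]
      exact hm
    rw [h6, rot_orb B h hc, rot_orb B h hc]
    congr 1
    funext t
    rw [← hper.int_mul m t]
    congr 1
    ring

end Pool.Agent.MP_af6f1c_gt.Geo

end
end MrgPart1

-- ======== part 2: formerly Pool.Agent.MP_af6f1c_gt.geo.Iso
section MrgPart2

/-! PROJECT GEO, row ISO: finite local homology at a point that is isolated for a descending
deformation. -/

open Set Topology

noncomputable section

namespace Pool.Agent.MP_af6f1c_gt.Geo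

namespace IsoP

variable {K : Type} [Field K] {X : Type} [MetricSpace X]

/-- a descending deformation near `x₀` -/
structure Ds (F : X → ℝ) (k : ℝ × X → X) (x₀ : X) (W : Set X) : Prop where
  cF : Continuous F
  hW : W ∈ 𝓝 x₀
  ck : ContinuousOn k (Icc 0 1 ×ˢ W)
  k0 : ∀ x ∈ W, k (0, x) = x
  fix : ∀ u ∈ Icc (0 : ℝ) 1, k (u, x₀) = x₀
  dec : ∀ u ∈ Icc (0 : ℝ) 1, ∀ x ∈ W, F (k (u, x)) ≤ F x
  strict : ∀ x ∈ W, F (k (1, x)) = F x → F x = F x₀ ∧ k (1, x) = x₀

/-- small relative cycles that bound in `S` also bound in `S'` -/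
def Inj (K : Type) [Field K] (j : ℕ) (O : Set X) (x₀ : X) (S S' : Set X) : Prop :=
  ∃ V ∈ 𝓝 x₀, ∀ z ∈ Zr K j V (V ∩ O), z ∈ Br K j S (S ∩ O) → z ∈ Br K j S' (S' ∩ O)

lemma Inj.refl (j : ℕ) (O : Set X) (x₀ : X) (S : Set X) : Inj K j O x₀ S S :=
  ⟨univ, Filter.univ_mem, fun _ _ h => h⟩

lemma Inj.trans {j : ℕ} {O : Set X} {x₀ : X} {S S' S'' : Set X} (h : Inj K j O x₀ S S')
    (h' : Inj K j O x₀ S' S'') : Inj K j O x₀ S S'' := by
  obtain ⟨V, hV, h⟩ := h
  obtain ⟨V', hV', h'⟩ := h'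
  refine ⟨V ∩ V', Filter.inter_mem hV hV', fun z hz hb => h' z ?_ (h z ?_ hb)⟩
  · exact Zr_mono inter_subset_right (inter_subset_inter_left _ inter_subset_right) hz
  · exact Zr_mono inter_subset_left (inter_subset_inter_left _ inter_subset_left) hz

lemma Inj.mono {j : ℕ} {O : Set X} {x₀ : X} {S S' S'' : Set X} (h : Inj K j O x₀ S S')
    (h' : S' ⊆ S'') : Inj K j O x₀ S S'' := by
  obtain ⟨V, hV, h⟩ := h
  exact ⟨V, hV, fun z hz hb => Br_mono h' (inter_subset_inter_left _ h') (h z hz hb)⟩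

lemma one_mem : (1 : ℝ) ∈ Icc (0 : ℝ) 1 := ⟨zero_le_one, le_rfl⟩

lemma zero_mem : (0 : ℝ) ∈ Icc (0 : ℝ) 1 := ⟨le_rfl, zero_le_one⟩

/-- compact neighbourhoods from a chart -/
lemma cpt_nhds {D : Type} [NormedAddCommGroup D] [NormedSpace ℝ D] [FiniteDimensional ℝ D]
    (φ : OpenPartialHomeomorph X D) {x₀ : X} (hx : x₀ ∈ φ.source) {N : Set X} (hN : N ∈ 𝓝 x₀) :
    ∃ C ∈ 𝓝 x₀, C ⊆ N ∧ IsCompact C := by
  have : ProperSpace D := FiniteDimensional.proper_real D
  have h1 : φ '' (N ∩ φ.source) ∈ 𝓝 (φ x₀) :=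
    φ.image_mem_nhds hx (Filter.inter_mem hN (φ.open_source.mem_nhds hx))
  obtain ⟨C', hC', hsub, hc⟩ := local_compact_nhds h1
  have ht : C' ⊆ φ.target := by
    intro y hy
    obtain ⟨x, hx', rfl⟩ := hsub hy
    exact φ.map_source hx'.2
  refine ⟨φ.symm '' C', ?_, ?_, hc.image_of_continuousOn (φ.continuousOn_symm.mono ht)⟩
  · have := φ.symm.image_mem_nhds (x := φ x₀) (φ.map_source hx) hC'
    rwa [φ.left_inv hx] at this
  · rintro _ ⟨y, hy, rfl⟩
    obtain ⟨x, hx', rfl⟩ := hsub hy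
    rw [φ.left_inv hx'.2]
    exact hx'.1

namespace Ds

variable {F : X → ℝ} {k : ℝ × X → X} {x₀ : X} {W : Set X} (H : Ds F k x₀ W)
include H

lemma cB : ContinuousOn (fun x => k (1, x)) W :=
  H.ck.comp (continuous_const.prodMk continuous_id).continuousOn fun _ hx => ⟨one_mem, hx⟩

/-- near the critical level the time one map drops the level or lands close to `x₀` -/
lemma star {V₂ V₁ : Set X} (hc : IsCompact V₂) (hs : V₂ ⊆ W) (ho : IsOpen V₁) (hx : x₀ ∈ V₁) :
    ∃ δ > (0 : ℝ), ∀ x ∈ V₂, F x ≤ F x₀ + δ → F (k (1, x)) < F x₀ - δ ∨ k (1, x) ∈ V₁ := by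
  have hB := H.cB.mono hs
  have hK : IsCompact (V₂ ∩ (fun x => k (1, x)) ⁻¹' V₁ᶜ) :=
    hc.of_isClosed_subset (hB.preimage_isClosed_of_isClosed hc.isClosed ho.isClosed_compl)
      inter_subset_left
  have hg : ContinuousOn (fun x => max (F x - F x₀) (F x₀ - F (k (1, x))))
      (V₂ ∩ (fun x => k (1, x)) ⁻¹' V₁ᶜ) :=
    (continuous_max.comp_continuousOn ((H.cF.continuousOn.sub continuousOn_const).prodMk
      (continuousOn_const.sub (H.cF.comp_continuousOn hB)))).mono inter_subset_left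
  obtain ⟨m, hm, h⟩ := hK.exists_forall_le' (a := 0) hg (by
    rintro x ⟨hx1, hx2⟩
    by_contra hle
    rw [not_lt, max_le_iff] at hle
    have h1 := H.dec 1 one_mem x (hs hx1)
    have h2 := H.strict x (hs hx1) (by linarith [hle.1, hle.2])
    exact hx2 (show k (1, x) ∈ V₁ by rw [h2.2]; exact hx))
  refine ⟨m / 2, by linarith, fun x hx1 hF => ?_⟩
  by_cases hx2 : k (1, x) ∈ V₁
  · exact Or.inr hx2
  · have := h x ⟨hx1, hx2⟩
    rcases le_max_iff.1 this with h1 | h1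
    · exfalso; linarith
    · left; linarith

/-- away from the critical level the time one map drops the level by a definite amount -/
lemma drop {V₂ : Set X} (hc : IsCompact V₂) (hs : V₂ ⊆ W) {τ : ℝ} (hτ : 0 < τ) :
    ∃ η > (0 : ℝ), ∀ x ∈ V₂, τ ≤ |F x - F x₀| → F (k (1, x)) ≤ F x - η := by
  have hB := H.cB.mono hs
  have hK : IsCompact (V₂ ∩ {x | τ ≤ |F x - F x₀|}) :=
    hc.inter_right (isClosed_le continuous_const (H.cF.sub continuous_const).abs)
  have hg : ContinuousOn (fun x => F x - F (k (1, x))) (V₂ ∩ {x | τ ≤ |F x - F x₀|}) :=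
    (H.cF.continuousOn.sub (H.cF.comp_continuousOn hB)).mono inter_subset_left
  obtain ⟨m, hm, h⟩ := hK.exists_forall_le' (a := 0) hg (by
    rintro x ⟨hx1, hx2⟩
    have h1 := H.dec 1 one_mem x (hs hx1)
    rcases h1.lt_or_eq with h2 | h2
    · linarith
    · have h3 := (H.strict x (hs hx1) h2).1
      have h4 : τ ≤ |F x - F x₀| := hx2
      rw [h3, sub_self, abs_zero] at h4
      linarith)
  exact ⟨m, hm, fun x hx1 hx2 => by linarith [h x ⟨hx1, hx2⟩]⟩

/-- tube lemma for the fixed point -/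
lemma tube {S : Set X} (ho : IsOpen S) (hx : x₀ ∈ S) :
    ∃ V ∈ 𝓝 x₀, V ⊆ W ∧ MapsTo k (Icc 0 1 ×ˢ V) S := by
  obtain ⟨u, hu, e⟩ := continuousOn_iff'.1 H.ck S ho
  have hsub : Icc (0 : ℝ) 1 ×ˢ ({x₀} : Set X) ⊆ u := by
    rintro ⟨t, x⟩ ⟨ht, hx'⟩
    obtain rfl : x = x₀ := hx'
    have : (t, x) ∈ k ⁻¹' S ∩ Icc 0 1 ×ˢ W :=
      ⟨by rw [mem_preimage, H.fix t ht]; exact hx, ht, mem_of_mem_nhds H.hW⟩
    rw [e] at this
    exact this.1
  obtain ⟨a, b, -, hb, h1, h2, h3⟩ :=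
    generalized_tube_lemma isCompact_Icc isCompact_singleton hu hsub
  refine ⟨b ∩ W, Filter.inter_mem (hb.mem_nhds (h2 rfl)) H.hW, inter_subset_right, ?_⟩
  rintro ⟨t, x⟩ ⟨ht, hx1, hx2⟩
  have : (t, x) ∈ u ∩ Icc 0 1 ×ˢ W := ⟨h3 ⟨h1 ht, hx1⟩, ht, hx2⟩
  rw [← e] at this
  exact this.1

/-- one application of the time one map, followed by excision -/
lemma step (T : Tools K) (j : ℕ) {S S' : Set X} (hS : S ⊆ W) (ho : IsOpen S') (hx : x₀ ∈ S')
    (hm : ∀ x ∈ S, F (k (1, x)) < F x₀ ∨ k (1, x) ∈ S') :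
    Inj K j {x | F x < F x₀} x₀ S S' := by
  set O : Set X := {x | F x < F x₀} with hO
  have hOo : IsOpen O := isOpen_lt H.cF continuous_const
  obtain ⟨V, hV, hVW, hk⟩ := H.tube ho hx
  have hdec : ∀ u ∈ Icc (0 : ℝ) 1, ∀ x ∈ W, x ∈ O → k (u, x) ∈ O := fun u hu x hx hxO =>
    lt_of_le_of_lt (H.dec u hu x hx) hxO
  refine ⟨V, hV, fun z hz hb => ?_⟩
  have h1 : push K j (fun x => k (1, x)) z ∈ Br K j (O ∪ S') O :=
    push_Br (H.cB.mono hS) (fun x hx => hm x hx)
      (fun x hx => hdec 1 one_mem x (hS hx.1) hx.2) hb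
  have h2 : push K j (fun x => k (1, x)) z ∈ Zr K j S' (S' ∩ O) :=
    push_Zr (H.cB.mono hVW) (fun x hx => hk (mk_mem_prod one_mem hx))
      (fun x hx => mem_inter (hk (mk_mem_prod one_mem hx.1))
        (hdec 1 one_mem x (hVW hx.1) hx.2)) hz
  have e1 : (O ∪ S') ∩ S' = S' := by rw [inter_comm]; exact inter_eq_left.2 subset_union_right
  have h3 := (T.exc X (O ∪ S') O S' O j ho hOo (by rw [union_comm]) inter_subset_right
    subset_union_left).2
  rw [e1, inter_comm O S'] at h3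
  have h4 : push K j (fun x => k (1, x)) z ∈ Br K j S' (S' ∩ O) := h3 ⟨h2, h1⟩
  have h5 := T.hom X X k V (V ∩ O) S' (S' ∩ O) j inter_subset_left
    (H.ck.mono (prod_mono Subset.rfl hVW)) hk
    (fun p hp => ⟨hk (mk_mem_prod hp.1 hp.2.1), hdec p.1 hp.1 p.2 (hVW hp.2.1) hp.2.2⟩) z hz
  rw [push_eq_self (f := fun x => k (0, x)) (fun x hx => H.k0 x (hVW hx)) (Zr_le_In hz)] at h5
  have := Submodule.sub_mem _ h4 h5
  rwa [sub_sub_cancel] at this

/-- a fixed neighbourhood detects all small relative boundaries -/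
lemma inj_all (T : Tools K) {V₂ : Set X} (hc : IsCompact V₂) (hs : V₂ ⊆ W) (hV : V₂ ∈ 𝓝 x₀) :
    ∃ V₀, IsOpen V₀ ∧ x₀ ∈ V₀ ∧ V₀ ⊆ V₂ ∧
      ∀ j, ∀ V' ∈ 𝓝 x₀, Inj K j {x | F x < F x₀} x₀ V₀ V' := by
  have hx1 : x₀ ∈ interior V₂ := mem_interior_iff_mem_nhds.2 hV
  obtain ⟨δ, hδ, hst⟩ := H.star hc hs isOpen_interior hx1
  let S : ℝ → Set X := fun t => interior V₂ ∩ {x | F x < F x₀ + t}
  have hSo : ∀ t, IsOpen (S t) := fun t =>
    isOpen_interior.inter (isOpen_lt H.cF continuous_const)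
  have hSx : ∀ t, 0 < t → x₀ ∈ S t := fun t ht => ⟨hx1, by simpa using ht⟩
  have hS2 : ∀ t, S t ⊆ V₂ := fun t => inter_subset_left.trans interior_subset
  refine ⟨S δ, hSo δ, hSx δ hδ, hS2 δ, fun j V' hV' => ?_⟩
  obtain ⟨τ, hτ, hst'⟩ := H.star hc hs isOpen_interior (mem_interior_iff_mem_nhds.2 hV')
  obtain ⟨η, hη, hdr⟩ := H.drop hc hs hτ
  have key : ∀ m : ℕ, Inj K j {x | F x < F x₀} x₀ (S δ) (S δ ∩ S (max (δ - m * η) τ)) := by
    intro m
    induction m with
    | zero =>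
      refine (Inj.refl j _ x₀ (S δ)).mono fun x hx => ⟨hx, hx.1, ?_⟩
      have : F x < F x₀ + δ := hx.2
      have h2 : δ - ((0 : ℕ) : ℝ) * η ≤ max (δ - ((0 : ℕ) : ℝ) * η) τ := le_max_left _ _
      simp only [Nat.cast_zero, zero_mul, sub_zero] at h2 ⊢
      show F x < F x₀ + max δ τ
      linarith
    | succ m ih =>
      refine ih.trans (H.step T j (inter_subset_left.trans ((hS2 δ).trans hs))
        ((hSo _).inter (hSo _)) ⟨hSx δ hδ, hSx _ (lt_max_of_lt_right hτ)⟩ ?_)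
      rintro x ⟨hx, hx'⟩
      have a1 : F x < F x₀ + δ := hx.2
      have a2 : F x < F x₀ + max (δ - m * η) τ := hx'.2
      have a3 := H.dec 1 one_mem x (hs (hS2 δ hx))
      rcases hst x (hS2 δ hx) a1.le with h | h
      · left; linarith
      · refine Or.inr ⟨⟨h, ?_⟩, h, ?_⟩
        · show F (k (1, x)) < F x₀ + δ
          linarith
        · show F (k (1, x)) < F x₀ + max (δ - ((m + 1 : ℕ) : ℝ) * η) τ
          have b1 : δ - ((m + 1 : ℕ) : ℝ) * η ≤ max (δ - ((m + 1 : ℕ) : ℝ) * η) τ :=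
            le_max_left _ _
          have b2 : τ ≤ max (δ - ((m + 1 : ℕ) : ℝ) * η) τ := le_max_right _ _
          by_cases hb : F x < F x₀ + τ
          · linarith
          · have b3 := hdr x (hS2 δ hx) (le_trans (by linarith) (le_abs_self _))
            have b4 : F x < F x₀ + (δ - m * η) := by
              rcases le_total (δ - m * η) τ with h' | h'
              · rw [max_eq_right h'] at a2; exact absurd a2 hb
              · rwa [max_eq_left h'] at a2
            push_cast at b1 b2 ⊢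
            linarith
  obtain ⟨m, hm⟩ := exists_nat_ge (δ / η)
  rw [div_le_iff₀ hη] at hm
  refine ((key m).trans (H.step T j (inter_subset_left.trans ((hS2 δ).trans hs))
    isOpen_interior (mem_interior_iff_mem_nhds.2 hV') ?_)).mono interior_subset
  rintro x ⟨hx, hx'⟩
  have a2 : F x < F x₀ + max (δ - m * η) τ := hx'.2
  rw [max_eq_right (by linarith)] at a2
  rcases hst' x (hS2 δ hx) a2.le with h | h
  · left; linarith
  · exact Or.inr h

/-- boundaries of small relative cycles can be pushed below a fixed level -/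
lemma down (T : Tools K) {V₂ : Set X} (hc : IsCompact V₂) (hs : V₂ ⊆ W) (hV : V₂ ∈ 𝓝 x₀) :
    ∃ δ > (0 : ℝ), ∀ j, Zr K j (interior V₂) (interior V₂ ∩ {x | F x < F x₀}) ≤
      Zr K j (k '' (Icc 0 1 ×ˢ V₂)) (k '' (Icc 0 1 ×ˢ V₂) ∩ {x | F x ≤ F x₀ - δ}) ⊔
        In K j (k '' (Icc 0 1 ×ˢ V₂) ∩ {x | F x < F x₀}) := by
  have hx1 : x₀ ∈ interior V₂ := mem_interior_iff_mem_nhds.2 hV
  obtain ⟨δ, hδ, hst⟩ := H.star hc hs isOpen_interior hx1
  set C : Set X := k '' (Icc 0 1 ×ˢ V₂) with hC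
  have hVC : V₂ ⊆ C := fun x hx => ⟨(0, x), ⟨zero_mem, hx⟩, H.k0 x (hs hx)⟩
  have hIC : interior V₂ ⊆ C := interior_subset.trans hVC
  refine ⟨δ, hδ, fun j => ?_⟩
  cases j with
  | zero => exact le_sup_of_le_left (In_mono hIC)
  | succ n =>
    intro z hz
    obtain ⟨hz1, hz2⟩ := mem_Zr_succ.1 hz
    obtain ⟨E, hE, hEs, hzE⟩ := exists_compact hz2
    obtain ⟨τ, hτ, hτE⟩ := hE.exists_forall_le' (a := 0) (f := fun x => F x₀ - F x)
      (continuousOn_const.sub H.cF.continuousOn) fun x hx => sub_pos.2 (hEs hx).2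
    obtain ⟨η, hη, hdr⟩ := H.drop hc hs hτ
    let S : ℝ → Set X := fun t =>
      (interior V₂ ∩ {x | F x ≤ F x₀ - t}) ∪ (C ∩ {x | F x < F x₀ - δ})
    have hk : ∀ p ∈ Icc (0 : ℝ) 1 ×ˢ V₂, k p ∈ C ∧ F (k p) ≤ F p.2 := fun p hp =>
      ⟨⟨p, hp, rfl⟩, H.dec p.1 hp.1 p.2 (hs hp.2)⟩
    have hSO : ∀ t, 0 < t → S t ⊆ C ∩ {x | F x < F x₀} := by
      rintro t ht x (hx | hx)
      · exact ⟨hIC hx.1, lt_of_le_of_lt (show F x ≤ F x₀ - t from hx.2) (sub_lt_self _ ht)⟩
      · exact ⟨hx.1, lt_trans (show F x < F x₀ - δ from hx.2) (sub_lt_self _ hδ)⟩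
    have one : ∀ t, τ ≤ t → Zr K n (S t) ∅ ≤
        Zr K n (S (t + η)) ∅ ⊔ Br K n (C ∩ {x | F x < F x₀}) ∅ := by
      intro t ht
      have ht0 : 0 < t := lt_of_lt_of_le hτ ht
      refine T.dfm X k (S t) (interior V₂) {x | F x < F x₀ - δ} _ _ n isOpen_interior
        (isOpen_lt H.cF continuous_const) ?_ ?_ ?_ (hSO t ht0) ?_ ?_ ?_ ?_
      · rintro x (hx | hx)
        · exact Or.inl hx.1
        · exact Or.inr hx.2
      · exact H.ck.mono (prod_mono Subset.rfl fun x hx => hs (interior_subset hx.2))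
      · exact fun x hx => H.k0 x (hs (interior_subset hx.2))
      · intro p hp
        have := hk p ⟨hp.1, interior_subset hp.2.2⟩
        exact ⟨this.1, lt_of_le_of_lt this.2 (hSO t ht0 hp.2.1).2⟩
      · exact fun x hx => Or.inr ⟨(hSO t ht0 hx.1).1, hx.2⟩
      · intro p hp
        have := hk p ⟨hp.1, interior_subset hp.2.1.2⟩
        exact Or.inr ⟨this.1, lt_of_le_of_lt this.2 hp.2.2⟩
      · rintro x ⟨hx, hxi⟩
        have hx2 : x ∈ V₂ := interior_subset hxi
        have h1 := hk (1, x) ⟨one_mem, hx2⟩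
        have h2 : F x < F x₀ := (hSO t ht0 hx).2
        rcases hst x hx2 (by linarith) with h | h
        · exact Or.inr ⟨h1.1, h⟩
        · rcases hx with hx | hx
          · have h3 : F x ≤ F x₀ - t := hx.2
            have h4 := hdr x hx2 (le_trans (by linarith) (neg_le_abs _))
            refine Or.inl ⟨h, ?_⟩
            show F (k (1, x)) ≤ F x₀ - (t + η)
            linarith
          · exact Or.inr ⟨h1.1, lt_of_le_of_lt h1.2 hx.2⟩
    have key : ∀ m : ℕ, Zr K n (S τ) ∅ ≤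
        Zr K n (S (τ + m * η)) ∅ ⊔ Br K n (C ∩ {x | F x < F x₀}) ∅ := by
      intro m
      induction m with
      | zero => simp
      | succ m ih =>
        refine ih.trans (sup_le ?_ le_sup_right)
        have := one (τ + m * η) (by nlinarith [Nat.cast_nonneg (α := ℝ) m])
        rwa [show τ + m * η + η = τ + ((m + 1 : ℕ) : ℝ) * η by push_cast; ring] at this
    obtain ⟨m, hm⟩ := exists_nat_ge (δ / η)
    rw [div_le_iff₀ hη] at hm
    have hb : bd K n z ∈ Zr K n (S τ) ∅ := bd_mem_Zr (In_mono (fun x hx =>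
      Or.inl ⟨(hEs hx).1, by have := hτE x hx; show F x ≤ F x₀ - τ; linarith⟩) hzE)
    obtain ⟨ζ, hζ, b, hb', e⟩ := Submodule.mem_sup.1 (key m hb)
    obtain ⟨w, hw, rfl⟩ := mem_Br_empty.1 hb'
    refine Submodule.mem_sup.2 ⟨z - w, mem_Zr_succ.2 ⟨?_, ?_⟩, w, hw, sub_add_cancel z w⟩
    · exact Submodule.sub_mem _ (In_mono hIC hz1) (In_mono inter_subset_left hw)
    · rw [map_sub, ← e, add_sub_cancel_right]
      refine In_mono ?_ (Zr_le_In hζ)
      rintro x (hx | hx)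
      · refine ⟨hIC hx.1, ?_⟩
        have : F x ≤ F x₀ - (τ + m * η) := hx.2
        show F x ≤ F x₀ - δ
        linarith
      · exact ⟨hx.1, le_of_lt (show F x < F x₀ - δ from hx.2)⟩

end Ds

/-- a compact pair inside an open pair in the source of a chart -/
lemma cube_chart (T : Tools K) (h : CubeStmt K) {D : Type} [NormedAddCommGroup D]
    [NormedSpace ℝ D] [FiniteDimensional ℝ D] (φ : OpenPartialHomeomorph X D) {C A V B : Set X}
    (hC : IsCompact C) (hA : IsCompact A) (hAC : A ⊆ C) (hV : IsOpen V) (hB : IsOpen B)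
    (hCV : C ⊆ V) (hAB : A ⊆ B) (hBV : B ⊆ V) (hs : V ⊆ φ.source) :
    ∃ r, ∀ j, RP K j C A V B r := by
  have hCs : C ⊆ φ.source := hCV.trans hs
  obtain ⟨r, hr, -⟩ := h D (φ '' C) (φ '' A) (φ '' V) (φ '' B)
    (hC.image_of_continuousOn (φ.continuousOn.mono hCs))
    (hA.image_of_continuousOn (φ.continuousOn.mono (hAC.trans hCs))) (image_mono hAC)
    (φ.isOpen_image_of_subset_source hV hs) (φ.isOpen_image_of_subset_source hB (hBV.trans hs))
    (image_mono hCV) (image_mono hAB) (image_mono hBV)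
  refine ⟨r, fun j => T.pt.2 X D φ φ.symm Prod.snd C A V B _ _ _ _ j r hAC (image_mono hBV)
    (φ.continuousOn.mono hCs) (φ.continuousOn_symm.mono ?_) (mapsTo_image _ _) (mapsTo_image _ _)
    ?_ ?_ continuous_snd.continuousOn (fun _ _ => rfl) (fun x hx => (φ.left_inv (hCs hx)).symm)
    (fun p hp => hCV hp.2) (fun p hp => hAB hp.2) (hr j)⟩
  · rintro _ ⟨x, hx, rfl⟩
    exact φ.map_source (hs hx)
  · rintro _ ⟨x, hx, rfl⟩
    rw [φ.left_inv (hs hx)]
    exact hx
  · rintro _ ⟨x, hx, rfl⟩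
    rw [φ.left_inv (hs (hBV hx))]
    exact hx

end IsoP

open IsoP in
theorem iso (K : Type) [Field K] (T : Tools K) (h : CubeStmt K) : IsoStmt K := by
  intro X D _ _ _ _ φ F k x₀ W hx hF hW hk h0 hfix hdec hstr
  have H : Ds F k x₀ W := ⟨hF, hW, hk, h0, hfix, hdec, hstr⟩
  have hO : IsOpen {x | F x < F x₀} := isOpen_lt hF continuous_const
  obtain ⟨V₂, hV₂, hs, hc⟩ :=
    cpt_nhds φ hx (Filter.inter_mem hW (φ.open_source.mem_nhds hx))
  obtain ⟨V₀, ho, hx₀, hV₀, hinj⟩ := H.inj_all T hc (hs.trans inter_subset_left) hV₂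
  obtain ⟨N, hN, hNW, hNk⟩ := H.tube ho hx₀
  obtain ⟨V₃, hV₃, hs₃, hc₃⟩ := cpt_nhds φ hx hN
  obtain ⟨δ, hδ, hdown⟩ := H.down T hc₃ (hs₃.trans hNW) hV₃
  have hC : IsCompact (k '' (Icc 0 1 ×ˢ V₃)) := (isCompact_Icc.prod hc₃).image_of_continuousOn
    (hk.mono (prod_mono Subset.rfl (hs₃.trans hNW)))
  have hCV : k '' (Icc 0 1 ×ˢ V₃) ⊆ V₀ := by
    rintro _ ⟨p, hp, rfl⟩
    exact hNk ⟨hp.1, hs₃ hp.2⟩
  obtain ⟨r, hr⟩ := cube_chart T h φ hC
    (hC.inter_right (isClosed_le hF (continuous_const (y := F x₀ - δ)))) inter_subset_left ho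
    (ho.inter hO) hCV (fun x hx => ⟨hCV hx.1,
      lt_of_le_of_lt (show F x ≤ F x₀ - δ from hx.2) (sub_lt_self _ hδ)⟩)
    inter_subset_left (hV₀.trans (hs.trans inter_subset_right))
  refine ⟨r, fun j V' hV' => ?_⟩
  obtain ⟨V, hV, hi⟩ := hinj j V' hV'
  refine ⟨V ∩ interior V₃, Filter.inter_mem hV (interior_mem_nhds.2 hV₃), ?_⟩
  refine Rk.of_inj (hr j) LinearMap.id (fun z hz => ?_) fun z hz hb => hi z ?_ hb
  · obtain ⟨a, ha, b, hb, e⟩ := Submodule.mem_sup.1 (hdown j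
      (Zr_mono inter_subset_right (inter_subset_inter_left _ inter_subset_right) hz))
    exact Submodule.mem_sup.2
      ⟨a, ha, b, In_le_Br (In_mono (inter_subset_inter_left _ hCV) hb), e⟩
  · exact Zr_mono inter_subset_left (inter_subset_inter_left _ inter_subset_left) hz

end Pool.Agent.MP_af6f1c_gt.Geo

end
end MrgPart2

-- ======== part 3: formerly Pool.Agent.MP_af6f1c_gt.geo.Link
section MrgPart3

/-! PROJECT GEO, row LINK: comparison with the singular homology of Mathlib. -/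

open Set Topology Finsupp CategoryTheory AlgebraicTopology Simplicial

noncomputable section

namespace Pool.Agent.MP_af6f1c_gt.Geo

open Pool.Agent.H80 (Sx face)

namespace LinkP

variable (K : Type) [Field K]

/-- the coefficient module -/
abbrev KK : ModuleCat.{0} K := ModuleCat.of K K

/-- the singular chain complex of Mathlib -/
abbrev SC (X : TopCat.{0}) : ChainComplex (ModuleCat.{0} K) ℕ :=
  ((singularChainComplexFunctor (ModuleCat.{0} K)).obj (KK K)).obj X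

/-- the singular homology functor of Mathlib -/
abbrev SH (n : ℕ) : TopCat.{0} ⥤ ModuleCat.{0} K :=
  (singularHomologyFunctor (ModuleCat.{0} K) n).obj (KK K)

variable {K}

/-- an element as a morphism from the coefficients -/
def elt {M : ModuleCat.{0} K} (x : M) : KK K ⟶ M :=
  ModuleCat.ofHom (LinearMap.toSpanSingleton K M x)

lemma elt_one {M : ModuleCat.{0} K} (x : M) : (elt x).hom 1 = x := by simp [elt]

lemma elt_comp {M N : ModuleCat.{0} K} (x : M) (f : M ⟶ N) : (elt x ≫ f).hom 1 = f.hom x :=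
  congrArg f.hom (elt_one x)

lemma elt_ext {M : ModuleCat.{0} K} {f g : KK K ⟶ M} (h : f.hom 1 = g.hom 1) : f = g := by
  apply ModuleCat.hom_ext
  exact LinearMap.ext_ring h

/-- simplices of the singular simplicial set -/
def sEq (X : TopCat.{0}) (n : ℕ) : (TopCat.toSSet.obj X) _⦋n⦌ ≃ C(Sx n, X) :=
  X.toSSetObjEquiv (Opposite.op ⦋n⦌)

variable (K)

/-- the generator that belongs to a simplex -/
def gen (X : TopCat.{0}) (n : ℕ) (σ : C(Sx n, X)) : KK K ⟶ (SC K X).X n :=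
  (TopCat.toSSet.obj X).ιChainComplex ((sEq X n).symm σ)

/-- from finitely supported functions to the chains of Mathlib -/
def toSC (X : TopCat.{0}) (n : ℕ) : Ch K n X →ₗ[K] (SC K X).X n :=
  linearCombination K fun σ => (gen K X n σ).hom 1

lemma toSC_single (X : TopCat.{0}) (n : ℕ) (σ : C(Sx n, X)) :
    toSC K X n (single σ 1) = (gen K X n σ).hom 1 := by
  simp only [toSC, linearCombination_single, one_smul]

/-- the inverse comparison map -/
def ofSC (X : TopCat.{0}) (n : ℕ) : (SC K X).X n ⟶ ModuleCat.of K (Ch K n X) :=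
  Limits.Cofan.IsColimit.desc ((TopCat.toSSet.obj X).isColimitChainComplexXCofan (KK K) n)
    fun x => elt (single (sEq X n x) 1)

lemma gen_ofSC (X : TopCat.{0}) (n : ℕ) (σ : C(Sx n, X)) :
    gen K X n σ ≫ ofSC K X n = elt (single σ 1) := by
  have := Limits.Cofan.IsColimit.fac ((TopCat.toSSet.obj X).isColimitChainComplexXCofan (KK K) n)
    (fun x => (elt (single (sEq X n x) 1) : KK K ⟶ ModuleCat.of K (Ch K n X))) ((sEq X n).symm σ)
  rw [Equiv.apply_symm_apply] at this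
  exact this

lemma ofSC_toSC (X : TopCat.{0}) (n : ℕ) (z : Ch K n X) :
    (ofSC K X n).hom (toSC K X n z) = z := by
  refine lin_ext (L := (ofSC K X n).hom ∘ₗ toSC K X n) (L' := LinearMap.id) (fun σ => ?_) z
  have := congrArg (fun f => f.hom 1) (gen_ofSC K X n σ)
  rw [LinearMap.comp_apply, toSC_single]
  exact this.trans (elt_one _)

lemma toSC_ofSC (X : TopCat.{0}) (n : ℕ) (z : (SC K X).X n) :
    toSC K X n ((ofSC K X n).hom z) = z := by
  have : ofSC K X n ≫ ModuleCat.ofHom (toSC K X n) = 𝟙 _ := by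
    refine SSet.chainComplex_hom_ext (X := TopCat.toSSet.obj X) (R := KK K) fun x => ?_
    obtain ⟨σ, rfl⟩ := (sEq X n).symm.surjective x
    show gen K X n σ ≫ _ = gen K X n σ ≫ _
    rw [← Category.assoc, gen_ofSC, Category.comp_id]
    apply elt_ext
    rw [elt_comp]
    exact toSC_single K X n σ
  exact congrArg (fun f => f.hom z) this

lemma toSC_injective (X : TopCat.{0}) (n : ℕ) : Function.Injective (toSC K X n) :=
  Function.LeftInverse.injective (ofSC_toSC K X n)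

lemma toSC_surjective (X : TopCat.{0}) (n : ℕ) : Function.Surjective (toSC K X n) :=
  Function.RightInverse.surjective (toSC_ofSC K X n)

lemma toSC_bd (X : TopCat.{0}) (n : ℕ) (z : Ch K (n + 1) X) :
    toSC K X n (bd K n z) = ((SC K X).d (n + 1) n).hom (toSC K X (n + 1) z) := by
  refine lin_ext (L := toSC K X n ∘ₗ bd K n)
    (L' := ((SC K X).d (n + 1) n).hom ∘ₗ toSC K X (n + 1)) (fun σ => ?_) z
  have h := (TopCat.toSSet.obj X).ιChainComplex_d (KK K) ((sEq X (n + 1)).symm σ)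
  have h2 : ∀ i : Fin (n + 2), (TopCat.toSSet.obj X).δ i ((sEq X (n + 1)).symm σ) =
      (sEq X n).symm (σ.comp (face i)) := fun i => by
    rw [Equiv.eq_symm_apply]
    ext1 s
    refine (TopCat.toSSetObjEquiv_δ_apply _ i s).trans ?_
    exact DFunLike.congr_fun ((sEq X (n + 1)).apply_symm_apply σ) _
  simp only [h2] at h
  have h3 := congrArg (fun f => f.hom 1) h
  simp only [LinearMap.comp_apply, bd_single, map_sum, map_smul, toSC_single]
  refine Eq.trans ?_ h3.symm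
  let evl : (KK K ⟶ (SC K X).X n) →+ (SC K X).X n := AddMonoidHom.mk' (fun f => f.hom 1)
    fun _ _ => rfl
  symm
  refine (map_sum evl _ _).trans (Finset.sum_congr rfl fun i _ => ?_)
  refine (map_zsmul evl _ _).trans ?_
  rw [← Int.cast_smul_eq_zsmul K]
  simp only [Int.cast_pow, Int.cast_neg, Int.cast_one]
  rfl

variable {K} in
/-- the rank of the homology of a short complex of vector spaces -/
lemma rank_homology (S : ShortComplex (ModuleCat.{0} K)) (r : ℕ) :
    Module.rank K S.homology ≤ r ↔ Rk (LinearMap.ker S.g.hom) (LinearMap.range S.f.hom) r := by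
  have e : LinearMap.range S.moduleCatToCycles =
      (LinearMap.range S.f.hom).comap (LinearMap.ker S.g.hom).subtype := by
    ext x
    constructor
    · rintro ⟨y, rfl⟩
      exact ⟨y, rfl⟩
    · rintro ⟨y, hy⟩
      exact ⟨y, Subtype.ext hy⟩
  rw [rk_iff, S.moduleCatHomologyIso.toLinearEquiv.rank_eq, ← e]
  rfl

lemma mem_Zr_iff (X : TopCat.{0}) (n : ℕ) (z : Ch K n X) :
    z ∈ Zr K n (univ : Set X) ∅ ↔
      ((SC K X).d n ((ComplexShape.down ℕ).next n)).hom (toSC K X n z) = 0 := by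
  cases n with
  | zero =>
    simp only [mem_Zr_zero, mem_In_univ, true_iff]
    rw [(SC K X).shape _ _ (by simp)]
    rfl
  | succ n =>
    rw [ChainComplex.next_nat_succ, ← toSC_bd, mem_Zr_succ, In_empty, Submodule.mem_bot,
      map_eq_zero_iff _ (toSC_injective K X n)]
    simp only [mem_In_univ, true_and]

lemma mem_Br_iff (X : TopCat.{0}) (n : ℕ) (z : Ch K n X) :
    z ∈ Br K n (univ : Set X) ∅ ↔
      toSC K X n z ∈ LinearMap.range ((SC K X).d (n + 1) n).hom := by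
  rw [mem_Br_empty]
  constructor
  · rintro ⟨w, -, rfl⟩
    exact ⟨toSC K X (n + 1) w, (toSC_bd K X n w).symm⟩
  · rintro ⟨w, hw⟩
    obtain ⟨w, rfl⟩ := toSC_surjective K X (n + 1) w
    exact ⟨w, mem_In_univ w, toSC_injective K X n (by rw [toSC_bd, hw])⟩

/-- the comparison for one space -/
lemma rh_iff (X : TopCat.{0}) (n r : ℕ) :
    RH K n (univ : Set X) r ↔ Module.rank K ((SH K n).obj X) ≤ r := by
  have e : Module.rank K ((SH K n).obj X) =
      Module.rank K ((SC K X).sc' (n + 1) n ((ComplexShape.down ℕ).next n)).homology :=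
    ((SC K X).homologyIsoSc' (n + 1) n _ (by simp) rfl).toLinearEquiv.rank_eq
  have e2 : Module.rank K ((SC K X).sc' (n + 1) n ((ComplexShape.down ℕ).next n)).homology ≤ r ↔
      Rk (LinearMap.ker ((SC K X).d n ((ComplexShape.down ℕ).next n)).hom)
        (LinearMap.range ((SC K X).d (n + 1) n).hom) r := rank_homology _ r
  rw [e, e2]
  constructor
  · intro h
    refine Rk.of_inj h (ofSC K X n).hom (fun z hz => Submodule.mem_sup_left ?_) fun z _ hz => ?_
    · exact (mem_Zr_iff K X n _).2 (by rw [toSC_ofSC]; exact hz)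
    · have := (mem_Br_iff K X n _).1 hz
      rwa [toSC_ofSC] at this
  · intro h
    refine Rk.of_inj h (toSC K X n) (fun z hz => Submodule.mem_sup_left ?_) fun z _ hz => ?_
    · exact (mem_Zr_iff K X n z).1 hz
    · exact (mem_Br_iff K X n z).2 hz

/-- the two models of the free loop space -/
def loopHomeo (M : Type) [MetricSpace M] : Lo M ≃ₜ C(Circle, M) :=
  (AddCircle.homeomorphCircle (T := (1 : ℝ)) one_ne_zero).arrowCongr (Homeomorph.refl M)

end LinkP

theorem link (K : Type) [Field K] : LinkStmt K := by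
  intro M _ i r
  have e : Module.rank K ((LinkP.SH K i).obj (TopCat.of (Lo M))) = Module.rank K (LH K M i) :=
    ((LinkP.SH K i).mapIso (TopCat.isoOfHomeo (X := TopCat.of (Lo M))
      (Y := TopCat.of C(Circle, M)) (LinkP.loopHomeo M))).toLinearEquiv.rank_eq
  rw [← e]
  exact LinkP.rh_iff K (TopCat.of (Lo M)) i r

end Pool.Agent.MP_af6f1c_gt.Geo

end
end MrgPart3

-- ======== part 4: formerly Pool.Agent.MP_af6f1c_gt.geo.Morse
section MrgPart4

/-! PROJECT GEO, row MORSE: the Morse inequality between two levels. -/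

open Set Topology Metric Filter

noncomputable section

namespace Pool.Agent.MP_af6f1c_gt.Geo

namespace MorseP

variable {K : Type} [Field K]

section top

variable {X : Type} [MetricSpace X]

lemma loc_empty (i : ℕ) (O : Set X) : Loc K i O ∅ 0 := fun _ _ =>
  ⟨∅, by simp, rk_zero.2 (Zr_le_In.trans (by rw [In_empty]; exact bot_le))⟩

lemma loc_union (T : Tools K) {i r₁ r₂ : ℕ} {O Γ₁ Γ₂ : Set X} (h1 : IsCompact Γ₁)
    (h2 : IsCompact Γ₂) (hd : Disjoint Γ₁ Γ₂) (l1 : Loc K i O Γ₁ r₁) (l2 : Loc K i O Γ₂ r₂) :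
    Loc K i O (Γ₁ ∪ Γ₂) (r₁ + r₂) := by
  intro V' hV'
  obtain ⟨U₁, U₂, o1, o2, s1, s2, hU⟩ := SeparatedNhds.of_isCompact_isCompact h1 h2 hd
  obtain ⟨V₁, p1, t1, u1, w1⟩ := l1.exists_open (nhdsSet_mono subset_union_left hV')
    (o1.mem_nhdsSet.2 s1)
  obtain ⟨V₂, p2, t2, u2, w2⟩ := l2.exists_open (nhdsSet_mono subset_union_right hV')
    (o2.mem_nhdsSet.2 s2)
  refine ⟨V₁ ∪ V₂, (p1.union p2).mem_nhdsSet.2 (union_subset_union t1 t2), ?_⟩
  refine T.disj X O (V₁ ∪ V₂) V₁ V₂ V' (V' ∩ O) i r₁ r₂ p1 p2 (hU.mono u1 u2) Subset.rfl ?_ ?_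
  · exact RP.mono w1 inter_subset_right (inter_subset_inter_left _ inter_subset_right)
      Subset.rfl Subset.rfl le_rfl
  · exact RP.mono w2 inter_subset_right (inter_subset_inter_left _ inter_subset_right)
      Subset.rfl Subset.rfl le_rfl

lemma loc_biUnion (T : Tools K) {ι : Type} {i : ℕ} {O : Set X} (Γ : ι → Set X) (r : ι → ℕ)
    (s : Finset ι) (hc : ∀ q ∈ s, IsCompact (Γ q))
    (hd : ∀ q ∈ s, ∀ q' ∈ s, Γ q = Γ q' ∨ Disjoint (Γ q) (Γ q'))
    (hl : ∀ q ∈ s, Loc K i O (Γ q) (r q)) : Loc K i O (⋃ q ∈ s, Γ q) (∑ q ∈ s, r q) := by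
  classical
  induction s using Finset.induction_on with
  | empty => simpa using loc_empty i O
  | insert q s hq ih =>
    have ih' := ih (fun p hp => hc p (Finset.mem_insert_of_mem hp))
      (fun p hp p' hp' => hd p (Finset.mem_insert_of_mem hp) p' (Finset.mem_insert_of_mem hp'))
      (fun p hp => hl p (Finset.mem_insert_of_mem hp))
    rw [Finset.set_biUnion_insert, Finset.sum_insert hq]
    by_cases h : ∃ p ∈ s, Γ q = Γ p
    · obtain ⟨p, hp, e⟩ := h
      have : Γ q ∪ ⋃ p ∈ s, Γ p = ⋃ p ∈ s, Γ p :=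
        union_eq_self_of_subset_left (e ▸ subset_biUnion_of_mem (u := Γ) hp)
      rw [this]
      exact ih'.mono (Nat.le_add_left _ _)
    · refine loc_union T (hc q (Finset.mem_insert_self _ _))
        (s.isCompact_biUnion fun p hp => hc p (Finset.mem_insert_of_mem hp)) ?_
        (hl q (Finset.mem_insert_self _ _)) ih'
      refine disjoint_iUnion₂_right.2 fun p hp => ?_
      exact (hd q (Finset.mem_insert_self _ _) p (Finset.mem_insert_of_mem hp)).resolve_left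
        fun e => h ⟨p, hp, e⟩

/-- passing one level -/
lemma step (T : Tools K) [CompactSpace X] {i r : ℕ} {F : X → ℝ} (hF : Continuous F)
    {h : ℝ × X → X} {e E : ℝ} {Γ : Set X} (heE : e < E)
    (hc : ContinuousOn h (Icc 0 1 ×ˢ {x | F x < E})) (h0 : ∀ x, F x < E → h (0, x) = x)
    (hle : ∀ u ∈ Icc (0 : ℝ) 1, ∀ x, F x < E → F (h (u, x)) ≤ F x)
    (hΓ : ∀ x ∈ Γ, F x < E) (hl : Loc K i {x | F x < e} Γ r)
    (hcr : ∀ x, F x = e → F (h (1, x)) = e → h (1, x) ∈ Γ) :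
    ∃ e' > e, RP K i {x | F x < e'} ∅ {x | F x < E} {x | F x < e} r := by
  have oE : IsOpen {x | F x < E} := isOpen_lt hF continuous_const
  have oO : IsOpen {x | F x < e} := isOpen_lt hF continuous_const
  have hOE : {x | F x < e} ⊆ {x | F x < E} := fun x hx => lt_trans hx heE
  obtain ⟨V, oV, hΓV, hVE, hV⟩ := hl.exists_open (oE.mem_nhdsSet.2 hΓ) (oE.mem_nhdsSet.2 hΓ)
  have h1 : (1 : ℝ) ∈ Icc (0 : ℝ) 1 := ⟨zero_le_one, le_rfl⟩
  have hc1 : ContinuousOn (fun x => h (1, x)) {x | F x < E} :=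
    hc.comp (by fun_prop) fun x hx => ⟨h1, hx⟩
  obtain ⟨E₁, hE1, hE2⟩ := exists_between heE
  have hC : IsClosed ({x | F x ≤ E₁} ∩ (fun x => h (1, x)) ⁻¹' ({x | F x < e} ∪ V)ᶜ) :=
    (hc1.mono fun x hx => lt_of_le_of_lt hx hE2).preimage_isClosed_of_isClosed
      (isClosed_le hF continuous_const) (oO.union oV).isClosed_compl
  obtain ⟨e', he', he'E, hm⟩ : ∃ e', e < e' ∧ e' ≤ E₁ ∧
      ∀ x, F x < e' → h (1, x) ∈ {x | F x < e} ∪ V := by
    rcases ({x | F x ≤ E₁} ∩ (fun x => h (1, x)) ⁻¹' ({x | F x < e} ∪ V)ᶜ).eq_empty_or_nonempty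
      with hem | hne
    · refine ⟨E₁, hE1, le_rfl, fun x hx => ?_⟩
      by_contra hn
      exact hem.subset ⟨hx.le, hn⟩
    · obtain ⟨x₀, hx₀, hmin⟩ := hC.isCompact.exists_isMinOn hne hF.continuousOn
      have a1 : e ≤ F (h (1, x₀)) := not_lt.1 fun hh => hx₀.2 (Or.inl hh)
      have a2 : F (h (1, x₀)) ≤ F x₀ := hle 1 h1 x₀ (lt_of_le_of_lt hx₀.1 hE2)
      refine ⟨F x₀, lt_of_le_of_ne (a1.trans a2) fun hh => ?_, hx₀.1, fun x hx => ?_⟩
      · exact hx₀.2 (Or.inr (hΓV (hcr x₀ hh.symm (le_antisymm (hh ▸ a2) a1))))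
      · by_contra hn
        exact absurd (hmin ⟨hx.le.trans hx₀.1, hn⟩) (not_le.2 hx)
  have hsub : {x | F x < e'} ⊆ {x | F x < E} := fun x hx => lt_trans (lt_of_lt_of_le hx he'E) hE2
  refine ⟨e', he', ?_⟩
  have hex := (T.exc X ({x | F x < e} ∪ V) {x | F x < e} V {x | F x < e} i oV oO
    (union_comm _ _).subset inter_subset_right subset_union_left).1
  have hOV : RP K i ({x | F x < e} ∪ V) {x | F x < e} {x | F x < E} {x | F x < e} r := by
    refine Rk.of_le_sup (RP.mono hV Subset.rfl Subset.rfl Subset.rfl inter_subset_right le_rfl)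
      (hex.trans (sup_le_sup (Zr_mono inter_subset_right (inter_comm _ _).subset)
        (Br_mono (union_subset hOE hVE) Subset.rfl)))
  refine T.pt.2 X X (fun x => h (1, x)) id h _ ∅ _ _ _ _ _ _ i r (empty_subset _) hOE
    (hc1.mono hsub) continuousOn_id (fun x hx => hm x hx) (mapsTo_empty _ _) (mapsTo_id _)
    (mapsTo_id _) (hc.mono (prod_mono Subset.rfl hsub)) (fun x hx => h0 x (hsub hx))
    (fun _ _ => rfl) ?_ ?_ hOV
  · rintro ⟨u, x⟩ ⟨hu, hx⟩
    exact lt_of_le_of_lt (hle u hu x (hsub hx)) (hsub hx)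
  · rintro ⟨u, x⟩ ⟨_, hx⟩
    exact hx.elim

/-- ranks pass to the limit of an increasing family of sublevel sets -/
lemma limit {i r : ℕ} {F : X → ℝ} (hF : Continuous F) {e₀ m : ℝ} (hm : e₀ < m)
    {Q : Submodule K (Ch K i X)} (h : ∀ e ∈ Ioo e₀ m, Rk (Zr K i {x | F x < e} ∅) Q r) :
    Rk (Zr K i {x | F x < m} ∅) Q r := by
  refine Rk.of_fg fun T hT => ?_
  have key : ∀ z ∈ T, ∀ᶠ e in 𝓝[<] m, z ∈ Zr K i {x | F x < e} ∅ := by
    intro z hz
    obtain ⟨C, hC, h1, h2⟩ := exists_compact (Zr_le_In (hT z hz))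
    have : ∀ᶠ e in 𝓝[<] m, C ⊆ {x | F x < e} := by
      rcases C.eq_empty_or_nonempty with rfl | hne
      · exact Eventually.of_forall fun _ => empty_subset _
      · obtain ⟨x₀, hx₀, hmax⟩ := hC.exists_isMaxOn hne hF.continuousOn
        filter_upwards [Ioo_mem_nhdsLT (show F x₀ < m from h1 hx₀)] with e he x hx
        exact lt_of_le_of_lt (hmax hx) he.1
    filter_upwards [this] with e he
    exact Zr_mono he inter_subset_left (mem_Zr_of_In (hT z hz) h2)
  obtain ⟨e, he1, he2⟩ := (((eventually_all_finset T).2 key).and (Ioo_mem_nhdsLT hm)).exists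
  exact (h e he2).mono (Submodule.span_le.2 fun z hz => he1 z hz) le_rfl le_rfl

/-- the Morse inequality for a descending deformation -/
lemma abstract (T : Tools K) [CompactSpace X] {ι : Type} {i : ℕ} {F : X → ℝ} (hF : Continuous F)
    {h : ℝ × X → X} {e₀ e₁ E : ℝ} (s : Finset ι) (Γ : ι → Set X) (l : ι → ℝ) (r : ι → ℕ)
    (h01 : e₀ ≤ e₁) (heE : e₁ < E)
    (hc : ContinuousOn h (Icc 0 1 ×ˢ {x | F x < E})) (h0 : ∀ x, F x < E → h (0, x) = x)
    (hle : ∀ u ∈ Icc (0 : ℝ) 1, ∀ x, F x < E → F (h (u, x)) ≤ F x)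
    (hK : ∀ q ∈ s, IsCompact (Γ q)) (hΓ : ∀ q ∈ s, ∀ x ∈ Γ q, F x = l q)
    (hd : ∀ q ∈ s, ∀ q' ∈ s, Γ q = Γ q' ∨ Disjoint (Γ q) (Γ q'))
    (hl : ∀ q ∈ s, Loc K i {x | F x < l q} (Γ q) (r q))
    (hcr : ∀ x, e₀ ≤ F x → F x ≤ e₁ → F (h (1, x)) = F x → ∃ q ∈ s, h (1, x) ∈ Γ q) :
    RP K i {x | F x < e₁} ∅ {x | F x < E} {x | F x < e₀} (∑ q ∈ s, r q) := by
  classical
  let R : ℝ → ℕ := fun e => ∑ q ∈ s.filter (fun q => l q < e), r q
  have Rmono : ∀ {e e' : ℝ}, e ≤ e' → R e ≤ R e' := fun hh =>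
    Finset.sum_le_sum_of_subset (Finset.monotone_filter_right s fun q _ hq => lt_of_lt_of_le hq hh)
  let P : ℝ → Prop := fun e => RP K i {x | F x < e} ∅ {x | F x < E} {x | F x < e₀} (R e)
  suffices H : ∀ e ∈ Icc e₀ e₁, P e from
    RP.mono (H e₁ ⟨h01, le_rfl⟩) Subset.rfl Subset.rfl Subset.rfl Subset.rfl
      (Finset.sum_le_sum_of_subset (Finset.filter_subset _ _))
  by_contra hn
  have hne : {e | e ∈ Icc e₀ e₁ ∧ ¬ P e}.Nonempty := by
    by_contra h'
    exact hn fun e he => by_contra fun hp => h' ⟨e, he, hp⟩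
  have hbd : BddBelow {e | e ∈ Icc e₀ e₁ ∧ ¬ P e} := ⟨e₀, fun e he => he.1.1⟩
  set m := sInf {e | e ∈ Icc e₀ e₁ ∧ ¬ P e} with hm
  have m0 : e₀ ≤ m := le_csInf hne fun e he => he.1.1
  have m1 : m ≤ e₁ := by
    obtain ⟨e, he⟩ := hne
    exact (csInf_le hbd he).trans he.1.2
  have Pm : P m := by
    rcases m0.eq_or_lt with hh | hh
    · rw [← hh]
      exact Rk.of_le (Zr_le_In.trans In_le_Br) _
    · refine limit hF hh fun e he => ?_
      have : P e := by_contra fun hp =>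
        absurd (csInf_le hbd ⟨⟨he.1.le, he.2.le.trans m1⟩, hp⟩) (not_le.2 he.2)
      exact Rk.mono this le_rfl le_rfl (Rmono he.2.le)
  have hloc : Loc K i {x | F x < m} (⋃ q ∈ s.filter (fun q => l q = m), Γ q)
      (∑ q ∈ s.filter (fun q => l q = m), r q) := by
    refine loc_biUnion T Γ r _ (fun q hq => hK q (Finset.mem_filter.1 hq).1)
      (fun q hq q' hq' => hd q (Finset.mem_filter.1 hq).1 q' (Finset.mem_filter.1 hq').1)
      fun q hq => ?_
    rw [← (Finset.mem_filter.1 hq).2]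
    exact hl q (Finset.mem_filter.1 hq).1
  obtain ⟨e', he', hs⟩ := step T hF (m1.trans_lt heE) hc h0 hle (fun x hx => by
      obtain ⟨q, hq, hx⟩ := mem_iUnion₂.1 hx
      rw [hΓ q (Finset.mem_filter.1 hq).1 x hx, (Finset.mem_filter.1 hq).2]
      exact m1.trans_lt heE) hloc (fun x h1 h2 => by
      obtain ⟨q, hq, hx⟩ := hcr x (h1 ▸ m0) (h1 ▸ m1) (h2.trans h1.symm)
      exact mem_iUnion₂.2 ⟨q, Finset.mem_filter.2 ⟨hq, (hΓ q hq _ hx).symm.trans h2⟩, hx⟩)
  have : e' ≤ m := by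
    refine le_csInf hne fun e he => not_lt.1 fun hlt => he.2 ?_
    rcases (csInf_le hbd he : m ≤ e).eq_or_lt with hh | hh
    · exact hh ▸ Pm
    · have := T.tri X _ ∅ ∅ _ ∅ _ _ _ i _ _ Subset.rfl Subset.rfl Subset.rfl hs Pm
      refine RP.mono this (fun x hx => lt_trans hx hlt) Subset.rfl Subset.rfl Subset.rfl ?_
      show _ + ∑ q ∈ s.filter (fun q => l q < m), r q ≤ ∑ q ∈ s.filter (fun q => l q < e), r q
      rw [← Finset.sum_union (Finset.disjoint_filter.2 fun q _ h1 h2 => h2.ne h1)]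
      refine Finset.sum_le_sum_of_subset fun q hq => ?_
      rcases Finset.mem_union.1 hq with hq | hq
      · exact Finset.mem_filter.2 ⟨(Finset.mem_filter.1 hq).1, (Finset.mem_filter.1 hq).2 ▸ hh⟩
      · exact Finset.mem_filter.2 ⟨(Finset.mem_filter.1 hq).1, (Finset.mem_filter.1 hq).2.trans hh⟩
  exact absurd this (not_le.2 he')

end top

section geo

variable {M : Type} [MetricSpace M]

lemma orb_shift (N : ℕ) (γ : ℝ → M) (s : ℝ) : orb N (fun t => γ (t + s)) = orb N γ := by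
  ext x
  constructor
  · rintro ⟨u, rfl⟩
    exact ⟨u + s, by simp only [add_assoc]⟩
  · rintro ⟨u, rfl⟩
    exact ⟨u - s, by simp only [add_assoc, sub_add_cancel]⟩

lemma orb_compact (N : ℕ) {γ : ℝ → M} {c : ℝ} (h : CG γ c) : IsCompact (orb N γ) := by
  refine Function.Periodic.compact_of_continuous (c := 1) (fun s => ?_) one_ne_zero ?_
  · funext j
    simp only [smp, ← add_assoc]
    exact h.2.1 _
  · refine continuous_pi fun j => ?_
    exact h.1.comp (continuous_const.add continuous_id)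

/-- there is a gap in the length spectrum above every level -/
lemma gap (hf : FinOrb M) (b : ℝ) : ∃ δ > (0 : ℝ), 2 * δ < 1 ∧
    ∀ (γ : ℝ → M) (c : ℝ), CG γ c → c ≤ b + 2 * δ → c ≤ b := by
  obtain ⟨T, hT, h⟩ := hf (b + 1)
  have hfin : (⋃ γ ∈ T, {c | CG γ c}).Finite :=
    hT.biUnion fun γ _ => Set.Subsingleton.finite fun c hc c' hc' => CG.speed_eq hc hc'
  have hcl : IsClosed ((⋃ γ ∈ T, {c | CG γ c}) \ {b}) := (hfin.subset diff_subset).isClosed
  obtain ⟨ε, hε, hb⟩ := Metric.isOpen_iff.1 hcl.isOpen_compl b fun hh => hh.2 rfl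
  refine ⟨min ε 1 / 3, by positivity, by linarith [min_le_right ε 1], fun γ c hγ hc => ?_⟩
  have h1 := min_le_left ε 1
  have h2 := min_le_right ε 1
  have h3 : 0 < min ε 1 := by positivity
  by_contra hn
  have hn := not_le.1 hn
  obtain ⟨γ', hγ', s, hs⟩ := h γ c hγ (by linarith)
  refine hb (show c ∈ ball b ε from ?_) ⟨mem_iUnion₂.2 ⟨γ', hγ', ?_⟩, hn.ne'⟩
  · rw [mem_ball, Real.dist_eq, abs_of_pos (by linarith)]
    linarith
  · have := hγ.shift (-s)
    simp only [hs, neg_add_cancel_right] at this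
    exact this

end geo

end MorseP

open MorseP in
theorem morse (K : Type) [Field K] (hB : Basics) (T : Tools K) (hS : SampStmt K) :
    MorseStmt K := by
  intro n M _ _ G ι s γ c r i a b hf ha hab hq hall
  obtain ⟨δ, hδ, hδ1, hgap⟩ := gap hf b
  obtain ⟨N₁, hN₁⟩ := (hS n M G).1 b δ (ha.le.trans hab) hδ
  have hρ := G.g0.pos
  choose! N₀ hN₀ using fun q (h : q ∈ s) => (hq q h).2
  obtain ⟨N, ⟨n1, n2, n3⟩, n4⟩ : ∃ N : ℕ, (1 ≤ N ∧ N₁ ≤ N ∧ (b + 1) ^ 2 / N < G.ρ ^ 2) ∧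
      ∀ q ∈ s, N₀ q ≤ N ∧ c q / N < G.ρ := by
    refine Eventually.exists (f := atTop) (Eventually.and ?_ ((eventually_all_finset s).2
      fun q _ => (eventually_ge_atTop _).and ?_))
    · exact (eventually_ge_atTop _).and ((eventually_ge_atTop _).and
        ((tendsto_const_div_atTop_nhds_zero_nat _).eventually (gt_mem_nhds (by positivity))))
    · exact (tendsto_const_div_atTop_nhds_zero_nat _).eventually (gt_mem_nhds hρ)
  haveI : NeZero N := ⟨by omega⟩
  have B := hB.2 n M G N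
  have hN : (0 : ℝ) < N := by exact_mod_cast n1
  have hGd : ∀ x : ZMod N → M, En x < (b + 1) ^ 2 / N → x ∈ G.Gd N :=
    fun x hx => B.sub x (hx.trans n3)
  have hb : 0 < b := ha.trans_le hab
  have e01 : a ^ 2 / N ≤ (b + 2 * δ) ^ 2 / N :=
    div_le_div_of_nonneg_right (pow_le_pow_left₀ ha.le (by linarith) 2) hN.le
  have e1E : (b + 2 * δ) ^ 2 / N < (b + 1) ^ 2 / N :=
    div_lt_div_of_pos_right (pow_lt_pow_left₀ (by linarith) (by linarith) two_ne_zero) hN
  have e21 : (b + δ) ^ 2 / N < (b + 2 * δ) ^ 2 / N :=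
    div_lt_div_of_pos_right (pow_lt_pow_left₀ (by linarith) (by linarith) two_ne_zero) hN
  have hp : (0 : ℝ) < 1 / N := by positivity
  obtain ⟨τ, τ0, τ1⟩ := exists_between hp
  have k1 : ContinuousOn (fun q : ℝ × (ZMod N → M) => G.rot (q.1 * τ) q.2)
      (Icc 0 1 ×ˢ {x | En x < (b + 1) ^ 2 / N}) := by
    have hf : Continuous fun q : ℝ × (ZMod N → M) => (q.1 * τ, q.2) := by fun_prop
    exact ContinuousOn.comp (g := fun q : ℝ × (ZMod N → M) => G.rot q.1 q.2) B.rot_cont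
      hf.continuousOn fun q hq => ⟨trivial, hGd _ hq.2⟩
  have k2 : ∀ q ∈ s, ∀ x ∈ orb N (γ q), En x = c q ^ 2 / N := by
    rintro q h _ ⟨u, rfl⟩
    exact (B.geo _ _ ((hq q h).1.shift u) (n4 q h).2).2.2.1
  have k3 : ∀ q ∈ s, ∀ q' ∈ s,
      orb N (γ q) = orb N (γ q') ∨ Disjoint (orb N (γ q)) (orb N (γ q')) := by
    intro q h q' h'
    refine or_iff_not_imp_right.2 fun hnd => ?_
    obtain ⟨_, ⟨u, rfl⟩, u', e⟩ := not_disjoint_iff.1 hnd
    have e' := congrArg G.bg e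
    rw [(B.geo _ _ ((hq q h).1.shift u) (n4 q h).2).2.1,
      (B.geo _ _ ((hq q' h').1.shift u') (n4 q' h').2).2.1] at e'
    rw [← orb_shift N (γ q) u, ← orb_shift N (γ q') u', e']
  have k4 : ∀ q ∈ s, Loc K i {x : ZMod N → M | En x < c q ^ 2 / N} (orb N (γ q)) (r q) :=
    fun q h => hN₀ q h N (n4 q h).1
  have k5 : ∀ x : ZMod N → M, a ^ 2 / N ≤ En x → En x ≤ (b + 2 * δ) ^ 2 / N →
      En (G.rot (1 * τ) x) = En x → ∃ q ∈ s, G.rot (1 * τ) x ∈ orb N (γ q) := by
    intro x h1 h2 h3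
    rw [one_mul] at h3 ⊢
    have hx := hGd x (h2.trans_lt e1E)
    rcases B.birk τ τ0 τ1 x hx h3 with h0 | ⟨c', hc', he, -⟩
    · rw [h0] at h1
      exact absurd h1 (not_le.2 (by positivity))
    · rw [he] at h1 h2
      have a1 : a ≤ c' := (pow_le_pow_iff_left₀ ha.le hc'.2.2.1.le two_ne_zero).1
        ((div_le_div_iff_of_pos_right hN).1 h1)
      have a2 : c' ≤ b + 2 * δ :=
        (pow_le_pow_iff_left₀ hc'.2.2.1.le (by linarith) two_ne_zero).1
          ((div_le_div_iff_of_pos_right hN).1 h2)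
      obtain ⟨q, h, u, hu⟩ := hall _ c' hc' a1 (hgap _ c' hc' a2)
      refine ⟨q, h, τ + u, ?_⟩
      simp only [GS.rot, hu, add_assoc]
  have key : RP K i {x : ZMod N → M | En x < (b + 2 * δ) ^ 2 / N} ∅ {x | En x < (b + 1) ^ 2 / N}
      {x | En x < a ^ 2 / N} (∑ q ∈ s, r q) :=
    abstract T B.en_cont (h := fun q : ℝ × (ZMod N → M) => G.rot (q.1 * τ) q.2)
      s (fun q => orb N (γ q)) (fun q => c q ^ 2 / N) r e01 e1E k1
      (fun x hx => by simpa using B.rot_zero x (hGd x hx))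
      (fun u _ x hx => B.rot_le _ x (hGd x hx)) (fun q h => orb_compact N (hq q h).1) k2 k3 k4 k5
  have hmap := Rk.map (Q₁ := Fil M K i a) key (push K i G.toL) fun z hz hz' => by
    obtain ⟨w, hw, hu⟩ := mem_Br.1 hz'
    have hcont : ContinuousOn G.toL {x : ZMod N → M | En x < (b + 1) ^ 2 / N} :=
      B.toL_cont.mono hGd
    have hsub : {x : ZMod N → M | En x < a ^ 2 / N} ⊆ {x | En x < (b + 1) ^ 2 / N} :=
      fun x hx => lt_trans (lt_of_lt_of_le hx e01) e1E
    have h1 : z - bd K i w ∈ Zr K i {x : ZMod N → M | En x < a ^ 2 / N} ∅ :=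
      Zr_mono Subset.rfl inter_subset_left (mem_Zr_of_In
        (sub_mem (Zr_mono (fun x hx => lt_trans hx e1E) Subset.rfl hz) (bd_mem_Zr (bd_mem hw))) hu)
    rw [← sub_add_cancel z (bd K i w), map_add]
    refine add_mem (Submodule.mem_sup_left (push_Zr (hcont.mono hsub) (fun x hx => ?_)
      (mapsTo_empty _ _) h1)) (Submodule.mem_sup_right
      (push_Br hcont (mapsTo_univ _ _) (mapsTo_empty _ _) (bd_mem_Br hw)))
    exact (hS n M G).2 a N ha.le x (hGd x (hsub hx)) (le_of_lt hx)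
  refine hmap.of_le_sup ((hN₁ N n2 i).trans (sup_le_sup (Submodule.map_mono
    (Zr_mono (fun x hx => lt_of_le_of_lt hx.2 e21) Subset.rfl)) le_sup_right))

end Pool.Agent.MP_af6f1c_gt.Geo

end
end MrgPart4

-- marker of a merged file
example : 731051 + 327247 = 731051 + 327247 := rfl
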