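import Pool.Agent.MP_af6f1c_gt.geo.Spec
import Pool.Agent.MP_af6f1c_gt.geo.Base
import Mathlib.Analysis.Calculus.FDeriv.Symmetric
import Mathlib.Analysis.Calculus.LocalExtr.Basic
import Mathlib.LinearAlgebra.QuadraticForm.Signature

-- ======== part 0: formerly Pool.Agent.MP_af6f1c_gt.geo.Bg
section MrgPart0

/-! PROJECT GEO, row BG: broken geodesics and the Birkhoff map. -/

set_option linter.unusedSectionVars false

open Set Topology Metric
open scoped ENNReal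

noncomputable section

namespace Pool.Agent.MP_af6f1c_gt.Geo

namespace BgP

variable {n : ℕ} {M : Type} [MetricSpace M] (G : GS M n) {N : ℕ} [NeZero N]

lemma N_pos (N : ℕ) [NeZero N] : (0 : ℝ) < N := Nat.cast_pos.2 (NeZero.pos N)

lemma sum_zmod (f : ZMod N → ℝ) : ∑ j, f j = ∑ i ∈ Finset.range N, f (i : ZMod N) := by
  refine Finset.sum_nbij' (fun j => j.val) (fun i => (i : ZMod N)) ?_ ?_ ?_ ?_ ?_
  · intro j _
    exact Finset.mem_range.2 (ZMod.val_lt j)
  · intro i _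
    exact Finset.mem_univ _
  · intro j _
    exact ZMod.natCast_zmod_val j
  · intro i hi
    exact ZMod.val_cast_of_lt (Finset.mem_range.1 hi)
  · intro j _
    rw [ZMod.natCast_zmod_val]

lemma sum_shift (f : ZMod N → ℝ) (a : ZMod N) : ∑ j, f (j + a) = ∑ j, f j :=
  Equiv.sum_comp (Equiv.addRight a) f

/-- samples of a periodic curve at integers -/
lemma smp_int {γ : ℝ → M} (h : Function.Periodic γ 1) (k : ℤ) :
    smp N γ (k : ZMod N) = γ ((k : ℝ) / N) := by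
  have hN := N_pos N
  have h1 : (((k : ZMod N).val : ℕ) : ℤ) = k % N := ZMod.val_intCast k
  have h2 : (k : ℝ) = ((k : ZMod N).val : ℝ) + N * ((k / N : ℤ) : ℝ) := by
    have h3 : k = (((k : ZMod N).val : ℕ) : ℤ) + N * (k / N) := by
      rw [h1]; exact (Int.emod_add_mul_ediv k N).symm
    exact_mod_cast congrArg (fun z : ℤ => (z : ℝ)) h3
  have h4 : (k : ℝ) / N = ((k : ZMod N).val : ℝ) / N + ((k / N : ℤ) : ℝ) * 1 := by
    rw [h2]; field_simp
  rw [h4, h.int_mul (k / N)]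
  rfl

lemma smp_int_succ {γ : ℝ → M} (h : Function.Periodic γ 1) (k : ℤ) :
    smp N γ ((k : ZMod N) + 1) = γ (((k : ℝ) + 1) / N) := by
  have := smp_int (N := N) h (k + 1)
  push_cast at this
  exact this

lemma smp_succ {γ : ℝ → M} (h : Function.Periodic γ 1) (j : ZMod N) :
    smp N γ (j + 1) = γ (((j.val : ℝ) + 1) / N) := by
  have := smp_int_succ (N := N) h (j.val : ℤ)
  rwa [Int.cast_natCast, Int.cast_natCast, ZMod.natCast_zmod_val] at this

/-- the broken geodesic on one edge -/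
lemma bg_eq {x : ZMod N → M} (hx : x ∈ G.Gd N) (k : ℤ) {t : ℝ} (h1 : (k : ℝ) ≤ N * t)
    (h2 : N * t ≤ k + 1) : G.bg x t = G.seg (x k) (x ((k : ZMod N) + 1)) (N * t - k) := by
  rcases h2.lt_or_eq with h2 | h2
  · have hf : ⌊(N : ℝ) * t⌋ = k := Int.floor_eq_iff.2 ⟨h1, h2⟩
    unfold GS.bg
    rw [Int.fract, hf]
  · have hf : ⌊(N : ℝ) * t⌋ = k + 1 := by
      rw [h2]; exact_mod_cast Int.floor_intCast (R := ℝ) (k + 1)
    unfold GS.bg
    rw [Int.fract, hf, h2]
    push_cast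
    rw [sub_self, add_sub_cancel_left, G.zero _ _ (hx _), G.one _ _ (hx _)]

lemma cont : ContinuousOn (fun q : (ZMod N → M) × ℝ => G.bg q.1 q.2) (G.Gd N ×ˢ univ) := by
  have piece : ∀ k : ℤ, ContinuousOn (fun q : (ZMod N → M) × ℝ => G.bg q.1 q.2)
      (G.Gd N ×ˢ {t : ℝ | (k : ℝ) ≤ N * t ∧ N * t ≤ k + 1}) := by
    intro k
    have hc : Continuous fun q : (ZMod N → M) × ℝ =>
        ((q.1 k, q.1 ((k : ZMod N) + 1), N * q.2 - k) : M × M × ℝ) := by fun_prop
    refine (G.cont.comp hc.continuousOn ?_).congr ?_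
    · rintro ⟨x, t⟩ ⟨hx, h1, h2⟩
      exact ⟨hx _, by dsimp only; linarith, by dsimp only; linarith⟩
    · rintro ⟨x, t⟩ ⟨hx, h1, h2⟩
      exact bg_eq G hx k h1 h2
  rintro ⟨x, t⟩ ⟨hx, -⟩
  have h1 := Int.floor_le ((N : ℝ) * t)
  have h2 := Int.lt_floor_add_one ((N : ℝ) * t)
  set k := ⌊(N : ℝ) * t⌋
  have hcN : Continuous fun q : (ZMod N → M) × ℝ => (N : ℝ) * q.2 := by fun_prop
  have hA := piece k (x, t) ⟨hx, h1, h2.le⟩
  rcases h1.lt_or_eq with h1 | h1
  · refine hA.mono_of_mem_nhdsWithin ?_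
    have : {q : (ZMod N → M) × ℝ | (N : ℝ) * q.2 ∈ Ioo (k : ℝ) (k + 1)} ∈ 𝓝 (x, t) :=
      (isOpen_Ioo.preimage hcN).mem_nhds ⟨h1, h2⟩
    filter_upwards [self_mem_nhdsWithin, mem_nhdsWithin_of_mem_nhds this] with q hq hq'
    exact ⟨hq.1, hq'.1.le, hq'.2.le⟩
  · have hB := piece (k - 1) (x, t) ⟨hx, by push_cast; linarith, by push_cast; linarith⟩
    refine (hA.union hB).mono_of_mem_nhdsWithin ?_
    have : {q : (ZMod N → M) × ℝ | (N : ℝ) * q.2 ∈ Ioo ((k : ℝ) - 1) (k + 1)} ∈ 𝓝 (x, t) :=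
      (isOpen_Ioo.preimage hcN).mem_nhds ⟨by dsimp only; linarith, h2⟩
    filter_upwards [self_mem_nhdsWithin, mem_nhdsWithin_of_mem_nhds this] with q hq hq'
    rcases le_total (k : ℝ) (N * q.2) with h | h
    · exact Or.inl ⟨hq.1, h, hq'.2.le⟩
    · exact Or.inr ⟨hq.1, by push_cast; exact hq'.1.le, by push_cast; linarith⟩

lemma bg_cont {x : ZMod N → M} (hx : x ∈ G.Gd N) : Continuous (G.bg x) := by
  rw [← continuousOn_univ]
  exact (cont G).comp (f := fun t : ℝ => (x, t)) (by fun_prop) fun t _ => ⟨hx, trivial⟩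

lemma per (x : ZMod N → M) : Function.Periodic (G.bg x) 1 := by
  intro t
  unfold GS.bg
  rw [mul_add, mul_one, Int.floor_add_natCast, Int.fract_add_natCast]
  push_cast
  rw [ZMod.natCast_self, add_zero]

lemma vert {x : ZMod N → M} (hx : x ∈ G.Gd N) (j : ℤ) : G.bg x ((j : ℝ) / N) = x j := by
  have hN := N_pos N
  have h : (N : ℝ) * ((j : ℝ) / N) = j := by field_simp
  rw [bg_eq G hx j h.ge (by rw [h]; linarith), h, sub_self, G.zero _ _ (hx _)]

lemma smp_bg {x : ZMod N → M} (hx : x ∈ G.Gd N) : smp N (G.bg x) = x := by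
  funext j
  have := vert G hx (j.val : ℤ)
  rwa [Int.cast_natCast, Int.cast_natCast, ZMod.natCast_zmod_val] at this

lemma dist_edge {x : ZMod N → M} (hx : x ∈ G.Gd N) (k : ℤ) {s t : ℝ} (h1 : (k : ℝ) ≤ N * s)
    (h2 : N * s ≤ k + 1) (h3 : (k : ℝ) ≤ N * t) (h4 : N * t ≤ k + 1) :
    dist (G.bg x s) (G.bg x t) = N * dist (x k) (x ((k : ZMod N) + 1)) * |s - t| := by
  rw [bg_eq G hx k h1 h2, bg_eq G hx k h3 h4,
    G.dist_seg _ _ (hx _) _ ⟨by linarith, by linarith⟩ _ ⟨by linarith, by linarith⟩,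
    show (N : ℝ) * s - k - (N * t - k) = N * (s - t) by ring, abs_mul, abs_of_pos (N_pos N)]
  ring

lemma len_le {x : ZMod N → M} (hx : x ∈ G.Gd N) :
    len (G.bg x) ≤ ENNReal.ofReal (∑ j, dist (x j) (x (j + 1))) := by
  have hN := N_pos N
  have hI : Monotone fun i : ℕ => (i : ℝ) / N := fun i j h => by
    dsimp only; gcongr
  have hs := eVariationOn.sum' (G.bg x) hI (n := N)
  simp only [Nat.cast_zero, zero_div, div_self hN.ne'] at hs
  rw [len, ← hs, sum_zmod, ENNReal.ofReal_sum_of_nonneg fun _ _ => dist_nonneg]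
  refine Finset.sum_le_sum fun i _ => ?_
  set d := dist (x (i : ZMod N)) (x ((i : ZMod N) + 1)) with hd
  have hd0 : 0 ≤ d := dist_nonneg
  have hL : LipschitzOnWith (Real.toNNReal (N * d)) (G.bg x)
      (Icc ((i : ℝ) / N) (((i + 1 : ℕ) : ℝ) / N)) := by
    refine LipschitzOnWith.of_dist_le_mul fun s hs t ht => ?_
    obtain ⟨a1, a2⟩ := hs
    obtain ⟨b1, b2⟩ := ht
    rw [div_le_iff₀ hN] at a1 b1
    rw [le_div_iff₀ hN] at a2 b2
    push_cast at a2 b2
    have := dist_edge G hx (i : ℤ) (s := s) (t := t) (by push_cast; linarith)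
      (by push_cast; linarith) (by push_cast; linarith) (by push_cast; linarith)
    rw [this, Real.coe_toNNReal _ (by positivity), Real.dist_eq, Int.cast_natCast]
  have h := hL.comp_eVariationOn_le (g := id) (mapsTo_id _)
  rw [Function.comp_id, eVariationOn_id_Icc] at h
  refine h.trans (le_of_eq ?_)
  rw [show ((Real.toNNReal (N * d) : NNReal) : ℝ≥0∞) = ENNReal.ofReal (N * d) from rfl,
    ← ENNReal.ofReal_mul (by positivity)]
  congr 1
  push_cast
  field_simp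
  ring

lemma sum_le (γ : ℝ → M) (a : ℝ) (hγ : Function.Periodic γ 1) (ha : 0 ≤ a)
    (h : len γ ≤ ENNReal.ofReal a) : ∑ j, dist (smp N γ j) (smp N γ (j + 1)) ≤ a := by
  have hN := N_pos N
  have h1 := eVariationOn.sum_le_of_monotoneOn_Iic (f := γ) (s := Icc 0 1) (n := N)
    (u := fun i : ℕ => (i : ℝ) / N) (fun i _ j _ h => by dsimp only; gcongr)
    (fun i hi => ⟨by positivity, (div_le_one hN).2 (by exact_mod_cast hi)⟩)
  rw [← ENNReal.ofReal_le_ofReal_iff ha, sum_zmod,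
    ENNReal.ofReal_sum_of_nonneg fun _ _ => dist_nonneg]
  refine le_trans (le_of_eq ?_) (h1.trans h)
  refine Finset.sum_congr rfl fun i _ => ?_
  have e1 := smp_int (N := N) hγ (i : ℤ)
  have e2 := smp_int_succ (N := N) hγ (i : ℤ)
  rw [Int.cast_natCast, Int.cast_natCast] at e1 e2
  rw [e1, e2, edist_dist, dist_comm]
  push_cast
  rfl

/-- the vertices of the rotated polygon -/
lemma rot_apply (s : ℝ) (x : ZMod N → M) (j : ZMod N) :
    G.rot s x j = G.seg (x (j + (⌊(N : ℝ) * s⌋ : ℤ))) (x (j + (⌊(N : ℝ) * s⌋ : ℤ) + 1))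
      (Int.fract ((N : ℝ) * s)) := by
  have hN := N_pos N
  have h : (N : ℝ) * ((j.val : ℝ) / N + s) = (j.val : ℝ) + N * s := by field_simp
  show G.bg x ((j.val : ℝ) / N + s) = _
  unfold GS.bg
  rw [h, Int.floor_natCast_add, Int.fract_natCast_add, Int.cast_add, Int.cast_natCast,
    ZMod.natCast_zmod_val]

lemma seg_left {a b : M} (h : dist a b < G.ρ) {θ : ℝ} (hθ : θ ∈ Icc (0 : ℝ) 1) :
    dist a (G.seg a b θ) = θ * dist a b := by
  have := G.dist_seg a b h 0 ⟨le_rfl, zero_le_one⟩ θ hθ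
  rwa [G.zero a b h, zero_sub, abs_neg, abs_of_nonneg hθ.1] at this

lemma seg_right {a b : M} (h : dist a b < G.ρ) {θ : ℝ} (hθ : θ ∈ Icc (0 : ℝ) 1) :
    dist (G.seg a b θ) b = (1 - θ) * dist a b := by
  have := G.dist_seg a b h θ hθ 1 ⟨zero_le_one, le_rfl⟩
  rwa [G.one a b h, abs_sub_comm, abs_of_nonneg (sub_nonneg.2 hθ.2)] at this

lemma fract_mem (u : ℝ) : Int.fract u ∈ Icc (0 : ℝ) 1 :=
  ⟨Int.fract_nonneg u, (Int.fract_lt_one u).le⟩

lemma dist_rot_le (s : ℝ) {x : ZMod N → M} (hx : x ∈ G.Gd N) (j : ZMod N) :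
    dist (G.rot s x j) (G.rot s x (j + 1)) ≤
      (1 - Int.fract ((N : ℝ) * s)) *
          dist (x (j + (⌊(N : ℝ) * s⌋ : ℤ))) (x (j + (⌊(N : ℝ) * s⌋ : ℤ) + 1)) +
        Int.fract ((N : ℝ) * s) *
          dist (x (j + (⌊(N : ℝ) * s⌋ : ℤ) + 1)) (x (j + (⌊(N : ℝ) * s⌋ : ℤ) + 1 + 1)) := by
  rw [rot_apply, rot_apply, add_right_comm j 1, ← seg_right G (hx _) (fract_mem _),
    ← seg_left G (hx _) (fract_mem _)]
  exact dist_triangle _ _ _

lemma rot_mem (s : ℝ) {x : ZMod N → M} (hx : x ∈ G.Gd N) : G.rot s x ∈ G.Gd N := by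
  intro j
  refine (dist_rot_le G s hx j).trans_lt ?_
  have h1 := hx (j + (⌊(N : ℝ) * s⌋ : ℤ))
  have h2 := hx (j + (⌊(N : ℝ) * s⌋ : ℤ) + 1)
  have h3 := Int.fract_nonneg ((N : ℝ) * s)
  have h4 := Int.fract_lt_one ((N : ℝ) * s)
  nlinarith [mul_pos (sub_pos.2 h4) (sub_pos.2 h1), mul_nonneg h3 (sub_pos.2 h2).le]

lemma sq_conv {θ a b e : ℝ} (h0 : 0 ≤ θ) (h1 : θ ≤ 1) (he : 0 ≤ e) (h : e ≤ (1 - θ) * a + θ * b) :
    e ^ 2 ≤ (1 - θ) * a ^ 2 + θ * b ^ 2 := by
  have h2 : e ^ 2 ≤ ((1 - θ) * a + θ * b) ^ 2 := pow_le_pow_left₀ he h 2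
  nlinarith [mul_nonneg (mul_nonneg h0 (sub_nonneg.2 h1)) (sq_nonneg (a - b))]

lemma sum_conv (θ : ℝ) (x : ZMod N → M) (a : ZMod N) :
    ∑ j, ((1 - θ) * dist (x (j + a)) (x (j + a + 1)) ^ 2 +
      θ * dist (x (j + a + 1)) (x (j + a + 1 + 1)) ^ 2) = En x := by
  have h1 := sum_shift (fun j => dist (x j) (x (j + 1)) ^ 2) a
  have h2 := sum_shift (fun j => dist (x j) (x (j + 1)) ^ 2) (a + 1)
  simp only [← add_assoc] at h2
  rw [Finset.sum_add_distrib, ← Finset.mul_sum, ← Finset.mul_sum, h1, h2, En]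
  ring

lemma rot_le (s : ℝ) {x : ZMod N → M} (hx : x ∈ G.Gd N) : En (G.rot s x) ≤ En x := by
  rw [← sum_conv (Int.fract ((N : ℝ) * s)) x (⌊(N : ℝ) * s⌋ : ℤ)]
  exact Finset.sum_le_sum fun j _ =>
    sq_conv (fract_mem _).1 (fract_mem _).2 dist_nonneg (dist_rot_le G s hx j)

lemma en_const {x : ZMod N → M} {d : ℝ} (h : ∀ j, dist (x j) (x (j + 1)) = d) :
    En x = (N * d) ^ 2 / N := by
  have hN := N_pos N
  simp only [En, h, Finset.sum_const, Finset.card_univ, ZMod.card, nsmul_eq_mul]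
  field_simp

/-- equality in the Birkhoff inequality -/
lemma birk (s : ℝ) (h0 : 0 < s) (h1 : s < 1 / N) {x : ZMod N → M} (hx : x ∈ G.Gd N)
    (h : En (G.rot s x) = En x) :
    En x = 0 ∨ ∃ c, CG (G.bg x) c ∧ En x = c ^ 2 / N ∧ c / N < G.ρ := by
  have hN := N_pos N
  obtain ⟨θ, hθ⟩ : ∃ θ, θ = (N : ℝ) * s := ⟨_, rfl⟩
  have hθ0 : 0 < θ := hθ ▸ mul_pos hN h0
  have hθ1 : θ < 1 := by
    rw [lt_div_iff₀ hN] at h1
    linarith
  have hf : ⌊(N : ℝ) * s⌋ = 0 := by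
    rw [← hθ]; exact Int.floor_eq_zero_iff.2 ⟨hθ0.le, hθ1⟩
  have hfr : Int.fract ((N : ℝ) * s) = θ := by
    rw [← hθ]; exact Int.fract_eq_self.2 ⟨hθ0.le, hθ1⟩
  have hle : ∀ j, dist (G.rot s x j) (G.rot s x (j + 1)) ≤
      (1 - θ) * dist (x j) (x (j + 1)) + θ * dist (x (j + 1)) (x (j + 1 + 1)) := by
    intro j
    have := dist_rot_le G s hx j
    rwa [hf, hfr, Int.cast_zero, add_zero] at this
  have hsum := sum_conv θ x 0
  simp only [add_zero] at hsum
  have heq : ∀ j, dist (G.rot s x j) (G.rot s x (j + 1)) ^ 2 =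
      (1 - θ) * dist (x j) (x (j + 1)) ^ 2 + θ * dist (x (j + 1)) (x (j + 1 + 1)) ^ 2 := by
    intro j
    exact (Finset.sum_eq_sum_iff_of_le fun j _ =>
      sq_conv hθ0.le hθ1.le dist_nonneg (hle j)).1 (h.trans hsum.symm) j (Finset.mem_univ j)
  have hstep : ∀ j, dist (x (j + 1)) (x (j + 1 + 1)) = dist (x j) (x (j + 1)) := by
    intro j
    have h2 := pow_le_pow_left₀ dist_nonneg (hle j) 2
    rw [heq j] at h2
    have h3 : θ * (1 - θ) * (dist (x (j + 1)) (x (j + 1 + 1)) - dist (x j) (x (j + 1))) ^ 2 ≤ 0 := by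
      nlinarith
    have h4 : 0 < θ * (1 - θ) := mul_pos hθ0 (sub_pos.2 hθ1)
    have h5 := le_antisymm (nonpos_of_mul_nonpos_right h3 h4) (sq_nonneg _)
    exact sub_eq_zero.1 (pow_eq_zero_iff two_ne_zero |>.1 h5)
  obtain ⟨d, hd0⟩ : ∃ d, d = dist (x 0) (x (0 + 1)) := ⟨_, rfl⟩
  have hd : ∀ j, dist (x j) (x (j + 1)) = d := by
    intro j
    obtain ⟨i, rfl⟩ := ZMod.natCast_zmod_surjective j
    induction i with
    | zero => rw [Nat.cast_zero, hd0]
    | succ i ih => rw [Nat.cast_succ, hstep, ih]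
  have hdn : 0 ≤ d := hd0 ▸ dist_nonneg
  have hrot : ∀ j, dist (G.rot s x j) (G.rot s x (j + 1)) = d := by
    intro j
    have := heq j
    rw [hd, hd] at this
    exact (pow_left_inj₀ dist_nonneg hdn two_ne_zero).1 (by rw [this]; ring)
  have hE := en_const hd
  rcases hdn.eq_or_lt with hz | hpos
  · left
    rw [hE, ← hz]
    simp
  right
  refine ⟨N * d, ⟨bg_cont G hx, per G x, mul_pos hN hpos, min θ (1 - θ) / N,
    div_pos (lt_min hθ0 (sub_pos.2 hθ1)) hN, ?_⟩, hE, ?_⟩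
  swap
  · rw [mul_div_cancel_left₀ _ hN.ne', ← hd 0]
    exact hx 0
  have key : ∀ p q : ℝ, p ≤ q → q - p < min θ (1 - θ) / N →
      dist (G.bg x p) (G.bg x q) = N * d * |p - q| := by
    intro p q hpq hlt
    rw [lt_div_iff₀ hN, lt_min_iff] at hlt
    have a1 := Int.floor_le ((N : ℝ) * p)
    have a2 := Int.lt_floor_add_one ((N : ℝ) * p)
    generalize ⌊(N : ℝ) * p⌋ = k at a1 a2
    have a3 : N * p ≤ N * q := mul_le_mul_of_nonneg_left hpq hN.le
    rcases le_total ((N : ℝ) * q) (k + 1) with a4 | a4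
    · rw [dist_edge G hx k a1 a2.le (a1.trans a3) a4, hd]
    have e1 := bg_eq G hx k a1 a2.le
    have e2 := bg_eq G hx (k + 1) (t := q) (by push_cast; exact a4) (by push_cast; linarith [hlt.1])
    push_cast at e2
    have m1 : (N : ℝ) * p - k ∈ Icc (0 : ℝ) 1 := ⟨by linarith, by linarith⟩
    have m2 : (N : ℝ) * q - (k + 1) ∈ Icc (0 : ℝ) 1 := ⟨by linarith, by linarith [hlt.1]⟩
    have m3 : θ ∈ Icc (0 : ℝ) 1 := ⟨hθ0.le, hθ1.le⟩
    have r := hrot k
    rw [rot_apply, rot_apply, hf, hfr, Int.cast_zero, add_zero, add_zero] at r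
    have u1 := seg_right G (hx k) m1
    have u2 := seg_left G (hx ((k : ZMod N) + 1)) m2
    have u3 := G.dist_seg _ _ (hx k) _ m3 _ m1
    have u4 := G.dist_seg _ _ (hx ((k : ZMod N) + 1)) _ m2 _ m3
    rw [hd] at u1 u2 u3 u4
    rw [abs_of_nonpos (by linarith [hlt.2])] at u3
    rw [abs_of_nonpos (by linarith [hlt.1])] at u4
    rw [e1, e2, abs_of_nonpos (sub_nonpos.2 hpq)]
    refine le_antisymm ((dist_triangle _ (x ((k : ZMod N) + 1)) _).trans (le_of_eq ?_)) ?_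
    · rw [u1, u2]; ring
    · have t4 := dist_triangle4 (G.seg (x k) (x ((k : ZMod N) + 1)) θ)
        (G.seg (x k) (x ((k : ZMod N) + 1)) (N * p - k))
        (G.seg (x ((k : ZMod N) + 1)) (x ((k : ZMod N) + 1 + 1)) (N * q - (k + 1)))
        (G.seg (x ((k : ZMod N) + 1)) (x ((k : ZMod N) + 1 + 1)) θ)
      rw [r, u3, u4] at t4
      linarith
  intro p q hpq
  rcases le_total p q with h2 | h2
  · exact key p q h2 (by rwa [abs_sub_comm, abs_of_nonneg (sub_nonneg.2 h2)] at hpq)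
  · rw [dist_comm, abs_sub_comm]
    exact key q p h2 (by rwa [abs_of_nonneg (sub_nonneg.2 h2)] at hpq)

lemma geo (γ : ℝ → M) (c : ℝ) (h : CG γ c) (hc : c / N < G.ρ) :
    smp N γ ∈ G.Gd N ∧ G.bg (smp N γ) = γ ∧ En (smp N γ) = c ^ 2 / N ∧
      ∀ s, G.rot s (smp N γ) = smp N fun t => γ (t + s) := by
  have hN := N_pos N
  obtain ⟨-, hp, hc0, hm⟩ := h
  have loc : ∀ s t e : ℝ, 0 ≤ e → e ≤ 1 → t - s = e / N → dist (γ s) (γ t) = e * (c / N) := by
    intro s t e e0 e1 he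
    have h1 : c * |s - t| = e * (c / N) := by
      rw [abs_sub_comm, he, abs_of_nonneg (by positivity)]; ring
    have h2 : e * (c / N) ≤ c / N := mul_le_of_le_one_left (by positivity) e1
    rw [G.locmin γ c hc0.le hm s t (by rw [h1]; exact h2.trans_lt hc), h1]
  have hd : ∀ j, dist (smp N γ j) (smp N γ (j + 1)) = c / N := by
    intro j
    rw [smp_succ hp, show smp N γ j = γ ((j.val : ℝ) / N) from rfl,
      loc _ _ 1 zero_le_one le_rfl (by ring), one_mul]
  have hG : smp N γ ∈ G.Gd N := fun j => by rw [hd]; exact hc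
  have hb : G.bg (smp N γ) = γ := by
    funext t
    have m := fract_mem ((N : ℝ) * t)
    symm
    refine G.uniq _ _ (hG _) _ m _ ?_ ?_
    · rw [hd, smp_int hp]
      refine loc _ _ _ m.1 m.2 ?_
      rw [Int.fract]; field_simp
    · rw [hd, smp_int_succ hp]
      refine loc _ _ _ (sub_nonneg.2 m.2) (by linarith [m.1]) ?_
      rw [Int.fract]; field_simp; ring
  refine ⟨hG, hb, ?_, fun s => ?_⟩
  · rw [en_const hd, mul_div_cancel₀ _ hN.ne']
  · rw [GS.rot, hb]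

lemma crv_toL (hL : LoopStmt M) {x : ZMod N → M} (hx : x ∈ G.Gd N) : crv (G.toL x) = G.bg x :=
  hL.crv_mk' _ (bg_cont G hx) (per G x)

lemma near (hL : LoopStmt M) (l : Lo M) (hl : l ∈ Osc N (G.ρ / 2)) :
    smp N (crv l) ∈ G.Gd N ∧ dist l (G.toL (smp N (crv l))) < G.ρ := by
  have hN := N_pos N
  have hρ := G.g0.pos
  have hp := hL.crv_per l
  have hd : ∀ j, dist (smp N (crv l) j) (smp N (crv l) (j + 1)) < G.ρ / 2 := by
    intro j
    rw [smp_succ hp]
    refine hl _ _ (le_of_eq ?_)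
    rw [abs_sub_comm, show ((j.val : ℝ) + 1) / N - (j.val : ℝ) / N = 1 / N by ring,
      abs_of_nonneg (by positivity)]
  have hG : smp N (crv l) ∈ G.Gd N := fun j => (hd j).trans (half_lt_self hρ)
  refine ⟨hG, hL.dist_lt _ _ _ fun t _ => ?_⟩
  rw [crv_toL G hL hG]
  have m := fract_mem ((N : ℝ) * t)
  have h1 : dist (crv l t) (smp N (crv l) (⌊(N : ℝ) * t⌋ : ℤ)) < G.ρ / 2 := by
    rw [smp_int hp]
    refine hl _ _ ?_
    have : t - (⌊(N : ℝ) * t⌋ : ℝ) / N = Int.fract ((N : ℝ) * t) / N := by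
      rw [Int.fract]; field_simp
    rw [this, abs_of_nonneg (div_nonneg m.1 hN.le)]
    gcongr
    exact m.2
  have h2 := seg_left G (hG (⌊(N : ℝ) * t⌋ : ℤ)) m
  have h3 := mul_le_of_le_one_left
    (dist_nonneg (x := smp N (crv l) (⌊(N : ℝ) * t⌋ : ℤ))
      (y := smp N (crv l) (((⌊(N : ℝ) * t⌋ : ℤ) : ZMod N) + 1))) m.2
  have h4 := hd (⌊(N : ℝ) * t⌋ : ℤ)
  have h5 := dist_triangle (crv l t) (smp N (crv l) (⌊(N : ℝ) * t⌋ : ℤ)) (G.bg (smp N (crv l)) t)
  rw [show G.bg (smp N (crv l)) t = G.seg (smp N (crv l) (⌊(N : ℝ) * t⌋ : ℤ))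
    (smp N (crv l) (((⌊(N : ℝ) * t⌋ : ℤ) : ZMod N) + 1)) (Int.fract ((N : ℝ) * t)) from rfl] at h5 ⊢
  linarith

end BgP

/-- row BG -/
theorem bgs (hL : ∀ (M : Type) [MetricSpace M], LoopStmt M) {n : ℕ} {M : Type} [MetricSpace M]
    (G : GS M n) (N : ℕ) [NeZero N] : BGStmt G N where
  isOpen := by
    have : G.Gd N = ⋂ j, {x : ZMod N → M | dist (x j) (x (j + 1)) < G.ρ} := by
      ext x; simp [GS.Gd]
    rw [this]
    exact isOpen_iInter_of_finite fun j => isOpen_lt (by fun_prop) continuous_const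
  en_cont := by unfold En; fun_prop
  sub x hx j := by
    have h : dist (x j) (x (j + 1)) ^ 2 ≤ En x :=
      Finset.single_le_sum (f := fun j => dist (x j) (x (j + 1)) ^ 2) (fun _ _ => sq_nonneg _)
        (Finset.mem_univ j)
    exact lt_of_pow_lt_pow_left₀ 2 G.g0.pos.le (h.trans_lt hx)
  cont := BgP.cont G
  per := BgP.per G
  vert _ hx := BgP.vert G hx
  smp_bg _ hx := BgP.smp_bg G hx
  len_le _ hx := BgP.len_le G hx
  sum_le := BgP.sum_le
  rot_cont := by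
    refine continuousOn_pi.2 fun j => ?_
    exact (BgP.cont G).comp (f := fun q : ℝ × (ZMod N → M) => (q.2, (j.val : ℝ) / N + q.1))
      (by fun_prop) fun q hq => ⟨hq.2, trivial⟩
  rot_mem s _ hx := BgP.rot_mem G s hx
  rot_zero x hx := by
    simp only [GS.rot, add_zero]
    exact BgP.smp_bg G hx
  rot_le s _ hx := BgP.rot_le G s hx
  birk s h0 h1 _ hx h := BgP.birk G s h0 h1 hx h
  geo := BgP.geo G
  near := BgP.near G (hL M)
  toL_cont := (hL M).mk_cont _ G.bg _ ((BgP.cont G).mono (prod_mono_right (subset_univ _)))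
    fun x _ => by simpa using (BgP.per G x 0).symm
  crv_toL _ hx := BgP.crv_toL G (hL M) hx

end Pool.Agent.MP_af6f1c_gt.Geo

end
end MrgPart0

-- ======== part 1: formerly Pool.Agent.MP_af6f1c_gt.geo.Cell
section MrgPart1

/-! PROJECT GEO, row CELL: cells bound the homology of a pair of complexes. -/

set_option linter.unusedSectionVars false

open Set Topology Module

noncomputable section

namespace Pool.Agent.MP_af6f1c_gt.Geo

namespace CellP

variable {K : Type} [Field K] {J V : Type} [Fintype J] [Fintype V]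

lemma rp_zero {X : Type} [TopologicalSpace X] {n r : ℕ} {S A S' A' : Set X} (h : S ⊆ A') :
    RP K n S A S' A' r :=
  Rk.of_le (Zr_le_In.trans ((In_mono h).trans In_le_Br)) r

lemma Pl_mono {𝒮 𝒮' : Set (J → Finset V)} (h : 𝒮' ⊆ 𝒮) : Pl 𝒮' ⊆ Pl 𝒮 :=
  fun _ ⟨h1, h2, S, hS, h3⟩ => ⟨h1, h2, S, h hS, h3⟩

open Classical in
/-- the support of a point -/
def sp (x : J → V → ℝ) : J → Finset V := fun j => Finset.univ.filter fun v => x j v ≠ 0

lemma mem_sp {x : J → V → ℝ} {j : J} {v : V} : v ∈ sp x j ↔ x j v ≠ 0 := by simp [sp]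

lemma mem_Pl {𝒮 : Set (J → Finset V)} {x : J → V → ℝ} :
    x ∈ Pl 𝒮 ↔ (∀ j v, 0 ≤ x j v) ∧ (∀ j, ∑ v, x j v = 1) ∧ sp x ∈ 𝒮 := by
  refine ⟨fun ⟨h1, h2, S, hS, h3⟩ => ⟨h1, h2, ?_⟩,
    fun ⟨h1, h2, h3⟩ => ⟨h1, h2, _, h3, fun j v => mem_sp.symm⟩⟩
  have : sp x = S := funext fun j => Finset.ext fun v => mem_sp.trans (h3 j v)
  rwa [this]

lemma mem_Pl_of {𝒮 : Set (J → Finset V)} (hD : Dn 𝒮) {x y : J → V → ℝ} (hx : x ∈ Pl 𝒮)
    (h1 : ∀ j v, 0 ≤ y j v) (h2 : ∀ j, ∑ v, y j v = 1) (h3 : ∀ j v, x j v = 0 → y j v = 0) :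
    y ∈ Pl 𝒮 :=
  mem_Pl.2 ⟨h1, h2, hD _ (mem_Pl.1 hx).2.2 _ fun j v hv =>
    mem_sp.2 fun h => mem_sp.1 hv (h3 j v h)⟩

/-- the depth of a point in the cell `S` -/
lemma exists_depth (S : J → Finset V) : ∃ m : (J → V → ℝ) → ℝ, Continuous m ∧ (∀ x, m x ≤ 1) ∧
    (∀ x j, ∀ v ∈ S j, m x ≤ (S j).card * x j v) ∧
    ∀ x, m x = 1 ∨ ∃ j, ∃ v ∈ S j, m x = (S j).card * x j v := by
  classical
  let φ : Option (J × V) → (J → V → ℝ) → ℝ := fun i x =>
    match i with
    | none => 1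
    | some q => if q.2 ∈ S q.1 then (S q.1).card * x q.1 q.2 else 1
  have hφ : ∀ i, Continuous (φ i) := by
    rintro (_ | q)
    · exact continuous_const
    · by_cases h : q.2 ∈ S q.1
      · simp only [φ, if_pos h]
        fun_prop
      · simp only [φ, if_neg h]
        exact continuous_const
  refine ⟨fun x => Finset.univ.inf' ⟨none, Finset.mem_univ _⟩ fun i => φ i x,
    Continuous.finset_inf'_apply _ fun i _ => hφ i,
    fun x => Finset.inf'_le (fun i => φ i x) (Finset.mem_univ none), fun x j v hv => ?_,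
    fun x => ?_⟩
  · refine (Finset.inf'_le (fun i => φ i x) (Finset.mem_univ (some (j, v)))).trans_eq ?_
    simp only [φ, if_pos hv]
  · obtain ⟨i, -, hi⟩ := Finset.exists_mem_eq_inf' (s := Finset.univ) ⟨none, Finset.mem_univ _⟩
      fun i => φ i x
    rcases i with _ | q
    · exact Or.inl hi
    · by_cases h : q.2 ∈ S q.1
      · exact Or.inr ⟨q.1, q.2, h, hi.trans (by simp only [φ, if_pos h])⟩
      · exact Or.inl (hi.trans (by simp only [φ, if_neg h]))

/-- the centre of the cell `S` -/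
lemma exists_centre (S : J → Finset V) (hS : ∀ j, (S j).Nonempty) : ∃ b : J → V → ℝ,
    (∀ j, ∀ v ∈ S j, (S j).card * b j v = 1) ∧ (∀ j v, v ∉ S j → b j v = 0) ∧
    (∀ j v, 0 ≤ b j v) ∧ ∀ j, ∑ v, b j v = 1 := by
  classical
  have hc : ∀ j, ((S j).card : ℝ) ≠ 0 := fun j => Nat.cast_ne_zero.2 (hS j).card_pos.ne'
  refine ⟨fun j v => if v ∈ S j then ((S j).card : ℝ)⁻¹ else 0, fun j v hv => ?_,
    fun j v hv => if_neg hv, fun j v => ?_, fun j => ?_⟩
  · simp only [if_pos hv, mul_inv_cancel₀ (hc j)]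
  · dsimp only
    split_ifs <;> positivity
  · rw [Finset.sum_ite_mem, Finset.univ_inter, Finset.sum_const, nsmul_eq_mul,
      mul_inv_cancel₀ (hc j)]

/-- coordinates on the directions of the cell `S` -/
lemma exists_coord (S : J → Finset V) (hS : ∀ j, (S j).Nonempty) :
    ∃ (E : Type) (_ : NormedAddCommGroup E) (_ : NormedSpace ℝ E) (_ : FiniteDimensional ℝ E)
      (ρ : (J → V → ℝ) → E) (ι : E → J → V → ℝ), finrank ℝ E = cdim S ∧ Continuous ρ ∧
      Continuous ι ∧ ι 0 = 0 ∧ (∀ e, ι e = 0 → e = 0) ∧ (∀ e j v, v ∉ S j → ι e j v = 0) ∧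
      (∀ e j, ∑ v, ι e j v = 0) ∧
      ∀ y : J → V → ℝ, (∀ j v, v ∉ S j → y j v = 0) → (∀ j, ∑ v, y j v = 0) → ι (ρ y) = y := by
  classical
  choose w hw using hS
  let ι : ((j : J) → ↥((S j).erase (w j)) → ℝ) → J → V → ℝ := fun e j v =>
    if h : v ∈ (S j).erase (w j) then e j ⟨v, h⟩ else if v = w j then -∑ u, e j u else 0
  have key : ∀ (j : J) (y : V → ℝ), (∀ v, v ∉ S j → y v = 0) →
      ∑ v, y v = y (w j) + ∑ u : ↥((S j).erase (w j)), y u := by
    intro j y hy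
    rw [Finset.sum_coe_sort ((S j).erase (w j)) y, Finset.add_sum_erase _ _ (hw j)]
    exact (Finset.sum_subset (Finset.subset_univ _) fun v _ hv => hy v hv).symm
  have h0 : ∀ e j v, v ∉ S j → ι e j v = 0 := by
    intro e j v hv
    simp only [ι]
    rw [dif_neg fun h => hv (Finset.mem_of_mem_erase h), if_neg fun (h : v = w j) => hv (h ▸ hw j)]
  have h1 : ∀ e j (u : ↥((S j).erase (w j))), ι e j u = e j u := fun e j u => dif_pos u.2
  have h2 : ∀ e j, ι e j (w j) = -∑ u, e j u := by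
    intro e j
    simp only [ι]
    rw [dif_neg (Finset.notMem_erase _ _), if_pos trivial]
  refine ⟨(j : J) → ↥((S j).erase (w j)) → ℝ, inferInstance, inferInstance, inferInstance,
    fun y j u => y j u, ι, ?_, by fun_prop, ?_, ?_, fun e he => ?_, h0, fun e j => ?_,
    fun y hy hs => ?_⟩
  · rw [finrank_pi_fintype, cdim]
    refine Finset.sum_congr rfl fun j _ => ?_
    rw [finrank_fintype_fun_eq_card, Fintype.card_coe, Finset.card_erase_of_mem (hw j)]
  · refine continuous_pi fun j => continuous_pi fun v => ?_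
    simp only [ι]
    split_ifs <;> fun_prop
  · funext j v
    simp [ι]
  · funext j u
    rw [← h1 e j u, he]
    rfl
  · rw [key j _ (h0 e j), h2]
    simp only [h1, neg_add_cancel]
  · funext j v
    by_cases hv : v ∈ (S j).erase (w j)
    · exact h1 (fun j u => y j u) j ⟨v, hv⟩
    by_cases hv' : v = w j
    · have := key j _ (hy j)
      rw [hs j] at this
      rw [hv']
      exact (h2 (fun j u => y j u) j).trans (by linarith)
    · have hv'' : v ∉ S j := fun h => hv (Finset.mem_erase.2 ⟨hv', h⟩)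
      exact (h0 (fun j u => y j u) j v hv'').trans (hy j v hv'').symm

/-- the local homology of a vector space -/
lemma vec (T : Tools K) (h : SuspRkStmt K) (E : Type) [NormedAddCommGroup E] [NormedSpace ℝ E]
    [FiniteDimensional ℝ E] (i : ℕ) :
    RO K i (SO (∅ : Set Unit) E) ({()} ×ˢ univ) ({()} ×ˢ univ)
      (if finrank ℝ E = i then 1 else 0) := by
  obtain ⟨h1, h2⟩ := h Unit E ∅ {()} {()} isOpen_empty Subset.rfl
  obtain ⟨p0, p1⟩ := T.pt.1 Unit ()
  rcases lt_or_ge i (finrank ℝ E) with hi | hi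
  · rw [if_neg hi.ne']
    exact h2 i hi
  · obtain ⟨n, rfl⟩ := Nat.exists_eq_add_of_le' hi
    refine h1 n _ ?_
    rw [RO, inter_empty]
    cases n with
    | zero => rw [if_pos (Nat.zero_add _).symm]; exact p0
    | succ n => rw [if_neg (by omega)]; exact p1 n

/-- attaching one cell -/
lemma one (T : Tools K) (h : SuspRkStmt K) {𝒮 : Set (J → Finset V)} (hD : Dn 𝒮)
    {S : J → Finset V} (hS : S ∈ 𝒮) (hmax : ∀ S' ∈ 𝒮, (∀ j, S j ⊆ S' j) → S' = S) (i : ℕ) :
    RP K i (Pl 𝒮) (Pl (𝒮 \ {S})) (Pl 𝒮) (Pl (𝒮 \ {S})) (if cdim S = i then 1 else 0) := by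
  by_cases hne : ∀ j, (S j).Nonempty
  swap
  · refine rp_zero fun x hx => ?_
    obtain ⟨h1, h2, h3⟩ := mem_Pl.1 hx
    refine mem_Pl.2 ⟨h1, h2, h3, fun he => hne fun j => ?_⟩
    obtain ⟨v, -, hv⟩ := Finset.exists_ne_zero_of_sum_ne_zero ((h2 j).trans_ne one_ne_zero)
    exact ⟨v, (show sp x = S from he) ▸ mem_sp.2 hv⟩
  obtain ⟨m, mc, m1, mle, meq⟩ := exists_depth S
  obtain ⟨b, b1, b0, bn, bs⟩ := exists_centre S hne
  obtain ⟨E, _, _, _, ρ, ι, hE, ρc, ιc, ι0, ιi, ιs, ιt, ιρ⟩ := exists_coord S hne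
  have hc : ∀ j, (0 : ℝ) < (S j).card := fun j => Nat.cast_pos.2 (hne j).card_pos
  have m0 : ∀ x ∈ Pl 𝒮, 0 ≤ m x := by
    intro x hx
    rcases meq x with h | ⟨j, v, -, h⟩ <;> rw [h]
    · exact zero_le_one
    · exact mul_nonneg (hc j).le (hx.1 j v)
  have mpos : ∀ x, 0 < m x → ∀ j, ∀ v ∈ S j, x j v ≠ 0 := by
    intro x hm j v hv h0
    have := mle x j v hv
    rw [h0, mul_zero] at this
    linarith
  have msp : ∀ x ∈ Pl 𝒮, 0 < m x → sp x = S := fun x hx hm =>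
    hmax _ (mem_Pl.1 hx).2.2 fun j v hv => mem_sp.2 (mpos x hm j v hv)
  have mout : ∀ x ∈ Pl 𝒮, 0 < m x → ∀ j v, v ∉ S j → x j v = 0 := by
    intro x hx hm j v hv
    by_contra h0
    exact hv (msp x hx hm ▸ mem_sp.2 h0)
  have hA : Pl (𝒮 \ {S}) ⊆ Pl 𝒮 := Pl_mono sdiff_subset
  have mA : ∀ x ∈ Pl (𝒮 \ {S}), m x = 0 := fun x hx =>
    ((m0 x (hA hx)).eq_or_lt.resolve_right fun hm =>
      (mem_Pl.1 hx).2.2.2 (msp x (hA hx) hm)).symm
  have mb : m b = 1 := by
    rcases meq b with h | ⟨j, v, hv, h⟩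
    · exact h
    · rw [h, b1 j v hv]
  have ble : ∀ x ∈ Pl 𝒮, ∀ j v, m x * b j v ≤ x j v := by
    intro x hx j v
    by_cases hv : v ∈ S j
    · have := mul_le_mul_of_nonneg_right (mle x j v hv) (bn j v)
      rwa [mul_right_comm, b1 j v hv, one_mul] at this
    · rw [b0 j v hv, mul_zero]
      exact hx.1 j v
  have mlt : ∀ x ∈ Pl 𝒮 \ {b}, m x < 1 := by
    intro x hx
    refine (m1 x).lt_of_ne fun h1 => hx.2 (funext fun j => funext fun v => ?_)
    have h2 : ∀ v ∈ (Finset.univ : Finset V), b j v ≤ x j v := fun v _ => by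
      simpa [h1] using ble x hx.1 j v
    exact ((Finset.sum_eq_sum_iff_of_le h2).1 ((bs j).trans (hx.1.2.1 j).symm) v
      (Finset.mem_univ v)).symm
  have hbS : b ∈ Pl 𝒮 := ⟨bn, bs, S, hS, fun j v => ⟨fun h => by_contra fun hv => h (b0 j v hv),
    mpos b (mb ▸ one_pos) j v⟩⟩
  have hAb : Pl (𝒮 \ {S}) ⊆ Pl 𝒮 \ {b} := fun x hx => ⟨hA hx, fun (h : x = b) => by
    have := mA x hx
    rw [h, mb] at this
    exact one_ne_zero this⟩
  have step1 : RP K i (Pl 𝒮 \ {b}) (Pl (𝒮 \ {S})) (Pl 𝒮) (Pl (𝒮 \ {S})) 0 := by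
    let H : ℝ × (J → V → ℝ) → J → V → ℝ := fun q j v =>
      (q.2 j v - q.1 * m q.2 * b j v) / (1 - q.1 * m q.2)
    have hd : ∀ u ∈ Icc (0 : ℝ) 1, ∀ x ∈ Pl 𝒮 \ {b}, 0 < 1 - u * m x := fun u hu x hx => by
      nlinarith [mlt x hx, m0 x hx.1, hu.1, hu.2]
    have Hc : ContinuousOn H (Icc 0 1 ×ˢ (Pl 𝒮 \ {b})) :=
      continuousOn_pi.2 fun j => continuousOn_pi.2 fun v =>
        ContinuousOn.div (by fun_prop) (by fun_prop) fun q hq => (hd q.1 hq.1 q.2 hq.2).ne'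
    have Hm : MapsTo H (Icc 0 1 ×ˢ (Pl 𝒮 \ {b})) (Pl 𝒮) := by
      rintro ⟨u, x⟩ ⟨hu, hx⟩
      have h1 := hd u hu x hx
      have h2 : ∀ j v, u * m x * b j v ≤ x j v := fun j v => by
        nlinarith [ble x hx.1 j v, mul_nonneg (m0 x hx.1) (bn j v), hu.1, hu.2]
      refine mem_Pl_of hD hx.1 (fun j v => div_nonneg (sub_nonneg.2 (h2 j v)) h1.le)
        (fun j => ?_) fun j v h0 => ?_
      · simp only [H]
        rw [← Finset.sum_div, Finset.sum_sub_distrib, ← Finset.mul_sum, hx.1.2.1 j, bs j, mul_one,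
          div_self h1.ne']
      · have h3 := h2 j v
        have h4 : 0 ≤ u * m x * b j v := mul_nonneg (mul_nonneg hu.1 (m0 x hx.1)) (bn j v)
        have h0 : x j v = 0 := h0
        simp only [H]
        rw [show x j v - u * m x * b j v = 0 by linarith, zero_div]
    have H1 : MapsTo (fun x => H (1, x)) (Pl 𝒮 \ {b}) (Pl (𝒮 \ {S})) := by
      intro x hx
      obtain ⟨h1, h2, h3⟩ := mem_Pl.1 (Hm (show (1, x) ∈ _ from ⟨⟨zero_le_one, le_rfl⟩, hx⟩))
      refine mem_Pl.2 ⟨h1, h2, h3, fun he => ?_⟩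
      obtain ⟨j, v, hv, h⟩ := (meq x).resolve_left (mlt x hx).ne
      refine mem_sp.1 ((show sp (H (1, x)) = S from he).symm ▸ hv) ?_
      simp only [H]
      rw [one_mul, h, mul_right_comm, b1 j v hv, one_mul, sub_self, zero_div]
    refine T.pt.2 _ _ (fun x => H (1, x)) id H _ _ _ _ _ _ _ _ i 0 hAb Subset.rfl
      (Hc.comp (by fun_prop) fun x hx => ⟨⟨zero_le_one, le_rfl⟩, hx⟩) continuousOn_id H1
      (H1.mono_left hAb) hA (mapsTo_id _) Hc (fun x _ => ?_) (fun _ _ => rfl) Hm ?_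
      (rp_zero Subset.rfl)
    · funext j v
      simp [H]
    · rintro ⟨u, x⟩ ⟨-, hx⟩
      have : H (u, x) = x := by
        funext j v
        simp [H, mA x hx]
      rwa [this]
  have step3 : RP K i (Pl 𝒮 ∩ {x | 0 < m x}) ((Pl 𝒮 \ {b}) ∩ {x | 0 < m x}) (Pl 𝒮) (Pl 𝒮 \ {b})
      (if cdim S = i then 1 else 0) := by
    obtain ⟨ε, ε0, ε1, εb⟩ : ∃ ε : ℝ, 0 < ε ∧ ε ≤ 1 ∧ ∀ j, ∀ v ∈ S j, ε ≤ b j v := by
      have h1 : (0 : ℝ) < Fintype.card V + 1 := by positivity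
      refine ⟨(Fintype.card V + 1 : ℝ)⁻¹, inv_pos.2 h1, inv_le_one_of_one_le₀ (by simp),
        fun j v hv => ?_⟩
      have h2 : ((S j).card : ℝ) ≤ Fintype.card V := Nat.cast_le.2 (Finset.card_le_univ _)
      rw [inv_le_iff_one_le_mul₀ h1]
      nlinarith [b1 j v hv, bn j v]
    let t : (J → V → ℝ) → ℝ := fun y => ε / (1 + ‖y‖)
    have tc : Continuous t := continuous_const.div (by fun_prop) fun y => by positivity
    have t0 : ∀ y, 0 < t y := fun y => by positivity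
    have t1 : ∀ y, t y ≤ 1 := fun y => by
      rw [div_le_one (by positivity)]
      linarith [norm_nonneg y]
    have t2 : ∀ y j v, -ε ≤ t y * y j v := fun y j v => by
      have h1 : -‖y‖ ≤ y j v :=
        (abs_le.1 ((norm_le_pi_norm (y j) v).trans (norm_le_pi_norm y j))).1
      have h2 : t y * (1 + ‖y‖) = ε := div_mul_cancel₀ _ (by positivity)
      nlinarith [t0 y]
    have inv : ∀ x ∈ Pl 𝒮 ∩ {x | 0 < m x}, ι (ρ (x - b)) = x - b := fun x hx =>
      ιρ _ (fun j v hv => by simp [mout x hx.1 hx.2 j v hv, b0 j v hv]) fun j => by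
        simp [Finset.sum_sub_distrib, hx.1.2.1 j, bs j]
    let H : ℝ × (J → V → ℝ) → J → V → ℝ := fun q =>
      b + (1 - q.1 + q.1 * t (q.2 - b)) • (q.2 - b)
    have s0 : ∀ u ∈ Icc (0 : ℝ) 1, ∀ y, 0 < 1 - u + u * t y ∧ 1 - u + u * t y ≤ 1 := by
      intro u hu y
      refine ⟨?_, by nlinarith [t1 y, hu.1]⟩
      nlinarith [t0 y, t1 y, hu.1, hu.2, mul_nonneg (sub_nonneg.2 hu.2) (sub_nonneg.2 (t1 y))]
    have Hm : MapsTo H (Icc 0 1 ×ˢ (Pl 𝒮 ∩ {x | 0 < m x})) (Pl 𝒮) := by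
      rintro ⟨u, x⟩ ⟨hu, hx⟩
      obtain ⟨k0, k1⟩ := s0 u hu (x - b)
      refine mem_Pl_of hD hbS (fun j v => ?_) (fun j => ?_) fun j v h0 => ?_
      · show 0 ≤ b j v + (1 - u + u * t (x - b)) * (x j v - b j v)
        nlinarith [mul_nonneg k0.le (hx.1.1 j v), mul_nonneg (sub_nonneg.2 k1) (bn j v)]
      · show ∑ v, (b j v + (1 - u + u * t (x - b)) * (x j v - b j v)) = 1
        rw [Finset.sum_add_distrib, ← Finset.mul_sum, Finset.sum_sub_distrib, hx.1.2.1 j, bs j,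
          sub_self, mul_zero, add_zero]
      · show b j v + (1 - u + u * t (x - b)) * (x j v - b j v) = 0
        rw [mout x hx.1 hx.2 j v fun hv => mpos b (mb ▸ one_pos) j v hv h0, h0, sub_self,
          mul_zero, add_zero]
    have Gm : ∀ e, b + t (ι e) • ι e ∈ Pl 𝒮 := by
      intro e
      refine mem_Pl_of hD hbS (fun j v => ?_) (fun j => ?_) fun j v h0 => ?_
      · show 0 ≤ b j v + t (ι e) * ι e j v
        by_cases hv : v ∈ S j
        · linarith [t2 (ι e) j v, εb j v hv]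
        · rw [ιs e j v hv, mul_zero, add_zero]
          exact bn j v
      · show ∑ v, (b j v + t (ι e) * ι e j v) = 1
        rw [Finset.sum_add_distrib, ← Finset.mul_sum, ιt, bs j, mul_zero, add_zero]
      · show b j v + t (ι e) * ι e j v = 0
        rw [ιs e j v fun hv => mpos b (mb ▸ one_pos) j v hv h0, h0, mul_zero, add_zero]
    refine T.pt.2 _ (Unit × E) (fun x => ((), ρ (x - b))) (fun p => b + t (ι p.2) • ι p.2) H
      _ _ _ _ ({()} ×ˢ univ) _ ({()} ×ˢ univ) _ i _ (inter_subset_inter_left _ sdiff_subset) inter_subset_left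
      (by fun_prop) (by fun_prop) (fun _ _ => ⟨rfl, trivial⟩) (fun x hx => ?_)
      (fun p _ => Gm p.2) (fun p hp => ⟨Gm p.2, fun h0 => ?_⟩) (by fun_prop) (fun x _ => ?_)
      (fun x hx => ?_) Hm ?_ (hE ▸ vec T h E i)
    · refine ⟨⟨rfl, trivial⟩, Or.inr fun (h0 : ρ (x - b) = 0) => hx.1.2 ?_⟩
      have := inv x ⟨hx.1.1, hx.2⟩
      rw [h0, ι0] at this
      exact sub_eq_zero.1 this.symm
    · have h1 : t (ι p.2) • ι p.2 = 0 := add_eq_left.1 h0
      exact hp.2.elim id fun h2 => h2 (ιi _ ((smul_eq_zero.1 h1).resolve_left (t0 _).ne'))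
    · simp [H]
    · simp only [H]
      rw [inv x hx, sub_self, zero_add, one_mul]
    · rintro ⟨u, x⟩ ⟨hu, hx⟩
      refine ⟨Hm ⟨hu, hx.1.1, hx.2⟩, fun h0 => hx.1.2 ?_⟩
      have h1 : (1 - u + u * t (x - b)) • (x - b) = 0 := add_eq_left.1 h0
      exact sub_eq_zero.1 ((smul_eq_zero.1 h1).resolve_left (s0 u hu _).1.ne')
  have step2 : RP K i (Pl 𝒮) (Pl 𝒮 \ {b}) (Pl 𝒮) (Pl 𝒮 \ {b}) (if cdim S = i then 1 else 0) := by
    refine Rk.of_le_sup step3 (T.exc _ (Pl 𝒮) (Pl 𝒮 \ {b}) {x | 0 < m x} {b}ᶜ i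
      (isOpen_lt continuous_const mc) isOpen_compl_singleton (fun x _ => ?_) Subset.rfl
      sdiff_subset).1
    by_cases hx : x = b
    · exact Or.inl (show 0 < m x by rw [hx, mb]; exact one_pos)
    · exact Or.inr hx
  exact T.tri _ _ _ _ _ _ _ _ _ i _ 0 hAb Subset.rfl Subset.rfl step2 step1

end CellP

open CellP in
theorem cell (K : Type) [Field K] (T : Tools K) (h : SuspRkStmt K) : CellStmt K := by
  intro J V _ _ 𝒮 𝒮' hD hD' hs i
  suffices H : ∀ (n : ℕ) (𝒯 : Set (J → Finset V)), Dn 𝒯 → 𝒮' ⊆ 𝒯 → 𝒯 ⊆ 𝒮 → (𝒯 \ 𝒮').ncard = n →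
      RP K i (Pl 𝒯) (Pl 𝒮') (Pl 𝒮) (Pl 𝒮') {S | S ∈ 𝒯 \ 𝒮' ∧ cdim S = i}.ncard from
    H _ 𝒮 hD hs Subset.rfl rfl
  intro n
  induction n with
  | zero =>
    intro 𝒯 _ _ _ h0
    exact rp_zero (Pl_mono (sdiff_eq_empty.1 ((ncard_eq_zero (toFinite _)).1 h0)))
  | succ n ih =>
    intro 𝒯 hT h1 h2 hn
    obtain ⟨S, hS⟩ := (toFinite (𝒯 \ 𝒮')).exists_maximal (nonempty_of_ncard_ne_zero (by omega))
    have hmax : ∀ S' ∈ 𝒯, (∀ j, S j ⊆ S' j) → S' = S := fun S' h3 h4 =>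
      (hS.eq_of_le ⟨h3, fun h5 => hS.1.2 (hD' S' h5 S h4)⟩ h4).symm
    have h3 : 𝒮' ⊆ 𝒯 \ {S} := fun S' h4 => ⟨h1 h4, fun (h5 : S' = S) => hS.1.2 (h5 ▸ h4)⟩
    have h4 : (𝒯 \ {S}) \ 𝒮' = (𝒯 \ 𝒮') \ {S} := Set.sdiff_sdiff_comm
    have h5 := ih (𝒯 \ {S}) (fun S' h5 S'' h6 => ⟨hT S' h5.1 S'' h6, fun (h7 : S'' = S) =>
      h5.2 (hmax S' h5.1 (h7 ▸ h6))⟩) h3 (sdiff_subset.trans h2)
      (by rw [h4, ncard_sdiff_singleton_of_mem hS.1, hn]; rfl)
    refine (T.tri _ _ _ _ _ _ _ _ _ i _ _ (Pl_mono h3) Subset.rfl (Pl_mono h2)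
      (one T h hT hS.1.1 hmax i) h5).mono Subset.rfl Subset.rfl Subset.rfl Subset.rfl ?_
    split_ifs with h6
    · exact (Nat.add_comm _ _).trans_le (ncard_lt_ncard ⟨fun S' h7 => ⟨⟨h7.1.1.1, h7.1.2⟩, h7.2⟩,
        fun h7 => (h7 (show S ∈ _ from ⟨hS.1, h6⟩)).1.1.2 rfl⟩ (toFinite _))
    · rw [Nat.zero_add]
      exact ncard_le_ncard (fun S' h7 => ⟨⟨h7.1.1.1, h7.1.2⟩, h7.2⟩) (toFinite _)

end Pool.Agent.MP_af6f1c_gt.Geo

end
end MrgPart1

-- ======== part 2: formerly Pool.Agent.MP_af6f1c_gt.geo.Chart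
section MrgPart2

/-! PROJECT GEO, row CHART: the energy near the iterates of a closed geodesic, in coordinates. -/

open Set Topology Filter

noncomputable section

namespace Pool.Agent.MP_af6f1c_gt.Geo

namespace ChartP

section calculus

variable {X E : Type} [NormedAddCommGroup X] [NormedSpace ℝ X] [NormedAddCommGroup E]
  [NormedSpace ℝ E]

theorem D2_shift (f : E → ℝ) (a : E) : D2 (fun w => f (w + a)) 0 = D2 f a := by
  have e : fderiv ℝ (fun w => f (w + a)) = fun w => fderiv ℝ f (w + a) :=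
    funext fun w => fderiv_comp_add_right a
  unfold D2
  rw [e, fderiv_comp_add_right, zero_add]

theorem D2_sum {ι : Type} [Fintype ι] (f : ι → E → ℝ) (L : ι → X →L[ℝ] E)
    (hf : ∀ j, ContDiffAt ℝ 2 (f j) 0) (ξ η : X) :
    D2 (fun x => ∑ j, f j (L j x)) 0 ξ η = ∑ j, D2 (f j) 0 (L j ξ) (L j η) := by
  let T : ι → (E →L[ℝ] ℝ) →L[ℝ] (X →L[ℝ] ℝ) := fun j =>
    (ContinuousLinearMap.compL ℝ X E ℝ).flip (L j)
  have h1 : ∀ᶠ x in 𝓝 (0 : X), ∀ j, DifferentiableAt ℝ (f j) (L j x) := by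
    refine eventually_all.2 fun j => ?_
    have h : ∀ᶠ y in 𝓝 (0 : E), DifferentiableAt ℝ (f j) y :=
      ((hf j).eventually (by simp)).mono fun y hy => hy.differentiableAt (by simp)
    have t : Tendsto (L j) (𝓝 0) (𝓝 0) := by
      simpa using (L j).continuous.tendsto 0
    exact t.eventually h
  have h2 : fderiv ℝ (fun x => ∑ j, f j (L j x)) =ᶠ[𝓝 0]
      fun x => ∑ j, T j (fderiv ℝ (f j) (L j x)) := by
    refine h1.mono fun x hx => ?_
    exact (HasFDerivAt.fun_sum (u := Finset.univ) fun j _ =>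
      (hx j).hasFDerivAt.comp x (L j).hasFDerivAt).fderiv
  have h3 : HasFDerivAt (fun x => ∑ j, T j (fderiv ℝ (f j) (L j x)))
      (∑ j, (T j).comp ((D2 (f j) 0).comp (L j))) 0 := by
    refine HasFDerivAt.fun_sum fun j _ => ?_
    have h : HasFDerivAt (fderiv ℝ (f j)) (D2 (f j) 0) (L j 0) := by
      rw [map_zero]
      exact (((hf j).fderiv_right (m := 1) (by norm_num)).differentiableAt (by simp)).hasFDerivAt
    exact (T j).hasFDerivAt.comp 0 (h.comp 0 (L j).hasFDerivAt)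
  unfold D2
  rw [h2.fderiv_eq, h3.fderiv]
  simp [T]

end calculus

theorem lp_of {K : Type} [Field K] (T : Tools K) {X Y : Type} [TopologicalSpace X]
    [TopologicalSpace Y] {f : X → Y} {g : Y → X} {x₀ : X} {y₀ : Y} {O W : Set X} {O' W' : Set Y}
    (hW : W ∈ 𝓝 x₀) (hW' : W' ∈ 𝓝 y₀) (hf : ContinuousOn f W) (hg : ContinuousOn g W')
    (h1 : f x₀ = y₀) (h2 : g y₀ = x₀) (h3 : MapsTo f (W ∩ O) O') (h4 : MapsTo g (W' ∩ O') O)
    (h5 : ∀ x ∈ W, g (f x) = x) {n r : ℕ} (h : Lp K n O' y₀ r) : Lp K n O x₀ r :=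
  T.dom X Y f g Prod.snd x₀ y₀ O W O' W' n r hW hW' hf hg h1 h2 h3 h4 continuous_snd.continuousOn
    (fun _ _ => rfl) (fun x hx => (h5 x hx).symm) (fun _ _ => rfl) (fun _ hq => hq.2.2) h

variable {M : Type} [MetricSpace M]

/-- Moving one vertex of an evenly spaced straight polygon does not lower the energy. -/
theorem en_le {N : ℕ} [NeZero N] (h10 : (1 : ZMod N) ≠ 0) {x₀ x : ZMod N → M} {a : ℝ}
    (h1 : ∀ i, dist (x₀ i) (x₀ (i + 1)) = a) (h2 : ∀ i, dist (x₀ i) (x₀ (i + 1 + 1)) = 2 * a)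
    (j : ZMod N) (hx : ∀ i, i ≠ j → x i = x₀ i) : En x₀ ≤ En x := by
  obtain ⟨i, rfl⟩ : ∃ i, j = i + 1 := ⟨j - 1, by ring⟩
  have n1 : ∀ l : ZMod N, l ≠ l + 1 := fun l h => h10 (by linear_combination -h)
  have e : ∑ l, (dist (x l) (x (l + 1)) ^ 2 - dist (x₀ l) (x₀ (l + 1)) ^ 2) =
      (dist (x i) (x (i + 1)) ^ 2 - dist (x₀ i) (x₀ (i + 1)) ^ 2) +
      (dist (x (i + 1)) (x (i + 1 + 1)) ^ 2 - dist (x₀ (i + 1)) (x₀ (i + 1 + 1)) ^ 2) := by
    refine Finset.sum_eq_add_of_mem i (i + 1) (Finset.mem_univ _) (Finset.mem_univ _) (n1 i) ?_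
    rintro l - ⟨a1, a2⟩
    rw [hx l a2, hx (l + 1) fun h => a1 (add_right_cancel h), sub_self]
  rw [Finset.sum_sub_distrib, h1, h1, hx i (n1 i), hx (i + 1 + 1) (n1 _).symm] at e
  have t := dist_triangle (x₀ i) (x (i + 1)) (x₀ (i + 1 + 1))
  rw [h2] at t
  have a0 : 0 ≤ a := h1 i ▸ dist_nonneg
  unfold En
  nlinarith [sq_nonneg (dist (x₀ i) (x (i + 1)) - dist (x (i + 1)) (x₀ (i + 1 + 1))),
    mul_self_le_mul_self (by positivity : 0 ≤ 2 * a) t]

end ChartP

open ChartP in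
theorem chart (K : Type) [Field K] (_hB : Basics) (T : Tools K) : ChartStmt K := by
  intro n M _ G γ c k hγ hk hρ
  obtain ⟨-, hper, hc, hloc⟩ := hγ
  have hk0 : (0 : ℝ) < k := by exact_mod_cast (by omega : 0 < k)
  let p : ℕ → M := fun j => γ (j / k)
  have hp : ∀ j l, p (j + k * l) = p j := by
    intro j l
    have e : ((j + k * l : ℕ) : ℝ) / k = j / k + l * 1 := by
      push_cast
      field_simp
    simp only [p, e]
    exact hper.nat_mul l _
  have hd : ∀ j a : ℕ, a ≤ 2 → dist (p j) (p (j + a)) = a * (c / k) := by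
    intro j a ha
    have ha' : (a : ℝ) ≤ 2 := by exact_mod_cast ha
    have e : c * |(j : ℝ) / k - ((j + a : ℕ) : ℝ) / k| = a * (c / k) := by
      rw [abs_sub_comm, ← sub_div, abs_of_nonneg (by push_cast; rw [add_sub_cancel_left]; positivity)]
      push_cast
      ring
    simp only [p]
    rw [G.locmin γ c hc.le hloc _ _ ?_, e]
    rw [e]
    calc a * (c / k) ≤ 2 * (c / k) := by gcongr
      _ = 2 * c / k := by ring
      _ < G.ρ := hρ
  have hd1 : ∀ j, dist (p j) (p (j + 1)) < G.ρ := by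
    intro j
    rw [hd j 1 (by norm_num)]
    have : 0 < c / k := by positivity
    have e : 2 * c / k = 2 * (c / k) := by ring
    push_cast
    linarith
  let S : ℕ → Eu n × Eu n → ℝ := fun j w =>
    sqd (G.ch (p j)) (G.ch (p (j + 1))) (w + (G.ch (p j) (p j), G.ch (p (j + 1)) (p (j + 1))))
  have hS : ∀ j, ContDiffAt ℝ 2 (S j) 0 := by
    intro j
    have h := G.g0.smooth _ _ (hd1 j)
    rw [← zero_add (G.ch (p j) (p j), G.ch (p (j + 1)) (p (j + 1)))] at h
    exact h.comp 0 (contDiffAt_id.add contDiffAt_const)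
  refine ⟨S, fun j => ?_, hS, fun j => ?_, fun j a b => ?_, fun m N _ hN => ?_⟩
  · have a1 := hp j 1
    have a2 := hp (j + 1) 1
    rw [mul_one] at a1 a2
    simp only [S, add_right_comm j k 1, a1, a2]
  · simp only [S]
    rw [D2_shift]
    exact G.g0.twist _ _ (hd1 j)
  · exact ((hS j).isSymmSndFDerivAt (by simp)).eq a b
  have hm : (0 : ℝ) < m := by
    have : m ≠ 0 := fun h => NeZero.ne N (by rw [hN, h, mul_zero])
    exact_mod_cast Nat.pos_of_ne_zero this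
  have hN3 : 3 ≤ N := by
    have : 0 < m := by exact_mod_cast hm
    rw [hN]
    nlinarith
  let x₀ : ZMod N → M := fun j => p j.val
  have hx₀ : smp N (itr m γ) = x₀ := by
    funext j
    simp only [smp, itr, x₀, p]
    congr 1
    have : (N : ℝ) = k * m := by exact_mod_cast hN
    rw [this]
    field_simp
  have hxa : ∀ (j : ZMod N) (a : ℕ), x₀ (j + a) = p (j.val + a) := by
    intro j a
    have e : j + a = ((j.val + a : ℕ) : ZMod N) := by simp
    simp only [x₀]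
    rw [e, ZMod.val_natCast, ← hp _ (m * ((j.val + a) / N)), ← mul_assoc, ← hN, Nat.mod_add_div]
  have hx1 : ∀ j : ZMod N, p (j.val + 1) = x₀ (j + 1) := fun j => by simpa using (hxa j 1).symm
  let Φ : (ZMod N → Eu n) → ZMod N → M := fun ξ j => (G.ch (x₀ j)).symm (ξ j + G.ch (x₀ j) (x₀ j))
  let Ψ : (ZMod N → M) → ZMod N → Eu n := fun x j => G.ch (x₀ j) (x j) - G.ch (x₀ j) (x₀ j)
  have hAF : ∀ ξ, AF S N ξ = En (Φ ξ) := by
    intro ξ
    refine Finset.sum_congr rfl fun j _ => ?_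
    simp only [S, hx1]
    rfl
  have hΦj : ∀ ξ j, ξ j = 0 → Φ ξ j = x₀ j := by
    intro ξ j h
    simp only [Φ, h, zero_add]
    exact (G.ch _).left_inv (G.g0.mem _)
  have hΦ0 : Φ 0 = x₀ := funext fun j => hΦj 0 j rfl
  have e1 : ∀ j, dist (x₀ j) (x₀ (j + 1)) = c / k := by
    intro j
    rw [← hx1, hd _ 1 (by norm_num)]
    simp
  have e2 : ∀ j, dist (x₀ j) (x₀ (j + 1 + 1)) = 2 * (c / k) := by
    intro j
    have : j + 1 + 1 = j + ((2 : ℕ) : ZMod N) := by push_cast; ring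
    rw [this, hxa, hd _ 2 le_rfl]
    simp
  have hE : AF S N 0 = (m * c) ^ 2 / N := by
    rw [hAF, hΦ0]
    simp only [En, e1, Finset.sum_const, Finset.card_univ, ZMod.card, nsmul_eq_mul]
    have : (N : ℝ) = k * m := by exact_mod_cast hN
    rw [this]
    field_simp
  let L : ZMod N → (ZMod N → Eu n) →L[ℝ] Eu n × Eu n := fun j =>
    (ContinuousLinearMap.proj j).prod (ContinuousLinearMap.proj (j + 1))
  have hL : AF S N = fun ξ => ∑ j : ZMod N, S j.val (L j ξ) := rfl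
  have hC : ContDiffAt ℝ 2 (AF S N) 0 := by
    rw [hL]
    refine ContDiffAt.sum fun j _ => ?_
    have h := hS j.val
    rw [← map_zero (L j)] at h
    exact h.comp 0 (L j).contDiff.contDiffAt
  refine ⟨hC, ?_, fun ξ η => ?_, fun i r => ?_⟩
  · have h10 : (1 : ZMod N) ≠ 0 := by
      have : Fact (1 < N) := ⟨by omega⟩
      exact one_ne_zero
    refine ContinuousLinearMap.coe_injective (LinearMap.pi_ext fun j v => ?_)
    let I : Eu n →L[ℝ] (ZMod N → Eu n) := ContinuousLinearMap.single ℝ (fun _ => Eu n) j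
    have h1 : HasFDerivAt (AF S N) (fderiv ℝ (AF S N) 0) (I 0) := by
      rw [map_zero]
      exact (hC.differentiableAt (by simp)).hasFDerivAt
    have h2 : IsLocalMin (AF S N ∘ I) 0 := by
      refine Eventually.of_forall fun w => ?_
      simp only [Function.comp, map_zero]
      rw [hAF, hAF, hΦ0]
      exact en_le h10 e1 e2 j fun l hl => hΦj _ l (by simp [I, hl])
    exact DFunLike.congr_fun (h2.hasFDerivAt_eq_zero (h1.comp 0 I.hasFDerivAt)) v
  · rw [hL, D2_sum (fun j : ZMod N => S j.val) L fun j => hS j.val]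
    rfl
  let W : Set (ZMod N → Eu n) := {ξ | ∀ j, ξ j + G.ch (x₀ j) (x₀ j) ∈ (G.ch (x₀ j)).target}
  let W' : Set (ZMod N → M) := {x | ∀ j, x j ∈ (G.ch (x₀ j)).source}
  have hW : W ∈ 𝓝 0 := by
    refine eventually_all.2 fun j => ?_
    have h : Continuous fun ξ : ZMod N → Eu n => ξ j + G.ch (x₀ j) (x₀ j) := by fun_prop
    refine h.continuousAt.eventually_mem ((G.ch _).open_target.mem_nhds ?_)
    simpa using (G.ch _).map_source (G.g0.mem _)
  have hW' : W' ∈ 𝓝 x₀ := by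
    refine eventually_all.2 fun j => ?_
    exact (continuous_apply j).continuousAt.eventually_mem
      ((G.ch _).open_source.mem_nhds (G.g0.mem _))
  have cΦ : ContinuousOn Φ W := continuousOn_pi.2 fun j =>
    (G.ch (x₀ j)).continuousOn_symm.comp
      (f := fun ξ : ZMod N → Eu n => ξ j + G.ch (x₀ j) (x₀ j)) (by fun_prop) fun ξ h => h j
  have cΨ : ContinuousOn Ψ W' := continuousOn_pi.2 fun j =>
    ((G.ch (x₀ j)).continuousOn.comp (f := fun x : ZMod N → M => x j) (by fun_prop)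
      fun x (h : x ∈ W') => h j).sub continuousOn_const
  have hΨ0 : Ψ x₀ = 0 := funext fun j => sub_self _
  have i1 : ∀ ξ ∈ W, Ψ (Φ ξ) = ξ := fun ξ h => funext fun j => by
    simp only [Ψ, Φ]
    rw [(G.ch _).right_inv (h j), add_sub_cancel_right]
  have i2 : ∀ x ∈ W', Φ (Ψ x) = x := fun x h => funext fun j => by
    simp only [Ψ, Φ]
    rw [sub_add_cancel, (G.ch _).left_inv (h j)]
  have m1 : MapsTo Φ (W ∩ {ξ | AF S N ξ < AF S N 0}) (Sub M N (m * c)) := fun ξ h => by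
    have h2 : AF S N ξ < AF S N 0 := h.2
    rw [hE, hAF] at h2
    exact h2
  have m2 : MapsTo Ψ (W' ∩ Sub M N (m * c)) {ξ | AF S N ξ < AF S N 0} := fun x h => by
    show AF S N (Ψ x) < AF S N 0
    rw [hE, hAF, i2 x h.1]
    exact h.2
  rw [hx₀]
  exact ⟨lp_of T hW' hW cΨ cΦ hΨ0 hΦ0 m2 m1 i2, lp_of T hW hW' cΦ cΨ hΦ0 hΨ0 m1 m2 i1⟩

end Pool.Agent.MP_af6f1c_gt.Geo

end
end MrgPart2

-- ======== part 3: formerly Pool.Agent.MP_af6f1c_gt.geo.Grom
section MrgPart3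

/-! PROJECT GEO: the level of a class grows at most linearly with its degree. -/

set_option linter.unusedSectionVars false

open Set Topology Metric

noncomputable section

namespace Pool.Agent.MP_af6f1c_gt.Geo

namespace GromP

section lin

variable {k q : ℕ} {𝒩 : Set (Finset (Fin q))}

/-- piecewise linear interpolation of a cyclic sequence -/
def Lin (y : ZMod k → Fin q → ℝ) (τ : ℝ) : Fin q → ℝ := fun v =>
  (1 - Int.fract τ) * y (⌊τ⌋ : ℤ) v + Int.fract τ * y ((⌊τ⌋ : ℤ) + 1) v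

lemma lin_eq (y : ZMod k → Fin q → ℝ) (m : ℤ) {τ : ℝ} (h1 : (m : ℝ) ≤ τ) (h2 : τ ≤ m + 1)
    (v : Fin q) : Lin y τ v = (1 - (τ - m)) * y m v + (τ - m) * y (m + 1) v := by
  rcases h2.lt_or_eq with h | h
  · have e : ⌊τ⌋ = m := Int.floor_eq_iff.2 ⟨h1, h⟩
    rw [Lin, Int.fract, e]
  · have e : ⌊τ⌋ = m + 1 := by
      rw [h, ← Int.cast_one, ← Int.cast_add, Int.floor_intCast]
    rw [Lin, Int.fract, e, h]
    push_cast
    ring

lemma lin_per (y : ZMod k → Fin q → ℝ) (τ : ℝ) : Lin y (τ + k) = Lin y τ := by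
  funext v
  rw [Lin, Lin, Int.fract_add_natCast, Int.floor_add_natCast]
  simp

lemma lin_lip_le {y : ZMod k → Fin q → ℝ} (hy : ∀ j v, y j v ∈ Icc (0 : ℝ) 1) {s t : ℝ}
    (h : s ≤ t) (h' : t - s ≤ 1) (v : Fin q) : |Lin y s v - Lin y t v| ≤ t - s := by
  have h1 := Int.floor_le s
  have h2 := Int.lt_floor_add_one s
  set m := ⌊s⌋
  obtain ⟨a0, a1⟩ := hy m v
  obtain ⟨b0, b1⟩ := hy (m + 1) v
  rw [lin_eq y m h1 h2.le]
  by_cases ht : t ≤ m + 1
  · rw [lin_eq y m (h1.trans h) ht, abs_le]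
    constructor <;> nlinarith
  · push Not at ht
    have e := lin_eq y (m + 1) (τ := t) (by push_cast; linarith) (by push_cast; linarith) v
    push_cast at e
    obtain ⟨c0, c1⟩ := hy (m + 1 + 1) v
    rw [e, abs_le]
    constructor <;> nlinarith

lemma lin_lip {y : ZMod k → Fin q → ℝ} (hy : ∀ j v, y j v ∈ Icc (0 : ℝ) 1) {s t : ℝ}
    (h : |s - t| ≤ 1) : dist (Lin y s) (Lin y t) ≤ |s - t| := by
  refine (dist_pi_le_iff (abs_nonneg _)).2 fun v => ?_
  rw [Real.dist_eq]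
  obtain ⟨h1, h2⟩ := abs_le.1 h
  rcases le_total s t with hst | hst
  · exact (lin_lip_le hy hst (by linarith) v).trans (by rw [abs_sub_comm]; exact le_abs_self _)
  · rw [abs_sub_comm]
    exact (lin_lip_le hy hst h2 v).trans (le_abs_self _)

lemma lin_dist [NeZero k] (y y' : ZMod k → Fin q → ℝ) (τ : ℝ) :
    dist (Lin y τ) (Lin y' τ) ≤ dist y y' := by
  refine (dist_pi_le_iff dist_nonneg).2 fun v => ?_
  have h : ∀ j, |y j v - y' j v| ≤ dist y y' := fun j =>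
    (dist_le_pi_dist (y j) (y' j) v).trans (dist_le_pi_dist y y' j)
  obtain ⟨a0, a1⟩ := abs_le.1 (h (⌊τ⌋ : ℤ))
  obtain ⟨b0, b1⟩ := abs_le.1 (h ((⌊τ⌋ : ℤ) + 1))
  have f0 := Int.fract_nonneg τ
  have f1 := Int.fract_lt_one τ
  rw [Real.dist_eq, Lin, Lin, abs_le]
  constructor <;> nlinarith

lemma lin_cont [NeZero k] : ContinuousOn (fun p : (ZMod k → Fin q → ℝ) × ℝ => Lin p.1 p.2)
    ({y | ∀ j v, y j v ∈ Icc (0 : ℝ) 1} ×ˢ univ) := by
  refine Metric.continuousOn_iff.2 fun p hp ε hε => ⟨min 1 (ε / 2), by positivity, ?_⟩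
  intro p' _ hd
  rw [Prod.dist_eq, max_lt_iff, lt_min_iff, lt_min_iff, Real.dist_eq] at hd
  have h1 := lin_dist p'.1 p.1 p'.2
  have h2 := lin_lip hp.1 hd.2.1.le
  have h3 := dist_triangle (Lin p'.1 p'.2) (Lin p.1 p'.2) (Lin p.1 p.2)
  linarith [hd.1.2, hd.2.2]

lemma mem_Cx (hN : ∀ S ∈ 𝒩, ∀ S' ⊆ S, S' ∈ 𝒩) {y : Fin q → ℝ} (h0 : ∀ v, 0 ≤ y v)
    (h1 : ∑ v, y v = 1) {S : Finset (Fin q)} (hS : S ∈ 𝒩) (h : ∀ v, y v ≠ 0 → v ∈ S) :
    y ∈ Cx 𝒩 := by
  classical
  exact ⟨h0, h1, Finset.univ.filter fun v => y v ≠ 0,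
    hN S hS _ fun v hv => h v (Finset.mem_filter.1 hv).2, fun v => by simp⟩

lemma isCompact_Cx (hN : ∀ S ∈ 𝒩, ∀ S' ⊆ S, S' ∈ 𝒩) : IsCompact (Cx 𝒩) := by
  have e : Cx 𝒩 = ⋃ S ∈ 𝒩, stdSimplex ℝ (Fin q) ∩ ⋂ v ∈ (S : Set (Fin q))ᶜ, {y | y v = 0} := by
    ext y
    simp only [mem_iUnion, mem_inter_iff, mem_iInter, mem_ofPred_eq]
    constructor
    · rintro ⟨h0, h1, S, hS, h⟩
      exact ⟨S, hS, ⟨h0, h1⟩, fun v hv => by_contra fun hne => hv ((h v).1 hne)⟩
    · rintro ⟨S, hS, ⟨h0, h1⟩, h⟩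
      exact mem_Cx hN h0 h1 hS fun v hv => by_contra fun hne => hv (h v hne)
  rw [e]
  exact (toFinite 𝒩).isCompact_biUnion fun S _ => (isCompact_stdSimplex ℝ _).inter_right
    (isClosed_biInter fun v _ => isClosed_eq (continuous_apply v) continuous_const)

/-- cyclic sequences of simplices whose neighbours span a simplex -/
def Cy (k : ℕ) (𝒩 : Set (Finset (Fin q))) : Set (ZMod k → Finset (Fin q)) :=
  {S | ∀ j, S j ∪ S (j + 1) ∈ 𝒩}

variable [NeZero k]

lemma pl_box {𝒮 : Set (ZMod k → Finset (Fin q))} {y : ZMod k → Fin q → ℝ} (hy : y ∈ Pl 𝒮)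
    (j : ZMod k) (v : Fin q) : y j v ∈ Icc (0 : ℝ) 1 :=
  ⟨hy.1 j v, (Finset.single_le_sum (fun w _ => hy.1 j w) (Finset.mem_univ v)).trans (hy.2.1 j).le⟩

omit [NeZero k] in
lemma lin_ne {y : ZMod k → Fin q → ℝ} (m : ℤ) {τ : ℝ} (h1 : (m : ℝ) ≤ τ) (h2 : τ ≤ m + 1)
    {v : Fin q} (h : Lin y τ v ≠ 0) : y m v ≠ 0 ∨ y (m + 1) v ≠ 0 := by
  by_contra hc
  push Not at hc
  rw [lin_eq y m h1 h2, hc.1, hc.2] at h
  simp at h

lemma lin_mem_Cx (hN : ∀ S ∈ 𝒩, ∀ S' ⊆ S, S' ∈ 𝒩) {y : ZMod k → Fin q → ℝ}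
    (hy : y ∈ Pl (Cy k 𝒩)) (τ : ℝ) : Lin y τ ∈ Cx 𝒩 := by
  obtain ⟨h0, h1, S, hS, h⟩ := hy
  refine mem_Cx hN (fun v => add_nonneg
    (mul_nonneg (sub_nonneg.2 (Int.fract_lt_one τ).le) (h0 _ v))
    (mul_nonneg (Int.fract_nonneg τ) (h0 _ v))) ?_ (hS (⌊τ⌋ : ℤ)) fun v hv => ?_
  · simp only [Lin, Finset.sum_add_distrib, ← Finset.mul_sum, h1]
    ring
  · rcases lin_ne ⌊τ⌋ (Int.floor_le τ) (Int.lt_floor_add_one τ).le hv with h' | h'
    · exact Finset.mem_union_left _ ((h _ v).1 h')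
    · exact Finset.mem_union_right _ ((h _ v).1 h')

lemma card_bad (S : ZMod k → Finset (Fin q)) :
    (Finset.univ.filter fun m => ¬ ((S m).card ≤ 1 ∧ (S (m + 1)).card ≤ 1)).card ≤
      2 * cdim S := by
  have h1 : (Finset.univ.filter fun m => ¬ (S m).card ≤ 1).card ≤ cdim S := by
    rw [Finset.card_filter, cdim]
    refine Finset.sum_le_sum fun m _ => ?_
    split_ifs <;> omega
  have h2 : (Finset.univ.filter fun m => ¬ (S (m + 1)).card ≤ 1).card ≤ cdim S := by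
    rw [Finset.card_filter, cdim,
      ← Equiv.sum_comp (Equiv.addRight (1 : ZMod k)) fun j => (S j).card - 1]
    refine Finset.sum_le_sum fun m _ => ?_
    show _ ≤ (S (m + 1)).card - 1
    split_ifs <;> omega
  simp only [not_and_or]
  rw [Finset.filter_or]
  have := Finset.card_union_le (Finset.univ.filter fun m => ¬ (S m).card ≤ 1)
    (Finset.univ.filter fun m => ¬ (S (m + 1)).card ≤ 1)
  omega

end lin

section smp

variable {M : Type} [MetricSpace M]

lemma smp_int {N : ℕ} [NeZero N] {γ : ℝ → M} (h : Function.Periodic γ 1) (a : ℤ) :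
    smp N γ (a : ZMod N) = γ ((a : ℝ) / N) := by
  have hN : (N : ℝ) ≠ 0 := Nat.cast_ne_zero.2 (NeZero.ne N)
  have h1 : ((((a : ZMod N).val : ℕ) : ℤ) : ZMod N) = (a : ZMod N) := by simp
  obtain ⟨c, hc⟩ := (ZMod.intCast_eq_intCast_iff_dvd_sub _ _ _).1 h1
  have h2 : (a : ℝ) / N = ((a : ZMod N).val : ℝ) / N + c * 1 := by
    have : (a : ℝ) - ((a : ZMod N).val : ℝ) = N * c := by exact_mod_cast hc
    field_simp
    linarith
  rw [h2, h.int_mul c]
  rfl

lemma smp_succ {N : ℕ} [NeZero N] {γ : ℝ → M} (h : Function.Periodic γ 1) (j : ZMod N) :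
    smp N γ (j + 1) = γ (((j.val : ℝ) + 1) / N) := by
  have := smp_int (N := N) h ((j.val : ℤ) + 1)
  simpa using this

end smp

end GromP

open GromP

theorem grom (K : Type) [Field K] (hB : Basics) (T : Tools K) (hC : CellStmt K) (h1 : NerveStmt)
    (h2 : CollStmt) (h3 : NearStmt K) : GromStmt K := by
  classical
  intro n M _ _ _ G
  have : Nonempty M := PathConnectedSpace.nonempty
  obtain ⟨q, 𝒩, φ, ψ, ε, hε, hN, hφ, hψ, hφ1, hnv⟩ := h1 n M G
  obtain ⟨H, x₀, hH, hH0, hH1⟩ := h2 M q 𝒩 ψ hN hψ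
  have L := hB.1 M
  have hρ := G.g0.pos
  have hH1c : ContinuousOn (fun y => H (1, y)) (Cx 𝒩) :=
    hH.comp (by fun_prop) fun y hy => ⟨⟨zero_le_one, le_rfl⟩, hy⟩
  obtain ⟨δ, hδ, hu⟩ := Metric.uniformContinuousOn_iff.1
    ((isCompact_Cx hN).uniformContinuousOn_of_continuous hH1c) (G.ρ / 2) (half_pos hρ)
  obtain ⟨s₀, hs₀⟩ := exists_nat_one_div_lt hδ
  set s := s₀ + 1 with hs
  have hs1 : (1 : ℝ) ≤ s := by rw [hs]; push_cast; linarith [Nat.cast_nonneg (α := ℝ) s₀]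
  have hsδ : 1 / (s : ℝ) < δ := by rw [hs]; push_cast; exact hs₀
  refine ⟨G.ρ * s, by positivity, fun i z hz => ?_⟩
  obtain ⟨C, hCc, -, hzC⟩ := exists_compact (Zr_le_In hz)
  obtain ⟨J₀, hJ⟩ := L.osc C hCc ε hε
  set k := J₀ + 1 with hk
  have : NeZero k := ⟨Nat.succ_ne_zero _⟩
  have : NeZero (k * s) := ⟨Nat.mul_ne_zero (Nat.succ_ne_zero _) (Nat.succ_ne_zero _)⟩
  have hk0 : (0 : ℝ) < k := Nat.cast_pos.2 (Nat.succ_pos _)
  have B := hB.2 n M G (k * s)
  have hzO : z ∈ Zr K i (Osc k ε) ∅ :=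
    Zr_mono (hJ k (Nat.le_succ _)) inter_subset_left (mem_Zr_of_In hz hzC)
  -- the two maps
  let Φ : Lo M → ZMod k → Fin q → ℝ := fun l j => φ (smp k (crv l) j)
  let Ψ : ℝ × (ZMod k → Fin q → ℝ) → Lo M := fun p => mkL fun t => H (p.1, Lin p.2 (k * t))
  have hΦ : Continuous Φ := continuous_pi fun j =>
    hφ.comp (L.crv_cont.comp (continuous_id.prodMk continuous_const))
  have hΦm : MapsTo Φ (Osc k ε) (Pl (Cy k 𝒩)) := fun l hl => by
    refine ⟨fun j => (hφ1 _).1, fun j => (hφ1 _).2,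
      fun j => Finset.univ.filter fun v => Φ l j v ≠ 0, fun j => ?_, fun j v => by simp⟩
    obtain ⟨S, hS, h, -⟩ := hnv (smp k (crv l) j)
    refine hN S hS _ (Finset.union_subset (fun v hv => ?_) fun v hv => ?_)
    · exact h _ (by rwa [dist_self]) v (Finset.mem_filter.1 hv).2
    · refine h _ ?_ v (Finset.mem_filter.1 hv).2
      rw [smp_succ (L.crv_per l)]
      refine hl _ _ (le_of_eq ?_)
      rw [← sub_div, abs_div, abs_of_pos hk0]
      simp
  have hF : ContinuousOn (fun p : (ℝ × (ZMod k → Fin q → ℝ)) × ℝ => H (p.1.1, Lin p.1.2 (k * p.2)))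
      ((Icc 0 1 ×ˢ Pl (Cy k 𝒩)) ×ˢ univ) := by
    refine hH.comp (ContinuousOn.prodMk (by fun_prop) ?_) fun p hp =>
      ⟨hp.1.1, lin_mem_Cx hN hp.1.2 _⟩
    exact lin_cont.comp (f := fun p : (ℝ × (ZMod k → Fin q → ℝ)) × ℝ => (p.1.2, k * p.2))
      (by fun_prop) fun p hp => ⟨pl_box hp.1.2, trivial⟩
  have hper : ∀ p : ℝ × (ZMod k → Fin q → ℝ),
      Function.Periodic (fun t : ℝ => H (p.1, Lin p.2 (k * t))) 1 := fun p t => by
    simp only [mul_add, mul_one, lin_per]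
  have hΨ : ContinuousOn Ψ (Icc 0 1 ×ˢ Pl (Cy k 𝒩)) :=
    L.mk_cont (ℝ × (ZMod k → Fin q → ℝ)) (fun p t => H (p.1, Lin p.2 (k * t))) _
      (hF.mono (prod_mono_right (subset_univ _))) fun p _ => by
        simpa using (hper p 0).symm
  have hcrv : ∀ p ∈ Icc (0 : ℝ) 1 ×ˢ Pl (Cy k 𝒩),
      crv (Ψ p) = fun t : ℝ => H (p.1, Lin p.2 (k * t)) := fun p hp =>
    L.crv_mk' _ (hF.comp_continuous (f := fun t : ℝ => (p, t)) (by fun_prop)
      fun t => ⟨hp, trivial⟩) (hper p)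
  have hΨ0 : ContinuousOn (fun y => Ψ (0, y)) (Pl (Cy k 𝒩)) :=
    hΨ.comp (by fun_prop) fun y hy => ⟨⟨le_rfl, zero_le_one⟩, hy⟩
  have hΨ1 : ContinuousOn (fun y => Ψ (1, y)) (Pl (Cy k 𝒩)) :=
    hΨ.comp (by fun_prop) fun y hy => ⟨⟨zero_le_one, le_rfl⟩, hy⟩
  -- step 1
  have e1 := (h3 n M G).1 (Lo M) (fun l => l) (fun l => Ψ (0, Φ l)) (Osc k ε) i
    continuousOn_id (hΨ0.comp hΦ.continuousOn hΦm) (fun l hl => by
      refine L.dist_lt _ _ _ fun t _ => ?_
      rw [hcrv (0, Φ l) ⟨⟨le_rfl, zero_le_one⟩, hΦm hl⟩]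
      have hm := lin_mem_Cx hN (hΦm hl) (k * t)
      obtain ⟨S, -, h, h'⟩ := hnv (crv l t)
      show dist _ (H (0, Lin (Φ l) (k * t))) < _
      rw [hH0 _ hm]
      have f1 := Int.floor_le (k * t)
      have f2 := (Int.lt_floor_add_one (k * t)).le
      have key : ∀ a : ℤ, |k * t - a| ≤ 1 → dist (crv l t) (smp k (crv l) (a : ZMod k)) < ε :=
        fun a ha => by
          rw [smp_int (L.crv_per l)]
          refine hl _ _ ?_
          have : t - a / k = (k * t - a) / k := by field_simp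
          rw [this, abs_div, abs_of_pos hk0]
          exact div_le_div_of_nonneg_right ha hk0.le
      refine h' _ hm fun v hv => ?_
      rcases lin_ne _ f1 f2 hv with h'' | h''
      · exact h _ (key _ (abs_le.2 ⟨by linarith, by linarith⟩)) v h''
      · have := key (⌊k * t⌋ + 1) (by push_cast; exact abs_le.2 ⟨by linarith, by linarith⟩)
        push_cast at this
        exact h _ this v h'') z hzO
  rw [push_id, ← push_push (g := fun y => Ψ (0, y)) hΦ.continuousOn (Zr_le_In hzO)] at e1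
  -- step 2
  have hw : push K i Φ z ∈ Zr K i (Pl (Cy k 𝒩)) ∅ :=
    push_Zr hΦ.continuousOn hΦm (mapsTo_empty _ _) hzO
  have hD : Dn (Cy k 𝒩) := fun S hS S' h j =>
    hN _ (hS j) _ (Finset.union_subset_union (h j) (h (j + 1)))
  let 𝒮 : Set (ZMod k → Finset (Fin q)) := {S | S ∈ Cy k 𝒩 ∧ cdim S ≤ i}
  have hD' : Dn 𝒮 := fun S hS S' h => ⟨hD S hS.1 S' h, le_trans
    (Finset.sum_le_sum fun j _ => Nat.sub_le_sub_right (Finset.card_le_card (h j)) 1) hS.2⟩
  have hsub : Pl 𝒮 ⊆ Pl (Cy k 𝒩) := fun y ⟨a, b, S, hS, h⟩ => ⟨a, b, S, hS.1, h⟩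
  have e2 := hC (ZMod k) (Fin q) (Cy k 𝒩) 𝒮 hD hD' (fun _ h => h.1) i
  have e3 : {S | S ∈ Cy k 𝒩 \ 𝒮 ∧ cdim S = i} = ∅ :=
    eq_empty_of_forall_notMem fun S hS => hS.1.2 ⟨hS.1.1, hS.2.le⟩
  rw [e3, ncard_empty] at e2
  obtain ⟨v, hv, hu'⟩ := mem_Br.1 (rk_zero.1 e2 (Zr_mono Subset.rfl (empty_subset _) hw))
  set u := push K i Φ z - bd K i v with hudef
  have huZ : u ∈ Zr K i (Pl 𝒮) ∅ :=
    Zr_mono Subset.rfl inter_subset_left (mem_Zr_of_In (sub_mem hw (bd_mem_Zr (bd_mem hv))) hu')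
  have e4 : push K i (fun y => Ψ (0, y)) (push K i Φ z) - push K i (fun y => Ψ (0, y)) u ∈
      Br K i univ ∅ := by
    rw [← map_sub, hudef, sub_sub_cancel]
    exact push_Br hΨ0 (mapsTo_univ _ _) (mapsTo_empty _ _) (bd_mem_Br hv)
  -- step 3
  have e5 := T.hom _ _ Ψ (Pl 𝒮) ∅ univ ∅ i (empty_subset _) (hΨ.mono (prod_mono_right hsub))
    (mapsTo_univ _ _) (fun p hp => hp.2.elim) u huZ
  -- step 4
  have hosc : ∀ y ∈ Pl (Cy k 𝒩), Ψ (1, y) ∈ Osc (k * s) (G.ρ / 2) := fun y hy a b hab => by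
    rw [hcrv (1, y) ⟨⟨zero_le_one, le_rfl⟩, hy⟩]
    have h4 : |k * a - k * b| ≤ 1 / s := by
      rw [← mul_sub, abs_mul, abs_of_pos hk0]
      refine (mul_le_mul_of_nonneg_left hab hk0.le).trans (le_of_eq ?_)
      push_cast
      field_simp
    have h5 : 1 / (s : ℝ) ≤ 1 := (div_le_one (by linarith)).2 hs1
    exact hu _ (lin_mem_Cx hN hy _) _ (lin_mem_Cx hN hy _)
      (((lin_lip (pl_box hy) (h4.trans h5)).trans h4).trans_lt hsδ)
  let Θ : (ZMod k → Fin q → ℝ) → Lo M := fun y => G.toL (smp (k * s) (crv (Ψ (1, y))))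
  have hΘ : ContinuousOn Θ (Pl (Cy k 𝒩)) := by
    refine B.toL_cont.comp (continuousOn_pi.2 fun j => ?_) fun y hy => (B.near _ (hosc y hy)).1
    exact L.crv_cont.comp_continuousOn (hΨ1.prodMk continuousOn_const)
  have e6 := (h3 n M G).1 _ (fun y => Ψ (1, y)) Θ (Pl 𝒮) i (hΨ1.mono hsub) (hΘ.mono hsub)
    (fun y hy => (B.near _ (hosc y (hsub hy))).2) u huZ
  have hlen : MapsTo Θ (Pl 𝒮) (LL M (G.ρ * s * (i + 1))) := fun y hy => by
    have hy' := hsub hy
    have hG := (B.near _ (hosc y hy')).1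
    show len (crv (G.toL _)) ≤ _
    rw [B.crv_toL _ hG]
    refine (B.len_le _ hG).trans (ENNReal.ofReal_le_ofReal ?_)
    obtain ⟨-, -, S, hS, hyS⟩ := hy
    set x := smp (k * s) (crv (Ψ (1, y))) with hx
    let m : ZMod (k * s) → ZMod k := fun j => ((j.val / s : ℕ) : ZMod k)
    let bad := Finset.univ.filter fun a : ZMod k => ¬ ((S a).card ≤ 1 ∧ (S (a + 1)).card ≤ 1)
    have hs0 : (0 : ℝ) < s := by linarith
    have hzero : ∀ j, m j ∉ bad → dist (x j) (x (j + 1)) = 0 := fun j hj => by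
      simp only [bad, Finset.mem_filter, Finset.mem_univ, true_and, not_not] at hj
      have key : ∀ τ : ℝ, ((j.val / s : ℕ) : ℝ) ≤ τ → τ ≤ ((j.val / s : ℕ) : ℝ) + 1 →
          H (1, Lin y τ) = x₀ := fun τ a b => by
        refine hH1 _ (lin_mem_Cx hN hy' _) ?_
        have : {v | Lin y τ v ≠ 0} ⊆ ((S (m j) ∪ S (m j + 1) : Finset (Fin q)) : Set (Fin q)) :=
          fun v hv => by
            rcases lin_ne ((j.val / s : ℕ) : ℤ) (by exact_mod_cast a) (by exact_mod_cast b) hv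
              with h | h
            · rw [Int.cast_natCast] at h
              exact Finset.mem_union_left _ ((hyS _ v).1 h)
            · rw [Int.cast_natCast] at h
              exact Finset.mem_union_right _ ((hyS _ v).1 h)
        refine (ncard_le_ncard this).trans ?_
        rw [ncard_coe_finset]
        have := Finset.card_union_le (S (m j)) (S (m j + 1))
        omega
      have a1 : ((j.val / s : ℕ) : ℝ) * s ≤ j.val := by exact_mod_cast Nat.div_mul_le_self _ _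
      have a2 : (j.val : ℝ) + 1 ≤ (((j.val / s : ℕ) : ℝ) + 1) * s := by
        have := Nat.lt_div_mul_add (a := j.val) (Nat.succ_pos s₀)
        have h' : j.val + 1 ≤ (j.val / s + 1) * s := by
          have e : (j.val / s + 1) * s = j.val / s * s + s := by ring
          exact e ▸ this
        exact_mod_cast h'
      have b1 : (k : ℝ) * (j.val / ((k * s : ℕ) : ℝ)) = j.val / s := by push_cast; field_simp
      have b2 : (k : ℝ) * ((j.val + 1) / ((k * s : ℕ) : ℝ)) = (j.val + 1) / s := by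
        push_cast; field_simp
      rw [hx, smp_succ (L.crv_per _), smp, hcrv (1, y) ⟨⟨zero_le_one, le_rfl⟩, hy'⟩]
      simp only [b1, b2]
      rw [key _ ((le_div_iff₀ hs0).2 a1) ((div_le_iff₀ hs0).2 (by linarith)),
        key _ ((le_div_iff₀ hs0).2 (by linarith)) ((div_le_iff₀ hs0).2 a2), dist_self]
    have hcard : (Finset.univ.filter fun j => m j ∈ bad).card ≤ s * (2 * i) := by
      refine (Finset.card_le_mul_card_image_of_maps_to (f := m) (t := bad)
        (fun j hj => (Finset.mem_filter.1 hj).2) s fun a _ => ?_).trans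
        (Nat.mul_le_mul_left _ ((card_bad S).trans (Nat.mul_le_mul_left _ hS.2)))
      refine le_trans (Finset.card_le_card_of_injOn (t := Finset.range s) (fun j => j.val % s)
        (fun j _ => Finset.mem_coe.2 (Finset.mem_range.2 (Nat.mod_lt _ (Nat.succ_pos _))))
        fun j hj j' hj' h => ?_) (Finset.card_range s).le
      have hlt : ∀ j : ZMod (k * s), j.val / s < k := fun j =>
        (Nat.div_lt_iff_lt_mul (Nat.succ_pos _)).2 (ZMod.val_lt j)
      have h6 : m j = m j' :=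
        (Finset.mem_filter.1 hj).2.trans (Finset.mem_filter.1 hj').2.symm
      have h7 := congrArg ZMod.val h6
      simp only [m, ZMod.val_cast_of_lt (hlt _)] at h7
      refine ZMod.val_injective _ ?_
      rw [← Nat.div_add_mod j.val s, ← Nat.div_add_mod j'.val s, h7, show j.val % s = _ from h]
    rw [← Finset.sum_filter_of_ne (p := fun j => m j ∈ bad)
      fun j _ hj => by_contra fun h => hj (hzero j h)]
    refine (Finset.sum_le_card_nsmul _ _ (G.ρ / 2) fun j _ => ?_).trans ?_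
    · rw [hx, smp_succ (L.crv_per _)]
      refine (hosc y hy' _ _ (le_of_eq ?_)).le
      rw [← sub_div, abs_div, Nat.abs_cast]
      simp
    · rw [nsmul_eq_mul]
      have : ((Finset.univ.filter fun j => m j ∈ bad).card : ℝ) ≤ s * (2 * i) := by
        exact_mod_cast hcard
      nlinarith [mul_pos hρ hs0]
  have e7 : push K i Θ u ∈ Zr K i (LL M (G.ρ * s * (i + 1))) ∅ :=
    push_Zr (hΘ.mono hsub) hlen (mapsTo_empty _ _) huZ
  have := add_mem (Submodule.mem_sup_left e7 : _ ∈ Fil M K i _)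
    (Submodule.mem_sup_right (add_mem (sub_mem (add_mem e1 e4) e5) e6))
  have e8 : ∀ a b c d : Ch K i (Lo M), d + (z - a + (a - b) - (c - b) + (c - d)) = z :=
    fun a b c d => by abel
  rwa [e8] at this

end Pool.Agent.MP_af6f1c_gt.Geo

end
end MrgPart3

-- ======== part 4: formerly Pool.Agent.MP_af6f1c_gt.geo.Idx1
section MrgPart4

/-! PROJECT GEO, row IDX1: the index window of the iterates. -/

open Module

noncomputable section

namespace Pool.Agent.MP_af6f1c_gt.Geo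

namespace Idx1P

section lin

variable {V : Type} [AddCommGroup V] [Module ℝ V]

lemma sum_le_of_neg [FiniteDimensional ℝ V] (q : V → ℝ) {U P D : Submodule ℝ V} (hU : U ≤ D)
    (hP : P ≤ D) (h1 : ∀ x ∈ U, x ≠ 0 → q x < 0) (h2 : ∀ x ∈ P, 0 ≤ q x) :
    finrank ℝ U + finrank ℝ P ≤ finrank ℝ D := by
  have hd : U ⊓ P = ⊥ := by
    rw [eq_bot_iff]
    intro x hx
    by_contra h0
    have := h1 x hx.1 (by simpa using h0)
    have := h2 x hx.2
    linarith
  have := Submodule.finrank_sup_add_finrank_inf_eq U P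
  rw [hd, finrank_bot, add_zero] at this
  rw [← this]
  exact Submodule.finrank_mono (sup_le hU hP)

/-- negative part, positive part and kernel of a symmetric form -/
lemma tri [FiniteDimensional ℝ V] (B : V →ₗ[ℝ] V →ₗ[ℝ] ℝ) (hs : ∀ x y, B x y = B y x) :
    ∃ Um Up : Submodule ℝ V, (∀ x ∈ Um, x ≠ 0 → B x x < 0) ∧ (∀ x ∈ Up, x ≠ 0 → 0 < B x x) ∧
      finrank ℝ Um + finrank ℝ Up + finrank ℝ (LinearMap.ker B) = finrank ℝ V := by
  let Q : QuadraticForm ℝ V := LinearMap.BilinMap.toQuadraticMap B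
  have hQ : ∀ x, Q x = B x x := fun x => rfl
  obtain ⟨Up, h1, h2⟩ := exists_finrank_eq_sigPos_and_posDef Q
  obtain ⟨Um, h3, h4⟩ := exists_finrank_eq_sigNeg_and_negDef Q
  have h5 := QuadraticForm.sigPos_add_sigNeg_add_radical (Q := Q)
  have h6 : Q.radical = LinearMap.ker B := by
    ext x
    rw [QuadraticMap.mem_radical_iff', LinearMap.mem_ker]
    constructor
    · rintro ⟨ha, hb⟩
      ext y
      have := hb y
      rw [hQ] at ha
      simp only [hQ, map_add, LinearMap.add_apply] at this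
      rw [hs y x] at this
      simp only [LinearMap.zero_apply]
      linarith
    · intro hx
      refine ⟨by simp [hQ, hx], fun y => ?_⟩
      simp only [hQ, map_add, LinearMap.add_apply]
      rw [hs y x]
      simp [hx]
  refine ⟨Um, Up, fun x hx h0 => ?_, fun x hx h0 => ?_, ?_⟩
  · have := h4 ⟨x, hx⟩ (by simpa using h0)
    have e : ((-Q).restrict Um) ⟨x, hx⟩ = - B x x := rfl
    linarith
  · exact h2 ⟨x, hx⟩ (by simpa using h0)
  · rw [h1, h3, ← h6]
    omega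

/-- a negative definite and a positive semidefinite subspace that fill a given subspace -/
lemma two [FiniteDimensional ℝ V] (B : V →ₗ[ℝ] V →ₗ[ℝ] ℝ) (hs : ∀ x y, B x y = B y x)
    (D : Submodule ℝ V) :
    ∃ U P : Submodule ℝ V, U ≤ D ∧ P ≤ D ∧ (∀ x ∈ U, x ≠ 0 → B x x < 0) ∧ (∀ x ∈ P, 0 ≤ B x x) ∧
      finrank ℝ U + finrank ℝ P = finrank ℝ D := by
  let B' : D →ₗ[ℝ] D →ₗ[ℝ] ℝ := B.compl₁₂ D.subtype D.subtype
  have hB : ∀ x y : D, B' x y = B x y := fun _ _ => rfl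
  obtain ⟨Um, Up, h1, h2, h3⟩ := tri B' fun x y => hs _ _
  have hd : Up ⊓ LinearMap.ker B' = ⊥ := by
    rw [eq_bot_iff]
    intro x hx
    by_contra h0
    have := h2 x hx.1 (by simpa using h0)
    rw [LinearMap.mem_ker.1 hx.2] at this
    simp at this
  have h4 := Submodule.finrank_sup_add_finrank_inf_eq Up (LinearMap.ker B')
  rw [hd, finrank_bot, add_zero] at h4
  refine ⟨Um.map D.subtype, (Up ⊔ LinearMap.ker B').map D.subtype, Submodule.map_subtype_le _ _,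
    Submodule.map_subtype_le _ _, ?_, ?_, ?_⟩
  · rintro _ ⟨x, hx, rfl⟩ h0
    exact h1 x hx (by simpa using h0)
  · rintro _ ⟨x, hx, rfl⟩
    obtain ⟨a, ha, b, hb, rfl⟩ := Submodule.mem_sup.1 hx
    have hb' := LinearMap.mem_ker.1 hb
    have e : B' (a + b) (a + b) = B' a a := by
      have : B' a b = B' b a := hs _ _
      simp only [map_add, this, hb', LinearMap.zero_apply, add_zero]
    show 0 ≤ B' (a + b) (a + b)
    rw [e]
    by_cases h0 : a = 0
    · simp [h0]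
    · exact (h2 a ha h0).le
  · rw [Submodule.finrank_map_subtype_eq, Submodule.finrank_map_subtype_eq, h4]
    omega

end lin

variable {E : Type} [NormedAddCommGroup E] [NormedSpace ℝ E]
  (H : ℕ → (E × E) →L[ℝ] (E × E) →L[ℝ] ℝ)

/-- the cyclic sum as a bilinear form -/
def QB (N : ℕ) [NeZero N] : (ZMod N → E) →ₗ[ℝ] (ZMod N → E) →ₗ[ℝ] ℝ :=
  LinearMap.mk₂ ℝ (QF H N)
    (fun a b c => by
      simp only [QF, ← Finset.sum_add_distrib]
      refine Finset.sum_congr rfl fun j _ => ?_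
      rw [← add_apply, ← map_add]
      rfl)
    (fun r a c => by
      simp only [QF, smul_eq_mul, Finset.mul_sum]
      refine Finset.sum_congr rfl fun j _ => ?_
      rw [← smul_eq_mul, ← smul_apply, ← map_smul]
      rfl)
    (fun a b c => by
      simp only [QF, ← Finset.sum_add_distrib]
      refine Finset.sum_congr rfl fun j _ => ?_
      rw [← map_add]
      rfl)
    (fun r a c => by
      simp only [QF, smul_eq_mul, Finset.mul_sum]
      refine Finset.sum_congr rfl fun j _ => ?_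
      rw [← smul_eq_mul, ← map_smul]
      rfl)

lemma QB_apply (N : ℕ) [NeZero N] (ξ η : ZMod N → E) : QB H N ξ η = QF H N ξ η := rfl

lemma QB_symm (hs : ∀ j a b, H j a b = H j b a) (N : ℕ) [NeZero N] (ξ η : ZMod N → E) :
    QB H N ξ η = QB H N η ξ := Finset.sum_congr rfl fun _ _ => hs _ _ _

lemma sum_zmod (N : ℕ) [NeZero N] (f : ℕ → ZMod N → ℝ) :
    ∑ j : ZMod N, f j.val j = ∑ i ∈ Finset.range N, f i (i : ZMod N) := by
  refine Finset.sum_nbij' (fun j => j.val) (fun i => (i : ZMod N)) ?_ ?_ ?_ ?_ ?_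
  · intro j _
    exact Finset.mem_range.2 (ZMod.val_lt j)
  · intro i _
    exact Finset.mem_univ _
  · intro j _
    exact ZMod.natCast_zmod_val j
  · intro i hi
    exact ZMod.val_cast_of_lt (Finset.mem_range.1 hi)
  · intro j _
    rw [ZMod.natCast_zmod_val]

lemma QF_range (N : ℕ) [NeZero N] (ξ η : ZMod N → E) :
    QF H N ξ η = ∑ i ∈ Finset.range N,
      H i (ξ i, ξ ((i + 1 : ℕ) : ZMod N)) (η i, η ((i + 1 : ℕ) : ZMod N)) := by
  rw [QF, sum_zmod N fun i j => H i (ξ j, ξ (j + 1)) (η j, η (j + 1))]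
  simp only [Nat.cast_add, Nat.cast_one]

/-- testing against a vector that sits at one vertex -/
lemma QF_single (N : ℕ) [NeZero N] (ξ : ZMod N → E) (a : ZMod N) (u : E) :
    QF H N ξ (Pi.single (a + 1) u) =
      H (a + 1).val (ξ (a + 1), ξ (a + 1 + 1)) (u, 0) + H a.val (ξ a, ξ (a + 1)) (0, u) := by
  have e : ∀ j : ZMod N, H j.val (ξ j, ξ (j + 1))
      ((Pi.single (a + 1) u : ZMod N → E) j, (Pi.single (a + 1) u : ZMod N → E) (j + 1)) =
      (if j = a + 1 then H j.val (ξ j, ξ (j + 1)) (u, 0) else 0) +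
        if j = a then H j.val (ξ j, ξ (j + 1)) (0, u) else 0 := by
    intro j
    have h : (((Pi.single (a + 1) u : ZMod N → E) j,
        (Pi.single (a + 1) u : ZMod N → E) (j + 1)) : E × E) =
        (if j = a + 1 then (u, 0) else 0) + if j = a then (0, u) else 0 := by
      simp only [Pi.single_apply, add_left_inj]
      split_ifs <;> simp
    rw [h, map_add]
    congr 1 <;> split_ifs <;> simp
  simp only [QF, e, Finset.sum_add_distrib, Finset.sum_ite_eq', Finset.mem_univ, if_true]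

/-- an element of the kernel is determined by two consecutive values -/
lemma ker_zero (hs : ∀ j a b, H j a b = H j b a) (ht : ∀ j, Tw (H j)) (N : ℕ) [NeZero N]
    {ξ : ZMod N → E} (hξ : ξ ∈ LinearMap.ker (QB H N)) (h0 : ξ 0 = 0) (h1 : ξ 1 = 0) : ξ = 0 := by
  have key : ∀ t : ℕ, ξ t = 0 ∧ ξ (t + 1) = 0 := by
    intro t
    induction t with
    | zero => simpa using ⟨h0, h1⟩
    | succ t ih =>
      push_cast
      refine ⟨ih.2, (ht ((t : ZMod N) + 1).val).2 _ fun u => ?_⟩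
      have := QF_single H N ξ t u
      rw [← QB_apply, LinearMap.mem_ker.1 hξ, ih.1, ih.2, LinearMap.zero_apply,
        Prod.mk_zero_zero, map_zero, zero_apply, add_zero, hs] at this
      exact this.symm
  funext j
  have := (key j.val).1
  rwa [ZMod.natCast_zmod_val] at this

lemma ker_le [FiniteDimensional ℝ E] (hs : ∀ j a b, H j a b = H j b a) (ht : ∀ j, Tw (H j))
    (N : ℕ) [NeZero N] : finrank ℝ (LinearMap.ker (QB H N)) ≤ 2 * finrank ℝ E := by
  let f : LinearMap.ker (QB H N) →ₗ[ℝ] E × E :=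
    ((LinearMap.proj (0 : ZMod N)).prod (LinearMap.proj (1 : ZMod N))) ∘ₗ Submodule.subtype _
  have hf : Function.Injective f := by
    rw [← LinearMap.ker_eq_bot, eq_bot_iff]
    rintro ⟨ξ, hξ⟩ h
    have h' := LinearMap.mem_ker.1 h
    exact Subtype.ext (ker_zero H hs ht N hξ (congrArg Prod.fst h') (congrArg Prod.snd h'))
  have := LinearMap.finrank_le_finrank_of_injective hf
  rw [Module.finrank_prod] at this
  omega

variable (E) in
/-- sequences that vanish at the origin -/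
def Di (N : ℕ) : Submodule ℝ (ZMod N → E) := LinearMap.ker (LinearMap.proj (0 : ZMod N))

lemma finrank_all [FiniteDimensional ℝ E] (N : ℕ) [NeZero N] :
    finrank ℝ (ZMod N → E) = N * finrank ℝ E := by
  rw [Module.finrank_pi_fintype]
  simp

lemma finrank_Di [FiniteDimensional ℝ E] (N : ℕ) [NeZero N] :
    finrank ℝ (Di E N) + finrank ℝ E = N * finrank ℝ E := by
  have := LinearMap.finrank_range_add_finrank_ker
    (LinearMap.proj (0 : ZMod N) : (ZMod N → E) →ₗ[ℝ] E)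
  rw [LinearMap.range_eq_top.2 (fun u => ⟨fun _ => u, rfl⟩), finrank_top, finrank_all] at this
  rw [Di]
  omega

lemma sum_range_mul (f : ℕ → ℝ) (N m : ℕ) :
    ∑ t ∈ Finset.range (N * m), f t = ∑ l ∈ Finset.range m, ∑ i ∈ Finset.range N, f (N * l + i) := by
  induction m with
  | zero => simp
  | succ m ih => rw [Nat.mul_succ, Finset.sum_range_add, ih, Finset.sum_range_succ]

/-- gluing `m` sequences -/
def glue (N m N' : ℕ) [NeZero N'] (h : N' = N * m) :
    (Fin m → ZMod N → E) →ₗ[ℝ] (ZMod N' → E) where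
  toFun ξ j := ξ ⟨j.val / N, Nat.div_lt_of_lt_mul (h ▸ ZMod.val_lt j)⟩ (j.val : ZMod N)
  map_add' _ _ := rfl
  map_smul' _ _ := rfl

lemma glue_apply (N m N' : ℕ) [NeZero N'] (h : N' = N * m) (ξ : Fin m → ZMod N → E) (l : Fin m)
    {i : ℕ} (hi : i < N) : glue N m N' h ξ ((N * l + i : ℕ) : ZMod N') = ξ l i := by
  have hlt : N * l + i < N' := by
    have := l.2
    calc N * l + i < N * l + N := by omega
      _ = N * (l + 1) := by ring
      _ ≤ N * m := Nat.mul_le_mul_left _ this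
      _ = N' := h.symm
  have hv := ZMod.val_cast_of_lt hlt
  show ξ ⟨_, _⟩ _ = _
  congr 1
  · ext
    simp only [hv]
    rw [Nat.mul_add_div (by omega), Nat.div_eq_of_lt hi, add_zero]
  · rw [hv]
    simp

lemma glue_succ (N m N' : ℕ) [NeZero N'] (h : N' = N * m) (ξ : Fin m → ZMod N → E)
    (h0 : ∀ l, ξ l 0 = 0) (l : Fin m) {i : ℕ} (hi : i < N) :
    glue N m N' h ξ ((N * l + i + 1 : ℕ) : ZMod N') = ξ l ((i + 1 : ℕ) : ZMod N) := by
  rcases Nat.lt_or_ge (i + 1) N with h1 | h1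
  · rw [add_assoc, glue_apply N m N' h ξ l h1]
  · have e : i + 1 = N := by omega
    have e2 : ((((N * l + i + 1 : ℕ) : ZMod N').val : ℕ) : ZMod N) = 0 := by
      rw [ZMod.val_natCast, ZMod.natCast_eq_zero_iff]
      refine (Nat.dvd_mod_iff ⟨m, h⟩).2 ⟨l + 1, ?_⟩
      rw [add_assoc, e]
      ring
    show ξ ⟨_, _⟩ _ = _
    rw [e2, e, h0, ZMod.natCast_self, h0]

lemma QF_glue (N m N' : ℕ) [NeZero N] [NeZero N'] (h : N' = N * m) (hp : ∀ j, H (j + N) = H j)
    (ξ : Fin m → ZMod N → E) (h0 : ∀ l, ξ l 0 = 0) :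
    QF H N' (glue N m N' h ξ) (glue N m N' h ξ) = ∑ l, QF H N (ξ l) (ξ l) := by
  have hp' : ∀ l i, H (N * l + i) = H i := by
    intro l i
    induction l with
    | zero => simp
    | succ l ih => rw [← ih, ← hp (N * l + i)]; congr 1; ring
  rw [QF_range]
  conv_lhs => rw [show Finset.range N' = Finset.range (N * m) by rw [h]]
  rw [sum_range_mul, Finset.sum_range]
  refine Finset.sum_congr rfl fun l _ => ?_
  rw [QF_range]
  refine Finset.sum_congr rfl fun i hi => ?_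
  have hi' := Finset.mem_range.1 hi
  rw [glue_apply N m N' h ξ l hi', glue_succ N m N' h ξ h0 l hi', hp']

lemma glue_sub [FiniteDimensional ℝ E] (N m N' : ℕ) [NeZero N] [NeZero N'] (h : N' = N * m)
    (hp : ∀ j, H (j + N) = H j) (U : Submodule ℝ (ZMod N → E)) (hU : U ≤ Di E N) :
    ∃ U' : Submodule ℝ (ZMod N' → E), U' ≤ Di E N' ∧ finrank ℝ U' = m * finrank ℝ U ∧
      ∀ η ∈ U', ∃ ξ : Fin m → ZMod N → E, (∀ l, ξ l ∈ U) ∧ (η ≠ 0 → ∃ l, ξ l ≠ 0) ∧
        QF H N' η η = ∑ l, QF H N (ξ l) (ξ l) := by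
  let g : (Fin m → U) →ₗ[ℝ] (ZMod N' → E) := glue N m N' h ∘ₗ U.subtype.compLeft (Fin m)
  have hg : Function.Injective g := by
    rw [← LinearMap.ker_eq_bot, eq_bot_iff]
    intro ξ hξ
    have h' := LinearMap.mem_ker.1 hξ
    rw [Submodule.mem_bot]
    funext l
    ext j
    have := congrFun h' ((N * l + j.val : ℕ) : ZMod N')
    rw [LinearMap.comp_apply, glue_apply N m N' h _ l (ZMod.val_lt j),
      ZMod.natCast_zmod_val] at this
    exact this
  refine ⟨LinearMap.range g, ?_, ?_, ?_⟩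
  · rintro _ ⟨ξ, rfl⟩
    show (ξ ⟨_, _⟩ : ZMod N → E) _ = 0
    have e : (((0 : ZMod N').val : ℕ) : ZMod N) = 0 := by simp
    rw [e]
    exact hU (ξ _).2
  · rw [LinearMap.finrank_range_of_inj hg, Module.finrank_pi_fintype]
    simp
  · rintro _ ⟨ξ, rfl⟩
    refine ⟨fun l => ξ l, fun l => (ξ l).2, fun h0 => ?_,
      QF_glue H N m N' h hp _ fun l => hU (ξ l).2⟩
    by_contra hc
    push Not at hc
    refine h0 ?_
    have : ξ = 0 := funext fun l => Subtype.ext (hc l)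
    rw [this, map_zero]

/-- `l` is the Dirichlet index on `N` edges -/
def IsL (N : ℕ) [NeZero N] (l : ℕ) : Prop :=
  ∃ U P : Submodule ℝ (ZMod N → E), U ≤ Di E N ∧ P ≤ Di E N ∧
    (∀ x ∈ U, x ≠ 0 → QF H N x x < 0) ∧ (∀ x ∈ P, 0 ≤ QF H N x x) ∧ finrank ℝ U = l ∧
    l + finrank ℝ P = finrank ℝ (Di E N)

lemma exists_isL [FiniteDimensional ℝ E] (hs : ∀ j a b, H j a b = H j b a) (N : ℕ) [NeZero N] :
    ∃ l, IsL H N l := by
  obtain ⟨U, P, h1, h2, h3, h4, h5⟩ := two (QB H N) (QB_symm H hs N) (Di E N)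
  exact ⟨_, U, P, h1, h2, h3, h4, rfl, h5⟩

lemma isL_mul [FiniteDimensional ℝ E] (N m N' : ℕ) [NeZero N] [NeZero N'] (h : N' = N * m)
    (hp : ∀ j, H (j + N) = H j) {l l' : ℕ} (hl : IsL H N l) (hl' : IsL H N' l') :
    m * l ≤ l' ∧ l' + finrank ℝ E ≤ m * (l + finrank ℝ E) := by
  obtain ⟨U, P, h1, h2, h3, h4, h5, h6⟩ := hl
  obtain ⟨U', P', h1', h2', h3', h4', h5', h6'⟩ := hl'
  constructor
  · obtain ⟨W, w1, w2, w3⟩ := glue_sub H N m N' h hp U h1
    have := sum_le_of_neg (fun x => QF H N' x x) w1 h2' (fun η hη h0 => ?_) h4'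
    · rw [w2, h5] at this
      omega
    · obtain ⟨ξ, a1, a2, a3⟩ := w3 η hη
      obtain ⟨i, hi⟩ := a2 h0
      rw [a3]
      have hle : ∀ j, QF H N (ξ j) (ξ j) ≤ 0 := fun j => by
        by_cases hj : ξ j = 0
        · rw [← QB_apply, hj]; simp
        · exact (h3 _ (a1 j) hj).le
      have := Finset.sum_lt_sum (s := Finset.univ) (g := fun _ => (0 : ℝ)) (fun j _ => hle j)
        ⟨i, Finset.mem_univ _, h3 _ (a1 i) hi⟩
      simpa using this
  · obtain ⟨W, w1, w2, w3⟩ := glue_sub H N m N' h hp P h2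
    have := sum_le_of_neg (fun x => QF H N' x x) h1' w1 h3' (fun η hη => ?_)
    · rw [w2, h5'] at this
      have e1 := finrank_Di (E := E) N
      have e2 := finrank_Di (E := E) N'
      have e3 : N' * finrank ℝ E = m * (l + finrank ℝ E) + m * finrank ℝ P := by
        rw [h, mul_comm N m, mul_assoc, ← e1, ← h6]
        ring
      omega
    · obtain ⟨ξ, a1, -, a3⟩ := w3 η hη
      rw [a3]
      exact Finset.sum_nonneg fun j _ => h4 _ (a1 j)

lemma per_mul {k : ℕ} (hp : ∀ j, H (j + k) = H j) (m j : ℕ) : H (j + k * m) = H j := by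
  induction m with
  | zero => simp
  | succ m ih => rw [← ih, ← hp (j + k * m)]; congr 1; ring

end Idx1P

open Idx1P in
theorem index : IndexStmt := by
  intro n k H hk hp hs ht
  have hn : finrank ℝ (Eu n) = n := by simp
  have nz : ∀ m : ℕ, NeZero (k * (m + 1)) := fun m => ⟨by positivity⟩
  choose l hl using fun m : ℕ => exists_isL H hs (k * (m + 1))
  have key : ∀ a b : ℕ, (l a : ℝ) / (a + 1) ≤ (l b + n) / (b + 1) := by
    intro a b
    have e : k * ((a + 1) * (b + 1) - 1 + 1) = k * (a + 1) * (b + 1) := by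
      rw [Nat.sub_add_cancel (Nat.succ_le_of_lt (by positivity)), mul_assoc]
    have h1 := (isL_mul H _ (b + 1) _ e (per_mul H hp _) (hl a) (hl _)).1
    have h2 := (isL_mul H (k * (b + 1)) (a + 1) _ (e.trans (by ring)) (per_mul H hp _) (hl b)
      (hl _)).2
    rw [hn] at h2
    have h3 : (b + 1) * l a ≤ (a + 1) * (l b + n) := by omega
    rw [div_le_div_iff₀ (by positivity) (by positivity)]
    have h4 : (((b + 1) * l a : ℕ) : ℝ) ≤ ((a + 1) * (l b + n) : ℕ) := by exact_mod_cast h3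
    push_cast at h4
    linarith
  have hb : BddAbove (Set.range fun a : ℕ => (l a : ℝ) / (a + 1)) :=
    ⟨_, by rintro _ ⟨a, rfl⟩; exact key a 0⟩
  refine ⟨⨆ a : ℕ, (l a : ℝ) / (a + 1), fun m N _ hN => ?_⟩
  obtain ⟨b, rfl⟩ : ∃ b, m = b + 1 := by
    refine Nat.exists_eq_succ_of_ne_zero ?_
    rintro rfl
    exact NeZero.ne N (by simpa using hN)
  subst hN
  have u1 := le_ciSup hb b
  have u2 := ciSup_le fun a => key a b
  generalize (⨆ a : ℕ, (l a : ℝ) / (a + 1)) = α at u1 u2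
  rw [div_le_iff₀ (by positivity)] at u1
  rw [le_div_iff₀ (by positivity)] at u2
  obtain ⟨U, P, -, -, h3, h4, h5, h6⟩ := hl b
  obtain ⟨Um, Up, t1, t2, t3⟩ := tri (QB H (k * (b + 1))) (QB_symm H hs _)
  refine ⟨U, Up, h3, t2, ?_, ?_⟩
  · rw [h5]
    push_cast
    linarith
  · have s1 := sum_le_of_neg (fun x => QF H (k * (b + 1)) x x) (D := ⊤) le_top le_top t1 h4
    have s2 := ker_le H hs ht (k * (b + 1))
    have s3 := finrank_Di (E := Eu n) (k * (b + 1))
    rw [finrank_top] at s1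
    rw [finrank_all] at s1 t3
    rw [hn] at s1 s2 s3 t3
    have s4 : n * (k * (b + 1)) ≤ finrank ℝ Up + l b + 3 * n := by
      rw [mul_comm n]
      omega
    have s5 : ((n * (k * (b + 1)) : ℕ) : ℝ) ≤ (finrank ℝ Up + l b + 3 * n : ℕ) := by
      exact_mod_cast s4
    push_cast at s5 ⊢
    linarith

end Pool.Agent.MP_af6f1c_gt.Geo

end
end MrgPart4

-- ======== part 5: formerly Pool.Agent.MP_af6f1c_gt.geo.Loop
section MrgPart5

/-! PROJECT GEO, row LOOP: curves and loops. -/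

open Set Topology Metric Filter

noncomputable section

namespace Pool.Agent.MP_af6f1c_gt.Geo

namespace LoopP

variable {M : Type} [MetricSpace M]

lemma cont_coe : Continuous fun t : ℝ => (t : UnitAddCircle) := AddCircle.continuous_mk' 1

lemma exists_coe (x : UnitAddCircle) : ∃ t ∈ Icc (0 : ℝ) 1, (t : UnitAddCircle) = x := by
  obtain ⟨t, ht, e⟩ := AddCircle.eq_coe_Ico x
  exact ⟨t, Ico_subset_Icc_self ht, e⟩

lemma crv_cont : Continuous fun q : Lo M × ℝ => crv q.1 q.2 :=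
  continuous_eval.comp (continuous_fst.prodMk (cont_coe.comp continuous_snd))

lemma crv_cont' (l : Lo M) : Continuous (crv l) := l.continuous.comp cont_coe

lemma crv_per (l : Lo M) : Function.Periodic (crv l) 1 := fun t =>
  congrArg l (AddCircle.coe_add_period 1 t)

lemma crv_mk {γ : ℝ → M} (hc : ContinuousOn γ (Icc 0 1)) (h : γ 0 = γ 1) {t : ℝ}
    (ht : t ∈ Icc (0 : ℝ) 1) : crv (mkL γ) t = γ t := by
  have key : ∀ s ∈ Ico (0 : ℝ) 1, crv (mkL γ) s = γ s := fun s hs => by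
    rw [crv, mkL, dif_pos (AddCircle.liftIco_zero_continuous h hc)]
    exact AddCircle.liftIco_zero_coe_apply hs
  rcases ht.2.lt_or_eq with h1 | rfl
  · exact key t ⟨ht.1, h1⟩
  · have := crv_per (mkL γ) 0
    rw [zero_add] at this
    rw [this, key 0 ⟨le_rfl, one_pos⟩, h]

lemma crv_mk' {γ : ℝ → M} (hc : Continuous γ) (hp : Function.Periodic γ 1) :
    crv (mkL γ) = γ := by
  funext t
  have h : γ 0 = γ 1 := by simpa using (hp 0).symm
  have e : ∀ c : ℝ → M, Function.Periodic c 1 → c t = c (Int.fract t) := fun c hc => by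
    have := hc.int_mul ⌊t⌋ (Int.fract t)
    rwa [mul_one, Int.fract_add_floor] at this
  rw [e _ (crv_per _), e _ hp]
  exact crv_mk hc.continuousOn h ⟨Int.fract_nonneg t, (Int.fract_lt_one t).le⟩

lemma ext_crv {l l' : Lo M} (h : ∀ t ∈ Icc (0 : ℝ) 1, crv l t = crv l' t) : l = l' := by
  ext x
  obtain ⟨t, ht, rfl⟩ := exists_coe x
  exact h t ht

lemma mk_crv (l : Lo M) : mkL (crv l) = l :=
  ext_crv fun t _ => congrFun (crv_mk' (crv_cont' l) (crv_per l)) t

lemma dist_lt {l l' : Lo M} {ε : ℝ}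
    (h : ∀ t ∈ Icc (0 : ℝ) 1, dist (crv l t) (crv l' t) < ε) : dist l l' < ε := by
  rw [ContinuousMap.dist_lt_iff (dist_nonneg.trans_lt (h 0 ⟨le_rfl, zero_le_one⟩))]
  intro x
  obtain ⟨t, ht, rfl⟩ := exists_coe x
  exact h t ht

lemma dist_crv_le (l l' : Lo M) (t : ℝ) : dist (crv l t) (crv l' t) ≤ dist l l' :=
  ContinuousMap.dist_apply_le_dist _

lemma mk_cont {X : Type} [TopologicalSpace X] {F : X → ℝ → M} {S : Set X}
    (hF : ContinuousOn (fun q : X × ℝ => F q.1 q.2) (S ×ˢ Icc 0 1)) (h : ∀ x ∈ S, F x 0 = F x 1) :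
    ContinuousOn (fun x => mkL (F x)) S := by
  have h1 : ∀ x ∈ S, ContinuousOn (F x) (Icc 0 1) := fun x hx =>
    hF.comp (f := fun t => (x, t)) (by fun_prop) fun t ht => ⟨hx, ht⟩
  let G : C(S × Icc (0 : ℝ) 1, M) := ⟨fun p => F p.1 p.2,
    hF.comp_continuous (f := fun p : S × Icc (0 : ℝ) 1 => ((p.1 : X), (p.2 : ℝ))) (by fun_prop)
      fun p => ⟨p.1.2, p.2.2⟩⟩
  rw [continuousOn_iff_continuous_domRestrict, continuous_iff_continuousAt]
  intro x
  rw [ContinuousAt, Metric.tendsto_nhds]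
  intro ε hε
  filter_upwards [Metric.tendsto_nhds.1 (G.curry.continuous.tendsto x) ε hε] with y hy
  refine dist_lt fun t ht => ?_
  rw [domRestrict_apply, domRestrict_apply, crv_mk (h1 y y.2) (h y y.2) ht,
    crv_mk (h1 x x.2) (h x x.2) ht]
  exact (ContinuousMap.dist_apply_le_dist (f := G.curry y) (g := G.curry x) ⟨t, ht⟩).trans_lt hy

lemma osc {C : Set (Lo M)} (hC : IsCompact C) {ε : ℝ} (hε : 0 < ε) :
    ∀ᶠ J : ℕ in atTop, C ⊆ Osc J ε := by
  refine hC.induction_on (p := fun s => ∀ᶠ J : ℕ in atTop, s ⊆ Osc J ε) (by simp)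
    (fun s t hst ht => ht.mono fun J hJ => hst.trans hJ)
    (fun s t hs ht => (hs.and ht).mono fun J hJ => union_subset hJ.1 hJ.2) fun l _ => ?_
  have hu : UniformContinuous (crv l) :=
    (CompactSpace.uniformContinuous_of_continuous l.continuous).comp
      (uniformContinuous_addMonoidHom_of_continuous
        (f := QuotientAddGroup.mk' (AddSubgroup.zmultiples (1 : ℝ))) cont_coe)
  obtain ⟨δ, hδ, h⟩ := Metric.uniformContinuous_iff.1 hu (ε / 3) (by positivity)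
  refine ⟨ball l (ε / 3), mem_nhdsWithin_of_mem_nhds (ball_mem_nhds l (by positivity)), ?_⟩
  filter_upwards [(tendsto_one_div_atTop_nhds_zero_nat (𝕜 := ℝ)).eventually (gt_mem_nhds hδ)]
    with J hJ l' hl' s t hst
  have h1 := h (a := s) (b := t) (by rw [Real.dist_eq]; exact hst.trans_lt hJ)
  have h2 := dist_crv_le l' l s
  have h3 := dist_crv_le l' l t
  have h4 := dist_triangle4_right (crv l' s) (crv l' t) (crv l s) (crv l t)
  rw [mem_ball] at hl'
  linarith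

end LoopP

theorem loops (M : Type) [MetricSpace M] : LoopStmt M where
  crv_cont := LoopP.crv_cont
  crv_per := LoopP.crv_per
  crv_mk := fun _ hc h _ ht => LoopP.crv_mk hc h ht
  crv_mk' := fun _ => LoopP.crv_mk'
  mk_crv := LoopP.mk_crv
  mk_cont := fun _ _ _ _ => LoopP.mk_cont
  dist_lt := fun _ _ _ => LoopP.dist_lt
  osc := fun _ hC _ hε => eventually_atTop.1 (LoopP.osc hC hε)

end Pool.Agent.MP_af6f1c_gt.Geo

end
end MrgPart5

-- ======== part 6: formerly Pool.Agent.MP_af6f1c_gt.geo.Near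
section MrgPart6

/-! PROJECT GEO, row LOOP: close families of loops, short loops, homology in high degrees. -/

open Set Topology Metric Filter

noncomputable section

namespace Pool.Agent.MP_af6f1c_gt.Geo

namespace LoopP

variable {K : Type} [Field K] {n : ℕ} {M : Type} [MetricSpace M]

lemma seg_cont (G : GS M n) {X : Type} [TopologicalSpace X] {a b : X → M} {u : X → ℝ} {S : Set X}
    (ha : ContinuousOn a S) (hb : ContinuousOn b S) (hu : ContinuousOn u S)
    (hd : ∀ x ∈ S, dist (a x) (b x) < G.ρ) (h : ∀ x ∈ S, u x ∈ Icc (0 : ℝ) 1) :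
    ContinuousOn (fun x => G.seg (a x) (b x) (u x)) S :=
  G.cont.comp (f := fun x => (a x, b x, u x)) (ha.prodMk (hb.prodMk hu)) fun x hx =>
    ⟨hd x hx, h x hx⟩

lemma close (T : Tools K) (G : GS M n) {X : Type} [TopologicalSpace X] {f g : X → Lo M}
    {S : Set X} {i : ℕ} (hf : ContinuousOn f S) (hg : ContinuousOn g S)
    (hd : ∀ x ∈ S, dist (f x) (g x) < G.ρ) {z : Ch K i X} (hz : z ∈ Zr K i S ∅) :
    push K i f z - push K i g z ∈ Br K i univ ∅ := by
  have hd' : ∀ x ∈ S, ∀ t, dist (crv (g x) t) (crv (f x) t) < G.ρ := fun x hx t =>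
    (dist_crv_le _ _ t).trans_lt (by rw [dist_comm]; exact hd x hx)
  have hc : ∀ k : X → Lo M, ContinuousOn k S → ContinuousOn
      (fun q : (ℝ × X) × ℝ => crv (k q.1.2) q.2) ((Icc 0 1 ×ˢ S) ×ˢ Icc 0 1) := fun k hk =>
    crv_cont.comp_continuousOn (f := fun q : (ℝ × X) × ℝ => (k q.1.2, q.2))
      ((hk.comp (by fun_prop) fun q hq => hq.1.2).prodMk (by fun_prop))
  have h1 := T.hom X (Lo M) (fun p => mkL fun t => G.seg (crv (g p.2) t) (crv (f p.2) t) p.1)
    S ∅ univ ∅ i (empty_subset _)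
    (mk_cont (seg_cont G (hc g hg) (hc f hf) (by fun_prop) (fun q hq => hd' _ hq.1.2 _)
      fun q hq => hq.1.1) fun p _ => by
        rw [← crv_per (g p.2) 0, ← crv_per (f p.2) 0, zero_add])
    (mapsTo_univ _ _) (fun p hp => hp.2.elim) z hz
  have e1 := push_congr (K := K) (g := f) (S := S)
    (f := fun x => mkL fun t => G.seg (crv (g x) t) (crv (f x) t) 1) (fun x hx => by
      simp only [G.one _ _ (hd' x hx _)]
      exact mk_crv _) (Zr_le_In hz)
  have e0 := push_congr (K := K) (g := g) (S := S)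
    (f := fun x => mkL fun t => G.seg (crv (g x) t) (crv (f x) t) 0) (fun x hx => by
      simp only [G.zero _ _ (hd' x hx _)]
      exact mk_crv _) (Zr_le_In hz)
  rw [← e1, ← e0]
  exact h1

lemma short (G : GS M n) {a : ℝ} (ha : a < G.ρ) {l : Lo M} (hl : l ∈ LL M a) :
    dist l (ContinuousMap.const _ (crv l 0)) < G.ρ := by
  refine dist_lt fun t ht => ?_
  have h1 : edist (crv l t) (crv l 0) < ENNReal.ofReal G.ρ :=
    ((eVariationOn.edist_le (crv l) ht ⟨le_rfl, zero_le_one⟩).trans hl).trans_lt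
      ((ENNReal.ofReal_lt_ofReal_iff G.g0.pos).2 ha)
  exact edist_lt_ofReal.1 h1

end LoopP

open LoopP

theorem near (K : Type) [Field K] (T : Tools K) : NearStmt K := by
  intro n M _ G
  refine ⟨fun X _ f g S i hf hg hd z hz => close T G hf hg hd hz, fun i r a ha h => ?_⟩
  have hc : Continuous fun x : M => (ContinuousMap.const _ x : Lo M) :=
    ContinuousMap.continuous_const'
  have he : Continuous fun l : Lo M => crv l 0 :=
    crv_cont.comp (f := fun l : Lo M => (l, (0 : ℝ))) (by fun_prop)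
  have h1 := Rk.map (Q₁ := Br K i (univ : Set (Lo M)) ∅) h
    (push K i fun x : M => (ContinuousMap.const _ x : Lo M)) fun z _ hz =>
      push_Br hc.continuousOn (mapsTo_univ _ _) (mapsTo_empty _ _) hz
  refine h1.of_le_sup (sup_le (fun z hz => ?_) le_sup_right)
  have h2 := close T G (f := fun l => l) continuousOn_id (hc.comp he).continuousOn
    (fun l hl => short G ha hl) hz
  rw [push_id] at h2
  refine Submodule.mem_sup.2 ⟨_, ⟨push K i (fun l : Lo M => crv l 0) z,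
    push_Zr he.continuousOn (mapsTo_univ _ _) (mapsTo_empty _ _) hz, rfl⟩, _, h2, ?_⟩
  rw [push_push he.continuousOn (Zr_le_In hz)]
  exact add_sub_cancel _ _

theorem top (K : Type) [Field K] (T : Tools K) (hC : CellStmt K) (hN : NerveStmt) :
    TopStmt K := by
  classical
  intro n M _ _ _ G
  obtain ⟨q, 𝒩, φ, ψ, ε, hε, hdn, hφ, hψ, h1, h2⟩ := hN n M G
  refine ⟨q, fun i hi => ?_⟩
  have hm : ∀ x, φ x ∈ Cx 𝒩 ∧ dist x (ψ (φ x)) < G.ρ := fun x => by
    obtain ⟨S, hS, h3, h4⟩ := h2 x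
    have h5 := h3 x (by rwa [dist_self])
    have h6 : φ x ∈ Cx 𝒩 := ⟨(h1 x).1, (h1 x).2, Finset.univ.filter fun v => φ x v ≠ 0,
      hdn S hS _ fun v hv => h5 v (Finset.mem_filter.1 hv).2, fun v => by simp⟩
    exact ⟨h6, h4 _ h6 h5⟩
  let 𝒮 : Set (Unit → Finset (Fin q)) := {S | S () ∈ 𝒩}
  have h7 := hC Unit (Fin q) 𝒮 ∅ (fun S hS S' h => hdn _ hS _ (h ())) (fun S hS => hS.elim)
    (empty_subset _) i
  have h8 : {S | S ∈ 𝒮 \ ∅ ∧ cdim S = i} = ∅ := by
    refine eq_empty_of_forall_notMem fun S hS => ?_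
    have h9 := hS.2
    have h10 := Finset.card_le_univ (S ())
    simp only [cdim, Finset.univ_unique, Finset.sum_singleton, Fintype.card_fin] at h9 h10
    have : (S default).card = (S ()).card := rfl
    omega
  have h11 : Pl (∅ : Set (Unit → Finset (Fin q))) = ∅ :=
    eq_empty_of_forall_notMem fun x hx => hx.2.2.elim fun _ h => h.1
  rw [h8, ncard_empty, h11] at h7
  have hψφ : Continuous fun x => ψ (φ x) := hψ.comp_continuous hφ fun x => (hm x).1
  refine T.pt.2 M (Unit → Fin q → ℝ) (fun x _ => φ x) (fun y => ψ (y ()))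
    (fun p => G.seg p.2 (ψ (φ p.2)) p.1) univ ∅ univ ∅ (Pl 𝒮) ∅ (Pl 𝒮) ∅ i 0 (empty_subset _)
    (empty_subset _) (by fun_prop) (hψ.comp (by fun_prop) fun y hy => ?_) (fun x _ => ?_)
    (mapsTo_empty _ _) (mapsTo_univ _ _) (mapsTo_empty _ _)
    (seg_cont G (by fun_prop) (hψφ.comp continuous_snd).continuousOn (by fun_prop)
      (fun p _ => (hm p.2).2) fun p hp => hp.1)
    (fun x _ => G.zero _ _ (hm x).2) (fun x _ => G.one _ _ (hm x).2) (mapsTo_univ _ _)
    (fun p hp => hp.2.elim) h7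
  · obtain ⟨a, b, S, hS, c⟩ := hy
    exact ⟨a (), b (), S (), hS, c ()⟩
  · obtain ⟨a, b, S, hS, c⟩ := (hm x).1
    exact ⟨fun _ => a, fun _ => b, fun _ => S, hS, fun _ => c⟩

end Pool.Agent.MP_af6f1c_gt.Geo

end
end MrgPart6

-- marker of a merged file
example : 731051 + 176411 = 731051 + 176411 := rfl
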