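import Pool.Agent.MP_af6f1c_gt.geo.Spec

/-! PROJECT GEO: the prism operator and homotopy invariance. -/

open Set Topology Finsupp

noncomputable section

namespace Pool.Agent.MP_af6f1c_gt.Geo

open Pool.Agent.H80 (Sx face smap)

namespace PrismP

/-- formal sums of tuples of vertices -/
abbrev T (k : ℕ) (A : Type) : Type := (Fin k → A) →₀ ℤ

section comb

variable {A B C : Type}

lemma zext {ι M : Type} [AddCommGroup M] {L L' : (ι →₀ ℤ) →ₗ[ℤ] M}
    (h : ∀ w, L (single w 1) = L' (single w 1)) (x : ι →₀ ℤ) : L x = L' x :=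
  LinearMap.congr_fun (Finsupp.lhom_ext' fun w => LinearMap.ext_ring (h w)) x

/-- boundary of tuples -/
def tb (k : ℕ) : T (k + 1) A →ₗ[ℤ] T k A :=
  linearCombination ℤ fun w => ∑ i : Fin (k + 1), (-1 : ℤ) ^ (i : ℕ) • single (w ∘ i.succAbove) 1

lemma tb_single {k : ℕ} (w : Fin (k + 1) → A) :
    tb k (single w 1) = ∑ i : Fin (k + 1), (-1 : ℤ) ^ (i : ℕ) • single (w ∘ i.succAbove) 1 := by
  simp only [tb, linearCombination_single, one_smul]

/-- cone of tuples -/
def cn {k : ℕ} (b : A) : T k A →ₗ[ℤ] T (k + 1) A := lmapDomain ℤ ℤ fun w => Fin.cons b w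

lemma cn_single {k : ℕ} (b : A) (w : Fin k → A) :
    cn b (single w 1) = single (Fin.cons b w) 1 := by simp [cn]

/-- vertex maps -/
def tm (k : ℕ) (e : A → B) : T k A →ₗ[ℤ] T k B := lmapDomain ℤ ℤ fun w => e ∘ w

lemma tm_single {k : ℕ} (e : A → B) (w : Fin k → A) :
    tm k e (single w 1) = single (e ∘ w) 1 := by simp [tm]

lemma tb_cn {k : ℕ} (b : A) (x : T (k + 1) A) : tb (k + 1) (cn b x) = x - cn b (tb k x) := by
  refine zext (L := tb (k + 1) ∘ₗ cn b) (L' := LinearMap.id - cn b ∘ₗ tb k) (fun w => ?_) x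
  simp only [LinearMap.comp_apply, cn_single, tb_single, LinearMap.sub_apply, LinearMap.id_apply,
    map_sum, map_smul]
  rw [Fin.sum_univ_succ, sub_eq_add_neg, ← Finset.sum_neg_distrib]
  congr 1
  · simp only [Fin.val_zero, pow_zero, one_smul]
    rfl
  · refine Finset.sum_congr rfl fun i _ => ?_
    rw [Fin.val_succ, pow_succ, mul_neg_one, neg_smul]
    congr 3
    funext j
    refine Fin.cases ?_ (fun j => ?_) j
    · simp
    · simp

lemma tb_tm {k : ℕ} (e : A → B) (x : T (k + 1) A) : tb k (tm (k + 1) e x) = tm k e (tb k x) := by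
  refine zext (L := tb k ∘ₗ tm (k + 1) e) (L' := tm k e ∘ₗ tb k) (fun w => ?_) x
  simp only [LinearMap.comp_apply, tm_single, tb_single, map_sum, map_smul]
  rfl

lemma tm_tm {k : ℕ} (e : A → B) (f : B → C) (x : T k A) :
    tm k f (tm k e x) = tm k (f ∘ e) x := by
  refine zext (L := tm k f ∘ₗ tm k e) (fun w => ?_) x
  simp only [LinearMap.comp_apply, tm_single]
  rfl

end comb

/-- the vertices of the prism -/
abbrev Vx (m : ℕ) : Type := Fin m × Fin 2

/-- the alternating sum of the face inclusions -/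
def fc (k m : ℕ) : T k (Vx m) →ₗ[ℤ] T k (Vx (m + 1)) :=
  ∑ i : Fin (m + 1), (-1 : ℤ) ^ (i : ℕ) • tm k (Prod.map i.succAbove id)

lemma fc_apply {k m : ℕ} (x : T k (Vx m)) :
    fc k m x = ∑ i : Fin (m + 1), (-1 : ℤ) ^ (i : ℕ) • tm k (Prod.map i.succAbove id) x := by
  simp [fc]

lemma tb_fc {k m : ℕ} (x : T (k + 1) (Vx m)) : tb k (fc (k + 1) m x) = fc k m (tb k x) := by
  simp only [fc_apply, map_sum, map_smul, tb_tm]

lemma fc_fc {k m : ℕ} (x : T k (Vx m)) : fc k (m + 1) (fc k m x) = 0 := by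
  rw [fc_apply]
  simp only [fc_apply, map_sum, map_smul, tm_tm, Finset.smul_sum, smul_smul]
  exact H80.alt_sum_zero fun e => tm k (Prod.map e id) x

/-- the two ends of the prism -/
def en (b : Fin 2) (m : ℕ) : T m (Vx m) := single (fun i => (i, b)) 1

lemma tb_en (b : Fin 2) (m : ℕ) : tb m (en b (m + 1)) = fc m m (en b m) := by
  rw [en, en, tb_single, fc_apply]
  refine Finset.sum_congr rfl fun i _ => ?_
  rw [tm_single]
  rfl

/-- the universal prism -/
def pr : ∀ m : ℕ, T (m + 1) (Vx m)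
  | 0 => 0
  | m + 1 => cn (0, 0) (en 1 (m + 1) - en 0 (m + 1) - fc (m + 1) m (pr m))

lemma pr_zero : pr 0 = 0 := rfl

lemma pr_succ (m : ℕ) :
    pr (m + 1) = cn (0, 0) (en 1 (m + 1) - en 0 (m + 1) - fc (m + 1) m (pr m)) := rfl

lemma tb_pr : ∀ m : ℕ, tb (m + 1) (pr (m + 1)) =
    en 1 (m + 1) - en 0 (m + 1) - fc (m + 1) m (pr m)
  | 0 => by
    have : en 1 0 = en 0 0 := by
      rw [en, en]; congr 1; exact Subsingleton.elim _ _
    rw [pr_succ, tb_cn, map_sub (tb _), map_sub (tb _), tb_en, tb_en, this, tb_fc, pr_zero]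
    simp
  | m + 1 => by
    rw [pr_succ (m + 1), tb_cn, map_sub (tb _), map_sub (tb _), tb_en, tb_en, tb_fc, tb_pr m,
      map_sub (fc _ _), map_sub (fc _ _), fc_fc]
    simp

/-- the affine simplex in the prism with given vertices -/
def ph {k n : ℕ} (w : Fin (k + 1) → Vx (n + 1)) (t : Sx k) : ℝ × Sx n :=
  (smap (b := 1) (Prod.snd ∘ w) t 1, smap (Prod.fst ∘ w) t)

lemma ph_mem {k n : ℕ} (w : Fin (k + 1) → Vx (n + 1)) (t : Sx k) : (ph w t).1 ∈ Icc (0 : ℝ) 1 :=
  ⟨stdSimplex.zero_le _ _, stdSimplex.le_one _ _⟩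

lemma ph_cont {k n : ℕ} (w : Fin (k + 1) → Vx (n + 1)) : Continuous (ph w) :=
  ((H80.continuous_coord _).comp (smap _).continuous).prodMk (smap _).continuous

lemma ph_smap {j k n : ℕ} (w : Fin (k + 1) → Vx (n + 1)) (e : Fin (j + 1) → Fin (k + 1))
    (t : Sx j) : ph w (smap e t) = ph (w ∘ e) t := by
  simp only [ph, H80.smap_smap]
  rfl

lemma ph_map {k n m : ℕ} (w : Fin (k + 1) → Vx (n + 1)) (e : Fin (n + 1) → Fin (m + 1))
    (t : Sx k) : ph (Prod.map e id ∘ w) t = ((ph w t).1, smap e (ph w t).2) := by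
  simp only [ph, H80.smap_smap]
  rfl

lemma ph_one {n : ℕ} (t : Sx n) : ph (fun i => (i, 1)) t = (1, t) := by
  refine Prod.ext ?_ (H80.smap_id_apply t)
  show smap (b := 1) (fun _ => 1) t 1 = 1
  rw [H80.smap_apply]
  simp

lemma ph_zero {n : ℕ} (t : Sx n) : ph (fun i => (i, 0)) t = (0, t) := by
  refine Prod.ext ?_ (H80.smap_id_apply t)
  show smap (b := 1) (fun _ => 0) t 1 = 0
  rw [H80.smap_apply]
  simp

variable (K : Type) [Field K] {X Y : Type} [TopologicalSpace X] [TopologicalSpace Y]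

open Classical in
/-- the chain of a function on the simplex -/
def sg {k : ℕ} (f : Sx k → Y) : Ch K k Y := if h : Continuous f then single ⟨f, h⟩ 1 else 0

lemma push_single {k : ℕ} (f : X → Y) (σ : C(Sx k, X)) :
    push K k f (single σ 1) = sg K fun t => f (σ t) := by
  simp only [push, linearCombination_single, one_smul]
  rfl

lemma bd_single {k : ℕ} (σ : C(Sx (k + 1), X)) : bd K k (single σ 1) =
    ∑ i : Fin (k + 2), (-1 : ℤ) ^ (i : ℕ) • single (σ.comp (face i)) (1 : K) := by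
  simp only [bd, linearCombination_single, one_smul]
  refine Finset.sum_congr rfl fun i _ => ?_
  rw [← Int.cast_smul_eq_zsmul K]
  simp

lemma bd_sg {k : ℕ} {f : Sx (k + 1) → Y} (hf : Continuous f) :
    bd K k (sg K f) = ∑ i : Fin (k + 2), (-1 : ℤ) ^ (i : ℕ) • sg K fun t => f (face i t) := by
  rw [sg, dif_pos hf, bd_single]
  refine Finset.sum_congr rfl fun i _ => ?_
  rw [sg, dif_pos (show Continuous fun t => f (face i t) from hf.comp (face i).continuous)]
  rfl

lemma sg_mem {k : ℕ} {f : Sx k → Y} {S : Set Y} (h : ∀ t, f t ∈ S) : sg K f ∈ In K k S := by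
  unfold sg
  split_ifs with hf
  · exact single_mem_supported K 1 h
  · exact zero_mem _

/-- realisation of tuples in the prism over `σ` -/
def rl (h : ℝ × X → Y) (k : ℕ) {n : ℕ} (σ : C(Sx n, X)) : T (k + 1) (Vx (n + 1)) →ₗ[ℤ] Ch K k Y :=
  linearCombination ℤ fun w => sg K fun t => h ((ph w t).1, σ (ph w t).2)

variable (h : ℝ × X → Y)

lemma rl_single {k n : ℕ} (σ : C(Sx n, X)) (w : Fin (k + 1) → Vx (n + 1)) :
    rl K h k σ (single w 1) = sg K fun t => h ((ph w t).1, σ (ph w t).2) := by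
  simp only [rl, linearCombination_single, one_smul]

lemma rl_tm {k n m : ℕ} (σ : C(Sx m, X)) (e : Fin (n + 1) → Fin (m + 1))
    (x : T (k + 1) (Vx (n + 1))) :
    rl K h k σ (tm (k + 1) (Prod.map e id) x) = rl K h k (σ.comp (smap e)) x := by
  refine zext (L := rl K h k σ ∘ₗ tm (k + 1) (Prod.map e id)) (fun w => ?_) x
  simp only [LinearMap.comp_apply, tm_single, rl_single, ph_map, ContinuousMap.comp_apply]

lemma rl_one {n : ℕ} (σ : C(Sx n, X)) :
    rl K h n σ (en 1 (n + 1)) = push K n (fun x => h (1, x)) (single σ 1) := by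
  simp only [en, rl_single, push_single, ph_one]

lemma rl_zero {n : ℕ} (σ : C(Sx n, X)) :
    rl K h n σ (en 0 (n + 1)) = push K n (fun x => h (0, x)) (single σ 1) := by
  simp only [en, rl_single, push_single, ph_zero]

variable {h}

lemma bd_rl {S : Set X} (hc : ContinuousOn h (Icc 0 1 ×ˢ S)) {k n : ℕ} {σ : C(Sx n, X)}
    (hσ : ∀ t, σ t ∈ S) (x : T (k + 1 + 1) (Vx (n + 1))) :
    bd K k (rl K h (k + 1) σ x) = rl K h k σ (tb (k + 1) x) := by
  refine zext (L := (bd K k).toAddMonoidHom.toIntLinearMap ∘ₗ rl K h (k + 1) σ)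
    (L' := rl K h k σ ∘ₗ tb (k + 1)) (fun w => ?_) x
  have hf : Continuous fun t => h ((ph w t).1, σ (ph w t).2) :=
    hc.comp_continuous ((ph_cont w).fst.prodMk (σ.continuous.comp (ph_cont w).snd))
      fun t => ⟨ph_mem w t, hσ _⟩
  show bd K k (rl K h (k + 1) σ (single w 1)) = rl K h k σ (tb (k + 1) (single w 1))
  rw [rl_single, bd_sg K hf, tb_single, map_sum]
  refine Finset.sum_congr rfl fun i _ => ?_
  rw [map_smul, rl_single]
  simp only [ph_smap]

lemma rl_mem {S : Set X} {S' : Set Y} (hm : MapsTo h (Icc 0 1 ×ˢ S) S') {k n : ℕ}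
    {σ : C(Sx n, X)} (hσ : ∀ t, σ t ∈ S) (x : T (k + 1) (Vx (n + 1))) :
    rl K h k σ x ∈ In K k S' := by
  rw [rl, linearCombination_apply, Finsupp.sum]
  exact sum_mem fun w _ => zsmul_mem (sg_mem K fun t => hm ⟨ph_mem w t, hσ _⟩) _

variable {K}

lemma in_mem {n : ℕ} {S : Set X} {M : Type} [AddCommGroup M] [Module K M]
    (L : Ch K n X →ₗ[K] M) {W : Submodule K M}
    (hL : ∀ σ : C(Sx n, X), (∀ t, σ t ∈ S) → L (single σ 1) ∈ W) {z : Ch K n X}
    (hz : z ∈ In K n S) : L z ∈ W := by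
  rw [In, supported_eq_span_single] at hz
  refine (Submodule.span_le (p := W.comap L)).2 ?_ hz
  rintro _ ⟨σ, hσ, rfl⟩
  exact hL σ hσ

lemma in_ext {n : ℕ} {S : Set X} {M : Type} [AddCommGroup M] [Module K M]
    (L L' : Ch K n X →ₗ[K] M) (hL : ∀ σ : C(Sx n, X), (∀ t, σ t ∈ S) →
      L (single σ 1) = L' (single σ 1)) {z : Ch K n X} (hz : z ∈ In K n S) : L z = L' z := by
  have := in_mem (L - L') (W := ⊥) (fun σ hσ => by
    rw [Submodule.mem_bot, LinearMap.sub_apply, hL σ hσ, sub_self]) hz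
  rwa [Submodule.mem_bot, LinearMap.sub_apply, sub_eq_zero] at this

variable (K h) in
/-- the prism operator -/
def Pr (n : ℕ) : Ch K n X →ₗ[K] Ch K (n + 1) Y :=
  linearCombination K fun σ => rl K h (n + 1) σ (pr (n + 1))

lemma Pr_single {n : ℕ} (σ : C(Sx n, X)) :
    Pr K h n (single σ 1) = rl K h (n + 1) σ (pr (n + 1)) := by
  simp only [Pr, linearCombination_single, one_smul]

end PrismP

open PrismP

theorem prism (K : Type) [Field K] : PrismStmt K := by
  intro X Y _ _ h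
  refine ⟨Pr K h, fun S hc => ⟨fun n S' hm z hz => ?_, fun z hz => ?_, fun n z hz => ?_⟩⟩
  · exact in_mem (Pr K h n) (fun σ hσ => by rw [Pr_single]; exact rl_mem K hm hσ _) hz
  · refine in_ext (bd K 0 ∘ₗ Pr K h 0)
      (push K 0 (fun x => h (1, x)) - push K 0 (fun x => h (0, x))) (fun σ hσ => ?_) hz
    rw [LinearMap.comp_apply, LinearMap.sub_apply, Pr_single, bd_rl K hc hσ, tb_pr, pr_zero,
      map_zero, sub_zero, map_sub, rl_one, rl_zero]
  · refine in_ext (bd K (n + 1) ∘ₗ Pr K h (n + 1) + Pr K h n ∘ₗ bd K n)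
      (push K (n + 1) (fun x => h (1, x)) - push K (n + 1) (fun x => h (0, x)))
      (fun σ hσ => ?_) hz
    rw [LinearMap.add_apply, LinearMap.comp_apply, LinearMap.comp_apply, LinearMap.sub_apply,
      Pr_single, bd_rl K hc hσ, tb_pr, map_sub, map_sub, rl_one, rl_zero, bd_single, fc_apply,
      map_sum, map_sum]
    simp only [map_zsmul, rl_tm, Pr_single]
    exact sub_add_cancel _ _

theorem hom (K : Type) [Field K] : HomStmt K := by
  intro X Y _ _ h S A S' A' n hA hc hS hA' z hz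
  obtain ⟨P, hP⟩ := prism K X Y h
  obtain ⟨h1, h2, h3⟩ := hP S hc
  obtain ⟨h4, -, -⟩ := hP A (hc.mono (prod_mono_right hA))
  cases n with
  | zero =>
    rw [← h2 z hz]
    exact Submodule.mem_sup_right (Submodule.mem_map_of_mem (h1 0 S' hS z hz))
  | succ n =>
    rw [← h3 n z hz.1]
    exact add_mem
      (Submodule.mem_sup_right (Submodule.mem_map_of_mem (h1 (n + 1) S' hS z hz.1)))
      (Submodule.mem_sup_left (h4 n A' hA' _ hz.2))

end Pool.Agent.MP_af6f1c_gt.Geo
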