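import Mathlib.Analysis.Convex.Deriv
import Mathlib.Analysis.Calculus.ContDiff.Basic
import Mathlib.Analysis.Calculus.ContDiff.Operations
import Mathlib.Analysis.Normed.Module.FiniteDimension
import Pool.Agent.MP_af6f1c_gt.geo.Spec
import Pool.Agent.MP_af6f1c_gt.geo.Base

/-! PROJECT GEO, row SPL: splitting off definite directions of the Hessian. -/

open Set Topology Metric Module Filter

noncomputable section

namespace Pool.Agent.MP_af6f1c_gt.Geo

namespace SplP

lemma lp_homeo {K : Type} [Field K] (T : Tools K) {X Y : Type} [TopologicalSpace X]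
    [TopologicalSpace Y] (e : Y ≃ₜ X) {O : Set X} {y₀ : Y} {n r : ℕ}
    (h : Lp K n (e ⁻¹' O) y₀ r) : Lp K n O (e y₀) r :=
  T.dom X Y e.symm e (fun q => q.2) (e y₀) y₀ O univ (e ⁻¹' O) univ n r univ_mem univ_mem
    e.symm.continuous.continuousOn e.continuous.continuousOn (by simp) rfl
    (fun x hx => by simpa using hx.2) (fun _ hy => hy.2) continuous_snd.continuousOn
    (fun _ _ => rfl) (fun x _ => by simp) (fun _ _ => rfl) (fun _ hq => hq.2.2) h

variable {D : Type} [NormedAddCommGroup D] [NormedSpace ℝ D] {F : D → ℝ}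

lemma line0 (p v : D) (t : ℝ) : HasDerivAt (fun s : ℝ => p + s • v) v t := by
  simpa using ((hasDerivAt_id t).smul_const v).const_add p

lemma line1 {p v : D} {t : ℝ} (h : DifferentiableAt ℝ F (p + t • v)) :
    HasDerivAt (fun s : ℝ => F (p + s • v)) (fderiv ℝ F (p + t • v) v) t :=
  h.hasFDerivAt.comp_hasDerivAt t (line0 p v t)

lemma line2 {p v : D} {t : ℝ} (h : ContDiffAt ℝ 2 F (p + t • v)) :
    deriv^[2] (fun s : ℝ => F (p + s • v)) t = D2 F (p + t • v) v v := by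
  have h0 : ∀ᶠ s in 𝓝 t, ContDiffAt ℝ 2 F (p + s • v) :=
    (line0 p v t).continuousAt.eventually (h.eventually (by simp))
  have h1 : deriv (fun s : ℝ => F (p + s • v)) =ᶠ[𝓝 t] fun s => fderiv ℝ F (p + s • v) v :=
    h0.mono fun s hs => (line1 (hs.differentiableAt (by simp))).deriv
  have h2 : DifferentiableAt ℝ (fderiv ℝ F) (p + t • v) :=
    (h.fderiv_right (m := 1) (by norm_num)).differentiableAt (by simp)
  have h3 : HasDerivAt (fun s : ℝ => fderiv ℝ F (p + s • v)) (D2 F (p + t • v) v) t :=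
    h2.hasFDerivAt.comp_hasDerivAt t (line0 p v t)
  have h4 := h3.clm_apply (hasDerivAt_const t v)
  show deriv (deriv fun s : ℝ => F (p + s • v)) t = _
  rw [h1.deriv_eq, h4.deriv]
  simp

lemma D2_neg (x u v : D) : D2 (fun y => -F y) x u v = -D2 F x u v := by
  have : fderiv ℝ (fun y => -F y) = fun y => -fderiv ℝ F y := funext fun _ => fderiv_fun_neg
  simp only [D2, this, fderiv_fun_neg, neg_apply]

section conc

variable {B : Set D}

lemma conc_line (hB : Convex ℝ B) (hF : ∀ x ∈ B, ContDiffAt ℝ 2 F x) {p v : D} (hp : p ∈ B)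
    (hq : p + v ∈ B) (h : ∀ x ∈ B, D2 F x v v < 0) :
    StrictConcaveOn ℝ (Icc 0 1) fun s : ℝ => F (p + s • v) := by
  refine strictConcaveOn_of_deriv2_neg (convex_Icc 0 1) (fun s hs => ?_) fun s hs => ?_
  · exact (line1 ((hF _ (hB.add_smul_mem hp hq hs)).differentiableAt
      (by simp))).continuousAt.continuousWithinAt
  · have := hB.add_smul_mem hp hq (interior_subset hs)
    rw [line2 (hF _ this)]
    exact h _ this

variable {U : Submodule ℝ D}

lemma conc_le (hB : Convex ℝ B) (hF : ∀ x ∈ B, ContDiffAt ℝ 2 F x)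
    (h : ∀ x ∈ B, ∀ u ∈ U, u ≠ 0 → D2 F x u u < 0) {p v : D} (hp : p ∈ B) (hq : p + v ∈ B)
    (hv : v ∈ U) (h0 : fderiv ℝ F p v = 0) : F (p + v) ≤ F p := by
  rcases eq_or_ne v 0 with rfl | hne
  · simp
  have h1 := (conc_line hB hF hp hq fun x hx => h x hx v hv hne).concaveOn
  have h2 : HasDerivAt (fun s : ℝ => F (p + s • v)) (fderiv ℝ F (p + (0 : ℝ) • v) v) 0 :=
    line1 (by simpa using (hF p hp).differentiableAt (by simp))
  have h3 := h1.slope_le_of_hasDerivAt (left_mem_Icc.2 zero_le_one) (right_mem_Icc.2 zero_le_one)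
    zero_lt_one h2
  simp only [zero_smul, add_zero, h0, slope_def_field, one_smul, sub_zero, div_one] at h3
  linarith

lemma sconc (hB : Convex ℝ B) (hF : ∀ x ∈ B, ContDiffAt ℝ 2 F x)
    (h : ∀ x ∈ B, ∀ u ∈ U, u ≠ 0 → D2 F x u u < 0) {x : D} {S : Set U} (hS : Convex ℝ S)
    (hx : ∀ e ∈ S, x + e ∈ B) : StrictConcaveOn ℝ S fun e : U => F (x + e) := by
  refine ⟨hS, fun e₁ h₁ e₂ h₂ hne a b ha hb hab => ?_⟩
  have e : x + e₁ + ((e₂ - e₁ : U) : D) = x + e₂ := by simp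
  have hv : ((e₂ - e₁ : U) : D) ≠ 0 := by
    rw [Ne, Submodule.coe_eq_zero, sub_eq_zero]
    exact hne.symm
  have h1 := (conc_line hB hF (hx _ h₁) (e ▸ hx _ h₂) fun y hy => h y hy _ (e₂ - e₁).2 hv).2
    (left_mem_Icc.2 zero_le_one) (right_mem_Icc.2 zero_le_one) zero_ne_one ha hb hab
  have e' : x + e₁ + (a • (0 : ℝ) + b • (1 : ℝ)) • ((e₂ - e₁ : U) : D) =
      x + ((a • e₁ + b • e₂ : U) : D) := by
    obtain rfl : a = 1 - b := by linarith
    simp only [smul_eq_mul, mul_zero, mul_one, zero_add, Submodule.coe_sub, Submodule.coe_add,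
      Submodule.coe_smul]
    module
  simp only [zero_smul, add_zero, one_smul, e, e'] at h1
  exact h1

lemma conv_le (hB : Convex ℝ B) (hF : ∀ x ∈ B, ContDiffAt ℝ 2 F x)
    (h : ∀ x ∈ B, ∀ u ∈ U, u ≠ 0 → 0 < D2 F x u u) {p v : D} (hp : p ∈ B) (hq : p + v ∈ B)
    (hv : v ∈ U) (h0 : fderiv ℝ F p v = 0) : F p ≤ F (p + v) := by
  have := conc_le (F := fun y => -F y) (U := U) hB (fun x hx => (hF x hx).neg)
    (fun x hx u hu hne => by rw [D2_neg]; linarith [h x hx u hu hne]) hp hq hv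
    (by rw [fderiv_fun_neg, neg_apply, h0, neg_zero])
  linarith

lemma sconv (hB : Convex ℝ B) (hF : ∀ x ∈ B, ContDiffAt ℝ 2 F x)
    (h : ∀ x ∈ B, ∀ u ∈ U, u ≠ 0 → 0 < D2 F x u u) {x : D} {S : Set U} (hS : Convex ℝ S)
    (hx : ∀ e ∈ S, x + e ∈ B) : StrictConvexOn ℝ S fun e : U => F (x + e) := by
  have := (sconc (F := fun y => -F y) (U := U) hB (fun x hx => (hF x hx).neg)
    (fun x hx u hu hne => by rw [D2_neg]; linarith [h x hx u hu hne]) hS hx).neg
  refine this.congr fun e _ => ?_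
  simp

end conc

variable [FiniteDimensional ℝ D]

lemma ev_neg (hF : ContDiffAt ℝ 2 F 0) {U : Submodule ℝ D}
    (h : ∀ u ∈ U, u ≠ 0 → D2 F 0 u u < 0) :
    ∀ᶠ x in 𝓝 (0 : D), ∀ u ∈ U, u ≠ 0 → D2 F x u u < 0 := by
  have hc : ContinuousAt (D2 F) 0 :=
    ((hF.fderiv_right (m := 1) (by norm_num)).fderiv_right (m := 0) (by norm_num)).continuousAt
  have hK : IsCompact (sphere (0 : D) 1 ∩ (U : Set D)) :=
    (isCompact_sphere 0 1).inter_right U.closed_of_finiteDimensional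
  have key : ∀ᶠ x in 𝓝 (0 : D), ∀ u ∈ sphere (0 : D) 1 ∩ (U : Set D), D2 F x u u < 0 := by
    refine hK.eventually_forall_of_forall_eventually fun u hu => ?_
    have h1 : ContinuousAt (fun z : D × D => D2 F z.1 z.2 z.2) (0, u) :=
      ((ContinuousAt.comp (f := Prod.fst) (x := ((0 : D), u)) hc continuousAt_fst).clm_apply
        continuousAt_snd).clm_apply continuousAt_snd
    refine h1.eventually (gt_mem_nhds (h u hu.2 ?_))
    rintro rfl
    simpa using hu.1
  filter_upwards [key] with x hx u hu hne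
  have hn : 0 < ‖u‖ := norm_pos_iff.2 hne
  have h1 := hx (‖u‖⁻¹ • u) ⟨by simp [norm_smul, hn.ne'], U.smul_mem _ hu⟩
  simp only [map_smul, smul_apply, smul_eq_mul] at h1
  by_contra h2
  have := mul_nonneg (inv_pos.2 hn).le (mul_nonneg (inv_pos.2 hn).le (not_lt.1 h2))
  linarith

lemma ev_pos (hF : ContDiffAt ℝ 2 F 0) {U : Submodule ℝ D}
    (h : ∀ u ∈ U, u ≠ 0 → 0 < D2 F 0 u u) :
    ∀ᶠ x in 𝓝 (0 : D), ∀ u ∈ U, u ≠ 0 → 0 < D2 F x u u := by
  filter_upwards [ev_neg (F := fun y => -F y) (U := U) hF.neg fun u hu hne => by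
    rw [D2_neg]; linarith [h u hu hne]] with x hx u hu hne
  have := hx u hu hne
  rw [D2_neg] at this
  linarith

omit [NormedSpace ℝ D] [FiniteDimensional ℝ D] in
lemma add_mem_ball {ε : ℝ} (hε : 0 < ε) {x y z : D} (hx : ‖x‖ ≤ ε) (hy : ‖y‖ ≤ ε)
    (hz : ‖z‖ ≤ ε) : x + y + z ∈ ball (0 : D) (4 * ε) := by
  rw [mem_ball_zero_iff]
  linarith [norm_add₃_le (a := x) (b := y) (c := z)]

omit [NormedSpace ℝ D] [FiniteDimensional ℝ D] in
lemma exists_eps {P : D → Prop} (h : ∀ᶠ x in 𝓝 (0 : D), P x) :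
    ∃ ε > (0 : ℝ), ∀ x ∈ ball (0 : D) (4 * ε), P x := by
  obtain ⟨ε, hε, h1⟩ := Metric.eventually_nhds_iff_ball.1 h
  exact ⟨ε / 4, by positivity, fun x hx => h1 x (by rwa [mul_div_cancel₀ _ four_ne_zero] at hx)⟩

end SplP

open SplP

theorem splitV (K : Type) [Field K] (T : Tools K) (h1 : ConcStmt K) (h2 : ConvStmt K)
    (h3 : DimStmt K) : SplitVStmt K := by
  intro D _ _ _ F U hF h0
  obtain ⟨Y, hY⟩ := U.exists_isCompl
  let e : (Y × U) ≃L[ℝ] D := (Submodule.prodEquivOfIsCompl Y U hY.symm).toContinuousLinearEquiv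
  have he : ∀ p : Y × U, e p = p.1 + p.2 := fun p => rfl
  have tr : ∀ j, Lp K j {p : Y × U | F (p.1 + p.2) < F 0} ((0 : Y), (0 : U)) 0 →
      Lp K j {x | F x < F 0} 0 0 := fun j h => by
    have := lp_homeo T e.toHomeomorph (O := {x | F x < F 0}) (y₀ := ((0 : Y), (0 : U))) h
    rwa [ContinuousLinearEquiv.coe_toHomeomorph, he, Submodule.coe_zero, Submodule.coe_zero,
      add_zero] at this
  have hm : ∀ {ε : ℝ}, 0 < ε → ∀ y ∈ closedBall (0 : Y) ε, ∀ u ∈ closedBall (0 : U) ε,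
      (y : D) + u ∈ ball (0 : D) (4 * ε) := fun hε y hy u hu => by
    simpa using add_mem_ball (x := (y : D)) (y := (u : D)) (z := 0) hε
      (mem_closedBall_zero_iff.1 hy) (mem_closedBall_zero_iff.1 hu) (by simpa using hε.le)
  have hc : ∀ {ε : ℝ}, 0 < ε → (∀ x ∈ ball (0 : D) (4 * ε), ContDiffAt ℝ 2 F x) →
      ContinuousOn (fun p : Y × U => F (p.1 + p.2)) (closedBall 0 ε ×ˢ closedBall 0 ε) :=
    fun hε h p hp => (ContinuousAt.comp (f := fun p : Y × U => (p.1 : D) + p.2)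
      (h _ (hm hε _ hp.1 _ hp.2)).continuousAt (by fun_prop)).continuousWithinAt
  have hc' : ∀ {ε : ℝ}, 0 < ε → (∀ x ∈ ball (0 : D) (4 * ε), ContDiffAt ℝ 2 F x) →
      ∀ y ∈ closedBall (0 : Y) ε, IsCompact ((fun u : U => F (y + u)) '' closedBall 0 ε) :=
    fun hε h y hy => (isCompact_closedBall _ _).image_of_continuousOn
      ((hc hε h).comp (f := fun u : U => (y, u)) (by fun_prop) fun u hu => ⟨hy, hu⟩)
  refine ⟨fun hU j hj => ?_, fun hU j hj => ?_⟩
  · obtain ⟨ε, hε, hb⟩ := exists_eps ((hF.eventually (by simp)).and (ev_neg hF hU))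
    have hg : ∀ y ∈ closedBall (0 : Y) ε, IsGreatest ((fun u : U => F (y + u)) '' closedBall 0 ε)
        (sSup ((fun u : U => F (y + u)) '' closedBall 0 ε)) := fun y hy =>
      (hc' hε (fun x hx => (hb x hx).1) y hy).isGreatest_sSup
        ((nonempty_closedBall.2 hε.le).image _)
    have hz : sSup ((fun u : U => F ((0 : Y) + u)) '' closedBall 0 ε) = F 0 := by
      refine IsGreatest.csSup_eq ⟨⟨0, mem_closedBall_self hε.le, by simp⟩, ?_⟩
      rintro _ ⟨u, hu, rfl⟩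
      exact conc_le (convex_ball _ _) (fun x hx => (hb x hx).1) (fun x hx => (hb x hx).2)
        (mem_ball_self (by positivity)) (hm hε 0 (mem_closedBall_self hε.le) u hu) u.2
        (by simp [h0])
    have := (h1 Y U (fun p => F (p.1 + p.2))
      (fun y => sSup ((fun u : U => F (y + u)) '' closedBall 0 ε)) 0 (closedBall 0 ε) ε
      (closedBall_mem_nhds _ hε) hε (hc hε fun x hx => (hb x hx).1)
      (fun y hy => sconc (convex_ball _ _) (fun x hx => (hb x hx).1) (fun x hx => (hb x hx).2)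
        (convex_closedBall _ _) (hm hε y hy)) hg (by rw [hz]; simp)).2 j hj
    rw [hz] at this
    exact tr j this
  · obtain ⟨ε, hε, hb⟩ := exists_eps ((hF.eventually (by simp)).and (ev_pos hF hU))
    have hg : ∀ y ∈ closedBall (0 : Y) ε, IsLeast ((fun u : U => F (y + u)) '' closedBall 0 ε)
        (sInf ((fun u : U => F (y + u)) '' closedBall 0 ε)) := fun y hy =>
      (hc' hε (fun x hx => (hb x hx).1) y hy).isLeast_sInf
        ((nonempty_closedBall.2 hε.le).image _)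
    have hz : sInf ((fun u : U => F ((0 : Y) + u)) '' closedBall 0 ε) = F 0 := by
      refine IsLeast.csInf_eq ⟨⟨0, mem_closedBall_self hε.le, by simp⟩, ?_⟩
      rintro _ ⟨u, hu, rfl⟩
      exact conv_le (convex_ball _ _) (fun x hx => (hb x hx).1) (fun x hx => (hb x hx).2)
        (mem_ball_self (by positivity)) (hm hε 0 (mem_closedBall_self hε.le) u hu) u.2
        (by simp [h0])
    obtain ⟨k1, k2⟩ := h2 Y U (fun p => F (p.1 + p.2))
      (fun y => sInf ((fun u : U => F (y + u)) '' closedBall 0 ε)) 0 (closedBall 0 ε) ε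
      (closedBall_mem_nhds _ hε) hε (hc hε fun x hx => (hb x hx).1)
      (fun y hy => sconv (convex_ball _ _) (fun x hx => (hb x hx).1) (fun x hx => (hb x hx).2)
        (convex_closedBall _ _) (hm hε y hy)) hg (by rw [hz]; simp)
    rw [hz] at k2
    refine tr j (k2 j 0 (h3 Y _ (closedBall 0 ε) 0 j (closedBall_mem_nhds _ hε) ?_ ?_))
    · obtain ⟨O, hO, e1⟩ := continuousOn_iff'.1 k1 (Iio (F 0)) isOpen_Iio
      exact ⟨O, hO, by rw [inter_comm _ O, ← e1, inter_comm]; rfl⟩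
    · have := Submodule.finrank_add_eq_of_isCompl hY
      omega

theorem splitB (K : Type) [Field K] (T : Tools K) (h1 : ConcStmt K) (h2 : ConvStmt K) :
    SplitBStmt K := by
  intro D _ _ _ F Y Nm Np r hF hY hm hp h0 hL j
  let L : ((Y × Nm) × Np) →ₗ[ℝ] D := (Y.subtype.coprod Nm.subtype).coprod Np.subtype
  have hL' : ∀ p : (Y × Nm) × Np, L p = p.1.1 + p.1.2 + p.2 := fun p => rfl
  have hbij : Function.Bijective L := by
    constructor
    · rw [← LinearMap.ker_eq_bot, LinearMap.ker_eq_bot']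
      rintro ⟨⟨y, a⟩, b⟩ h
      rw [hL'] at h
      have e1 : (y : D) = -(a + b) := by
        rw [eq_neg_iff_add_eq_zero, ← add_assoc]
        exact h
      have hy : (y : D) = 0 := (Submodule.disjoint_def.1 hY.disjoint) _ y.2
        (e1 ▸ neg_mem (Submodule.add_mem_sup a.2 b.2))
      have e2 : (a : D) = -b := by
        rw [eq_neg_iff_add_eq_zero, ← neg_eq_zero, ← e1, hy]
      have ha : (a : D) = 0 := by
        by_contra hne
        linarith [hm _ a.2 hne, hp _ (e2 ▸ neg_mem b.2) hne]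
      have hb : (b : D) = 0 := by rw [← neg_eq_zero, ← e2, ha]
      exact Prod.ext (Prod.ext (Subtype.ext hy) (Subtype.ext ha)) (Subtype.ext hb)
    · intro x
      obtain ⟨y, hy, z, hz, rfl⟩ := Submodule.mem_sup.1 (hY.sup_eq_top ▸ Submodule.mem_top (x := x))
      obtain ⟨a, ha, b, hb, rfl⟩ := Submodule.mem_sup.1 hz
      exact ⟨((⟨y, hy⟩, ⟨a, ha⟩), ⟨b, hb⟩), by rw [hL', add_assoc]⟩
  let e : ((Y × Nm) × Np) ≃L[ℝ] D := (LinearEquiv.ofBijective L hbij).toContinuousLinearEquiv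
  have he : ∀ p : (Y × Nm) × Np, e p = p.1.1 + p.1.2 + p.2 := fun p => rfl
  obtain ⟨ε, hε, hb⟩ :=
    exists_eps ((hF.eventually (by simp)).and ((ev_neg hF hm).and (ev_pos hF hp)))
  have hB := convex_ball (0 : D) (4 * ε)
  have hC : ∀ x ∈ ball (0 : D) (4 * ε), ContDiffAt ℝ 2 F x := fun x hx => (hb x hx).1
  have hN := fun x hx => (hb x hx).2.1
  have hP := fun x hx => (hb x hx).2.2
  have mm : ∀ y ∈ closedBall (0 : Y) ε, ∀ a ∈ closedBall (0 : Nm) ε, ∀ b ∈ closedBall (0 : Np) ε,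
      (y : D) + a + b ∈ ball (0 : D) (4 * ε) := fun y hy a ha b hb =>
    add_mem_ball hε (mem_closedBall_zero_iff.1 hy) (mem_closedBall_zero_iff.1 ha)
      (mem_closedBall_zero_iff.1 hb)
  have hc : ContinuousOn (fun p : (Y × Nm) × Np => F (p.1.1 + p.1.2 + p.2))
      ((closedBall 0 ε ×ˢ closedBall 0 ε) ×ˢ closedBall 0 ε) := fun p hp =>
    (ContinuousAt.comp (f := fun p : (Y × Nm) × Np => (p.1.1 : D) + p.1.2 + p.2)
      (hC _ (mm _ hp.1.1 _ hp.1.2 _ hp.2)).continuousAt (by fun_prop)).continuousWithinAt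
  let G : Y × Nm → ℝ := fun q => sInf ((fun b : Np => F (q.1 + q.2 + b)) '' closedBall 0 ε)
  have hg : ∀ q ∈ closedBall (0 : Y) ε ×ˢ closedBall (0 : Nm) ε,
      IsLeast ((fun b : Np => F (q.1 + q.2 + b)) '' closedBall 0 ε) (G q) := fun q hq =>
    ((isCompact_closedBall _ _).image_of_continuousOn
      (hc.comp (f := fun b : Np => (q, b)) (by fun_prop) fun b hb => ⟨hq, hb⟩)).isLeast_sInf
      ((nonempty_closedBall.2 hε.le).image _)
  let W : Set Y := closedBall 0 ε ∩ {y | ∀ u ∈ Nm ⊔ Np, fderiv ℝ F y u = 0}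
  have hW : W ∈ 𝓝 (0 : Y) := inter_mem (closedBall_mem_nhds _ hε) h0
  have z1 : (0 : Nm) ∈ closedBall (0 : Nm) ε := mem_closedBall_self hε.le
  have z2 : (0 : Np) ∈ closedBall (0 : Np) ε := mem_closedBall_self hε.le
  have my : ∀ y ∈ W, (y : D) ∈ ball (0 : D) (4 * ε) := fun y hy => by
    simpa using mm y hy.1 0 z1 0 z2
  have hz : ∀ y ∈ W, G (y, 0) = F y := fun y hy => by
    refine IsLeast.csInf_eq ⟨⟨0, z2, by simp⟩, ?_⟩
    rintro _ ⟨b, hb, rfl⟩
    have := conv_le hB hC hP (my y hy) (by simpa using mm y hy.1 0 z1 b hb) b.2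
      (hy.2 _ (Submodule.mem_sup_right b.2))
    simpa using this
  have hz0 : G (0, 0) = F 0 := hz 0 (mem_of_mem_nhds hW)
  obtain ⟨k1, k2⟩ := h2 (Y × Nm) Np (fun p => F (p.1.1 + p.1.2 + p.2)) G (0, 0)
    (closedBall 0 ε ×ˢ closedBall 0 ε) ε
    (prod_mem_nhds (closedBall_mem_nhds _ hε) (closedBall_mem_nhds _ hε)) hε hc
    (fun q hq => sconv hB hC hP (convex_closedBall _ _) (mm _ hq.1 _ hq.2)) hg
    (by rw [hz0]; simp)
  obtain ⟨k3, k4⟩ := h1 Y Nm G (fun y => F y) 0 W ε hW hε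
    (k1.mono (prod_mono inter_subset_left Subset.rfl))
    (fun y hy => ⟨convex_closedBall _ _, fun a₁ ha₁ a₂ ha₂ hne s t hs ht hst => by
      obtain ⟨⟨b, hb, e1⟩, -⟩ := hg (y, s • a₁ + t • a₂)
        ⟨hy.1, convex_closedBall _ _ ha₁ ha₂ hs.le ht.le hst⟩
      have e2 := (sconc hB hC hN (x := y + b) (convex_closedBall (0 : Nm) ε) fun a ha => by
        rw [add_right_comm]; exact mm y hy.1 a ha b hb).2 ha₁ ha₂ hne hs ht hst
      have e3 := (hg (y, a₁) ⟨hy.1, ha₁⟩).2 ⟨b, hb, rfl⟩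
      have e4 := (hg (y, a₂) ⟨hy.1, ha₂⟩).2 ⟨b, hb, rfl⟩
      simp only [smul_eq_mul, add_right_comm (y : D) b] at e1 e2 e3 e4 ⊢
      rw [← e1]
      nlinarith⟩)
    (fun y hy => ⟨⟨0, z1, hz y hy⟩, by
      rintro _ ⟨a, ha, rfl⟩
      have e3 := (hg (y, a) ⟨hy.1, ha⟩).2 ⟨0, z2, rfl⟩
      have e4 := conc_le hB hC hN (my y hy) (by simpa using mm y hy.1 a ha 0 z2) a.2
        (hy.2 _ (Submodule.mem_sup_left a.2))
      simp only [Submodule.coe_zero, add_zero] at e3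
      exact e3.trans e4⟩)
    hz0.symm
  have k5 : Lp K j {q | G q < F 0} ((0 : Y), (0 : Nm)) r := by
    rcases lt_or_ge j (finrank ℝ Nm) with hj | hj
    · exact (k4 j hj).mono (Nat.zero_le _)
    · obtain ⟨n, rfl⟩ := Nat.exists_eq_add_of_le' hj
      exact k3 n r (hL n)
  rw [hz0] at k2
  have := lp_homeo T e.toHomeomorph (O := {x | F x < F 0}) (y₀ := (((0 : Y), (0 : Nm)), (0 : Np)))
    (k2 j r k5)
  rwa [ContinuousLinearEquiv.coe_toHomeomorph, he, Submodule.coe_zero, Submodule.coe_zero,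
    Submodule.coe_zero, add_zero, add_zero] at this

end Pool.Agent.MP_af6f1c_gt.Geo
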