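import Mathlib.Topology.Algebra.InfiniteSum.Group
import Mathlib.Algebra.Order.Floor.Semifield
import Mathlib.Data.Fintype.Pigeonhole
import Mathlib.Data.Fintype.BigOperators
import Mathlib.Algebra.BigOperators.Field
import Pool.Agent.MP_af6f1c_gt.geo.Spec
import Mathlib.Analysis.Calculus.ContDiff.FiniteDimension
import Mathlib.MeasureTheory.Integral.IntervalIntegral.ContDiff
import Mathlib.Analysis.Calculus.BumpFunction.FiniteDimension
import Mathlib.Analysis.Calculus.InverseFunctionTheorem.ContDiff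
import Mathlib.Analysis.Calculus.Deriv.Mul
import Mathlib.Analysis.Calculus.Deriv.Prod
import Pool.Agent.MP_6d695c_gt.sw.Flow
import Mathlib.Analysis.Calculus.LocalExtr.Basic
import Mathlib.Analysis.SpecialFunctions.Sqrt
import Mathlib.Analysis.Calculus.Deriv.Shift
import Mathlib.Analysis.Convex.Deriv
import Mathlib.Analysis.Calculus.ContDiff.Operations
import Mathlib.Analysis.Calculus.ContDiff.Comp
import Mathlib.Topology.Algebra.Module.FiniteDimension
import Pool.Agent.MP_af6f1c_gt.geo.Base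

-- ======== part 0: formerly Pool.Agent.MP_af6f1c_gt.geo.Ara
section MrgPart0

/-! PROJECT GEO, row ARA: windows around multiples cannot cover the integers cheaply. -/

open Set Finset

noncomputable section

namespace Pool.Agent.MP_af6f1c_gt.Geo

namespace AraP

/-- every late interval of length `D` meets a window of a long `p` -/
theorem key {P : Type} (c α : P → ℝ) (B : P → ℕ) (b : ℕ → ℕ) (w C : ℝ) (D i₀ : ℕ) (hw : 0 ≤ w)
    (hC : 0 < C) (hc : ∀ p, 0 < c p) (hf : ∀ L, {p | c p ≤ L}.Finite)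
    (h1 : ∀ i, i₀ ≤ i → ∀ T : Finset (P × ℕ),
      (∀ p (m : ℕ), 1 ≤ m → m * c p ≤ C * (i + 1) → |(i : ℝ) - m * α p| ≤ w → (p, m) ∈ T) →
      b i ≤ ∑ q ∈ T, B q.1)
    (h2 : ∀ B' : ℕ, ∃ x₀, ∀ x, x₀ ≤ x → ∃ i, x ≤ i ∧ i ≤ x + D ∧ B' ≤ b i) (A : ℝ) :
    ∃ x₁ : ℕ, ∀ x, x₁ ≤ x → ∃ (i : ℕ) (p : P) (m : ℕ), x ≤ i ∧ i ≤ x + D ∧ 1 ≤ m ∧ A < c p ∧
      m * c p ≤ C * (i + 1) ∧ |(i : ℝ) - m * α p| ≤ w ∧ c p ≤ 2 * C * α p := by
  classical
  set F : Finset P := (hf A).toFinset with hF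
  set K : ℕ := ∑ p ∈ F, (⌊4 * C * w / c p⌋₊ + 1) with hK
  obtain ⟨x₀, hx₀⟩ := h2 (∑ q ∈ F ×ˢ range K, B q.1 + 1)
  refine ⟨x₀ + i₀ + ⌈2 * w + 1⌉₊, fun x hx => ?_⟩
  obtain ⟨i, hi1, hi2, hi3⟩ := hx₀ x (by omega)
  have hiw : 2 * w + 1 ≤ (i : ℝ) := by
    have h : ⌈2 * w + 1⌉₊ ≤ i := by omega
    exact Nat.ceil_le.1 h
  have slope : ∀ p (m : ℕ), 1 ≤ m → m * c p ≤ C * (i + 1) → |(i : ℝ) - m * α p| ≤ w →
      c p ≤ 2 * C * α p := by
    intro p m hm h3 h4
    have hm' : (0 : ℝ) < m := by exact_mod_cast hm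
    have h5 := (abs_le.1 h4).2
    have h6 : (i : ℝ) + 1 ≤ 2 * (m * α p) := by linarith
    have h7 : (m : ℝ) * c p ≤ m * (2 * C * α p) := by
      have := mul_le_mul_of_nonneg_left h6 hC.le
      linarith
    exact le_of_mul_le_mul_left h7 hm'
  by_contra hne
  have hall : ∀ p (m : ℕ), 1 ≤ m → m * c p ≤ C * (i + 1) → |(i : ℝ) - m * α p| ≤ w →
      c p ≤ A := by
    intro p m hm h3 h4
    by_contra hA
    exact hne ⟨i, p, m, hi1, hi2, hm, not_le.1 hA, h3, h4, slope p m hm h3 h4⟩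
  let f : P × ℕ → P × ℕ := fun q => (q.1, ⌈((i : ℝ) - w) / α q.1⌉₊ + q.2)
  have finj : Function.Injective f := by
    rintro ⟨p, j⟩ ⟨p', j'⟩ h
    simp only [f, Prod.mk.injEq] at h
    obtain ⟨rfl, h⟩ := h
    simp only [Prod.mk.injEq, true_and]
    omega
  have h8 := h1 i (by omega) ((F ×ˢ range K).image f) (by
    intro p m hm h3 h4
    have hpF : p ∈ F := by simpa [hF] using hall p m hm h3 h4
    have hs := slope p m hm h3 h4
    have hcp := hc p
    have ha : 0 < α p := by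
      by_contra h
      have : 2 * C * α p ≤ 0 := mul_nonpos_of_nonneg_of_nonpos (by positivity) (not_lt.1 h)
      linarith
    obtain ⟨h5, h6⟩ := abs_le.1 h4
    have lo : ⌈((i : ℝ) - w) / α p⌉₊ ≤ m := by
      rw [Nat.ceil_le, div_le_iff₀ ha]; linarith
    have hi : ((m - ⌈((i : ℝ) - w) / α p⌉₊ : ℕ) : ℝ) ≤ 4 * C * w / c p := by
      rw [Nat.cast_sub lo]
      have e1 := Nat.le_ceil (((i : ℝ) - w) / α p)
      have e2 : (m : ℝ) - ((i : ℝ) - w) / α p ≤ 2 * w / α p := by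
        rw [le_div_iff₀ ha, sub_mul, div_mul_cancel₀ _ ha.ne']; linarith
      have e3 : 2 * w / α p ≤ 4 * C * w / c p := by
        rw [div_le_div_iff₀ ha hcp]
        have := mul_le_mul_of_nonneg_left hs (show 0 ≤ 2 * w by positivity)
        linarith
      linarith
    have hi' : m - ⌈((i : ℝ) - w) / α p⌉₊ ≤ ⌊4 * C * w / c p⌋₊ := Nat.le_floor hi
    have hK' : ⌊4 * C * w / c p⌋₊ + 1 ≤ K :=
      Finset.single_le_sum (f := fun p => ⌊4 * C * w / c p⌋₊ + 1) (fun _ _ => Nat.zero_le _) hpF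
    refine Finset.mem_image.2 ⟨(p, m - ⌈((i : ℝ) - w) / α p⌉₊), ?_, ?_⟩
    · exact Finset.mem_product.2 ⟨hpF, Finset.mem_range.2 (by simp only; omega)⟩
    · simp only [f, Prod.mk.injEq, true_and]; omega)
  rw [Finset.sum_image (fun a _ a' _ h => finj h)] at h8
  simp only [f] at h8
  omega

/-- simultaneous approximation by the pigeonhole principle -/
theorem simul {ι : Type} [Fintype ι] (a : ι → ℝ) :
    ∃ r : ℕ, 1 ≤ r ∧ r ≤ 8 ^ Fintype.card ι ∧ ∀ j, ∃ n : ℤ, |r * a j - n| < 1 / 8 := by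
  classical
  let g : Fin (8 ^ Fintype.card ι + 1) → ι → ZMod 8 := fun r j => ((⌊8 * ((r : ℕ) * a j)⌋ : ℤ) : ZMod 8)
  have main : ∀ r s : Fin (8 ^ Fintype.card ι + 1), r < s → g r = g s →
      ∃ r : ℕ, 1 ≤ r ∧ r ≤ 8 ^ Fintype.card ι ∧ ∀ j, ∃ n : ℤ, |r * a j - n| < 1 / 8 := by
    intro r s hrs h
    have hlt : (r : ℕ) < s := hrs
    have hs := s.2
    refine ⟨s - r, by omega, by omega, fun j => ?_⟩
    have hj := congrFun h j
    simp only [g] at hj
    obtain ⟨n, hn⟩ := (ZMod.intCast_eq_intCast_iff_dvd_sub _ _ 8).1 hj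
    refine ⟨n, ?_⟩
    have hn' : ((⌊8 * (((s : ℕ) : ℝ) * a j)⌋ : ℤ) : ℝ) - ((⌊8 * (((r : ℕ) : ℝ) * a j)⌋ : ℤ) : ℝ)
        = 8 * n := by exact_mod_cast hn
    have e1 := Int.floor_le (8 * (((s : ℕ) : ℝ) * a j))
    have e2 := Int.lt_floor_add_one (8 * (((s : ℕ) : ℝ) * a j))
    have e3 := Int.floor_le (8 * (((r : ℕ) : ℝ) * a j))
    have e4 := Int.lt_floor_add_one (8 * (((r : ℕ) : ℝ) * a j))
    rw [Nat.cast_sub hlt.le, abs_lt]
    constructor <;> linarith
  obtain ⟨r, s, hne, h⟩ := Fintype.exists_ne_map_eq_of_card_lt g (by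
    rw [Fintype.card_fun, ZMod.card, Fintype.card_fin]; omega)
  rcases lt_or_gt_of_ne hne with hl | hl
  · exact main r s hl h
  · exact main s r hl h.symm

/-- the logarithmic lower bound -/
theorem logBound {P : Type} (c α : P → ℝ) (w C : ℝ) (D : ℕ) (hw : 0 ≤ w) (hC : 0 < C)
    (hc : ∀ p, 0 < c p) (hf : ∀ L, {p | c p ≤ L}.Finite)
    (hk : ∀ A : ℝ, ∃ x₁ : ℕ, ∀ x, x₁ ≤ x → ∃ (i : ℕ) (p : P) (m : ℕ), x ≤ i ∧ i ≤ x + D ∧ 1 ≤ m ∧
      A < c p ∧ m * c p ≤ C * (i + 1) ∧ |(i : ℝ) - m * α p| ≤ w ∧ c p ≤ 2 * C * α p) :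
    ∃ κ > (0 : ℝ), ∃ L₀ : ℝ, ∀ L, L₀ ≤ L → κ * Real.log L ≤ ({p | c p ≤ L}.ncard : ℝ) := by
  classical
  set t : ℕ := ⌈8 * (w + D + 1)⌉₊ with ht
  have ht1 : 8 * (w + D + 1) ≤ (t : ℝ) := Nat.le_ceil _
  have hD : (0 : ℝ) ≤ D := Nat.cast_nonneg _
  have ht0 : (0 : ℝ) < t := by linarith
  obtain ⟨x₁, hx₁⟩ := hk (200 * C * t)
  set E : ℝ := C * (x₁ + 1 + t + D + 1) + 1 with hE
  have hE1 : 1 ≤ E := by
    have : 0 ≤ C * (x₁ + 1 + t + D + 1) := by positivity
    linarith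
  refine ⟨1 / 14, by norm_num, E ^ 2, fun L hL => ?_⟩
  set F : Finset P := (hf L).toFinset with hF
  have hN : {p | c p ≤ L}.ncard = F.card := Set.ncard_eq_toFinset_card _ (hf L)
  let k : P → ℕ := fun p => ⌊α p / (2 * t)⌋₊
  obtain ⟨r, hr1, hr2, hr3⟩ := simul (ι := F) fun p => (x₁ + 1 : ℝ) * (k p / α p)
  rw [Fintype.card_coe] at hr2
  obtain ⟨i, p, m, hi1, hi2, hm, hA, h3, h4, h5⟩ := hx₁ ((x₁ + 1) * r + t)
    ((Nat.le_succ _).trans ((Nat.le_mul_of_pos_right _ hr1).trans (Nat.le_add_right _ _)))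
  have hcp := hc p
  have hpL : L < c p := by
    by_contra hle
    have hpF : p ∈ F := by simpa [hF] using hle
    obtain ⟨n, hn⟩ := hr3 ⟨p, hpF⟩
    simp only at hn
    have ha : 100 * (t : ℝ) < α p := by
      have : 2 * C * (100 * t) < 2 * C * α p := by linarith
      exact lt_of_mul_lt_mul_left this (by positivity)
    have ha0 : 0 < α p := by linarith
    have hk1 : (k p : ℝ) ≤ α p / (2 * t) := Nat.floor_le (by positivity)
    have hk2 : α p / (2 * t) < k p + 1 := Nat.lt_floor_add_one _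
    rw [le_div_iff₀ (by positivity)] at hk1
    rw [div_lt_iff₀ (by positivity)] at hk2
    have hk3 : (49 : ℝ) < k p := by
      have h50 : 50 * (2 * (t : ℝ)) < (k p + 1) * (2 * t) := by linarith
      have := lt_of_mul_lt_mul_right h50 (by positivity)
      linarith
    set e : ℝ := α p / k p with he
    have hk0 : (0 : ℝ) < k p := by linarith
    have he1 : 2 * (t : ℝ) ≤ e := by rw [he, le_div_iff₀ hk0]; linarith
    have he2 : e ≤ 3 * t := by
      rw [he, div_le_iff₀ hk0]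
      have := mul_le_mul_of_nonneg_left hk3.le ht0.le
      linarith
    have he0 : 0 < e := by linarith
    have hae : α p = k p * e := by rw [he]; field_simp
    have hq : |((x₁ : ℝ) + 1) * r - n * e| < e / 8 := by
      have : ((x₁ : ℝ) + 1) * r - n * e = (r * ((x₁ + 1) * (k p / α p)) - n) * e := by
        rw [he]; field_simp
      rw [this, abs_mul, abs_of_pos he0]
      have := mul_lt_mul_of_pos_right hn he0
      linarith
    obtain ⟨q1, q2⟩ := abs_lt.1 hq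
    obtain ⟨q3, q4⟩ := abs_le.1 h4
    have j1 : ((x₁ : ℝ) + 1) * r + t ≤ i := by exact_mod_cast hi1
    have j2 : (i : ℝ) ≤ ((x₁ : ℝ) + 1) * r + t + D := by exact_mod_cast hi2
    have hme : (m : ℝ) * α p = (((m * k p : ℕ) : ℤ) : ℝ) * e := by
      rw [hae]; push_cast; ring
    rw [hme] at q3 q4
    rcases le_or_gt (((m * k p : ℕ) : ℤ)) n with hn' | hn'
    · have : (((m * k p : ℕ) : ℤ) : ℝ) ≤ n := by exact_mod_cast hn'
      have := mul_le_mul_of_nonneg_right this he0.le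
      linarith
    · have : (n : ℝ) + 1 ≤ (((m * k p : ℕ) : ℤ) : ℝ) := by exact_mod_cast hn'
      have := mul_le_mul_of_nonneg_right this he0.le
      linarith
  have hm' : (1 : ℝ) ≤ m := by exact_mod_cast hm
  have j2 : (i : ℝ) ≤ ((x₁ : ℝ) + 1) * r + t + D := by exact_mod_cast hi2
  have hr2' : (r : ℝ) ≤ 8 ^ F.card := by exact_mod_cast hr2
  have h8 : (1 : ℝ) ≤ 8 ^ F.card := one_le_pow₀ (by norm_num)
  have hLE : L ≤ E * 8 ^ F.card := by
    have a1 : c p ≤ C * (i + 1) := (le_mul_of_one_le_left hcp.le hm').trans h3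
    have a2 : (i : ℝ) + 1 ≤ (x₁ + 1 + t + D + 1) * 8 ^ F.card := by
      have b1 : ((x₁ : ℝ) + 1) * r ≤ (x₁ + 1) * 8 ^ F.card :=
        mul_le_mul_of_nonneg_left hr2' (by positivity)
      have b2 : ((t : ℝ) + D + 1) * 1 ≤ (t + D + 1) * 8 ^ F.card :=
        mul_le_mul_of_nonneg_left h8 (by positivity)
      linarith
    have a3 := mul_le_mul_of_nonneg_left a2 hC.le
    rw [hE]; linarith
  have hL0 : 0 < L := lt_of_lt_of_le (by positivity) hL
  have l1 : Real.log L ≤ Real.log E + F.card * Real.log 8 := by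
    have := Real.log_le_log hL0 hLE
    rwa [Real.log_mul (by positivity) (by positivity), Real.log_pow] at this
  have l2 : 2 * Real.log E ≤ Real.log L := by
    have := Real.log_le_log (by positivity) hL
    rw [Real.log_pow] at this
    exact_mod_cast this
  have l3 : Real.log 8 ≤ 7 := by
    have := Real.log_le_sub_one_of_pos (show (0 : ℝ) < 8 by norm_num)
    linarith
  have l4 : (F.card : ℝ) * Real.log 8 ≤ F.card * 7 :=
    mul_le_mul_of_nonneg_left l3 (Nat.cast_nonneg _)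
  rw [hN]; linarith

/-- the divergence of the series of inverse lengths -/
theorem diverge {P : Type} (c α : P → ℝ) (w C : ℝ) (D : ℕ) (hC : 0 < C)
    (hc : ∀ p, 0 < c p) (hf : ∀ L, {p | c p ≤ L}.Finite)
    (hk : ∀ A : ℝ, ∃ x₁ : ℕ, ∀ x, x₁ ≤ x → ∃ (i : ℕ) (p : P) (m : ℕ), x ≤ i ∧ i ≤ x + D ∧ 1 ≤ m ∧
      A < c p ∧ m * c p ≤ C * (i + 1) ∧ |(i : ℝ) - m * α p| ≤ w ∧ c p ≤ 2 * C * α p) :
    ¬ Summable fun p => (c p)⁻¹ := by
  classical
  intro hs
  set W : ℕ := ⌊2 * w + D⌋₊ + 1 with hW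
  have hW0 : (0 : ℝ) < W := by rw [hW]; positivity
  obtain ⟨s, hs'⟩ := hs.vanishing (e := Set.Iio (1 / (6 * W * C))) (Iio_mem_nhds (by positivity))
  obtain ⟨x₁, hx₁⟩ := hk (∑ p ∈ s, c p)
  set X : ℕ := x₁ + D + 1 with hX
  have hX0 : (0 : ℝ) < X := by rw [hX]; positivity
  set Y : ℝ := C * (3 * X) with hY
  have hY0 : 0 < Y := by positivity
  set G : Finset P := (hf Y).toFinset \ s with hG
  have hGs : ∑ p ∈ G, (c p)⁻¹ < 1 / (6 * W * C) := hs' G Finset.sdiff_disjoint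
  let z : P → ℕ → ℕ := fun p m => ⌈m * α p - w - D⌉₊
  have cover : Finset.Ico X (2 * X) ⊆ G.biUnion fun p => (Finset.Icc 1 ⌊Y / c p⌋₊).biUnion
      fun m => Finset.Ico (z p m) (z p m + W) := by
    intro x hx
    rw [Finset.mem_Ico] at hx
    obtain ⟨i, p, m, hi1, hi2, hm, hA, h3, h4, -⟩ := hx₁ x (by omega)
    have hcp := hc p
    have hm' : (1 : ℝ) ≤ m := by exact_mod_cast hm
    have hi3 : (i : ℝ) + 1 ≤ 3 * X := by
      have : i + 1 ≤ 3 * X := by omega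
      exact_mod_cast this
    have hmY : m * c p ≤ Y := h3.trans (mul_le_mul_of_nonneg_left hi3 hC.le)
    have hpG : p ∈ G := by
      rw [hG, Finset.mem_sdiff]
      refine ⟨by simpa using (le_mul_of_one_le_left hcp.le hm').trans hmY, fun hps => ?_⟩
      have := Finset.single_le_sum (f := c) (fun q _ => (hc q).le) hps
      linarith
    obtain ⟨q3, q4⟩ := abs_le.1 h4
    have j1 : (x : ℝ) ≤ i := by exact_mod_cast hi1
    have j2 : (i : ℝ) ≤ x + D := by exact_mod_cast hi2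
    have lo : z p m ≤ x := Nat.ceil_le.2 (by linarith)
    have hi : x - z p m ≤ ⌊2 * w + D⌋₊ := by
      apply Nat.le_floor
      rw [Nat.cast_sub lo]
      have := Nat.le_ceil (m * α p - w - D)
      simp only [z]
      linarith
    refine Finset.mem_biUnion.2 ⟨p, hpG, Finset.mem_biUnion.2 ⟨m, ?_, ?_⟩⟩
    · exact Finset.mem_Icc.2 ⟨hm, Nat.le_floor ((le_div_iff₀ hcp).2 hmY)⟩
    · exact Finset.mem_Ico.2 ⟨lo, by omega⟩
  have c1 : X ≤ ∑ p ∈ G, ⌊Y / c p⌋₊ * W := by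
    have a1 := (Finset.card_le_card cover).trans Finset.card_biUnion_le
    rw [Nat.card_Ico] at a1
    refine le_trans (by omega) (a1.trans (Finset.sum_le_sum fun p _ => ?_))
    refine Finset.card_biUnion_le.trans (le_of_eq ?_)
    simp
  have c2 : (X : ℝ) ≤ Y * W * ∑ p ∈ G, (c p)⁻¹ := by
    have a1 : (X : ℝ) ≤ ∑ p ∈ G, (⌊Y / c p⌋₊ : ℝ) * W := by exact_mod_cast c1
    refine a1.trans ?_
    rw [Finset.mul_sum]
    refine Finset.sum_le_sum fun p _ => ?_
    have a2 : (⌊Y / c p⌋₊ : ℝ) ≤ Y / c p := Nat.floor_le (div_pos hY0 (hc p)).le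
    calc (⌊Y / c p⌋₊ : ℝ) * W ≤ Y / c p * W := mul_le_mul_of_nonneg_right a2 hW0.le
      _ = Y * W * (c p)⁻¹ := by ring
  have c3 : Y * W * ∑ p ∈ G, (c p)⁻¹ < Y * W * (1 / (6 * W * C)) :=
    mul_lt_mul_of_pos_left hGs (by positivity)
  have c4 : Y * W * (1 / (6 * W * C)) = X / 2 := by rw [hY]; field_simp; ring
  linarith

end AraP

theorem arithA : ArithAStmt := by
  intro P c α B b w C D i₀ hw hC hc hf h1 h2
  have hk := AraP.key c α B b w C D i₀ hw hC hc hf h1 h2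
  exact ⟨AraP.logBound c α w C D hw hC hc hf hk, AraP.diverge c α w C D hC hc hf hk⟩

end Pool.Agent.MP_af6f1c_gt.Geo

end
end MrgPart0

-- ======== part 1: formerly Pool.Agent.MP_af6f1c_gt.geo.R1
section MrgPart1

/-! PROJECT GEO, row R1: the Riemannian metric read in a chart computes the distance. -/

open Set Topology Metric Bundle MeasureTheory Manifold Filter
open scoped ContDiff ENNReal

noncomputable section

namespace Pool.Agent.MP_af6f1c_gt.Geo

namespace R1P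

variable {n : ℕ} {M : Type} [MetricSpace M] [ChartedSpace (Eu n) M] [IsManifold (𝓡 n) ∞ M]
  [RiemannianBundle (fun x : M => TangentSpace (𝓡 n) x)]

/-- from the model space to the tangent space at `x`, through the chart at `p` -/
def A (p x : M) : Eu n →L[ℝ] TangentSpace (𝓡 n) x :=
  (trivializationAt (Eu n) (TangentSpace (𝓡 n)) p).symmL ℝ x

/-- the metric tensor at `x` in the chart at `p` -/
def G (p x : M) : Eu n →L[ℝ] Eu n →L[ℝ] ℝ :=
  ContinuousLinearMap.bilinearComp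
    (innerSL ℝ : TangentSpace (𝓡 n) x →L[ℝ] TangentSpace (𝓡 n) x →L[ℝ] ℝ) (A p x) (A p x)

theorem G_apply (p x : M) (v w : Eu n) : G p x v w = inner ℝ (A p x v) (A p x w) := rfl

omit [RiemannianBundle (fun x : M => TangentSpace (𝓡 n) x)] in
theorem A_inj (p x : M) (hx : x ∈ (chartAt (Eu n) p).source) (v : Eu n) (h : A p x v = 0) :
    v = 0 := by
  have hb : x ∈ (trivializationAt (Eu n) (TangentSpace (𝓡 n)) p).baseSet := by simpa using hx
  have h1 := (trivializationAt (Eu n) (TangentSpace (𝓡 n)) p).continuousLinearMapAt_symmL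
    (R := ℝ) hb v
  have h2 : (trivializationAt (Eu n) (TangentSpace (𝓡 n)) p).symmL ℝ x v = 0 := h
  rw [h2, map_zero] at h1
  exact h1.symm

omit [RiemannianBundle (fun x : M => TangentSpace (𝓡 n) x)] in
theorem A_smooth (p : M) (v : Eu n) :
    ContMDiffOn (𝓡 n) ((𝓡 n).prod 𝓘(ℝ, Eu n)) ∞
      (fun y : Eu n => (TotalSpace.mk ((chartAt (Eu n) p).symm y)
        (A p ((chartAt (Eu n) p).symm y) v) : TotalSpace (Eu n) (TangentSpace (𝓡 n))))
      (chartAt (Eu n) p).target := by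
  set e := trivializationAt (Eu n) (TangentSpace (𝓡 n)) p with he
  have h1 : ContMDiffOn (𝓡 n) ((𝓡 n).prod 𝓘(ℝ, Eu n)) ∞
      (fun y : Eu n => (((chartAt (Eu n) p).symm y, v) : M × Eu n)) (chartAt (Eu n) p).target :=
    contMDiffOn_chart_symm.prodMk contMDiffOn_const
  have hb : ∀ y ∈ (chartAt (Eu n) p).target, (chartAt (Eu n) p).symm y ∈ e.baseSet := by
    intro y hy
    simpa [he] using (chartAt (Eu n) p).map_target hy
  have h2 := (e.contMDiffOn_symm (IB := 𝓡 n) (n := ∞)).comp h1 (fun y hy => by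
    simpa [e.mem_target] using hb y hy)
  refine h2.congr fun y hy => ?_
  have h3 : A p ((chartAt (Eu n) p).symm y) v = e.symm ((chartAt (Eu n) p).symm y) v :=
    e.symmL_apply (hb y hy) v
  rw [h3]
  exact e.mk_symm (hb y hy) v

/-- the speed of a curve read in the chart -/
theorem speed (p : M) (γ : ℝ → M) (t : ℝ) (hγ : MDifferentiableAt 𝓘(ℝ, ℝ) (𝓡 n) γ t)
    (ht : γ t ∈ (chartAt (Eu n) p).source) :
    G p (γ t) (deriv (chartAt (Eu n) p ∘ γ) t) (deriv (chartAt (Eu n) p ∘ γ) t) =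
      ‖mfderiv 𝓘(ℝ, ℝ) (𝓡 n) γ t 1‖ ^ 2 := by
  have hb : γ t ∈ (trivializationAt (Eu n) (TangentSpace (𝓡 n)) p).baseSet := by simpa using ht
  have h0 : (chartAt (Eu n) p ∘ γ : ℝ → Eu n) = extChartAt (𝓡 n) p ∘ γ := by
    funext s
    simp
  have h1 : mfderiv 𝓘(ℝ, ℝ) 𝓘(ℝ, Eu n) (extChartAt (𝓡 n) p ∘ γ) t =
      (mfderiv (𝓡 n) 𝓘(ℝ, Eu n) (extChartAt (𝓡 n) p) (γ t)).comp (mfderiv 𝓘(ℝ, ℝ) (𝓡 n) γ t) :=
    mfderiv_comp t (mdifferentiableAt_extChartAt ht) hγ
  have h2 : deriv (chartAt (Eu n) p ∘ γ) t =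
      (trivializationAt (Eu n) (TangentSpace (𝓡 n)) p).continuousLinearMapAt ℝ (γ t)
        (mfderiv 𝓘(ℝ, ℝ) (𝓡 n) γ t 1) := by
    rw [TangentBundle.continuousLinearMapAt_trivializationAt ht, h0, ← fderiv_apply_one_eq_deriv,
      ← mfderiv_eq_fderiv, h1]
    rfl
  have h3 : A p (γ t) (deriv (chartAt (Eu n) p ∘ γ) t) = mfderiv 𝓘(ℝ, ℝ) (𝓡 n) γ t 1 := by
    rw [h2]
    exact (trivializationAt (Eu n) (TangentSpace (𝓡 n)) p).symmL_continuousLinearMapAt hb _
  rw [G_apply, h3, real_inner_self_eq_norm_sq]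

variable [IsRiemannianManifold (𝓡 n) M]

theorem upper (p : M) (c : ℝ → Eu n) (l : ℝ) (hc : ContDiffOn ℝ 1 c (Icc 0 1))
    (hm : MapsTo c (Icc 0 1) (chartAt (Eu n) p).target) (hl : 0 ≤ l)
    (hs : ∀ t ∈ Ioo (0 : ℝ) 1,
      G p ((chartAt (Eu n) p).symm (c t)) (deriv c t) (deriv c t) ≤ l ^ 2) :
    dist ((chartAt (Eu n) p).symm (c 0)) ((chartAt (Eu n) p).symm (c 1)) ≤ l := by
  set φ := chartAt (Eu n) p with hφ
  have hγ : ContMDiffOn 𝓘(ℝ, ℝ) (𝓡 n) 1 (φ.symm ∘ c) (Icc 0 1) :=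
    (contMDiffOn_chart_symm (I := 𝓡 n) (n := 1)).comp (contMDiffOn_iff_contDiffOn.2 hc) hm
  have h1 : riemannianEDist (𝓡 n) (φ.symm (c 0)) (φ.symm (c 1)) ≤
      pathELength (𝓡 n) (φ.symm ∘ c) 0 1 :=
    riemannianEDist_le_pathELength hγ rfl rfl zero_le_one
  have h2 : pathELength (𝓡 n) (φ.symm ∘ c) 0 1 ≤ ENNReal.ofReal l := by
    rw [pathELength_eq_lintegral_mfderiv_Ioo]
    calc ∫⁻ t in Ioo (0 : ℝ) 1, ‖mfderiv 𝓘(ℝ, ℝ) (𝓡 n) (φ.symm ∘ c) t 1‖ₑ
        ≤ ∫⁻ _ in Ioo (0 : ℝ) 1, ENNReal.ofReal l := by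
          refine setLIntegral_mono' measurableSet_Ioo fun t ht => ?_
          have hn : Icc (0 : ℝ) 1 ∈ 𝓝 t := Icc_mem_nhds ht.1 ht.2
          have ht' : t ∈ Icc (0 : ℝ) 1 := Ioo_subset_Icc_self ht
          have hd : MDifferentiableAt 𝓘(ℝ, ℝ) (𝓡 n) (φ.symm ∘ c) t :=
            ((hγ t ht').contMDiffAt hn).mdifferentiableAt one_ne_zero
          have h3 := speed p (φ.symm ∘ c) t hd (φ.map_target (hm ht'))
          have h4 : deriv (φ ∘ φ.symm ∘ c) t = deriv c t := by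
            refine Filter.EventuallyEq.deriv_eq ?_
            filter_upwards [hn] with s hs using φ.right_inv (hm hs)
          rw [← hφ, h4] at h3
          have h5 : ‖mfderiv 𝓘(ℝ, ℝ) (𝓡 n) (φ.symm ∘ c) t 1‖ ^ 2 ≤ l ^ 2 := by
            rw [← h3]
            exact hs t ht
          rw [← ofReal_norm]
          exact ENNReal.ofReal_le_ofReal (abs_le_of_sq_le_sq' h5 hl).2
      _ = ENNReal.ofReal l := by simp
  have h3 := (IsRiemannianManifold.out (I := 𝓡 n) (φ.symm (c 0)) (φ.symm (c 1))).trans_le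
    (h1.trans h2)
  rw [edist_dist] at h3
  exact (ENNReal.ofReal_le_ofReal_iff hl).1 h3

theorem lower (p : M) (W : Set (Eu n)) (f : Eu n → ℝ) (x y : M) (r : ℝ) (hW : IsOpen W)
    (hf : ContDiffOn ℝ 1 f W)
    (hg : ∀ z ∈ W, ∀ w, fderiv ℝ f z w ^ 2 ≤ G p ((chartAt (Eu n) p).symm z) w w)
    (hb : ball x r ⊆ (chartAt (Eu n) p).source ∩ chartAt (Eu n) p ⁻¹' W) (hxy : dist x y < r) :
    |f (chartAt (Eu n) p y) - f (chartAt (Eu n) p x)| ≤ dist x y := by
  set φ := chartAt (Eu n) p with hφ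
  refine le_of_forall_gt_imp_ge_of_dense fun s hs => ?_
  wlog hsr : s ≤ r generalizing s
  · exact (this r hxy le_rfl).trans (le_of_not_ge hsr)
  have hs0 : 0 < s := dist_nonneg.trans_lt hs
  have h1 : riemannianEDist (𝓡 n) x y < ENNReal.ofReal s := by
    rw [← IsRiemannianManifold.out (I := 𝓡 n) x y, edist_dist]
    exact (ENNReal.ofReal_lt_ofReal_iff hs0).2 hs
  obtain ⟨γ, hx, hy, hγ, hlen, -⟩ := exists_lt_locally_constant_of_riemannianEDist_lt h1 zero_lt_one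
  have hin : ∀ t ∈ Icc (0 : ℝ) 1, γ t ∈ φ.source ∩ φ ⁻¹' W := by
    intro t ht
    refine hb ?_
    have h2 : riemannianEDist (𝓡 n) x (γ t) ≤ pathELength (𝓡 n) γ 0 t :=
      riemannianEDist_le_pathELength hγ.contMDiffOn hx rfl ht.1
    have h3 : edist x (γ t) < ENNReal.ofReal s :=
      ((IsRiemannianManifold.out (I := 𝓡 n) x (γ t)).trans_le
        (h2.trans (pathELength_mono le_rfl ht.2))).trans_lt hlen
    rw [edist_dist, ENNReal.ofReal_lt_ofReal_iff hs0] at h3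
    rw [mem_ball, dist_comm]
    exact h3.trans_le hsr
  have hc : ContDiffOn ℝ 1 (φ ∘ γ) (Icc 0 1) :=
    contMDiffOn_iff_contDiffOn.1
      ((contMDiffOn_chart (I := 𝓡 n) (n := 1)).comp hγ.contMDiffOn fun t ht => (hin t ht).1)
  have hfc : ContDiffOn ℝ 1 (f ∘ φ ∘ γ) (Icc 0 1) := hf.comp hc fun t ht => (hin t ht).2
  have h4 := enorm_sub_le_lintegral_deriv_of_contDiffOn_Icc hfc zero_le_one
  have h5 : ∫⁻ t in Icc (0 : ℝ) 1, ‖deriv (f ∘ φ ∘ γ) t‖ₑ ≤ pathELength (𝓡 n) γ 0 1 := by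
    rw [pathELength_eq_lintegral_mfderiv_Ioo, ← restrict_Ioo_eq_restrict_Icc]
    refine setLIntegral_mono' measurableSet_Ioo fun t ht => ?_
    have hn : Icc (0 : ℝ) 1 ∈ 𝓝 t := Icc_mem_nhds ht.1 ht.2
    have ht' : t ∈ Icc (0 : ℝ) 1 := Ioo_subset_Icc_self ht
    have hd : MDifferentiableAt 𝓘(ℝ, ℝ) (𝓡 n) γ t := (hγ t).mdifferentiableAt one_ne_zero
    have h6 := speed p γ t hd (hin t ht').1
    have h7 : DifferentiableAt ℝ (φ ∘ γ) t :=
      ((hc t ht').contDiffAt hn).differentiableAt one_ne_zero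
    have h8 : DifferentiableAt ℝ f ((φ ∘ γ) t) :=
      ((hf _ (hin t ht').2).contDiffAt (hW.mem_nhds (hin t ht').2)).differentiableAt one_ne_zero
    have h9 : deriv (f ∘ φ ∘ γ) t = fderiv ℝ f (φ (γ t)) (deriv (φ ∘ γ) t) :=
      (h8.hasFDerivAt.comp_hasDerivAt t h7.hasDerivAt).deriv
    have h10 := hg _ (hin t ht').2 (deriv (φ ∘ γ) t)
    rw [φ.left_inv (hin t ht').1, h6, ← h9] at h10
    rw [← ofReal_norm, ← ofReal_norm]
    refine ENNReal.ofReal_le_ofReal ?_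
    rw [Real.norm_eq_abs]
    exact abs_le_of_sq_le_sq' h10 (norm_nonneg _) |> abs_le.2
  have h11 := (h4.trans h5).trans_lt hlen
  rw [← ofReal_norm, ENNReal.ofReal_lt_ofReal_iff hs0, Real.norm_eq_abs] at h11
  simpa [hx, hy] using h11.le

end R1P

theorem chartMetric : ChartMetricStmt := by
  intro n M _ _ _ _ _ _ p
  refine ⟨fun y => R1P.G p ((chartAt (Eu n) p).symm y), ?_, ?_, ?_, ?_, ?_⟩
  · refine contDiffOn_clm_apply.2 fun v => contDiffOn_clm_apply.2 fun w => ?_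
    exact contMDiffOn_iff_contDiffOn.1
      (ContMDiffOn.inner_bundle (R1P.A_smooth p v) (R1P.A_smooth p w))
  · intro y _ v w
    rw [R1P.G_apply, R1P.G_apply, real_inner_comm]
  · intro y hy v hv
    rw [R1P.G_apply]
    exact real_inner_self_pos.2 fun h =>
      hv (R1P.A_inj p _ ((chartAt (Eu n) p).map_target hy) v h)
  · exact fun c l hc hm hl hs => R1P.upper p c l hc hm hl hs
  · exact fun W f x y r hW _ hf hg hb hxy => R1P.lower p W f x y r hW hf hg hb hxy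

end Pool.Agent.MP_af6f1c_gt.Geo

end
end MrgPart1

-- ======== part 2: formerly Pool.Agent.MP_af6f1c_gt.geo.R2
section MrgPart2

/-! PROJECT GEO, row R2: geodesic flow and logarithm in a chart. -/

open Set Topology Metric Filter
open scoped ContDiff

noncomputable section

namespace Pool.Agent.MP_af6f1c_gt.Geo

namespace R2P

open Pool.Agent.MP_6d695c_gt.SW (IsFlow exists_isFlow_cpt)

variable {E : Type} [NormedAddCommGroup E] [NormedSpace ℝ E]

/-- the force covector of the geodesic equation -/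
def om (g : E → E →L[ℝ] E →L[ℝ] ℝ) (a : E × E) : E →L[ℝ] ℝ :=
  (1 / 2 : ℝ) • ((fderiv ℝ g a.1).flip a.2).flip a.2 - fderiv ℝ g a.1 a.2 a.2

theorem om_apply (g : E → E →L[ℝ] E →L[ℝ] ℝ) (a : E × E) (w : E) :
    om g a w = 1 / 2 * fderiv ℝ g a.1 w a.2 a.2 - fderiv ℝ g a.1 a.2 a.2 w := by
  simp [om]

theorem om_smul (g : E → E →L[ℝ] E →L[ℝ] ℝ) (x v : E) (s : ℝ) :
    om g (x, s • v) = (s * s) • om g (x, v) := by
  ext w
  simp only [om_apply, map_smul, smul_apply, smul_eq_mul]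
  ring

/-- the geodesic vector field -/
def sp (g : E → E →L[ℝ] E →L[ℝ] ℝ) (a : E × E) : E × E := (a.2, (g a.1).inverse (om g a))

theorem sp_smul (g : E → E →L[ℝ] E →L[ℝ] ℝ) (x v : E) (s : ℝ) :
    sp g (x, s • v) = (s • v, (s * s) • (sp g (x, v)).2) := by
  simp only [sp, om_smul, map_smul]

theorem sp_zero (g : E → E →L[ℝ] E →L[ℝ] ℝ) (x : E) : sp g (x, 0) = 0 := by
  have h := sp_smul g x 0 0
  rw [zero_smul, mul_zero, zero_smul] at h
  exact h

variable [FiniteDimensional ℝ E]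

theorem inv_of_pos {B : E →L[ℝ] E →L[ℝ] ℝ} (h : ∀ v, v ≠ 0 → 0 < B v v) : B.IsInvertible := by
  have hi : Function.Injective (B : E →ₗ[ℝ] E →L[ℝ] ℝ) := by
    rw [injective_iff_map_eq_zero]
    intro v hv
    by_contra hne
    have h1 := h v hne
    have h2 : B v = 0 := hv
    rw [h2] at h1
    simp at h1
  have hd : Module.finrank ℝ E = Module.finrank ℝ (E →L[ℝ] ℝ) := by
    rw [← (LinearMap.toContinuousLinearMap : (E →ₗ[ℝ] ℝ) ≃ₗ[ℝ] E →L[ℝ] ℝ).finrank_eq]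
    simp
  refine ⟨(LinearMap.linearEquivOfInjective _ hi hd).toContinuousLinearEquiv, ?_⟩
  ext v w
  rfl

set_option maxSynthPendingDepth 3 in
theorem sp_sm {g : E → E →L[ℝ] E →L[ℝ] ℝ} {U : Set E} (hU : IsOpen U) (hg : ContDiffOn ℝ ∞ g U)
    (hp : ∀ y ∈ U, ∀ v, v ≠ 0 → 0 < g y v v) : ContDiffOn ℝ ∞ (sp g) (U ×ˢ univ) := by
  have : CompleteSpace E := FiniteDimensional.complete ℝ E
  have hm : MapsTo (Prod.fst : E × E → E) (U ×ˢ univ) U := fun a ha => ha.1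
  have hd : ContDiffOn ℝ ∞ (fun a : E × E => fderiv ℝ g a.1) (U ×ˢ univ) :=
    (hg.fderiv_of_isOpen hU (by simp)).comp contDiffOn_fst hm
  have ho : ContDiffOn ℝ ∞ (om g) (U ×ˢ univ) := by
    rw [contDiffOn_clm_apply]
    intro w
    simp only [om_apply]
    exact (contDiffOn_const.mul (((hd.clm_apply contDiffOn_const).clm_apply
      contDiffOn_snd).clm_apply contDiffOn_snd)).sub
      (((hd.clm_apply contDiffOn_snd).clm_apply contDiffOn_snd).clm_apply contDiffOn_const)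
  have hi : ContDiffOn ℝ ∞ (fun a : E × E => (g a.1).inverse) (U ×ˢ univ) := by
    intro a ha
    exact ((inv_of_pos (hp a.1 ha.1)).contDiffAt_map_inverse (n := ∞)).comp_contDiffWithinAt a
      ((hg.comp contDiffOn_fst hm) a ha)
  exact contDiffOn_snd.prodMk (hi.clm_apply ho)

/-- a global flow that follows the geodesic field on a ball -/
theorem exists_fl {F : E × E → E × E} {W : Set (E × E)} {c : E × E} (hW : IsOpen W) (hc : c ∈ W)
    (hF : ContDiffOn ℝ ∞ F W) :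
    ∃ (ρ : ℝ) (Y : E × E → E × E) (fl : ℝ → E × E → E × E), 0 < ρ ∧ ball c ρ ⊆ W ∧
      (∀ a ∈ ball c ρ, Y a = F a) ∧ (∀ a, F a = 0 → Y a = 0) ∧ IsFlow Y fl := by
  have : CompleteSpace E := FiniteDimensional.complete ℝ E
  obtain ⟨ε, hε, hb⟩ := Metric.isOpen_iff.1 hW c hc
  let χ : ContDiffBump c := ⟨ε / 4, ε / 2, by positivity, by linarith⟩
  have hts : tsupport χ ⊆ W := by
    rw [χ.tsupport_eq]
    exact (closedBall_subset_ball (show ε / 2 < ε by linarith)).trans hb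
  have hs : ContDiff ℝ ∞ fun a => χ a • F a := by
    rw [contDiff_iff_contDiffAt]
    intro a
    by_cases ha : a ∈ tsupport χ
    · exact χ.contDiffAt.smul (hF.contDiffAt (hW.mem_nhds (hts ha)))
    · have h0 : (fun a => χ a • F a) =ᶠ[𝓝 a] fun _ => 0 := by
        filter_upwards [notMem_tsupport_iff_eventuallyEq.1 ha] with b hb
        simp [hb]
      exact contDiffAt_const.congr_of_eventuallyEq h0
  have hk : HasCompactSupport fun a => χ a • F a := χ.hasCompactSupport.smul_right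
  obtain ⟨_, fl, _, h⟩ := exists_isFlow_cpt hs hk
  refine ⟨ε / 4, _, fl, by positivity, (ball_subset_ball (by linarith)).trans hb, ?_, ?_, h⟩
  · intro a ha
    rw [χ.one_of_mem_closedBall (ball_subset_closedBall ha), one_smul]
  · intro a ha
    rw [ha, smul_zero]

omit [FiniteDimensional ℝ E] in
/-- orbits that start near a fixed point stay near it for the time two -/
theorem exists_tube {X : Type} [NormedAddCommGroup X] [NormedSpace ℝ X] {Y : X → X}
    {fl : ℝ → X → X} (h : IsFlow Y fl) {c : X} (hc : Y c = 0) {ρ : ℝ} (hρ : 0 < ρ) :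
    ∀ᶠ a in 𝓝 c, ∀ t ∈ Icc (-2 : ℝ) 2, fl t a ∈ ball c ρ := by
  refine isCompact_Icc.eventually_forall_of_forall_eventually fun t _ => ?_
  have h1 : Continuous fun z : X × ℝ => fl z.2 z.1 :=
    h.sm.continuous.comp (continuous_snd.prodMk continuous_fst)
  refine h1.continuousAt.eventually (p := fun b => b ∈ ball c ρ) ?_
  simp only [h.fix hc]
  exact ball_mem_nhds c hρ

omit [FiniteDimensional ℝ E] in
/-- rescaling of time -/
theorem scale_fl {g : E → E →L[ℝ] E →L[ℝ] ℝ} {Y : E × E → E × E} {fl : ℝ → E × E → E × E}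
    (h : IsFlow Y fl) {p : E} {ρ : ℝ} (hY : ∀ a ∈ ball (p, (0 : E)) ρ, Y a = sp g a) {x v : E}
    (hm : ∀ t ∈ Icc (-2 : ℝ) 2, fl t (x, v) ∈ ball (p, (0 : E)) ρ) {s : ℝ}
    (hs : s ∈ Icc (-1 : ℝ) 1) {t : ℝ} (ht : t ∈ Icc (-2 : ℝ) 2) :
    fl t (x, s • v) = ((fl (s * t) (x, v)).1, s • (fl (s * t) (x, v)).2) := by
  have key := h.eq_of (c := fun τ => ((fl (s * τ) (x, v)).1, s • (fl (s * τ) (x, v)).2))
    (a := 0) (b := t) (by
      intro τ hτ
      have hτ' : τ ∈ Icc (-2 : ℝ) 2 :=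
        uIcc_subset_Icc (a₁ := 0) (b₁ := t) ⟨by norm_num, by norm_num⟩ ht hτ
      have hst : s * τ ∈ Icc (-2 : ℝ) 2 := by
        have h1 : |s| ≤ 1 := abs_le.2 hs
        have h2 : |τ| ≤ 2 := abs_le.2 hτ'
        have h3 : |s * τ| ≤ 2 := by
          rw [abs_mul]
          nlinarith [abs_nonneg s, abs_nonneg τ]
        exact abs_le.1 h3
      have hb := hm _ hst
      have hb' : ((fl (s * τ) (x, v)).1, s • (fl (s * τ) (x, v)).2) ∈ ball (p, (0 : E)) ρ := by
        rw [← ball_prod_same] at hb ⊢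
        refine ⟨hb.1, ?_⟩
        have h4 := hb.2
        rw [mem_ball_zero_iff] at h4 ⊢
        rw [norm_smul, Real.norm_eq_abs]
        have h1 : |s| ≤ 1 := abs_le.2 hs
        nlinarith [norm_nonneg (fl (s * τ) (x, v)).2, abs_nonneg s]
      have hd : HasDerivAt (fun τ => fl (s * τ) (x, v)) (s • Y (fl (s * τ) (x, v))) τ := by
        have h5 : HasDerivAt (fun τ : ℝ => s * τ) s τ := by
          simpa using (hasDerivAt_id τ).const_mul s
        exact (h.der (x, v) (s * τ)).scomp τ h5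
      rw [hY _ hb] at hd
      rw [hY _ hb', sp_smul]
      have h6 := (ContinuousLinearMap.fst ℝ E E).hasFDerivAt.comp_hasDerivAt τ hd
      have h7 := ((ContinuousLinearMap.snd ℝ E E).hasFDerivAt.comp_hasDerivAt τ hd).const_smul s
      have h8 := h6.prodMk h7
      rw [mul_smul]
      exact h8)
  simpa [h.zero] using key.symm

omit [FiniteDimensional ℝ E] in
/-- the derivative of the exponential map at the zero section -/
theorem fderiv_exp {X : E × E → E} {p : E} {R : ℝ} (hR : 0 < R)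
    (hX : DifferentiableAt ℝ X (p, 0)) (h0 : ∀ x, X (x, 0) = x)
    (h1 : ∀ v ∈ ball (0 : E) R, HasDerivAt (fun s : ℝ => X (p, s • v)) v 0) (u v : E) :
    fderiv ℝ X (p, 0) (u, v) = u + v := by
  have ha : fderiv ℝ X (p, 0) (u, 0) = u := by
    have c1 : HasDerivAt (fun s : ℝ => ((p + s • u, 0) : E × E)) (u, 0) 0 := by
      have := ((hasDerivAt_id (0 : ℝ)).smul_const u).const_add p
      simpa using this.prodMk (hasDerivAt_const (0 : ℝ) (0 : E))
    have c2 := hX.hasFDerivAt.comp_hasDerivAt_of_eq (0 : ℝ) c1 (by simp)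
    have c3 : HasDerivAt (fun s : ℝ => p + s • u) u 0 := by
      simpa using ((hasDerivAt_id (0 : ℝ)).smul_const u).const_add p
    have c4 : (X ∘ fun s : ℝ => ((p + s • u, 0) : E × E)) = fun s : ℝ => p + s • u :=
      funext fun s => h0 _
    rw [c4] at c2
    exact c2.unique c3
  have hb : ∀ w ∈ ball (0 : E) R, fderiv ℝ X (p, 0) (0, w) = w := by
    intro w hw
    have c1 : HasDerivAt (fun s : ℝ => ((p, s • w) : E × E)) (0, w) 0 := by
      simpa using (hasDerivAt_const (0 : ℝ) p).prodMk ((hasDerivAt_id (0 : ℝ)).smul_const w)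
    have c2 := hX.hasFDerivAt.comp_hasDerivAt_of_eq (0 : ℝ) c1 (by simp)
    exact c2.unique (h1 w hw)
  have hc : fderiv ℝ X (p, 0) (0, v) = v := by
    have hpos : 0 < R / (‖v‖ + 1) := by positivity
    have hw : (R / (‖v‖ + 1)) • v ∈ ball (0 : E) R := by
      rw [mem_ball_zero_iff, norm_smul, Real.norm_eq_abs, abs_of_pos hpos, div_mul_eq_mul_div,
        div_lt_iff₀ (by positivity)]
      nlinarith
    have h2 := hb _ hw
    have h3 : ((0, (R / (‖v‖ + 1)) • v) : E × E) = (R / (‖v‖ + 1)) • ((0, v) : E × E) := by simp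
    rw [h3, map_smul] at h2
    exact smul_right_injective E hpos.ne' h2
  have h4 : ((u, v) : E × E) = (u, 0) + (0, v) := by simp
  rw [h4, map_add, ha, hc]

/-- the logarithm -/
theorem exists_lg {X : E × E → E} {p : E} (hX : ContDiff ℝ ∞ X) (hp : X (p, 0) = p)
    (hd : ∀ u v, fderiv ℝ X (p, 0) (u, v) = u + v) {δ : ℝ} (hδ : 0 < δ) :
    ∃ (r R : ℝ) (lg : E × E → E), 0 < r ∧ 0 < R ∧ r ≤ δ ∧ R ≤ δ ∧
      ContDiffOn ℝ ∞ lg (ball p r ×ˢ ball p r) ∧
      (∀ x ∈ ball p r, ∀ y ∈ ball p r, lg (x, y) ∈ ball (0 : E) R ∧ X (x, lg (x, y)) = y) ∧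
      (∀ x ∈ ball p r, ∀ v ∈ ball (0 : E) R, lg (x, X (x, v)) = v) ∧
      ∀ u v, fderiv ℝ lg (p, p) (u, v) = v - u := by
  have : CompleteSpace E := FiniteDimensional.complete ℝ E
  have hΦ : ContDiff ℝ ∞ fun a : E × E => (a.1, X a) := contDiff_fst.prodMk hX
  let L : (E × E) ≃L[ℝ] E × E := (ContinuousLinearEquiv.refl ℝ E).skewProd
    (ContinuousLinearEquiv.refl ℝ E) (ContinuousLinearMap.id ℝ E)
  have hL : HasFDerivAt (fun a : E × E => (a.1, X a)) (L : E × E →L[ℝ] E × E) (p, 0) := by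
    have h1 := (hasFDerivAt_fst (𝕜 := ℝ) (p := ((p, 0) : E × E))).prodMk
      (hX.differentiable (by simp) (p, 0)).hasFDerivAt
    refine h1.congr_fderiv (ContinuousLinearMap.ext fun a => ?_)
    obtain ⟨u, v⟩ := a
    simp [L, hd, add_comm]
  let e := hΦ.contDiffAt.toOpenPartialHomeomorph _ hL (by simp)
  have he : ∀ a, e a = (a.1, X a) := fun _ => rfl
  have hs : ((p, 0) : E × E) ∈ e.source :=
    hΦ.contDiffAt.mem_toOpenPartialHomeomorph_source hL (by simp)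
  have hpp : e (p, 0) = (p, p) := by rw [he, hp]
  have ht : (p, p) ∈ e.target := hpp ▸ e.map_source hs
  have hsy : e.symm (p, p) = (p, 0) := by rw [← hpp, e.left_inv hs]
  have hinv : ∀ᶠ a in 𝓝 ((p, 0) : E × E), ∃ M : (E × E) ≃L[ℝ] E × E,
      (M : E × E →L[ℝ] E × E) = fderiv ℝ (fun a : E × E => (a.1, X a)) a := by
    have h1 := (hΦ.continuous_fderiv (by simp)).continuousAt (x := ((p, 0) : E × E))
    refine h1.eventually (p := fun T => ∃ M : (E × E) ≃L[ℝ] E × E, (M : E × E →L[ℝ] E × E) = T) ?_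
    rw [hL.fderiv]
    exact L.nhds
  obtain ⟨R₀, hR₀, hb⟩ := Metric.eventually_nhds_iff_ball.1
    (hinv.and (e.open_source.mem_nhds hs))
  have hR : 0 < min R₀ δ := lt_min hR₀ hδ
  have hev : ∀ᶠ b in 𝓝 ((p, p) : E × E), b ∈ e.target ∧ e.symm b ∈ ball (p, (0 : E)) (min R₀ δ) := by
    refine (show ∀ᶠ b in 𝓝 ((p, p) : E × E), b ∈ e.target from e.open_target.mem_nhds ht).and ?_
    refine (e.continuousAt_symm ht).eventually (p := fun a => a ∈ ball (p, (0 : E)) (min R₀ δ)) ?_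
    rw [hsy]
    exact ball_mem_nhds _ hR
  obtain ⟨r₀, hr₀, hb'⟩ := Metric.eventually_nhds_iff_ball.1 hev
  have hsub : ∀ b ∈ ball p (min r₀ (min R₀ δ)) ×ˢ ball p (min r₀ (min R₀ δ)),
      b ∈ e.target ∧ e.symm b ∈ ball (p, (0 : E)) (min R₀ δ) := by
    intro b hb
    rw [ball_prod_same] at hb
    exact hb' b (ball_subset_ball (min_le_left _ _) hb)
  refine ⟨min r₀ (min R₀ δ), min R₀ δ, fun b => (e.symm b).2, lt_min hr₀ hR, hR,
    (min_le_right _ _).trans (min_le_right _ _), min_le_right _ _, ?_, ?_, ?_, ?_⟩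
  · intro b hb1
    obtain ⟨h1, h2⟩ := hsub b hb1
    obtain ⟨⟨M, hM⟩, -⟩ := hb _ (ball_subset_ball (min_le_left _ _) h2)
    have h3 : HasFDerivAt e (M : E × E →L[ℝ] E × E) (e.symm b) := by
      rw [hM]
      exact (hΦ.differentiable (by simp) _).hasFDerivAt
    exact (contDiffAt_snd.comp b (e.contDiffAt_symm h1 h3 hΦ.contDiffAt)).contDiffWithinAt
  · intro x hx y hy
    obtain ⟨h1, h2⟩ := hsub (x, y) ⟨hx, hy⟩
    rw [← ball_prod_same] at h2
    refine ⟨h2.2, ?_⟩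
    have h3 := e.right_inv h1
    rw [he, Prod.mk.injEq] at h3
    have h4 : e.symm (x, y) = (x, (e.symm (x, y)).2) := Prod.ext h3.1 rfl
    rw [← h4]
    exact h3.2
  · intro x hx v hv
    have h1 : (x, v) ∈ ball (p, (0 : E)) R₀ := by
      rw [← ball_prod_same]
      exact ⟨ball_subset_ball ((min_le_right _ _).trans (min_le_left _ _)) hx,
        ball_subset_ball (min_le_left _ _) hv⟩
    have h2 := e.left_inv (hb _ h1).2
    rw [he] at h2
    exact congrArg Prod.snd h2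
  · intro u v
    have h1 : HasFDerivAt e (L : E × E →L[ℝ] E × E) (e.symm (p, p)) := by
      rw [hsy]
      exact hL
    have h2 := (e.hasFDerivAt_symm ht h1).snd
    rw [h2.fderiv]
    simp [L]

end R2P

open R2P Pool.Agent.MP_6d695c_gt.SW in
/-- row R2 -/
theorem geod : GeodStmt := by
  intro n g U p hU hp hg _ hpos
  obtain ⟨ρ, Y, fl, hρ, hW, hY, hY0, h⟩ := exists_fl (c := (p, (0 : Eu n)))
    (hU.prod isOpen_univ) ⟨hp, mem_univ _⟩ (sp_sm hU hg hpos)
  have hfix : ∀ x t, fl t (x, 0) = (x, 0) := fun x t => h.fix (hY0 _ (sp_zero g x)) t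
  obtain ⟨δ, hδ, hb⟩ := Metric.eventually_nhds_iff_ball.1
    (exists_tube h (hY0 _ (sp_zero g p)) hρ)
  have hm : ∀ x ∈ ball p δ, ∀ v ∈ ball (0 : Eu n) δ, ∀ t ∈ Icc (-2 : ℝ) 2,
      fl t (x, v) ∈ ball (p, (0 : Eu n)) ρ := fun x hx v hv =>
    hb (x, v) (by rw [← ball_prod_same]; exact ⟨hx, hv⟩)
  have hD : ∀ x ∈ ball p δ, ∀ v ∈ ball (0 : Eu n) δ, ∀ t ∈ Icc (-2 : ℝ) 2,
      HasDerivAt (fun s => fl s (x, v)) (sp g (fl t (x, v))) t := fun x hx v hv t ht => by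
    rw [← hY _ (hm x hx v hv t ht)]
    exact h.der _ t
  have hD1 : ∀ x ∈ ball p δ, ∀ v ∈ ball (0 : Eu n) δ, ∀ t ∈ Icc (-2 : ℝ) 2,
      HasDerivAt (fun s => (fl s (x, v)).1) (fl t (x, v)).2 t := fun x hx v hv t ht => by
    have h1 := (ContinuousLinearMap.fst ℝ (Eu n) (Eu n)).hasFDerivAt.comp_hasDerivAt t
      (hD x hx v hv t ht)
    exact h1
  have hD2 : ∀ x ∈ ball p δ, ∀ v ∈ ball (0 : Eu n) δ, ∀ t ∈ Icc (-2 : ℝ) 2,
      HasDerivAt (fun s => (fl s (x, v)).2) (sp g (fl t (x, v))).2 t := fun x hx v hv t ht => by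
    have h1 := (ContinuousLinearMap.snd ℝ (Eu n) (Eu n)).hasFDerivAt.comp_hasDerivAt t
      (hD x hx v hv t ht)
    exact h1
  have hX : ContDiff ℝ ∞ fun a : Eu n × Eu n => (fl 1 a).1 :=
    contDiff_fst.comp (h.sm.comp (contDiff_const.prodMk contDiff_id))
  have hd := fderiv_exp (X := fun a : Eu n × Eu n => (fl 1 a).1) (p := p) hδ
    (hX.differentiable (by simp) _) (fun x => by rw [hfix]) (by
      intro v hv
      have h1 := hD1 p (mem_ball_self hδ) v hv 0 ⟨by norm_num, by norm_num⟩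
      rw [h.zero] at h1
      refine h1.congr_of_eventuallyEq ?_
      filter_upwards [Icc_mem_nhds (show (-1 : ℝ) < 0 by norm_num) (show (0 : ℝ) < 1 by norm_num)]
        with s hs
      rw [scale_fl h hY (hm p (mem_ball_self hδ) v hv) hs ⟨by norm_num, by norm_num⟩, mul_one])
  obtain ⟨r, R, lg, hr, hR, hrδ, hRδ, l1, l2, l3, l4⟩ :=
    exists_lg hX (by rw [hfix]) hd hδ
  have br := ball_subset_ball (x := p) hrδ
  have bR := ball_subset_ball (x := (0 : Eu n)) hRδ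
  refine ⟨⟨r, R, fl, lg, hr, hR, h.sm, h.zero, h.add,
    fun x hx v hv t ht => (hW (hm x (br hx) v (bR hv) t ht)).1,
    fun x hx v hv => hD1 x (br hx) v (bR hv), ?_,
    fun x hx v hv s hs t ht => scale_fl h hY (hm x (br hx) v (bR hv)) hs ht,
    l1, fun x hx y hy => (l2 x hx y hy).1, fun x hx y hy => (l2 x hx y hy).2,
    fun x hx v hv _ => l3 x hx v hv, l4⟩⟩
  intro x hx v hv t ht w
  have hU' : (fl t (x, v)).1 ∈ U := (hW (hm x (br hx) v (bR hv) t ht)).1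
  have h1 : HasDerivAt (fun s => g (fl s (x, v)).1)
      (fderiv ℝ g (fl t (x, v)).1 (fl t (x, v)).2) t := by
    have h0 := ((hg.contDiffAt (hU.mem_nhds hU')).differentiableAt (by simp)).hasFDerivAt
    have h1 := HasFDerivAt.comp_hasDerivAt (f := fun s => (fl s (x, v)).1) t h0
      (hD1 x (br hx) v (bR hv) t ht)
    exact h1
  have h2 := (h1.clm_apply (hD2 x (br hx) v (bR hv) t ht)).clm_apply (hasDerivAt_const t w)
  have h3 : g (fl t (x, v)).1 (sp g (fl t (x, v))).2 = om g (fl t (x, v)) :=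
    ((inv_of_pos (hpos _ hU')).inverse_apply_eq.1 rfl).symm
  refine h2.congr_deriv ?_
  rw [h3]
  simp only [add_apply, om_apply, map_zero]
  ring

end Pool.Agent.MP_af6f1c_gt.Geo

end
end MrgPart2

-- ======== part 3: formerly Pool.Agent.MP_af6f1c_gt.geo.R4
section MrgPart3

/-! PROJECT GEO, row R4: short geodesics realise the distance. -/

open Set Topology Metric Filter
open scoped ContDiff

noncomputable section

namespace Pool.Agent.MP_af6f1c_gt.Geo

namespace R4P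

variable {n : ℕ}

/-- Cauchy-Schwarz for a symmetric nonnegative form -/
theorem cs (B : Eu n →L[ℝ] Eu n →L[ℝ] ℝ) (hs : ∀ v w, B v w = B w v) (hp : ∀ v, 0 ≤ B v v)
    (v w : Eu n) : B v w ^ 2 ≤ B v v * B w w := by
  have h : ∀ t : ℝ, 0 ≤ B w w * (t * t) + 2 * B v w * t + B v v := by
    intro t
    have := hp (v + t • w)
    simp only [map_add, map_smul, add_apply, smul_apply,
      smul_eq_mul, hs w v] at this
    nlinarith
  have := discrim_le_zero h
  simp only [discrim] at this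
  nlinarith

/-- a positive definite form is coercive -/
theorem coer (B : Eu n →L[ℝ] Eu n →L[ℝ] ℝ) (hp : ∀ v, v ≠ 0 → 0 < B v v) :
    ∃ c > (0 : ℝ), ∀ v, c * ‖v‖ ^ 2 ≤ B v v := by
  have hc : Continuous fun v : Eu n => B v v := by fun_prop
  have key : ∃ c > (0 : ℝ), ∀ v ∈ sphere (0 : Eu n) 1, c ≤ B v v := by
    rcases (sphere (0 : Eu n) 1).eq_empty_or_nonempty with h | h
    · exact ⟨1, one_pos, by simp [h]⟩
    · obtain ⟨v, hv, hm⟩ := (isCompact_sphere (0 : Eu n) 1).exists_isMinOn h hc.continuousOn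
      refine ⟨B v v, hp v ?_, fun w hw => hm hw⟩
      rintro rfl
      simp at hv
  obtain ⟨c, hc0, hc1⟩ := key
  refine ⟨c, hc0, fun v => ?_⟩
  rcases eq_or_ne v 0 with rfl | hv
  · simp
  · have hn : 0 < ‖v‖ := norm_pos_iff.2 hv
    have := hc1 (‖v‖⁻¹ • v) (by simp [norm_smul, hn.ne'])
    simp only [map_smul, smul_apply, smul_eq_mul] at this
    have e : B v v = ‖v‖⁻¹ * (‖v‖⁻¹ * B v v) * ‖v‖ ^ 2 := by field_simp
    rw [e]
    exact mul_le_mul_of_nonneg_right this (by positivity)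

/-- uniform coercivity near a point -/
theorem coer_near {g : Eu n → Eu n →L[ℝ] Eu n →L[ℝ] ℝ} {q : Eu n} (hg : ContinuousAt g q)
    (hp : ∀ v, v ≠ 0 → 0 < g q v v) :
    ∃ c > (0 : ℝ), ∀ᶠ X in 𝓝 q, ∀ v, c * ‖v‖ ^ 2 ≤ g X v v := by
  obtain ⟨c, hc, h⟩ := coer (g q) hp
  refine ⟨c / 2, by positivity, ?_⟩
  filter_upwards [hg.eventually (ball_mem_nhds (g q) (half_pos hc))] with X hX v
  have h1 : ‖(g X - g q) v v‖ ≤ ‖g X - g q‖ * ‖v‖ * ‖v‖ := ContinuousLinearMap.le_opNorm₂ _ _ _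
  have h2 : ‖g X - g q‖ < c / 2 := (dist_eq_norm (g X) (g q)).symm.trans_lt hX
  have h3 : ‖g X - g q‖ * ‖v‖ * ‖v‖ ≤ c / 2 * ‖v‖ ^ 2 := by
    rw [mul_assoc, ← sq]
    exact mul_le_mul_of_nonneg_right h2.le (by positivity)
  have h4 := (abs_le.1 (h1.trans h3)).1
  simp only [sub_apply] at h4
  have := h v
  linarith

section flow

variable {g : Eu n → Eu n →L[ℝ] Eu n →L[ℝ] ℝ} {U : Set (Eu n)} {q : Eu n} (D : GD g U q)

theorem ball_sub : ball q D.r ⊆ U := fun x hx => by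
  have := D.mem x hx 0 (mem_ball_self D.R_pos) 0 (by norm_num)
  rwa [D.zero] at this

theorem fl_zero {X : Eu n} (hX : X ∈ ball q D.r) {t : ℝ} (ht : t ∈ Icc (-2 : ℝ) 2) :
    D.fl t (X, 0) = (X, 0) := by
  have := D.scale X hX 0 (mem_ball_self D.R_pos) 0 (by norm_num) t ht
  simpa [D.zero] using this

theorem lg_self {X : Eu n} (hX : X ∈ ball q D.r) : D.lg (X, X) = 0 := by
  have h := fl_zero D hX (t := 1) (by norm_num)
  have := D.lg_uniq X hX 0 (mem_ball_self D.R_pos) (by rw [h]; exact hX)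
  rwa [h] at this

theorem e_self {X : Eu n} (hX : X ∈ ball q D.r) : D.e (X, X) = 0 := by
  simp [GD.e, lg_self D hX]

theorem e_diff (hF : D.FV) {X Y : Eu n} (hX : X ∈ ball q D.r) (hY : Y ∈ ball q D.r) :
    HasFDerivAt D.e (fderiv ℝ D.e (X, Y)) (X, Y) := by
  have h0 : IsOpen (ball q D.r ×ˢ ball q D.r) := isOpen_ball.prod isOpen_ball
  have h1 : ball q D.r ×ˢ ball q D.r ∈ 𝓝 (X, Y) := h0.mem_nhds (mk_mem_prod hX hY)
  have h2 : ContDiffAt ℝ ∞ D.e (X, Y) := hF.sm.contDiffAt h1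
  exact (h2.differentiableAt (by simp)).hasFDerivAt

theorem e_right (hF : D.FV) {X Y : Eu n} (hX : X ∈ ball q D.r) (hY : Y ∈ ball q D.r) :
    HasFDerivAt (fun w => D.e (X, w)) ((2 : ℝ) • g Y (D.fl 1 (X, D.lg (X, Y))).2) Y := by
  have h0 : HasFDerivAt (fun w : Eu n => (X, w)) (ContinuousLinearMap.inr ℝ (Eu n) (Eu n)) Y :=
    hasFDerivAt_prodMk_right X Y
  have := HasFDerivAt.comp (g := D.e) Y (e_diff D hF hX hY) h0
  refine this.congr_fderiv ?_
  ext w
  simp [hF.var X hX Y hY]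

theorem e_left (hF : D.FV) {X Y : Eu n} (hX : X ∈ ball q D.r) (hY : Y ∈ ball q D.r) :
    HasFDerivAt (fun w => D.e (w, Y)) ((-2 : ℝ) • g X (D.lg (X, Y))) X := by
  have h0 : HasFDerivAt (fun w : Eu n => (w, Y)) (ContinuousLinearMap.inl ℝ (Eu n) (Eu n)) X :=
    hasFDerivAt_prodMk_left X Y
  have := HasFDerivAt.comp (g := D.e) (f := fun w : Eu n => (w, Y)) X (e_diff D hF hX hY) h0
  refine this.congr_fderiv ?_
  ext w
  simp [hF.var X hX Y hY]

theorem e_end (hF : D.FV) {X Y : Eu n} (hX : X ∈ ball q D.r) (hY : Y ∈ ball q D.r) :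
    g Y (D.fl 1 (X, D.lg (X, Y))).2 (D.fl 1 (X, D.lg (X, Y))).2 = D.e (X, Y) := by
  have := hF.cons X hX _ (D.lg_mem X hX Y hY) 1 (by norm_num)
  rwa [D.lg_ex X hX Y hY] at this

end flow

section met

variable {M : Type} [MetricSpace M] {φ : OpenPartialHomeomorph M (Eu n)}
  {g : Eu n → Eu n →L[ℝ] Eu n →L[ℝ] ℝ} {q : Eu n} (D : GD g φ.target q)

theorem nn (hC : CM φ g) {X : Eu n} (hX : X ∈ φ.target) (v : Eu n) : 0 ≤ g X v v := by
  rcases eq_or_ne v 0 with rfl | hv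
  · simp
  · exact (hC.pos X hX v hv).le

theorem e_nn (hC : CM φ g) {X : Eu n} (hX : X ∈ ball q D.r) (Y : Eu n) : 0 ≤ D.e (X, Y) :=
  nn hC (ball_sub D hX) _

/-- upper bound along a geodesic -/
theorem upper (hC : CM φ g) (hF : D.FV) {X v : Eu n} (hX : X ∈ ball q D.r)
    (hv : v ∈ ball (0 : Eu n) D.R) {s t : ℝ} (hs : 0 ≤ s) (hst : s ≤ t) (ht : t ≤ 1) :
    dist (φ.symm (D.fl s (X, v)).1) (φ.symm (D.fl t (X, v)).1) ≤ (t - s) * √(g X v v) := by
  have hm : ∀ u ∈ Icc (0 : ℝ) 1, s + (t - s) * u ∈ Icc (-2 : ℝ) 2 := fun u hu =>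
    ⟨by nlinarith [hu.1, hu.2], by nlinarith [hu.1, hu.2]⟩
  have := hC.upper (fun u => (D.fl (s + (t - s) * u) (X, v)).1) ((t - s) * √(g X v v)) ?_
    (fun u hu => D.mem X hX v hv _ (hm u hu)) (mul_nonneg (by linarith) (Real.sqrt_nonneg _)) ?_
  · simpa using this
  · have h1 : ContDiff ℝ ∞ fun u : ℝ => ((s + (t - s) * u, (X, v)) : ℝ × (Eu n × Eu n)) := by
      fun_prop
    exact ((contDiff_fst.comp (D.sm.comp h1)).of_le (by simp)).contDiffOn
  · intro u hu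
    have hu' := hm u (Ioo_subset_Icc_self hu)
    have h1 : HasDerivAt (fun u : ℝ => s + (t - s) * u) (t - s) u := by
      simpa using ((hasDerivAt_id u).const_mul (t - s)).const_add s
    have h2 : HasDerivAt (fun u => (D.fl (s + (t - s) * u) (X, v)).1)
        ((t - s) • (D.fl (s + (t - s) * u) (X, v)).2) u :=
      HasDerivAt.scomp u (D.der X hX v hv _ hu') h1
    rw [h2.deriv]
    simp only [map_smul, smul_apply, smul_eq_mul]
    rw [hF.cons X hX v hv _ hu', mul_pow, Real.sq_sqrt (nn hC (ball_sub D hX) v)]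
    exact le_of_eq (by ring)

/-- lower bound -/
theorem lower (hC : CM φ g) (hF : D.FV) {x y : M} {r : ℝ}
    (hb : ball x r ⊆ φ.source ∩ φ ⁻¹' ball q D.r) (hd : dist x y < r) :
    √(D.e (φ x, φ y)) ≤ dist x y := by
  have hX : φ x ∈ ball q D.r := (hb (mem_ball_self (dist_nonneg.trans_lt hd))).2
  refine le_of_forall_pos_le_add fun ε hε => ?_
  have hpos : ∀ z, 0 < D.e (φ x, z) + ε ^ 2 := fun z =>
    add_pos_of_nonneg_of_pos (e_nn D hC hX z) (by positivity)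
  have := hC.lower (ball q D.r) (fun z => √(D.e (φ x, z) + ε ^ 2)) x y r isOpen_ball (ball_sub D)
    ?_ ?_ hb hd
  · simp only [e_self D hX, zero_add, Real.sqrt_sq hε.le] at this
    have h1 : √(D.e (φ x, φ y)) ≤ √(D.e (φ x, φ y) + ε ^ 2) :=
      Real.sqrt_le_sqrt (by nlinarith)
    linarith [(abs_le.1 this).2]
  · refine ContDiffOn.sqrt (ContDiffOn.add ?_ contDiffOn_const) fun z _ => (hpos z).ne'
    have h1 : ContDiff ℝ ∞ fun z : Eu n => (φ x, z) := by fun_prop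
    exact (hF.sm.comp h1.contDiffOn fun z hz => ⟨hX, hz⟩).of_le (by simp)
  · intro z hz w
    have h1 := ((e_right D hF hX hz).add_const (ε ^ 2)).sqrt (hpos z).ne'
    rw [h1.fderiv]
    have h2 := cs (g z) (hC.symm z (ball_sub D hz)) (nn hC (ball_sub D hz))
      (D.fl 1 (φ x, D.lg (φ x, z))).2 w
    rw [e_end D hF hX hz] at h2
    have h3 := nn hC (ball_sub D hz) w
    have h4 := hpos z
    simp only [smul_apply, smul_eq_mul]
    have e : (1 / (2 * √(D.e (φ x, z) + ε ^ 2)) *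
        (2 * g z (D.fl 1 (φ x, D.lg (φ x, z))).2 w)) ^ 2 =
        g z (D.fl 1 (φ x, D.lg (φ x, z))).2 w ^ 2 / (D.e (φ x, z) + ε ^ 2) := by
      have := Real.sqrt_pos.2 h4
      rw [eq_div_iff h4.ne']
      nth_rw 2 [← Real.sq_sqrt h4.le]
      field_simp
    rw [e, div_le_iff₀ h4]
    nlinarith [sq_nonneg ε]

/-- the distance formula -/
theorem dist_eq (hC : CM φ g) (hF : D.FV) {p : M} {r : ℝ}
    (hb : ball p (3 * r) ⊆ φ.source ∩ φ ⁻¹' ball q D.r) {x y : M} (hx : x ∈ ball p r)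
    (hy : y ∈ ball p r) : dist x y = √(D.e (φ x, φ y)) := by
  have hr : 0 < r := pos_of_mem_ball hx
  have hs : ball p r ⊆ ball p (3 * r) := ball_subset_ball (by linarith)
  obtain ⟨hx1, hX⟩ := hb (hs hx)
  obtain ⟨hy1, hY⟩ := hb (hs hy)
  apply le_antisymm
  · have := upper D hC hF hX (D.lg_mem _ hX _ hY) le_rfl zero_le_one le_rfl
    rw [D.zero, D.lg_ex _ hX _ hY, φ.left_inv hx1, φ.left_inv hy1] at this
    simpa [GD.e] using this
  · refine lower D hC hF (r := 2 * r) (Subset.trans (fun z hz => ?_) hb) ?_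
    · rw [mem_ball] at *
      linarith [dist_triangle z x p]
    · rw [mem_ball] at *
      linarith [dist_triangle_right x y p]

/-- at a point between two others the unit velocities agree -/
theorem vel (hC : CM φ g) (hF : D.FV) {p : M} {r : ℝ}
    (hb : ball p (3 * r) ⊆ φ.source ∩ φ ⁻¹' ball q D.r) {x y z : M} (hx : x ∈ ball p r)
    (hy : y ∈ ball p r) (hz : z ∈ ball p r) (h1 : 0 < dist x z) (h2 : 0 < dist z y)
    (h3 : dist x z + dist z y = dist x y) :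
    dist z y • (D.fl 1 (φ x, D.lg (φ x, φ z))).2 = dist x z • D.lg (φ z, φ y) := by
  have hr : 0 < r := pos_of_mem_ball hx
  have hs : ball p r ⊆ ball p (3 * r) := ball_subset_ball (by linarith)
  obtain ⟨hx1, hX⟩ := hb (hs hx)
  obtain ⟨hy1, hY⟩ := hb (hs hy)
  obtain ⟨hz1, hZ⟩ := hb (hs hz)
  have e1 := dist_eq D hC hF hb hx hz
  have e2 := dist_eq D hC hF hb hz hy
  have hmin : IsLocalMin (fun w => √(D.e (φ x, w)) + √(D.e (w, φ y))) (φ z) := by
    have hT : φ.target ∈ 𝓝 (φ z) := φ.open_target.mem_nhds (φ.map_source hz1)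
    have hc : ContinuousAt φ.symm (φ z) := φ.continuousAt_symm (φ.map_source hz1)
    have hB : ∀ᶠ w in 𝓝 (φ z), φ.symm w ∈ ball p r :=
      hc.eventually (by rw [φ.left_inv hz1]; exact isOpen_ball.mem_nhds hz)
    filter_upwards [hT, hB] with w hw hw'
    have a1 := dist_eq D hC hF hb hx hw'
    have a2 := dist_eq D hC hF hb hw' hy
    rw [φ.right_inv hw] at a1 a2
    rw [← a1, ← a2, ← e1, ← e2, h3]
    exact dist_triangle _ _ _
  have p1 : D.e (φ x, φ z) ≠ 0 := fun h => by rw [e1, h] at h1; simp at h1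
  have p2 : D.e (φ z, φ y) ≠ 0 := fun h => by rw [e2, h] at h2; simp at h2
  have hd := hmin.hasFDerivAt_eq_zero
    (((e_right D hF hX hZ).sqrt p1).add ((e_left D hF hZ hY).sqrt p2))
  rw [← e1, ← e2] at hd
  set V := (D.fl 1 (φ x, D.lg (φ x, φ z))).2
  set L := D.lg (φ z, φ y)
  by_contra hne
  have hp := hC.pos (φ z) (φ.map_source hz1) _ (sub_ne_zero.2 hne)
  set w := dist z y • V - dist x z • L with hw
  have h4 := congrArg (fun A : Eu n →L[ℝ] ℝ => A w) hd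
  simp only [add_apply, smul_apply, smul_eq_mul,
    zero_apply] at h4
  have h5 : g (φ z) w w = dist z y * g (φ z) V w - dist x z * g (φ z) L w := by
    conv_lhs => rw [show g (φ z) w = dist z y • g (φ z) V - dist x z • g (φ z) L by
      rw [hw, map_sub, map_smul, map_smul]]
    simp
  have h6 : dist z y * g (φ z) V w - dist x z * g (φ z) L w =
      dist x z * dist z y * (1 / (2 * dist x z) * (2 * g (φ z) V w) +
        1 / (2 * dist z y) * (-2 * g (φ z) L w)) := by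
    field_simp
    ring
  rw [h5, h6, h4] at hp
  simp at hp

end met

end R4P

open R4P in
theorem distS : DistStmt := by
  intro n M _ φ g p D hp hC hF
  have hq : φ p ∈ φ.target := φ.map_source hp
  obtain ⟨c, hc, hco⟩ := coer_near
    (hC.smooth.continuousOn.continuousAt (φ.open_target.mem_nhds hq)) (hC.pos _ hq)
  have hcont : ContinuousAt φ p := φ.continuousAt hp
  have hN : {x | (x ∈ φ.source ∩ φ ⁻¹' ball (φ p) D.r) ∧ ∀ v, c * ‖v‖ ^ 2 ≤ g (φ x) v v} ∈ 𝓝 p := by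
    filter_upwards [φ.open_source.mem_nhds hp, hcont.eventually (ball_mem_nhds _ D.r_pos),
      hcont.eventually hco] with x h1 h2 h3
    exact ⟨⟨h1, h2⟩, h3⟩
  obtain ⟨r₀, hr₀, hb₀⟩ := Metric.mem_nhds_iff.1 hN
  have hR := D.R_pos
  obtain ⟨r, hr, hr1, hr2⟩ : ∃ r > (0 : ℝ), 9 * r ≤ r₀ ∧ 2 * r ≤ √c * D.R :=
    ⟨min (r₀ / 9) (√c * D.R / 2), by positivity, by linarith [min_le_left (r₀ / 9) (√c * D.R / 2)],
      by linarith [min_le_right (r₀ / 9) (√c * D.R / 2)]⟩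
  have hb9 : ball p (3 * (3 * r)) ⊆ ball p r₀ := ball_subset_ball (by linarith)
  have hb : ball p (3 * (3 * r)) ⊆ φ.source ∩ φ ⁻¹' ball (φ p) D.r := fun x hx => (hb₀ (hb9 hx)).1
  have s1 : ball p r ⊆ ball p (3 * r) := ball_subset_ball (by linarith)
  have s2 : ball p (3 * r) ⊆ ball p (3 * (3 * r)) := ball_subset_ball (by linarith)
  have small : ∀ x ∈ ball p (3 * r), ∀ (v : Eu n) (d : ℝ), 0 ≤ d → d < 2 * r →
      g (φ x) v v = d ^ 2 → v ∈ ball (0 : Eu n) D.R := by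
    intro x hx v d h0 h1 h2
    have h3 := (hb₀ (hb9 (s2 hx))).2 v
    have h4 : d ^ 2 < (√c * D.R) ^ 2 := pow_lt_pow_left₀ (h1.trans_le hr2) h0 two_ne_zero
    rw [mul_pow, Real.sq_sqrt hc.le] at h4
    have h5 : ‖v‖ ^ 2 < D.R ^ 2 := lt_of_mul_lt_mul_left (by linarith) hc.le
    rw [mem_ball_zero_iff]
    exact lt_of_pow_lt_pow_left₀ 2 hR.le h5
  have sq : ∀ x ∈ ball p (3 * r), ∀ y ∈ ball p (3 * r), dist x y ^ 2 = D.e (φ x, φ y) := by
    intro x hx y hy
    rw [dist_eq D hC hF hb hx hy, Real.sq_sqrt (e_nn D hC (hb (s2 hx)).2 _)]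
  refine ⟨r, hr, fun x hx => hb (s2 (s1 hx)), fun x hx y hy => sq x (s1 hx) y (s1 hy), ?_⟩
  intro x hx y hy t ht z
  obtain ⟨hx1, hX⟩ := hb (s2 (s1 hx))
  obtain ⟨hy1, hY⟩ := hb (s2 (s1 hy))
  have hd : dist x y < 2 * r := by
    rw [mem_ball] at hx hy
    linarith [dist_triangle_right x y p]
  have hd0 : 0 ≤ dist x y := dist_nonneg
  constructor
  · rintro ⟨h1, h2⟩
    rcases hd0.eq_or_lt with h0 | h0
    · have exy : x = y := dist_eq_zero.1 h0.symm
      have exz : x = z := dist_eq_zero.1 (by rw [h1, ← h0, mul_zero])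
      subst exy
      rw [lg_self D hX, fl_zero D hX ⟨by linarith [ht.1], by linarith [ht.2]⟩, φ.left_inv hx1]
      exact exz.symm
    rcases ht.1.eq_or_lt with t0 | t0
    · subst t0
      rw [D.zero, φ.left_inv hx1]
      exact (dist_eq_zero.1 (by rw [h1, zero_mul])).symm
    rcases ht.2.eq_or_lt with t1 | t1
    · subst t1
      rw [D.lg_ex _ hX _ hY, φ.left_inv hy1]
      exact dist_eq_zero.1 (by rw [h2, sub_self, zero_mul])
    have hz : z ∈ ball p (3 * r) := by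
      rw [mem_ball] at hx ⊢
      have : dist x z ≤ dist x y := by rw [h1]; nlinarith
      linarith [dist_triangle_left z p x]
    obtain ⟨hz1, hZ⟩ := hb (s2 hz)
    have hv := vel D hC hF hb (s1 hx) (s1 hy) hz (by rw [h1]; positivity)
      (by rw [h2]; exact mul_pos (by linarith) h0) (by rw [h1, h2]; ring)
    obtain ⟨v, hvv⟩ : ∃ v, D.lg (φ x, φ z) = t • v :=
      ⟨t⁻¹ • D.lg (φ x, φ z), by rw [smul_inv_smul₀ t0.ne']⟩
    have gv : g (φ x) v v = dist x y ^ 2 := by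
      have := sq x (s1 hx) z hz
      simp only [GD.e, hvv, map_smul, smul_apply, smul_eq_mul, h1] at this
      have h3 : t ^ 2 * g (φ x) v v = t ^ 2 * dist x y ^ 2 := by linarith
      exact mul_left_cancel₀ (by positivity) h3
    have hvR := small x (s1 hx) v _ hd0 hd gv
    have sc := D.scale _ hX v hvR t ⟨by linarith, t1.le⟩ 1 (by norm_num)
    rw [mul_one, ← hvv] at sc
    have eZ : (D.fl t (φ x, v)).1 = φ z := by
      have := D.lg_ex _ hX _ hZ
      rwa [sc] at this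
    set u := (D.fl t (φ x, v)).2 with hu
    have eF : D.fl t (φ x, v) = (φ z, u) := Prod.ext eZ rfl
    have gu : g (φ z) u u = dist x y ^ 2 := by
      have := hF.cons _ hX v hvR t ⟨by linarith, by linarith⟩
      rw [eF] at this
      exact this.trans gv
    have huR := small z hz u _ hd0 hd gu
    have eL : D.lg (φ z, φ y) = (1 - t) • u := by
      rw [sc, h1, h2] at hv
      have hne : t * dist x y ≠ 0 := by positivity
      apply smul_right_injective _ hne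
      simp only [← hv, smul_smul]
      congr 1
      ring
    have sc2 := D.scale _ hZ u huR (1 - t) ⟨by linarith, by linarith⟩ 1 (by norm_num)
    rw [mul_one, ← eL] at sc2
    have eY : (D.fl 1 (φ x, v)).1 = φ y := by
      have a1 := D.add (1 - t) t (φ x, v)
      rw [sub_add_cancel, eF] at a1
      have a2 := D.lg_ex _ hZ _ hY
      rw [sc2] at a2
      rw [a1]
      exact a2
    have ev := D.lg_uniq _ hX v hvR (by rw [eY]; exact hY)
    rw [eY] at ev
    rw [ev, eZ, φ.left_inv hz1]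
  · rintro rfl
    have hl := D.lg_mem _ hX _ hY
    have a1 := upper D hC hF hX hl le_rfl ht.1 ht.2
    have a2 := upper D hC hF hX hl ht.1 ht.2 le_rfl
    have e := dist_eq D hC hF hb (s1 hx) (s1 hy)
    rw [GD.e] at e
    rw [D.zero, φ.left_inv hx1, ← e, sub_zero] at a1
    rw [D.lg_ex _ hX _ hY, φ.left_inv hy1, ← e] at a2
    have a3 := dist_triangle x (φ.symm (D.fl t (φ x, D.lg (φ x, φ y))).1) y
    constructor <;> nlinarith

end Pool.Agent.MP_af6f1c_gt.Geo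

end
end MrgPart3

-- ======== part 4: formerly Pool.Agent.MP_af6f1c_gt.geo.R5
section MrgPart4

/-! PROJECT GEO, row R5: extension, no branching, midpoint inequality and twist near a point. -/

open Set Topology Metric Filter
open scoped ContDiff

noncomputable section

namespace Pool.Agent.MP_af6f1c_gt.Geo

namespace R5P

theorem two_le : (2 : ℕ∞ω) ≤ ∞ := ENat.LEInfty.out

section gen

variable {E F : Type} [NormedAddCommGroup E] [NormedSpace ℝ E] [NormedAddCommGroup F]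
  [NormedSpace ℝ F]

theorem posdef [FiniteDimensional ℝ E] (Q : E →L[ℝ] E →L[ℝ] ℝ) (h : ∀ v, v ≠ 0 → 0 < Q v v) :
    ∃ c > (0 : ℝ), ∀ v, c * ‖v‖ ^ 2 ≤ Q v v := by
  have hc : Continuous fun v : E => Q v v := by fun_prop
  obtain ⟨c, hc0, hcs⟩ := (isCompact_sphere (0 : E) 1).exists_forall_le' hc.continuousOn
    (a := 0) fun v hv => h v (by rintro rfl; simp at hv)
  refine ⟨c, hc0, fun v => ?_⟩
  rcases eq_or_ne v 0 with rfl | hv
  · simp
  have hn : 0 < ‖v‖ := norm_pos_iff.2 hv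
  have h1 := hcs (‖v‖⁻¹ • v) (by simp [norm_smul, hn.ne'])
  simp only [map_smul, smul_apply, smul_eq_mul] at h1
  have h2 : c * ‖v‖ ^ 2 ≤ ‖v‖⁻¹ * (‖v‖⁻¹ * Q v v) * ‖v‖ ^ 2 := by gcongr
  refine h2.trans_eq ?_
  field_simp

theorem close (B B₀ : F →L[ℝ] F →L[ℝ] ℝ) (c a : ℝ) (h : ‖B - B₀‖ < c) (u v : F) (ha : 0 < a)
    (hu : ‖u‖ = a) (hv : ‖v‖ = a) : |B u v - B₀ u v| < c * a ^ 2 := by
  have h1 := (B - B₀).le_opNorm₂ u v
  rw [hu, hv] at h1
  have h2 : ‖B - B₀‖ * a * a < c * a ^ 2 := by nlinarith [mul_pos ha ha]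
  simpa using h1.trans_lt h2

theorem near0 {X G : Type} [TopologicalSpace X] [NormedAddCommGroup G] (B : X → G) (x : X)
    (h : ContinuousAt B x) (c : ℝ) (hc : 0 < c) : ∀ᶠ y in 𝓝 x, ‖B y - B x‖ < c := by
  have h1 : ContinuousAt (fun y => ‖B y - B x‖) x := (h.sub continuousAt_const).norm
  exact h1.eventually (gt_mem_nhds (by simpa using hc))

theorem near {X : Type} [TopologicalSpace X] (B : X → F →L[ℝ] F →L[ℝ] ℝ) (x : X)
    (h : ContinuousAt B x) (c : ℝ) (hc : 0 < c) : ∀ᶠ y in 𝓝 x, ‖B y - B x‖ < c :=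
  near0 (G := F →L[ℝ] F →L[ℝ] ℝ) B x h c hc

theorem line1 (H : F → ℝ) (z u : F) (t : ℝ) (h : ContDiffAt ℝ 2 H (z + t • u)) :
    HasDerivAt (fun s : ℝ => H (z + s • u)) (fderiv ℝ H (z + t • u) u) t := by
  have h1 : HasDerivAt (fun s : ℝ => z + s • u) u t := by
    simpa using ((hasDerivAt_id t).smul_const u).const_add z
  exact (h.differentiableAt two_ne_zero).hasFDerivAt.comp_hasDerivAt t h1

theorem line2 (H : F → ℝ) (z u : F) (t : ℝ) (h : ContDiffAt ℝ 2 H (z + t • u)) :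
    HasDerivAt (fun s : ℝ => fderiv ℝ H (z + s • u) u) (D2 H (z + t • u) u u) t := by
  have h1 : HasDerivAt (fun s : ℝ => z + s • u) u t := by
    simpa using ((hasDerivAt_id t).smul_const u).const_add z
  have h2 : ContDiffAt ℝ 1 (fderiv ℝ H) (z + t • u) := h.fderiv_right (m := 1) le_rfl
  have h3 := (h2.differentiableAt one_ne_zero).hasFDerivAt.comp_hasDerivAt t h1
  simpa using h3.clm_apply (hasDerivAt_const t u)

theorem contD2 (H : F → ℝ) (z : F) (h : ContDiffAt ℝ 2 H z) : ContinuousAt (D2 H) z :=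
  ((h.fderiv_right (m := 1) le_rfl).fderiv_right (m := 0) le_rfl).continuousAt

/-- the midpoint inequality for a function that is a positive form on one fibre -/
theorem cvx [FiniteDimensional ℝ E] (H : F × E → ℝ) (q₀ : F) (Q : E →L[ℝ] E →L[ℝ] ℝ)
    (hQ : ∀ v, v ≠ 0 → 0 < Q v v) (hH : ContDiffAt ℝ 2 H (q₀, 0))
    (h0 : ∀ᶠ w in 𝓝 (0 : E), H (q₀, w) = Q w w) :
    ∀ᶠ z in 𝓝 ((q₀, 0) : F × E), z.2 ≠ 0 → 2 * H (z.1, 0) < H (z.1, z.2) + H (z.1, -z.2) := by
  obtain ⟨c, hc, hcQ⟩ := posdef Q hQ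
  have hev : ∀ᶠ z in 𝓝 ((q₀, 0) : F × E), ContDiffAt ℝ 2 H z := hH.eventually (by simp)
  have hB : ∀ w : E, D2 H (q₀, 0) (0, w) (0, w) = 2 * Q w w := by
    intro w
    have ht : Tendsto (fun s : ℝ => ((q₀, 0) : F × E) + s • ((0, w) : F × E)) (𝓝 0)
        (𝓝 (q₀, 0)) := by
      have : Continuous fun s : ℝ => ((q₀, 0) : F × E) + s • ((0, w) : F × E) := by fun_prop
      simpa using this.tendsto 0
    have ht2 : Tendsto (fun s : ℝ => s • w) (𝓝 0) (𝓝 0) := by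
      have : Continuous fun s : ℝ => s • w := by fun_prop
      simpa using this.tendsto 0
    have h1 : ∀ᶠ s : ℝ in 𝓝 0, H (((q₀, 0) : F × E) + s • ((0, w) : F × E)) = s ^ 2 * Q w w := by
      filter_upwards [ht2.eventually h0] with s hs
      simp only [Prod.smul_mk, smul_zero, Prod.mk_add_mk, add_zero, zero_add, hs, map_smul,
        smul_apply, smul_eq_mul]
      ring
    have h2 : ∀ᶠ s : ℝ in 𝓝 0,
        fderiv ℝ H (((q₀, 0) : F × E) + s • ((0, w) : F × E)) (0, w) = 2 * s * Q w w := by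
      filter_upwards [ht.eventually hev, h1.eventually_nhds] with s hs hs'
      have h3 := line1 H (q₀, 0) (0, w) s hs
      have h4 : HasDerivAt (fun s : ℝ => s ^ 2 * Q w w) (2 * s * Q w w) s := by
        simpa using (hasDerivAt_pow 2 s).mul_const (Q w w)
      exact h3.unique (h4.congr_of_eventuallyEq hs')
    have h5 := line2 H (q₀, 0) (0, w) 0 (by simpa using hH)
    have h6 : HasDerivAt (fun s : ℝ => 2 * s * Q w w) (2 * Q w w) 0 := by
      simpa using ((hasDerivAt_id (0 : ℝ)).const_mul 2).mul_const (Q w w)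
    simpa using h5.unique (h6.congr_of_eventuallyEq h2)
  have hnear : ∀ᶠ z in 𝓝 ((q₀, 0) : F × E), ‖D2 H z - D2 H (q₀, 0)‖ < c :=
    near _ _ (contD2 H _ hH) c hc
  obtain ⟨δ, hδ, hδ'⟩ := Metric.eventually_nhds_iff_ball.1 (hev.and hnear)
  filter_upwards [ball_mem_nhds ((q₀, 0) : F × E) hδ] with z hz hz0
  obtain ⟨q, w⟩ := z
  have hw : 0 < ‖w‖ := norm_pos_iff.2 hz0
  have hin : ∀ t ∈ Icc (-1 : ℝ) 1, ((q, 0) : F × E) + t • ((0, w) : F × E) ∈
      ball ((q₀, 0) : F × E) δ := by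
    intro t ht
    rw [← ball_prod_same] at hz ⊢
    refine ⟨by simpa using hz.1, ?_⟩
    have h1 : ‖w‖ < δ := by simpa using hz.2
    have h2 : |t| ≤ 1 := abs_le.2 ht
    have h3 : |t| * ‖w‖ ≤ 1 * ‖w‖ := by gcongr
    simpa [norm_smul] using h3.trans_lt (by simpa using h1)
  set h : ℝ → ℝ := fun t => H (((q, 0) : F × E) + t • ((0, w) : F × E)) with hh
  have hd1 : ∀ t ∈ Icc (-1 : ℝ) 1, HasDerivAt h
      (fderiv ℝ H (((q, 0) : F × E) + t • ((0, w) : F × E)) (0, w)) t :=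
    fun t ht => line1 H _ _ t (hδ' _ (hin t ht)).1
  have hcv : StrictConvexOn ℝ (Icc (-1 : ℝ) 1) h := by
    refine strictConvexOn_of_deriv2_pos (convex_Icc _ _)
      (fun t ht => (hd1 t ht).continuousAt.continuousWithinAt) fun t ht => ?_
    rw [interior_Icc] at ht
    have ht' : t ∈ Icc (-1 : ℝ) 1 := Ioo_subset_Icc_self ht
    have h1 : deriv h =ᶠ[𝓝 t]
        fun s => fderiv ℝ H (((q, 0) : F × E) + s • ((0, w) : F × E)) (0, w) := by
      filter_upwards [Icc_mem_nhds ht.1 ht.2] with s hs using (hd1 s hs).deriv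
    have h2 := line2 H (q, 0) (0, w) t (hδ' _ (hin t ht')).1
    have h3 := close _ _ c ‖w‖ (hδ' _ (hin t ht')).2 (0, w) (0, w) hw (by simp) (by simp)
    rw [hB] at h3
    have h4 := hcQ w
    have h5 := (abs_lt.1 h3).1
    change 0 < deriv (deriv h) t
    rw [h1.deriv_eq, h2.deriv]
    nlinarith [mul_pos hc (pow_pos hw 2)]
  have h6 := hcv.2 (show (-1 : ℝ) ∈ Icc (-1 : ℝ) 1 by simp) (show (1 : ℝ) ∈ Icc (-1 : ℝ) 1 by simp)
    (by norm_num) (show (0 : ℝ) < 1 / 2 by norm_num) (show (0 : ℝ) < 1 / 2 by norm_num)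
    (by norm_num)
  have e0 : h ((1 / 2 : ℝ) • (-1 : ℝ) + (1 / 2 : ℝ) • (1 : ℝ)) = H (q, 0) := by
    simp [hh]
  have e1 : h 1 = H (q, w) := by simp [hh]
  have e2 : h (-1) = H (q, -w) := by simp [hh]
  rw [e0, e1, e2] at h6
  simp only [smul_eq_mul] at h6
  change 2 * H (q, 0) < H (q, w) + H (q, -w)
  linarith

end gen

section flow

variable {n : ℕ} {g : Eu n → Eu n →L[ℝ] Eu n →L[ℝ] ℝ} {U : Set (Eu n)} {p : Eu n} (D : GD g U p)

theorem fl_zero (x : Eu n) (hx : x ∈ ball p D.r) : D.fl 1 (x, 0) = (x, 0) := by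
  have h := D.scale x hx 0 (mem_ball_self D.R_pos) 0 (by simp) 1 (by norm_num)
  simpa [D.zero] using h

theorem fl_scale (x : Eu n) (hx : x ∈ ball p D.r) (v : Eu n) (hv : v ∈ ball (0 : Eu n) D.R)
    (s : ℝ) (hs : s ∈ Icc (-1 : ℝ) 1) : (D.fl 1 (x, s • v)).1 = (D.fl s (x, v)).1 := by
  rw [D.scale x hx v hv s hs 1 (by norm_num), mul_one]

theorem smul_mem (v : Eu n) (hv : v ∈ ball (0 : Eu n) D.R) (s : ℝ) (hs : s ∈ Icc (-1 : ℝ) 1) :
    s • v ∈ ball (0 : Eu n) D.R := by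
  rw [mem_ball_zero_iff] at hv ⊢
  have h2 : |s| ≤ 1 := abs_le.2 hs
  have h3 : |s| * ‖v‖ ≤ 1 * ‖v‖ := by gcongr
  rw [norm_smul, Real.norm_eq_abs]
  linarith

theorem lg_self (x : Eu n) (hx : x ∈ ball p D.r) : D.lg (x, x) = 0 := by
  have h := D.lg_uniq x hx 0 (mem_ball_self D.R_pos) (by rw [fl_zero D x hx]; exact hx)
  rwa [fl_zero D x hx] at h

theorem fl_sm (t : ℝ) : ContDiff ℝ ∞ (D.fl t) :=
  D.sm.comp (contDiff_const.prodMk contDiff_id)

theorem box_nhds (x y : Eu n) (hx : x ∈ ball p D.r) (hy : y ∈ ball p D.r) :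
    ball p D.r ×ˢ ball p D.r ∈ 𝓝 (x, y) :=
  (isOpen_ball.prod isOpen_ball).mem_nhds ⟨hx, hy⟩

/-- midpoint inequality in the chart -/
theorem mid_chart (hF : D.FV) (hp : ∀ v, v ≠ 0 → 0 < g p v v) :
    ∀ᶠ z : Eu n × Eu n × Eu n in 𝓝 (p, p, p), z.2.1 ≠ z.2.2 →
      2 * D.e (z.1, (D.fl (1 / 2) (z.2.1, D.lg z.2)).1) < D.e (z.1, z.2.1) + D.e (z.1, z.2.2) := by
  have hpp : p ∈ ball p D.r := mem_ball_self D.r_pos
  set H : (Eu n × Eu n) × Eu n → ℝ := fun z => D.e (z.1.1, (D.fl 1 (z.1.2, z.2)).1) with hH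
  have hin : ContDiff ℝ ∞ fun z : (Eu n × Eu n) × Eu n => (z.1.1, (D.fl 1 (z.1.2, z.2)).1) :=
    (contDiff_fst.comp contDiff_fst).prodMk (contDiff_fst.comp ((fl_sm D 1).comp
      ((contDiff_snd.comp contDiff_fst).prodMk contDiff_snd)))
  have hH2 : ContDiffAt ℝ 2 H ((p, p), 0) := by
    have h1 : ContDiffAt ℝ ∞ D.e (p, (D.fl 1 (p, 0)).1) := by
      rw [fl_zero D p hpp]
      exact hF.sm.contDiffAt (box_nhds D p p hpp hpp)
    have h2 := ContDiffAt.comp (g := D.e) (((p, p), 0) : (Eu n × Eu n) × Eu n) h1 hin.contDiffAt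
    exact h2.of_le two_le
  have h0 : ∀ᶠ w in 𝓝 (0 : Eu n), H ((p, p), w) = g p w w := by
    have h1 : ContinuousAt (fun w : Eu n => (D.fl 1 (p, w)).1) 0 :=
      (continuous_fst.comp ((fl_sm D 1).continuous.comp
        (continuous_const.prodMk continuous_id))).continuousAt
    have h2 : ∀ᶠ w in 𝓝 (0 : Eu n), (D.fl 1 (p, w)).1 ∈ ball p D.r :=
      h1.eventually (isOpen_ball.mem_nhds (by simpa only [fl_zero D p hpp] using hpp))
    filter_upwards [h2, ball_mem_nhds (0 : Eu n) D.R_pos] with w hw hw'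
    simp only [hH, GD.e, D.lg_uniq p hpp w hw' hw]
  have h1 := cvx H (p, p) (g p) hp hH2 h0
  have hlg : ContinuousAt D.lg (p, p) :=
    D.lg_sm.continuousOn.continuousAt (box_nhds D p p hpp hpp)
  set Φ : Eu n × Eu n × Eu n → Eu n × Eu n := fun z => D.fl (1 / 2) (z.2.1, D.lg z.2) with hΦ
  have hΦ0 : Φ (p, p, p) = (p, 0) := by
    have h := D.scale p hpp 0 (mem_ball_self D.R_pos) 0 (by simp) (1 / 2) (by norm_num)
    simp only [hΦ, lg_self D p hpp]
    simpa [D.zero] using h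
  have hΦc : ContinuousAt Φ (p, p, p) :=
    (fl_sm D (1 / 2)).continuous.continuousAt.comp
      ((continuous_fst.comp continuous_snd).continuousAt.prodMk
        (ContinuousAt.comp (f := fun z : Eu n × Eu n × Eu n => z.2) hlg continuousAt_snd))
  have hΦt : Tendsto Φ (𝓝 (p, p, p)) (𝓝 (p, 0)) := hΦ0 ▸ hΦc.tendsto
  have hΨ : Tendsto (fun z : Eu n × Eu n × Eu n =>
      (((z.1, (Φ z).1), (1 / 2 : ℝ) • (Φ z).2) : (Eu n × Eu n) × Eu n)) (𝓝 (p, p, p))
      (𝓝 ((p, p), 0)) := by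
    refine ((continuous_fst.tendsto _).prodMk_nhds hΦt.fst_nhds).prodMk_nhds ?_
    simpa using hΦt.snd_nhds.const_smul (1 / 2 : ℝ)
  have h2 : ∀ᶠ z in 𝓝 ((p, p, p) : Eu n × Eu n × Eu n),
      Φ z ∈ ball p D.r ×ˢ ball (0 : Eu n) D.R :=
    hΦt.eventually ((isOpen_ball.prod isOpen_ball).mem_nhds ⟨hpp, mem_ball_self D.R_pos⟩)
  have h3 : ∀ᶠ z in 𝓝 ((p, p, p) : Eu n × Eu n × Eu n), z.2 ∈ ball p D.r ×ˢ ball p D.r :=
    (continuous_snd.tendsto _).eventually (box_nhds D p p hpp hpp)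
  filter_upwards [hΨ.eventually h1, h2, h3] with z hz hz2 hz3 hne
  obtain ⟨x, a, b⟩ := z
  have eb : (D.fl 1 ((Φ (x, a, b)).1, (1 / 2 : ℝ) • (Φ (x, a, b)).2)).1 = b := by
    rw [fl_scale D _ hz2.1 _ hz2.2 _ (by norm_num), Prod.mk.eta, hΦ, ← D.add]
    norm_num
    exact D.lg_ex a hz3.1 b hz3.2
  have ea : (D.fl 1 ((Φ (x, a, b)).1, -((1 / 2 : ℝ) • (Φ (x, a, b)).2))).1 = a := by
    rw [← neg_smul, fl_scale D _ hz2.1 _ hz2.2 _ (by norm_num), Prod.mk.eta, hΦ, ← D.add]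
    simp [D.zero]
  have hw : (1 / 2 : ℝ) • (Φ (x, a, b)).2 ≠ 0 := by
    intro h
    rw [h] at eb
    rw [h, neg_zero] at ea
    exact hne (ea.symm.trans eb)
  have h4 := hz hw
  simp only [hH, ea, eb, fl_zero D _ hz2.1] at h4
  change 2 * D.e (x, (Φ (x, a, b)).1) < D.e (x, a) + D.e (x, b)
  linarith

/-- the twist condition in the chart -/
theorem tw_chart (hF : D.FV) (hp : ∀ v, v ≠ 0 → 0 < g p v v) :
    ∀ᶠ z : Eu n × Eu n in 𝓝 (p, p), Tw (D2 D.e z) := by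
  have hpp : p ∈ ball p D.r := mem_ball_self D.r_pos
  obtain ⟨c, hc, hcQ⟩ := posdef (g p) hp
  have h1 : ContDiffAt ℝ 2 D.e (p, p) :=
    (hF.sm.contDiffAt (box_nhds D p p hpp hpp)).of_le two_le
  filter_upwards [near _ _ (contD2 D.e _ h1) c hc] with z hz
  have key : ∀ u : Eu n, D2 D.e z (u, 0) (0, u) = 0 → u = 0 := by
    intro u hu
    by_contra hne
    have hn : 0 < ‖u‖ := norm_pos_iff.2 hne
    have h2 := close _ _ c ‖u‖ hz (u, 0) (0, u) hn (by simp) (by simp)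
    rw [hu, hF.hess] at h2
    have h3 := hcQ u
    have h4 := (abs_lt.1 h2).2
    simp only [zero_sub, sub_zero, map_neg, neg_apply] at h4
    nlinarith [mul_pos hc (pow_pos hn 2)]
  exact ⟨fun u hu => key u (hu u), fun v hv => key v (hv v)⟩

/-- small energy gives a short vector whose end point is near -/
theorem ext_chart (hg : ContinuousAt g p) (hp : ∀ v, v ≠ 0 → 0 < g p v v) (V : Set (Eu n))
    (hV : V ∈ 𝓝 p) : ∃ ε > (0 : ℝ), ∀ᶠ x in 𝓝 p, ∀ w, g x w w < ε ^ 2 →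
      w ∈ ball (0 : Eu n) D.R ∧ (D.fl 1 (x, w)).1 ∈ V := by
  have hpp : p ∈ ball p D.r := mem_ball_self D.r_pos
  obtain ⟨c, hc, hcQ⟩ := posdef (g p) hp
  have h1 : ∀ᶠ z : Eu n × Eu n in 𝓝 (p, 0), (D.fl 1 z).1 ∈ V :=
    (continuous_fst.comp (fl_sm D 1).continuous).continuousAt.eventually
      (by simpa [fl_zero D p hpp] using hV)
  have h2 : ∀ᶠ z : Eu n × Eu n in 𝓝 (p, 0), z.2 ∈ ball (0 : Eu n) D.R :=
    (continuous_snd.tendsto _).eventually (ball_mem_nhds _ D.R_pos)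
  obtain ⟨δ, hδ, hδ'⟩ := Metric.eventually_nhds_iff_ball.1 (h2.and h1)
  refine ⟨√(c / 2) * δ, by positivity, ?_⟩
  filter_upwards [ball_mem_nhds p hδ, near _ _ hg _ (half_pos hc)]
    with x hx hx' w hw
  refine hδ' (x, w) ?_
  rw [← ball_prod_same]
  refine ⟨hx, ?_⟩
  rw [mem_ball_zero_iff]
  by_contra hle
  have hle' : δ ≤ ‖w‖ := not_lt.1 hle
  have hn : 0 < ‖w‖ := hδ.trans_le hle'
  have h3 := (abs_lt.1 (close _ _ (c / 2) ‖w‖ hx' w w hn rfl rfl)).1
  have h4 := hcQ w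
  rw [mul_pow, Real.sq_sqrt (half_pos hc).le] at hw
  have h5 : c / 2 * δ ^ 2 ≤ c / 2 * ‖w‖ ^ 2 := by gcongr
  linarith

end flow

end R5P

open R5P in
theorem localS : LocalStmt := by
  intro n M _ φ g p D r hp hC hF hr hsub hd hb
  have hpt : φ p ∈ φ.target := φ.map_source hp
  have hpos : ∀ v, v ≠ 0 → 0 < g (φ p) v v := hC.pos _ hpt
  have hφ : ContinuousAt φ p := φ.continuousAt hp
  set V : Set (Eu n) := φ.target ∩ φ.symm ⁻¹' ball p r with hV
  have hVo : IsOpen V := φ.isOpen_inter_preimage_symm isOpen_ball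
  have hVm : ∀ x ∈ ball p r, φ x ∈ V := fun x hx =>
    ⟨φ.map_source (hsub hx).1, by rw [mem_preimage, φ.left_inv (hsub hx).1]; exact hx⟩
  obtain ⟨ε, hε, h1⟩ := ext_chart D
    (hC.smooth.continuousOn.continuousAt (φ.open_target.mem_nhds hpt)) hpos V
    (hVo.mem_nhds (hVm p (mem_ball_self hr)))
  obtain ⟨δ₁, hδ₁, h1'⟩ := Metric.eventually_nhds_iff_ball.1 (hφ.tendsto.eventually h1)
  have ht2 : Tendsto (fun z : M × M => (φ z.1, φ z.2)) (𝓝 (p, p)) (𝓝 (φ p, φ p)) :=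
    (hφ.tendsto.comp (continuous_fst.tendsto (p, p))).prodMk_nhds
      (hφ.tendsto.comp (continuous_snd.tendsto (p, p)))
  obtain ⟨δ₂, hδ₂, h2'⟩ :=
    Metric.eventually_nhds_iff_ball.1 (ht2.eventually (tw_chart D hF hpos))
  have ht3 : Tendsto (fun z : M × M × M => (φ z.1, φ z.2.1, φ z.2.2)) (𝓝 (p, p, p))
      (𝓝 (φ p, φ p, φ p)) :=
    (hφ.tendsto.comp (continuous_fst.tendsto (p, p, p))).prodMk_nhds
      (ht2.comp (continuous_snd.tendsto (p, p, p)))
  obtain ⟨δ₃, hδ₃, h3'⟩ :=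
    Metric.eventually_nhds_iff_ball.1 (ht3.eventually (mid_chart D hF hpos))
  obtain ⟨s, hs, hsr, hsε, hs1, hs2, hs3⟩ : ∃ s > (0 : ℝ), 4 * s ≤ r ∧ s ≤ ε ∧ s ≤ δ₁ ∧
      2 * s ≤ δ₂ ∧ 2 * s ≤ δ₃ := by
    refine ⟨min (min (r / 4) ε) (min δ₁ (min (δ₂ / 2) (δ₃ / 2))), by positivity, ?_, ?_, ?_, ?_,
      ?_⟩
    · have := (min_le_left (min (r / 4) ε) (min δ₁ (min (δ₂ / 2) (δ₃ / 2)))).trans (min_le_left _ _)
      linarith
    · exact (min_le_left _ _).trans (min_le_right _ _)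
    · exact (min_le_right _ _).trans (min_le_left _ _)
    · have := (min_le_right (min (r / 4) ε) (min δ₁ (min (δ₂ / 2) (δ₃ / 2)))).trans
        ((min_le_right _ _).trans (min_le_left _ _))
      linarith
    · have := (min_le_right (min (r / 4) ε) (min δ₁ (min (δ₂ / 2) (δ₃ / 2)))).trans
        ((min_le_right _ _).trans (min_le_right _ _))
      linarith
  have hB : ∀ x ∈ ball p s, x ∈ ball p r := fun x hx => ball_subset_ball (by linarith) hx
  have hB2 : ∀ x ∈ ball p (2 * s), x ∈ ball p r := fun x hx => ball_subset_ball (by linarith) hx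
  have hN : ∀ x ∈ ball p s, ∀ y, dist x y < s → y ∈ ball p (2 * s) := by
    intro x hx y hy
    rw [mem_ball] at hx ⊢
    have := dist_triangle y x p
    rw [dist_comm y x] at this
    linarith
  refine ⟨s, hs, fun x hx => (hsub (hB2 x hx)).1, ⟨?_, ?_, ?_, ?_⟩, ?_⟩
  · intro x hx y hy t ht
    exact ⟨_, (hb x (hB x hx) y (hB2 y (hN x hx y hy)) t ht _).2 rfl,
      fun z hz => (hb x (hB x hx) y (hB2 y (hN x hx y hy)) t ht z).1 hz⟩
  · intro x hx y hxy σ hσ hσs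
    have hl : 0 < dist x y := dist_pos.2 hxy
    have hσ0 : 0 < σ := hl.trans_le hσ
    have hxr := hB x hx
    have hyr := hB2 y (hN x hx y (hσ.trans_lt hσs))
    set v := D.lg (φ x, φ y) with hv
    set w := (σ / dist x y) • v with hw
    have e1 : g (φ x) w w = σ ^ 2 := by
      have h : dist x y ^ 2 = g (φ x) v v := hd x hxr y hyr
      simp only [hw, map_smul, smul_apply, smul_eq_mul, ← h]
      field_simp
    obtain ⟨hwR, hwV⟩ := h1' x (ball_subset_ball hs1 hx) w (by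
      rw [e1]
      exact pow_lt_pow_left₀ (hσs.trans_le hsε) hσ0.le two_ne_zero)
    set z := φ.symm (D.fl 1 (φ x, w)).1 with hz
    have hzr : z ∈ ball p r := hwV.2
    have e2 : φ z = (D.fl 1 (φ x, w)).1 := φ.right_inv hwV.1
    have e3 : D.lg (φ x, φ z) = w := by
      rw [e2]
      exact D.lg_uniq _ (hsub hxr).2 w hwR (e2 ▸ (hsub hzr).2)
    have e4 : dist x z = σ := by
      have h : dist x z ^ 2 = g (φ x) (D.lg (φ x, φ z)) (D.lg (φ x, φ z)) := hd x hxr z hzr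
      rw [e3, e1] at h
      exact (pow_left_inj₀ dist_nonneg hσ0.le two_ne_zero).1 h
    have ht : dist x y / σ ∈ Icc (0 : ℝ) 1 := ⟨by positivity, (div_le_one hσ0).2 hσ⟩
    have e5 : y = φ.symm (D.fl (dist x y / σ) (φ x, D.lg (φ x, φ z))).1 := by
      rw [e3, ← fl_scale D _ (hsub hxr).2 w hwR _ ⟨by linarith [ht.1], ht.2⟩, hw, smul_smul]
      have : dist x y / σ * (σ / dist x y) = 1 := by field_simp
      rw [this, one_smul, hv, D.lg_ex _ (hsub hxr).2 _ (hsub hyr).2, φ.left_inv (hsub hyr).1]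
    have e6 := ((hb x hxr z hzr _ ht y).2 e5).2
    refine ⟨z, e4, ?_⟩
    rw [e6, e4]
    field_simp
    ring
  · intro x hx z y y' hxz hy hy' h1 h2
    have hl0 : 0 < dist x z := dist_pos.2 hxz
    have hle : dist x z ≤ dist x y := by linarith [dist_nonneg (x := z) (y := y)]
    have hl : 0 < dist x y := hl0.trans_le hle
    have hxr := hB x hx
    have hzr := hB2 z (hN x hx z (hle.trans_lt hy))
    have ht : dist x z / dist x y ∈ Icc (0 : ℝ) 1 := ⟨by positivity, (div_le_one hl).2 hle⟩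
    have ht' : dist x z / dist x y ∈ Icc (-1 : ℝ) 1 := ⟨by linarith [ht.1], ht.2⟩
    have key : ∀ u, dist x u = dist x y → dist x z + dist z u = dist x u →
        D.lg (φ x, φ z) = (dist x z / dist x y) • D.lg (φ x, φ u) := by
      intro u hu hu'
      have hur := hB2 u (hN x hx u (hu ▸ hy))
      have hvR := D.lg_mem _ (hsub hxr).2 _ (hsub hur).2
      have e1 := (hb x hxr u hur _ ht z).1 ⟨by rw [hu]; field_simp, by
        have : dist z u = dist x y - dist x z := by linarith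
        rw [this, hu]
        field_simp⟩
      have e2 : φ z = (D.fl 1 (φ x, (dist x z / dist x y) • D.lg (φ x, φ u))).1 := by
        rw [fl_scale D _ (hsub hxr).2 _ hvR _ ht']
        have e3 := φ.right_inv (D.mem _ (hsub hxr).2 _ hvR (dist x z / dist x y)
          ⟨by linarith [ht.1], by linarith [ht.2]⟩)
        rw [← e1] at e3
        exact e3
      have e4 := D.lg_uniq _ (hsub hxr).2 _ (smul_mem D _ hvR _ ht') (e2 ▸ (hsub hzr).2)
      rw [← e2] at e4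
      exact e4
    have e1 : D.lg (φ x, φ y) = D.lg (φ x, φ y') :=
      smul_right_injective _ (div_pos hl0 hl).ne' ((key y rfl h1).symm.trans (key y' hy' h2))
    have hyr := hB2 y (hN x hx y hy)
    have hyr' := hB2 y' (hN x hx y' (hy' ▸ hy))
    have e2 : φ y = φ y' := by
      rw [← D.lg_ex _ (hsub hxr).2 _ (hsub hyr).2, e1, D.lg_ex _ (hsub hxr).2 _ (hsub hyr').2]
    exact φ.injOn (hsub hyr).1 (hsub hyr').1 e2
  · intro x hx a b m ha hb' hab h1 h2
    have hxr := hB x hx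
    have ha2 := hN x hx a ha
    have hb2 := hN x hx b hb'
    have har := hB2 a ha2
    have hbr := hB2 b hb2
    have hmr : m ∈ ball p r := by
      rw [mem_ball] at ha2 ⊢
      have h3 := dist_triangle m a p
      have h4 := dist_triangle a x b
      rw [dist_comm m a] at h3
      rw [dist_comm a x] at h4
      linarith
    have e1 := (hb a har b hbr (1 / 2) (by norm_num) m).1 ⟨by linarith, by linarith⟩
    have e2 : φ m = (D.fl (1 / 2) (φ a, D.lg (φ a, φ b))).1 := by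
      have e3 := φ.right_inv (D.mem _ (hsub har).2 _ (D.lg_mem _ (hsub har).2 _ (hsub hbr).2)
        (1 / 2) (by norm_num))
      rw [← e1] at e3
      exact e3
    have h3 := h3' (x, a, b) (by
      rw [← ball_prod_same, ← ball_prod_same]
      exact ⟨ball_subset_ball (by linarith) hx, ball_subset_ball hs3 ha2,
        ball_subset_ball hs3 hb2⟩) (fun h => hab (φ.injOn (hsub har).1 (hsub hbr).1 h))
    rw [hd x hxr m hmr, hd x hxr a har, hd x hxr b hbr, e2]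
    exact h3
  · intro x hx y hy
    have hxr := hB2 x hx
    have hyr := hB2 y hy
    have e1 : sqd φ φ =ᶠ[𝓝 (φ x, φ y)] D.e := by
      filter_upwards [(hVo.prod hVo).mem_nhds (show (φ x, φ y) ∈ V ×ˢ V from
        ⟨hVm x hxr, hVm y hyr⟩)] with w hw
      have h := hd _ hw.1.2 _ hw.2.2
      rw [φ.right_inv hw.1.1, φ.right_inv hw.2.1] at h
      exact h
    have e2 : ContDiffAt ℝ 2 D.e (φ x, φ y) :=
      (hF.sm.contDiffAt (box_nhds D _ _ (hsub hxr).2 (hsub hyr).2)).of_le two_le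
    refine ⟨e2.congr_of_eventuallyEq e1, ?_⟩
    have e3 : D2 (sqd φ φ) (φ x, φ y) = D2 D.e (φ x, φ y) := e1.fderiv.fderiv_eq
    rw [e3]
    exact h2' (x, y) (by
      rw [← ball_prod_same]
      exact ⟨ball_subset_ball hs2 hx, ball_subset_ball hs2 hy⟩)

end Pool.Agent.MP_af6f1c_gt.Geo

end
end MrgPart4

-- ======== part 5: formerly Pool.Agent.MP_af6f1c_gt.geo.Susp
section MrgPart5

/-! PROJECT GEO row SUSP: the suspension isomorphism. -/

open Set Topology Metric Module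

noncomputable section

namespace Pool.Agent.MP_af6f1c_gt.Geo

namespace SuspP

variable {K : Type} [Field K] {X Y : Type} [TopologicalSpace X] [TopologicalSpace Y]

/-- the properties of a suspension operator -/
structure Gd (K : Type) [Field K] (X E : Type) [TopologicalSpace X] [NormedAddCommGroup E]
    (μ : ℕ) (c : ∀ n, Ch K n X →ₗ[K] Ch K (n + μ) (X × E)) : Prop where
  cz : ∀ n (V A : Set X), A ⊆ V → ∀ z ∈ Zr K n V A, c n z ∈
    Zr K (n + μ) (V ×ˢ closedBall 0 1) (A ×ˢ closedBall 0 1 ∪ V ×ˢ sphere 0 1)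
  cb : ∀ n (V A : Set X), A ⊆ V → ∀ z ∈ Br K n V A, c n z ∈
    Br K (n + μ) (V ×ˢ univ) (A ×ˢ univ ∪ V ×ˢ {0}ᶜ)
  sur : ∀ n (V O : Set X), IsOpen O → ∀ w ∈ Zr K (n + μ) (V ×ˢ univ) (V ×ˢ univ ∩ SO O E),
    ∃ z ∈ Zr K n V (V ∩ O), w - c n z ∈ Br K (n + μ) (V ×ˢ univ) (V ×ˢ univ ∩ SO O E)
  inj : ∀ n (V O : Set X), IsOpen O → ∀ z ∈ Zr K n V (V ∩ O),
    c n z ∈ Br K (n + μ) (V ×ˢ univ) (V ×ˢ univ ∩ SO O E) → z ∈ Br K n V (V ∩ O)
  low : ∀ j < μ, ∀ V O : Set X, IsOpen O →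
    Zr K j (V ×ˢ univ) (V ×ˢ univ ∩ SO O E) ≤ Br K j (V ×ˢ univ) (V ×ˢ univ ∩ SO O E)

section gd

variable {E : Type} [NormedAddCommGroup E] {μ : ℕ}
  {c : ∀ n, Ch K n X →ₗ[K] Ch K (n + μ) (X × E)}

lemma Gd.cz' (h : Gd K X E μ c) {n : ℕ} {V O : Set X} {z : Ch K n X}
    (hz : z ∈ Zr K n V (V ∩ O)) : c n z ∈ Zr K (n + μ) (V ×ˢ univ) (V ×ˢ univ ∩ SO O E) := by
  refine Zr_mono (prod_mono Subset.rfl (subset_univ _)) ?_ (h.cz n V _ inter_subset_left z hz)
  rintro p (hp | hp)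
  · exact ⟨⟨hp.1.1, trivial⟩, Or.inl hp.1.2⟩
  · refine ⟨⟨hp.1, trivial⟩, Or.inr fun e => ?_⟩
    have := hp.2
    rw [e] at this
    simp at this

lemma Gd.cb' (h : Gd K X E μ c) {n : ℕ} {V O : Set X} {z : Ch K n X}
    (hz : z ∈ Br K n V (V ∩ O)) : c n z ∈ Br K (n + μ) (V ×ˢ univ) (V ×ˢ univ ∩ SO O E) := by
  refine Br_mono Subset.rfl ?_ (h.cb n V _ inter_subset_left z hz)
  rintro p (hp | hp)
  · exact ⟨⟨hp.1.1, trivial⟩, Or.inl hp.1.2⟩
  · exact ⟨⟨hp.1, trivial⟩, Or.inr hp.2⟩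

lemma isOpen_SO {O : Set X} (hO : IsOpen O) : IsOpen (SO O E) :=
  (hO.preimage continuous_fst).union (isOpen_ne.preimage continuous_snd)

end gd

lemma push_inv {n : ℕ} {f : X → Y} {g : Y → X} (hf : Continuous f) (h : ∀ x, g (f x) = x)
    (z : Ch K n X) : push K n g (push K n f z) = z := by
  rw [push_push hf.continuousOn (mem_In_univ z)]
  exact push_eq_self (S := univ) (fun x _ => h x) (mem_In_univ z)

/-- a prism operator for a continuous homotopy -/
lemma prism_rel (T : Tools K) (h : ℝ × X → Y) (hc : Continuous h) :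
    ∃ P : ∀ n, Ch K n X →ₗ[K] Ch K (n + 1) Y,
      (∀ n (S : Set X) (S' : Set Y), MapsTo h (Icc 0 1 ×ˢ S) S' → ∀ z ∈ In K n S,
        P n z ∈ In K (n + 1) S') ∧
      (∀ n (z : Ch K (n + 1) X), bd K (n + 1) (P (n + 1) z) + P n (bd K n z) =
        push K (n + 1) (fun x => h (1, x)) z - push K (n + 1) (fun x => h (0, x)) z) ∧
      ∀ n (S A : Set X) (A' : Set Y), MapsTo h (Icc 0 1 ×ˢ A) A' → ∀ z ∈ Zr K n S A,
        bd K n (P n z) - (push K n (fun x => h (1, x)) z - push K n (fun x => h (0, x)) z) ∈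
          In K n A' := by
  obtain ⟨P, hP⟩ := T.prism X Y h
  refine ⟨P, fun n S => (hP S hc.continuousOn).1 n,
    fun n z => (hP univ hc.continuousOn).2.2 n z (mem_In_univ z), fun n S A A' hA z hz => ?_⟩
  cases n with
  | zero =>
    rw [(hP univ hc.continuousOn).2.1 z (mem_In_univ z), sub_self]
    exact zero_mem _
  | succ n =>
    rw [← (hP univ hc.continuousOn).2.2 n z (mem_In_univ z), sub_add_cancel_left]
    exact neg_mem ((hP A hc.continuousOn).1 n A' hA _ hz.2)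

lemma Zr_of_split {n : ℕ} {A B : Set X} {a b : Ch K n X} {w : Ch K (n + 1) X}
    (ha : a ∈ In K n A) (hb : b ∈ In K n B) (e : a + b = bd K n w) : b ∈ Zr K n B (A ∩ B) := by
  cases n with
  | zero => exact hb
  | succ n =>
    refine ⟨hb, mem_In_inter ?_ (bd_mem hb)⟩
    have h0 : bd K n a + bd K n b = 0 := by rw [← map_add, e, bd_bd]
    rw [eq_neg_of_add_eq_zero_right h0]
    exact neg_mem (bd_mem ha)

/-- the upper part of the suspended set -/
def Up (O : Set X) : Set (X × ℝ) := {p | p.1 ∈ O ∨ 0 < p.2}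

/-- the lower half space -/
def Dw (X : Type) : Set (X × ℝ) := {p | p.2 < 0}

lemma isOpen_Up {O : Set X} (hO : IsOpen O) : IsOpen (Up O) :=
  (hO.preimage continuous_fst).union (isOpen_lt continuous_const continuous_snd)

lemma isOpen_Dw : IsOpen (Dw X) := isOpen_lt continuous_snd continuous_const

omit [TopologicalSpace X] in
lemma Up_sub (O : Set X) : Up O ⊆ SO O ℝ := fun _ hp => hp.imp id fun h => h.ne'

omit [TopologicalSpace X] in
lemma Dw_sub (O : Set X) : Dw X ⊆ SO O ℝ := fun _ hp => Or.inr (ne_of_lt hp)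

omit [TopologicalSpace X] in
lemma cover (V O : Set X) : V ×ˢ univ ∩ SO O ℝ ⊆ Up O ∪ Dw X := by
  rintro p ⟨-, h | h⟩
  · exact Or.inl (Or.inl h)
  · rcases lt_or_gt_of_ne h with h | h
    · exact Or.inr h
    · exact Or.inl (Or.inr h)

omit [TopologicalSpace X] in
lemma mem_of_Up {O : Set X} {p : X × ℝ} (h : p ∈ Up O) (h' : p ∈ Dw X) : p.1 ∈ O :=
  h.resolve_right (not_lt.2 (le_of_lt h'))

lemma acyc (T : Tools K) (n : ℕ) (V O : Set X) :
    Zr K n (V ×ˢ univ) (V ×ˢ univ ∩ Up O) ≤ Br K n (V ×ˢ univ) (V ×ˢ univ ∩ Up O) := by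
  intro z hz
  have h1 := T.hom (X × ℝ) (X × ℝ) (fun q => (q.2.1, (1 - q.1) * q.2.2 + q.1)) (V ×ˢ univ)
    (V ×ˢ univ ∩ Up O) (V ×ˢ univ) (V ×ˢ univ ∩ Up O) n inter_subset_left (by fun_prop)
    (fun q hq => ⟨hq.2.1, trivial⟩) (fun q hq => ⟨⟨hq.2.1.1, trivial⟩, hq.2.2.imp id fun h => by
      have h0 := hq.1.1
      have h1 := hq.1.2
      have h2 : 0 < q.2.2 := h
      show 0 < (1 - q.1) * q.2.2 + q.1
      rcases eq_or_lt_of_le h0 with e | e
      · rw [← e]; simpa using h2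
      · nlinarith⟩) z hz
  rw [push_eq_self (S := univ) (f := fun x : X × ℝ => (x.1, (1 - 0) * x.2 + 0))
    (fun x _ => by simp) (mem_In_univ z)] at h1
  have h2 : push K n (fun x : X × ℝ => (x.1, (1 - 1) * x.2 + (1 : ℝ))) z ∈
      In K n (V ×ˢ univ ∩ Up O) :=
    push_mem (by exact fun x hx => ⟨⟨hx.1, trivial⟩, Or.inr (by simp)⟩) (Zr_le_In hz)
  have := sub_mem (In_le_Br h2) h1
  rwa [sub_sub_cancel] at this

lemma one (T : Tools K) (X : Type) [TopologicalSpace X] : ∃ c, Gd K X ℝ 1 c := by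
  obtain ⟨P, p1, p2, p3⟩ := prism_rel T (fun q : ℝ × X => (q.2, 2 * q.1 - 1)) (by fun_prop)
  obtain ⟨Q, q1, -, q3⟩ := prism_rel T
    (fun q : ℝ × (X × ℝ) => (q.2.1, (1 - q.1) * q.2.2 - q.1)) (by fun_prop)
  have e1 : (fun x : X => (x, 2 * (1 : ℝ) - 1)) = fun x => (x, (1 : ℝ)) := by
    funext x; norm_num
  have e0 : (fun x : X => (x, 2 * (0 : ℝ) - 1)) = fun x => (x, (-1 : ℝ)) := by
    funext x; norm_num
  have f1 : (fun x : X × ℝ => (x.1, (1 - 1) * x.2 - (1 : ℝ))) = fun x => (x.1, (-1 : ℝ)) := by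
    funext x; norm_num
  have f0 : (fun x : X × ℝ => (x.1, (1 - 0) * x.2 - (0 : ℝ))) = fun x => x := by
    funext x; simp
  simp only [e1, e0] at p2 p3
  simp only [f1, f0, push_id] at q3
  have mB : ∀ S : Set X, MapsTo (fun q : ℝ × X => (q.2, 2 * q.1 - 1)) (Icc 0 1 ×ˢ S)
      (S ×ˢ closedBall 0 1) := fun S q hq => ⟨hq.2, by
    have h0 := hq.1.1
    have h1 := hq.1.2
    simp only [mem_closedBall, dist_zero_right, Real.norm_eq_abs, abs_le]
    constructor <;> linarith⟩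
  have mU : ∀ V O : Set X, MapsTo (fun q : ℝ × X => (q.2, 2 * q.1 - 1)) (Icc 0 1 ×ˢ (V ∩ O))
      (V ×ˢ univ ∩ Up O) := fun V O q hq => ⟨⟨hq.2.1, trivial⟩, Or.inl hq.2.2⟩
  have neg : ∀ q : ℝ × (X × ℝ), q.1 ∈ Icc (0 : ℝ) 1 → q.2.2 < 0 → (1 - q.1) * q.2.2 - q.1 < 0 :=
    fun q hq h => by
      rcases eq_or_lt_of_le hq.1 with e | e
      · rw [← e]; simpa using h
      · nlinarith [hq.2]
  have hp : ∀ n (V O : Set X), ∀ z ∈ In K n V,
      push K n (fun x => (x, (1 : ℝ))) z ∈ In K n (V ×ˢ univ ∩ Up O) := fun n V O z hz =>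
    push_mem (by exact fun x hx => ⟨⟨hx, trivial⟩, Or.inr zero_lt_one⟩) hz
  refine ⟨P, fun n V A hA z hz => ⟨p1 n V _ (mB V) z (Zr_le_In hz), ?_⟩, fun n V A hA z hz => ?_,
    fun n V O hO w hw => ?_, fun n V O hO z hz hc => ?_, fun j hj V O hO z hz => ?_⟩
  · have h1 := In_mono (subset_union_left (t := V ×ˢ sphere 0 1)) (p3 n V A _ (mB A) z hz)
    have h2 : ∀ s : ℝ, |s| = 1 → push K n (fun x => (x, s)) z ∈
        In K n (A ×ˢ closedBall (0 : ℝ) 1 ∪ V ×ˢ sphere 0 1) := fun s hs =>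
      push_mem (by exact fun x hx => Or.inr ⟨hx, by simpa using hs⟩) (Zr_le_In hz)
    have := add_mem h1 (sub_mem (h2 1 abs_one) (h2 (-1) (by simp)))
    rwa [sub_add_cancel] at this
  · obtain ⟨w, hw, h1⟩ := mem_Br.1 hz
    have h2 : ∀ s : ℝ, s ≠ 0 → push K (n + 1) (fun x => (x, s)) w ∈
        In K (n + 1) (A ×ˢ (univ : Set ℝ) ∪ V ×ˢ {0}ᶜ) := fun s hs =>
      push_mem (by exact fun x hx => Or.inr ⟨hx, hs⟩) hw
    refine mem_Br.2 ⟨-P (n + 1) w,
      neg_mem (p1 _ V _ (by exact fun q hq => ⟨hq.2, trivial⟩) w hw), ?_⟩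
    have e : P n z - bd K (n + 1) (-P (n + 1) w) =
        P n (z - bd K n w) + (bd K (n + 1) (P (n + 1) w) + P n (bd K n w)) := by
      rw [map_neg, map_sub]; abel
    show P n z - bd K (n + 1) (-P (n + 1) w) ∈ _
    rw [e, p2]
    exact add_mem (p1 n A _ (by exact fun q hq => Or.inl ⟨hq.2, trivial⟩) _ h1)
      (sub_mem (h2 1 one_ne_zero) (h2 (-1) (by simp)))
  · obtain ⟨m, hm⟩ := (small (isOpen_Up hO) isOpen_Dw (cover V O) hw.2).exists
    obtain ⟨u, hu, d, hd, e⟩ := Submodule.mem_sup.1 hm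
    rw [← bd_Sd_pow] at e
    have hd' := Zr_of_split hu hd e
    have hz : push K n Prod.fst d ∈ Zr K n V (V ∩ O) :=
      push_Zr continuous_fst.continuousOn (by exact fun p hp => hp.1.1.1)
        (by exact fun p hp => ⟨hp.1.1.1.1, mem_of_Up hp.1.2 hp.2.2⟩) hd'
    refine ⟨-push K n Prod.fst d, neg_mem hz, ?_⟩
    have a1 := p3 n V _ _ (mU V O) _ hz
    have a2 := q3 n _ _ (V ×ˢ univ ∩ Up O)
      (fun q hq => ⟨⟨hq.2.1.1.1.1, trivial⟩, Or.inl (mem_of_Up (p := q.2) hq.2.1.2 hq.2.2.2)⟩) _ hd'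
    have a3 : Q n d ∈ In K (n + 1) (V ×ˢ univ ∩ SO O ℝ) :=
      q1 n _ _ (by exact fun q hq => ⟨⟨hq.2.1.1.1, trivial⟩, Or.inr (neg q hq.1 hq.2.2).ne⟩) _ hd
    have a4 := hp n V O _ (Zr_le_In hz)
    have a5 : u ∈ In K n (V ×ˢ univ ∩ Up O) := In_mono (by exact fun p hp => ⟨hp.1.1, hp.2⟩) hu
    rw [push_push (g := fun x => (x, (-1 : ℝ))) continuous_fst.continuousOn (mem_In_univ d)] at a1
    have key : (Sd K (n + 1) ^ m) w + P n (push K n Prod.fst d) + Q n d ∈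
        Zr K (n + 1) (V ×ˢ univ) (V ×ˢ univ ∩ Up O) := by
      refine mem_Zr_succ.2 ⟨add_mem (add_mem (Sd_pow_mem hw.1 m)
        (p1 n V _ (by exact fun q hq => ⟨hq.2, trivial⟩) _ (Zr_le_In hz)))
        (In_mono inter_subset_left a3), ?_⟩
      have := add_mem (add_mem (add_mem a1 a2) a4) a5
      rw [map_add, map_add, ← e]
      refine (congrArg (· ∈ In K n (V ×ˢ univ ∩ Up O)) ?_).mp this
      abel
    have k2 := Br_mono Subset.rfl (inter_subset_inter_right _ (Up_sub O)) (acyc T _ V O key)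
    have k3 := add_mem (sub_Sd_pow_mem hw m) (sub_mem k2 (In_le_Br a3))
    show w - P n (-push K n Prod.fst d) ∈ _
    refine (congrArg (· ∈ Br K (n + 1) (V ×ˢ univ) (V ×ˢ univ ∩ SO O ℝ)) ?_).mp k3
    rw [map_neg]
    abel
  · obtain ⟨w, -, h1⟩ := mem_Br.1 hc
    obtain ⟨m, hm⟩ := (small (isOpen_Up hO) isOpen_Dw (cover V O) h1).exists
    obtain ⟨u, hu, d, hd, e⟩ := Submodule.mem_sup.1 hm
    have e' : bd K n u + bd K n d = (Sd K n ^ m) (bd K n (P n z)) := by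
      rw [← map_add, e, bd_Sd_pow, map_sub, bd_bd, sub_zero]
    have dw : ∀ x : X, (x, (-1 : ℝ)) ∈ Dw X := fun x => neg_one_lt_zero (R := ℝ)
    have hm' : push K n (fun x => (x, (-1 : ℝ))) z ∈
        Zr K n (V ×ˢ univ ∩ Dw X) (V ×ˢ univ ∩ Up O ∩ (V ×ˢ univ ∩ Dw X)) :=
      push_Zr (by fun_prop) (by exact fun x hx => ⟨⟨hx, trivial⟩, dw x⟩)
        (by exact fun x hx => ⟨⟨⟨hx.1, trivial⟩, Or.inl hx.2⟩, ⟨hx.1, trivial⟩, dw x⟩) hz
    have hd' : d ∈ In K (n + 1) (V ×ˢ univ ∩ Dw X) :=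
      In_mono (by exact fun p hp => ⟨hp.1.1, hp.2⟩) hd
    have hu' : u ∈ In K (n + 1) (V ×ˢ univ ∩ Up O) :=
      In_mono (by exact fun p hp => ⟨hp.1.1, hp.2⟩) hu
    have a1 := Sd_pow_mem (add_mem (p3 n V _ _ (mU V O) _ hz) (hp n V O _ (Zr_le_In hz))) m
    have a2 : (Sd K n ^ m) (push K n (fun x => (x, (-1 : ℝ))) z) ∈
        Br K n (V ×ˢ univ ∩ Dw X) (V ×ˢ univ ∩ Up O ∩ (V ×ˢ univ ∩ Dw X)) := by
      refine mem_Br.2 ⟨-d, neg_mem hd', mem_In_inter ?_ ?_⟩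
      · refine (congrArg (· ∈ In K n (V ×ˢ univ ∩ Up O)) ?_).mp (sub_mem a1 (bd_mem hu'))
        rw [map_add, map_sub, map_sub, ← e', map_neg]
        abel
      · exact sub_mem (Sd_pow_mem (Zr_le_In hm') m) (bd_mem (neg_mem hd'))
    have a3 := add_mem (sub_Sd_pow_mem hm' m) a2
    rw [sub_add_cancel] at a3
    have a4 := push_Br (f := Prod.fst) (S' := V) (A' := V ∩ O) continuous_fst.continuousOn
      (fun p hp => hp.1.1) (fun p hp => ⟨hp.1.1.1, mem_of_Up hp.1.2 hp.2.2⟩) a3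
    rwa [push_inv (by fun_prop) (fun _ => rfl)] at a4
  · obtain rfl : j = 0 := by omega
    exact Br_mono Subset.rfl (inter_subset_inter_right _ (Up_sub O)) (acyc T 0 V O hz)

lemma zero (X : Type) [TopologicalSpace X] : ∃ c, Gd K X (Fin 0 → ℝ) 0 c := by
  have hc : Continuous fun x : X => (x, (0 : Fin 0 → ℝ)) := by fun_prop
  have hf : ∀ V O : Set X, MapsTo Prod.fst (V ×ˢ univ ∩ SO O (Fin 0 → ℝ)) (V ∩ O) :=
    fun V O p hp => ⟨hp.1.1, hp.2.resolve_right fun h => h (Subsingleton.elim _ _)⟩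
  refine ⟨fun n => push K n fun x => (x, 0), fun n V A hA z hz => ?_, fun n V A hA z hz => ?_,
    fun n V O hO w hw => ?_, fun n V O hO z hz h => ?_, fun j hj => absurd hj (Nat.not_lt_zero j)⟩
  · exact push_Zr (n := n) hc.continuousOn (by exact fun x hx => ⟨hx, by simp⟩)
      (by exact fun x hx => Or.inl ⟨hx, by simp⟩) hz
  · exact push_Br (n := n) hc.continuousOn (by exact fun x hx => ⟨hx, trivial⟩)
      (by exact fun x hx => Or.inl ⟨hx, trivial⟩) hz
  · refine ⟨push K n Prod.fst w, push_Zr continuous_fst.continuousOn (fun p hp => hp.1)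
      (hf V O) hw, ?_⟩
    have := push_inv (K := K) (n := n) (f := Prod.fst) (g := fun x : X => (x, (0 : Fin 0 → ℝ)))
      continuous_fst (fun p => Prod.ext rfl (Subsingleton.elim _ _)) w
    show w - push K n _ (push K n Prod.fst w) ∈ Br K n _ _
    rw [this, sub_self]
    exact zero_mem _
  · have := push_Br (n := n) continuous_fst.continuousOn (fun p hp => hp.1) (hf V O) h
    rwa [push_inv hc (fun _ => rfl)] at this

lemma step {E F : Type} [NormedAddCommGroup E] [NormedAddCommGroup F] {μ : ℕ}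
    {c : ∀ n, Ch K n X →ₗ[K] Ch K (n + μ) (X × E)}
    {c' : ∀ n, Ch K n (X × E) →ₗ[K] Ch K (n + 1) ((X × E) × ℝ)} (h : Gd K X E μ c)
    (h' : Gd K (X × E) ℝ 1 c') (φ : E × ℝ ≃ₜ F) (hφ : ∀ p, ‖φ p‖ = ‖p‖) :
    ∃ c, Gd K X F (μ + 1) c := by
  let Φ : (X × E) × ℝ → X × F := fun q => (q.1.1, φ (q.1.2, q.2))
  let Ψ : X × F → (X × E) × ℝ := fun q => ((q.1, (φ.symm q.2).1), (φ.symm q.2).2)
  have cΦ : Continuous Φ := by fun_prop
  have cΨ : Continuous Ψ := by fun_prop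
  have i1 : ∀ q, Ψ (Φ q) = q := fun q => by simp [Φ, Ψ]
  have i2 : ∀ q, Φ (Ψ q) = q := fun q => by simp [Φ, Ψ]
  have z0 : ∀ p, φ p = 0 ↔ p.1 = 0 ∧ p.2 = 0 := fun p => by
    rw [← norm_eq_zero, hφ, norm_eq_zero, Prod.ext_iff]; rfl
  have m1 : ∀ V : Set X, MapsTo Φ ((V ×ˢ univ) ×ˢ univ) (V ×ˢ univ) :=
    fun V q hq => ⟨hq.1.1, trivial⟩
  have m2 : ∀ V O : Set X, MapsTo Φ ((V ×ˢ univ) ×ˢ univ ∩ SO (SO O E) ℝ)
      (V ×ˢ univ ∩ SO O F) := fun V O q hq => ⟨⟨hq.1.1.1, trivial⟩, by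
    rcases hq.2 with (e | e) | e
    · exact Or.inl e
    · exact Or.inr fun f => e ((z0 _).1 f).1
    · exact Or.inr fun f => e ((z0 _).1 f).2⟩
  have n1 : ∀ V : Set X, MapsTo Ψ (V ×ˢ univ) ((V ×ˢ univ) ×ˢ univ) :=
    fun V q hq => ⟨⟨hq.1, trivial⟩, trivial⟩
  have n2 : ∀ V O : Set X, MapsTo Ψ (V ×ˢ univ ∩ SO O F)
      ((V ×ˢ univ) ×ˢ univ ∩ SO (SO O E) ℝ) := fun V O q hq => ⟨⟨⟨hq.1.1, trivial⟩, trivial⟩, by
    rcases hq.2 with e | e
    · exact Or.inl (Or.inl e)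
    · by_cases f : (φ.symm q.2).1 = 0
      · refine Or.inr fun g => e ?_
        rw [← φ.apply_symm_apply q.2]
        exact (z0 _).2 ⟨f, g⟩
      · exact Or.inl (Or.inr f)⟩
  have back : ∀ n (V O : Set X) (w : Ch K n (X × F)) (v : Ch K n ((X × E) × ℝ)),
      push K n Ψ w - v ∈ Br K n ((V ×ˢ univ) ×ˢ univ) ((V ×ˢ univ) ×ˢ univ ∩ SO (SO O E) ℝ) →
      w - push K n Φ v ∈ Br K n (V ×ˢ univ) (V ×ˢ univ ∩ SO O F) := fun n V O w v hv => by
    have := push_Br cΦ.continuousOn (m1 V) (m2 V O) hv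
    rwa [map_sub, push_inv cΨ i2] at this
  refine ⟨fun n => push K (n + μ + 1) Φ ∘ₗ c' (n + μ) ∘ₗ c n, fun n V A hA z hz => ?_,
    fun n V A hA z hz => ?_, fun n V O hO w hw => ?_, fun n V O hO z hz hc => ?_,
    fun j hj V O hO w hw => ?_⟩
  · have a := h'.cz _ _ _ (union_subset (prod_mono hA Subset.rfl)
      (prod_mono Subset.rfl sphere_subset_closedBall)) _ (h.cz n V A hA z hz)
    have nb : ∀ q : (X × E) × ℝ, dist (Φ q).2 0 = max (dist q.1.2 0) (dist q.2 0) := fun q => by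
      simp only [dist_zero_right, Φ, hφ, Prod.norm_def]
    refine push_Zr (n := n + μ + 1) cΦ.continuousOn (fun q hq => ?_) (fun q hq => ?_) a
    · refine ⟨hq.1.1, ?_⟩
      rw [mem_closedBall, nb]
      exact max_le hq.1.2 hq.2
    · rcases hq with ⟨e | e, f⟩ | ⟨e, f⟩
      · refine Or.inl ⟨e.1, ?_⟩
        rw [mem_closedBall, nb]
        exact max_le e.2 f
      · refine Or.inr ⟨e.1, ?_⟩
        rw [mem_sphere, nb, mem_sphere.1 e.2]
        exact max_eq_left f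
      · refine Or.inr ⟨e.1, ?_⟩
        rw [mem_sphere, nb, mem_sphere.1 f]
        exact max_eq_right e.2
  · have a := h'.cb _ _ _ (union_subset (prod_mono hA Subset.rfl)
      (prod_mono Subset.rfl (subset_univ _))) _ (h.cb n V A hA z hz)
    refine push_Br (n := n + μ + 1) cΦ.continuousOn (m1 V) (fun q hq => ?_) a
    rcases hq with ⟨e | e, -⟩ | ⟨e, f⟩
    · exact Or.inl ⟨e.1, trivial⟩
    · exact Or.inr ⟨e.1, fun g => e.2 ((z0 _).1 g).1⟩
    · exact Or.inr ⟨e.1, fun g => f ((z0 _).1 g).2⟩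
  · obtain ⟨z', hz', a⟩ := h'.sur (n + μ) _ _ (isOpen_SO hO) _
      (push_Zr (n := n + μ + 1) cΨ.continuousOn (n1 V) (n2 V O) hw)
    obtain ⟨z, hz, b⟩ := h.sur n V O hO z' hz'
    refine ⟨z, hz, back (n + μ + 1) V O w (c' (n + μ) (c n z)) ?_⟩
    have := add_mem a (h'.cb' b)
    rwa [map_sub, sub_add_sub_cancel] at this
  · have a := push_Br (n := n + μ + 1) cΨ.continuousOn (n1 V) (n2 V O) hc
    have e : push K (n + μ + 1) Ψ (push K (n + μ + 1) Φ (c' (n + μ) (c n z))) =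
      c' (n + μ) (c n z) := push_inv cΦ i1 _
    exact h.inj n V O hO z hz (h'.inj (n + μ) _ _ (isOpen_SO hO) _ (h.cz' hz) (e ▸ a))
  · have hw' := push_Zr cΨ.continuousOn (n1 V) (n2 V O) hw
    have := back j V O w 0 (by
      rw [sub_zero]
      cases j with
      | zero => exact h'.low 0 zero_lt_one _ _ (isOpen_SO hO) hw'
      | succ j =>
        obtain ⟨z', hz', a⟩ := h'.sur j _ _ (isOpen_SO hO) _ hw'
        have := add_mem a (h'.cb' (h.low j (by omega) V O hO hz'))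
        rwa [sub_add_cancel] at this)
    rwa [map_zero, sub_zero] at this

/-- one more coordinate -/
def cons (μ : ℕ) : (Fin μ → ℝ) × ℝ ≃ₜ (Fin (μ + 1) → ℝ) where
  toFun p := Fin.cons p.2 p.1
  invFun f := (Fin.tail f, f 0)
  left_inv p := by simp
  right_inv f := by simp
  continuous_toFun := by
    refine continuous_pi fun i => ?_
    refine Fin.cases ?_ (fun j => ?_) i
    · simpa using continuous_snd
    · simp only [Fin.cons_succ]
      fun_prop
  continuous_invFun := by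
    unfold Fin.tail
    fun_prop

lemma norm_cons (μ : ℕ) (p : (Fin μ → ℝ) × ℝ) : ‖cons μ p‖ = ‖p‖ := by
  refine le_antisymm ((pi_norm_le_iff_of_nonneg (norm_nonneg _)).2 fun i => ?_) ?_
  · refine Fin.cases ?_ (fun j => ?_) i
    · exact norm_snd_le p
    · exact (norm_le_pi_norm p.1 j).trans (norm_fst_le p)
  · rw [Prod.norm_def]
    exact max_le ((pi_norm_le_iff_of_nonneg (norm_nonneg _)).2 fun j =>
      norm_le_pi_norm (cons μ p) j.succ) (norm_le_pi_norm (cons μ p) 0)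

lemma all (T : Tools K) (X : Type) [TopologicalSpace X] (μ : ℕ) :
    ∃ c, Gd K X (Fin μ → ℝ) μ c := by
  induction μ with
  | zero => exact zero X
  | succ μ ih =>
    obtain ⟨c, h⟩ := ih
    obtain ⟨c', h'⟩ := one T (X × (Fin μ → ℝ))
    exact step h h' (cons μ) (norm_cons μ)

lemma transfer {E F : Type} [NormedAddCommGroup E] [NormedAddCommGroup F] (L : E ≃ₜ F)
    (hL : ∀ e, L e = 0 ↔ e = 0) {n r : ℕ} {O V V' : Set X}
    (h : RO K n (SO O F) (V ×ˢ univ) (V' ×ˢ univ) r) :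
    RO K n (SO O E) (V ×ˢ univ) (V' ×ˢ univ) r := by
  have c1 : Continuous fun p : X × E => (p.1, L p.2) := by fun_prop
  have c2 : Continuous fun p : X × F => (p.1, L.symm p.2) := by fun_prop
  refine Rk.of_inj h (push K n fun p : X × E => (p.1, L p.2))
    (fun z hz => Submodule.mem_sup_left (push_Zr c1.continuousOn
      (by exact fun p hp => ⟨hp.1, trivial⟩)
      (by exact fun p hp => ⟨⟨hp.1.1, trivial⟩, hp.2.imp id fun e f => e ((hL _).1 f)⟩) hz))
    fun z _ hz => ?_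
  have := push_Br (S' := V' ×ˢ univ) (A' := V' ×ˢ univ ∩ SO O E) c2.continuousOn
    (fun p hp => ⟨hp.1, trivial⟩) (fun p hp => ⟨⟨hp.1.1, trivial⟩, hp.2.imp id fun e f => e (by
      rw [← L.apply_symm_apply p.2]
      exact (hL _).2 f)⟩) hz
  rwa [push_inv c1 (fun p => by simp)] at this

end SuspP

open SuspP in
theorem susp (K : Type) [Field K] (T : Tools K) : SuspStmt K := by
  intro X _ μ
  obtain ⟨c, h⟩ := all T X μ
  exact ⟨c, h.cz, h.cb, fun n V O hO => ⟨h.sur n V O hO, h.inj n V O hO⟩,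
    fun j hj V O hO => rk_zero.2 (h.low j hj V O hO)⟩

open SuspP in
theorem suspRk (K : Type) [Field K] (_T : Tools K) (h : SuspStmt K) : SuspRkStmt K := by
  intro X E _ _ _ _ O V V' hO hV
  obtain ⟨c, h1, h2, h3, h4⟩ := h X (finrank ℝ E)
  have g : Gd K X (Fin (finrank ℝ E) → ℝ) (finrank ℝ E) c :=
    ⟨h1, h2, fun n V O hO => (h3 n V O hO).1, fun n V O hO => (h3 n V O hO).2,
      fun j hj V O hO => rk_zero.1 (h4 j hj V O hO)⟩
  let L : E ≃L[ℝ] (Fin (finrank ℝ E) → ℝ) := ContinuousLinearEquiv.ofFinrankEq (by simp)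
  have hL : ∀ e, L.toHomeomorph e = 0 ↔ e = 0 := fun e => L.map_eq_zero_iff
  have hs : V ×ˢ (univ : Set (Fin (finrank ℝ E) → ℝ)) ⊆ V' ×ˢ univ := prod_mono hV Subset.rfl
  refine ⟨fun n r hr => transfer L.toHomeomorph hL ?_, fun j hj => transfer L.toHomeomorph hL
    ((h4 j hj V O hO).mono Subset.rfl hs le_rfl)⟩
  refine (Rk.map hr (c n) fun z _ hz => g.cb' hz).of_le_sup fun w hw => ?_
  obtain ⟨z, hz, a⟩ := g.sur n V O hO w hw
  exact Submodule.mem_sup.2 ⟨c n z, ⟨z, hz, rfl⟩, _,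
    Br_mono hs (inter_subset_inter_left _ hs) a, by simp⟩

end Pool.Agent.MP_af6f1c_gt.Geo

end
end MrgPart5

-- marker of a merged file
example : 731051 + 209065 = 731051 + 209065 := rfl
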