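import Pool.Agent.MP_af6f1c_gt.geo.Spec
import Mathlib.Analysis.Calculus.FDeriv.Symmetric
import Mathlib.Analysis.Calculus.MeanValue
import Mathlib.Analysis.Calculus.Deriv.Prod
import Mathlib.GroupTheory.Archimedean
import Pool.Agent.MP_af6f1c_gt.geo.Base

-- ======== part 0: formerly Pool.Agent.MP_af6f1c_gt.geo.Nerve
section MrgPart0

/-! PROJECT GEO, row NERVE: nerve of a fine net, partition of unity and centre of mass. -/

open Set Topology Metric Filter

noncomputable section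

namespace Pool.Agent.MP_af6f1c_gt.Geo

namespace NerveP

variable {M : Type} [MetricSpace M] {q : ℕ}

/-- weighted sum of squared distances -/
def F (p : Fin q → M) (y : Fin q → ℝ) (z : M) : ℝ := ∑ v, y v * dist (p v) z ^ 2

theorem F_cont (p : Fin q → M) : Continuous fun a : (Fin q → ℝ) × M => F p a.1 a.2 := by
  unfold F
  fun_prop

theorem exists_min [CompactSpace M] [Nonempty M] (p : Fin q → M) (y : Fin q → ℝ) :
    ∃ z, ∀ w, F p y z ≤ F p y w := by
  have hc : Continuous fun z => F p y z := (F_cont p).comp (Continuous.prodMk_right y)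
  obtain ⟨z, -, hz⟩ := isCompact_univ.exists_isMinOn univ_nonempty hc.continuousOn
  exact ⟨z, fun w => hz (mem_univ w)⟩

theorem exists_pos {y : Fin q → ℝ} (h0 : ∀ v, 0 ≤ y v) (h1 : ∑ v, y v = 1) : ∃ v, 0 < y v := by
  by_contra h
  push Not at h
  have : ∑ v, y v ≤ 0 := Finset.sum_nonpos fun v _ => h v
  linarith

theorem near_min {p : Fin q → M} {y : Fin q → ℝ} {x z : M} {r : ℝ} (h0 : ∀ v, 0 ≤ y v)
    (hx : ∀ v, y v ≠ 0 → dist x (p v) < r) (h1 : ∑ v, y v = 1) (hz : ∀ w, F p y z ≤ F p y w) :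
    dist x z < 2 * r := by
  obtain ⟨v₀, hv₀⟩ := exists_pos h0 h1
  by_contra hc
  push Not at hc
  have key : ∀ v, y v ≠ 0 → dist (p v) x ^ 2 < dist (p v) z ^ 2 := by
    intro v hv
    have a1 := hx v hv
    have a2 := dist_triangle x (p v) z
    have a3 : dist (p v) x < dist (p v) z := by rw [dist_comm (p v) x]; linarith
    exact pow_lt_pow_left₀ a3 dist_nonneg two_ne_zero
  have : F p y x < F p y z := by
    unfold F
    refine Finset.sum_lt_sum (fun v _ => ?_) ⟨v₀, Finset.mem_univ _, ?_⟩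
    · by_cases hv : y v = 0
      · simp [hv]
      · exact mul_le_mul_of_nonneg_left (key v hv).le (h0 v)
    · exact mul_lt_mul_of_pos_left (key v₀ hv₀.ne') hv₀
  exact absurd (hz x) (not_le.mpr this)

theorem uniq_min {n : ℕ} (G : GS M n) {p : Fin q → M} {y : Fin q → ℝ} {x a b : M} {r : ℝ}
    (hr : 4 * r ≤ G.ρ) (h0 : ∀ v, 0 ≤ y v) (hx : ∀ v, y v ≠ 0 → dist x (p v) < r)
    (h1 : ∑ v, y v = 1) (ha : ∀ w, F p y a ≤ F p y w) (hb : ∀ w, F p y b ≤ F p y w) : a = b := by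
  by_contra hab
  obtain ⟨v₀, hv₀⟩ := exists_pos h0 h1
  have hr0 : 0 < r := lt_of_le_of_lt dist_nonneg (hx v₀ hv₀.ne')
  have da := near_min h0 hx h1 ha
  have db := near_min h0 hx h1 hb
  have dab : dist a b < G.ρ := by
    have := dist_triangle_left a b x
    linarith
  obtain ⟨m, ⟨hm1, hm2⟩, -⟩ := G.g0.short.btw a (mem_univ _) b dab (1 / 2) ⟨by norm_num, by norm_num⟩
  have key : ∀ v, y v ≠ 0 → 2 * dist (p v) m ^ 2 < dist (p v) a ^ 2 + dist (p v) b ^ 2 := by
    intro v hv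
    have a1 := hx v hv
    have a2 := dist_triangle_left (p v) a x
    have a3 := dist_triangle_left (p v) b x
    exact G.g0.short.mid (p v) (mem_univ _) a b m (by linarith) (by linarith) hab (by linarith)
      (by linarith)
  have : 2 * F p y m < F p y a + F p y b := by
    unfold F
    rw [Finset.mul_sum, ← Finset.sum_add_distrib]
    refine Finset.sum_lt_sum (fun v _ => ?_) ⟨v₀, Finset.mem_univ _, ?_⟩
    · by_cases hv : y v = 0
      · simp [hv]
      · nlinarith [mul_le_mul_of_nonneg_left (key v hv).le (h0 v)]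
    · nlinarith [mul_lt_mul_of_pos_left (key v₀ hv₀.ne') hv₀]
  linarith [ha m, hb m]

theorem cont_min [CompactSpace M] {p : Fin q → M} {ψ : (Fin q → ℝ) → M} {C : Set (Fin q → ℝ)}
    (hψ : ∀ y w, F p y (ψ y) ≤ F p y w)
    (hu : ∀ y ∈ C, ∀ z, (∀ w, F p y z ≤ F p y w) → z = ψ y) : ContinuousOn ψ C := by
  intro y hy
  refine tendsto_nhds_of_unique_mapClusterPt fun z hz => hu y hy z fun w => ?_
  have hcl : IsClosed {a : (Fin q → ℝ) × M | F p a.1 a.2 ≤ F p a.1 w} :=
    isClosed_le (F_cont p) ((F_cont p).comp (continuous_fst.prodMk continuous_const))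
  obtain ⟨U, hU, hUz⟩ := mapClusterPt_iff_ultrafilter.mp hz
  have hUy : Tendsto (fun a => a) (U : Filter (Fin q → ℝ)) (𝓝 y) := hU.trans nhdsWithin_le_nhds
  exact hcl.mem_of_tendsto (hUy.prodMk_nhds hUz) (Eventually.of_forall fun a => hψ a w)

theorem exists_net [CompactSpace M] {ε : ℝ} (hε : 0 < ε) :
    ∃ (q : ℕ) (p : Fin q → M), ∀ x, ∃ v, dist x (p v) < ε := by
  obtain ⟨t, -, ht, hc⟩ := finite_cover_balls_of_compact (isCompact_univ (X := M)) hε
  obtain ⟨q, p, hp⟩ := ht.fin_param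
  refine ⟨q, p, fun x => ?_⟩
  obtain ⟨c, hc1, hc2⟩ := mem_iUnion₂.mp (hc (mem_univ x))
  rw [← hp.2] at hc1
  obtain ⟨v, rfl⟩ := hc1
  exact ⟨v, mem_ball.mp hc2⟩

end NerveP

open NerveP in
theorem nerve : NerveStmt := by
  classical
  intro n M _ _ _ G
  have hρ := G.g0.pos
  have hε : 0 < G.ρ / 8 := by linarith
  obtain ⟨q, p, hp⟩ := exists_net (M := M) hε
  choose ψ hψ using exists_min p
  set ε := G.ρ / 8 with hεdef
  let w : M → Fin q → ℝ := fun x v => max (ε - dist x (p v)) 0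
  have hw0 : ∀ x v, 0 ≤ w x v := fun x v => le_max_right _ _
  have hs : ∀ x, 0 < ∑ v, w x v := by
    intro x
    obtain ⟨v, hv⟩ := hp x
    exact Finset.sum_pos' (fun v _ => hw0 x v)
      ⟨v, Finset.mem_univ _, lt_max_of_lt_left (by linarith)⟩
  have hwc : ∀ v, Continuous fun x => w x v := fun v => by
    simp only [w]
    fun_prop
  refine ⟨q, {S | ∃ x, ∀ v ∈ S, dist x (p v) < 2 * ε}, fun x v => w x v / ∑ u, w x u, ψ, ε, hε,
    ?_, ?_, ?_, ?_, ?_⟩
  · rintro S ⟨x, hx⟩ S' hS'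
    exact ⟨x, fun v hv => hx v (hS' hv)⟩
  · exact continuous_pi fun v =>
      (hwc v).div (continuous_finsetSum _ fun u _ => hwc u) fun x => (hs x).ne'
  · refine cont_min hψ ?_
    rintro y ⟨h0, h1, S, ⟨x, hx⟩, hS⟩ z hz
    exact uniq_min G (r := 2 * ε) (by linarith) h0 (fun v hv => hx v ((hS v).mp hv)) h1 hz (hψ y)
  · intro x
    refine ⟨fun v => div_nonneg (hw0 x v) (hs x).le, ?_⟩
    rw [← Finset.sum_div, div_self (hs x).ne']
  · intro x
    refine ⟨Finset.univ.filter fun v => dist x (p v) < 2 * ε,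
      ⟨x, fun v hv => (Finset.mem_filter.mp hv).2⟩, ?_, ?_⟩
    · intro x' hx' v hv
      refine Finset.mem_filter.mpr ⟨Finset.mem_univ _, ?_⟩
      have h1 : w x' v ≠ 0 := fun h => hv (by simp [h])
      have h2 : dist x' (p v) < ε := by
        by_contra h
        exact h1 (max_eq_right (by linarith [not_lt.mp h]))
      linarith [dist_triangle x x' (p v)]
    · rintro y ⟨h0, h1, -⟩ hy
      have := near_min (x := x) (r := 2 * ε) h0
        (fun v hv => (Finset.mem_filter.mp (hy v hv)).2) h1 (hψ y)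
      linarith

end Pool.Agent.MP_af6f1c_gt.Geo

end
end MrgPart0

-- ======== part 1: formerly Pool.Agent.MP_af6f1c_gt.geo.R3
section MrgPart1

/-! PROJECT GEO: conservation of energy and the first variation formula. -/

open Set Topology Metric Filter
open scoped ContDiff

namespace Pool.Agent.MP_af6f1c_gt.Geo

namespace R3P

variable {X E : Type} [NormedAddCommGroup X] [NormedSpace ℝ X] [NormedAddCommGroup E]
  [NormedSpace ℝ E]

theorem two_le : (2 : WithTop ℕ∞) ≤ ∞ := ENat.natCast_le_of_coe_top_le_withTop le_rfl 2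

theorem line (a b : X) : HasDerivAt (fun s : ℝ => a + s • b) b 0 := by
  simpa using ((hasDerivAt_id (0 : ℝ)).smul_const b).const_add a

theorem dcomp {Y : Type} [NormedAddCommGroup Y] [NormedSpace ℝ Y] {f : X → Y} {c : ℝ → X}
    {x c' : X} {t : ℝ} (hf : DifferentiableAt ℝ f x) (hc : HasDerivAt c c' t) (e : x = c t) :
    HasDerivAt (fun s => f (c s)) (fderiv ℝ f x c') t :=
  HasFDerivAt.comp_hasDerivAt_of_eq t hf.hasFDerivAt hc e

theorem dfst {Y : Type} [NormedAddCommGroup Y] [NormedSpace ℝ Y] {c : ℝ → X × Y} {c' : X × Y}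
    {t : ℝ} (hc : HasDerivAt c c' t) : HasDerivAt (fun s => (c s).1) c'.1 t :=
  (ContinuousLinearMap.fst ℝ X Y).hasFDerivAt.comp_hasDerivAt t hc

theorem dsnd {Y : Type} [NormedAddCommGroup Y] [NormedSpace ℝ Y] {c : ℝ → X × Y} {c' : X × Y}
    {t : ℝ} (hc : HasDerivAt c c' t) : HasDerivAt (fun s => (c s).2) c'.2 t :=
  (ContinuousLinearMap.snd ℝ X Y).hasFDerivAt.comp_hasDerivAt t hc

theorem mixed {F : ℝ × X → E × E} (hF : ContDiff ℝ ∞ F) {t : ℝ} {a : X} (b : X)
    (h : ∀ᶠ a' in 𝓝 a, HasDerivAt (fun s => (F (s, a')).1) (F (t, a')).2 t) :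
    HasDerivAt (fun s => (fderiv ℝ F (s, a) (0, b)).1) (fderiv ℝ F (t, a) (0, b)).2 t := by
  have hd : Differentiable ℝ F := hF.differentiable (by simp)
  have hd2 : Differentiable ℝ (fderiv ℝ F) :=
    (hF.fderiv_right (m := ∞) (by simp)).differentiable (by simp)
  have l1 : ∀ a' : X, HasDerivAt (fun s : ℝ => (s, a')) (1, 0) t := fun a' =>
    (hasDerivAt_id t).prodMk (hasDerivAt_const t a')
  have l2 : HasDerivAt (fun s : ℝ => (t, a + s • b)) (0, b) 0 :=
    (hasDerivAt_const _ t).prodMk (line a b)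
  have h1 := dfst ((dcomp (hd2 (t, a)) (l1 a) rfl).clm_apply (hasDerivAt_const t ((0 : ℝ), b)))
  have h2 := dfst ((dcomp (hd2 (t, a)) l2 (by simp)).clm_apply
    (hasDerivAt_const (0 : ℝ) ((1 : ℝ), (0 : X))))
  have h3 := dsnd (dcomp (hd (t, a)) l2 (by simp))
  have h4 : Tendsto (fun s : ℝ => a + s • b) (𝓝 0) (𝓝 a) := by
    simpa using (line a b).continuousAt.tendsto
  have h5 := h2.unique (h3.congr_of_eventuallyEq (by
    filter_upwards [h4.eventually h] with s hs
    exact (dfst (dcomp (hd (t, a + s • b)) (l1 _) rfl)).unique hs))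
  have h6 := ((hF.contDiffAt (x := (t, a))).isSymmSndFDerivAt (by simpa using two_le)).eq
    (1, 0) (0, b)
  simp only [map_zero, add_zero] at h1 h5
  rw [h6, h5] at h1
  exact h1

theorem quad {B : X → E →L[ℝ] E →L[ℝ] ℝ} {l : X → E} {x : X} (hB : DifferentiableAt ℝ B x)
    (hl : DifferentiableAt ℝ l x) (b : X) :
    fderiv ℝ (fun y => B y (l y) (l y)) x b = fderiv ℝ B x b (l x) (l x) +
      B x (fderiv ℝ l x b) (l x) + B x (l x) (fderiv ℝ l x b) := by
  rw [((hB.hasFDerivAt.clm_apply hl.hasFDerivAt).clm_apply hl.hasFDerivAt).fderiv]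
  simp
  ring

theorem hess0 {B : X → E →L[ℝ] E →L[ℝ] ℝ} {l : X → E} {x : X} (hB : ContDiffAt ℝ 2 B x)
    (hl : ContDiffAt ℝ 2 l x) (h0 : l x = 0) (a b : X) :
    D2 (fun y => B y (l y) (l y)) x a b =
      B x (fderiv ℝ l x b) (fderiv ℝ l x a) + B x (fderiv ℝ l x a) (fderiv ℝ l x b) := by
  have d0 : DifferentiableAt ℝ (fderiv ℝ fun y => B y (l y) (l y)) x :=
    (((hB.clm_apply hl).clm_apply hl).fderiv_right (m := 1) (by norm_num)).differentiableAt
      one_ne_zero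
  have d1 := (hB.differentiableAt two_ne_zero).hasFDerivAt
  have d2 := (hl.differentiableAt two_ne_zero).hasFDerivAt
  have d3 := ((hB.fderiv_right (m := 1) (by norm_num)).differentiableAt
    one_ne_zero).hasFDerivAt.clm_apply (hasFDerivAt_const b x)
  have d4 := ((hl.fderiv_right (m := 1) (by norm_num)).differentiableAt
    one_ne_zero).hasFDerivAt.clm_apply (hasFDerivAt_const b x)
  have h1 := (((d3.clm_apply d2).clm_apply d2).add ((d1.clm_apply d4).clm_apply d2)).add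
    ((d1.clm_apply d2).clm_apply d4)
  have h2 := (d0.hasFDerivAt.clm_apply (hasFDerivAt_const b x)).unique
    (h1.congr_of_eventuallyEq (by
      filter_upwards [hB.eventually (by simp), hl.eventually (by simp)] with y h3 h4
      exact quad (h3.differentiableAt two_ne_zero) (h4.differentiableAt two_ne_zero) b))
  simpa [h0] using congrArg (fun L => L a) h2

variable {n : ℕ} {g : Eu n → Eu n →L[ℝ] Eu n →L[ℝ] ℝ} {U : Set (Eu n)} {p : Eu n} (D : GD g U p)

theorem mem0 {x : Eu n} (hx : x ∈ ball p D.r) : x ∈ U := by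
  have := D.mem x hx 0 (mem_ball_self D.R_pos) 0 (by norm_num)
  rwa [D.zero] at this

theorem dV (a : Eu n × Eu n) (t : ℝ) : DifferentiableAt ℝ (fun s => (D.fl s a).2) t :=
  ((D.sm.comp (contDiff_id.prodMk contDiff_const)).snd.differentiable (by simp)) t

variable (hU : IsOpen U) (hg : ContDiffOn ℝ ∞ g U) (hs : ∀ y ∈ U, ∀ v w, g y v w = g y w v)
include hU hg

theorem dg {y : Eu n} (hy : y ∈ U) : DifferentiableAt ℝ g y :=
  (hg.contDiffAt (hU.mem_nhds hy)).differentiableAt (by simp)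

/-- derivative of the momentum -/
theorem mom {x v : Eu n} (hx : x ∈ ball p D.r) (hv : v ∈ ball (0 : Eu n) D.R) {t : ℝ}
    (ht : t ∈ Icc (-2 : ℝ) 2) : ∃ P', HasDerivAt (fun s => g (D.fl s (x, v)).1 (D.fl s (x, v)).2)
      P' t ∧ (∀ w, P' w = 1 / 2 * fderiv ℝ g (D.fl t (x, v)).1 w (D.fl t (x, v)).2
        (D.fl t (x, v)).2) ∧
      P' = fderiv ℝ g (D.fl t (x, v)).1 (D.fl t (x, v)).2 (D.fl t (x, v)).2 +
        g (D.fl t (x, v)).1 (deriv (fun s => (D.fl s (x, v)).2) t) := by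
  have h1 := (dcomp (Y := Eu n →L[ℝ] Eu n →L[ℝ] ℝ) (f := g) (dg hU hg (D.mem x hx v hv t ht))
    (D.der x hx v hv t ht) rfl).clm_apply (dV D (x, v) t).hasDerivAt
  refine ⟨_, h1, fun w => ?_, rfl⟩
  simpa using (h1.clm_apply (hasDerivAt_const t w)).unique (D.el x hx v hv t ht w)

include hs

theorem cons {x v : Eu n} (hx : x ∈ ball p D.r) (hv : v ∈ ball (0 : Eu n) D.R) {t : ℝ}
    (ht : t ∈ Icc (-2 : ℝ) 2) :
    g (D.fl t (x, v)).1 (D.fl t (x, v)).2 (D.fl t (x, v)).2 = g x v v := by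
  have h1 : ∀ t ∈ Icc (-2 : ℝ) 2, HasDerivAt
      (fun s => g (D.fl s (x, v)).1 (D.fl s (x, v)).2 (D.fl s (x, v)).2) 0 t := fun t ht => by
    obtain ⟨P', h1, h2, h3⟩ := mom D hU hg hx hv ht
    refine (h1.clm_apply (dV D (x, v) t).hasDerivAt).congr_deriv ?_
    have h4 := h2 (D.fl t (x, v)).2
    have h5 := congrArg (fun L => L (D.fl t (x, v)).2) h3
    simp only [add_apply] at h5
    rw [hs _ (D.mem x hx v hv t ht)]
    linarith
  have h2 := constant_of_has_deriv_right_zero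
    (fun t ht => (h1 t ht).continuousAt.continuousWithinAt)
    fun t ht => (h1 t (Ico_subset_Icc_self ht)).hasDerivWithinAt
  have h3 := (h2 t ht).trans (h2 0 (by norm_num)).symm
  simpa only [D.zero] using h3

/-- first variation for the initial value problem -/
theorem var0 {x v : Eu n} (hx : x ∈ ball p D.r) (hv : v ∈ ball (0 : Eu n) D.R)
    (b : Eu n × Eu n) : fderiv ℝ (fun a : Eu n × Eu n => g a.1 a.2 a.2) (x, v) b =
      2 * g (D.fl 1 (x, v)).1 (D.fl 1 (x, v)).2 (fderiv ℝ (D.fl 1) (x, v) b).1 - 2 * g x v b.1 := by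
  set F : ℝ × (Eu n × Eu n) → Eu n × Eu n := fun q => D.fl q.1 q.2 with hF
  set κ := fderiv ℝ (fun a : Eu n × Eu n => g a.1 a.2 a.2) (x, v) b with hκ
  have hn : ∀ᶠ a in 𝓝 (x, v), a.1 ∈ ball p D.r ∧ a.2 ∈ ball (0 : Eu n) D.R :=
    (isOpen_ball.prod isOpen_ball).mem_nhds ⟨hx, hv⟩
  have hd : ∀ t, HasFDerivAt (D.fl t)
      ((fderiv ℝ F (t, x, v)).comp (ContinuousLinearMap.inr ℝ _ _)) (x, v) := fun t =>
    (D.sm.differentiable (by simp) (t, x, v)).hasFDerivAt.comp (x, v)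
      (hasFDerivAt_prodMk_right t (x, v))
  have he : ∀ t, fderiv ℝ F (t, x, v) (0, b) = fderiv ℝ (D.fl t) (x, v) b := fun t => by
    rw [(hd t).fderiv]; rfl
  have h1 : ∀ t ∈ Icc (-2 : ℝ) 2, HasDerivAt (fun s => g (D.fl s (x, v)).1 (D.fl s (x, v)).2
      (fderiv ℝ F (s, x, v) (0, b)).1 - κ / 2 * s) 0 t := fun t ht => by
    obtain ⟨P', h1, h2, -⟩ := mom D hU hg hx hv ht
    have h3 := mixed (F := F) D.sm b (hn.mono fun a ha => D.der a.1 ha.1 a.2 ha.2 t ht)
    refine ((h1.clm_apply h3).sub ((hasDerivAt_id t).const_mul (κ / 2))).congr_deriv ?_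
    have h4 : (fun a : Eu n × Eu n => g a.1 a.2 a.2) =ᶠ[𝓝 (x, v)]
        fun a => g (D.fl t a).1 (D.fl t a).2 (D.fl t a).2 :=
      hn.mono fun a ha => (cons D hU hg hs ha.1 ha.2 ht).symm
    have h5 := HasFDerivAt.comp (G := Eu n →L[ℝ] Eu n →L[ℝ] ℝ) (f := fun a => (D.fl t a).1) (x, v)
      (dg hU hg (D.mem x hx v hv t ht)).hasFDerivAt (hd t).fst
    have h6 := quad (B := fun a => g (D.fl t a).1) (l := fun a => (D.fl t a).2)
      h5.differentiableAt (hd t).snd.differentiableAt b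
    have h7 : fderiv ℝ (fun a => g (D.fl t a).1) (x, v) = _ := h5.fderiv
    rw [← h4.fderiv_eq, ← hκ, h7, (hd t).snd.fderiv, hs _ (D.mem x hx v hv t ht)] at h6
    rw [h2]
    simp only [ContinuousLinearMap.comp_apply, ContinuousLinearMap.inr_apply,
      ContinuousLinearMap.coe_fst', ContinuousLinearMap.coe_snd'] at h6
    linarith
  have h2 := constant_of_has_deriv_right_zero
    (fun t ht => (h1 t ht).continuousAt.continuousWithinAt)
    fun t ht => (h1 t (Ico_subset_Icc_self ht)).hasDerivWithinAt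
  have h3 := (h2 1 (by norm_num)).trans (h2 0 (by norm_num)).symm
  have h4 : D.fl 0 = id := funext D.zero
  simp only [he, h4, fderiv_id, id, ContinuousLinearMap.id_apply] at h3
  linarith

end R3P

open R3P in
theorem var : VarStmt := by
  intro n g U p D hU hg hs
  have ho : IsOpen (ball p D.r ×ˢ ball p D.r) := isOpen_ball.prod isOpen_ball
  have hB : ContDiffOn ℝ ∞ (fun w : Eu n × Eu n => g w.1) (ball p D.r ×ˢ ball p D.r) :=
    hg.comp contDiffOn_fst fun w hw => mem0 D hw.1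
  refine ⟨fun x hx v hv t ht => cons D hU hg hs hx hv ht,
    (hB.clm_apply D.lg_sm).clm_apply D.lg_sm, fun x hx y hy u w => ?_, fun u v u' v' => ?_⟩
  · have hn := ho.mem_nhds (show (x, y) ∈ _ from ⟨hx, hy⟩)
    have h1 : HasFDerivAt (fun q : Eu n × Eu n => (q.1, D.lg q))
        ((ContinuousLinearMap.fst ℝ _ _).prod (fderiv ℝ D.lg (x, y))) (x, y) :=
      hasFDerivAt_fst.prodMk ((D.lg_sm.contDiffAt hn).differentiableAt (by simp)).hasFDerivAt
    have h2 : DifferentiableAt ℝ (fun a : Eu n × Eu n => g a.1 a.2 a.2) (x, D.lg (x, y)) :=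
      (((dg hU hg (mem0 D hx)).comp (x, D.lg (x, y)) differentiableAt_fst).clm_apply
        differentiableAt_snd).clm_apply differentiableAt_snd
    have h3 : fderiv ℝ D.e (x, y) = _ :=
      (HasFDerivAt.comp (f := fun q : Eu n × Eu n => (q.1, D.lg q)) (x, y) h2.hasFDerivAt h1).fderiv
    have h4 : DifferentiableAt ℝ (D.fl 1) (x, D.lg (x, y)) :=
      (D.sm.comp (contDiff_const.prodMk contDiff_id)).differentiable (by simp) _
    have h5 := (HasFDerivAt.comp (f := fun q : Eu n × Eu n => (q.1, D.lg q)) (x, y)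
      h4.hasFDerivAt h1).fst.unique
      ((hasFDerivAt_snd (𝕜 := ℝ) (p := (x, y))).congr_of_eventuallyEq (by
        filter_upwards [hn] with q hq using D.lg_ex q.1 hq.1 q.2 hq.2))
    have h6 := congrArg (fun L => L (u, w)) h5
    simp only [ContinuousLinearMap.comp_apply, ContinuousLinearMap.coe_fst',
      ContinuousLinearMap.coe_snd'] at h6
    rw [h3, ContinuousLinearMap.comp_apply, var0 D hU hg hs hx (D.lg_mem x hx y hy), h6,
      D.lg_ex x hx y hy]
    rfl
  · have hp : p ∈ ball p D.r := mem_ball_self D.r_pos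
    have h0 : (0 : Eu n) ∈ ball (0 : Eu n) D.R := mem_ball_self D.R_pos
    have hn := ho.mem_nhds (show (p, p) ∈ _ from ⟨hp, hp⟩)
    have h1 : (D.fl 1 (p, 0)).1 = p := by
      have := D.scale p hp 0 h0 0 (by norm_num) 1 (by norm_num)
      rw [zero_smul, zero_mul, D.zero] at this
      rw [this]
    have h2 : D.lg (p, p) = 0 := by
      have := D.lg_uniq p hp 0 h0 (h1.symm ▸ hp)
      rwa [h1] at this
    have h3 := hess0 ((hB.contDiffAt hn).of_le two_le) ((D.lg_sm.contDiffAt hn).of_le two_le)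
      h2 (u, v) (u', v')
    rw [D.lg_der, D.lg_der, hs p (mem0 D hp)] at h3
    exact h3.trans (two_mul _).symm

end Pool.Agent.MP_af6f1c_gt.Geo

end MrgPart1

-- ======== part 2: formerly Pool.Agent.MP_af6f1c_gt.geo.Seg
section MrgPart2

/-! PROJECT GEO, row SEG: short segments and prime closed geodesics. -/

open Set Topology Metric Filter

noncomputable section

namespace Pool.Agent.MP_af6f1c_gt.Geo

namespace SegP

variable {M : Type} [MetricSpace M]

open Classical in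
/-- the chosen point between `x` and `y` -/
def sg {ρ : ℝ} (S : Short (univ : Set M) ρ) (x y : M) (t : ℝ) : M :=
  if h : dist x y < ρ ∧ t ∈ Icc (0 : ℝ) 1 then (S.btw x (mem_univ x) y h.1 t h.2).exists.choose
  else x

variable {ρ : ℝ}

lemma sg_spec (S : Short (univ : Set M) ρ) {x y : M} {t : ℝ} (h : dist x y < ρ)
    (ht : t ∈ Icc (0 : ℝ) 1) :
    dist x (sg S x y t) = t * dist x y ∧ dist (sg S x y t) y = (1 - t) * dist x y := by
  unfold sg
  rw [dif_pos ⟨h, ht⟩]
  exact (S.btw x (mem_univ x) y h t ht).exists.choose_spec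

lemma sg_uniq (S : Short (univ : Set M) ρ) {x y : M} {t : ℝ} (h : dist x y < ρ)
    (ht : t ∈ Icc (0 : ℝ) 1) {z : M} (h1 : dist x z = t * dist x y)
    (h2 : dist z y = (1 - t) * dist x y) : z = sg S x y t :=
  (S.btw x (mem_univ x) y h t ht).unique ⟨h1, h2⟩ (sg_spec S h ht)

lemma sg_dist_le (S : Short (univ : Set M) ρ) {x y : M} (h : dist x y < ρ) {s t : ℝ}
    (hs : s ∈ Icc (0 : ℝ) 1) (ht : t ∈ Icc (0 : ℝ) 1) (hst : s < t) :
    dist (sg S x y s) (sg S x y t) = (t - s) * dist x y := by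
  have ht0 : 0 < t := lt_of_le_of_lt hs.1 hst
  obtain ⟨a1, a2⟩ := sg_spec S h ht
  have hd : (0 : ℝ) ≤ dist x y := dist_nonneg
  have hlt : dist x (sg S x y t) < ρ := by
    rw [a1]
    nlinarith [ht.2]
  have hr : s / t ∈ Icc (0 : ℝ) 1 := ⟨div_nonneg hs.1 ht0.le, (div_le_one ht0).2 hst.le⟩
  obtain ⟨b1, b2⟩ := sg_spec S hlt hr
  set w := sg S x (sg S x y t) (s / t) with hw
  have c1 : dist x w = s * dist x y := by rw [b1, a1]; field_simp
  have c2 : dist w (sg S x y t) = (t - s) * dist x y := by rw [b2, a1]; field_simp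
  have c3 : dist w y = (1 - s) * dist x y := by
    have t1 := dist_triangle w (sg S x y t) y
    have t2 := dist_triangle x w y
    rw [c2, a2] at t1
    rw [c1] at t2
    linarith
  rw [← sg_uniq S h hs c1 c3, c2]

lemma sg_dist (S : Short (univ : Set M) ρ) {x y : M} (h : dist x y < ρ) {s t : ℝ}
    (hs : s ∈ Icc (0 : ℝ) 1) (ht : t ∈ Icc (0 : ℝ) 1) :
    dist (sg S x y s) (sg S x y t) = |s - t| * dist x y := by
  rcases lt_trichotomy s t with hst | hst | hst
  · rw [sg_dist_le S h hs ht hst, abs_sub_comm, abs_of_pos (sub_pos.2 hst)]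
  · subst hst
    simp
  · rw [dist_comm, sg_dist_le S h ht hs hst, abs_of_pos (sub_pos.2 hst)]

lemma sg_cont [CompactSpace M] (S : Short (univ : Set M) ρ) :
    ContinuousOn (fun q : M × M × ℝ => sg S q.1 q.2.1 q.2.2)
      {q | dist q.1 q.2.1 < ρ ∧ q.2.2 ∈ Icc (0 : ℝ) 1} := by
  intro q hq
  refine isCompact_univ.tendsto_nhds_of_unique_mapClusterPt (Eventually.of_forall fun _ =>
    mem_univ _) fun z _ hz => ?_
  obtain ⟨U, hU, hz⟩ := mapClusterPt_iff_ultrafilter.1 hz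
  have hq' : Tendsto (fun p : M × M × ℝ => p) U (𝓝 q) := hU.trans nhdsWithin_le_nhds
  have hm : ∀ᶠ p : M × M × ℝ in U, dist p.1 p.2.1 < ρ ∧ p.2.2 ∈ Icc (0 : ℝ) 1 :=
    hU self_mem_nhdsWithin
  have t1 : Tendsto (fun p : M × M × ℝ => p.1) U (𝓝 q.1) := (continuous_fst.tendsto q).comp hq'
  have t2 : Tendsto (fun p : M × M × ℝ => p.2.1) U (𝓝 q.2.1) :=
    ((continuous_fst.comp continuous_snd).tendsto q).comp hq'
  have t3 : Tendsto (fun p : M × M × ℝ => p.2.2) U (𝓝 q.2.2) :=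
    ((continuous_snd.comp continuous_snd).tendsto q).comp hq'
  refine sg_uniq S hq.1 hq.2 ?_ ?_
  · refine tendsto_nhds_unique_of_eventuallyEq (t1.dist hz) (t3.mul (t1.dist t2)) ?_
    filter_upwards [hm] with p hp using (sg_spec S hp.1 hp.2).1
  · refine tendsto_nhds_unique_of_eventuallyEq (hz.dist t2)
      ((tendsto_const_nhds.sub t3).mul (t1.dist t2)) ?_
    filter_upwards [hm] with p hp using (sg_spec S hp.1 hp.2).2

lemma locmin_le (S : Short (univ : Set M) ρ) {γ : ℝ → M} {c : ℝ} (hc : 0 ≤ c) (h : LocMin γ c)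
    {s u : ℝ} (hsu : s ≤ u) (hρ : c * (u - s) < ρ) : dist (γ s) (γ u) = c * (u - s) := by
  obtain ⟨ε, hε, h⟩ := h
  have h' : ∀ a b : ℝ, a ≤ b → b - a < ε → dist (γ a) (γ b) = c * (b - a) := fun a b hab hl => by
    have e : |a - b| = b - a := by rw [abs_sub_comm, abs_of_nonneg (sub_nonneg.2 hab)]
    have := h a b (by rwa [e])
    rwa [e] at this
  set η := ε / 3 with hη
  have hη0 : 0 < η := by positivity
  have key : ∀ k : ℕ, ∀ u, s ≤ u → u ≤ s + (k + 1) * η → c * (u - s) < ρ →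
      dist (γ s) (γ u) = c * (u - s) := by
    intro k
    induction k with
    | zero =>
      intro u h1 h2 _
      exact h' s u h1 (by push_cast at h2; linarith)
    | succ k ih =>
      intro u h1 h2 h3
      push_cast at h2
      rcases le_or_gt u (s + (k + 1) * η) with hle | hgt
      · exact ih u h1 hle h3
      have hk : (0 : ℝ) ≤ k * η := by positivity
      set p := s + k * η with hp
      set z := s + (k + 1) * η with hz
      have hzp : z = p + η := by rw [hz, hp]; ring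
      have hsz : s ≤ z := by linarith
      have hsp : s ≤ p := by linarith
      have dz : dist (γ s) (γ z) = c * (z - s) := ih z hsz le_rfl (by nlinarith)
      have dp : dist (γ s) (γ p) = c * (p - s) := ih p hsp (by linarith) (by nlinarith)
      have dpz : dist (γ p) (γ z) = c * (z - p) := h' p z (by linarith) (by linarith)
      have dzu : dist (γ z) (γ u) = c * (u - z) := h' z u hgt.le (by linarith)
      have dpu : dist (γ p) (γ u) = c * (u - p) := h' p u (by linarith) (by linarith)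
      rcases hc.eq_or_lt with hc0 | hc0
      · have t1 := dist_triangle (γ s) (γ z) (γ u)
        rw [dz, dzu, ← hc0] at t1
        rw [← hc0]
        have := dist_nonneg (x := γ s) (y := γ u)
        linarith
      have hne : γ s ≠ γ z := fun e => by
        rw [e, dist_self] at dz
        nlinarith
      obtain ⟨w, w1, w2⟩ := S.ext (γ s) (mem_univ _) (γ z) hne (c * (u - s))
        (by rw [dz]; nlinarith) h3
      have w3 : dist (γ z) w = c * (u - z) := by rw [dz] at w2; linarith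
      have w4 : dist (γ p) w = c * (u - p) := by
        have t1 := dist_triangle (γ p) (γ z) w
        have t2 := dist_triangle (γ s) (γ p) w
        rw [dpz, w3] at t1
        rw [w1, dp] at t2
        linarith
      have hne' : γ p ≠ γ z := fun e => by
        rw [e, dist_self] at dpz
        nlinarith
      have := S.nobr (γ p) (mem_univ _) (γ z) (γ u) w hne' (by rw [dpu]; nlinarith)
        (by rw [w4, dpu]) (by rw [dpz, dzu, dpu]; ring) (by rw [dpz, w3, w4]; ring)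
      rw [this, w1]
  obtain ⟨k, hk⟩ := exists_nat_ge ((u - s) / η)
  refine key k u hsu ?_ hρ
  rw [div_le_iff₀ hη0] at hk
  linarith

lemma locmin (S : Short (univ : Set M) ρ) {γ : ℝ → M} {c : ℝ} (hc : 0 ≤ c) (h : LocMin γ c)
    (s t : ℝ) (hρ : c * |s - t| < ρ) : dist (γ s) (γ t) = c * |s - t| := by
  rcases le_total s t with hst | hst
  · have e : |s - t| = t - s := by rw [abs_sub_comm, abs_of_nonneg (sub_nonneg.2 hst)]
    rw [e] at hρ ⊢
    exact locmin_le S hc h hst hρ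
  · have e : |s - t| = s - t := abs_of_nonneg (sub_nonneg.2 hst)
    rw [e] at hρ ⊢
    rw [dist_comm]
    exact locmin_le S hc h hst hρ

lemma aff {γ : ℝ → M} {c : ℝ} (h : LocMin γ c) {a : ℝ} (ha : a ≠ 0) (b : ℝ) :
    LocMin (fun t => γ (a * t + b)) (c * |a|) := by
  obtain ⟨ε, hε, h⟩ := h
  have ha' : 0 < |a| := abs_pos.2 ha
  refine ⟨ε / |a|, by positivity, fun s t hst => ?_⟩
  have e : |a * s + b - (a * t + b)| = |a| * |s - t| := by
    rw [← abs_mul]
    congr 1
    ring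
  have := h (a * s + b) (a * t + b) (by rw [e]; rwa [lt_div_iff₀ ha', mul_comm] at hst)
  show dist (γ (a * s + b)) (γ (a * t + b)) = _
  rw [this, e, mul_assoc]

lemma fwd (S : Short (univ : Set M) ρ) {α β : ℝ → M} {c : ℝ} (hc : 0 < c) (hα : LocMin α c)
    (hβ : LocMin β c) {a b : ℝ} (hab : a < b) (hρ : c * (b - a) < ρ) (ea : α a = β a)
    (eb : α b = β b) {t : ℝ} (h1 : a ≤ t) (h2 : c * (t - a) < ρ) : α t = β t := by
  have dab := locmin_le S hc.le hα hab.le hρ
  have d1 := locmin_le S hc.le hα h1 h2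
  have d2 := locmin_le S hc.le hβ h1 h2
  rw [← ea] at d2
  rcases le_total t b with htb | htb
  · have d3 := locmin_le S hc.le hα htb (by nlinarith)
    have d4 := locmin_le S hc.le hβ htb (by nlinarith)
    rw [← eb] at d4
    have hba : 0 < b - a := sub_pos.2 hab
    have hr : (t - a) / (b - a) ∈ Icc (0 : ℝ) 1 :=
      ⟨div_nonneg (sub_nonneg.2 h1) hba.le, (div_le_one hba).2 (by linarith)⟩
    have hl : dist (α a) (α b) < ρ := by rwa [dab]
    have e1 : c * (t - a) = (t - a) / (b - a) * dist (α a) (α b) := by rw [dab]; field_simp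
    have e2 : c * (b - t) = (1 - (t - a) / (b - a)) * dist (α a) (α b) := by
      rw [dab]
      field_simp
      ring
    rw [sg_uniq S hl hr (d1.trans e1) (d3.trans e2), sg_uniq S hl hr (d2.trans e1) (d4.trans e2)]
  · have d3 := locmin_le S hc.le hα htb (by nlinarith)
    have d4 := locmin_le S hc.le hβ htb (by nlinarith)
    rw [← eb] at d4
    have hne : α a ≠ α b := fun e => by
      rw [e, dist_self] at dab
      nlinarith
    exact S.nobr (α a) (mem_univ _) (α b) (α t) (β t) hne (by rwa [d1]) (by rw [d1, d2])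
      (by rw [dab, d3, d1]; ring) (by rw [dab, d4, d2]; ring)

lemma fwd_all (S : Short (univ : Set M) ρ) {α β : ℝ → M} {c : ℝ} (hc : 0 < c) (hα : LocMin α c)
    (hβ : LocMin β c) {a b : ℝ} (hab : a < b) (hρ : c * (b - a) < ρ) (ea : α a = β a)
    (eb : α b = β b) {t : ℝ} (h1 : a ≤ t) : α t = β t := by
  have hρ0 : 0 < ρ := lt_trans (mul_pos hc (sub_pos.2 hab)) hρ
  set η := ρ / (2 * c) with hη
  have hη0 : 0 < η := by positivity
  have hcη : c * η = ρ / 2 := by rw [hη]; field_simp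
  have key : ∀ k : ℕ, ∀ t, a ≤ t → t ≤ a + (k + 1) * η → α t = β t := by
    intro k
    induction k with
    | zero =>
      intro t h1 h2
      push_cast at h2
      exact fwd S hc hα hβ hab hρ ea eb h1 (by nlinarith)
    | succ k ih =>
      intro t h1 h2
      push_cast at h2
      rcases le_or_gt t (a + (k + 1) * η) with hle | hgt
      · exact ih t h1 hle
      have hk : (0 : ℝ) ≤ k * η := by positivity
      exact fwd S hc hα hβ (a := a + (k + 1) * η - η / 2) (b := a + (k + 1) * η) (by linarith)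
        (by nlinarith) (ih _ (by linarith) (by linarith)) (ih _ (by linarith) le_rfl)
        (by linarith) (by nlinarith)
  obtain ⟨k, hk⟩ := exists_nat_ge ((t - a) / η)
  refine key k t h1 ?_
  rw [div_le_iff₀ hη0] at hk
  linarith

lemma ext_lt (S : Short (univ : Set M) ρ) {α β : ℝ → M} {c : ℝ} (hc : 0 < c) (hα : LocMin α c)
    (hβ : LocMin β c) {a b : ℝ} (hab : a < b) (hρ : c * (b - a) < ρ) (ea : α a = β a)
    (eb : α b = β b) (t : ℝ) : α t = β t := by
  rcases le_total a t with h | h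
  · exact fwd_all S hc hα hβ hab hρ ea eb h
  · have hα' := aff hα (a := -1) (by norm_num) 0
    have hβ' := aff hβ (a := -1) (by norm_num) 0
    rw [abs_neg, abs_one, mul_one] at hα' hβ'
    have := fwd_all S hc hα' hβ' (a := -b) (b := -a) (by linarith) (by linarith)
      (by simpa using eb) (by simpa using ea) (t := -t) (by linarith)
    simpa using this

lemma ext_all (S : Short (univ : Set M) ρ) {α β : ℝ → M} {c : ℝ} (hc : 0 < c) (hα : LocMin α c)
    (hβ : LocMin β c) {a b : ℝ} (hab : a ≠ b) (hρ : c * |a - b| < ρ) (ea : α a = β a)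
    (eb : α b = β b) (t : ℝ) : α t = β t := by
  rcases lt_or_gt_of_ne hab with h | h
  · rw [abs_sub_comm, abs_of_pos (sub_pos.2 h)] at hρ
    exact ext_lt S hc hα hβ h hρ ea eb t
  · rw [abs_of_pos (sub_pos.2 h)] at hρ
    exact ext_lt S hc hα hβ h hρ eb ea t

/-- a closed geodesic with the same image is an affine reparametrisation -/
lemma reparam (S : Short (univ : Set M) ρ) (hρ : 0 < ρ) {γ γ' : ℝ → M} {c c' : ℝ} (h : CG γ c)
    (h' : CG γ' c') (hr : range γ' = range γ) :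
    ∃ a b : ℝ, c * |a| = c' ∧ ∀ t, γ' t = γ (a * t + b) := by
  obtain ⟨-, hp, hc, hl⟩ := h
  obtain ⟨-, -, hc', hl'⟩ := h'
  have hu : ∀ t, ∃ u ∈ Ico (0 : ℝ) 1, γ' t = γ u := fun t => by
    obtain ⟨u, hu⟩ : γ' t ∈ range γ := hr ▸ mem_range_self t
    obtain ⟨v, hv, e⟩ := hp.exists_mem_Ico₀ one_pos u
    exact ⟨v, hv, by rw [← hu, e]⟩
  choose u hu1 hu2 using hu
  set δ := ρ / c' with hδ
  have hδ0 : 0 < δ := by positivity
  obtain ⟨s, hs, t, ht, hst, e⟩ := (Ioo_infinite hδ0).exists_ne_map_eq_of_mapsTo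
    (f := fun t => ⌊u t * (c / ρ)⌋) (t := Icc 0 ⌊c / ρ⌋) (fun t _ =>
      ⟨Int.floor_nonneg.2 (mul_nonneg (hu1 t).1 (by positivity)), Int.floor_le_floor
        (mul_le_of_le_one_left (by positivity) (hu1 t).2.le)⟩) (finite_Icc _ _)
  have h1 : c * |u s - u t| < ρ := by
    have := Int.abs_sub_lt_one_of_floor_eq_floor e
    rw [← sub_mul, abs_mul, abs_of_pos (by positivity : 0 < c / ρ), ← mul_div_assoc,
      div_lt_one hρ] at this
    linarith
  have h2 : c' * |s - t| < ρ := by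
    have : |s - t| < δ := abs_sub_lt_iff.2 ⟨by linarith [hs.2, ht.1], by linarith [hs.1, ht.2]⟩
    rw [hδ, lt_div_iff₀ hc'] at this
    linarith
  have d1 := locmin S hc.le hl _ _ h1
  have d2 := locmin S hc'.le hl' _ _ h2
  rw [hu2 s, hu2 t, d1] at d2
  have hst' : s - t ≠ 0 := sub_ne_zero.2 hst
  have hpos : 0 < |s - t| := abs_pos.2 hst'
  set a := (u s - u t) / (s - t) with ha
  have hca : c * |a| = c' := by
    rw [ha, abs_div, ← mul_div_assoc, d2]
    field_simp
  have ha0 : a ≠ 0 := fun e0 => by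
    rw [e0, abs_zero, mul_zero] at hca
    exact hc'.ne hca
  have hβ := aff hl ha0 (u t - a * t)
  rw [hca] at hβ
  refine ⟨a, u t - a * t, hca, ext_all S hc' hl' hβ hst h2 ?_ ?_⟩
  · rw [hu2 s]
    congr 1
    rw [ha]
    field_simp
    ring
  · rw [hu2 t]
    congr 1
    ring

/-- the group of periods -/
def per (γ : ℝ → M) : AddSubgroup ℝ where
  carrier := {T | Function.Periodic γ T}
  zero_mem' := fun t => by rw [add_zero]
  add_mem' := fun h1 h2 => Function.Periodic.add_period h1 h2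
  neg_mem' := fun h => Function.Periodic.neg h

lemma exists_prime {γ₀ : ℝ → M} {c₀ : ℝ} (h : CG γ₀ c₀) :
    ∃ γ c, CG γ c ∧ range γ = range γ₀ ∧ ∀ T, Function.Periodic γ T → ∃ k : ℤ, T = k := by
  obtain ⟨h1, hp, hc, hl⟩ := h
  obtain ⟨ε, hε, h4⟩ := id hl
  obtain ⟨b, hb⟩ := AddSubgroup.cyclic_of_isolated_zero (H := per γ₀) hε (by
    rw [Set.disjoint_left]
    intro T hT hT'
    have e : |T - 0| = T := by rw [sub_zero, abs_of_pos hT'.1]
    have d := h4 T 0 (by rw [e]; exact hT'.2)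
    have z : γ₀ T = γ₀ 0 := by simpa using hT 0
    rw [z, dist_self, e] at d
    nlinarith [hT'.1])
  have mem : ∀ T, Function.Periodic γ₀ T ↔ ∃ k : ℤ, (k : ℝ) * b = T := fun T => by
    have : T ∈ per γ₀ ↔ ∃ k : ℤ, k • b = T := by rw [hb, AddSubgroup.mem_closure_singleton]
    simp only [zsmul_eq_mul] at this
    exact this
  have hb0 : b ≠ 0 := fun e => by
    obtain ⟨k, hk⟩ := (mem 1).1 hp
    rw [e] at hk
    simp at hk
  have hbp : Function.Periodic γ₀ b := (mem b).2 ⟨1, by simp⟩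
  refine ⟨fun t => γ₀ (b * t + 0), c₀ * |b|, ⟨by fun_prop, fun t => ?_,
    mul_pos hc (abs_pos.2 hb0), aff hl hb0 0⟩, ?_, fun T hT => ?_⟩
  · show γ₀ (b * (t + 1) + 0) = γ₀ (b * t + 0)
    rw [← hbp (b * t + 0)]
    congr 1
    ring
  · refine Subset.antisymm (by rintro _ ⟨t, rfl⟩; exact mem_range_self _) ?_
    rintro _ ⟨t, rfl⟩
    refine ⟨t / b, ?_⟩
    show γ₀ (b * (t / b) + 0) = γ₀ t
    congr 1
    field_simp
    ring
  · obtain ⟨k, hk⟩ := (mem (b * T)).1 fun t => by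
      have := hT (t / b)
      simp only [add_zero] at this
      rwa [mul_add, mul_div_cancel₀ _ hb0] at this
    exact ⟨k, mul_left_cancel₀ hb0 (by rw [← hk, mul_comm])⟩

end SegP

theorem segS : SegStmt := by
  intro n M _ _ ρ ch g
  exact ⟨{
    ρ := ρ
    ch := ch
    seg := SegP.sg g.short
    g0 := g
    cont := SegP.sg_cont g.short
    zero := fun x y h => by
      have := (SegP.sg_spec g.short h (t := 0) ⟨le_rfl, zero_le_one⟩).1
      rw [zero_mul, dist_eq_zero] at this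
      exact this.symm
    one := fun x y h => by
      have := (SegP.sg_spec g.short h (t := 1) ⟨zero_le_one, le_rfl⟩).2
      rwa [sub_self, zero_mul, dist_eq_zero] at this
    dist_seg := fun x y h s hs t ht => SegP.sg_dist g.short h hs ht
    uniq := fun x y h t ht z h1 h2 => SegP.sg_uniq g.short h ht h1 h2
    locmin := fun γ c hc h s t hρ => SegP.locmin g.short hc h s t hρ }⟩

theorem prime : PrimeStmt := by
  intro n M _ G γ₀ c₀ h₀
  obtain ⟨γ, c, h, hr, hT⟩ := SegP.exists_prime h₀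
  refine ⟨γ, c, h, hr, fun γ' c' h' hr' => ?_⟩
  obtain ⟨a, b, hca, e⟩ := SegP.reparam G.g0.short G.g0.pos h h' (hr'.trans hr.symm)
  have ha0 : a ≠ 0 := fun e0 => by
    rw [e0, abs_zero, mul_zero] at hca
    exact h'.2.2.1.ne hca
  obtain ⟨k, hk⟩ := hT a fun t => by
    have := h'.2.1 ((t - b) / a)
    rw [e, e] at this
    have e1 : a * ((t - b) / a + 1) + b = t + a := by field_simp; ring
    have e2 : a * ((t - b) / a) + b = t := by field_simp; ring
    rwa [e1, e2] at this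
  have hk0 : k ≠ 0 := fun e0 => ha0 (by rw [hk, e0, Int.cast_zero])
  have hm : ((k.natAbs : ℕ) : ℝ) = |a| := by rw [hk, Nat.cast_natAbs, Int.cast_abs]
  refine ⟨k.natAbs, b / a, Int.natAbs_pos.2 hk0, by rw [hm, ← hca, mul_comm], ?_⟩
  rw [hm]
  rcases lt_or_gt_of_ne ha0 with hn | hn
  · refine Or.inr fun t => ?_
    rw [e, abs_of_neg hn]
    congr 1
    field_simp
  · refine Or.inl fun t => ?_
    rw [e, abs_of_pos hn]
    congr 1
    field_simp

end Pool.Agent.MP_af6f1c_gt.Geo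

end
end MrgPart2

-- ======== part 3: formerly Pool.Agent.MP_af6f1c_gt.geo.TransA
section MrgPart3

/-! PROJECT GEO, row TRANS, part A: straightening one block does not raise the energy. -/

open Set Finset

noncomputable section

namespace Pool.Agent.MP_af6f1c_gt.Geo

namespace TransP

variable {n : ℕ} {M : Type} [MetricSpace M] (G : GS M n)

/-- weight of the edge `l` at time `τ` -/
def wt (τ : ℝ) (l : ℕ) : ℝ := min τ (l + 1) - min τ l

lemma wt_nonneg (τ : ℝ) (l : ℕ) : 0 ≤ wt τ l :=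
  sub_nonneg.mpr (min_le_min_left _ (by linarith))

lemma wt_le_one (τ : ℝ) (l : ℕ) : wt τ l ≤ 1 := by
  unfold wt
  rcases le_total τ l with h | h
  · rw [min_eq_left h, min_eq_left (by linarith)]; simp
  · rw [min_eq_right h]
    have := min_le_right τ ((l : ℝ) + 1)
    linarith

lemma sum_wt {τ : ℝ} {r : ℕ} (h0 : 0 ≤ τ) (hr : τ ≤ r) : ∑ l ∈ range r, wt τ l = τ := by
  have := Finset.sum_range_sub (fun l : ℕ => min τ (l : ℝ)) r
  simp only [Nat.cast_add, Nat.cast_one, Nat.cast_zero] at this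
  unfold wt
  rw [this, min_eq_left hr, min_eq_right h0, sub_zero]

/-- the data of one block -/
structure Blk (r : ℕ) (p : ℕ → M) (Z : ℝ → M) : Prop where
  pos : 0 < r
  short : ∀ l, dist (p l) (p (l + 1)) < G.ρ / r
  eq : ∀ l : ℕ, ∀ s ∈ Icc (l : ℝ) (l + 1), Z s = G.seg (p l) (p (l + 1)) (s - l)

variable {G} {r : ℕ} {p : ℕ → M} {Z : ℝ → M}

lemma Blk.lt (B : Blk G r p Z) (l : ℕ) : dist (p l) (p (l + 1)) < G.ρ := by
  have h1 : (1 : ℝ) ≤ r := by exact_mod_cast B.pos
  exact (B.short l).trans_le (div_le_self G.g0.pos.le h1)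

lemma Blk.nat (B : Blk G r p Z) (l : ℕ) : Z l = p l := by
  rw [B.eq l l ⟨le_rfl, by linarith⟩, sub_self, G.zero _ _ (B.lt l)]

lemma Blk.left (B : Blk G r p Z) (l : ℕ) {s : ℝ} (hs : s ∈ Icc (l : ℝ) (l + 1)) :
    dist (p l) (Z s) = (s - l) * dist (p l) (p (l + 1)) := by
  have h := G.dist_seg _ _ (B.lt l) 0 ⟨le_rfl, zero_le_one⟩ (s - l)
    ⟨by linarith [hs.1], by linarith [hs.2]⟩
  rw [G.zero _ _ (B.lt l), ← B.eq l s hs, zero_sub, abs_neg,
    abs_of_nonneg (by linarith [hs.1])] at h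
  exact h

lemma Blk.right (B : Blk G r p Z) (l : ℕ) {s : ℝ} (hs : s ∈ Icc (l : ℝ) (l + 1)) :
    dist (Z s) (p (l + 1)) = (1 - (s - l)) * dist (p l) (p (l + 1)) := by
  have h := G.dist_seg _ _ (B.lt l) (s - l) ⟨by linarith [hs.1], by linarith [hs.2]⟩ 1
    ⟨zero_le_one, le_rfl⟩
  rw [G.one _ _ (B.lt l), ← B.eq l s hs, abs_sub_comm,
    abs_of_nonneg (by linarith [hs.2])] at h
  exact h

lemma Blk.dist_le (B : Blk G r p Z) {τ : ℝ} (h0 : 0 ≤ τ) (hr : τ ≤ r) :
    dist (p 0) (Z τ) ≤ ∑ l ∈ range r, wt τ l * dist (p l) (p (l + 1)) := by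
  have h := dist_le_range_sum_dist (fun l : ℕ => Z (min τ l)) r
  simp only [Nat.cast_zero, Nat.cast_add, Nat.cast_one] at h
  rw [min_eq_right h0, min_eq_left hr] at h
  have hz : Z 0 = p 0 := by simpa using B.nat 0
  rw [hz] at h
  refine h.trans (Finset.sum_le_sum fun l _ => ?_)
  rcases le_total τ l with hl | hl
  · rw [min_eq_left hl, min_eq_left (by linarith), dist_self]
    exact mul_nonneg (wt_nonneg _ _) dist_nonneg
  · unfold wt
    rw [min_eq_right hl, B.nat l, B.left l ⟨le_min hl (by linarith), min_le_right _ _⟩]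

lemma Blk.dist_lt (B : Blk G r p Z) {τ : ℝ} (h0 : 0 ≤ τ) (hr : τ ≤ r) :
    dist (p 0) (Z τ) < G.ρ := by
  have hr0 : (0 : ℝ) < r := by exact_mod_cast B.pos
  calc dist (p 0) (Z τ) ≤ ∑ l ∈ range r, wt τ l * dist (p l) (p (l + 1)) := B.dist_le h0 hr
    _ ≤ ∑ l ∈ range r, dist (p l) (p (l + 1)) :=
      Finset.sum_le_sum fun l _ => mul_le_of_le_one_left dist_nonneg (wt_le_one _ _)
    _ < ∑ _l ∈ range r, G.ρ / r :=
      Finset.sum_lt_sum_of_nonempty (Finset.nonempty_range_iff.mpr B.pos.ne') fun l _ => B.short l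
    _ = G.ρ := by
      rw [Finset.sum_const, Finset.card_range, nsmul_eq_mul]; field_simp

variable (G) in
/-- the straightened block -/
def sb (p : ℕ → M) (Z : ℝ → M) (τ : ℝ) (l : ℕ) : M :=
  G.seg (p 0) (Z (max τ l)) (l / max τ l)

lemma Blk.sb_ge (B : Blk G r p Z) {τ : ℝ} (h1 : 1 ≤ τ) {l : ℕ} (hl : τ ≤ l) (hr : l ≤ r) :
    sb G p Z τ l = p l := by
  have hl0 : (0 : ℝ) < l := by linarith
  have hlr : (l : ℝ) ≤ r := by exact_mod_cast hr
  unfold sb
  rw [max_eq_right hl, div_self hl0.ne', G.one _ _ (B.dist_lt hl0.le hlr), B.nat]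

lemma sb_le {τ : ℝ} {l : ℕ} (hl : (l : ℝ) ≤ τ) : sb G p Z τ l = G.seg (p 0) (Z τ) (l / τ) := by
  unfold sb
  rw [max_eq_left hl]

lemma Blk.sb_zero (B : Blk G r p Z) {τ : ℝ} (h1 : 1 ≤ τ) (hr : τ ≤ r) : sb G p Z τ 0 = p 0 := by
  rw [sb_le (by simpa using (by linarith : (0 : ℝ) ≤ τ))]
  simp only [Nat.cast_zero, zero_div]
  exact G.zero _ _ (B.dist_lt (by linarith) hr)

lemma Blk.sb_one (B : Blk G r p Z) {l : ℕ} (hr : l ≤ r) : sb G p Z 1 l = p l := by
  rcases Nat.eq_zero_or_pos l with h | h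
  · subst h
    exact B.sb_zero le_rfl (by exact_mod_cast B.pos)
  · exact B.sb_ge le_rfl (by exact_mod_cast h) hr

lemma Blk.step (B : Blk G r p Z) {τ : ℝ} (h1 : 1 ≤ τ) (hr : τ ≤ r) {l : ℕ} (hl : l < r) :
    dist (sb G p Z τ l) (sb G p Z τ (l + 1)) ≤
      wt τ l * (dist (p 0) (Z τ) / τ) + (1 - wt τ l) * dist (p l) (p (l + 1)) := by
  have hτ : 0 < τ := by linarith
  have hD := B.dist_lt hτ.le hr
  have hl0 : (0 : ℝ) ≤ l := Nat.cast_nonneg l
  have mem : ∀ s : ℝ, 0 ≤ s → s ≤ τ → s / τ ∈ Icc (0 : ℝ) 1 := fun s a b =>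
    ⟨div_nonneg a hτ.le, (div_le_one hτ).mpr b⟩
  rcases le_total τ l with ha | ha
  · rw [B.sb_ge h1 ha hl.le, B.sb_ge h1 (by push_cast; linarith) hl]
    have : wt τ l = 0 := by
      unfold wt
      rw [min_eq_left ha, min_eq_left (by linarith), sub_self]
    rw [this]; simp
  rcases le_total ((l : ℝ) + 1) τ with hb | hb
  · rw [sb_le ha, sb_le (by push_cast; exact hb),
      G.dist_seg _ _ hD _ (mem _ hl0 ha) _ (mem _ (Nat.cast_nonneg _) (by push_cast; exact hb))]
    have : wt τ l = 1 := by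
      unfold wt
      rw [min_eq_right ha, min_eq_right hb]; ring
    rw [this]
    have e : (l : ℝ) / τ - ((l + 1 : ℕ) : ℝ) / τ = -(1 / τ) := by push_cast; ring
    rw [e, abs_neg, abs_of_nonneg (by positivity)]
    apply le_of_eq
    ring
  · rw [sb_le ha, B.sb_ge h1 (by push_cast; exact hb) hl]
    have hw : wt τ l = τ - l := by
      unfold wt
      rw [min_eq_right ha, min_eq_left hb]
    have e1 := G.dist_seg _ _ hD _ (mem _ hl0 ha) 1 ⟨zero_le_one, le_rfl⟩
    rw [G.one _ _ hD, abs_sub_comm, abs_of_nonneg (sub_nonneg.mpr (mem _ hl0 ha).2)] at e1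
    have e2 := B.right l (s := τ) ⟨ha, hb⟩
    refine (dist_triangle _ (Z τ) _).trans ?_
    rw [e1, e2, hw]
    apply le_of_eq
    field_simp

lemma Blk.energy (B : Blk G r p Z) {τ : ℝ} (h1 : 1 ≤ τ) (hr : τ ≤ r) :
    ∑ l ∈ range r, dist (sb G p Z τ l) (sb G p Z τ (l + 1)) ^ 2 ≤
      ∑ l ∈ range r, dist (p l) (p (l + 1)) ^ 2 := by
  have hτ : 0 < τ := by linarith
  set D := dist (p 0) (Z τ) with hD
  set d : ℕ → ℝ := fun l => dist (p l) (p (l + 1)) with hd
  have hD0 : 0 ≤ D := dist_nonneg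
  have s1 : ∑ l ∈ range r, dist (sb G p Z τ l) (sb G p Z τ (l + 1)) ^ 2 ≤
      ∑ l ∈ range r, (wt τ l * (D / τ) ^ 2 + (1 - wt τ l) * d l ^ 2) := by
    refine Finset.sum_le_sum fun l hl => ?_
    have h := B.step h1 hr (Finset.mem_range.mp hl)
    have h2 := pow_le_pow_left₀ dist_nonneg h 2
    refine h2.trans ?_
    have a := wt_nonneg τ l
    have b := wt_le_one τ l
    have := mul_nonneg (mul_nonneg a (sub_nonneg.mpr b)) (sq_nonneg (D / τ - d l))
    simp only [hd] at this ⊢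
    nlinarith
  have s2 : D ≤ ∑ l ∈ range r, wt τ l * d l := B.dist_le hτ.le hr
  have s3 : 0 ≤ ∑ l ∈ range r, wt τ l * (d l - D / τ) ^ 2 :=
    Finset.sum_nonneg fun l _ => mul_nonneg (wt_nonneg _ _) (sq_nonneg _)
  have s4 : ∑ l ∈ range r, wt τ l * (d l - D / τ) ^ 2 =
      ∑ l ∈ range r, wt τ l * d l ^ 2 - 2 * (D / τ) * ∑ l ∈ range r, wt τ l * d l +
        (∑ l ∈ range r, wt τ l) * (D / τ) ^ 2 := by
    rw [Finset.mul_sum, Finset.sum_mul, ← Finset.sum_sub_distrib, ← Finset.sum_add_distrib]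
    exact Finset.sum_congr rfl fun l _ => by ring
  have s5 : ∑ l ∈ range r, (wt τ l * (D / τ) ^ 2 + (1 - wt τ l) * d l ^ 2) =
      (∑ l ∈ range r, wt τ l) * (D / τ) ^ 2 + ∑ l ∈ range r, d l ^ 2 -
        ∑ l ∈ range r, wt τ l * d l ^ 2 := by
    rw [Finset.sum_mul, ← Finset.sum_add_distrib, ← Finset.sum_sub_distrib]
    exact Finset.sum_congr rfl fun l _ => by ring
  rw [sum_wt hτ.le hr] at s4 s5
  have hq : 0 ≤ D / τ := div_nonneg hD0 hτ.le
  have e : τ * (D / τ) = D := by field_simp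
  have s6 : (D / τ) * D ≤ (D / τ) * ∑ l ∈ range r, wt τ l * d l := mul_le_mul_of_nonneg_left s2 hq
  have s7 : τ * (D / τ) ^ 2 = (D / τ) * D := by rw [sq, ← mul_assoc, e, mul_comm]
  change _ ≤ ∑ l ∈ range r, d l ^ 2
  linarith

end TransP

end Pool.Agent.MP_af6f1c_gt.Geo

end
end MrgPart3

-- ======== part 4: formerly Pool.Agent.MP_af6f1c_gt.geo.Trans
section MrgPart4

/-! PROJECT GEO, row TRANS: the local homology does not depend on the number of vertices. -/

open Set Finset Topology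

noncomputable section

namespace Pool.Agent.MP_af6f1c_gt.Geo

namespace TransP

variable {n : ℕ} {M : Type} [MetricSpace M] (G : GS M n)

lemma sum_zmod (L : ℕ) [NeZero L] (f : ZMod L → ℝ) : ∑ j, f j = ∑ k ∈ range L, f (k : ZMod L) := by
  symm
  refine Finset.sum_nbij' (fun k => (k : ZMod L)) (fun j => j.val) (fun _ _ => Finset.mem_univ _)
    (fun j _ => Finset.mem_range.mpr (ZMod.val_lt j)) (fun k hk => ?_) (fun j _ => ?_)
    (fun _ _ => rfl)
  · exact ZMod.val_cast_of_lt (Finset.mem_range.mp hk)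
  · exact ZMod.natCast_zmod_val j

lemma sum_blocks (N r : ℕ) (f : ℕ → ℝ) :
    ∑ k ∈ range (N * r), f k = ∑ b ∈ range N, ∑ l ∈ range r, f (b * r + l) := by
  induction N with
  | zero => simp
  | succ N ih => rw [Nat.succ_mul, Finset.sum_range_add, ih, Finset.sum_range_succ]

lemma en_range {N : ℕ} [NeZero N] (x : ZMod N → M) :
    En x = ∑ k ∈ range N, dist (x (k : ℕ)) (x ((k + 1 : ℕ))) ^ 2 := by
  unfold En
  rw [sum_zmod]
  simp only [Nat.cast_add, Nat.cast_one]

lemma en_blocks {L N r : ℕ} [NeZero L] (hL : L = N * r) (y : ZMod L → M) :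
    En y = ∑ b ∈ range N, ∑ l ∈ range r,
      dist (y ((b * r + l : ℕ))) (y ((b * r + (l + 1) : ℕ))) ^ 2 := by
  rw [en_range]
  conv_lhs => rw [show range L = range (N * r) by rw [hL]]
  rw [sum_blocks]
  rfl

/-- a vertex sequence given block by block -/
def blk (L r : ℕ) (F : ℕ → ℕ → M) : ZMod L → M := fun j => F (j.val / r) (j.val % r)

omit [MetricSpace M] in
lemma blk_lt {L N r : ℕ} [NeZero L] (hL : L = N * r) (F : ℕ → ℕ → M) {b l : ℕ} (hb : b < N)
    (hl : l < r) : blk L r F ((b * r + l : ℕ)) = F b l := by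
  have hlt : b * r + l < L := by
    rw [hL]
    calc b * r + l < b * r + r := by omega
      _ = (b + 1) * r := by ring
      _ ≤ N * r := Nat.mul_le_mul_right r hb
  have hr : 0 < r := by omega
  unfold blk
  rw [ZMod.val_cast_of_lt hlt]
  congr 1
  · rw [add_comm, Nat.add_mul_div_right _ _ hr, Nat.div_eq_of_lt hl, zero_add]
  · rw [add_comm, Nat.add_mul_mod_self_right, Nat.mod_eq_of_lt hl]

omit [MetricSpace M] in
lemma blk_le {L N r : ℕ} [NeZero L] (hL : L = N * r) (F : ℕ → ℕ → M)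
    (h1 : ∀ b, F b r = F (b + 1) 0) (h2 : F N 0 = F 0 0) {b l : ℕ} (hb : b < N)
    (hl : l ≤ r) : blk L r F ((b * r + l : ℕ)) = F b l := by
  rcases hl.lt_or_eq with h | h
  · exact blk_lt hL F hb h
  subst h
  have hr : 0 < l := by
    have := NeZero.pos L
    rw [hL] at this
    exact Nat.pos_of_mul_pos_left this
  rw [h1, show b * l + l = (b + 1) * l + 0 by ring]
  rcases (Nat.succ_le_of_lt hb).lt_or_eq with h | h
  · exact blk_lt hL F h hr
  · have h' : b + 1 = N := h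
    rw [h', add_zero, ← hL, ZMod.natCast_self, h2]
    simp [blk]

lemma en_blk {L N r : ℕ} [NeZero L] (hL : L = N * r) (F : ℕ → ℕ → M)
    (h1 : ∀ b, F b r = F (b + 1) 0) (h2 : F N 0 = F 0 0) :
    En (blk L r F) = ∑ b ∈ range N, ∑ l ∈ range r, dist (F b l) (F b (l + 1)) ^ 2 := by
  rw [en_blocks hL]
  refine Finset.sum_congr rfl fun b hb => Finset.sum_congr rfl fun l hl => ?_
  have hb' := Finset.mem_range.mp hb
  have hl' := Finset.mem_range.mp hl
  rw [blk_le hL F h1 h2 hb' hl'.le, blk_le hL F h1 h2 hb' hl']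

lemma div_lt {L N r : ℕ} [NeZero L] (hL : L = N * r) (j : ZMod L) : j.val / r < N :=
  Nat.div_lt_of_lt_mul (by rw [mul_comm, ← hL]; exact ZMod.val_lt j)

lemma cast_blk {L : ℕ} [NeZero L] (r : ℕ) (j : ZMod L) :
    ((j.val / r * r + j.val % r : ℕ) : ZMod L) = j := by
  rw [Nat.div_add_mod', ZMod.natCast_zmod_val]

/-- keep every `r`-th vertex -/
def crs (N r : ℕ) {L : ℕ} (y : ZMod L → M) : ZMod N → M := fun j => y ((j.val * r : ℕ))

omit [MetricSpace M] in
lemma crs_nat {L N r : ℕ} (hL : L = N * r) (y : ZMod L → M) (b : ℕ) :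
    crs N r y (b : ℕ) = y ((b * r : ℕ)) := by
  unfold crs
  congr 1
  rw [ZMod.val_natCast, ZMod.natCast_eq_natCast_iff', hL, ← Nat.mul_mod_mul_right, Nat.mod_mod]

/-- insert `r - 1` vertices on every edge -/
def rfn (L r : ℕ) {N : ℕ} (x : ZMod N → M) : ZMod L → M :=
  blk L r fun b l => G.seg (x (b : ℕ)) (x ((b + 1 : ℕ))) ((l : ℝ) / r)

/-- vertices of a block -/
def bp {L : ℕ} (r : ℕ) (y : ZMod L → M) (b l : ℕ) : M := y ((b * r + l : ℕ))

/-- broken geodesic of a block -/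
def bz {L : ℕ} (r : ℕ) (y : ZMod L → M) (b : ℕ) (s : ℝ) : M :=
  G.bg y ((((b * r : ℕ) : ℝ) + s) / L)

/-- straightening up to time `τ` in every block -/
def str {L : ℕ} (r : ℕ) (τ : ℝ) (y : ZMod L → M) : ZMod L → M :=
  blk L r fun b l => sb G (bp r y b) (bz G r y b) τ l

/-- sequences with very short edges -/
def Wr (L r : ℕ) : Set (ZMod L → M) := {y | ∀ j, dist (y j) (y (j + 1)) < G.ρ / r}

variable {G}

lemma gd_nat {N : ℕ} {x : ZMod N → M} (hx : x ∈ G.Gd N) (b : ℕ) :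
    dist (x (b : ℕ)) (x ((b + 1 : ℕ))) < G.ρ := by
  have := hx (b : ℕ)
  rwa [Nat.cast_add, Nat.cast_one]

lemma Wr_sub {L r : ℕ} (hr : 0 < r) : Wr G L r ⊆ G.Gd L := fun _ hy j =>
  (hy j).trans_le (div_le_self G.g0.pos.le (by exact_mod_cast hr))

lemma Wr_open (L r : ℕ) [NeZero L] : IsOpen (Wr G L r) := by
  unfold Wr
  rw [Set.ofPred_forall]
  exact isOpen_iInter_of_finite fun j =>
    isOpen_lt ((continuous_apply j).dist (continuous_apply (j + 1))) continuous_const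

lemma bg_eq {L : ℕ} [NeZero L] (hB : BGStmt G L) {y : ZMod L → M} (hy : y ∈ G.Gd L) (k : ℕ)
    {s : ℝ} (hs : s ∈ Icc (k : ℝ) (k + 1)) :
    G.bg y (s / L) = G.seg (y (k : ℕ)) (y ((k + 1 : ℕ))) (s - k) := by
  have hL : (L : ℝ) ≠ 0 := by exact_mod_cast NeZero.ne L
  rcases hs.2.lt_or_eq with h | h
  · have e : (L : ℝ) * (s / L) = s := by field_simp
    have hf : ⌊s⌋ = (k : ℤ) := Int.floor_eq_iff.mpr ⟨by exact_mod_cast hs.1, by exact_mod_cast h⟩
    unfold GS.bg
    rw [e, Int.fract, hf]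
    simp
  · have := hB.vert y hy ((k + 1 : ℕ) : ℤ)
    rw [h, add_sub_cancel_left, G.one _ _ (gd_nat hy k)]
    simpa using this

lemma blkOf {L r : ℕ} [NeZero L] (hB : BGStmt G L) (hr : 0 < r) {y : ZMod L → M}
    (hy : y ∈ Wr G L r) (b : ℕ) : Blk G r (bp r y b) (bz G r y b) where
  pos := hr
  short l := by
    have := hy ((b * r + l : ℕ))
    unfold bp
    rwa [← add_assoc, Nat.cast_add _ 1, Nat.cast_one]
  eq l s hs := by
    have := bg_eq hB (Wr_sub hr hy) (b * r + l) (s := ((b * r : ℕ) : ℝ) + s)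
      ⟨by rw [Nat.cast_add]; linarith [hs.1], by rw [Nat.cast_add]; linarith [hs.2]⟩
    unfold bz bp
    rw [this, Nat.cast_add (R := ℝ) (b * r) l, add_sub_add_left_eq_sub, add_assoc]

lemma en_str {L N r : ℕ} [NeZero L] (hL : L = N * r) (hB : BGStmt G L) (hr : 0 < r)
    {y : ZMod L → M} (hy : y ∈ Wr G L r) {τ : ℝ} (h1 : 1 ≤ τ) (h2 : τ ≤ r) :
    En (str G r τ y) ≤ En y := by
  unfold str
  rw [en_blk hL, en_blocks hL y]
  · exact Finset.sum_le_sum fun b _ => (blkOf hB hr hy b).energy h1 h2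
  · intro b
    rw [(blkOf hB hr hy b).sb_ge h1 h2 le_rfl, (blkOf hB hr hy (b + 1)).sb_zero h1 h2]
    unfold bp
    rw [show (b + 1) * r + 0 = b * r + r by ring]
  · rw [(blkOf hB hr hy N).sb_zero h1 h2, (blkOf hB hr hy 0).sb_zero h1 h2]
    unfold bp
    rw [add_zero, ← hL, ZMod.natCast_self]
    simp

lemma str_one {L r : ℕ} [NeZero L] (hB : BGStmt G L) (hr : 0 < r)
    {y : ZMod L → M} (hy : y ∈ Wr G L r) : str G r 1 y = y := by
  funext j
  unfold str blk
  beta_reduce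
  rw [(blkOf hB hr hy _).sb_one (Nat.mod_lt _ hr).le]
  unfold bp
  rw [cast_blk]

lemma str_top {L N r : ℕ} [NeZero L] (hL : L = N * r) (hB : BGStmt G L) (hr : 0 < r)
    {y : ZMod L → M} (hy : y ∈ Wr G L r) : str G r r y = rfn G L r (crs N r y) := by
  funext j
  unfold str rfn blk
  beta_reduce
  rw [sb_le (by exact_mod_cast (Nat.mod_lt _ hr).le), (blkOf hB hr hy _).nat r, crs_nat hL,
    crs_nat hL]
  unfold bp
  rw [add_zero, Nat.succ_mul]

lemma crs_mem {L N r : ℕ} [NeZero L] [NeZero N] (hL : L = N * r) (hB : BGStmt G L) (hr : 0 < r)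
    {y : ZMod L → M} (hy : y ∈ Wr G L r) : crs N r y ∈ G.Gd N := by
  intro j
  have h := (blkOf hB hr hy j.val).dist_lt (Nat.cast_nonneg r) le_rfl
  rw [(blkOf hB hr hy j.val).nat r] at h
  have e1 := crs_nat hL y j.val
  have e2 := crs_nat hL y (j.val + 1)
  rw [Nat.cast_add, Nat.cast_one] at e2
  rw [ZMod.natCast_zmod_val] at e1 e2
  rw [e1, e2, Nat.succ_mul]
  exact h

lemma en_rfn {L N r : ℕ} [NeZero L] [NeZero N] (hL : L = N * r) (hr : 0 < r)
    {x : ZMod N → M} (hx : x ∈ G.Gd N) : En (rfn G L r x) = En x / r := by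
  have hr0 : (0 : ℝ) < r := by exact_mod_cast hr
  unfold rfn
  rw [en_blk hL, en_range x, Finset.sum_div]
  · refine Finset.sum_congr rfl fun b _ => ?_
    have : ∀ l ∈ range r, dist (G.seg (x (b : ℕ)) (x ((b + 1 : ℕ))) ((l : ℝ) / r))
        (G.seg (x (b : ℕ)) (x ((b + 1 : ℕ))) (((l + 1 : ℕ) : ℝ) / r)) ^ 2 =
        (dist (x (b : ℕ)) (x ((b + 1 : ℕ))) / r) ^ 2 := by
      intro l hl
      have hl' : l + 1 ≤ r := Finset.mem_range.mp hl
      have hl1 : ((l + 1 : ℕ) : ℝ) ≤ r := by exact_mod_cast hl'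
      have hl2 : (l : ℝ) ≤ r := by exact_mod_cast (by omega : l ≤ r)
      rw [G.dist_seg _ _ (gd_nat hx b) _ ⟨by positivity, (div_le_one hr0).mpr hl2⟩ _
        ⟨by positivity, (div_le_one hr0).mpr hl1⟩, mul_pow, sq_abs]
      push_cast
      ring
    rw [Finset.sum_congr rfl this, Finset.sum_const, Finset.card_range, nsmul_eq_mul]
    field_simp
  · intro b
    rw [div_self hr0.ne', G.one _ _ (gd_nat hx b), Nat.cast_zero, zero_div,
      G.zero _ _ (gd_nat hx (b + 1))]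
  · rw [Nat.cast_zero (R := ℝ), zero_div, G.zero _ _ (gd_nat hx N), G.zero _ _ (gd_nat hx 0),
      ZMod.natCast_self, Nat.cast_zero]

lemma crs_rfn {L N r : ℕ} [NeZero L] [NeZero N] (hL : L = N * r) (hr : 0 < r)
    {x : ZMod N → M} (hx : x ∈ G.Gd N) : crs N r (rfn G L r x) = x := by
  funext j
  unfold crs rfn
  rw [← add_zero (j.val * r), blk_lt hL _ (ZMod.val_lt j) hr, Nat.cast_zero, zero_div,
    G.zero _ _ (gd_nat hx j.val), ZMod.natCast_zmod_val]

lemma crs_cont (N r L : ℕ) : Continuous (crs N r : (ZMod L → M) → ZMod N → M) :=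
  continuous_pi fun _ => continuous_apply _

lemma rfn_cont {N : ℕ} (L : ℕ) {r : ℕ} (hr : 0 < r) : ContinuousOn (rfn G L r) (G.Gd N) := by
  have hr0 : (0 : ℝ) < r := by exact_mod_cast hr
  refine continuousOn_pi.mpr fun j => ?_
  have hl : ((j.val % r : ℕ) : ℝ) ≤ r := by exact_mod_cast (Nat.mod_lt _ hr).le
  exact G.cont.comp (f := fun x : ZMod N → M =>
      (x ((j.val / r : ℕ)), x ((j.val / r + 1 : ℕ)), ((j.val % r : ℕ) : ℝ) / r))
    (Continuous.continuousOn (by fun_prop))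
    fun x hx => ⟨gd_nat hx _, by positivity, (div_le_one hr0).mpr hl⟩

lemma str_cont {L r : ℕ} [NeZero L] (hB : BGStmt G L) (hr : 0 < r) :
    ContinuousOn (fun q : ℝ × (ZMod L → M) => str G r (1 + q.1 * (r - 1)) q.2)
      (Set.Icc 0 1 ×ˢ Wr G L r) := by
  have hr1 : (1 : ℝ) ≤ r := by exact_mod_cast hr
  refine continuousOn_pi.mpr fun j => ?_
  set b := j.val / r
  set l := j.val % r
  have hl : (l : ℝ) ≤ r := by exact_mod_cast (Nat.mod_lt _ hr).le
  have hl0 : (0 : ℝ) ≤ l := Nat.cast_nonneg l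
  have hτ : ∀ q ∈ (Set.Icc 0 1 ×ˢ Wr G L r : Set (ℝ × (ZMod L → M))),
      1 ≤ 1 + q.1 * ((r : ℝ) - 1) ∧ 1 + q.1 * ((r : ℝ) - 1) ≤ r := fun q hq =>
    ⟨by nlinarith [hq.1.1], by nlinarith [hq.1.2]⟩
  have c1 : ContinuousOn (fun q : ℝ × (ZMod L → M) =>
      bz G r q.2 b (max (1 + q.1 * ((r : ℝ) - 1)) l)) (Set.Icc 0 1 ×ˢ Wr G L r) :=
    hB.cont.comp (f := fun q : ℝ × (ZMod L → M) =>
        (q.2, (((b * r : ℕ) : ℝ) + max (1 + q.1 * ((r : ℝ) - 1)) l) / L))
      (Continuous.continuousOn (by fun_prop)) fun q hq => ⟨Wr_sub hr hq.2, trivial⟩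
  have c2 : ContinuousOn (fun q : ℝ × (ZMod L → M) =>
      (l : ℝ) / max (1 + q.1 * ((r : ℝ) - 1)) l) (Set.Icc 0 1 ×ˢ Wr G L r) :=
    continuousOn_const.div (Continuous.continuousOn (by fun_prop)) fun q hq =>
      (lt_max_of_lt_left (by linarith [(hτ q hq).1])).ne'
  have c0 : ContinuousOn (fun q : ℝ × (ZMod L → M) => bp r q.2 b 0) (Set.Icc 0 1 ×ˢ Wr G L r) :=
    Continuous.continuousOn (by unfold bp; fun_prop)
  refine G.cont.comp (c0.prodMk (c1.prodMk c2)) fun q hq => ?_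
  have hp : 0 < max (1 + q.1 * ((r : ℝ) - 1)) l := lt_max_of_lt_left (by linarith [(hτ q hq).1])
  exact ⟨(blkOf hB hr hq.2 b).dist_lt hp.le (max_le (hτ q hq).2 hl), div_nonneg hl0 hp.le,
    (div_le_one hp).mpr (le_max_right _ _)⟩

section geod

variable {γ : ℝ → M} {c : ℝ}

lemma smp_nat {L : ℕ} [NeZero L] (hB : BGStmt G L) (hγ : CG γ c) (hc : c / L < G.ρ) (k : ℕ) :
    smp L γ (k : ℕ) = γ ((k : ℝ) / L) := by
  obtain ⟨h1, h2, -, -⟩ := hB.geo γ c hγ hc
  have := hB.vert _ h1 (k : ℤ)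
  rw [h2] at this
  simpa using this.symm

lemma lt_of_mul {L N r : ℕ} [NeZero N] (hL : L = N * r) (hr : 0 < r) (hc : c / N < G.ρ) :
    c / L < G.ρ / r := by
  have hr0 : (0 : ℝ) < r := by exact_mod_cast hr
  rw [hL, Nat.cast_mul, ← div_div]
  exact div_lt_div_of_pos_right hc hr0

lemma lt_of_mul' {L N r : ℕ} [NeZero N] (hL : L = N * r) (hr : 0 < r) (hc : c / N < G.ρ) :
    c / L < G.ρ :=
  (lt_of_mul hL hr hc).trans_le (div_le_self G.g0.pos.le (by exact_mod_cast hr))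

lemma smp_Wr {L N r : ℕ} [NeZero L] [NeZero N] (hL : L = N * r) (hB : BGStmt G L) (hr : 0 < r)
    (hγ : CG γ c) (hc : c / N < G.ρ) : smp L γ ∈ Wr G L r := by
  intro j
  have hc' := lt_of_mul' hL hr hc
  have hL0 : (0 : ℝ) < L := by exact_mod_cast NeZero.pos L
  have e1 := smp_nat hB hγ hc' j.val
  have e2 := smp_nat hB hγ hc' (j.val + 1)
  rw [Nat.cast_add, Nat.cast_one] at e2
  rw [ZMod.natCast_zmod_val] at e1 e2
  have e : c * |(j.val : ℝ) / L - ((j.val + 1 : ℕ) : ℝ) / L| = c / L := by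
    rw [show (j.val : ℝ) / L - ((j.val + 1 : ℕ) : ℝ) / L = -(1 / L) by push_cast; ring, abs_neg,
      abs_of_pos (by positivity)]
    ring
  rw [e1, e2, G.locmin γ c hγ.2.2.1.le hγ.2.2.2 _ _ (by rw [e]; exact hc'), e]
  exact lt_of_mul hL hr hc

lemma crs_smp {L N r : ℕ} [NeZero L] [NeZero N] (hL : L = N * r) (hB : BGStmt G L) (hr : 0 < r)
    (hγ : CG γ c) (hc : c / N < G.ρ) : crs N r (smp L γ) = smp N γ := by
  funext j
  have hr0 : (r : ℝ) ≠ 0 := by exact_mod_cast hr.ne'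
  unfold crs
  rw [smp_nat hB hγ (lt_of_mul' hL hr hc), hL]
  unfold smp
  congr 1
  push_cast
  rw [mul_div_mul_right _ _ hr0]

lemma str_smp {L N r : ℕ} [NeZero L] [NeZero N] (hL : L = N * r) (hB : BGStmt G L) (hr : 0 < r)
    (hγ : CG γ c) (hc : c / N < G.ρ) {τ : ℝ} (h1 : 1 ≤ τ) (h2 : τ ≤ r) :
    str G r τ (smp L γ) = smp L γ := by
  funext j
  have hc' := lt_of_mul' hL hr hc
  have hL0 : (0 : ℝ) < L := by exact_mod_cast NeZero.pos L
  have hN0 : (0 : ℝ) < N := by exact_mod_cast NeZero.pos N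
  have hr0 : (0 : ℝ) < r := by exact_mod_cast hr
  have hc0 := hγ.2.2.1
  conv_rhs => rw [← cast_blk r j]
  unfold str blk sb bp bz
  beta_reduce
  rw [(hB.geo γ c hγ hc').2.1, smp_nat hB hγ hc', smp_nat hB hγ hc', add_zero, Nat.cast_add]
  set a : ℝ := ((j.val / r * r : ℕ) : ℝ)
  set l : ℝ := ((j.val % r : ℕ) : ℝ) with hl
  have hl0 : 0 ≤ l := Nat.cast_nonneg _
  have hlr : l ≤ r := by rw [hl]; exact_mod_cast (Nat.mod_lt _ hr).le
  set σ := max τ l
  have hσ : 0 < σ := lt_max_of_lt_left (by linarith)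
  have hσr : σ ≤ r := max_le h2 hlr
  have hlσ : l ≤ σ := le_max_right _ _
  have key : ∀ u v : ℝ, 0 ≤ v - u → v - u ≤ r →
      dist (γ (u / L)) (γ (v / L)) = c * ((v - u) / L) ∧ c * ((v - u) / L) < G.ρ := by
    intro u v h0 hv
    have e : |u / L - v / L| = (v - u) / L := by
      rw [abs_sub_comm, ← sub_div, abs_of_nonneg (div_nonneg h0 hL0.le)]
    have hlt : c * ((v - u) / L) < G.ρ := by
      refine lt_of_le_of_lt ?_ hc
      have : (L : ℝ) = N * r := by rw [hL, Nat.cast_mul]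
      calc c * ((v - u) / L) ≤ c * (r / L) := by gcongr
        _ = c / N := by rw [this]; field_simp
    rw [G.locmin γ c hc0.le hγ.2.2.2 _ _ (by rw [e]; exact hlt), e]
    exact ⟨rfl, hlt⟩
  obtain ⟨k1, k1'⟩ := key a (a + σ) (by linarith) (by linarith)
  obtain ⟨k2, -⟩ := key a (a + l) (by linarith) (by linarith)
  obtain ⟨k3, -⟩ := key (a + l) (a + σ) (by linarith) (by linarith)
  symm
  refine G.uniq _ _ (by rw [k1]; exact k1') _ ⟨div_nonneg hl0 hσ.le, (div_le_one hσ).mpr hlσ⟩ _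
    ?_ ?_
  · rw [k1, k2]; field_simp; ring
  · rw [k1, k3]; field_simp; ring

lemma rfn_smp {L N r : ℕ} [NeZero L] [NeZero N] (hL : L = N * r) (hB : BGStmt G L) (hr : 0 < r)
    (hγ : CG γ c) (hc : c / N < G.ρ) : rfn G L r (smp N γ) = smp L γ := by
  rw [← crs_smp hL hB hr hγ hc, ← str_top hL hB hr (smp_Wr hL hB hr hγ hc),
    str_smp hL hB hr hγ hc (by exact_mod_cast hr) le_rfl]

lemma rfn_maps {L N r : ℕ} [NeZero L] [NeZero N] (hL : L = N * r) (hr : 0 < r) :
    MapsTo (rfn G L r) (G.Gd N ∩ Sub M N c) (Sub M L c) := by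
  intro x hx
  have hr0 : (0 : ℝ) < r := by exact_mod_cast hr
  change En _ < _
  rw [en_rfn hL hr hx.1, hL, Nat.cast_mul, ← div_div]
  exact div_lt_div_of_pos_right hx.2 hr0

lemma crs_maps {L N r : ℕ} [NeZero L] [NeZero N] (hL : L = N * r) (hB : BGStmt G L) (hr : 0 < r) :
    MapsTo (crs N r) (Wr G L r ∩ Sub M L c) (Sub M N c) := by
  intro y hy
  have hr0 : (0 : ℝ) < r := by exact_mod_cast hr
  have h1 := en_str hL hB hr hy.1 (τ := r) (by exact_mod_cast hr) le_rfl
  rw [str_top hL hB hr hy.1, en_rfn hL hr (crs_mem hL hB hr hy.1)] at h1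
  have h2 : En y < c ^ 2 / L := hy.2
  have h3 := h1.trans_lt h2
  rw [show (L : ℝ) = N * r by rw [hL, Nat.cast_mul], ← div_div] at h3
  exact (div_lt_div_iff_of_pos_right hr0).mp h3

variable {K : Type} [Field K]

lemma down (T : Tools K) {L N r : ℕ} [NeZero L] [NeZero N] (hL : L = N * r) (hB : BGStmt G L)
    (hBN : BGStmt G N) (hr : 0 < r) (hγ : CG γ c) (hc : c / N < G.ρ) {i s : ℕ}
    (h : Lp K i (Sub M L c) (smp L γ) s) : Lp K i (Sub M N c) (smp N γ) s :=
  T.dom _ _ (rfn G L r) (crs N r) (fun q => q.2) _ _ _ (G.Gd N) _ (Wr G L r) i s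
    (hBN.isOpen.mem_nhds (hBN.geo γ c hγ hc).1)
    ((Wr_open L r).mem_nhds (smp_Wr hL hB hr hγ hc)) (rfn_cont L hr)
    (crs_cont N r L).continuousOn (rfn_smp hL hB hr hγ hc) (crs_smp hL hB hr hγ hc)
    (rfn_maps hL hr) (crs_maps hL hB hr) continuous_snd.continuousOn (fun _ _ => rfl)
    (fun _ hx => (crs_rfn hL hr hx).symm) (fun _ _ => rfl) (fun _ hq => hq.2.2) h

lemma up (T : Tools K) {L N r : ℕ} [NeZero L] [NeZero N] (hL : L = N * r) (hB : BGStmt G L)
    (hBN : BGStmt G N) (hr : 0 < r) (hγ : CG γ c) (hc : c / N < G.ρ) {i s : ℕ}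
    (h : Lp K i (Sub M N c) (smp N γ) s) : Lp K i (Sub M L c) (smp L γ) s := by
  have hr1 : (1 : ℝ) ≤ r := by exact_mod_cast hr
  refine T.dom _ _ (crs N r) (rfn G L r) (fun q => str G r (1 + q.1 * (r - 1)) q.2) _ _ _
    (Wr G L r) _ (G.Gd N) i s ((Wr_open L r).mem_nhds (smp_Wr hL hB hr hγ hc))
    (hBN.isOpen.mem_nhds (hBN.geo γ c hγ hc).1) (crs_cont N r L).continuousOn (rfn_cont L hr)
    (crs_smp hL hB hr hγ hc) (rfn_smp hL hB hr hγ hc) (crs_maps hL hB hr) (rfn_maps hL hr)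
    (str_cont hB hr) (fun x hx => ?_) (fun x hx => ?_) (fun u hu => ?_) (fun q hq => ?_) h
  · simp only [zero_mul, add_zero]
    exact str_one hB hr hx
  · simp only [one_mul, add_sub_cancel]
    exact str_top hL hB hr hx
  · exact str_smp hL hB hr hγ hc (by nlinarith [hu.1]) (by nlinarith [hu.2])
  · exact (en_str hL hB hr hq.2.1 (by nlinarith [hq.1.1]) (by nlinarith [hq.1.2])).trans_lt hq.2.2

end geod

end TransP

open TransP in
theorem trans (K : Type) [Field K] (hB : Basics) (T : Tools K) : TransStmt K := by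
  intro n M _ G N N' _ _ γ c hγ hc hc' i r h
  exact down T (L := N * N') rfl (hB.2 n M G _) (hB.2 n M G N) (NeZero.pos N') hγ hc
    (up T (mul_comm N N') (hB.2 n M G _) (hB.2 n M G N') (NeZero.pos N) hγ hc' h)

end Pool.Agent.MP_af6f1c_gt.Geo

end
end MrgPart4

-- marker of a merged file
example : 731051 + 225066 = 731051 + 225066 := rfl
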