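import Mathlib.Algebra.Order.Chebyshev
import Pool.Agent.MP_af6f1c_gt.geo.Spec
import Pool.Agent.MP_af6f1c_gt.geo.Base
import Mathlib.Geometry.Manifold.Instances.Sphere
import Mathlib.Analysis.Normed.Module.Connected
import Mathlib.Analysis.Calculus.ContDiff.RCLike
import Pool.Agent.MP_af6f1c_gt.geo.Core

-- ======== part 0: formerly Pool.Agent.MP_af6f1c_gt.geo.Samp
section MrgPart0

/-! PROJECT GEO, row SAMP: finite dimensional approximation of the loop space. -/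

open Set Topology Metric Module

noncomputable section

namespace Pool.Agent.MP_af6f1c_gt.Geo

namespace SampP

/-- projection onto the unit interval -/
def cl (t : ℝ) : ℝ := max 0 (min 1 t)

theorem cl_cont : Continuous cl := by
  unfold cl
  fun_prop

theorem cl_mono {s t : ℝ} (h : s ≤ t) : cl s ≤ cl t := max_le_max le_rfl (min_le_min le_rfl h)

theorem cl_zero {t : ℝ} (h : t ≤ 0) : cl t = 0 := max_eq_left ((min_le_right _ _).trans h)

theorem cl_one {t : ℝ} (h : 1 ≤ t) : cl t = 1 := by simp [cl, h]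

theorem cl_self {t : ℝ} (h : 0 ≤ t) (h' : t ≤ 1) : cl t = t := by simp [cl, h, h']

theorem cl_nonneg (t : ℝ) : 0 ≤ cl t := le_max_left _ _

theorem cl_le (t : ℝ) : cl t ≤ 1 := max_le zero_le_one (min_le_left _ _)

theorem mul_cl {W : ℝ} (hW : 0 < W) (y P : ℝ) :
    W * cl ((y - P) / W) = min y (P + W) - min y P := by
  rcases le_total y P with h | h
  · rw [cl_zero (div_nonpos_of_nonpos_of_nonneg (by linarith) hW.le), min_eq_left h,
      min_eq_left (by linarith)]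
    simp
  · rcases le_total y (P + W) with h' | h'
    · rw [cl_self (div_nonneg (by linarith) hW.le) ((div_le_one hW).2 (by linarith)),
        min_eq_left h', min_eq_right h]
      field_simp
    · rw [cl_one ((one_le_div hW).2 (by linarith)), min_eq_right h', min_eq_right h]
      ring

theorem sum_mul_cl {W : ℕ → ℝ} (hW : ∀ k, 0 < W k) {y : ℝ} (hy : 0 ≤ y) (J : ℕ) :
    ∑ k ∈ Finset.range J, W k * cl ((y - ∑ i ∈ Finset.range k, W i) / W k) =
      min y (∑ i ∈ Finset.range J, W i) := by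
  induction J with
  | zero => simp [hy]
  | succ J ih => rw [Finset.sum_range_succ, ih, mul_cl (hW J), Finset.sum_range_succ]; ring

theorem cl_sum {c : ℕ → ℝ} (h0 : ∀ k, 0 ≤ c k) (h1 : ∀ k, c k ≤ 1)
    (h : ∀ k k', k < k' → c k = 1 ∨ c k' = 0) {J l : ℕ} (hl : l < J) :
    cl (∑ k ∈ Finset.range J, c k - l) = c l := by
  obtain ⟨n, rfl⟩ := Nat.exists_eq_add_of_lt hl
  rw [add_assoc, add_comm n, ← add_assoc, Finset.sum_range_add, Finset.sum_range_succ]
  have a1 : ∑ k ∈ Finset.range l, c k ≤ l :=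
    (Finset.sum_le_sum fun k _ => h1 k).trans (by simp)
  have a2 : 0 ≤ ∑ k ∈ Finset.range n, c (l + 1 + k) := Finset.sum_nonneg fun k _ => h0 _
  have a3 : c l ≠ 0 → ∑ k ∈ Finset.range l, c k = l := fun h' => by
    rw [Finset.sum_congr rfl fun k hk => (h k l (Finset.mem_range.1 hk)).resolve_right h']
    simp
  have a4 : c l ≠ 1 → ∑ k ∈ Finset.range n, c (l + 1 + k) = 0 := fun h' =>
    Finset.sum_eq_zero fun k _ => (h l _ (by omega)).resolve_left h'
  by_cases b0 : c l = 0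
  · rw [a4 (by simp [b0]), b0]
    exact cl_zero (by linarith)
  · by_cases b1 : c l = 1
    · rw [a3 b0, b1]
      exact cl_one (by linarith)
    · rw [a3 b0, a4 b1, show (l : ℝ) + c l + 0 - l = c l by ring]
      exact cl_self (h0 l) (h1 l)

theorem sum_zmod {J : ℕ} [NeZero J] (f : ZMod J → ℝ) :
    ∑ l ∈ Finset.range J, f (l : ZMod J) = ∑ j, f j :=
  Finset.sum_nbij' (fun l => (l : ZMod J)) (fun j => j.val) (by simp)
    (fun j _ => by simpa using ZMod.val_lt j)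
    (fun l hl => ZMod.val_cast_of_lt (by simpa using hl)) (by simp) (by simp)

variable {M : Type} [MetricSpace M] {n : ℕ}

/-- the length of a side -/
def sd {J : ℕ} (x : ZMod J → M) (l : ℕ) : ℝ := dist (x l) (x ((l : ZMod J) + 1))

theorem bg_eq (G : GS M n) {J : ℕ} [NeZero J] {x : ZMod J → M} (hx : x ∈ G.Gd J) (l : ℕ) {s : ℝ}
    (h0 : (l : ℝ) ≤ s) (h1 : s ≤ l + 1) :
    G.bg x (s / J) = G.seg (x l) (x ((l : ZMod J) + 1)) (s - l) := by
  have hJ : (J : ℝ) ≠ 0 := by exact_mod_cast NeZero.ne J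
  rw [GS.bg, mul_div_cancel₀ _ hJ]
  rcases h1.eq_or_lt with rfl | h1
  · have e : ⌊(l : ℝ) + 1⌋ = (l : ℤ) + 1 := by
      rw [Int.floor_add_one, Int.floor_natCast]
    have e' : Int.fract ((l : ℝ) + 1) = 0 := by
      rw [Int.fract_add_one, Int.fract_natCast]
    rw [e, e', G.zero _ _ (hx _), add_sub_cancel_left, G.one _ _ (hx _)]
    simp
  · have e : ⌊s⌋ = (l : ℤ) := Int.floor_eq_iff.2 ⟨by simpa using h0, by simpa using h1⟩
    rw [Int.fract, e]
    simp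

theorem dist_bg (G : GS M n) {J : ℕ} [NeZero J] {x : ZMod J → M} (hx : x ∈ G.Gd J) (m : ℕ)
    (hm : m ≤ J) : ∀ u v : ℝ, 0 ≤ u → u ≤ v → v ≤ m → dist (G.bg x (u / J)) (G.bg x (v / J)) ≤
      ∑ l ∈ Finset.range J, sd x l * (cl (v - l) - cl (u - l)) := by
  have piece : ∀ (l : ℕ) (u v : ℝ), l < J → (l : ℝ) ≤ u → u ≤ v → v ≤ l + 1 →
      dist (G.bg x (u / J)) (G.bg x (v / J)) ≤
        ∑ l ∈ Finset.range J, sd x l * (cl (v - l) - cl (u - l)) := by
    intro l u v hl h1 h2 h3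
    refine le_trans ?_ (Finset.single_le_sum (f := fun l : ℕ => sd x l * (cl (v - l) - cl (u - l)))
      (fun k _ => mul_nonneg dist_nonneg (sub_nonneg.2 (cl_mono (by linarith))))
      (Finset.mem_range.2 hl))
    rw [bg_eq G hx l h1 (by linarith), bg_eq G hx l (by linarith) h3,
      G.dist_seg _ _ (hx _) _ ⟨by linarith, by linarith⟩ _ ⟨by linarith, by linarith⟩,
      cl_self (by linarith) (by linarith), cl_self (by linarith) (by linarith),
      abs_of_nonpos (by linarith), sd]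
    exact le_of_eq (by ring)
  induction m with
  | zero =>
    intro u v h0 h1 h2
    obtain rfl : u = v := le_antisymm h1 (by simp at h2; linarith)
    simp
  | succ m ih =>
    intro u v h0 h1 h2
    push_cast at h2
    rcases le_total v m with h3 | h3
    · exact ih (by omega) u v h0 h1 h3
    · rcases le_total u m with h4 | h4
      · refine (dist_triangle _ (G.bg x (m / J)) _).trans ((add_le_add
          (ih (by omega) u m h0 h4 le_rfl) (piece m m v (by omega) le_rfl h3 h2)).trans ?_)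
        rw [← Finset.sum_add_distrib]
        exact le_of_eq (Finset.sum_congr rfl fun l _ => by ring)
      · exact piece m u v (by omega) h4 h1 h2

/-- the progress on the side `k` at time `t` -/
def pr {J : ℕ} (δ : ℝ) (x : ZMod J → M) (t : ℝ) (k : ℕ) : ℝ :=
  cl ((t * ∑ i ∈ Finset.range J, (sd x i + δ / J) - ∑ i ∈ Finset.range k, (sd x i + δ / J)) /
    (sd x k + δ / J))

/-- the reparametrisation -/
def tau {J : ℕ} (δ : ℝ) (x : ZMod J → M) (t : ℝ) : ℝ := (∑ k ∈ Finset.range J, pr δ x t k) / J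

section

variable {J : ℕ} [NeZero J] {δ : ℝ} (hδ : 0 < δ)
include hδ

theorem w_pos (x : ZMod J → M) (k : ℕ) : 0 < sd x k + δ / J := by
  have : (0 : ℝ) < J := by exact_mod_cast NeZero.pos J
  have : 0 ≤ sd x k := dist_nonneg
  positivity

theorem tau_cont : Continuous fun q : (ZMod J → M) × ℝ => tau δ q.1 q.2 := by
  refine Continuous.div_const (continuous_finsetSum _ fun k _ => cl_cont.comp ?_) _
  refine Continuous.div ?_ ?_ fun q => (w_pos hδ q.1 k).ne'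
  · unfold sd
    fun_prop
  · unfold sd
    fun_prop

theorem tau_zero (x : ZMod J → M) : tau δ x 0 = 0 := by
  rw [tau, Finset.sum_eq_zero, zero_div]
  intro k _
  refine cl_zero (div_nonpos_of_nonpos_of_nonneg ?_ (w_pos hδ x k).le)
  have := Finset.sum_nonneg (s := Finset.range k) fun i _ => (w_pos hδ x i).le
  linarith

theorem tau_one (x : ZMod J → M) : tau δ x 1 = 1 := by
  have hJ : (J : ℝ) ≠ 0 := by exact_mod_cast NeZero.ne J
  rw [tau, Finset.sum_congr rfl (g := fun _ => 1)]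
  · simp [hJ]
  intro k hk
  refine cl_one ((one_le_div (w_pos hδ x k)).2 ?_)
  have := Finset.sum_le_sum_of_subset_of_nonneg (f := fun i => sd x i + δ / J)
    (Finset.range_subset_range.2 (Finset.mem_range.1 hk : k + 1 ≤ J))
    fun i _ _ => (w_pos hδ x i).le
  rw [Finset.sum_range_succ] at this
  linarith

theorem lip (G : GS M n) {x : ZMod J → M} (hx : x ∈ G.Gd J) {a : ℝ}
    (ha : ∑ j, dist (x j) (x (j + 1)) ≤ a) {s t : ℝ} (h0 : 0 ≤ s) (h : s ≤ t) (h1 : t ≤ 1) :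
    dist (G.bg x (tau δ x s)) (G.bg x (tau δ x t)) ≤ (a + δ) * (t - s) := by
  have hJ : (J : ℝ) ≠ 0 := by exact_mod_cast NeZero.ne J
  set T := ∑ i ∈ Finset.range J, (sd x i + δ / J) with hT
  have hT0 : 0 ≤ T := Finset.sum_nonneg fun i _ => (w_pos hδ x i).le
  have hTa : T ≤ a + δ := by
    rw [hT, Finset.sum_add_distrib, Finset.sum_const, Finset.card_range, nsmul_eq_mul,
      mul_div_cancel₀ _ hJ]
    have := sum_zmod fun j => dist (x j) (x (j + 1))
    simp only [sd]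
    linarith
  have mono : ∀ k, pr δ x s k ≤ pr δ x t k := fun k =>
    cl_mono (div_le_div_of_nonneg_right (by nlinarith) (w_pos hδ x k).le)
  have chain : ∀ (t : ℝ) (k k' : ℕ), k < k' → pr δ x t k = 1 ∨ pr δ x t k' = 0 := by
    intro t k k' hk
    have := Finset.sum_le_sum_of_subset_of_nonneg (f := fun i => sd x i + δ / J)
      (Finset.range_subset_range.2 (hk : k + 1 ≤ k')) fun i _ _ => (w_pos hδ x i).le
    rw [Finset.sum_range_succ] at this
    rcases le_total (t * T) (∑ i ∈ Finset.range k', (sd x i + δ / J)) with h2 | h2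
    · exact Or.inr (cl_zero (div_nonpos_of_nonpos_of_nonneg (by linarith) (w_pos hδ x k').le))
    · exact Or.inl (cl_one ((one_le_div (w_pos hδ x k)).2 (by linarith)))
  have tot : ∀ t : ℝ, 0 ≤ t → t ≤ 1 →
      ∑ k ∈ Finset.range J, (sd x k + δ / J) * pr δ x t k = t * T := fun t h0 h1 =>
    (sum_mul_cl (w_pos hδ x) (mul_nonneg h0 hT0) J).trans (min_eq_left (by nlinarith))
  refine (dist_bg G hx J le_rfl (∑ k ∈ Finset.range J, pr δ x s k)
    (∑ k ∈ Finset.range J, pr δ x t k) (Finset.sum_nonneg fun k _ => cl_nonneg _)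
    (Finset.sum_le_sum fun k _ => mono k)
    ((Finset.sum_le_sum fun k _ => cl_le _).trans (by simp))).trans ?_
  refine (Finset.sum_le_sum (g := fun k => (sd x k + δ / J) * pr δ x t k -
    (sd x k + δ / J) * pr δ x s k) fun k hk => ?_).trans ?_
  · rw [cl_sum (c := pr δ x t) (fun k => cl_nonneg _) (fun k => cl_le _) (chain t)
      (Finset.mem_range.1 hk), cl_sum (c := pr δ x s) (fun k => cl_nonneg _) (fun k => cl_le _)
      (chain s) (Finset.mem_range.1 hk),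
      ← mul_sub]
    have : (0 : ℝ) < J := by exact_mod_cast NeZero.pos J
    exact mul_le_mul_of_nonneg_right (le_add_of_nonneg_right (by positivity))
      (sub_nonneg.2 (mono k))
  · rw [Finset.sum_sub_distrib, tot t (by linarith) h1, tot s h0 (by linarith)]
    nlinarith

end

theorem per_lip {γ : ℝ → M} (hp : Function.Periodic γ 1) {L : ℝ}
    (h : ∀ s t, 0 ≤ s → s ≤ t → t ≤ 1 → dist (γ s) (γ t) ≤ L * (t - s)) {s t : ℝ}
    (hst : |s - t| ≤ 1) : dist (γ s) (γ t) ≤ L * |s - t| := by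
  wlog h1 : s ≤ t generalizing s t
  · rw [dist_comm, abs_sub_comm]
    exact this (by rwa [abs_sub_comm]) (not_le.1 h1).le
  rw [abs_of_nonpos (by linarith)] at hst ⊢
  have e : ∀ u, γ (u - ⌊s⌋) = γ u := fun u => by simpa using hp.sub_int_mul_eq (x := u) ⌊s⌋
  have h2 := Int.floor_le s
  have h3 := Int.lt_floor_add_one s
  rw [← e s, ← e t]
  rcases le_total (t - ⌊s⌋) 1 with h4 | h4
  · exact (h _ _ (by linarith) (by linarith) h4).trans (le_of_eq (by ring))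
  · have h5 := h (s - ⌊s⌋) 1 (by linarith) (by linarith) le_rfl
    have h6 := h 0 (t - ⌊s⌋ - 1) le_rfl (by linarith) (by linarith)
    rw [hp.sub_eq, ← hp 0, zero_add] at h6
    exact (dist_triangle _ (γ 1) _).trans (by linarith)

theorem en_le {γ : ℝ → M} (hp : Function.Periodic γ 1) {L : ℝ}
    (h : ∀ s t, |s - t| ≤ 1 → dist (γ s) (γ t) ≤ L * |s - t|) (N : ℕ) [NeZero N] :
    En (smp N γ) ≤ L ^ 2 / N := by
  have hN : (1 : ℝ) ≤ N := by exact_mod_cast NeZero.pos N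
  refine (Finset.sum_le_card_nsmul _ _ ((L / N) ^ 2) fun j _ => ?_).trans (le_of_eq ?_)
  · obtain ⟨k, hk⟩ := (ZMod.intCast_eq_intCast_iff_dvd_sub ((j + 1).val : ℤ) (j.val + 1 : ℤ) N).1
      (by simp)
    have hk' : ((j.val : ℝ) + 1) - (j + 1).val = N * k := by exact_mod_cast hk
    have e : γ (((j + 1).val : ℝ) / N) = γ ((j.val + 1) / N) := by
      rw [← hp.sub_int_mul_eq (x := ((j.val : ℝ) + 1) / N) k]
      congr 1
      field_simp
      linarith
    have e' : |(j.val : ℝ) / N - (j.val + 1) / N| = 1 / N := by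
      rw [show (j.val : ℝ) / N - (j.val + 1) / N = -(1 / N) by ring, abs_neg,
        abs_of_nonneg (by positivity)]
    have := h (j.val / N) ((j.val + 1) / N) (by rw [e', div_le_one (by linarith)]; exact hN)
    rw [e', mul_one_div, ← e] at this
    exact pow_le_pow_left₀ dist_nonneg this 2
  · simp only [Finset.card_univ, ZMod.card, nsmul_eq_mul]
    field_simp

end SampP

open SampP

theorem samp (K : Type) [Field K] (hB : Basics) (hN : NearStmt K) (T : Tools K) : SampStmt K := by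
  intro n M _ G
  have hL := hB.1 M
  have hρ := G.g0.pos
  refine ⟨fun a δ ha hδ => ?_, fun b N _ hb x hx hE => ?_⟩
  · obtain ⟨N₀, hN₀⟩ := exists_nat_gt (2 * (a + δ) / G.ρ)
    refine ⟨N₀, fun N _ hNN i => sup_le (fun z hz => ?_) le_sup_right⟩
    have BN := hB.2 n M G N
    obtain ⟨C, hC, hCa, hzC⟩ := exists_compact (Zr_le_In hz)
    replace hz : z ∈ Zr K i C ∅ := by simpa using mem_Zr_of_In hz hzC
    obtain ⟨J₀, hJ₀⟩ := hL.osc C hC (G.ρ / 2) (by positivity)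
    have hJ := hJ₀ (J₀ + 1) (by omega)
    set J := J₀ + 1
    have BJ := hB.2 n M G J
    have hs : ∀ N' : ℕ, Continuous fun l : Lo M => smp N' (crv l) := fun N' =>
      continuous_pi fun j => hL.crv_cont.comp (continuous_id.prodMk continuous_const)
    have hG : ∀ l ∈ C, smp J (crv l) ∈ G.Gd J := fun l hl => (BJ.near l (hJ hl)).1
    set F : ℝ × Lo M → ℝ → M := fun q t =>
      G.bg (smp J (crv q.2)) ((1 - q.1) * t + q.1 * tau δ (smp J (crv q.2)) t) with hF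
    have hFc : ContinuousOn (fun q : (ℝ × Lo M) × ℝ => F q.1 q.2) ((Icc 0 1 ×ˢ C) ×ˢ Icc 0 1) := by
      have h1 : Continuous fun q : (ℝ × Lo M) × ℝ => smp J (crv q.1.2) :=
        (hs J).comp (by fun_prop)
      have h2 : Continuous fun q : (ℝ × Lo M) × ℝ => tau δ (smp J (crv q.1.2)) q.2 :=
        (tau_cont hδ).comp (h1.prodMk continuous_snd)
      exact BJ.cont.comp (f := fun q : (ℝ × Lo M) × ℝ => (smp J (crv q.1.2),
        (1 - q.1.1) * q.2 + q.1.1 * tau δ (smp J (crv q.1.2)) q.2))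
        (h1.prodMk (by fun_prop)).continuousOn fun q hq => ⟨hG _ hq.1.2, trivial⟩
    have hF01 : ∀ q, F q 0 = F q 1 := fun q => by
      simp only [hF, tau_zero hδ, tau_one hδ]
      rw [← BJ.per _ _]
      congr 1
      ring
    have hh := hL.mk_cont _ F _ hFc fun q _ => hF01 q
    have hr : ContinuousOn (fun l => mkL (F (1, l))) C :=
      hh.comp (continuous_const.prodMk continuous_id).continuousOn fun l hl => ⟨by simp, hl⟩
    have hlip : ∀ l ∈ C, ∀ s t, |s - t| ≤ 1 →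
        dist (crv (mkL (F (1, l))) s) (crv (mkL (F (1, l))) t) ≤ (a + δ) * |s - t| := by
      intro l hl s t hst
      refine per_lip (hL.crv_per _) (fun s t h0 h h1 => ?_) hst
      have hc : ContinuousOn (F (1, l)) (Icc 0 1) :=
        hFc.comp (f := fun t => ((1, l), t)) (by fun_prop) fun t ht => ⟨⟨by simp, hl⟩, ht⟩
      rw [hL.crv_mk _ hc (hF01 _) s ⟨h0, by linarith⟩, hL.crv_mk _ hc (hF01 _) t ⟨by linarith, h1⟩]
      simpa [hF] using lip hδ G (hG l hl) (BJ.sum_le _ a (hL.crv_per l) ha (hCa hl)) h0 h h1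
    have hN1 : (1 : ℝ) ≤ N := by exact_mod_cast NeZero.pos N
    have hosc : ∀ l ∈ C, mkL (F (1, l)) ∈ Osc N (G.ρ / 2) := fun l hl s t hst => by
      have h1 : (N₀ : ℝ) ≤ N := by exact_mod_cast hNN
      refine (hlip l hl s t (hst.trans (by rw [div_le_one (by linarith)]; exact hN1))).trans_lt
        ((mul_le_mul_of_nonneg_left hst (by linarith)).trans_lt ?_)
      rw [div_lt_iff₀ hρ] at hN₀
      rw [mul_one_div, div_lt_iff₀ (by linarith)]
      nlinarith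
    have hy : ContinuousOn (fun l => smp N (crv (mkL (F (1, l))))) C :=
      (hs N).comp_continuousOn hr
    have hyG : MapsTo (fun l => smp N (crv (mkL (F (1, l))))) C (G.Gd N) := fun l hl =>
      (BN.near _ (hosc l hl)).1
    have s1 := (hN n M G).1 _ (fun l => l) (fun l => G.toL (smp J (crv l))) C i continuousOn_id
      (BJ.toL_cont.comp (hs J).continuousOn hG) (fun l hl => (BJ.near l (hJ hl)).2) z hz
    have s2 := T.hom _ _ (fun q => mkL (F q)) C ∅ univ ∅ i (empty_subset _) hh (mapsTo_univ _ _)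
      (by simp) z hz
    have s3 := (hN n M G).1 _ (fun l => mkL (F (1, l)))
      (fun l => G.toL (smp N (crv (mkL (F (1, l)))))) C i hr (BN.toL_cont.comp hy hyG)
      (fun l hl => (BN.near _ (hosc l hl)).2) z hz
    have e0 : (fun l => mkL (F (0, l))) = fun l => G.toL (smp J (crv l)) := by
      funext l
      simp [hF, GS.toL]
    rw [push_id] at s1
    rw [e0] at s2
    rw [← push_push hy hzC] at s3
    have hm : MapsTo (fun l => smp N (crv (mkL (F (1, l))))) C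
        {x | x ∈ G.Gd N ∧ En x ≤ (a + δ) ^ 2 / N} := fun l hl =>
      ⟨hyG hl, en_le (hL.crv_per _) (hlip l hl) N⟩
    refine Submodule.mem_sup.2 ⟨_, ⟨_, push_Zr hy hm (mapsTo_empty _ _) hz, rfl⟩, _,
      Submodule.add_mem _ (Submodule.sub_mem _ s1 s2) s3, by abel⟩
  · have BN := hB.2 n M G N
    have hN1 : (0 : ℝ) < N := by exact_mod_cast NeZero.pos N
    show len (crv (G.toL x)) ≤ _
    rw [BN.crv_toL x hx]
    refine (BN.len_le x hx).trans (ENNReal.ofReal_le_ofReal (le_of_sq_le_sq ?_ hb))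
    have h1 := sq_sum_le_card_mul_sum_sq (s := Finset.univ) (f := fun j => dist (x j) (x (j + 1)))
    rw [Finset.card_univ, ZMod.card] at h1
    rw [le_div_iff₀ hN1, En] at hE
    linarith

end Pool.Agent.MP_af6f1c_gt.Geo

end
end MrgPart0

-- ======== part 1: formerly Pool.Agent.MP_af6f1c_gt.geo.Up
section MrgPart1

/-! PROJECT GEO, row S3U: upper and lower bounds for the Betti numbers of the free loop space of
a product with the three-sphere. -/

open Set Topology Metric Module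

noncomputable section

namespace Pool.Agent.MP_af6f1c_gt.Geo

namespace UpP

variable {K : Type} [Field K] {X Y : Type} [TopologicalSpace X] [TopologicalSpace Y]

/-! ### transport of ranks -/

lemma rp_retract {n r : ℕ} {S A : Set X} {T B : Set Y} (f : X → Y) (g : Y → X)
    (hf : ContinuousOn f S) (hg : ContinuousOn g T) (h1 : MapsTo f S T) (h2 : MapsTo f A B)
    (h3 : MapsTo g T S) (h4 : MapsTo g B A) (hgf : ∀ x ∈ S, g (f x) = x)
    (h : RP K n T B T B r) : RP K n S A S A r := by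
  refine Rk.of_inj h (push K n f) (fun z hz => Submodule.mem_sup_left (push_Zr hf h1 h2 hz))
    fun z hz hb => ?_
  have := push_Br hg h3 h4 hb
  rwa [push_push hf (Zr_le_In hz), push_eq_self hgf (Zr_le_In hz)] at this

lemma rh_retract {n r : ℕ} {S : Set X} {T : Set Y} (f : X → Y) (g : Y → X)
    (hf : ContinuousOn f S) (hg : ContinuousOn g T) (h1 : MapsTo f S T)
    (h3 : MapsTo g T S) (hgf : ∀ x ∈ S, g (f x) = x) (h : RH K n T r) : RH K n S r :=
  rp_retract f g hf hg h1 (mapsTo_empty _ _) h3 (mapsTo_empty _ _) hgf h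

lemma rh_mono {n r r' : ℕ} {S : Set X} (h : RH K n S r) (hr : r ≤ r') : RH K n S r' :=
  RP.mono h Subset.rfl Subset.rfl Subset.rfl Subset.rfl hr

/-- a proper subspace has smaller rank -/
lemma rk_drop {V : Type} [AddCommGroup V] [Module K V] {P P' Q : Submodule K V} {r : ℕ}
    (h : Rk P Q r) (hP : P' ≤ P) {s : V} (hs : s ∈ P) (hs' : s ∉ P' ⊔ Q) :
    ∃ r', r = r' + 1 ∧ Rk P' Q r' := by
  have hfin : Module.Finite K (P.map Q.mkQ) :=
    Module.rank_lt_aleph0_iff.1 (lt_of_le_of_lt h Cardinal.natCast_lt_aleph0)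
  have hle : P'.map Q.mkQ ≤ P.map Q.mkQ := Submodule.map_mono hP
  have hlt : P'.map Q.mkQ < P.map Q.mkQ := by
    refine lt_of_le_of_ne hle fun e => hs' ?_
    have : Q.mkQ s ∈ P'.map Q.mkQ := e ▸ Submodule.mem_map_of_mem hs
    obtain ⟨a, ha, e'⟩ := this
    refine Submodule.mem_sup.2 ⟨a, ha, s - a, ?_, by simp⟩
    rw [← Submodule.Quotient.mk_eq_zero, ← Submodule.mkQ_apply, map_sub, e', sub_self]
  have hfin' : Module.Finite K (P'.map Q.mkQ) := Submodule.finiteDimensional_of_le hle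
  have h1 : finrank K (P'.map Q.mkQ) < finrank K (P.map Q.mkQ) :=
    Submodule.finrank_lt_finrank_of_lt hlt
  have h2 : finrank K (P.map Q.mkQ) ≤ r := Module.finrank_le_of_rank_le h
  refine ⟨r - 1, by omega, ?_⟩
  rw [Rk, ← Module.finrank_eq_rank]
  exact Nat.cast_le.2 (by omega)

/-! ### the three-sphere -/

lemma exists_chart (v : S3) :
    ∃ φ : OpenPartialHomeomorph S3 (Eu 3), φ.source = {v}ᶜ ∧ φ.target = univ := by
  have : Fact (finrank ℝ (Quaternion ℝ) = 3 + 1) := ⟨Quaternion.finrank_eq_four⟩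
  exact ⟨stereographic' 3 v, stereographic'_source v, stereographic'_target v⟩

lemma exists_path (q : S3) : ∃ a : PS, a ∈ Om q := by
  have h : IsPathConnected (sphere (0 : Quaternion ℝ) 1) :=
    isPathConnected_sphere (by rw [Quaternion.rank_eq_four]; norm_num) 0 zero_le_one
  have : PathConnectedSpace S3 := isPathConnected_iff_pathConnectedSpace.1 h
  let γ := PathConnectedSpace.somePath (1 : S3) q
  exact ⟨γ.toContinuousMap, γ.source, γ.target⟩

lemma exists_pt : ∃ p : S3, p ≠ 1 ∧ -p ≠ 1 := by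
  obtain ⟨a, h0, h1⟩ := exists_path (-1)
  have hc : Continuous fun t : unitInterval => ((a t : S3) : Quaternion ℝ).re :=
    Quaternion.continuous_re.comp (by fun_prop)
  have e1 : ((1 : S3) : Quaternion ℝ).re = 1 := rfl
  have e2 : ∀ x : S3, ((-x : S3) : Quaternion ℝ).re = -(x : Quaternion ℝ).re := fun _ => rfl
  obtain ⟨t, ht⟩ := intermediate_value_univ (1 : unitInterval) 0 hc
    (show (0 : ℝ) ∈ Icc _ _ by rw [h0, h1, e2, e1]; constructor <;> norm_num)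
  have ht' : ((a t : S3) : Quaternion ℝ).re = 0 := ht
  refine ⟨a t, fun h => ?_, fun h => ?_⟩
  · rw [h, e1] at ht'
    exact one_ne_zero ht'
  · have := e2 (a t)
    rw [h, e1, ht', neg_zero] at this
    exact one_ne_zero this

/-- the fibres of the path space are homeomorphic -/
lemma om_tr (q q' : S3) {n r : ℕ} (h : RH K n (Om q ×ˢ (univ : Set Y)) r) :
    RH K n (Om q' ×ˢ (univ : Set Y)) r := by
  obtain ⟨a, ha0, ha1⟩ := exists_path (q'⁻¹ * q)
  refine rh_retract (fun x : PS × Y => (x.1 * a, x.2)) (fun x : PS × Y => (x.1 * a⁻¹, x.2))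
    (by fun_prop) (by fun_prop) ?_ ?_ (fun x _ => by simp) h
  · rintro ⟨w, y⟩ ⟨⟨h0, h1⟩, -⟩
    refine ⟨⟨?_, ?_⟩, trivial⟩
    · simp only [ContinuousMap.mul_apply]
      rw [h0, ha0, mul_one]
    · simp only [ContinuousMap.mul_apply]
      rw [h1, ha1, mul_inv_cancel_left]
  · rintro ⟨w, y⟩ ⟨⟨h0, h1⟩, -⟩
    refine ⟨⟨?_, ?_⟩, trivial⟩
    · simp only [ContinuousMap.mul_apply, ContinuousMap.inv_apply]
      rw [h0, ha0, inv_one, mul_one]
    · simp only [ContinuousMap.mul_apply, ContinuousMap.inv_apply]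
      rw [h1, ha1, mul_inv_rev, inv_inv, mul_inv_cancel_left]

/-- the complement of a point times `Y` has the homology of `Y` -/
lemma rh_compl (T : Tools K) (v : S3) {n r : ℕ} (h : RH K n (univ : Set Y) r) :
    RH K n (({v}ᶜ : Set S3) ×ˢ (univ : Set Y)) r := by
  obtain ⟨φ, hs, ht⟩ := exists_chart v
  have hsy : Continuous φ.symm := by
    rw [← continuousOn_univ, ← ht]; exact φ.continuousOn_symm
  have hm : ∀ e, φ.symm e ∈ ({v}ᶜ : Set S3) := fun e => hs ▸ φ.map_target (ht ▸ mem_univ e)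
  refine T.pt.2 (S3 × Y) Y Prod.snd (fun y => (φ.symm 0, y))
    (fun q => (φ.symm ((1 - q.1) • φ q.2.1), q.2.2)) _ ∅ _ ∅ univ ∅ univ ∅ n r (empty_subset _)
    (empty_subset _) continuous_snd.continuousOn (by fun_prop) (mapsTo_univ _ _)
    (mapsTo_empty _ _) (fun y _ => ⟨hm _, trivial⟩) (mapsTo_empty _ _) ?_ ?_ ?_
    (fun q _ => ⟨hm _, trivial⟩) (fun q hq => hq.2.elim) h
  · have h1 : ContinuousOn (fun q : ℝ × S3 × Y => φ q.2.1)
        (Icc 0 1 ×ˢ (({v}ᶜ : Set S3) ×ˢ (univ : Set Y))) :=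
      φ.continuousOn.comp (by fun_prop) fun q hq => hs ▸ hq.2.1
    have h2 : ContinuousOn (fun q : ℝ × S3 × Y => (1 - q.1) • φ q.2.1)
        (Icc 0 1 ×ˢ (({v}ᶜ : Set S3) ×ˢ (univ : Set Y))) :=
      ContinuousOn.smul (f := fun q : ℝ × S3 × Y => 1 - q.1) (by fun_prop) h1
    exact (hsy.comp_continuousOn h2).prodMk (g := fun q : ℝ × S3 × Y => q.2.2) (by fun_prop)
  · rintro ⟨x, y⟩ ⟨hx, -⟩
    simp only [sub_zero, one_smul]
    rw [φ.left_inv (hs ▸ hx)]
  · rintro ⟨x, y⟩ _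
    simp

/-- the pair (sphere, complement of a point) times `Y` -/
lemma rp_pair (T : Tools K) {n r : ℕ}
    (h : RO K n (SO (∅ : Set Y) (Eu 3)) (univ ×ˢ univ) (univ ×ˢ univ) r) :
    ∃ w : S3, RP K n univ (({w}ᶜ : Set S3) ×ˢ (univ : Set Y)) univ ({w}ᶜ ×ˢ univ) r := by
  obtain ⟨φ, hs, ht⟩ := exists_chart 1
  have hsy : Continuous φ.symm := by
    rw [← continuousOn_univ, ← ht]; exact φ.continuousOn_symm
  have hm : ∀ e, φ.symm e ∈ ({1}ᶜ : Set S3) := fun e => hs ▸ φ.map_target (ht ▸ mem_univ e)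
  have hr : ∀ e, φ (φ.symm e) = e := fun e => φ.right_inv (ht ▸ mem_univ e)
  refine ⟨φ.symm 0, ?_⟩
  set O : Set (S3 × Y) := ({φ.symm 0}ᶜ : Set S3) ×ˢ (univ : Set Y) with hO
  set U : Set (S3 × Y) := ({1}ᶜ : Set S3) ×ˢ (univ : Set Y) with hU
  have h1 : RP K n (univ ∩ U) (O ∩ U) (univ ∩ U) (O ∩ U) r := by
    refine rp_retract (fun x : S3 × Y => (x.2, φ x.1)) (fun y : Y × Eu 3 => (φ.symm y.2, y.1))
      ?_ (by fun_prop) (fun _ _ => mk_mem_prod (mem_univ _) (mem_univ _)) ?_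
      (fun y _ => ⟨trivial, hm _, trivial⟩) ?_ ?_ h
    · exact continuous_snd.continuousOn.prodMk
        (φ.continuousOn.comp (by fun_prop) fun q hq => hs ▸ hq.2.1)
    · rintro ⟨x, y⟩ ⟨⟨hx, -⟩, hx', -⟩
      refine ⟨⟨trivial, trivial⟩, Or.inr fun e => hx ?_⟩
      have e' : φ x = 0 := e
      rw [← e', φ.left_inv (hs ▸ hx')]
      rfl
    · rintro ⟨y, e⟩ ⟨-, he⟩
      refine ⟨⟨fun h0 => ?_, trivial⟩, hm _, trivial⟩
      rcases he with he | he
      · exact he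
      · refine he ?_
        have h0' : φ.symm e = φ.symm 0 := h0
        rw [← hr e, h0', hr]
    · rintro ⟨x, y⟩ ⟨-, hx, -⟩
      simp only
      rw [φ.left_inv (hs ▸ hx)]
  have h2 := (T.exc (S3 × Y) univ O U O n (isOpen_compl_singleton.prod isOpen_univ)
    (isOpen_compl_singleton.prod isOpen_univ) ?_ inter_subset_right (subset_univ _)).1
  · exact Rk.of_le_sup (Rk.mono h1 le_rfl (Br_mono (subset_univ _) inter_subset_left) le_rfl) h2
  · rintro ⟨x, y⟩ -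
    by_cases hx : x = 1
    · refine Or.inr ⟨fun e => hm 0 ?_, trivial⟩
      have e' : x = φ.symm 0 := e
      rw [← e', hx]
      rfl
    · exact Or.inl ⟨hx, trivial⟩

/-- homology of the product with the three-sphere -/
lemma rh_prod (T : Tools K) (hS : SuspRkStmt K) (b : ℕ → ℕ)
    (hb : ∀ j, RH K j (univ : Set Y) (b j)) (j : ℕ) :
    RH K j (univ : Set (S3 × Y)) ((if 3 ≤ j then b (j - 3) else 0) + b j) := by
  have h3 : finrank ℝ (Eu 3) = 3 := by simp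
  obtain ⟨h1, h2⟩ := hS Y (Eu 3) ∅ univ univ isOpen_empty Subset.rfl
  rw [h3] at h1 h2
  have key : RO K j (SO (∅ : Set Y) (Eu 3)) (univ ×ˢ univ) (univ ×ˢ univ)
      (if 3 ≤ j then b (j - 3) else 0) := by
    split_ifs with hj
    · obtain ⟨i, rfl⟩ : ∃ i, j = i + 3 := ⟨j - 3, by omega⟩
      refine h1 i _ ?_
      rw [Nat.add_sub_cancel, RO, inter_empty]
      exact hb i
    · exact h2 j (by omega)
  obtain ⟨w, hw⟩ := rp_pair T key
  exact T.tri (S3 × Y) univ ∅ _ univ ∅ _ univ ∅ j _ _ (empty_subset _) Subset.rfl Subset.rfl hw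
    (RP.mono (rh_compl T w (hb j)) Subset.rfl Subset.rfl (subset_univ _) Subset.rfl le_rfl)

/-! ### the loop space of the product -/

section loops

variable {M N : Type} [MetricSpace M] [MetricSpace N]

lemma lo_ext {l l' : Lo M} (h : ∀ t ∈ Icc (0 : ℝ) 1, crv l t = crv l' t) : l = l' := by
  ext θ
  obtain ⟨t, ht, rfl⟩ : ∃ t ∈ Ico (0 : ℝ) (0 + 1), (t : UnitAddCircle) = θ :=
    ⟨_, ((AddCircle.equivIco 1 0) θ).2, (AddCircle.equivIco 1 0).symm_apply_apply θ⟩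
  exact h t ⟨ht.1, by simpa using ht.2.le⟩

/-- splitting of a loop -/
def spl (h : M ≃ₜ S3 × N) (l : Lo M) : PS × S3 × Lo N :=
  (⟨fun t => ((h (l 0)).1)⁻¹ * (h (crv l t)).1, by unfold crv; fun_prop⟩, (h (l 0)).1,
    ⟨fun θ => (h (l θ)).2, by fun_prop⟩)

/-- the curve glued from the three parts -/
def glc (h : M ≃ₜ S3 × N) (x : PS × S3 × Lo N) (t : ℝ) : M :=
  h.symm (x.2.1 * x.1 (projIcc 0 1 zero_le_one t), crv x.2.2 t)

lemma spl_cont (h : M ≃ₜ S3 × N) : Continuous (spl h) := by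
  refine Continuous.prodMk ?_ (Continuous.prodMk (by fun_prop) ?_)
  · refine ContinuousMap.continuous_of_continuous_uncurry _ ?_
    show Continuous fun q : Lo M × unitInterval =>
      ((h (q.1 0)).1)⁻¹ * (h (q.1 ((q.2 : ℝ) : UnitAddCircle))).1
    fun_prop
  · refine ContinuousMap.continuous_of_continuous_uncurry _ ?_
    show Continuous fun q : Lo M × UnitAddCircle => (h (q.1 q.2)).2
    fun_prop

lemma glc_cont (h : M ≃ₜ S3 × N) :
    Continuous fun q : (PS × S3 × Lo N) × ℝ => glc h q.1 q.2 := by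
  have := continuous_projIcc (α := ℝ) (a := 0) (b := 1) (h := zero_le_one)
  unfold glc crv
  fun_prop

lemma crv_zero (l : Lo M) : crv l 0 = l 0 := by simp [crv]

lemma crv_one (l : Lo M) : crv l 1 = l 0 := by
  unfold crv
  rw [AddCircle.coe_period]

lemma glc_ends (h : M ≃ₜ S3 × N) {x : PS × S3 × Lo N} (hx : x.1 ∈ Om 1) :
    glc h x 0 = glc h x 1 := by
  unfold glc
  rw [projIcc_left, projIcc_right, crv_zero, crv_one]
  congr 3
  exact hx.1.trans hx.2.symm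

lemma crv_gl (hL : LoopStmt M) (h : M ≃ₜ S3 × N) {x : PS × S3 × Lo N} (hx : x.1 ∈ Om 1) {t : ℝ}
    (ht : t ∈ Icc (0 : ℝ) 1) : crv (mkL (glc h x)) t = glc h x t :=
  hL.crv_mk _ ((glc_cont h).comp (Continuous.prodMk_right x)).continuousOn (glc_ends h hx) t ht

lemma spl_mem (h : M ≃ₜ S3 × N) (l : Lo M) : (spl h l).1 ∈ Om 1 := by
  constructor
  · show ((h (l 0)).1)⁻¹ * (h (crv l 0)).1 = 1
    rw [crv_zero, inv_mul_cancel]
  · show ((h (l 0)).1)⁻¹ * (h (crv l 1)).1 = 1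
    rw [crv_one, inv_mul_cancel]

lemma gl_spl (hL : LoopStmt M) (h : M ≃ₜ S3 × N) (l : Lo M) : mkL (glc h (spl h l)) = l := by
  refine lo_ext fun t ht => ?_
  rw [crv_gl hL h (spl_mem h l) ht, glc, projIcc_of_mem _ ht]
  show h.symm ((h (l 0)).1 * (((h (l 0)).1)⁻¹ * (h (crv l t)).1), (h (crv l t)).2) = _
  rw [mul_inv_cancel_left]
  exact h.symm_apply_apply _

lemma spl_gl (hL : LoopStmt M) (h : M ≃ₜ S3 × N) {x : PS × S3 × Lo N} (hx : x.1 ∈ Om 1) :
    spl h (mkL (glc h x)) = x := by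
  have e0 : (h (mkL (glc h x) 0)).1 = x.2.1 := by
    rw [← crv_zero, crv_gl hL h hx (left_mem_Icc.2 zero_le_one), glc, h.apply_symm_apply,
      projIcc_left]
    show x.2.1 * x.1 0 = _
    rw [hx.1, mul_one]
  refine Prod.ext ?_ (Prod.ext e0 (lo_ext fun t ht => ?_))
  · ext1 t
    show ((h (mkL (glc h x) 0)).1)⁻¹ * (h (crv (mkL (glc h x)) t)).1 = _
    rw [e0, crv_gl hL h hx t.2, glc, h.apply_symm_apply, projIcc_val, inv_mul_cancel_left]
  · show (h (crv (mkL (glc h x)) t)).2 = _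
    rw [crv_gl hL h hx ht, glc, h.apply_symm_apply]

lemma gl_cont (hL : LoopStmt M) (h : M ≃ₜ S3 × N) :
    ContinuousOn (fun x => mkL (glc h x)) (Om 1 ×ˢ (univ : Set (S3 × Lo N))) :=
  hL.mk_cont _ _ _ (glc_cont h).continuousOn fun _ hx => glc_ends h hx.1

lemma rh_lo (hL : LoopStmt M) (h : M ≃ₜ S3 × N) (q : S3) {n r : ℕ} :
    RH K n (univ : Set (Lo M)) r ↔ RH K n (Om q ×ˢ (univ : Set (S3 × Lo N))) r := by
  constructor
  · intro H
    refine om_tr 1 q (rh_retract (fun x => mkL (glc h x)) (spl h) (gl_cont hL h)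
      (spl_cont h).continuousOn (mapsTo_univ _ _) (fun l _ => ⟨spl_mem h l, trivial⟩)
      (fun x hx => spl_gl hL h hx.1) H)
  · intro H
    exact rh_retract (spl h) (fun x => mkL (glc h x)) (spl_cont h).continuousOn (gl_cont hL h)
      (fun l _ => ⟨spl_mem h l, trivial⟩) (mapsTo_univ _ _) (fun l _ => gl_spl hL h l)
      (om_tr q 1 H)

end loops

/-! ### the two recursions -/

lemma up_aux (hW : WangStmt K) (b c : ℕ → ℕ) (hc : ∀ j, RH K j (univ : Set Y) (c j))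
    (hb : ∀ j, c j = (if 3 ≤ j then b (j - 3) else 0) + b j) (i : ℕ) :
    ∃ s, RH K i (Om 1 ×ˢ (univ : Set Y)) s ∧
      s + (if 1 ≤ i then b (i - 1) else 0) ≤ ∑ j ∈ Finset.range (i + 1), b j := by
  obtain ⟨p, hp, hp'⟩ := exists_pt
  obtain ⟨Q, κ, c', T, -, -, -, -, -, -, -, h1, h2⟩ := hW Y p hp hp'
  induction i using Nat.twoStepInduction with
  | zero => exact ⟨c 0, om_tr _ _ (h2 0 zero_le_one _ (hc 0)), by simp [hb]⟩
  | one =>
    refine ⟨c 1, om_tr _ _ (h2 1 le_rfl _ (hc 1)), ?_⟩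
    simp [hb, Finset.sum_range_succ, add_comm]
  | more i ih _ =>
    obtain ⟨s, hs, hle⟩ := ih
    refine ⟨s + c (i + 2), om_tr _ _ (h1 i _ _ (om_tr _ _ hs) (hc (i + 2))), ?_⟩
    rw [Finset.sum_range_succ, Finset.sum_range_succ, hb, if_pos (by omega : 1 ≤ i + 2)]
    have e : (if 3 ≤ i + 2 then b (i + 2 - 3) else 0) = if 1 ≤ i then b (i - 1) else 0 := by
      by_cases hi : 1 ≤ i
      · rw [if_pos hi, if_pos (by omega)]
        rfl
      · rw [if_neg hi, if_neg (by omega)]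
    rw [e]
    have e' : i + 2 - 1 = i + 1 := by omega
    rw [e']
    omega

lemma rh_base (q : S3) {n r : ℕ} (h : RH K n (Om q ×ˢ (univ : Set Y)) r) :
    RH K n (univ : Set Y) r := by
  obtain ⟨a, ha⟩ := exists_path q
  exact rh_retract (fun y => (a, y)) Prod.snd (by fun_prop) (by fun_prop)
    (fun y _ => mk_mem_prod ha (mem_univ _)) (mapsTo_univ _ _) (fun _ _ => rfl) h

lemma omL_empty {p : S3} (hp : p ≠ 1) : OmL p (0 - 1) = ∅ := by
  refine eq_empty_of_forall_notMem fun w hw => hp ?_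
  have h0 : eVariationOn w univ = 0 := by
    have := hw.2
    rwa [ENNReal.ofReal_of_nonpos (by norm_num), nonpos_iff_eq_zero] at this
  have h1 := eVariationOn.edist_le w (mem_univ 0) (mem_univ 1)
  rw [h0, nonpos_iff_eq_zero, edist_eq_zero, hw.1.1, hw.1.2] at h1
  exact h1.symm

/-- one step of the lower bound -/
lemma low_step (hW : WangStmt K) {j r : ℕ} (h : RH K (j + 2) (Om 1 ×ˢ (univ : Set Y)) r) :
    RH K j (Om 1 ×ˢ (univ : Set Y)) r ∧ (¬ RH K (j + 2) (univ : Set Y) 0 →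
      ∃ r', r = r' + 1 ∧ RH K j (Om 1 ×ˢ (univ : Set Y)) r') := by
  obtain ⟨p, hp, hp'⟩ := exists_pt
  obtain ⟨Q, κ, c, T, -, hκ, hκ', h1, -, h2, h3, -, -⟩ := hW Y p hp hp'
  have h' := om_tr 1 (-p) h
  set P' := (Zr K j (Om p ×ˢ (univ : Set Y)) ∅).map (T j) with hP'
  have hle : P' ≤ Zr K (j + 2) (Om (-p) ×ˢ (univ : Set Y)) ∅ := by
    rintro _ ⟨z, hz, rfl⟩
    obtain ⟨e1, e2⟩ := h1 j _ Subset.rfl z hz
    rw [e2]
    refine push_Zr ?_ ?_ (mapsTo_empty _ _) e1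
    · have : ContinuousOn (fun b : (PS × Y) × (Fin 3 → ℝ) => κ b.2)
          ((Om p ×ˢ (univ : Set Y)) ×ˢ Q) := hκ.comp continuous_snd.continuousOn fun b hb => hb.2
      exact (ContinuousOn.mul (by fun_prop) this).prodMk (by fun_prop)
    · rintro ⟨⟨w, y⟩, s⟩ ⟨⟨⟨h0, h1⟩, -⟩, hs⟩
      refine ⟨⟨?_, ?_⟩, trivial⟩
      · simp only [ContinuousMap.mul_apply]
        rw [h0, (hκ' s hs).1, mul_one]
      · simp only [ContinuousMap.mul_apply]
        rw [h1, (hκ' s hs).2]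
  have key : ∀ r', Rk P' (Br K (j + 2) (Om (-p) ×ˢ (univ : Set Y)) ∅) r' →
      RH K j (Om 1 ×ˢ (univ : Set Y)) r' := by
    intro r' hr'
    refine om_tr p 1 (Rk.of_inj hr' (T j)
      (fun z hz => Submodule.mem_sup_left (Submodule.mem_map_of_mem hz)) fun z hz hb => ?_)
    have := h2 j 0 z hz (Submodule.mem_sup_right hb)
    rw [omL_empty hp, empty_prod] at this
    obtain ⟨a, ha, b, hb', rfl⟩ := Submodule.mem_sup.1 this
    exact add_mem (In_le_Br (Zr_le_In ha)) hb'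
  refine ⟨key r (Rk.mono h' hle le_rfl le_rfl), fun hn => ?_⟩
  obtain ⟨β, hβ, hβ'⟩ : ∃ β ∈ Zr K (j + 2) (univ : Set Y) ∅, β ∉ Br K (j + 2) univ ∅ := by
    by_contra hc
    push Not at hc
    exact hn (rk_zero.2 hc)
  obtain ⟨a, ha⟩ := exists_path (-p)
  have hs : push K (j + 2) (fun y => (a, y)) β ∈ Zr K (j + 2) (Om (-p) ×ˢ (univ : Set Y)) ∅ :=
    push_Zr (by fun_prop) (fun y _ => mk_mem_prod ha (mem_univ _)) (mapsTo_empty _ _) hβ
  obtain ⟨r', e, hr'⟩ := rk_drop h' hle hs fun hm => by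
    obtain ⟨_, ⟨z, hz, rfl⟩, b, hb, e⟩ := Submodule.mem_sup.1 hm
    have e' := congrArg (push K (j + 2) Prod.snd) e
    rw [map_add, push_push (S := univ) (by fun_prop) (mem_In_univ β), push_id] at e'
    refine hβ' (e' ▸ add_mem (h3 j z hz) ?_)
    exact push_Br (by fun_prop) (mapsTo_univ _ _) (mapsTo_empty _ _) hb
  exact ⟨r', e, key r' hr'⟩

lemma low_small {i r : ℕ} (hi : i ≤ 1) (F : Finset ℕ)
    (hF : ∀ k ∈ F, 2 * k ≤ i ∧ ¬ RH K (i - 2 * k) (univ : Set Y) 0)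
    (h : RH K i (Om 1 ×ˢ (univ : Set Y)) r) : F.card ≤ r := by
  rcases F.eq_empty_or_nonempty with rfl | ⟨k, hk⟩
  · simp
  · have h0 : ∀ k ∈ F, k = 0 := fun k hk => by have := (hF k hk).1; omega
    have h1 : F.card ≤ 1 := Finset.card_le_one.2 fun a ha b hb => (h0 a ha).trans (h0 b hb).symm
    rcases Nat.eq_zero_or_pos r with rfl | hr
    · have := (hF k hk).2
      rw [h0 k hk] at this
      exact absurd (rh_base 1 h) this
    · omega

lemma low_aux (hW : WangStmt K) (i : ℕ) : ∀ (r : ℕ) (F : Finset ℕ),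
    (∀ k ∈ F, 2 * k ≤ i ∧ ¬ RH K (i - 2 * k) (univ : Set Y) 0) →
    RH K i (Om 1 ×ˢ (univ : Set Y)) r → F.card ≤ r := by
  induction i using Nat.twoStepInduction with
  | zero => exact fun r F => low_small zero_le_one F
  | one => exact fun r F => low_small le_rfl F
  | more i ih _ =>
    intro r F hF h
    obtain ⟨h1, h2⟩ := low_step hW h
    have hc : ((F.erase 0).image fun k => k - 1).card = (F.erase 0).card := by
      refine Finset.card_image_of_injOn fun a ha b hb e => ?_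
      have ha' := Finset.ne_of_mem_erase ha
      have hb' := Finset.ne_of_mem_erase hb
      have e' : a - 1 = b - 1 := e
      omega
    have hF' : ∀ k ∈ (F.erase 0).image fun k => k - 1,
        2 * k ≤ i ∧ ¬ RH K (i - 2 * k) (univ : Set Y) 0 := by
      intro k hk
      obtain ⟨a, ha, rfl⟩ := Finset.mem_image.1 hk
      have ha' := Finset.ne_of_mem_erase ha
      obtain ⟨e1, e2⟩ := hF a (Finset.mem_of_mem_erase ha)
      have e : i - 2 * (a - 1) = i + 2 - 2 * a := by omega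
      exact ⟨by omega, e ▸ e2⟩
    by_cases h0 : 0 ∈ F
    · obtain ⟨r', rfl, hr'⟩ := h2 (hF 0 h0).2
      have := ih r' _ hF' hr'
      rw [hc, Finset.card_erase_of_mem h0] at this
      omega
    · have := ih r _ hF' h1
      rwa [hc, Finset.erase_eq_of_notMem h0] at this

end UpP

open UpP

theorem up (K : Type) [Field K] (hB : Basics) (T : Tools K) (hW : WangStmt K)
    (hS : SuspRkStmt K) : UpStmt K := by
  intro M N _ _ h b hb i
  obtain ⟨s, hs, hle⟩ := up_aux hW b _ (rh_prod T hS b hb) (fun _ => rfl) i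
  exact rh_mono ((rh_lo (hB.1 M) h 1).2 hs) (by omega)

theorem low (K : Type) [Field K] (hB : Basics) (_T : Tools K) (hW : WangStmt K) : LowStmt K := by
  intro M N _ _ h i r F hF hr
  refine low_aux hW i r F (fun k hk => ⟨(hF k hk).1, fun h0 => (hF k hk).2 ?_⟩)
    ((rh_lo (hB.1 M) h 1).1 hr)
  exact rh_retract (fun l => ((1 : S3), l)) Prod.snd (by fun_prop) (by fun_prop)
    (mapsTo_univ _ _) (mapsTo_univ _ _) (fun _ _ => rfl) h0

end Pool.Agent.MP_af6f1c_gt.Geo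

end
end MrgPart1

-- ======== part 2: formerly Pool.Agent.MP_af6f1c_gt.geo.WangA
section MrgPart2

/-! PROJECT GEO, row WANG: charts and paths of the three-sphere. -/

open Set Topology Metric Module
open scoped ENNReal NNReal

noncomputable section

namespace Pool.Agent.MP_af6f1c_gt.Geo

namespace WangP

/-- coordinates -/
abbrev R3 : Type := Fin 3 → ℝ

/-- a chart of the complement of `-q` with centre `q` -/
structure Cht (q : S3) (σ : R3 → S3) (ε : S3 → R3) : Prop where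
  cσ : Continuous σ
  cε : ContinuousOn ε {-q}ᶜ
  zero : σ 0 = q
  ne : ∀ s, σ s ≠ -q
  left : ∀ s, ε (σ s) = s
  right : ∀ b, b ≠ -q → σ (ε b) = b
  lip : ∃ K, ∃ t ∈ 𝓝 (0 : R3), LipschitzOnWith K σ t

lemma exists_cht (q : S3) : ∃ σ ε, Cht q σ ε := by
  have : Fact (finrank ℝ (Quaternion ℝ) = 3 + 1) := ⟨Quaternion.finrank_eq_four⟩
  let U := (OrthonormalBasis.fromOrthogonalSpanSingleton (𝕜 := ℝ) 3
    (ne_zero_of_mem_unit_sphere (-q))).repr
  let L : R3 ≃L[ℝ] (ℝ ∙ ((-q : S3) : Quaternion ℝ))ᗮ :=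
    (EuclideanSpace.equiv (Fin 3) ℝ).symm.trans U.symm.toContinuousLinearEquiv
  have hv : ‖((-q : S3) : Quaternion ℝ)‖ = 1 := norm_eq_of_mem_sphere (-q)
  let φ := stereographic hv
  have hs : φ.source = {-q}ᶜ := stereographic_source hv
  have ht : φ.target = univ := stereographic_target hv
  have hq : q ∈ φ.source := by rw [hs]; exact ne_neg_of_mem_unit_sphere ℝ q
  have h0 : φ q = 0 := stereographic_neg_apply q
  refine ⟨fun s => φ.symm (L s), fun b => L.symm (φ b), ?_, ?_, ?_, fun s => ?_, fun s => ?_,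
    fun b hb => ?_, ?_⟩
  · exact (continuous_stereoInvFun hv).comp L.continuous
  · exact L.symm.continuous.comp_continuousOn (hs ▸ φ.continuousOn)
  · rw [map_zero, ← h0, φ.left_inv hq]
  · have := φ.map_target (x := L s) (ht ▸ mem_univ _)
    rwa [hs] at this
  · rw [φ.right_inv (ht ▸ mem_univ _), L.symm_apply_apply]
  · rw [L.apply_symm_apply, φ.left_inv (hs ▸ hb)]
  · have h1 : ContDiff ℝ 1 fun s : R3 =>
        stereoInvFunAux ((-q : S3) : Quaternion ℝ) (L s : Quaternion ℝ) :=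
      (contDiff_stereoInvFunAux.comp (ℝ ∙ ((-q : S3) : Quaternion ℝ))ᗮ.subtypeL.contDiff).comp
        L.contDiff
    obtain ⟨K, t, ht, hK⟩ := (h1.contDiffAt (x := 0)).exists_lipschitzOnWith
    exact ⟨K, t, ht, fun x hx y hy => hK hx hy⟩

lemma dist_mul_le (x y x' y' : S3) : dist (x * y) (x' * y') ≤ dist x x' + dist y y' := by
  have h1 : ((x : Quaternion ℝ) * y - x' * y') = (x - x') * y + x' * (y - y') := by noncomm_ring
  simp only [Subtype.dist_eq, dist_eq_norm, Metric.unitSphere.coe_mul]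
  rw [h1]
  refine (norm_add_le _ _).trans (le_of_eq ?_)
  rw [norm_mul, norm_mul, norm_eq_of_mem_sphere, norm_eq_of_mem_sphere, mul_one, one_mul]

lemma edist_mul_le (x y x' y' : S3) : edist (x * y) (x' * y') ≤ edist x x' + edist y y' := by
  rw [edist_dist, edist_dist, edist_dist, ← ENNReal.ofReal_add dist_nonneg dist_nonneg]
  exact ENNReal.ofReal_le_ofReal (dist_mul_le x y x' y')

lemma dist_neg (p : S3) : dist p (-p) = 2 := by
  rw [Subtype.dist_eq, dist_eq_norm, coe_neg_sphere, sub_neg_eq_add, ← two_smul ℝ, norm_smul,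
    norm_eq_of_mem_sphere]
  simp

lemma var_mul (w k : PS) :
    eVariationOn (w * k) univ ≤ eVariationOn w univ + eVariationOn k univ := by
  refine iSup_le fun ⟨n, u, hu, hs⟩ => ?_
  refine le_trans ?_ (add_le_add (eVariationOn.sum_le (f := w) (n := n) hu hs)
    (eVariationOn.sum_le (f := k) (n := n) hu hs))
  rw [← Finset.sum_add_distrib]
  exact Finset.sum_le_sum fun i _ => edist_mul_le _ _ _ _

lemma continuous_inv_ps : Continuous fun w : PS => w⁻¹ :=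
  ContinuousMap.continuous_of_continuous_uncurry _
    (show Continuous fun x : PS × unitInterval => (x.1 x.2)⁻¹ by fun_prop)

/-- the path from `1` that moves `σ s` towards the centre of the chart -/
def kp {σ : R3 → S3} (h : Continuous σ) (x : ℝ × R3) : PS :=
  ⟨fun t => (σ x.2)⁻¹ * σ ((1 - x.1 * t) • x.2), by fun_prop⟩

lemma kp_apply {σ : R3 → S3} (h : Continuous σ) (x : ℝ × R3) (t : unitInterval) :
    kp h x t = (σ x.2)⁻¹ * σ ((1 - x.1 * t) • x.2) := rfl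

lemma continuous_kp {σ : R3 → S3} (h : Continuous σ) : Continuous (kp h) :=
  ContinuousMap.continuous_of_continuous_uncurry _
    (show Continuous fun x : (ℝ × R3) × unitInterval =>
      (σ x.1.2)⁻¹ * σ ((1 - x.1.1 * x.2) • x.1.2) by fun_prop)

lemma var_kp {σ : R3 → S3} (h : Continuous σ) {K : ℝ≥0} {r : ℝ}
    (hK : LipschitzOnWith K σ (ball 0 r)) {s : R3} (hs : s ∈ ball (0 : R3) r) :
    eVariationOn (kp h (1, s)) univ ≤ ENNReal.ofReal (K * ‖s‖) := by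
  have hm : ∀ t ∈ Icc (0 : ℝ) 1, (1 - 1 * t) • s ∈ ball (0 : R3) r := fun t ht => by
    rw [mem_ball_zero_iff] at hs ⊢
    rw [norm_smul, one_mul, Real.norm_of_nonneg (by linarith [ht.2])]
    nlinarith [norm_nonneg s, ht.1]
  have h1 : LipschitzOnWith (K * ‖s‖₊) (fun t : ℝ => (σ s)⁻¹ * σ ((1 - 1 * t) • s)) (Icc 0 1) := by
    refine LipschitzOnWith.of_dist_le_mul fun a ha b hb => ?_
    refine (dist_mul_le _ _ _ _).trans ?_
    rw [dist_self, zero_add]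
    refine (hK.dist_le_mul _ (hm a ha) _ (hm b hb)).trans (le_of_eq ?_)
    rw [dist_eq_norm, ← sub_smul, norm_smul, dist_comm, dist_eq_norm]
    have : 1 - 1 * a - (1 - 1 * b) = b - a := by ring
    rw [this]
    push_cast
    ring
  have h2 := h1.comp_eVariationOn_le (g := fun t : unitInterval => (t : ℝ)) (s := univ)
    fun t _ => t.2
  have h3 := MonotoneOn.eVariationOn_eq (f := fun t : unitInterval => (t : ℝ)) (s := univ)
    (fun a _ b _ hab => hab) (a := 0) (b := 1) (mem_univ _) (mem_univ _)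
  have h4 : (univ : Set unitInterval) ∩ Icc 0 1 = univ := by
    rw [univ_inter]
    exact eq_univ_of_forall fun t => ⟨t.2.1, t.2.2⟩
  rw [h4] at h3
  refine h2.trans (le_of_eq ?_)
  rw [h3, ← coe_nnnorm, ← NNReal.coe_mul, ENNReal.ofReal_coe_nnreal]
  simp

/-- the initial parts of a path -/
def cn (x : ℝ × PS) : PS :=
  ⟨fun t => x.2 (projIcc 0 1 zero_le_one (x.1 * t)),
    x.2.continuous.comp (continuous_projIcc.comp (by fun_prop))⟩

lemma cn_apply (x : ℝ × PS) (t : unitInterval) :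
    cn x t = x.2 (projIcc 0 1 zero_le_one (x.1 * t)) := rfl

lemma continuous_cn : Continuous cn :=
  ContinuousMap.continuous_of_continuous_uncurry _
    (show Continuous fun x : (ℝ × PS) × unitInterval =>
      x.1.2 (projIcc 0 1 zero_le_one (x.1.1 * x.2)) from
      (continuous_snd.comp continuous_fst).eval (continuous_projIcc.comp (by fun_prop)))

lemma cn_start (x : ℝ × PS) : cn x 0 = x.2 0 := by
  simp [cn_apply]

lemma cn_one (w : PS) : cn (1, w) = w := by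
  ext1 t
  simp [cn_apply]

lemma cn_zero {w : PS} (hw : w 0 = 1) : cn (0, w) = 1 := by
  ext1 t
  simp [cn_apply, hw]

lemma var_cn {u : ℝ} (hu : u ∈ Icc (0 : ℝ) 1) (w : PS) :
    eVariationOn (cn (u, w)) univ + edist (cn (u, w) 1) (w 1) ≤ eVariationOn w univ := by
  let c : unitInterval := ⟨u, hu⟩
  have hc : cn (u, w) 1 = w c := by
    simp [cn_apply, c, projIcc_of_mem _ hu]
  have h1 : eVariationOn (cn (u, w)) univ ≤ eVariationOn w (Iic c) := by
    refine eVariationOn.comp_le_of_monotoneOn w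
      (fun t : unitInterval => projIcc 0 1 zero_le_one (u * t)) (t := univ) ?_ ?_
    · exact fun a _ b _ hab => monotone_projIcc _ (mul_le_mul_of_nonneg_left hab hu.1)
    · intro t _
      have : projIcc 0 1 zero_le_one u = c := projIcc_of_mem _ hu
      rw [mem_Iic, ← this]
      exact monotone_projIcc _ (mul_le_of_le_one_right hu.1 t.2.2)
  have h2 : edist (w c) (w 1) ≤ eVariationOn w (Ici c) :=
    eVariationOn.edist_le w (mem_Ici.2 le_rfl) (mem_Ici.2 c.2.2)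
  have h3 := eVariationOn.union w (isGreatest_Iic (a := c)) (isLeast_Ici (a := c))
  rw [Iic_union_Ici] at h3
  rw [hc, h3]
  exact add_le_add h1 h2

/-- the data of the path fibration near `p` and away from `p` -/
structure Pk (p : S3) (σ : R3 → S3) (ε : S3 → R3) (k : R3 → PS) (l : ℝ × S3 → PS)
    (U : Set S3) : Prop where
  cht : Cht p σ ε
  ck : Continuous k
  k0 : ∀ s, k s 0 = 1
  k1 : ∀ s, σ s * k s 1 = p
  cl : ContinuousOn l (univ ×ˢ {p}ᶜ)
  l0 : ∀ x, l x 0 = 1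
  lz : ∀ b, l (0, b) = 1
  lne : ∀ u b, b ≠ p → b * l (u, b) 1 ≠ p
  l1 : ∀ b, b ≠ p → b * l (1, b) 1 = -p
  lc : l (1, -p) = 1
  op : IsOpen U
  mem : p ∈ U
  one : 1 ∉ U
  neg : -p ∉ U
  var : ∀ b ∈ U, eVariationOn (k (ε b)) univ + 1 ≤ edist b (-p)

lemma exists_pk (p : S3) (hp : p ≠ 1) : ∃ σ ε k l U, Pk p σ ε k l U := by
  obtain ⟨σ, ε, h⟩ := exists_cht p
  obtain ⟨σ', ε', h'⟩ := exists_cht (-p)
  obtain ⟨K, t, ht, hK⟩ := h.lip
  obtain ⟨r, hr, hrt⟩ := Metric.mem_nhds_iff.1 ht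
  have hpp : p ≠ -p := ne_neg_of_mem_unit_sphere ℝ p
  have hε : ε p = 0 := by rw [← h.left 0, h.zero]
  have hε' : ε' (-p) = 0 := by rw [← h'.left 0, h'.zero]
  have hc : ContinuousAt ε p := h.cε.continuousAt (isOpen_compl_singleton.mem_nhds hpp)
  have h1 : ∀ᶠ b in 𝓝 p, ε b ∈ ball (0 : R3) r :=
    hc.preimage_mem_nhds (hε ▸ ball_mem_nhds _ hr)
  have h2 : ∀ᶠ b in 𝓝 p, (K : ℝ) * ‖ε b‖ + 1 < dist b (-p) := by
    refine ContinuousAt.eventually_lt (by fun_prop) (by fun_prop) ?_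
    rw [hε, dist_neg]
    simp
  have h3 : ∀ᶠ b in 𝓝 p, b ≠ 1 := isOpen_compl_singleton.mem_nhds hp
  have h4 : ∀ᶠ b in 𝓝 p, b ≠ -p := isOpen_compl_singleton.mem_nhds hpp
  obtain ⟨U, hU, hUo, hUp⟩ := _root_.mem_nhds_iff.1 (h1.and (h2.and (h3.and h4)))
  have hr' : ∀ b, b ≠ p → σ' (ε' b) = b := fun b hb => h'.right b (by rwa [neg_neg])
  refine ⟨σ, ε, fun s => kp h.cσ (1, s), fun x => kp h'.cσ (x.1, ε' x.2), U, h,
    (continuous_kp _).comp (by fun_prop), fun s => ?_, fun s => ?_, ?_, fun x => ?_, fun b => ?_,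
    fun u b hb => ?_, fun b hb => ?_, ?_, hUo, hUp, fun h => (hU h).2.2.1 rfl,
    fun h => (hU h).2.2.2 rfl, fun b hb => ?_⟩
  · simp [kp_apply]
  · simp [kp_apply, h.zero]
  · refine (continuous_kp _).comp_continuousOn (continuousOn_fst.prodMk ?_)
    exact h'.cε.comp continuousOn_snd fun x hx => by rw [neg_neg]; exact hx.2
  · simp [kp_apply]
  · ext1 t
    simp [kp_apply]
  · rw [kp_apply, hr' b hb, mul_inv_cancel_left]
    have := h'.ne ((1 - u * ((1 : unitInterval) : ℝ)) • ε' b)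
    rwa [neg_neg] at this
  · simp [kp_apply, hr' b hb, h'.zero]
  · ext1 t
    simp [kp_apply, hε']
  · refine (add_le_add_left (var_kp h.cσ (hK.mono hrt) (hU hb).1) 1).trans ?_
    rw [edist_dist, ← ENNReal.ofReal_one, ← ENNReal.ofReal_add (by positivity) zero_le_one]
    exact ENNReal.ofReal_le_ofReal (hU hb).2.1.le

end WangP

end Pool.Agent.MP_af6f1c_gt.Geo

end
end MrgPart2

-- ======== part 3: formerly Pool.Agent.MP_af6f1c_gt.geo.Wang
section MrgPart3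

/-! PROJECT GEO, row WANG: the Wang sequence of the path fibration over the three-sphere. -/

set_option linter.unusedSectionVars false

open Set Topology Metric
open scoped ENNReal

noncomputable section

namespace Pool.Agent.MP_af6f1c_gt.Geo

namespace WangP

variable {K : Type} [Field K]

/-- the threefold suspension of absolute cycles -/
structure Su {X : Type} [TopologicalSpace X]
    (c : ∀ n, Ch K n X →ₗ[K] Ch K (n + 3) (X × R3)) : Prop where
  zr : ∀ n (V : Set X), ∀ z ∈ Zr K n V ∅, c n z ∈ Zr K (n + 3) (V ×ˢ univ) (V ×ˢ sphere 0 1)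
  br : ∀ n (V : Set X), ∀ z ∈ Br K n V ∅, c n z ∈ Br K (n + 3) (V ×ˢ univ) (V ×ˢ {0}ᶜ)
  sur : ∀ n (V : Set X), ∀ w ∈ Zr K (n + 3) (V ×ˢ univ) (V ×ˢ {0}ᶜ), ∃ z ∈ Zr K n V ∅,
    w - c n z ∈ Br K (n + 3) (V ×ˢ univ) (V ×ˢ {0}ᶜ)
  inj : ∀ n (V : Set X), ∀ z ∈ Zr K n V ∅, c n z ∈ Br K (n + 3) (V ×ˢ univ) (V ×ˢ {0}ᶜ) →
    z ∈ Br K n V ∅
  low : ∀ j < 3, ∀ V : Set X, Zr K j (V ×ˢ (univ : Set R3)) (V ×ˢ {0}ᶜ) ≤
    Br K j (V ×ˢ univ) (V ×ˢ {0}ᶜ)

lemma exists_su (hS : SuspStmt K) (X : Type) [TopologicalSpace X] :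
    ∃ c : ∀ n, Ch K n X →ₗ[K] Ch K (n + 3) (X × R3), Su c := by
  obtain ⟨c, h1, h2, h3, h4⟩ := hS X 3
  have e : ∀ V : Set X, V ×ˢ (univ : Set R3) ∩ SO ∅ R3 = V ×ˢ {0}ᶜ := fun V => by
    ext x
    simp [SO]
  refine ⟨c, fun n V z hz => ?_, fun n V z hz => ?_, fun n V w hw => ?_, fun n V z hz hb => ?_,
    fun j hj V => ?_⟩
  · have := h1 n V ∅ (empty_subset _) z hz
    rw [empty_prod, empty_union] at this
    exact Zr_mono (prod_mono Subset.rfl (subset_univ _)) Subset.rfl this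
  · have := h2 n V ∅ (empty_subset _) z hz
    rwa [empty_prod, empty_union] at this
  · have := (h3 n V ∅ isOpen_empty).1
    rw [e, inter_empty] at this
    exact this w hw
  · have := (h3 n V ∅ isOpen_empty).2
    rw [e, inter_empty] at this
    exact this z hz hb
  · have := rk_zero.1 (h4 j hj V ∅ isOpen_empty)
    rwa [e] at this

variable {Y : Type} [TopologicalSpace Y]

variable (Y) in
/-- paths from `1` with end point in `B` -/
def Ev (B : Set S3) : Set (PS × Y) := {x | x.1 0 = 1 ∧ x.1 1 ∈ B}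

variable (Y) in
/-- paths with end point in `B` -/
def Eo (B : Set S3) : Set (PS × Y) := {x | x.1 1 ∈ B}

lemma isOpen_Eo {B : Set S3} (hB : IsOpen B) : IsOpen (Eo Y B) :=
  hB.preimage (show Continuous fun x : PS × Y => x.1 1 by fun_prop)

lemma Ev_sub (B : Set S3) : Ev Y B ⊆ Ev Y univ := fun _ hx => ⟨hx.1, trivial⟩

/-- from the product to the total space -/
def nu (k : R3 → PS) (b : (PS × Y) × R3) : PS × Y := (b.1.1 * (k b.2)⁻¹, b.1.2)

/-- from the total space to the product -/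
def mu (k : R3 → PS) (ε : S3 → R3) (x : PS × Y) : (PS × Y) × R3 :=
  ((x.1 * k (ε (x.1 1)), x.2), ε (x.1 1))

/-- the deformation of the part away from `p` to the fibre over `-p` -/
def ta (l : ℝ × S3 → PS) (x : ℝ × (PS × Y)) : PS × Y := (x.2.1 * l (x.1, x.2.1 1), x.2.2)

/-- the contraction of the paths -/
def co (x : ℝ × (PS × Y)) : PS × Y := (cn (x.1, x.2.1), x.2.2)

lemma continuous_co : Continuous (co : ℝ × (PS × Y) → PS × Y) :=
  (continuous_cn.comp (by fun_prop)).prodMk (by fun_prop)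

lemma cone (T : Tools K) {n : ℕ} {S S' : Set (PS × Y)} (hS : S ⊆ Ev Y univ)
    (h : MapsTo co (Icc 0 1 ×ˢ S) S') {z : Ch K n (PS × Y)} (hz : z ∈ Zr K n S ∅) :
    z - push K n (fun y : Y => ((1 : PS), y)) (push K n Prod.snd z) ∈ Br K n S' ∅ := by
  have h1 := T.hom _ _ co S ∅ S' ∅ n (empty_subset _) continuous_co.continuousOn h
    (by rw [prod_empty]; exact mapsTo_empty _ _) z hz
  rw [push_eq_self (S := S) (fun x _ => by simp [co, cn_one]) (Zr_le_In hz)] at h1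
  rw [push_push continuous_snd.continuousOn (Zr_le_In hz)]
  rwa [push_congr (g := fun x => ((1 : PS), x.2)) (S := S)
    (fun x hx => by simp [co, cn_zero (hS hx).1]) (Zr_le_In hz)] at h1

lemma co_maps : MapsTo (co : ℝ × (PS × Y) → PS × Y) (Icc 0 1 ×ˢ Ev Y univ) (Ev Y univ) :=
  fun x hx => ⟨(cn_start (x.1, x.2.1)).trans hx.2.1, trivial⟩

lemma cone_bounds (T : Tools K) {n : ℕ} {S S' : Set (PS × Y)} (hS : S ⊆ Ev Y univ)
    (h : MapsTo co (Icc 0 1 ×ˢ S) S') (h1 : ∀ y, ((1 : PS), y) ∈ S') {z : Ch K n (PS × Y)}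
    (hz : z ∈ Zr K n S ∅) (hb : push K n Prod.snd z ∈ Br K n (univ : Set Y) ∅) :
    z ∈ Br K n S' ∅ := by
  have h2 : push K n (fun y : Y => ((1 : PS), y)) (push K n Prod.snd z) ∈ Br K n S' ∅ :=
    push_Br (by fun_prop) (fun y _ => h1 y) (mapsTo_empty _ _) hb
  simpa using add_mem (cone T hS h hz) h2

lemma cycle_br (T : Tools K) {p : S3} (hp : p ≠ 1) {n : ℕ} {z : Ch K n (PS × Y)}
    (hz : z ∈ Zr K n (Ev Y univ) ∅) : z ∈ Br K n (Ev Y univ) (Ev Y {p}ᶜ) := by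
  have h1 := Br_mono Subset.rfl (empty_subset (Ev Y {p}ᶜ)) (cone T Subset.rfl co_maps hz)
  have h3 : MapsTo (fun y : Y => ((1 : PS), y)) univ (Ev Y {p}ᶜ) := fun y _ => ⟨rfl, hp.symm⟩
  have h2 : push K n (fun y : Y => ((1 : PS), y)) (push K n Prod.snd z) ∈
      Br K n (Ev Y univ) (Ev Y {p}ᶜ) := In_le_Br (push_mem h3 (mem_In_univ _))
  simpa using add_mem h1 h2

variable {p : S3} {σ : R3 → S3} {ε : S3 → R3} {k : R3 → PS} {l : ℝ × S3 → PS} {U : Set S3}

lemma ne_neg (p : S3) : p ≠ -p := ne_neg_of_mem_unit_sphere ℝ p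

lemma Pk.sig_ne (h : Pk p σ ε k l U) {s : R3} (hs : s ≠ 0) : σ s ≠ p := fun e =>
  hs (by rw [← h.cht.left s, e, ← h.cht.zero, h.cht.left])

lemma Pk.eps_ne (h : Pk p σ ε k l U) {b : S3} (hb : b ≠ -p) (hb' : b ≠ p) : ε b ≠ 0 := fun e =>
  hb' (by rw [← h.cht.right b hb, e, h.cht.zero])

lemma Pk.cnu (h : Pk p σ ε k l U) : Continuous (nu k : (PS × Y) × R3 → PS × Y) :=
  ((continuous_fst.comp continuous_fst).mul
    (continuous_inv_ps.comp (h.ck.comp continuous_snd))).prodMk (by fun_prop)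

lemma Pk.cmu (h : Pk p σ ε k l U) : ContinuousOn (mu k ε : PS × Y → _) (Eo Y {-p}ᶜ) := by
  have h1 : ContinuousOn (fun x : PS × Y => ε (x.1 1)) (Eo Y {-p}ᶜ) :=
    h.cht.cε.comp (by fun_prop) fun x hx => hx
  exact ((continuousOn_fst.mul (h.ck.comp_continuousOn h1)).prodMk continuousOn_snd).prodMk h1

lemma Pk.cta (h : Pk p σ ε k l U) :
    ContinuousOn (ta l : ℝ × (PS × Y) → _) (univ ×ˢ Ev Y {p}ᶜ) := by
  have h1 : ContinuousOn (fun x : ℝ × (PS × Y) => l (x.1, x.2.1 1)) (univ ×ˢ Ev Y {p}ᶜ) :=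
    h.cl.comp (by fun_prop) fun x hx => ⟨trivial, hx.2.2⟩
  exact (ContinuousOn.mul (by fun_prop) h1).prodMk (by fun_prop)

lemma Pk.ctau (h : Pk p σ ε k l U) :
    ContinuousOn (fun x : PS × Y => ta l (1, x)) (Ev Y {p}ᶜ) :=
  h.cta.comp (by fun_prop) fun x hx => ⟨trivial, hx⟩

lemma Pk.nu_one (h : Pk p σ ε k l U) {b : (PS × Y) × R3} (hb : b.1.1 ∈ Om p) :
    (nu k b).1 1 = σ b.2 := by
  simp [nu, hb.2, ← h.k1 b.2]

lemma Pk.nu_zero (h : Pk p σ ε k l U) {b : (PS × Y) × R3} (hb : b.1.1 ∈ Om p) :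
    (nu k b).1 0 = 1 := by
  simp [nu, hb.1, h.k0]

lemma nu_mu (x : PS × Y) : nu k (mu k ε x) = x := by
  simp [nu, mu]

lemma Pk.mu_nu (h : Pk p σ ε k l U) {b : (PS × Y) × R3} (hb : b.1.1 ∈ Om p) :
    mu k ε (nu k b) = b := by
  rw [mu, h.nu_one hb, h.cht.left]
  simp [nu]

lemma Pk.mu_mem (h : Pk p σ ε k l U) {x : PS × Y} (h0 : x.1 0 = 1) (h1 : x.1 1 ≠ -p) :
    (mu k ε x).1.1 ∈ Om p := by
  refine ⟨by simp [mu, h0, h.k0], ?_⟩
  have := h.k1 (ε (x.1 1))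
  rw [h.cht.right _ h1] at this
  exact this

lemma Pk.ta_maps (h : Pk p σ ε k l U) :
    MapsTo (ta l : ℝ × (PS × Y) → _) (Icc 0 1 ×ˢ Ev Y {p}ᶜ) (Ev Y {p}ᶜ) := fun x hx =>
  ⟨by simp [ta, hx.2.1, h.l0], h.lne x.1 _ hx.2.2⟩

lemma Pk.tau_maps (h : Pk p σ ε k l U) :
    MapsTo (fun x : PS × Y => ta l (1, x)) (Ev Y {p}ᶜ) (Om (-p) ×ˢ univ) := fun x hx =>
  ⟨⟨by simp [ta, hx.1, h.l0], h.l1 _ hx.2⟩, trivial⟩

lemma om_sub : Om (-p) ×ˢ (univ : Set Y) ⊆ Ev Y {p}ᶜ := fun _ hx =>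
  ⟨hx.1.1, fun e => ne_neg p (e.symm.trans hx.1.2)⟩

lemma Pk.nu_m1 (h : Pk p σ ε k l U) :
    MapsTo (nu k) ((Om p ×ˢ (univ : Set Y)) ×ˢ univ) (Ev Y univ ∩ Eo Y {-p}ᶜ) := fun b hb => by
  refine ⟨⟨h.nu_zero hb.1.1, trivial⟩, ?_⟩
  show (nu k b).1 1 ≠ -p
  rw [h.nu_one hb.1.1]
  exact h.cht.ne _

lemma Pk.nu_m2 (h : Pk p σ ε k l U) :
    MapsTo (nu k) ((Om p ×ˢ (univ : Set Y)) ×ˢ {0}ᶜ) (Ev Y {p}ᶜ ∩ Eo Y {-p}ᶜ) := fun b hb => by
  refine ⟨⟨h.nu_zero hb.1.1, ?_⟩, (h.nu_m1 ⟨hb.1, trivial⟩).2⟩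
  rw [h.nu_one hb.1.1]
  exact h.sig_ne hb.2

lemma Pk.nu_br (h : Pk p σ ε k l U) {m : ℕ} {V : Set (PS × Y)} (hV : V ⊆ Om p ×ˢ univ)
    {y : Ch K m ((PS × Y) × R3)} (hy : y ∈ Br K m (V ×ˢ univ) (V ×ˢ {0}ᶜ)) :
    push K m (nu k) y ∈ Br K m (Ev Y univ) (Ev Y {p}ᶜ) :=
  push_Br h.cnu.continuousOn
    ((h.nu_m1.mono_right inter_subset_left).mono_left (prod_mono hV Subset.rfl))
    ((h.nu_m2.mono_right inter_subset_left).mono_left (prod_mono hV Subset.rfl)) hy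

lemma Pk.nu_zr (h : Pk p σ ε k l U) {m : ℕ} {y : Ch K m ((PS × Y) × R3)}
    (hy : y ∈ Zr K m ((Om p ×ˢ univ) ×ˢ univ) ((Om p ×ˢ univ) ×ˢ {0}ᶜ)) :
    push K m (nu k) y ∈ Zr K m (Ev Y univ ∩ Eo Y {-p}ᶜ) (Ev Y {p}ᶜ ∩ Eo Y {-p}ᶜ) :=
  push_Zr h.cnu.continuousOn h.nu_m1 h.nu_m2 hy

/-- excision, surjective part -/
lemma Pk.exc_sur (h : Pk p σ ε k l U) (T : Tools K) {m : ℕ} {S V : Set (PS × Y)} {B : Set S3}
    (hS : S ⊆ Ev Y univ) (hB : IsOpen B) (hp : p ∈ B) (hn : -p ∉ B)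
    (hV : ∀ x ∈ S, x.1 1 ∈ B → (mu k ε x).1 ∈ V) {W : Ch K m (PS × Y)}
    (hW : W ∈ Zr K m S (S ∩ Eo Y {p}ᶜ)) :
    ∃ y ∈ Zr K m (V ×ˢ (univ : Set R3)) (V ×ˢ {0}ᶜ),
      W - push K m (nu k) y ∈ Br K m (Ev Y univ) (Ev Y {p}ᶜ) := by
  have hc : S ⊆ Eo Y B ∪ Eo Y {p}ᶜ := fun x _ => by
    by_cases e : x.1 1 = p
    · exact Or.inl (show x.1 1 ∈ B from e ▸ hp)
    · exact Or.inr e
  have hBn : ∀ x ∈ Eo Y B, x.1 1 ≠ -p := fun x hx e => hn (e ▸ hx)
  obtain ⟨W', h1, β, h2, rfl⟩ := Submodule.mem_sup.1 ((T.exc _ S (S ∩ Eo Y {p}ᶜ) (Eo Y B)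
    (Eo Y {p}ᶜ) m (isOpen_Eo hB) (isOpen_Eo isOpen_compl_singleton) hc Subset.rfl
    inter_subset_left).1 hW)
  have h3 : ContinuousOn (mu k ε) (S ∩ Eo Y B) := h.cmu.mono fun x hx => hBn x hx.2
  have h4 : MapsTo (mu k ε) (S ∩ Eo Y B) (V ×ˢ univ) := fun x hx => ⟨hV x hx.1 hx.2, trivial⟩
  have h5 : MapsTo (mu k ε) (S ∩ Eo Y {p}ᶜ ∩ Eo Y B) (V ×ˢ {0}ᶜ) := fun x hx =>
    ⟨hV x hx.1.1 hx.2, h.eps_ne (hBn x hx.2) hx.1.2⟩
  have h6 : S ∩ Eo Y {p}ᶜ ⊆ Ev Y {p}ᶜ := fun x hx => ⟨(hS hx.1).1, hx.2⟩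
  refine ⟨push K m (mu k ε) W', push_Zr h3 h4 h5 h1, ?_⟩
  rw [push_push h3 (Zr_le_In h1), push_eq_self (fun x _ => nu_mu x) (Zr_le_In h1),
    add_sub_cancel_left]
  exact Br_mono hS h6 h2

/-- excision, injective part -/
lemma Pk.exc_inj (h : Pk p σ ε k l U) (T : Tools K) {m : ℕ} {y : Ch K m ((PS × Y) × R3)}
    (hy : y ∈ Zr K m ((Om p ×ˢ univ) ×ˢ univ) ((Om p ×ˢ univ) ×ˢ {0}ᶜ))
    (hb : push K m (nu k) y ∈ Br K m (Ev Y univ) (Ev Y {p}ᶜ)) :
    y ∈ Br K m ((Om p ×ˢ univ) ×ˢ univ) ((Om p ×ˢ univ) ×ˢ {0}ᶜ) := by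
  have hc : Ev Y univ ⊆ Eo Y {-p}ᶜ ∪ Eo Y {p}ᶜ := fun x _ => by
    by_cases e : x.1 1 = p
    · exact Or.inl fun e' => ne_neg p (e.symm.trans e')
    · exact Or.inr e
  have h1 := (T.exc _ (Ev Y univ) (Ev Y {p}ᶜ) (Eo Y {-p}ᶜ) (Eo Y {p}ᶜ) m
    (isOpen_Eo isOpen_compl_singleton) (isOpen_Eo isOpen_compl_singleton) hc
    (fun x hx => ⟨hx.1.1, hx.2⟩) (Ev_sub _)).2 ⟨h.nu_zr hy, hb⟩
  have h2 := push_Br (S' := (Om p ×ˢ univ) ×ˢ univ) (A' := (Om p ×ˢ univ) ×ˢ {0}ᶜ)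
    (h.cmu.mono inter_subset_right) (fun x hx => ⟨⟨h.mu_mem hx.1.1 hx.2, trivial⟩, trivial⟩)
    (fun x hx => ⟨⟨h.mu_mem hx.1.1 hx.2, trivial⟩, h.eps_ne hx.2 hx.1.2⟩) h1
  rwa [push_push h.cnu.continuousOn (Zr_le_In hy),
    push_eq_self (fun b hb => h.mu_nu hb.1.1) (Zr_le_In hy)] at h2

variable (K) in
/-- the connecting map -/
def Dl (l : ℝ × S3 → PS) (m : ℕ) : Ch K (m + 1) (PS × Y) →ₗ[K] Ch K m (PS × Y) :=
  push K m (fun x => ta l (1, x)) ∘ₗ bd K m

lemma Pk.dl_br (h : Pk p σ ε k l U) {m : ℕ} {W : Ch K (m + 1) (PS × Y)}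
    (hW : W ∈ Br K (m + 1) (Ev Y univ) (Ev Y {p}ᶜ)) :
    Dl K l m W ∈ Br K m (Om (-p) ×ˢ univ) ∅ := by
  obtain ⟨w, -, h1⟩ := mem_Br.1 hW
  have h2 : bd K m W = bd K m (W - bd K (m + 1) w) := by rw [map_sub, bd_bd, sub_zero]
  rw [Dl, LinearMap.comp_apply, h2]
  exact push_Br h.ctau h.tau_maps (mapsTo_empty _ _) (bd_mem_Br h1)

lemma Pk.dl_eq (h : Pk p σ ε k l U) {m : ℕ} {W : Ch K (m + 1) (PS × Y)}
    (hW : bd K m W ∈ In K m (Om (-p) ×ˢ univ)) : Dl K l m W = bd K m W :=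
  push_eq_self (f := fun x => ta l (1, x)) (fun x hx => by simp [ta, hx.1.2, h.lc]) hW

lemma Pk.dl_inj (h : Pk p σ ε k l U) (hp : p ≠ 1) (T : Tools K) {m : ℕ}
    {W : Ch K (m + 1) (PS × Y)} (hW : W ∈ Zr K (m + 1) (Ev Y univ) (Ev Y {p}ᶜ))
    (hb : Dl K l m W ∈ Br K m (Om (-p) ×ˢ univ) ∅) :
    W ∈ Br K (m + 1) (Ev Y univ) (Ev Y {p}ᶜ) := by
  have h0 : bd K m W ∈ In K m (Ev Y {p}ᶜ) := hW.2
  have h1 := T.hom _ _ (ta l) (Ev Y {p}ᶜ) ∅ (Ev Y {p}ᶜ) ∅ m (empty_subset _)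
    (h.cta.mono (prod_mono (subset_univ _) Subset.rfl)) h.ta_maps
    (by rw [prod_empty]; exact mapsTo_empty _ _) _ (bd_mem_Zr h0)
  rw [push_eq_self (f := fun x => ta l (0, x)) (fun x _ => by simp [ta, h.lz]) h0] at h1
  have h2 := sub_mem (Br_mono om_sub Subset.rfl hb) h1
  rw [Dl, LinearMap.comp_apply, sub_sub_cancel] at h2
  obtain ⟨v, hv, e⟩ := mem_Br_empty.1 h2
  have h3 : W - v ∈ Zr K (m + 1) (Ev Y univ) ∅ :=
    mem_Zr_succ.2 ⟨sub_mem hW.1 (In_mono (Ev_sub _) hv), by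
      rw [map_sub, e, sub_self]; exact zero_mem _⟩
  simpa using add_mem (cycle_br T hp h3) (In_le_Br hv)

/-- the family of paths from `1` to `-1` -/
def ka (σ : R3 → S3) (k : R3 → PS) (l : ℝ × S3 → PS) (s : R3) : PS := (k s)⁻¹ * l (1, σ s)

variable {c : ∀ n, Ch K n (PS × Y) →ₗ[K] Ch K (n + 3) ((PS × Y) × R3)}

/-- the Wang map -/
def Tm (σ : R3 → S3) (k : R3 → PS) (l : ℝ × S3 → PS)
    (c : ∀ n, Ch K n (PS × Y) →ₗ[K] Ch K (n + 3) ((PS × Y) × R3)) (j : ℕ) :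
    Ch K j (PS × Y) →ₗ[K] Ch K (j + 2) (PS × Y) :=
  push K (j + 2) (fun b : (PS × Y) × R3 => (b.1.1 * ka σ k l b.2, b.1.2)) ∘ₗ
    (bd K (j + 2) ∘ₗ c j)

lemma sph_sub : sphere (0 : R3) 1 ⊆ {0}ᶜ := fun s hs e => by
  rw [mem_singleton_iff.1 e] at hs
  simp at hs

lemma Su.zr' (hc : Su c) {j : ℕ} {V : Set (PS × Y)} {z : Ch K j (PS × Y)}
    (hz : z ∈ Zr K j V ∅) : c j z ∈ Zr K (j + 3) (V ×ˢ univ) (V ×ˢ {0}ᶜ) :=
  Zr_mono Subset.rfl (prod_mono Subset.rfl sph_sub) (hc.zr j V z hz)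

lemma Pk.tm_eq (h : Pk p σ ε k l U) (hc : Su c) {j : ℕ} {z : Ch K j (PS × Y)}
    (hz : z ∈ Zr K j (Om p ×ˢ univ) ∅) :
    Tm σ k l c j z = Dl K l (j + 2) (push K (j + 3) (nu k) (c j z)) := by
  have h1 : bd K (j + 2) (c j z) ∈ In K (j + 2) ((Om p ×ˢ univ) ×ˢ {0}ᶜ) := (hc.zr' hz).2
  have h2 : EqOn (fun b : (PS × Y) × R3 => (b.1.1 * ka σ k l b.2, b.1.2))
      (fun b => ta l (1, nu k b)) ((Om p ×ˢ univ) ×ˢ {0}ᶜ) := fun b hb => by
    simp only [ta, h.nu_one hb.1.1]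
    simp [nu, ka, mul_assoc]
  rw [Dl, LinearMap.comp_apply, bd_push h.cnu.continuousOn (mem_In_univ _),
    push_push h.cnu.continuousOn h1, ← push_congr h2 h1]
  rfl

lemma Pk.cka (h : Pk p σ ε k l U) : ContinuousOn (ka σ k l) {0}ᶜ :=
  (continuous_inv_ps.comp h.ck).continuousOn.mul
    (h.cl.comp (continuous_const.prodMk h.cht.cσ).continuousOn fun _ hs => ⟨trivial, h.sig_ne hs⟩)

lemma Pk.tm_br (h : Pk p σ ε k l U) (hc : Su c) {j : ℕ} {z : Ch K j (PS × Y)}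
    (hz : z ∈ Br K j (Om p ×ˢ univ) ∅) :
    Tm σ k l c j z ∈ Br K (j + 2) (Om (-p) ×ˢ univ) ∅ := by
  rw [h.tm_eq hc (Br_le_Zr (empty_subset _) hz)]
  exact h.dl_br (h.nu_br Subset.rfl (hc.br j _ z hz))

lemma Pk.tm_inj (h : Pk p σ ε k l U) (hp : p ≠ 1) (T : Tools K) (hc : Su c) {j : ℕ}
    {z : Ch K j (PS × Y)} (hz : z ∈ Zr K j (Om p ×ˢ univ) ∅)
    (hb : Tm σ k l c j z ∈ Br K (j + 2) (Om (-p) ×ˢ univ) ∅) :
    z ∈ Br K j (Om p ×ˢ univ) ∅ := by
  rw [h.tm_eq hc hz] at hb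
  refine hc.inj j _ z hz (h.exc_inj T (hc.zr' hz) (h.dl_inj hp T ?_ hb))
  exact Zr_mono inter_subset_left inter_subset_left (h.nu_zr (hc.zr' hz))

lemma Pk.tm_snd (h : Pk p σ ε k l U) (hc : Su c) {j : ℕ} {z : Ch K j (PS × Y)}
    (hz : z ∈ Zr K j (Om p ×ˢ univ) ∅) :
    push K (j + 2) Prod.snd (Tm σ k l c j z) ∈ Br K (j + 2) (univ : Set Y) ∅ := by
  have h1 : bd K (j + 2) (c j z) ∈ In K (j + 2) ((Om p ×ˢ univ) ×ˢ {0}ᶜ) := (hc.zr' hz).2
  have h2 : ContinuousOn (fun b : (PS × Y) × R3 => (b.1.1 * ka σ k l b.2, b.1.2))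
      ((Om p ×ˢ univ) ×ˢ {0}ᶜ) :=
    (ContinuousOn.mul (by fun_prop) (h.cka.comp continuousOn_snd fun _ hb => hb.2)).prodMk
      (by fun_prop)
  rw [Tm, LinearMap.comp_apply, LinearMap.comp_apply, push_push h2 h1,
    ← bd_push (S := univ) (by fun_prop) (mem_In_univ _)]
  exact bd_mem_Br (mem_In_univ _)

lemma Pk.tm_onto (h : Pk p σ ε k l U) (T : Tools K) (hc : Su c) {j : ℕ}
    {S S' V : Set (PS × Y)} {B : Set S3} (hS : S ⊆ Om (-p) ×ˢ univ) (hS' : S' ⊆ Ev Y univ)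
    (hco : MapsTo co (Icc 0 1 ×ˢ S) S') (h1 : ∀ y, ((1 : PS), y) ∈ S') (hB : IsOpen B)
    (hp : p ∈ B) (hn : -p ∉ B) (hV : ∀ x ∈ S', x.1 1 ∈ B → (mu k ε x).1 ∈ V)
    (hV' : V ⊆ Om p ×ˢ univ) {u : Ch K (j + 2) (PS × Y)} (hu : u ∈ Zr K (j + 2) S ∅)
    (hb : push K (j + 2) Prod.snd u ∈ Br K (j + 2) (univ : Set Y) ∅) :
    ∃ z ∈ Zr K j V ∅, u - Tm σ k l c j z ∈ Br K (j + 2) (Om (-p) ×ˢ univ) ∅ := by
  obtain ⟨W, hW, rfl⟩ := mem_Br_empty.1
    (cone_bounds T ((hS.trans om_sub).trans (Ev_sub _)) hco h1 hu hb)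
  have h2 : bd K (j + 2) W ∈ In K (j + 2) (Om (-p) ×ˢ univ) := In_mono hS (Zr_le_In hu)
  obtain ⟨y, hy, h3⟩ := h.exc_sur T hS' hB hp hn hV (W := W) (mem_Zr_succ.2 ⟨hW,
    mem_In_inter (bd_mem hW) (In_mono (fun x hx => (om_sub hx).2) h2)⟩)
  obtain ⟨z, hz, h4⟩ := hc.sur j V y hy
  refine ⟨z, hz, ?_⟩
  have h5 := h.dl_br (add_mem h3 (h.nu_br hV' h4))
  rwa [map_sub (push K _ (nu k)), sub_add_sub_cancel, map_sub, h.dl_eq h2,
    ← h.tm_eq hc (Zr_mono hV' Subset.rfl hz)] at h5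

lemma Pk.level (h : Pk p σ ε k l U) (hp : p ≠ 1) (T : Tools K) (hc : Su c) {j : ℕ} (a : ℝ)
    {z : Ch K j (PS × Y)} (hz : z ∈ Zr K j (Om p ×ˢ univ) ∅)
    (hb : Tm σ k l c j z ∈
      Zr K (j + 2) (OmL (-p) a ×ˢ univ) ∅ ⊔ Br K (j + 2) (Om (-p) ×ˢ univ) ∅) :
    z ∈ Zr K j (OmL p (a - 1) ×ˢ univ) ∅ ⊔ Br K j (Om p ×ˢ univ) ∅ := by
  obtain ⟨u, hu, β, hβ, e⟩ := Submodule.mem_sup.1 hb
  have h1 : push K (j + 2) Prod.snd u ∈ Br K (j + 2) (univ : Set Y) ∅ := by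
    have := sub_mem (h.tm_snd hc hz)
      (push_Br continuous_snd.continuousOn (mapsTo_univ _ _) (mapsTo_empty _ _) hβ)
    rwa [← map_sub, ← e, add_sub_cancel_right] at this
  have hL : ∀ (q : S3) (b : ℝ), OmL q b ×ˢ (univ : Set Y) ⊆ Om q ×ˢ univ := fun q b =>
    prod_mono (fun _ hw => hw.1) Subset.rfl
  obtain ⟨z', hz', h2⟩ := h.tm_onto T hc (S := OmL (-p) a ×ˢ univ)
    (S' := {x | x.1 0 = 1 ∧
      (x.1 1 ≠ 1 → eVariationOn x.1 univ + edist (x.1 1) (-p) ≤ ENNReal.ofReal a)})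
    (V := OmL p (a - 1) ×ˢ univ) (hL _ _) (fun x hx => ⟨hx.1, trivial⟩)
    (fun x hx => ⟨(cn_start (x.1, x.2.1)).trans hx.2.1.1.1, fun _ => by
      have := var_cn hx.1 x.2.1
      rw [hx.2.1.1.2] at this
      exact this.trans hx.2.1.2⟩)
    (fun y => ⟨rfl, fun e => (e rfl).elim⟩) h.op h.mem h.neg
    (fun x hx hU => ⟨⟨h.mu_mem hx.1 fun e => h.neg (e ▸ hU), by
      have h3 := hx.2 fun e => h.one (e ▸ hU)
      rw [ENNReal.ofReal_sub _ zero_le_one, ENNReal.ofReal_one]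
      refine ENNReal.le_sub_of_add_le_right ENNReal.one_ne_top (le_trans ?_ h3)
      refine (add_le_add_left (var_mul _ _) 1).trans ?_
      rw [add_assoc]
      exact add_le_add_right (h.var _ hU) _⟩, trivial⟩) (hL _ _) hu h1
  have h4 : z - z' ∈ Br K j (Om p ×ˢ univ) ∅ := by
    refine h.tm_inj hp T hc (sub_mem hz (Zr_mono (hL _ _) Subset.rfl hz')) ?_
    rw [map_sub, ← e, add_sub_right_comm]
    exact add_mem h2 hβ
  exact Submodule.mem_sup.2 ⟨z', hz', z - z', h4, add_sub_cancel _ _⟩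

lemma co_om : MapsTo (co : ℝ × (PS × Y) → PS × Y) (Icc 0 1 ×ˢ Om (-p) ×ˢ univ) (Ev Y univ) :=
  co_maps.mono_left (prod_mono Subset.rfl (om_sub.trans (Ev_sub _)))

lemma snd_zr {j : ℕ} {S : Set (PS × Y)} {z : Ch K j (PS × Y)} (hz : z ∈ Zr K j S ∅) :
    push K j Prod.snd z ∈ Zr K j (univ : Set Y) ∅ :=
  push_Zr continuous_snd.continuousOn (mapsTo_univ _ _) (mapsTo_empty _ _) hz

lemma Pk.rank (h : Pk p σ ε k l U) (T : Tools K) (hc : Su c) {j r₁ r₂ : ℕ}
    (h1 : RH K j (Om p ×ˢ (univ : Set Y)) r₁) (h2 : RH K (j + 2) (univ : Set Y) r₂) :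
    RH K (j + 2) (Om (-p) ×ˢ (univ : Set Y)) (r₁ + r₂) := by
  rw [add_comm r₁]
  refine Rk.add (Q₁ := (Br K (j + 2) (univ : Set Y) ∅).comap (push K (j + 2) Prod.snd))
    (P₂ := (Zr K j (Om p ×ˢ univ) ∅).map (Tm σ k l c j))
    (Rk.of_inj h2 (push K (j + 2) Prod.snd) (fun z hz => Submodule.mem_sup_left (snd_zr hz))
      fun _ _ hz => hz) (fun u hu => ?_) (Rk.map h1 _ fun z _ hz => h.tm_br hc hz)
  obtain ⟨z, hz, h3⟩ := h.tm_onto T hc (V := Om p ×ˢ univ) Subset.rfl Subset.rfl co_om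
    (fun y => ⟨rfl, trivial⟩) (isOpen_compl_singleton (x := -p)) (ne_neg p) (fun e => e rfl)
    (fun x hx hB => ⟨h.mu_mem hx.1 hB, trivial⟩) Subset.rfl hu.1 hu.2
  exact Submodule.mem_sup.2 ⟨_, ⟨z, hz, rfl⟩, _, h3, add_sub_cancel _ _⟩

lemma Pk.lowr (h : Pk p σ ε k l U) (T : Tools K) (hc : Su c) {j r : ℕ} (hj : j ≤ 1)
    (h2 : RH K j (univ : Set Y) r) : RH K j (Om (-p) ×ˢ (univ : Set Y)) r := by
  refine Rk.of_inj h2 (push K j Prod.snd) (fun z hz => Submodule.mem_sup_left (snd_zr hz))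
    fun u hu hb => ?_
  obtain ⟨W, hW, rfl⟩ := mem_Br_empty.1
    (cone_bounds T (om_sub.trans (Ev_sub _)) co_om (fun y => ⟨rfl, trivial⟩) hu hb)
  have h1 : bd K j W ∈ In K j (Om (-p) ×ˢ univ) := Zr_le_In hu
  obtain ⟨y, hy, h3⟩ := h.exc_sur T (V := Om p ×ˢ univ) Subset.rfl
    (isOpen_compl_singleton (x := -p)) (ne_neg p) (fun e => e rfl)
    (fun x hx hB => ⟨h.mu_mem hx.1 hB, trivial⟩) (W := W) (mem_Zr_succ.2 ⟨hW,
    mem_In_inter (bd_mem hW) (In_mono (fun x hx => (om_sub hx).2) h1)⟩)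
  have h5 := h.dl_br (add_mem h3 (h.nu_br Subset.rfl (hc.low (j + 1) (by omega) _ hy)))
  rwa [sub_add_cancel, h.dl_eq h1] at h5

end WangP

open WangP in
theorem wang (K : Type) [Field K] (T : Tools K) (hS : SuspStmt K) : WangStmt K := by
  intro Y _ p hp _
  obtain ⟨σ, ε, k, l, U, h⟩ := exists_pk p hp
  obtain ⟨c, hc⟩ := exists_su hS (PS × Y)
  refine ⟨sphere 0 1, ka σ k l, fun j => bd K (j + 2) ∘ₗ c j, Tm σ k l c, isCompact_sphere _ _,
    h.cka.mono sph_sub, fun s hs => ⟨by simp [ka, h.k0, h.l0], ?_⟩,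
    fun j A _ z hz => ⟨bd_mem_Zr (hc.zr j A z hz).2, rfl⟩, fun j z _ hz => h.tm_br hc hz,
    fun j a z hz hb => h.level hp T hc a hz hb, fun j z hz => h.tm_snd hc hz,
    fun j r₁ r₂ h1 h2 => h.rank T hc h1 h2, fun j hj r h2 => h.lowr T hc hj h2⟩
  have h1 := h.l1 _ (h.sig_ne (sph_sub hs))
  have h2 : p * (k s 1)⁻¹ = σ s := by rw [mul_inv_eq_iff_eq_mul, h.k1]
  rw [← h1, ← h2, mul_assoc, h2]
  rfl

end Pool.Agent.MP_af6f1c_gt.Geo

end
end MrgPart3

-- marker of a merged file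
example : 731051 + 795707 = 731051 + 795707 := rfl
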