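import Pool.Agent.MP_af6f1c_gt.geo.Spec
import Pool.Agent.MP_af6f1c_gt.geo.Base
import Mathlib.LinearAlgebra.QuadraticForm.Basic
import Mathlib.Algebra.Ring.Periodic
import Pool.Agent.MP_af6f1c_gt.geo.Susp
import Pool.Agent.MP_af6f1c_gt.geo.Near
import Pool.Agent.MP_af6f1c_gt.geo.Count
import Pool.Agent.MP_af6f1c_gt.geo.Cube
import Pool.Agent.MP_af6f1c_gt.geo.Morse
import Pool.Agent.MP_af6f1c_gt.geo.Trans
import Pool.Agent.MP_af6f1c_gt.geo.Prism
import Pool.Agent.MP_af6f1c_gt.geo.Wb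
import Pool.Agent.MP_af6f1c_gt.geo.Wang
import Pool.Agent.MP_af6f1c_gt.geo.Spl

-- ======== part 0: formerly Pool.Agent.MP_af6f1c_gt.geo.Cvx
section MrgPart0

/-! PROJECT GEO, row CVX: strictly concave and strictly convex directions. -/

open Set Topology Metric Module Filter

noncomputable section

namespace Pool.Agent.MP_af6f1c_gt.Geo

namespace CvxP

variable {X E : Type} [TopologicalSpace X] [NormedAddCommGroup E] [NormedSpace ℝ E]
  {F : X × E → ℝ} {f : X → ℝ} {W : Set X} {δ : ℝ}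

omit [NormedSpace ℝ E] in
/-- a strict inequality on a compact fibre persists nearby -/
lemma tube {B C : Set E} (hF : ContinuousOn F (W ×ˢ B)) (hC : IsCompact C) (hCB : C ⊆ B) {x : X}
    (hx : x ∈ W) {g : X → ℝ} (hg : ContinuousWithinAt g W x) (h : ∀ e ∈ C, F (x, e) < g x) :
    ∀ᶠ y in 𝓝[W] x, ∀ e ∈ C, F (y, e) < g y := by
  rw [eventually_nhdsWithin_iff]
  have := hC.eventually_forall_of_forall_eventually (x₀ := x)
    (P := fun y e => (y, e) ∈ W ×ˢ B → F (y, e) < g y) fun e he => by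
      have h1 : ContinuousWithinAt F (W ×ˢ B) (x, e) := hF _ ⟨hx, hCB he⟩
      have h2 : ContinuousWithinAt (fun p : X × E => g p.1) (W ×ˢ B) (x, e) :=
        ContinuousWithinAt.comp (f := Prod.fst) (x := (x, e)) hg continuousWithinAt_fst
          fun p hp => hp.1
      exact eventually_nhdsWithin_iff.1 (Tendsto.eventually_lt h1 h2 (h e he))
  filter_upwards [this] with y hy hW e he using hy e he ⟨hW, hCB he⟩

/-- the point of maximum depends continuously on the parameter -/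
lemma argmax [FiniteDimensional ℝ E] (hF : ContinuousOn F (W ×ˢ closedBall 0 δ))
    (hc : ∀ x ∈ W, StrictConcaveOn ℝ (closedBall 0 δ) fun e => F (x, e))
    (hm : ∀ x ∈ W, IsGreatest ((fun e => F (x, e)) '' closedBall 0 δ) (f x)) :
    ∃ η : X → E, ContinuousOn η W ∧ ContinuousOn f W ∧ ∀ x ∈ W, η x ∈ closedBall 0 δ ∧
      F (x, η x) = f x ∧ ∀ e ∈ closedBall (0 : E) δ, e ≠ η x → F (x, e) < f x := by
  choose! η h1 h2 using fun x hx => (hm x hx).1
  have h3 : ∀ x ∈ W, ∀ e ∈ closedBall (0 : E) δ, F (x, e) ≤ f x := fun x hx e he =>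
    (hm x hx).2 ⟨e, he, rfl⟩
  have h4 : ∀ x ∈ W, ∀ e ∈ closedBall (0 : E) δ, e ≠ η x → F (x, e) < f x := fun x hx e he hne =>
    (h3 x hx e he).lt_of_ne fun h => hne ((hc x hx).eq_of_isMaxOn
      (fun e' he' => (h3 x hx e' he').trans_eq h.symm)
      (fun e' he' => (h3 x hx e' he').trans_eq (h2 x hx).symm) he (h1 x hx))
  have hη : ContinuousOn η W := fun x hx => by
    refine Metric.tendsto_nhds.2 fun ε hε => ?_
    have h5 := tube (C := closedBall 0 δ \ ball (η x) ε) hF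
      ((isCompact_closedBall _ _).diff isOpen_ball) sdiff_subset hx (g := fun y => F (y, η x))
      ((hF.comp (f := fun y => (y, η x)) (by fun_prop) fun y hy => ⟨hy, h1 x hx⟩) x hx)
      fun e he => (h4 x hx e he.1 fun h => he.2 (h ▸ mem_ball_self hε)).trans_eq (h2 x hx).symm
    filter_upwards [h5, self_mem_nhdsWithin] with y hy hW
    by_contra h6
    exact absurd ((h2 y hW).symm.trans_lt (hy _ ⟨h1 y hW, h6⟩)) (h3 y hW _ (h1 x hx)).not_gt
  refine ⟨η, hη, ?_, fun x hx => ⟨h1 x hx, h2 x hx, h4 x hx⟩⟩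
  exact (hF.comp (continuousOn_id.prodMk hη) fun y hy => ⟨hy, h1 y hy⟩).congr
    fun y hy => (h2 y hy).symm

/-- radial stretching into the ball of radius `d` -/
def str (d ε : ℝ) (v : E) : E := (d / max ε ‖v‖) • v

lemma str_cont (d : ℝ) {ε : ℝ} (hε : 0 < ε) : Continuous (str d ε : E → E) :=
  (continuous_const.div (by fun_prop) fun v => (lt_max_of_lt_left hε).ne').smul continuous_id

lemma norm_str {d ε : ℝ} (hd : 0 ≤ d) (hε : 0 < ε) (v : E) :
    ‖str d ε v‖ = d * (‖v‖ / max ε ‖v‖) := by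
  have := lt_max_of_lt_left (c := ‖v‖) hε
  rw [str, norm_smul, Real.norm_of_nonneg (by positivity)]
  ring

lemma norm_str_le {d ε : ℝ} (hd : 0 ≤ d) (hε : 0 < ε) (v : E) : ‖str d ε v‖ ≤ d := by
  rw [norm_str hd hε]
  exact mul_le_of_le_one_right hd ((div_le_one (lt_max_of_lt_left hε)).2 (le_max_right _ _))

lemma norm_str_eq {d ε : ℝ} (hd : 0 ≤ d) (hε : 0 < ε) {v : E} (hv : ε ≤ ‖v‖) :
    ‖str d ε v‖ = d := by
  rw [norm_str hd hε, max_eq_right hv, div_self (hε.trans_le hv).ne', mul_one]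

/-- moving away from the point of maximum lowers a concave function -/
lemma away {B : Set E} {φ : E → ℝ} (hφ : ConcaveOn ℝ B φ) {m v : E} (hm : m ∈ B)
    (hmax : ∀ e ∈ B, φ e ≤ φ m) {s : ℝ} (hs : 1 ≤ s) (hv : m + s • v ∈ B) :
    φ (m + s • v) ≤ φ (m + v) := by
  have h0 : 0 < s := by linarith
  have h1 : 0 ≤ 1 - s⁻¹ := sub_nonneg.2 (inv_le_one_of_one_le₀ hs)
  have h2 := hφ.2 hm hv h1 (inv_pos.2 h0).le (sub_add_cancel _ _)
  have h3 : (1 - s⁻¹) • m + s⁻¹ • (m + s • v) = m + v := by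
    rw [smul_add, smul_smul, inv_mul_cancel₀ h0.ne', one_smul, sub_smul, one_smul]
    abel
  rw [h3, smul_eq_mul, smul_eq_mul] at h2
  nlinarith [mul_le_mul_of_nonneg_left (hmax _ hv) h1]

/-- comparison with the suspended pair -/
lemma key {K : Type} [Field K] (T : Tools K) [FiniteDimensional ℝ E] {x₀ : X} (hW : W ∈ 𝓝 x₀)
    (hδ : 0 < δ) (hF : ContinuousOn F (W ×ˢ closedBall 0 δ))
    (hc : ∀ x ∈ W, StrictConcaveOn ℝ (closedBall 0 δ) fun e => F (x, e))
    (hm : ∀ x ∈ W, IsGreatest ((fun e => F (x, e)) '' closedBall 0 δ) (f x))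
    (h0 : f x₀ = F (x₀, 0)) {O : Set X} (hO : IsOpen O)
    (hO' : O = interior W ∩ {x | f x < f x₀}) {m r : ℕ}
    (h : ∀ U' ∈ 𝓝 x₀, ∃ U ∈ 𝓝 x₀, U ⊆ U' ∧ RO K m (SO O E) (U ×ˢ univ) (U' ×ˢ univ) r) :
    Lp K m {p | F p < f x₀} (x₀, 0) r := by
  intro V' hV'
  obtain ⟨η, hη, -, hη'⟩ := argmax hF hc hm
  have hx₀ := mem_of_mem_nhds hW
  have hη0 : η x₀ = 0 := by
    by_contra hne
    exact absurd ((hη' x₀ hx₀).2.2 0 (mem_closedBall_self hδ.le) (Ne.symm hne)) h0.le.not_gt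
  obtain ⟨U₁, hU₁, B, hB, hUB⟩ := mem_nhds_prod_iff.1 hV'
  obtain ⟨d, hd, hdB⟩ := Metric.nhds_basis_closedBall.mem_iff.1
    (inter_mem hB (closedBall_mem_nhds 0 hδ))
  have h1 : ∀ᶠ y in 𝓝 x₀, ∀ e ∈ closedBall (0 : E) δ \ ball 0 (d / 4), F (y, e) < f x₀ := by
    rw [← nhdsWithin_eq_nhds.2 hW]
    exact tube hF ((isCompact_closedBall _ _).diff isOpen_ball) sdiff_subset hx₀
      continuousWithinAt_const fun e he => (hη' x₀ hx₀).2.2 e he.1 fun h =>
        he.2 (by rw [h, hη0]; exact mem_ball_self (by positivity))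
  have h2 : ∀ᶠ y in 𝓝 x₀, ‖η y‖ < d / 4 := by
    have := (hη.continuousAt hW).norm.tendsto
    rw [hη0, norm_zero] at this
    exact this.eventually (gt_mem_nhds (by positivity))
  have h2' : ∀ᶠ y in 𝓝 x₀, y ∈ interior W ∧ y ∈ U₁ := inter_mem (interior_mem_nhds.2 hW) hU₁
  obtain ⟨U', hU', h3⟩ := eventually_iff_exists_mem.1 (h1.and (h2.and h2'))
  obtain ⟨U, hU, hUU', hR⟩ := h U' hU'
  have hW' : ∀ x ∈ U', x ∈ W := fun x hx => interior_subset (h3 x hx).2.2.1
  have hin : ∀ x ∈ U', ∀ v : E, ‖v‖ ≤ d / 2 →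
      (x, η x + v) ∈ V' ∧ η x + v ∈ closedBall (0 : E) δ := fun x hx v hv => by
    have h4 : η x + v ∈ closedBall (0 : E) d := by
      rw [mem_closedBall_zero_iff]
      linarith [norm_add_le (η x) v, (h3 x hx).2.1]
    exact ⟨hUB ⟨(h3 x hx).2.2.2, (hdB h4).1⟩, (hdB h4).2⟩
  have hle : ∀ x ∈ W, ∀ e ∈ closedBall (0 : E) δ, F (x, e) ≤ f x := fun x hx e he =>
    (hm x hx).2 ⟨e, he, rfl⟩
  have hη₁ : ContinuousOn (fun p : X × E => η p.1) (U' ×ˢ univ) :=
    hη.comp continuousOn_fst fun p hp => hW' _ hp.1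
  set V : Set (X × E) := U ×ˢ ball 0 (d / 4) with hV
  have hVU : V ⊆ U' ×ˢ univ := fun p hp => ⟨hUU' hp.1, trivial⟩
  have hψ : ContinuousOn (fun p : X × E => (p.1, p.2 - η p.1)) V :=
    continuousOn_fst.prodMk (continuousOn_snd.sub (hη₁.mono hVU))
  refine ⟨V, prod_mem_nhds hU (ball_mem_nhds _ (by positivity)), ?_⟩
  refine Rk.of_inj hR (push K m fun p : X × E => (p.1, p.2 - η p.1))
    (fun z hz => Submodule.mem_sup_left (push_Zr (S' := U ×ˢ univ) (A' := U ×ˢ univ ∩ SO O E) hψ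
      (fun p hp => ⟨hp.1, trivial⟩) (fun p hp => ⟨⟨hp.1.1, trivial⟩, ?_⟩) hz)) fun z hz hb => ?_
  · by_cases h4 : p.2 - η p.1 = 0
    · have h5 := hUU' hp.1.1
      refine Or.inl (hO' ▸ ⟨(h3 _ h5).2.2.1, ?_⟩)
      have h6 : F p < f x₀ := hp.2
      change f p.1 < f x₀
      rw [← (hη' _ (hW' _ h5)).2.1, ← sub_eq_zero.1 h4]
      exact h6
    · exact Or.inr h4
  obtain ⟨w, hw, h4⟩ := mem_Br.1 hb
  obtain ⟨C, hC, hCS, h5⟩ := exists_compact h4
  obtain ⟨ε₀, hε₀, h6⟩ := (hC.diff (hO.prod isOpen_univ)).exists_forall_le'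
    (f := fun p : X × E => ‖p.2‖) (by fun_prop) (a := 0) fun p hp =>
      norm_pos_iff.2 ((hCS hp.1).2.resolve_left fun h => hp.2 ⟨h, trivial⟩)
  obtain ⟨ε, hε, hεd, hε'⟩ : ∃ ε, 0 < ε ∧ ε ≤ d / 2 ∧ ε ≤ ε₀ :=
    ⟨min (d / 2) ε₀, lt_min (by positivity) hε₀, min_le_left _ _, min_le_right _ _⟩
  have hd2 : 0 ≤ d / 2 := by positivity
  have hσ : ContinuousOn (fun p : X × E => (p.1, η p.1 + str (d / 2) ε p.2)) (U' ×ˢ univ) :=
    continuousOn_fst.prodMk (hη₁.add ((str_cont _ hε).comp continuous_snd).continuousOn)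
  have h7 := push_Br (S' := V') (A' := V' ∩ {p | F p < f x₀}) hσ
    (fun p hp => (hin _ hp.1 _ (norm_str_le hd2 hε _)).1) (fun p hp => by
      have h8 := (hCS hp).1.1
      have h9 := hin _ h8 _ (norm_str_le hd2 hε p.2)
      refine ⟨h9.1, ?_⟩
      by_cases hp' : p.1 ∈ O
      · exact (hle _ (hW' _ h8) _ h9.2).trans_lt (hO' ▸ hp' :).2
      · refine (h3 _ h8).1 _ ⟨h9.2, fun h10 => ?_⟩
        have h11 := norm_str_eq hd2 hε (hε'.trans (h6 p ⟨hp, fun h => hp' h.1⟩))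
        have h12 := norm_sub_le (η p.1 + str (d / 2) ε p.2) (η p.1)
        rw [add_sub_cancel_left] at h12
        rw [mem_ball_zero_iff] at h10
        linarith [(h3 _ h8).2.1]) (mem_Br.2 ⟨w, hw, h5⟩)
  rw [push_push hψ (Zr_le_In hz)] at h7
  have hv : ∀ p ∈ V, ‖p.2 - η p.1‖ ≤ d / 2 := fun p hp => by
    have h8 := mem_ball_zero_iff.1 hp.2
    linarith [norm_sub_le p.2 (η p.1), (h3 _ (hUU' hp.1)).2.1]
  have hn : ∀ q ∈ Icc (0 : ℝ) 1 ×ˢ V,
      ‖(1 - q.1) • (q.2.2 - η q.2.1) + q.1 • str (d / 2) ε (q.2.2 - η q.2.1)‖ ≤ d / 2 :=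
    fun q hq => mem_closedBall_zero_iff.1 (convex_closedBall (0 : E) (d / 2)
      (mem_closedBall_zero_iff.2 (hv _ hq.2)) (mem_closedBall_zero_iff.2 (norm_str_le hd2 hε _))
      (sub_nonneg.2 hq.1.2) hq.1.1 (sub_add_cancel _ _))
  have hη₂ : ContinuousOn (fun q : ℝ × X × E => η q.2.1) (Icc 0 1 ×ˢ V) :=
    hη₁.comp continuousOn_snd fun q hq => hVU hq.2
  have h8 := T.hom (X × E) (X × E) (fun q => (q.2.1, η q.2.1 +
      ((1 - q.1) • (q.2.2 - η q.2.1) + q.1 • str (d / 2) ε (q.2.2 - η q.2.1))))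
    V (V ∩ {p | F p < f x₀}) V' (V' ∩ {p | F p < f x₀}) m inter_subset_left
    (ContinuousOn.prodMk (by fun_prop) (hη₂.add ((ContinuousOn.smul (by fun_prop)
      (ContinuousOn.sub (by fun_prop) hη₂)).add (ContinuousOn.smul (by fun_prop)
        ((str_cont _ hε).comp_continuousOn (ContinuousOn.sub (by fun_prop) hη₂))))))
    (fun q hq => (hin _ (hUU' hq.2.1) _ (hn q hq)).1) (fun q hq => by
      have h9 := hUU' hq.2.1.1
      have h10 := hin _ h9 _ (hn q ⟨hq.1, hq.2.1⟩)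
      refine ⟨h10.1, lt_of_le_of_lt (?_ : F _ ≤ F q.2) hq.2.2⟩
      have h11 := hη' _ (hW' _ h9)
      have h12 : 1 ≤ d / 2 / max ε ‖q.2.2 - η q.2.1‖ :=
        (one_le_div (lt_max_of_lt_left hε)).2 (max_le hεd (hv _ hq.2.1))
      have h13 := away (hc _ (hW' _ h9)).concaveOn h11.1
        (fun e he => (hle _ (hW' _ h9) e he).trans_eq h11.2.1.symm) (v := q.2.2 - η q.2.1)
        (s := 1 - q.1 + q.1 * (d / 2 / max ε ‖q.2.2 - η q.2.1‖)) (by nlinarith [hq.1.1])
        (by rw [add_smul, mul_smul]; exact h10.2)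
      rw [add_smul, mul_smul, add_sub_cancel] at h13
      exact h13) z hz
  simp only [sub_self, zero_smul, one_smul, zero_add, sub_zero, add_zero, add_sub_cancel,
    Prod.mk.eta, push_id] at h8
  simpa using sub_mem h7 h8

end CvxP

open CvxP

theorem conc (K : Type) [Field K] (T : Tools K) (h : SuspRkStmt K) : ConcStmt K := by
  intro X E _ _ _ _ F f x₀ W δ hW hδ hF hc hm h0
  obtain ⟨-, -, hf, -⟩ := argmax hF hc hm
  have hO : IsOpen (interior W ∩ {x | f x < f x₀}) :=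
    (hf.mono interior_subset).isOpen_inter_preimage isOpen_interior isOpen_Iio
  refine ⟨fun n r hn => key T hW hδ hF hc hm h0 hO rfl fun U' hU' => ?_,
    fun j hj => key T hW hδ hF hc hm h0 hO rfl fun U' hU' =>
      ⟨U', hU', Subset.rfl, (h X E _ U' U' hO Subset.rfl).2 j hj⟩⟩
  obtain ⟨U, hU, h1⟩ := hn.congr (O' := interior W ∩ {x | f x < f x₀}) (interior_mem_nhds.2 hW)
    (by rw [← inter_assoc, inter_self]) U' hU'
  exact ⟨U ∩ U', inter_mem hU hU', inter_subset_right, (h X E _ _ U' hO inter_subset_right).1 n r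
    (h1.mono inter_subset_left Subset.rfl le_rfl)⟩

theorem conv (K : Type) [Field K] (T : Tools K) : ConvStmt K := by
  intro X E _ _ _ _ F f x₀ W δ hW hδ hF hc hm h0
  obtain ⟨η, hη, hf, hη'⟩ := argmax (F := fun p => -F p) (f := fun x => -f x) hF.neg
    (fun x hx => (hc x hx).neg) fun x hx => by
      obtain ⟨⟨e, he, h1⟩, h2⟩ := hm x hx
      refine ⟨⟨e, he, congrArg Neg.neg h1⟩, ?_⟩
      rintro _ ⟨e', he', rfl⟩
      exact neg_le_neg (h2 ⟨e', he', rfl⟩)
  have hx₀ := mem_of_mem_nhds hW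
  have hη0 : η x₀ = 0 := by
    by_contra hne
    have := (hη' x₀ hx₀).2.2 0 (mem_closedBall_self hδ.le) (Ne.symm hne)
    linarith
  have hle : ∀ x ∈ W, ∀ e ∈ closedBall (0 : E) δ, f x ≤ F (x, e) := fun x hx e he =>
    (hm x hx).2 ⟨e, he, rfl⟩
  have hη₂ : ContinuousOn (fun q : ℝ × X × E => η q.2.1) (Icc 0 1 ×ˢ W ×ˢ closedBall 0 δ) :=
    hη.comp (by fun_prop) fun q hq => hq.2.1
  refine ⟨hf.neg.congr fun x _ => (neg_neg _).symm, fun n r => T.dom (X × E) X Prod.fst (fun x => (x, η x))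
    (fun q => (q.2.1, (1 - q.1) • q.2.2 + q.1 • η q.2.1)) (x₀, 0) x₀ _ (W ×ˢ closedBall 0 δ) _ W
    n r (prod_mem_nhds hW (closedBall_mem_nhds 0 hδ)) hW continuousOn_fst
    (continuousOn_id.prodMk hη) rfl (by rw [hη0])
    (fun p hp => (hle _ hp.1.1 _ hp.1.2).trans_lt hp.2)
    (fun x hx => (neg_injective (hη' x hx.1).2.1).trans_lt hx.2)
    (ContinuousOn.prodMk (by fun_prop) (ContinuousOn.add (by fun_prop)
      (ContinuousOn.smul (by fun_prop) hη₂))) (fun p _ => by simp) (fun p _ => by simp)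
    (fun u _ => by simp [hη0]) fun q hq => ?_⟩
  refine lt_of_le_of_lt (?_ : F _ ≤ F q.2) hq.2.2
  have h1 := hq.2.1.1
  have h2 := (hc _ h1).convexOn.2 hq.2.1.2 (hη' _ h1).1 (sub_nonneg.2 hq.1.2) hq.1.1
    (sub_add_cancel _ _)
  have h3 := neg_injective (hη' _ h1).2.1
  have h4 := mul_le_mul_of_nonneg_left (hle _ h1 _ hq.2.1.2) hq.1.1
  simp only [smul_eq_mul, h3, Prod.mk.eta] at h2 h4
  linarith

end Pool.Agent.MP_af6f1c_gt.Geo

end
end MrgPart0

-- ======== part 1: formerly Pool.Agent.MP_af6f1c_gt.geo.Dfm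
section MrgPart1

/-! PROJECT GEO, row DEF: deformation of cycles, homology of a point, domination. -/

open Set Topology Finsupp

noncomputable section

namespace Pool.Agent.MP_af6f1c_gt.Geo

open Pool.Agent.H80 (Sx face)

namespace DfmP

variable {K : Type} [Field K] {X : Type} [TopologicalSpace X]

/-- a chain in a point is a multiple of the constant simplex -/
lemma mem_span_const {n : ℕ} {x : X} {z : Ch K n X} (hz : z ∈ In K n ({x} : Set X)) :
    z ∈ Submodule.span K {single (ContinuousMap.const (Sx n) x) (1 : K)} := by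
  refine lin_mem (K := K) LinearMap.id (S := {σ : C(Sx n, X) | ∀ t, σ t ∈ ({x} : Set X)}) ?_ hz
  intro σ hσ
  have : σ = ContinuousMap.const (Sx n) x := by
    ext t
    exact hσ t
  subst this
  exact Submodule.mem_span_singleton_self _

lemma bd_const (n : ℕ) (x : X) :
    bd K n (single (ContinuousMap.const (Sx (n + 1)) x) 1) =
      (∑ i : Fin (n + 2), (-1 : K) ^ (i : ℕ)) • single (ContinuousMap.const (Sx n) x) 1 := by
  rw [bd_single, Finset.sum_smul]
  rfl

lemma alt_sum (n : ℕ) :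
    (∑ i : Fin n, (-1 : K) ^ (i : ℕ)) = if Even n then 0 else 1 := by
  rw [Fin.sum_univ_eq_sum_range (fun i => (-1 : K) ^ i) n]
  exact neg_one_geom_sum

lemma point_zero (x : X) : RH K 0 ({x} : Set X) 1 := by
  classical
  have h := rk_span (K := K) {single (ContinuousMap.const (Sx 0) x) (1 : K)}
    (Br K 0 ({x} : Set X) ∅)
  refine h.mono ?_ le_rfl (by simp)
  intro z hz
  simpa using mem_span_const (Zr_le_In hz)

lemma point_succ (x : X) (n : ℕ) : RH K (n + 1) ({x} : Set X) 0 := by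
  refine rk_zero.2 fun z hz => ?_
  obtain ⟨h1, h2⟩ := mem_Zr_succ.1 hz
  obtain ⟨a, rfl⟩ := Submodule.mem_span_singleton.1 (mem_span_const h1)
  rw [In_empty, Submodule.mem_bot, map_smul, bd_const, alt_sum] at h2
  by_cases he : Even (n + 2)
  · refine Submodule.smul_mem _ _ (mem_Br_empty.2 ⟨single (ContinuousMap.const _ x) 1,
      single_mem_In fun _ => rfl, ?_⟩)
    have : ¬ Even (n + 1 + 2) := by
      rw [show n + 1 + 2 = n + 2 + 1 by ring, Nat.even_add_one]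
      exact not_not.2 he
    rw [bd_const, alt_sum, if_neg this, one_smul]
  · rw [if_neg he, one_smul, smul_eq_zero] at h2
    rcases h2 with h2 | h2
    · rw [h2, zero_smul]
      exact zero_mem _
    · exact absurd (single_eq_zero.1 h2) one_ne_zero

end DfmP

open DfmP

theorem dfm (K : Type) [Field K] (hP : PrismStmt K) : DefStmt K := by
  intro X _ h S U V S' S'' n hU hV hS hc h0 hSS' hm hV'' hm'' h1 z hz
  obtain ⟨P, hP⟩ := hP X X h
  obtain ⟨hPm, hP0, hPs⟩ := hP (S ∩ U) hc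
  have hc' : ContinuousOn h (Icc 0 1 ×ˢ (S ∩ U ∩ V)) :=
    hc.mono (prod_mono le_rfl inter_subset_left)
  obtain ⟨hPm', -, -⟩ := hP (S ∩ U ∩ V) hc'
  obtain ⟨m, hm0⟩ := (small hU hV hS (Zr_le_In hz)).exists
  obtain ⟨z₂, hz₂, z₁, hz₁, e⟩ := Submodule.mem_sup.1 hm0
  have hzs : (Sd K n ^ m) z ∈ Zr K n S ∅ := Sd_pow_Zr hz m
  have hd : z - (Sd K n ^ m) z ∈ Br K n S' ∅ := Br_mono hSS' le_rfl (sub_Sd_pow_mem hz m)
  have hp0 : push K n (fun x => h (0, x)) z₂ = z₂ := push_eq_self h0 hz₂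
  have hp1 : push K n (fun x => h (1, x)) z₂ ∈ In K n S'' := push_mem h1 hz₂
  have hz₁' : z₁ ∈ In K n S'' := In_mono hV'' hz₁
  have hPz : bd K n (P n z₂) ∈ Br K n S' ∅ := bd_mem_Br (hPm n S' hm z₂ hz₂)
  rw [← e] at hzs hd
  cases n with
  | zero =>
    have e1 := hP0 z₂ hz₂
    rw [hp0] at e1
    have : z = (z₁ + push K 0 (fun x => h (1, x)) z₂) +
        ((z - (z₂ + z₁)) - bd K 0 (P 0 z₂)) := by
      rw [e1]; abel
    rw [this]
    exact Submodule.add_mem_sup (mem_Zr_zero.2 (add_mem hz₁' hp1)) (sub_mem hd hPz)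
  | succ n =>
    have e1 := hPs n z₂ hz₂
    rw [hp0] at e1
    have hb : bd K n z₂ + bd K n z₁ = 0 := by
      have := (mem_Zr_succ.1 hzs).2
      rwa [In_empty, Submodule.mem_bot, map_add] at this
    have hb2 : bd K n z₂ ∈ In K n (S ∩ U ∩ V) := by
      refine mem_In_inter (bd_mem hz₂) ?_
      rw [eq_neg_of_add_eq_zero_left hb]
      exact neg_mem (In_mono inter_subset_right (bd_mem hz₁))
    have hq : P n (bd K n z₂) ∈ In K (n + 1) S'' := hPm' n S'' hm'' _ hb2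
    have e2 : push K (n + 1) (fun x => h (1, x)) z₂ - P n (bd K n z₂) =
        z₂ + bd K (n + 1) (P (n + 1) z₂) := by
      rw [← sub_eq_zero, ← sub_eq_zero.2 e1.symm]; abel
    have : z = (z₁ + (push K (n + 1) (fun x => h (1, x)) z₂ - P n (bd K n z₂))) +
        ((z - (z₂ + z₁)) - bd K (n + 1) (P (n + 1) z₂)) := by
      rw [e2]; abel
    rw [this]
    refine Submodule.add_mem_sup (mem_Zr_succ.2 ⟨add_mem hz₁' (sub_mem hp1 hq), ?_⟩)
      (sub_mem hd hPz)
    rw [In_empty, Submodule.mem_bot, e2, map_add, map_add, bd_bd, add_zero, add_comm, hb]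

theorem pt (K : Type) [Field K] (hH : HomStmt K) : PtStmt K := by
  refine ⟨fun X _ x => ⟨point_zero x, point_succ x⟩, ?_⟩
  intro X Y _ _ f g h S A S' A' T B T' B' n r hAS _ hf hg hfS hfA hgT hgB hc h0 h1 hm hmA hr
  refine Rk.of_inj hr (push K n f)
    (fun z hz => Submodule.mem_sup_left (push_Zr hf hfS hfA hz)) fun z hz hb => ?_
  have hzS : z ∈ In K n S := Zr_le_In hz
  have e1 := push_Br hg hgT hgB hb
  rw [push_push hf hzS] at e1
  have e2 := hH X X h S A S' A' n hAS hc hm hmA z hz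
  rw [push_eq_self h0 hzS, push_congr (g := fun x => g (f x)) h1 hzS] at e2
  simpa using sub_mem e1 e2

theorem dom (K : Type) [Field K] (h : PtStmt K) : DomStmt K := by
  intro X Y _ _ f g k x₀ y₀ O W O' W' n r hW hW' hf hg hf0 hg0 hfO hgO hc h0 h1 hfix hkO hL V' hV'
  have hT' : W' ∩ g ⁻¹' V' ∈ 𝓝 y₀ :=
    Filter.inter_mem hW' ((hg.continuousAt hW').preimage_mem_nhds (hg0 ▸ hV'))
  obtain ⟨T, hT, hR⟩ := hL _ hT'
  have hfT : f ⁻¹' T ∈ 𝓝 x₀ := (hf.continuousAt hW).preimage_mem_nhds (hf0 ▸ hT)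
  have htube : ∀ᶠ x in 𝓝 x₀, ∀ u ∈ Icc (0 : ℝ) 1, u ∈ Icc (0 : ℝ) 1 → k (u, x) ∈ V' := by
    refine isCompact_Icc.eventually_forall_of_forall_eventually fun u hu => ?_
    have h2 : ContinuousWithinAt k (Icc 0 1 ×ˢ W) (u, x₀) :=
      hc _ ⟨hu, mem_of_mem_nhds hW⟩
    have h3 : ∀ᶠ p in 𝓝 (u, x₀), p ∈ Icc (0 : ℝ) 1 ×ˢ W → k p ∈ V' :=
      eventually_nhdsWithin_iff.1 (h2.preimage_mem_nhdsWithin (by rwa [hfix u hu]))
    have h4 : ∀ᶠ p : X × ℝ in 𝓝 (x₀, u), p.swap ∈ Icc (0 : ℝ) 1 ×ˢ W → k p.swap ∈ V' :=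
      (continuous_swap.tendsto (x₀, u)).eventually h3
    have h5 : ∀ᶠ p : X × ℝ in 𝓝 (x₀, u), p.1 ∈ W :=
      (continuous_fst.tendsto (x₀, u)).eventually hW
    filter_upwards [h4, h5] with p a b c using a ⟨c, b⟩
  refine ⟨W ∩ f ⁻¹' T ∩ {x | ∀ u ∈ Icc (0 : ℝ) 1, u ∈ Icc (0 : ℝ) 1 → k (u, x) ∈ V'},
    Filter.inter_mem (Filter.inter_mem hW hfT) htube, ?_⟩
  refine h.2 X Y f g k _ _ _ _ T (T ∩ O') (W' ∩ g ⁻¹' V') (W' ∩ g ⁻¹' V' ∩ O') n r
    inter_subset_left inter_subset_left (hf.mono fun x hx => hx.1.1) (hg.mono inter_subset_left)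
    (fun x hx => hx.1.2) (fun x hx => ⟨hx.1.1.2, hfO ⟨hx.1.1.1, hx.2⟩⟩) (fun y hy => hy.2)
    (fun y hy => ⟨hy.1.2, hgO ⟨hy.1.1, hy.2⟩⟩)
    (hc.mono (prod_mono le_rfl fun x hx => hx.1.1)) (fun x hx => h0 x hx.1.1)
    (fun x hx => h1 x hx.1.1) (fun p hp => hp.2.2 p.1 hp.1 hp.1)
    (fun p hp => ⟨hp.2.1.2 p.1 hp.1 hp.1, hkO ⟨hp.1, hp.2.1.1.1, hp.2.2⟩⟩) hR

end Pool.Agent.MP_af6f1c_gt.Geo

end
end MrgPart1

-- ======== part 2: formerly Pool.Agent.MP_af6f1c_gt.geo.Exc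
section MrgPart2

/-! PROJECT GEO, row EXC: excision, triples, Mayer-Vietoris, separated pieces. -/

open Set Topology Finsupp

noncomputable section

namespace Pool.Agent.MP_af6f1c_gt.Geo

open Pool.Agent.H80 (Sx face)

namespace ExcP

variable {K : Type} [Field K] {X : Type} [TopologicalSpace X]

/-- a relative cycle is homologous to a sum of two small chains -/
lemma split {n : ℕ} {S A U V : Set X} (hU : IsOpen U) (hV : IsOpen V) (hS : S ⊆ U ∪ V)
    {z : Ch K n X} (hz : z ∈ Zr K n S A) :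
    ∃ a ∈ In K n (S ∩ U), ∃ b ∈ In K n (S ∩ V), a + b ∈ Zr K n S A ∧
      z - (a + b) ∈ Br K n S A := by
  obtain ⟨m, hm⟩ := (small hU hV hS (Zr_le_In hz)).exists
  obtain ⟨a, ha, b, hb, e⟩ := Submodule.mem_sup.1 hm
  exact ⟨a, ha, b, hb, e ▸ Sd_pow_Zr hz m, e ▸ sub_Sd_pow_mem hz m⟩

/-- a chain in two disjoint open sets is a sum of chains in the two sets -/
lemma In_le_sup {n : ℕ} {S U V : Set X} (hU : IsOpen U) (hV : IsOpen V) (hd : Disjoint U V)
    (hS : S ⊆ U ∪ V) : In K n S ≤ In K n (S ∩ U) ⊔ In K n (S ∩ V) := by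
  intro z hz
  refine lin_mem LinearMap.id (fun σ hσ => ?_) hz
  have : PreconnectedSpace (Sx n) :=
    isPreconnected_iff_preconnectedSpace.1 (convex_stdSimplex ℝ _).isPreconnected
  rcases (isPreconnected_range σ.continuous).subset_or_subset hU hV hd (by
    rintro _ ⟨t, rfl⟩
    exact hS (hσ t)) with h | h
  · exact Submodule.mem_sup_left (single_mem_In fun t => ⟨hσ t, h ⟨t, rfl⟩⟩)
  · exact Submodule.mem_sup_right (single_mem_In fun t => ⟨hσ t, h ⟨t, rfl⟩⟩)

lemma mem_of_add {n : ℕ} {U V B : Set X} (hd : Disjoint U V) {a b : Ch K n X} (ha : a ∈ In K n U)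
    (hb : b ∈ In K n V) (h : a + b ∈ In K n B) : a ∈ In K n B := by
  have h1 : flt K n U b = 0 := by
    have := mem_In_inter (flt_mem U b) (flt_mem_of U hb)
    rwa [hd.inter_eq, In_empty, Submodule.mem_bot] at this
  have := flt_mem_of U h
  rwa [map_add, h1, add_zero, flt_eq ha] at this

end ExcP

open ExcP

theorem exc (K : Type) [Field K] : ExcStmt K := by
  intro X _ S A U V n hU hV hS hSV hA
  constructor
  · intro z hz
    obtain ⟨a, ha, b, hb, h1, h2⟩ := split hU hV hS hz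
    have hbA : b ∈ In K n A := In_mono hSV hb
    have h3 : a ∈ Zr K n S A := by
      have := sub_mem h1 (In_le_Zr hA hbA)
      rwa [add_sub_cancel_right] at this
    refine Submodule.mem_sup.2 ⟨a, Zr_mono Subset.rfl ?_ (mem_Zr_of_In h3 ha), z - (a + b) + b,
      add_mem h2 (In_le_Br hbA), by abel⟩
    exact fun x hx => ⟨hx.1, hx.2.2⟩
  · rintro z ⟨hz, hb⟩
    obtain ⟨w, hw, h1⟩ := mem_Br.1 hb
    obtain ⟨m, hm⟩ := (small hU hV hS hw).exists
    obtain ⟨w₁, hw₁, w₂, hw₂, e⟩ := Submodule.mem_sup.1 hm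
    have h2 : (Sd K n ^ m) z - bd K n w₁ ∈ In K n A := by
      have := add_mem (Sd_pow_mem h1 m) (bd_mem (In_mono hSV hw₂))
      rwa [map_sub, ← bd_Sd_pow, ← e, map_add, ← sub_sub, sub_add_cancel] at this
    have h3 : (Sd K n ^ m) z - bd K n w₁ ∈ In K n U :=
      In_mono inter_subset_right (sub_mem (Sd_pow_mem (Zr_le_In hz) m) (bd_mem hw₁))
    have := add_mem (sub_Sd_pow_mem hz m) (mem_Br.2 ⟨w₁, hw₁, mem_In_inter h2 h3⟩)
    rwa [sub_add_cancel] at this

theorem tri (K : Type) [Field K] : TriStmt K := by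
  intro X _ S A B S₁ A₁ B₁ S' A' n r₁ r₂ hAB hA hS h1 h2
  refine Rk.add (Rk.mono h1 (Zr_mono Subset.rfl hAB) le_rfl le_rfl) ?_ h2
  rintro z ⟨hz, hb⟩
  obtain ⟨w, hw, h3⟩ := mem_Br.1 hb
  refine Submodule.mem_sup.2 ⟨z - bd K n w, ?_, bd K n w, bd_mem_Br (In_mono hS hw), by simp⟩
  cases n with
  | zero => exact h3
  | succ n =>
    refine mem_Zr_succ.2 ⟨h3, ?_⟩
    rw [map_sub, bd_bd, sub_zero]
    exact In_mono hA hz.2

theorem disj (K : Type) [Field K] : DisjStmt K := by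
  intro X _ O S U₁ U₂ S' A' n r₁ r₂ h₁ h₂ hd hS k₁ k₂
  refine Rk.mono (Rk.sup k₁ k₂) (fun z hz => ?_) le_rfl le_rfl
  obtain ⟨a, ha, b, hb, rfl⟩ := Submodule.mem_sup.1 (In_le_sup h₁ h₂ hd hS (Zr_le_In hz))
  refine Submodule.add_mem_sup ?_ ?_
  · cases n with
    | zero => exact ha
    | succ n =>
      have h := In_mono inter_subset_right (mem_Zr_succ.1 hz).2
      rw [map_add] at h
      exact mem_Zr_succ.2 ⟨ha, mem_In_inter (bd_mem ha) (mem_of_add hd
        (bd_mem (In_mono inter_subset_right ha)) (bd_mem (In_mono inter_subset_right hb)) h)⟩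
  · cases n with
    | zero => exact hb
    | succ n =>
      have h := In_mono inter_subset_right (mem_Zr_succ.1 hz).2
      rw [map_add, add_comm (bd K n a)] at h
      exact mem_Zr_succ.2 ⟨hb, mem_In_inter (bd_mem hb) (mem_of_add hd.symm
        (bd_mem (In_mono inter_subset_right hb)) (bd_mem (In_mono inter_subset_right ha)) h)⟩

theorem mv (K : Type) [Field K] : MVStmt K := by
  intro X _ O S U₁ U₂ T T₁ T₂ S' n r₀ r₁ r₂ h₁ h₂ hS hS' hT₁ hT₂
  have hB : ∀ n, Br K n S (S ∩ O) ≤ Br K n S' (S' ∩ O) := fun n =>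
    Br_mono hS' (inter_subset_inter_left _ hS')
  refine ⟨fun k₁ k₂ => (Rk.sup k₁ k₂).of_le_sup fun z hz => ?_, fun g₁ g₂ k₀ k₁ k₂ => ?_⟩
  · obtain ⟨a, ha, b, hb, -, h⟩ := split h₁ h₂ hS hz
    exact Submodule.mem_sup.2 ⟨a + b, Submodule.add_mem_sup (In_mono hT₁ ha) (In_mono hT₂ hb),
      _, hB 0 h, by simp⟩
  let ψ : Ch K (n + 1) X × Ch K (n + 1) X →ₗ[K] Ch K (n + 1) X :=
    LinearMap.fst K _ _ + LinearMap.snd K _ _
  let φ : Ch K (n + 1) X × Ch K (n + 1) X →ₗ[K] Ch K n X :=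
    (LinearMap.id - flt K n O) ∘ₗ bd K n ∘ₗ LinearMap.fst K _ _
  let P : Submodule K (Ch K (n + 1) X × Ch K (n + 1) X) :=
    (In K (n + 1) (S ∩ U₁)).prod (In K (n + 1) (S ∩ U₂)) ⊓ (In K n O).comap (bd K n ∘ₗ ψ)
  have hφ : ∀ p, φ p = bd K n p.1 - flt K n O (bd K n p.1) := fun p => rfl
  have hψ : ∀ p, ψ p = p.1 + p.2 := fun p => rfl
  have hφ' : ∀ p ∈ P, φ p = flt K n O (bd K n p.2) - bd K n p.2 := by
    intro p hp
    have e := flt_eq (show bd K n (p.1 + p.2) ∈ In K n O from hp.2)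
    rw [map_add, map_add] at e
    rw [hφ, sub_eq_sub_iff_add_eq_add, ← e, add_comm]
  have s₀ : Rk P ((Br K n T (T ∩ O)).comap φ) r₀ := by
    refine Rk.of_inj k₀ φ (fun p hp => Submodule.mem_sup_left ?_) fun _ _ h => h
    have a₁ : bd K n p.1 ∈ In K n (S ∩ U₁) := bd_mem hp.1.1
    have a₂ : bd K n p.2 ∈ In K n U₂ := In_mono inter_subset_right (bd_mem hp.1.2)
    have a₃ : φ p ∈ In K n (S ∩ U₁ ∩ U₂) :=
      mem_In_inter (hφ p ▸ sub_mem a₁ (flt_mem_of O a₁))
        (hφ' p hp ▸ sub_mem (flt_mem_of O a₂) a₂)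
    cases n with
    | zero => exact a₃
    | succ n =>
      refine mem_Zr_succ.2 ⟨a₃, mem_In_inter (bd_mem a₃) ?_⟩
      rw [hφ, map_sub, bd_bd, zero_sub]
      exact neg_mem (bd_mem (flt_mem O _))
  have s₁ : Rk (P.map ψ) (Zr K (n + 1) T₁ (T₁ ∩ O) ⊔ Zr K (n + 1) T₂ (T₂ ∩ O)) r₀ := by
    refine s₀.map ψ fun p hp hq => ?_
    obtain ⟨w, hw, hu⟩ := mem_Br.1 hq
    have hu' := In_mono inter_subset_right hu
    have b₁ : p.1 - w ∈ In K (n + 1) T₁ := sub_mem (In_mono hT₁ hp.1.1) (In_mono g₁ hw)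
    have b₂ : p.2 + w ∈ In K (n + 1) T₂ := add_mem (In_mono hT₂ hp.1.2) (In_mono g₂ hw)
    refine Submodule.mem_sup.2 ⟨p.1 - w, mem_Zr_succ.2 ⟨b₁, mem_In_inter (bd_mem b₁) ?_⟩,
      p.2 + w, mem_Zr_succ.2 ⟨b₂, mem_In_inter (bd_mem b₂) ?_⟩, by rw [hψ]; abel⟩
    · have := add_mem hu' (flt_mem O (bd K n p.1))
      rw [hφ] at this
      rwa [map_sub, show bd K n p.1 - bd K n w =
        bd K n p.1 - flt K n O (bd K n p.1) - bd K n w + flt K n O (bd K n p.1) by abel]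
    · have := sub_mem (flt_mem O (bd K n p.2)) hu'
      rw [hφ' p hp] at this
      rwa [map_add, show bd K n p.2 + bd K n w = flt K n O (bd K n p.2) -
        (flt K n O (bd K n p.2) - bd K n p.2 - bd K n w) by abel]
  have s₂ := s₁.trans (Rk.sup k₁ k₂)
  rw [← add_assoc] at s₂
  refine s₂.of_le_sup fun z hz => ?_
  obtain ⟨a, ha, b, hb, h3, h⟩ := split h₁ h₂ hS hz
  exact Submodule.mem_sup.2 ⟨a + b, ⟨(a, b), ⟨⟨ha, hb⟩,
    In_mono inter_subset_right (mem_Zr_succ.1 h3).2⟩, rfl⟩, _, hB _ h, by simp⟩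

end Pool.Agent.MP_af6f1c_gt.Geo

end
end MrgPart2

-- ======== part 3: formerly Pool.Agent.MP_af6f1c_gt.geo.Idx2
section MrgPart3

/-! PROJECT GEO, row IDX2: finitely many types of null spaces. -/

open Set Module

noncomputable section

namespace Pool.Agent.MP_af6f1c_gt.Geo

namespace Idx2P

/-- value of a form on the span of an orthogonal family -/
theorem span_neg {V ι : Type} [AddCommGroup V] [Module ℝ V] [Fintype ι]
    (B : LinearMap.BilinForm ℝ V) (v : ι → V) (ho : ∀ i j, i ≠ j → B (v i) (v j) = 0)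
    (hn : ∀ i, B (v i) (v i) < 0) (x : V) (hx : x ∈ Submodule.span ℝ (range v)) (h0 : x ≠ 0) :
    B x x < 0 := by
  classical
  obtain ⟨c, rfl⟩ := (Submodule.mem_span_range_iff_exists_fun ℝ).1 hx
  have h1 : B (∑ i, c i • v i) (∑ i, c i • v i) = ∑ i, c i ^ 2 * B (v i) (v i) := by
    rw [map_sum B, LinearMap.sum_apply]
    refine Finset.sum_congr rfl fun i _ => ?_
    rw [map_sum, Finset.sum_eq_single i]
    · simp only [map_smul, LinearMap.smul_apply, smul_eq_mul]; ring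
    · intro j _ hj
      simp [ho i j hj.symm]
    · simp
  rw [h1]
  obtain ⟨i, hi⟩ : ∃ i, c i ≠ 0 := by
    by_contra h
    push Not at h
    exact h0 (by simp [h])
  have h2 : ∑ i, c i ^ 2 * B (v i) (v i) < ∑ _i : ι, (0 : ℝ) :=
    Finset.sum_lt_sum (fun j _ => mul_nonpos_of_nonneg_of_nonpos (sq_nonneg _) (hn j).le)
      ⟨i, Finset.mem_univ _, mul_neg_of_pos_of_neg (by positivity) (hn i)⟩
  simpa using h2

/-- a nondegenerate symmetric form splits into a negative and a positive part -/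
theorem split {V : Type} [AddCommGroup V] [Module ℝ V] [FiniteDimensional ℝ V]
    (B : LinearMap.BilinForm ℝ V) (hB : ∀ x y, B x y = B y x) (W : Submodule ℝ V)
    (hW : ∀ x ∈ W, (∀ y ∈ W, B x y = 0) → x = 0) :
    ∃ Nm Np : Submodule ℝ V, (∀ x ∈ Nm, x ≠ 0 → B x x < 0) ∧ (∀ x ∈ Np, x ≠ 0 → 0 < B x x) ∧
      Nm ⊔ Np = W := by
  classical
  have hs : (B.domRestrict₁₂ W W).IsSymm := ⟨fun x y => hB x.1 y.1⟩
  obtain ⟨b, hb⟩ := LinearMap.BilinForm.exists_orthogonal_basis hs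
  have ho : ∀ i j, i ≠ j → B (b i) (b j) = 0 := fun i j hij =>
    (LinearMap.isOrthoᵢ_def.1 hb) i j hij
  have hne : ∀ i, B (b i) (b i) ≠ 0 := by
    intro i hi
    have : (b i : V) = 0 := by
      refine hW _ (b i).2 fun y hy => ?_
      have hy' : (⟨y, hy⟩ : W) = ∑ j, b.repr ⟨y, hy⟩ j • b j := (b.sum_repr _).symm
      have hy'' : y = ∑ j, b.repr ⟨y, hy⟩ j • (b j : V) := by
        have := congrArg (fun z : W => (z : V)) hy'
        simpa only [Submodule.coe_sum, Submodule.coe_smul] using this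
      rw [hy'', map_sum]
      refine Finset.sum_eq_zero fun j _ => ?_
      by_cases hij : i = j
      · subst hij; simp [hi]
      · simp [ho i j hij]
    exact b.ne_zero i (Subtype.ext this)
  refine ⟨Submodule.span ℝ (range fun i : {i // B (b i) (b i) < 0} => (b i.1 : V)),
    Submodule.span ℝ (range fun i : {i // 0 < B (b i) (b i)} => (b i.1 : V)), ?_, ?_, ?_⟩
  · exact span_neg B _ (fun i j hij => ho _ _ fun h => hij (Subtype.ext h)) fun i => i.2
  · intro x hx h0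
    have := span_neg (-B) (fun i : {i // 0 < B (b i) (b i)} => (b i.1 : V))
      (fun i j hij => by simp [ho _ _ fun h => hij (Subtype.ext h)]) (fun i => by simpa using i.2)
      x hx h0
    simpa using this
  · apply le_antisymm
    · refine sup_le (Submodule.span_le.2 ?_) (Submodule.span_le.2 ?_) <;>
      · rintro _ ⟨i, rfl⟩
        exact (b i.1).2
    · intro y hy
      have hy' : (⟨y, hy⟩ : W) = ∑ j, b.repr ⟨y, hy⟩ j • b j := (b.sum_repr _).symm
      have hy'' : y = ∑ j, b.repr ⟨y, hy⟩ j • (b j : V) := by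
        have := congrArg (fun z : W => (z : V)) hy'
        simpa only [Submodule.coe_sum, Submodule.coe_smul] using this
      rw [hy'']
      refine Submodule.sum_mem _ fun j _ => Submodule.smul_mem _ _ ?_
      rcases lt_or_gt_of_ne (hne j) with h | h
      · exact Submodule.mem_sup_left (Submodule.subset_span ⟨⟨j, h⟩, rfl⟩)
      · exact Submodule.mem_sup_right (Submodule.subset_span ⟨⟨j, h⟩, rfl⟩)

variable {E : Type} [NormedAddCommGroup E] [NormedSpace ℝ E]

/-- the cyclic sum as a bilinear form -/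
def QB (H : ℕ → (E × E) →L[ℝ] (E × E) →L[ℝ] ℝ) (N : ℕ) [NeZero N] :
    LinearMap.BilinForm ℝ (ZMod N → E) :=
  LinearMap.mk₂ ℝ (QF H N)
    (fun a b c => by
      simp only [QF, Pi.add_apply, ← Prod.mk_add_mk, map_add, add_apply,
        Finset.sum_add_distrib])
    (fun r a c => by
      simp only [QF, Pi.smul_apply, ← Prod.smul_mk, map_smul, smul_apply,
        Finset.smul_sum])
    (fun a b c => by
      simp only [QF, Pi.add_apply, ← Prod.mk_add_mk, map_add, Finset.sum_add_distrib])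
    (fun r a c => by
      simp only [QF, Pi.smul_apply, ← Prod.smul_mk, map_smul, Finset.smul_sum])

theorem QB_apply (H : ℕ → (E × E) →L[ℝ] (E × E) →L[ℝ] ℝ) (N : ℕ) [NeZero N] (ξ η : ZMod N → E) :
    QB H N ξ η = QF H N ξ η := rfl

theorem per_mod {α : Type} {k : ℕ} {H : ℕ → α} (hp : ∀ j, H (j + k) = H j) {a b : ℕ}
    (h : a ≡ b [MOD k]) : H a = H b := by
  have hp' : Function.Periodic H k := hp
  rw [← hp'.map_mod_nat a, ← hp'.map_mod_nat b, h]

/-- the forms indexed by integers -/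
def Hz {α : Type} (k : ℕ) (H : ℕ → α) (i : ℤ) : α := H (i : ZMod k).val

theorem Hz_eq {α : Type} {k N : ℕ} [NeZero k] [NeZero N] {H : ℕ → α} (hp : ∀ j, H (j + k) = H j)
    (hk : k ∣ N) (i : ℤ) : H (i : ZMod N).val = Hz k H i := by
  refine per_mod hp ?_
  rw [← Int.natCast_modEq_iff, ZMod.val_intCast, ZMod.val_intCast]
  exact ((Int.mod_modEq i N).of_dvd (Int.natCast_dvd_natCast.2 hk)).trans
    (Int.mod_modEq i k).symm

/-- solutions of the discrete Jacobi equation -/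
def Sol (k : ℕ) (H : ℕ → (E × E) →L[ℝ] (E × E) →L[ℝ] ℝ) : Submodule ℝ (ℤ → E) where
  carrier := {x | ∀ i w, Hz k H i (x i, x (i + 1)) (0, w) +
    Hz k H (i + 1) (x (i + 1), x (i + 1 + 1)) (w, 0) = 0}
  add_mem' := fun {a b} ha hb i w => by
    have h1 := ha i w
    have h2 := hb i w
    simp only [Pi.add_apply, ← Prod.mk_add_mk, map_add, add_apply]
    linarith
  zero_mem' := fun i w => by
    have : ((0 : E), (0 : E)) = 0 := rfl
    simp [this]
  smul_mem' := fun c a ha i w => by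
    have h1 := ha i w
    simp only [Pi.smul_apply, ← Prod.smul_mk, map_smul, smul_apply,
      smul_eq_mul]
    rw [← mul_add, h1, mul_zero]

theorem sol_fin [FiniteDimensional ℝ E] (k : ℕ) (H : ℕ → (E × E) →L[ℝ] (E × E) →L[ℝ] ℝ)
    (hs : ∀ j a b, H j a b = H j b a) (ht : ∀ j, Tw (H j)) : FiniteDimensional ℝ (Sol k H) := by
  let f : Sol k H →ₗ[ℝ] E × E :=
    (LinearMap.prod (LinearMap.proj 0) (LinearMap.proj 1)).comp (Sol k H).subtype
  refine FiniteDimensional.of_injective f ?_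
  rw [← LinearMap.ker_eq_bot, Submodule.eq_bot_iff]
  intro x hx
  have h0 : x.1 0 = 0 ∧ x.1 (0 + 1) = 0 := by
    have := LinearMap.mem_ker.1 hx
    simpa [f, Prod.ext_iff] using this
  have z0 : ((0 : E), (0 : E)) = 0 := rfl
  have key : ∀ i : ℤ, x.1 i = 0 ∧ x.1 (i + 1) = 0 := by
    intro i
    induction i using Int.induction_on with
    | zero => exact h0
    | succ i ih =>
      refine ⟨ih.2, (ht ((i + 1 : ℤ) : ZMod k).val).2 _ fun u => ?_⟩
      have := x.2 i u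
      rw [ih.1, ih.2, z0, map_zero, zero_apply, zero_add, Hz, hs] at this
      exact this
    | pred i ih =>
      have e : (-(i : ℤ) - 1 + 1) = -i := by ring
      refine ⟨(ht ((-(i : ℤ) - 1 : ℤ) : ZMod k).val).1 _ fun u => ?_, by rw [e]; exact ih.1⟩
      have := x.2 (-(i : ℤ) - 1) u
      rw [e, ih.1, ih.2, z0, map_zero, zero_apply, add_zero, Hz] at this
      exact this
  exact Subtype.ext (funext fun i => (key i).1)

variable (E) in
/-- periodic sequences -/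
def Per (T : ℤ) : Submodule ℝ (ℤ → E) where
  carrier := {x | Function.Periodic x T}
  add_mem' := fun ha hb j => by simp [ha j, hb j]
  zero_mem' := fun _ => rfl
  smul_mem' := fun c _ ha j => by simp [ha j]

/-- in a finite dimensional space of sequences only finitely many periods occur -/
theorem exists_m0 (S : Submodule ℝ (ℤ → E)) [FiniteDimensional ℝ S] (k : ℕ) :
    ∃ m₀ : ℕ, 1 ≤ m₀ ∧ ∀ m : ℕ, 1 ≤ m → ∀ x ∈ S, Function.Periodic x ((k * m : ℕ) : ℤ) →
      Function.Periodic x ((k * Nat.gcd m m₀ : ℕ) : ℤ) := by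
  classical
  let V : ℕ → Submodule ℝ (ℤ → E) := fun m => S ⊓ Per E ((k * m : ℕ) : ℤ)
  have fin : ∀ m, FiniteDimensional ℝ (V m) := fun m =>
    Submodule.finiteDimensional_of_le (inf_le_left : V m ≤ S)
  have bd : ∀ m, finrank ℝ (V m) ≤ finrank ℝ S := fun m =>
    Submodule.finrank_mono (inf_le_left : V m ≤ S)
  have mono : ∀ a b : ℕ, V a ≤ V (a * b) := by
    intro a b x hx
    refine ⟨hx.1, ?_⟩
    have h : Function.Periodic x ((k * a : ℕ) : ℤ) := hx.2
    have := h.nat_mul b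
    have e : ((k * (a * b) : ℕ) : ℤ) = (b : ℤ) * ((k * a : ℕ) : ℤ) := by push_cast; ring
    show Function.Periodic x _
    rw [e]; exact this
  obtain ⟨m₁, hm₁⟩ : ∃ m₁ : ℕ, ∀ m : ℕ, finrank ℝ (V (m + 1)) ≤ finrank ℝ (V (m₁ + 1)) := by
    have hb : BddAbove (range fun m : ℕ => finrank ℝ (V (m + 1))) :=
      ⟨finrank ℝ S, by rintro _ ⟨m, rfl⟩; exact bd _⟩
    obtain ⟨m₁, h⟩ := Nat.sSup_mem (range_nonempty _) hb
    exact ⟨m₁, fun m => (le_csSup hb ⟨m, rfl⟩).trans h.ge⟩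
  refine ⟨m₁ + 1, by omega, fun m hm x hxS hx => ?_⟩
  have h1 : V (m₁ + 1) = V ((m₁ + 1) * m) := by
    have := fin ((m₁ + 1) * m)
    refine Submodule.eq_of_le_of_finrank_le (mono _ _) ?_
    obtain ⟨t, ht⟩ : ∃ t, (m₁ + 1) * m = t + 1 :=
      ⟨(m₁ + 1) * m - 1, by have : 0 < (m₁ + 1) * m := by positivity
                            omega⟩
    rw [ht]; exact hm₁ t
  have h2 : x ∈ V (m₁ + 1) := by
    rw [h1, mul_comm]
    exact mono m _ ⟨hxS, hx⟩
  have h3 : Function.Periodic x ((k * (m₁ + 1) : ℕ) : ℤ) := h2.2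
  have e : ((k * Nat.gcd m (m₁ + 1) : ℕ) : ℤ) =
      Nat.gcdA m (m₁ + 1) * ((k * m : ℕ) : ℤ) + Nat.gcdB m (m₁ + 1) * ((k * (m₁ + 1) : ℕ) : ℤ) := by
    rw [Nat.cast_mul, Nat.gcd_eq_gcd_ab]; push_cast; ring
  rw [e]
  exact (hx.int_mul _).add_period (h3.int_mul _)

/-- the null space consists of solutions of the Jacobi equation -/
theorem rad_sol {k N : ℕ} [NeZero k] [NeZero N] {H : ℕ → (E × E) →L[ℝ] (E × E) →L[ℝ] ℝ}
    (hp : ∀ j, H (j + k) = H j) (hk : k ∣ N) (ξ : ZMod N → E) (h : ∀ η, QF H N ξ η = 0) :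
    (fun i : ℤ => ξ (i : ZMod N)) ∈ Sol k H := by
  classical
  intro i w
  have h1 := h (Pi.single ((i : ZMod N) + 1) w)
  have e : ∀ j : ZMod N,
      ((Pi.single ((i : ZMod N) + 1) w : ZMod N → E) j,
        (Pi.single ((i : ZMod N) + 1) w : ZMod N → E) (j + 1)) =
      (if j = (i : ZMod N) then ((0 : E), w) else 0) +
        if j = (i : ZMod N) + 1 then (w, (0 : E)) else 0 := by
    intro j
    simp only [Pi.single_apply, add_left_inj]
    split_ifs <;> simp
  simp only [QF, e, map_add, Finset.sum_add_distrib] at h1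
  simp only [apply_ite (H _ _), map_zero, Finset.sum_ite_eq', Finset.mem_univ, if_true] at h1
  rw [← Hz_eq hp hk, ← Hz_eq hp hk]
  push_cast
  exact h1

/-- shift of a sequence -/
def sh {N : ℕ} (T : ZMod N) : (ZMod N → E) →ₗ[ℝ] (ZMod N → E) :=
  LinearMap.funLeft ℝ E fun j => j + T

theorem sh_apply {N : ℕ} (T : ZMod N) (ξ : ZMod N → E) (j : ZMod N) : sh T ξ j = ξ (j + T) := rfl

theorem QF_sh {k N : ℕ} [NeZero N] {H : ℕ → (E × E) →L[ℝ] (E × E) →L[ℝ] ℝ}
    (hp : ∀ j, H (j + k) = H j) (hk : k ∣ N) (T : ℕ) (hT : k ∣ T) (ξ η : ZMod N → E) :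
    QF H N (sh (T : ZMod N) ξ) (sh (T : ZMod N) η) = QF H N ξ η := by
  unfold QF
  refine Fintype.sum_equiv (Equiv.addRight (T : ZMod N)) _ _ fun j => ?_
  have e : H (j + (T : ZMod N)).val = H j.val := by
    refine per_mod hp ?_
    have h1 : (j + (T : ZMod N)).val ≡ j.val + T [MOD N] := by
      rw [← ZMod.natCast_eq_natCast_iff]; simp
    have h2 : j.val + T ≡ j.val + 0 [MOD k] :=
      Nat.ModEq.add_left _ (Nat.modEq_zero_iff_dvd.2 hT)
    exact (h1.of_dvd hk).trans h2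
  simp only [sh_apply, Equiv.coe_addRight, e, add_right_comm j 1]

/-- sum over the shifts by multiples of `T` -/
def av {N : ℕ} (r T : ℕ) : (ZMod N → E) →ₗ[ℝ] (ZMod N → E) :=
  ∑ l ∈ Finset.range r, sh ((l * T : ℕ) : ZMod N)

theorem av_apply {N : ℕ} (r T : ℕ) (ξ : ZMod N → E) (j : ZMod N) :
    av r T ξ j = ∑ l ∈ Finset.range r, ξ (j + (l * T : ℕ)) := by
  simp only [av, LinearMap.sum_apply, Finset.sum_apply, sh_apply]

theorem fx_sh {N T : ℕ} {ξ : ZMod N → E} (h : ξ ∈ Fx E N T) (l : ℕ) :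
    sh ((l * T : ℕ) : ZMod N) ξ = ξ := by
  funext j
  rw [sh_apply]
  induction l with
  | zero => simp
  | succ l ih =>
    have := h (j + (l * T : ℕ))
    rw [← ih, ← this]
    congr 1
    push_cast; ring

theorem av_fx {N T : ℕ} (r : ℕ) {ξ : ZMod N → E} (h : ξ ∈ Fx E N T) :
    av r T ξ = (r : ℝ) • ξ := by
  simp only [av, LinearMap.sum_apply, fx_sh h, Finset.sum_const, Finset.card_range]
  exact (Nat.cast_smul_eq_nsmul ℝ r ξ).symm

theorem av_mem {N T r : ℕ} (hN : N = r * T) (ξ : ZMod N → E) : av r T ξ ∈ Fx E N T := by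
  intro j
  rw [av_apply, av_apply]
  have h1 := Finset.sum_range_succ (fun l => ξ (j + (l * T : ℕ))) r
  have h2 := Finset.sum_range_succ' (fun l => ξ (j + (l * T : ℕ))) r
  have e : ((r * T : ℕ) : ZMod N) = 0 := by rw [← hN]; exact ZMod.natCast_self N
  rw [e] at h1
  simp only [zero_mul, Nat.cast_zero] at h2
  have h3 := add_right_cancel (h2.symm.trans h1)
  rw [← h3]
  refine Finset.sum_congr rfl fun l _ => ?_
  congr 1
  push_cast; ring

theorem compl {N T r : ℕ} (hN : N = r * T) (hr : r ≠ 0) :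
    IsCompl (Fx E N T) (LinearMap.ker (av r T : (ZMod N → E) →ₗ[ℝ] _)) := by
  have hr' : (r : ℝ) ≠ 0 := Nat.cast_ne_zero.2 hr
  constructor
  · rw [Submodule.disjoint_def]
    intro x hx hx'
    have := LinearMap.mem_ker.1 hx'
    rw [av_fx r hx] at this
    exact (smul_eq_zero.1 this).resolve_left hr'
  · rw [codisjoint_iff, eq_top_iff]
    intro x _
    have h1 : (r : ℝ)⁻¹ • av r T x ∈ Fx E N T := Submodule.smul_mem _ _ (av_mem hN x)
    refine Submodule.mem_sup.2 ⟨_, h1, x - (r : ℝ)⁻¹ • av r T x, ?_, by abel⟩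
    rw [LinearMap.mem_ker, map_sub, av_fx r h1, smul_smul, mul_inv_cancel₀ hr', one_smul, sub_self]

theorem orth {k N T r : ℕ} [NeZero N] {H : ℕ → (E × E) →L[ℝ] (E × E) →L[ℝ] ℝ}
    (hp : ∀ j, H (j + k) = H j) (hk : k ∣ N) (hT : k ∣ T) (hr : r ≠ 0) {ξ η : ZMod N → E}
    (hξ : av r T ξ = 0) (hη : η ∈ Fx E N T) : QB H N ξ η = 0 := by
  have hr' : (r : ℝ) ≠ 0 := Nat.cast_ne_zero.2 hr
  have h1 : QB H N (av r T ξ) η = r * QB H N ξ η := by
    simp only [av, LinearMap.sum_apply, map_sum]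
    rw [Finset.sum_congr rfl (g := fun _ => QB H N ξ η)]
    · simp
    · intro l _
      conv_lhs => rw [← fx_sh hη l]
      exact QF_sh hp hk _ (hT.mul_left l) ξ η
  rw [hξ, map_zero, LinearMap.zero_apply] at h1
  exact (mul_eq_zero.1 h1.symm).resolve_left hr'

end Idx2P

open Idx2P in
theorem types : TypeStmt := by
  intro n k H hk hp hs ht
  have : NeZero k := ⟨by omega⟩
  have := sol_fin k H hs ht
  obtain ⟨m₀, hm₀, hm⟩ := exists_m0 (Sol k H) k
  refine ⟨m₀, hm₀, fun m N _ hN => ⟨Nat.gcd m m₀, Nat.gcd_dvd_left _ _, Nat.gcd_dvd_right _ _, ?_⟩⟩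
  set d := Nat.gcd m m₀ with hd
  have hm1 : m ≠ 0 := by
    rintro rfl
    exact NeZero.ne N (by simpa using hN)
  have hdm : m / d * d = m := Nat.div_mul_cancel (Nat.gcd_dvd_left _ _)
  have hr : m / d ≠ 0 := by
    intro h
    rw [h] at hdm
    omega
  have hN' : N = m / d * (k * d) := by rw [hN, mul_left_comm, hdm]
  have hkN : k ∣ N := ⟨m, hN⟩
  have hc := compl (E := Eu n) hN' hr
  have hsym : ∀ x y, QB H N x y = QB H N y x := fun x y => by
    simp only [QB_apply, QF]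
    exact Finset.sum_congr rfl fun j _ => hs _ _ _
  obtain ⟨Nm, Np, h1, h2, h3⟩ := split (QB H N) hsym
    (LinearMap.ker (av (m / d) (k * d))) (by
      intro x hx hx'
      have hrad : ∀ η, QF H N x η = 0 := by
        intro η
        have hη : η ∈ Fx (Eu n) N (k * d) ⊔ LinearMap.ker (av (m / d) (k * d)) := by
          rw [hc.sup_eq_top]; trivial
        obtain ⟨a, ha, b, hb, rfl⟩ := Submodule.mem_sup.1 hη
        rw [← QB_apply, map_add, hx' b hb,
          orth hp hkN (Dvd.intro _ rfl) hr (LinearMap.mem_ker.1 hx) ha, add_zero]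
      have hper := hm m (by omega) _ (rad_sol hp hkN x hrad) (by
        intro i
        simp only [← hN, Int.cast_add, Int.cast_natCast, ZMod.natCast_self, add_zero])
      have hfx : x ∈ Fx (Eu n) N (k * d) := by
        intro j
        obtain ⟨i, rfl⟩ := ZMod.intCast_surjective j
        have := hper i
        simpa only [Int.cast_add, Int.cast_natCast] using this
      exact (Submodule.disjoint_def.1 hc.disjoint) x hfx hx)
  refine ⟨Nm, Np, h1, h2, by rw [h3]; exact hc, fun ξ hξ j => ?_⟩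
  rw [h3] at hξ
  rw [← av_apply, LinearMap.mem_ker.1 hξ]
  rfl

end Pool.Agent.MP_af6f1c_gt.Geo

end
end MrgPart3

-- ======== part 4: formerly Pool.Agent.MP_af6f1c_gt.geo.All
section MrgPart4

/-! PROJECT GEO: assembly of the rows. -/

namespace Pool.Agent.MP_af6f1c_gt.Geo

theorem tools (K : Type) [Field K] : Tools K :=
  ⟨prism K, hom K, exc K, tri K, mv K, disj K, dfm K (prism K), dom K (pt K (hom K)),
    pt K (hom K)⟩

theorem riemA : RiemStmt := riem chartMetric geod var distS localS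

theorem basics : Basics := ⟨loops, fun _ _ _ G N _ => bgs loops G N⟩

variable (K : Type) [Field K]

theorem suspA : SuspStmt K := susp K (tools K)

theorem suspRkA : SuspRkStmt K := suspRk K (tools K) (suspA K)

theorem cellA : CellStmt K := cell K (tools K) (suspRkA K)

theorem cubeA : CubeStmt K := cube K (tools K) (cellA K)

theorem wangA : WangStmt K := wang K (tools K) (suspA K)

theorem gromA : GromStmt K :=
  grom K basics (tools K) (cellA K) nerve coll (near K (tools K))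

theorem countA : CountStmt K :=
  have hB := basics
  have T := tools K
  have hc := conc K T (suspRkA K)
  have hv := conv K T
  have hch := chart K hB T
  have htr := trans K hB T
  have hci := circ K hB T (phase hB)
  count K prime (morse K hB T (samp K hB (near K T) T))
    (win K hch index (splitV K T hc hv (dimS K (cubeA K))) htr hci)
    (bnd K T hch types (splitB K T hc hv) htr hci (finl K hB (phase hB) (iso K T (cubeA K))))

theorem finalA : MainAStmt :=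
  mainA riemA segS arithA fun K _ =>
    ⟨near K (tools K), top K (tools K) (cellA K) nerve, gromA K, countA K, link K,
      low K basics (tools K) (wangA K)⟩

end Pool.Agent.MP_af6f1c_gt.Geo

end MrgPart4

-- marker of a merged file
example : 731051 + 547798 = 731051 + 547798 := rfl
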