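import Pool.Agent.MP_af6f1c_gt.geo.Spec
import Pool.Agent.MP_af6f1c_gt.geo.Base
import Mathlib.Analysis.SpecialFunctions.Trigonometric.Bounds
import Pool.Agent.MP_af6f1c_gt.geo.Wang
import Pool.Agent.MP_af6f1c_gt.geo.Morse

-- ======== part 0: formerly Pool.Agent.MP_af6f1c_gt.geo.Lev
section MrgPart0

/-! PROJECT GEO, row LEV: acting by a compact family of loops raises the level by a constant. -/

set_option linter.unusedSectionVars false

open Set Topology

noncomputable section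

namespace Pool.Agent.MP_af6f1c_gt.Geo

namespace LevP

variable {M : Type} [MetricSpace M]

open Classical in
/-- concatenation of two curves -/
def cat (γ δ : ℝ → M) (t : ℝ) : M := if t ≤ 1 / 2 then γ (2 * t) else δ (2 * t - 1)

theorem cat_le {γ δ : ℝ → M} {t : ℝ} (h : t ≤ 1 / 2) : cat γ δ t = γ (2 * t) := if_pos h

theorem cat_ge {γ δ : ℝ → M} (e : γ 1 = δ 0) {t : ℝ} (h : 1 / 2 ≤ t) :
    cat γ δ t = δ (2 * t - 1) := by
  rcases h.eq_or_lt with h | h
  · rw [cat_le h.ge, ← h]; norm_num [e]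
  · exact if_neg (not_le.2 h)

theorem cat_cont {X : Type} [TopologicalSpace X] {γ δ : X → ℝ → M} {S : Set X}
    (hγ : ContinuousOn (fun q : X × ℝ => γ q.1 q.2) (S ×ˢ univ))
    (hδ : ContinuousOn (fun q : X × ℝ => δ q.1 q.2) (S ×ˢ univ)) (e : ∀ x ∈ S, γ x 1 = δ x 0) :
    ContinuousOn (fun q : X × ℝ => cat (γ q.1) (δ q.1) q.2) (S ×ˢ univ) := by
  classical
  have h1 : ContinuousOn (fun q : X × ℝ => γ q.1 (2 * q.2)) (S ×ˢ univ) :=
    hγ.comp (f := fun q : X × ℝ => (q.1, 2 * q.2)) (by fun_prop) fun q hq => ⟨hq.1, trivial⟩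
  have h2 : ContinuousOn (fun q : X × ℝ => δ q.1 (2 * q.2 - 1)) (S ×ˢ univ) :=
    hδ.comp (f := fun q : X × ℝ => (q.1, 2 * q.2 - 1)) (by fun_prop) fun q hq => ⟨hq.1, trivial⟩
  unfold cat
  refine ContinuousOn.if (fun q hq => ?_) (h1.mono inter_subset_left) (h2.mono inter_subset_left)
  have h3 : q.2 = 1 / 2 :=
    frontier_le_subset_eq (f := fun q : X × ℝ => q.2) (g := fun _ => (1 / 2 : ℝ))
      continuous_snd continuous_const hq.2
  rw [h3]; norm_num [e q.1 hq.1.1]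

theorem len_cat {γ δ : ℝ → M} (e : γ 1 = δ 0) : len (cat γ δ) ≤ len γ + len δ := by
  unfold len
  have h := eVariationOn.Icc_add_Icc (cat γ δ) (s := univ) (a := (0 : ℝ)) (b := 1 / 2) (c := 1)
    (by norm_num) (by norm_num) trivial
  simp only [univ_inter] at h
  rw [← h]
  refine add_le_add ?_ ?_
  · rw [eVariationOn.eq_of_eqOn (f' := γ ∘ fun t => 2 * t) fun t ht => cat_le ht.2]
    refine eVariationOn.comp_le_of_monotoneOn γ _ (fun a _ b _ hab => by linarith) ?_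
    intro t ht
    exact ⟨by linarith [ht.1], by linarith [ht.2]⟩
  · rw [eVariationOn.eq_of_eqOn (f' := δ ∘ fun t => 2 * t - 1) fun t ht => cat_ge e ht.1]
    refine eVariationOn.comp_le_of_monotoneOn δ _ (fun a _ b _ hab => by linarith) ?_
    intro t ht
    exact ⟨by linarith [ht.1], by linarith [ht.2]⟩

/-- first reparametrisation -/
def ph (u t : ℝ) : ℝ := (1 - u) * t + u * min (2 * t) 1

/-- second reparametrisation -/
def ps (u t : ℝ) : ℝ := (1 - u) * t + u * max (2 * t - 1) 0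

theorem ps_mem {u t : ℝ} (hu : u ∈ Icc (0 : ℝ) 1) (ht : t ∈ Icc (0 : ℝ) 1) :
    ps u t ∈ Icc (0 : ℝ) 1 := by
  have h1 : 0 ≤ max (2 * t - 1) 0 := le_max_right _ _
  have h2 : max (2 * t - 1) 0 ≤ 1 := max_le (by linarith [ht.2]) zero_le_one
  obtain ⟨u0, u1⟩ := hu
  obtain ⟨t0, t1⟩ := ht
  unfold ps
  constructor <;> nlinarith

end LevP

open LevP in
theorem lev (K : Type) [Field K] (hB : Basics) (T : Tools K) (hN : NearStmt K) : LevStmt K := by
  intro n M Z _ _ _ G Q β hQ hβ hb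
  have L := hB.1 M
  have hρ : 0 < G.ρ := G.g0.pos
  let κ : M × Z → Lo M := fun p => mkL fun t => β (p.1, p.2, t)
  have hκ : ContinuousOn κ (univ ×ˢ Q) :=
    L.mk_cont (M × Z) (fun p t => β (p.1, p.2, t)) _
      (hβ.comp (f := fun q : (M × Z) × ℝ => (q.1.1, q.1.2, q.2)) (by fun_prop)
        fun q hq => ⟨trivial, hq.1.2, hq.2⟩)
      fun p hp => ((hb p.1 p.2 hp.2).1).trans (hb p.1 p.2 hp.2).2.symm
  have crvκ : ∀ x, ∀ s ∈ Q, ∀ t ∈ Icc (0 : ℝ) 1, crv (κ (x, s)) t = β (x, s, t) := fun x s hs =>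
    L.crv_mk _ (hβ.comp (f := fun t : ℝ => (x, s, t)) (by fun_prop) fun t ht => ⟨trivial, hs, ht⟩)
      ((hb x s hs).1.trans (hb x s hs).2.symm)
  obtain ⟨J₀, hJ⟩ := L.osc _ ((isCompact_univ.prod hQ).image_of_continuousOn hκ) (G.ρ / 2)
    (by positivity)
  obtain ⟨J, hJ0, hJ1⟩ : ∃ J : ℕ, J₀ ≤ J ∧ J ≠ 0 := ⟨J₀ + 1, by omega, by omega⟩
  have : NeZero J := ⟨hJ1⟩
  have B := hB.2 n M G J
  let v : Lo M × Z → ZMod J → M := fun b => smp J (crv (κ (crv b.1 0, b.2)))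
  have near : ∀ b : Lo M × Z, b.2 ∈ Q →
      v b ∈ G.Gd J ∧ dist (κ (crv b.1 0, b.2)) (G.toL (v b)) < G.ρ := fun b hb' =>
    B.near _ (hJ J hJ0 ⟨_, ⟨trivial, hb'⟩, rfl⟩)
  have c0 : Continuous fun b : Lo M × Z => crv b.1 0 :=
    L.crv_cont.comp (f := fun b : Lo M × Z => (b.1, (0 : ℝ))) (by fun_prop)
  have hκ' : ContinuousOn (fun b : Lo M × Z => κ (crv b.1 0, b.2)) (univ ×ˢ Q) :=
    hκ.comp (c0.prodMk continuous_snd).continuousOn fun b hb' => ⟨trivial, hb'.2⟩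
  have hv : ContinuousOn v (univ ×ˢ Q) := by
    refine continuousOn_pi.2 fun j => ?_
    exact L.crv_cont.comp_continuousOn
      (f := fun b : Lo M × Z => (κ (crv b.1 0, b.2), ((j.val : ℝ) / J)))
      (hκ'.prodMk continuousOn_const)
  have hbg : ContinuousOn (fun q : (Lo M × Z) × ℝ => G.bg (v q.1) q.2) ((univ ×ˢ Q) ×ˢ univ) :=
    B.cont.comp (f := fun q : (Lo M × Z) × ℝ => (v q.1, q.2))
      ((hv.comp continuousOn_fst fun q hq => hq.1).prodMk continuousOn_snd)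
      fun q hq => ⟨(near q.1 hq.1.2).1, trivial⟩
  have l10 : ∀ l : Lo M, crv l 1 = crv l 0 := fun l => by simpa using L.crv_per l 0
  have bg0 : ∀ b : Lo M × Z, b.2 ∈ Q → G.bg (v b) 0 = crv b.1 0 := by
    intro b hb'
    have h := B.vert _ (near b hb').1 0
    simp only [Int.cast_zero, zero_div] at h
    rw [h]
    show crv (κ (crv b.1 0, b.2)) _ = _
    simp only [ZMod.val_zero, Nat.cast_zero, zero_div]
    rw [crvκ _ _ hb' 0 ⟨le_rfl, zero_le_one⟩, (hb _ _ hb').1]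
  have e10 : ∀ b : Lo M × Z, b.2 ∈ Q → crv b.1 1 = G.bg (v b) 0 := fun b hb' => by
    rw [l10, bg0 b hb']
  have hcat : ContinuousOn (fun q : (Lo M × Z) × ℝ => cat (crv q.1.1) (G.bg (v q.1)) q.2)
      ((univ ×ˢ Q) ×ˢ univ) :=
    cat_cont (γ := fun b : Lo M × Z => crv b.1) (δ := fun b => G.bg (v b))
      (L.crv_cont.comp (f := fun q : (Lo M × Z) × ℝ => (q.1.1, q.2)) (by fun_prop)).continuousOn
      hbg fun b hb' => e10 b hb'.2
  have cat01 : ∀ b : Lo M × Z, b.2 ∈ Q →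
      cat (crv b.1) (G.bg (v b)) 0 = cat (crv b.1) (G.bg (v b)) 1 := by
    intro b hb'
    rw [cat_le (by norm_num), cat_ge (e10 b hb') (by norm_num)]
    have := B.per (v b) 0
    norm_num at this ⊢
    rw [this, bg0 b hb']
  let g : Lo M × Z → Lo M := fun b => mkL (cat (crv b.1) (G.bg (v b)))
  have hg : ContinuousOn g (univ ×ˢ Q) :=
    L.mk_cont (Lo M × Z) (fun b => cat (crv b.1) (G.bg (v b))) _
      (hcat.mono fun q hq => ⟨hq.1, trivial⟩) fun b hb' => cat01 b hb'.2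
  have crvg : ∀ b : Lo M × Z, b.2 ∈ Q → ∀ t ∈ Icc (0 : ℝ) 1,
      crv (g b) t = cat (crv b.1) (G.bg (v b)) t := fun b hb' =>
    L.crv_mk _ (hcat.comp (f := fun t : ℝ => (b, t)) (by fun_prop)
      fun t _ => ⟨⟨trivial, hb'⟩, trivial⟩) (cat01 b hb')
  let F : ℝ × (Lo M × Z) → ℝ → M := fun q t => β (crv q.2.1 (ph q.1 t), q.2.2, ps q.1 t)
  have hF : ContinuousOn (fun q : (ℝ × (Lo M × Z)) × ℝ => F q.1 q.2)
      ((Icc 0 1 ×ˢ univ ×ˢ Q) ×ˢ Icc 0 1) := by
    have c1 : Continuous fun q : (ℝ × (Lo M × Z)) × ℝ => crv q.1.2.1 (ph q.1.1 q.2) :=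
      L.crv_cont.comp (f := fun q : (ℝ × (Lo M × Z)) × ℝ => (q.1.2.1, ph q.1.1 q.2))
        (by unfold ph; fun_prop)
    refine hβ.comp (f := fun q : (ℝ × (Lo M × Z)) × ℝ =>
      (crv q.1.2.1 (ph q.1.1 q.2), q.1.2.2, ps q.1.1 q.2)) ?_ ?_
    · exact (c1.prodMk (by unfold ps; fun_prop)).continuousOn
    · exact fun q hq => ⟨trivial, hq.1.2.2, ps_mem hq.1.1 hq.2⟩
  have F01 : ∀ q : ℝ × (Lo M × Z), q.2.2 ∈ Q → F q 0 = F q 1 := by
    intro q hq
    have a1 : ph q.1 0 = 0 := by simp [ph]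
    have a2 : ps q.1 0 = 0 := by simp [ps]
    have a3 : ph q.1 1 = 1 := by norm_num [ph]
    have a4 : ps q.1 1 = 1 := by norm_num [ps]
    simp only [F, a1, a2, a3, a4, (hb _ _ hq).1, (hb _ _ hq).2, l10]
  let h : ℝ × (Lo M × Z) → Lo M := fun q => mkL (F q)
  have hh : ContinuousOn h (Icc 0 1 ×ˢ univ ×ˢ Q) := L.mk_cont _ F _ hF fun q hq => F01 q hq.2.2
  have crvh : ∀ b : Lo M × Z, b.2 ∈ Q → ∀ t ∈ Icc (0 : ℝ) 1, crv (h (1, b)) t = F (1, b) t :=
    fun b hb' => L.crv_mk _ (hF.comp (f := fun t : ℝ => (((1 : ℝ), b), t)) (by fun_prop)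
      fun t ht => ⟨⟨⟨zero_le_one, le_rfl⟩, trivial, hb'⟩, ht⟩) (F01 _ hb')
  have close : ∀ b : Lo M × Z, b.2 ∈ Q → dist (h (1, b)) (g b) < G.ρ := by
    intro b hb'
    refine L.dist_lt _ _ _ fun t ht => ?_
    rw [crvh b hb' t ht, crvg b hb' t ht]
    rcases le_total t (1 / 2) with h1 | h1
    · have a1 : ph 1 t = 2 * t := by
        rw [ph, min_eq_left (by linarith)]; ring
      have a2 : ps 1 t = 0 := by
        rw [ps, max_eq_right (by linarith)]; ring
      simp only [F, a1, a2, (hb _ _ hb').1, cat_le h1, dist_self, hρ]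
    · have a1 : ph 1 t = 1 := by
        rw [ph, min_eq_right (by linarith)]; ring
      have a2 : ps 1 t = 2 * t - 1 := by
        rw [ps, max_eq_left (by linarith)]; ring
      simp only [F, a1, a2, l10, cat_ge (e10 b hb') h1]
      rw [← crvκ _ _ hb' _ ⟨by linarith, by linarith [ht.2]⟩, ← B.crv_toL _ (near b hb').1]
      exact (ContinuousMap.dist_apply_le_dist _).trans_lt (near b hb').2
  have hJ' : (0 : ℝ) < J := Nat.cast_pos.2 (Nat.pos_of_ne_zero hJ1)
  refine ⟨J * G.ρ, by positivity, fun a j ha w hw => ?_⟩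
  have hsub : LL M a ×ˢ Q ⊆ univ ×ˢ Q := prod_mono (subset_univ _) Subset.rfl
  have hw' : w ∈ Zr K j (univ ×ˢ Q) ∅ := Zr_mono hsub Subset.rfl hw
  have z1 : push K j g w ∈ Zr K j (LL M (a + J * G.ρ)) ∅ := by
    refine push_Zr (hg.mono hsub) (fun b hb' => ?_) (mapsTo_empty _ _) hw
    have h1 : len (crv (g b)) = len (cat (crv b.1) (G.bg (v b))) :=
      eVariationOn.eq_of_eqOn fun t ht => crvg b hb'.2 t ht
    have h2 : ∑ i, dist (v b i) (v b (i + 1)) ≤ J * G.ρ := by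
      refine (Finset.sum_le_card_nsmul _ _ G.ρ fun i _ => ((near b hb'.2).1 i).le).trans ?_
      simp [ZMod.card]
    show len _ ≤ _
    rw [h1, ENNReal.ofReal_add ha (by positivity)]
    exact (len_cat (e10 b hb'.2)).trans (add_le_add hb'.1
      ((B.len_le _ (near b hb'.2).1).trans (ENNReal.ofReal_le_ofReal h2)))
  have hh1 : ContinuousOn (fun b => h (1, b)) (univ ×ˢ Q) :=
    hh.comp (f := fun b : Lo M × Z => ((1 : ℝ), b)) (by fun_prop)
      fun b hb' => ⟨⟨zero_le_one, le_rfl⟩, hb'⟩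
  have z2 := (hN n M G).1 _ _ g _ j hh1 hg (fun b hb' => close b hb'.2) w hw'
  have z3 := T.hom _ _ h (univ ×ˢ Q) ∅ univ ∅ j (empty_subset _) hh (mapsTo_univ _ _)
    (by simp) w hw'
  have e0 : (fun b : Lo M × Z => mkL fun t => β (crv b.1 t, b.2, t)) = fun b => h (0, b) := by
    funext b
    simp [h, F, ph, ps]
  rw [e0]
  have e1 : push K j (fun b => h (0, b)) w = push K j g w +
      ((push K j (fun b => h (1, b)) w - push K j g w) -
        (push K j (fun b => h (1, b)) w - push K j (fun b => h (0, b)) w)) := by abel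
  rw [e1]
  exact Submodule.add_mem_sup z1 (Submodule.sub_mem _ z2 z3)

end Pool.Agent.MP_af6f1c_gt.Geo

end
end MrgPart0

-- ======== part 1: formerly Pool.Agent.MP_af6f1c_gt.geo.Chain
section MrgPart1

/-! PROJECT GEO, row S3L: a chain of classes with controlled levels. -/

open Set Topology Metric

noncomputable section

namespace Pool.Agent.MP_af6f1c_gt.Geo

namespace ChainP

open UpP

/-- a Lipschitz path to a purely imaginary unit quaternion -/
lemma exists_lip (p : S3) : ∃ η : PS, (p : Quaternion ℝ).re = 0 →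
    η ∈ Om p ∧ ∀ s t, dist (η s) (η t) ≤ 4 * |(s : ℝ) - t| := by
  by_cases hp : (p : Quaternion ℝ).re = 0
  swap
  · exact ⟨1, fun h => (hp h).elim⟩
  have h1 : ‖(p : Quaternion ℝ)‖ = 1 := norm_eq_of_mem_sphere p
  have h2 : (p : Quaternion ℝ).imI ^ 2 + (p : Quaternion ℝ).imJ ^ 2 +
      (p : Quaternion ℝ).imK ^ 2 = 1 := by
    have := Quaternion.normSq_eq_norm_mul_self (p : Quaternion ℝ)
    rw [h1, Quaternion.normSq_def', hp] at this
    linarith
  let f : ℝ → Quaternion ℝ := fun t =>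
    Real.cos (Real.pi / 2 * t) • 1 + Real.sin (Real.pi / 2 * t) • (p : Quaternion ℝ)
  have hf : ∀ t, f t ∈ sphere (0 : Quaternion ℝ) 1 := fun t => by
    have := Quaternion.normSq_eq_norm_mul_self (f t)
    have e : Quaternion.normSq (f t) = 1 := by
      rw [Quaternion.normSq_def']
      simp only [f, Quaternion.re_add, Quaternion.re_smul, Quaternion.re_one, Quaternion.imI_add,
        Quaternion.imI_smul, Quaternion.imI_one, Quaternion.imJ_add, Quaternion.imJ_smul,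
        Quaternion.imJ_one, Quaternion.imK_add, Quaternion.imK_smul, Quaternion.imK_one, hp,
        smul_eq_mul]
      linear_combination Real.cos_sq_add_sin_sq (Real.pi / 2 * t) +
        Real.sin (Real.pi / 2 * t) ^ 2 * h2
    rw [mem_sphere_zero_iff_norm]
    nlinarith [norm_nonneg (f t)]
  refine ⟨⟨fun t => ⟨f t, hf t⟩, by fun_prop⟩, fun _ => ⟨⟨Subtype.ext ?_, Subtype.ext ?_⟩,
    fun s t => ?_⟩⟩
  · show f (0 : ℝ) = 1
    simp [f]
  · show f (1 : ℝ) = p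
    simp [f]
  · show dist (f s) (f t) ≤ _
    have e : f s - f t = (Real.cos (Real.pi / 2 * s) - Real.cos (Real.pi / 2 * t)) • 1 +
        (Real.sin (Real.pi / 2 * s) - Real.sin (Real.pi / 2 * t)) • (p : Quaternion ℝ) := by
      simp only [f, sub_smul]
      abel
    have e' : |Real.pi / 2 * s - Real.pi / 2 * t| ≤ 2 * |(s : ℝ) - t| := by
      rw [← mul_sub, abs_mul, abs_of_pos (by positivity)]
      exact mul_le_mul_of_nonneg_right (by linarith [Real.pi_le_four]) (abs_nonneg _)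
    rw [dist_eq_norm, e]
    refine (norm_add_le _ _).trans ?_
    rw [norm_smul, norm_smul, h1, norm_one, mul_one, mul_one, Real.norm_eq_abs, Real.norm_eq_abs]
    linarith [Real.abs_cos_sub_cos_le (Real.pi / 2 * s) (Real.pi / 2 * t),
      Real.abs_sin_sub_sin_le (Real.pi / 2 * s) (Real.pi / 2 * t)]

lemma dist_mul (q a b c d : S3) : dist (q * a * b) (q * c * d) ≤ dist a c + dist b d := by
  have n1 : ∀ x : S3, ‖(x : Quaternion ℝ)‖ = 1 := fun x => norm_eq_of_mem_sphere x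
  show dist ((q : Quaternion ℝ) * a * b) (q * c * d) ≤
    dist (a : Quaternion ℝ) c + dist (b : Quaternion ℝ) d
  rw [dist_eq_norm, dist_eq_norm, dist_eq_norm, show (q : Quaternion ℝ) * a * b - q * c * d =
    q * (a - c) * b + q * c * (b - d) by noncomm_ring]
  refine (norm_add_le _ _).trans ?_
  simp only [norm_mul, n1, one_mul, mul_one, le_refl]

lemma var_le {E M : Type} [MetricSpace E] [MetricSpace M] (f : unitInterval → E) (g : ℝ → M)
    {A B a : ℝ} (hA : 0 ≤ A) (hB : 0 ≤ B) (ha : 0 ≤ a)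
    (h : ∀ s t, dist (f s) (f t) ≤ A * dist (g s) (g t) + B * |(s : ℝ) - t|)
    (hg : len g ≤ ENNReal.ofReal a) : eVariationOn f univ ≤ ENNReal.ofReal (A * a + B) := by
  refine iSup_le fun ⟨n, u, hu, _⟩ => ?_
  have h1 : ∑ i ∈ Finset.range n, dist (g (u (i + 1))) (g (u i)) ≤ a := by
    have := (eVariationOn.sum_le (f := g) (s := Icc 0 1) (n := n) (u := fun i => (u i : ℝ))
      (fun i j hij => hu hij) fun i => (u i).2).trans hg
    simp only [edist_dist] at this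
    rwa [← ENNReal.ofReal_sum_of_nonneg fun _ _ => dist_nonneg,
      ENNReal.ofReal_le_ofReal_iff ha] at this
  have h2 : ∑ i ∈ Finset.range n, |(u (i + 1) : ℝ) - u i| ≤ 1 := by
    have : ∀ i : ℕ, |(u (i + 1) : ℝ) - u i| = u (i + 1) - u i := fun i =>
      abs_of_nonneg (sub_nonneg.2 (hu (Nat.le_succ i)))
    rw [Finset.sum_congr rfl fun i _ => this i, Finset.sum_range_sub fun i => (u i : ℝ)]
    linarith [(u n).2.2, (u 0).2.1]
  simp only [edist_dist]
  rw [← ENNReal.ofReal_sum_of_nonneg fun _ _ => dist_nonneg]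
  refine ENNReal.ofReal_le_ofReal ((Finset.sum_le_sum fun i _ => h _ _).trans ?_)
  rw [Finset.sum_add_distrib, ← Finset.mul_sum, ← Finset.mul_sum]
  nlinarith

lemma omL_empty' {p : S3} (hp : p ≠ 1) {a : ℝ} (ha : a ≤ 0) : OmL p a = ∅ := by
  rw [← omL_empty hp, OmL, OmL, ENNReal.ofReal_of_nonpos ha, ENNReal.ofReal_of_nonpos (by norm_num)]

variable {M N : Type} [MetricSpace M] [MetricSpace N] (h : M ≃ₜ S3 × N) {p : S3} {η : PS}

/-- from loops to paths that end at the end point of `η` -/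
def Φ (η : PS) (l : Lo M) : PS × S3 × Lo N := ((spl h l).1 * η, (spl h l).2)

/-- the inverse map -/
def Ψ (η : PS) (x : PS × S3 × Lo N) : Lo M := mkL (glc h (x.1 * η⁻¹, x.2))

lemma Φ_cont (η : PS) : Continuous (Φ h η) :=
  ((spl_cont h).fst.mul continuous_const).prodMk (spl_cont h).snd

lemma Φ_mem (hη : η ∈ Om p) (l : Lo M) : Φ h η l ∈ Om p ×ˢ (univ : Set (S3 × Lo N)) := by
  refine ⟨⟨?_, ?_⟩, trivial⟩
  · show (spl h l).1 0 * η 0 = 1
    rw [(spl_mem h l).1, hη.1, mul_one]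
  · show (spl h l).1 1 * η 1 = p
    rw [(spl_mem h l).2, hη.2, one_mul]

lemma div_mem (hη : η ∈ Om p) {w : PS} (hw : w ∈ Om p) : w * η⁻¹ ∈ Om 1 := by
  constructor
  · show w 0 * (η 0)⁻¹ = 1
    rw [hw.1, hη.1, mul_inv_cancel]
  · show w 1 * (η 1)⁻¹ = 1
    rw [hw.2, hη.2, mul_inv_cancel]

lemma Ψ_cont (hL : LoopStmt M) (hη : η ∈ Om p) :
    ContinuousOn (Ψ h η) (Om p ×ˢ (univ : Set (S3 × Lo N))) :=
  (gl_cont hL h).comp (f := fun x : PS × S3 × Lo N => (x.1 * η⁻¹, x.2)) (by fun_prop)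
    fun _ hx => ⟨div_mem hη hx.1, trivial⟩

lemma ΨΦ (hL : LoopStmt M) (l : Lo M) : Ψ h η (Φ h η l) = l := by
  unfold Ψ Φ
  simp only [mul_inv_cancel_right]
  exact gl_spl hL h l

lemma ΦΨ (hL : LoopStmt M) (hη : η ∈ Om p) {x : PS × S3 × Lo N} (hx : x.1 ∈ Om p) :
    Φ h η (Ψ h η x) = x := by
  unfold Ψ Φ
  rw [spl_gl hL h (div_mem hη hx)]
  simp only [inv_mul_cancel_right]

lemma Φ_len {lam a : ℝ} (hl : 0 < lam) (hd : ∀ x y, lam * dist (h x).1 (h y).1 ≤ dist x y)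
    (hη : η ∈ Om p) (hη' : ∀ s t, dist (η s) (η t) ≤ 4 * |(s : ℝ) - t|) (ha : 0 ≤ a) :
    MapsTo (Φ h η) (LL M a) (OmL p (lam⁻¹ * a + 4) ×ˢ univ) := fun l hl' => by
  refine ⟨⟨(Φ_mem h hη l).1, var_le _ (crv l) (by positivity) (by norm_num) ha
    (fun s t => (dist_mul _ _ _ _ _).trans (add_le_add ?_ (hη' s t))) hl'⟩, trivial⟩
  rw [le_inv_mul_iff₀ hl]
  exact hd _ _

variable {K : Type} [Field K]

/-- one step of the chain -/
lemma step (hL : LoopStmt M) (hW : WangStmt K) (hV : LevStmt K) {n : ℕ} [CompactSpace M]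
    (G : GS M n) (η : S3 → PS) (p : S3) :
    ∃ (T : ∀ j, Ch K j (PS × S3 × Lo N) →ₗ[K] Ch K (j + 2) (PS × S3 × Lo N)) (C : ℝ), 0 < C ∧
      (p ≠ 1 → -p ≠ 1 → η p ∈ Om p → η (-p) ∈ Om (-p) →
        ∀ j, ∀ z ∈ Zr K j (Om p ×ˢ (univ : Set (S3 × Lo N))) ∅,
        T j z ∈ Zr K (j + 2) (Om (-p) ×ˢ univ) ∅ ∧
        (∀ a : ℝ,
          T j z ∈ Zr K (j + 2) (OmL (-p) a ×ˢ univ) ∅ ⊔ Br K (j + 2) (Om (-p) ×ˢ univ) ∅ →
          z ∈ Zr K j (OmL p (a - 1) ×ˢ univ) ∅ ⊔ Br K j (Om p ×ˢ univ) ∅) ∧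
        ∀ a : ℝ, 0 ≤ a → push K j (Ψ h (η p)) z ∈ Fil M K j a →
          push K (j + 2) (Ψ h (η (-p))) (T j z) ∈ Fil M K (j + 2) (a + C)) := by
  by_cases H : p ≠ 1 ∧ -p ≠ 1 ∧ η p ∈ Om p ∧ η (-p) ∈ Om (-p)
  swap
  · exact ⟨fun _ => 0, 1, one_pos, fun h1 h2 h3 h4 => (H ⟨h1, h2, h3, h4⟩).elim⟩
  obtain ⟨hp, hp', e1, e2⟩ := H
  obtain ⟨Q, κ, c, T, hQ, hκ, hκ', h1, h2, h3, -⟩ := hW (S3 × Lo N) p hp hp'
  let ν : (Fin 3 → ℝ) → PS := fun s => η p * κ s * (η (-p))⁻¹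
  have hν : ContinuousOn ν Q := (continuousOn_const.mul hκ).mul continuousOn_const
  have hpr := continuous_projIcc (α := ℝ) (a := 0) (b := 1) (h := zero_le_one)
  obtain ⟨C, hC, h4⟩ := hV n M (Fin 3 → ℝ) G Q
    (fun b => h.symm ((h b.1).1 * ν b.2.1 (projIcc 0 1 zero_le_one b.2.2), (h b.1).2)) hQ
    (by
      have : ContinuousOn (fun b : M × (Fin 3 → ℝ) × ℝ => ν b.2.1) (univ ×ˢ Q ×ˢ Icc 0 1) :=
        hν.comp (by fun_prop) fun b hb => hb.2.1
      have : ContinuousOn (fun b : M × (Fin 3 → ℝ) × ℝ => ν b.2.1 (projIcc 0 1 zero_le_one b.2.2))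
          (univ ×ˢ Q ×ˢ Icc 0 1) := this.eval (by fun_prop)
      exact h.symm.continuous.comp_continuousOn
        ((ContinuousOn.mul (by fun_prop) this).prodMk (by fun_prop)))
    (fun x s hs => by
      have a0 : ν s 0 = 1 := by
        show η p 0 * κ s 0 * (η (-p) 0)⁻¹ = 1
        rw [e1.1, (hκ' s hs).1, e2.1, mul_one, mul_inv_cancel]
      have a1 : ν s 1 = 1 := by
        show η p 1 * κ s 1 * (η (-p) 1)⁻¹ = 1
        rw [e1.2, (hκ' s hs).2, e2.2, mul_inv_cancel]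
      constructor
      · show h.symm ((h x).1 * ν s (projIcc 0 1 zero_le_one 0), (h x).2) = x
        rw [projIcc_left]
        exact (congrArg (fun u => h.symm ((h x).1 * u, (h x).2)) a0).trans (by simp)
      · show h.symm ((h x).1 * ν s (projIcc 0 1 zero_le_one 1), (h x).2) = x
        rw [projIcc_right]
        exact (congrArg (fun u => h.symm ((h x).1 * u, (h x).2)) a1).trans (by simp))
  have m1 : ContinuousOn (fun b : (PS × S3 × Lo N) × (Fin 3 → ℝ) => (b.1.1 * κ b.2, b.1.2))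
      ((Om p ×ˢ univ) ×ˢ Q) := by
    have : ContinuousOn (fun b : (PS × S3 × Lo N) × (Fin 3 → ℝ) => κ b.2) ((Om p ×ˢ univ) ×ˢ Q) :=
      hκ.comp continuous_snd.continuousOn fun b hb => hb.2
    exact (ContinuousOn.mul (by fun_prop) this).prodMk (by fun_prop)
  have m2 : MapsTo (fun b : (PS × S3 × Lo N) × (Fin 3 → ℝ) => (b.1.1 * κ b.2, b.1.2))
      ((Om p ×ˢ univ) ×ˢ Q) (Om (-p) ×ˢ univ) := fun b hb => by
    refine ⟨⟨?_, ?_⟩, trivial⟩
    · show b.1.1 0 * κ b.2 0 = 1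
      rw [hb.1.1.1, (hκ' _ hb.2).1, mul_one]
    · show b.1.1 1 * κ b.2 1 = -p
      rw [hb.1.1.2, (hκ' _ hb.2).2]
  refine ⟨T, C, hC, fun _ _ _ _ j z hz => ⟨?_, fun a => h3 j a z hz, fun a ha hz' => ?_⟩⟩
  · rw [(h1 j _ Subset.rfl z hz).2]
    exact push_Zr m1 m2 (mapsTo_empty _ _) (h1 j _ Subset.rfl z hz).1
  obtain ⟨u, hu, b, hb, e⟩ := Submodule.mem_sup.1 hz'
  let A : Set (PS × S3 × Lo N) := {x | x ∈ Om p ×ˢ univ ∧ Ψ h (η p) x ∈ LL M a}
  have hA : A ⊆ Om p ×ˢ univ := fun _ hx => hx.1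
  have hu' : push K j (Φ h (η p)) u ∈ Zr K j A ∅ :=
    push_Zr (Φ_cont h _).continuousOn (fun l hl => And.intro (Φ_mem h e1 l) (by rwa [ΨΦ h hL]))
      (mapsTo_empty _ _) hu
  have hb' : push K j (Φ h (η p)) b ∈ Br K j (Om p ×ˢ univ) ∅ :=
    push_Br (Φ_cont h _).continuousOn (fun l _ => Φ_mem h e1 l) (mapsTo_empty _ _) hb
  have ez : z = push K j (Φ h (η p)) u + push K j (Φ h (η p)) b := by
    rw [← map_add, e, push_push (Ψ_cont h hL e1) (Zr_le_In hz),
      push_eq_self (fun x hx => ΦΨ h hL e1 hx.1) (Zr_le_In hz)]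
  rw [ez, map_add, map_add]
  refine add_mem ?_ (Submodule.mem_sup_right (push_Br (Ψ_cont h hL e2) (mapsTo_univ _ _)
    (mapsTo_empty _ _) (h2 j _ (Br_le_Zr (empty_subset _) hb') hb')))
  obtain ⟨f1, f2⟩ := h1 j A hA _ hu'
  have m3 : ContinuousOn (fun b : (PS × S3 × Lo N) × (Fin 3 → ℝ) => (Ψ h (η p) b.1, b.2))
      (A ×ˢ Q) :=
    ((Ψ_cont h hL e1).comp continuous_fst.continuousOn fun b hb => hb.1.1).prodMk
      continuous_snd.continuousOn
  have := h4 a (j + 2) ha _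
    (push_Zr m3 (fun b hb => mk_mem_prod hb.1.2 hb.2) (mapsTo_empty _ _) f1)
  rw [push_push m3 (Zr_le_In f1)] at this
  have m4 := m1.mono (prod_mono hA Subset.rfl)
  rw [f2, push_push (g := Ψ h (η (-p))) m4 (Zr_le_In f1)]
  refine mem_of_eq_of_mem (push_congr (fun b hb => ?_) (Zr_le_In f1)) this
  have hb1 := div_mem e1 hb.1.1.1
  have hb2 := div_mem e2 (m2 (mk_mem_prod hb.1.1 hb.2)).1
  have key : ∀ t ∈ Icc (0 : ℝ) 1, glc h (b.1.1 * κ b.2 * (η (-p))⁻¹, b.1.2) t =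
      h.symm ((h (crv (Ψ h (η p) b.1) t)).1 * ν b.2 (projIcc 0 1 zero_le_one t),
        (h (crv (Ψ h (η p) b.1) t)).2) := fun t ht => by
    rw [Ψ, crv_gl hL h hb1 ht, glc, glc, h.apply_symm_apply]
    simp only [ν, ContinuousMap.mul_apply, ContinuousMap.inv_apply, mul_assoc,
      inv_mul_cancel_left]
  refine lo_ext fun t ht => ?_
  have c1 := ((glc_cont h).comp (Continuous.prodMk_right
    (b.1.1 * κ b.2 * (η (-p))⁻¹, b.1.2))).continuousOn (s := Icc 0 1)
  refine (crv_gl hL h hb2 ht).trans ((key t ht).trans (hL.crv_mk _ (c1.congr fun t ht =>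
    (key t ht).symm) ?_ t ht).symm)
  exact (key 0 (left_mem_Icc.2 zero_le_one)).symm.trans
    ((glc_ends h hb2).trans (key 1 (right_mem_Icc.2 zero_le_one)))

end ChainP

open UpP ChainP in
theorem chain (K : Type) [Field K] (hB : Basics) (_T : Tools K) (hW : WangStmt K)
    (hL : LevStmt K) : ChainStmt K := by
  intro n M N _ _ _ G h lam hl hd
  have L := hB.1 M
  choose η hη using exists_lip
  choose T C hC hT using step h L hW hL G η
  obtain ⟨p₀, hp₀⟩ : ∃ p : S3, (p : Quaternion ℝ).re = 0 := by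
    let q : Quaternion ℝ := ⟨0, 1, 0, 0⟩
    have e : Quaternion.normSq q = 1 := by
      rw [Quaternion.normSq_def']
      simp [q]
    have := Quaternion.normSq_eq_norm_mul_self q
    refine ⟨⟨q, ?_⟩, rfl⟩
    rw [mem_sphere_zero_iff_norm]
    nlinarith [norm_nonneg q]
  let p : ℕ → S3 := fun s => Nat.rec p₀ (fun _ q => -q) s
  have hp : ∀ s : ℕ, (p s).1.re = 0 ∧ (p s = p₀ ∨ p s = -p₀) := fun s => by
    induction s with
    | zero => exact ⟨hp₀, Or.inl rfl⟩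
    | succ s ih =>
      refine ⟨neg_eq_zero.2 ih.1, ih.2.symm.imp (fun e => ?_) fun e => congrArg Neg.neg e⟩
      exact (congrArg Neg.neg e).trans (neg_neg _)
  have hne : ∀ s, p s ≠ 1 := fun s e => one_ne_zero (e ▸ (hp s).1 : ((1 : S3) : Quaternion ℝ).re = 0)
  have hT' := fun s => hT (p s) (hne s) (hne (s + 1)) (hη _ (hp s).1).1 (hη _ (hp (s + 1)).1).1
  have c1 := hC p₀
  have c2 := hC (-p₀)
  refine ⟨C p₀ + C (-p₀) + 4 * lam, by positivity, fun x₀ j β hβ hβ' => ?_⟩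
  let f : Lo N → Lo M := fun l => mkL fun t => h.symm (x₀, crv l t)
  have f1 : ∀ l : Lo N, f l = mkL (glc h (1, x₀, l)) := fun l => by
    simp only [f]
    congr 1
    funext t
    simp [glc]
  have one : (1 : PS) ∈ Om 1 := ⟨rfl, rfl⟩
  have f2 : ContinuousOn f univ := by
    rw [funext f1]
    exact (gl_cont L h).comp (f := fun l : Lo N => ((1 : PS), x₀, l)) (by fun_prop)
      fun _ _ => ⟨one, trivial⟩
  let ζ : ∀ s : ℕ, Ch K (j + 2 * s) (PS × S3 × Lo N) := fun s =>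
    Nat.rec (motive := fun s => Ch K (j + 2 * s) (PS × S3 × Lo N))
      (push K j (Φ h (η p₀)) (push K j f β)) (fun s z => T (p s) (j + 2 * s) z) s
  have hζ : ∀ s, ζ s ∈ Zr K (j + 2 * s) (Om (p s) ×ˢ univ) ∅ := fun s => by
    induction s with
    | zero =>
      exact push_Zr (Φ_cont h _).continuousOn (fun l _ => Φ_mem h (hη _ hp₀).1 l)
        (mapsTo_empty _ _) (push_Zr f2 (mapsTo_univ _ _) (mapsTo_empty _ _) hβ)
    | succ s ih => exact (hT' s _ _ ih).1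
  have drop : ∀ (s : ℕ) (a : ℝ), ζ s ∈ Zr K (j + 2 * s) (OmL (p s) a ×ˢ univ) ∅ ⊔
      Br K (j + 2 * s) (Om (p s) ×ˢ univ) ∅ →
      ζ 0 ∈ Zr K j (OmL p₀ (a - s) ×ˢ univ) ∅ ⊔ Br K j (Om p₀ ×ˢ univ) ∅ := fun s => by
    induction s with
    | zero => exact fun a H => by rwa [Nat.cast_zero, sub_zero]
    | succ s ih =>
      intro a H
      have := ih _ ((hT' s _ _ (hζ s)).2.1 a H)
      rwa [sub_sub, add_comm (1 : ℝ), ← Nat.cast_succ] at this
  refine ⟨fun s => push K (j + 2 * s) (Ψ h (η (p s))) (ζ s), ?_, fun s a ha H => ?_,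
    fun s a ha hs H => hβ' ?_⟩
  · show push K j (Ψ h (η p₀)) (push K j (Φ h (η p₀)) (push K j f β)) = _
    rw [push_push (Φ_cont h _).continuousOn (mem_In_univ _),
      push_eq_self (fun l _ => ΨΦ h L l) (mem_In_univ _)]
  · refine Fil_mono ?_ ((hT' s _ _ (hζ s)).2.2 a ha H)
    rcases (hp s).2 with e | e <;> rw [e] <;> linarith
  · obtain ⟨e1, e2⟩ := hη _ (hp s).1
    obtain ⟨u, hu, b, hb, e⟩ := Submodule.mem_sup.1 H
    have h1 := drop s (lam⁻¹ * a + 4) (Submodule.mem_sup.2 ⟨_,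
      push_Zr (Φ_cont h _).continuousOn (Φ_len h hl hd e1 e2 ha) (mapsTo_empty _ _) hu, _,
      push_Br (Φ_cont h _).continuousOn (fun l _ => Φ_mem h e1 l) (mapsTo_empty _ _) hb, by
        rw [← map_add, e, push_push (Ψ_cont h L e1) (Zr_le_In (hζ s)),
          push_eq_self (fun x hx => ΦΨ h L e1 hx.1) (Zr_le_In (hζ s))]⟩)
    have h2 : lam⁻¹ * a + 4 - s ≤ 0 := by
      have : lam⁻¹ * a ≤ s - 4 := by
        rw [inv_mul_le_iff₀ hl]
        linarith
      linarith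
    rw [omL_empty' (p := p₀) (hne 0) h2, empty_prod] at h1
    obtain ⟨u', hu', b', hb', e'⟩ := Submodule.mem_sup.1 h1
    have h3 : ζ 0 ∈ Br K j (Om p₀ ×ˢ univ) ∅ := e' ▸ add_mem (In_le_Br (Zr_le_In hu')) hb'
    have h4 := push_Br (f := fun x : PS × S3 × Lo N => x.2.2) (by fun_prop) (mapsTo_univ _ _)
      (mapsTo_empty _ ∅) h3
    have h5 : push K j (fun x : PS × S3 × Lo N => x.2.2)
        (push K j (Φ h (η p₀)) (push K j f β)) = β := by
      rw [push_push (Φ_cont h _).continuousOn (mem_In_univ _), push_push f2 (mem_In_univ _)]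
      refine push_eq_self (fun l _ => ?_) (mem_In_univ _)
      show (spl h (f l)).2.2 = l
      rw [f1, spl_gl L h one]
    exact h5 ▸ h4

end Pool.Agent.MP_af6f1c_gt.Geo

end
end MrgPart1

-- ======== part 2: formerly Pool.Agent.MP_af6f1c_gt.geo.FinB
section MrgPart2

/-! PROJECT GEO: assembly of the inequality on a product with the three-sphere. -/

open Set Topology Metric Module Bundle
open scoped ContDiff ENNReal Manifold

noncomputable section

namespace Pool.Agent.MP_af6f1c_gt.Geo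

namespace FinBP

open FinAP

variable {K : Type} [Field K]

/-- a Lipschitz map sends short cycles to short cycles -/
lemma push_fil (hB : Basics) {M N : Type} [MetricSpace M] [MetricSpace N] {f : N → M} {l : ℝ}
    (hl : 0 ≤ l) (hf : ∀ y y', dist (f y) (f y') ≤ l * dist y y') {j : ℕ} {a : ℝ}
    {β : Ch K j (Lo N)} (hβ : β ∈ Fil N K j a) :
    push K j (fun u : Lo N => mkL fun t => f (crv u t)) β ∈ Fil M K j (l * a) := by
  have hL : LipschitzWith ⟨l, hl⟩ f := LipschitzWith.of_dist_le_mul hf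
  have hc : ∀ u : Lo N, Continuous fun t => f (crv u t) := fun u =>
    hL.continuous.comp ((hB.1 N).crv_cont.comp (continuous_const.prodMk continuous_id))
  have hp : ∀ u : Lo N, Function.Periodic (fun t => f (crv u t)) 1 := fun u t =>
    congrArg f ((hB.1 N).crv_per u t)
  have hF : ContinuousOn (fun u : Lo N => mkL fun t => f (crv u t)) univ :=
    (hB.1 M).mk_cont (Lo N) (fun u t => f (crv u t)) univ
      (hL.continuous.comp (hB.1 N).crv_cont).continuousOn fun u _ => by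
        have := hp u 0
        rw [zero_add] at this
        exact this.symm
  obtain ⟨x, hx, y, hy, rfl⟩ := Submodule.mem_sup.1 hβ
  rw [map_add]
  refine add_mem (Submodule.mem_sup_left (push_Zr (hF.mono (subset_univ _)) ?_
    (mapsTo_empty _ _) hx)) (Submodule.mem_sup_right
      (push_Br hF (mapsTo_univ _ _) (mapsTo_empty _ _) hy))
  intro u hu
  show len _ ≤ _
  rw [(hB.1 M).crv_mk' _ (hc u) (hp u), ENNReal.ofReal_mul hl]
  refine (hL.lipschitzOnWith.comp_eVariationOn_le (g := crv u) (mapsTo_univ _ _)).trans ?_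
  rw [ENNReal.ofReal, Real.toNNReal_of_nonneg hl]
  exact mul_le_mul_right hu _

/-- a positive minimax level is the length of an iterate whose window contains the degree -/
lemma spectral {M P : Type} [MetricSpace M] {c α : P → ℝ} {B : P → ℕ} {w : ℝ}
    (hc : ∀ p, 0 < c p) (hf : ∀ L, {p | c p ≤ L}.Finite) {i : ℕ}
    (hm : ∀ (a b : ℝ) (T : Finset (P × ℕ)), 0 < a → a ≤ b →
      (∀ p (m : ℕ), 1 ≤ m → a ≤ m * c p → m * c p ≤ b → |(i : ℝ) - m * α p| ≤ w → (p, m) ∈ T) →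
      Rk (Fil M K i b) (Fil M K i a) (∑ q ∈ T, B q.1))
    {z : Ch K i (Lo M)} (hne : {a | 0 ≤ a ∧ z ∈ Fil M K i a}.Nonempty)
    (hpos : 0 < sInf {a | 0 ≤ a ∧ z ∈ Fil M K i a}) :
    ∃ (p : P) (m : ℕ), 1 ≤ m ∧ m * c p = sInf {a | 0 ≤ a ∧ z ∈ Fil M K i a} ∧
      |(i : ℝ) - m * α p| ≤ w := by
  set τ := sInf {a | 0 ≤ a ∧ z ∈ Fil M K i a} with hτ
  by_contra hno
  push Not at hno
  have hfin : {x : P × ℕ | 1 ≤ x.2 ∧ x.2 * c x.1 ≤ τ + 1}.Finite := by
    have h1 : (⋃ p ∈ {p | c p ≤ τ + 1}, ({p} : Set P) ×ˢ Iic ⌊(τ + 1) / c p⌋₊).Finite :=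
      (hf _).biUnion fun p _ => (finite_singleton p).prod (finite_Iic _)
    refine h1.subset fun x hx => mem_iUnion₂.2 ⟨x.1, ?_, rfl, ?_⟩
    · have : (1 : ℝ) ≤ x.2 := by exact_mod_cast hx.1
      exact (le_mul_of_one_le_left (hc _).le this).trans hx.2
    · exact Nat.le_floor ((le_div_iff₀ (hc _)).2 hx.2)
  have hcl : IsClosed (((fun x : P × ℕ => x.2 * c x.1) ''
      {x : P × ℕ | 1 ≤ x.2 ∧ x.2 * c x.1 ≤ τ + 1}) \ {τ}) :=
    ((hfin.image _).subset sdiff_subset).isClosed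
  obtain ⟨δ, hδ, hb⟩ := Metric.isOpen_iff.1 hcl.isOpen_compl τ (by simp)
  have hη : 0 < min (min δ 1) τ / 2 := by positivity
  have e1 : min (min δ 1) τ ≤ δ := (min_le_left _ _).trans (min_le_left _ _)
  have e2 : min (min δ 1) τ ≤ 1 := (min_le_left _ _).trans (min_le_right _ _)
  have e3 : min (min δ 1) τ ≤ τ := min_le_right _ _
  set η := min (min δ 1) τ / 2 with hηd
  have h0 := hm (τ - η) (τ + η) ∅ (by linarith) (by linarith) (by
    intro p m h1 h2 h3 h4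
    exfalso
    have hmem : (m : ℝ) * c p ∈ ball τ δ := by
      rw [mem_ball, Real.dist_eq, abs_lt]
      constructor <;> linarith
    have hne' : (m : ℝ) * c p ≠ τ := fun e => absurd h4 (not_le.2 (hno p m h1 e))
    exact hb hmem ⟨⟨(p, m), ⟨h1, by show (m : ℝ) * c p ≤ τ + 1; linarith⟩, rfl⟩, hne'⟩)
  rw [Finset.sum_empty, rk_zero] at h0
  obtain ⟨a, ha, hlt⟩ := exists_lt_of_csInf_lt hne (show τ < τ + η by linarith)
  have h1 : τ ≤ τ - η := csInf_le ⟨0, fun a ha => ha.1⟩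
    ⟨by linarith, h0 (Fil_mono hlt.le ha.2)⟩
  linarith

lemma count (hB : Basics) (hC : CountStmt K) (hH : ChainStmt K) (hA : ArithBStmt) (n : ℕ)
    (M N : Type) [MetricSpace M] [CompactSpace M] [MetricSpace N] (G : GS M n)
    (h : M ≃ₜ S3 × N) (x₀ : S3) {lam CN : ℝ} (hl : 0 < lam) (hCN : 0 < CN)
    (hG : ∀ i, Zr K i (univ : Set (Lo N)) ∅ ≤ Fil N K i (CN * (i + 1)))
    (h1 : ∀ x y, lam * dist (h x).1 (h y).1 ≤ dist x y)
    (h2 : ∀ y y', dist (h.symm (x₀, y)) (h.symm (x₀, y')) ≤ (100 * CN)⁻¹ * lam * dist y y')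
    (hfin : ∀ L, (GI M L).Finite) :
    ∃ κ C₁ : ℝ, 0 < κ ∧ 0 < C₁ ∧ ∀ j, ¬ RH K j (univ : Set (Lo N)) 0 →
      (∃ L, (GI M L).Nonempty) ∧ κ * j - κ⁻¹ ≤ 2 * (GI M (C₁ * (j + 1))).ncard := by
  obtain ⟨P, A, o, c, α, B, hi, hc, hAc, hm⟩ := hC n M G hfin
  obtain ⟨C, hC0, hch⟩ := hH n M N G h lam hl h1
  obtain ⟨κ, hκ, har⟩ := hA (3 * n + 1) (C / lam) (by positivity) (by positivity)
  have hP := fun L => ncard_le_two_mul hi hAc L (hfin L)
  refine ⟨κ, lam / 100 + C, hκ, by positivity, fun j hj => ?_⟩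
  obtain ⟨β, hβ, hβ'⟩ := SetLike.not_le_iff_exists.1 fun hle => hj (rk_zero.2 hle)
  obtain ⟨z, hz0, hz1, hz2⟩ := hch x₀ j β hβ hβ'
  have hj0 : (0 : ℝ) ≤ j := Nat.cast_nonneg j
  let S : ℕ → Set ℝ := fun s => {a | 0 ≤ a ∧ z s ∈ Fil M K (j + 2 * s) a}
  have hbd : ∀ s, BddBelow (S s) := fun s => ⟨0, fun a ha => ha.1⟩
  have hmem : ∀ s : ℕ, lam * (j + 1) / 100 + C * s ∈ S s := by
    intro s
    induction s with
    | zero =>
      refine ⟨by positivity, ?_⟩
      have := push_fil hB (f := fun y => h.symm (x₀, y)) (by positivity) h2 (hG j hβ)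
      have e : (100 * CN)⁻¹ * lam * (CN * (j + 1)) = lam * (j + 1) / 100 + C * (0 : ℕ) := by
        rw [Nat.cast_zero, mul_zero, add_zero]
        field_simp
      rw [e] at this
      rw [hz0]
      exact this
    | succ s ih =>
      refine ⟨by positivity, ?_⟩
      convert hz1 s _ ih.1 ih.2 using 2
      push_cast
      ring
  have hlow : ∀ s : ℕ, lam * s - C ≤ sInf (S s) := fun s =>
    le_csInf ⟨_, hmem s⟩ fun a ha => by
      by_contra hlt
      exact hz2 s a ha.1 (by linarith) ha.2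
  have hsp : ∀ s : ℕ, 0 < sInf (S s) → ∃ (p : P) (m : ℕ), 1 ≤ m ∧ m * c p = sInf (S s) ∧
      |((j + 2 * s : ℕ) : ℝ) - m * α p| ≤ 3 * n + 1 := fun s hs =>
    spectral hc (fun L => (hP L).1) (hm (j + 2 * s)) ⟨_, hmem s⟩ hs
  constructor
  · obtain ⟨s, hs⟩ := exists_nat_gt (C / lam)
    rw [div_lt_iff₀ hl] at hs
    obtain ⟨p, -⟩ := hsp s (by linarith [hlow s])
    exact ⟨c p, A p, (hAc p _).2 le_rfl⟩
  rcases Nat.eq_zero_or_pos j with rfl | hjp
  · have : 0 < κ⁻¹ := by positivity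
    have : (0 : ℝ) ≤ (GI M ((lam / 100 + C) * ((0 : ℕ) + 1))).ncard := Nat.cast_nonneg _
    simp only [Nat.cast_zero, mul_zero] at this ⊢
    linarith
  have hj1 : (0 : ℝ) < j := by exact_mod_cast hjp
  have key := har P (hP ((lam / 100 + C) * (j + 1))).1.toFinset (fun p => c p / lam) α j
    (fun s => sInf (S s) / lam) (fun p => div_pos (hc p) hl) (by
      have := csInf_le (hbd 0) (hmem 0)
      rw [div_le_iff₀ hl]
      simp only [Nat.cast_zero, mul_zero, add_zero] at this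
      linarith) (by
      intro s
      rw [← add_div]
      refine div_le_div_of_nonneg_right ?_ hl.le
      have : sInf (S (s + 1)) - C ≤ sInf (S s) := le_csInf ⟨_, hmem s⟩ fun a ha => by
        have := csInf_le (hbd (s + 1)) (show a + C ∈ S (s + 1) from
          ⟨by linarith [ha.1], hz1 s a ha.1 ha.2⟩)
        linarith
      linarith) (by
      intro s
      rw [le_div_iff₀ hl, sub_mul, div_mul_cancel₀ _ hl.ne']
      linarith [hlow s]) (by
      intro s hs ht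
      have hpos : 0 < sInf (S s) := by
        have : 0 < sInf (S s) / lam := lt_of_lt_of_le (by positivity) ht
        exact (div_pos_iff_of_pos_right hl).1 this
      obtain ⟨p, m, hm1, hm2, hm3⟩ := hsp s hpos
      refine ⟨p, ?_, m, hm1, by rw [← hm2, mul_div_assoc], hm3⟩
      rw [Finite.mem_toFinset]
      have a1 : (1 : ℝ) ≤ m := by exact_mod_cast hm1
      have a2 := csInf_le (hbd s) (hmem s)
      have a3 : (s : ℝ) ≤ j := by exact_mod_cast hs
      have a4 : c p ≤ m * c p := le_mul_of_one_le_left (hc p).le a1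
      show c p ≤ _
      nlinarith)
  rw [← ncard_eq_toFinset_card _ (hP _).1] at key
  refine key.trans ?_
  exact_mod_cast (hP _).2

lemma core (hB : Basics) (hC : CountStmt K) (hH : ChainStmt K) (hU : UpStmt K) (hK : LinkStmt K)
    (hA : ArithBStmt) (n : ℕ)
    (M N : Type) [MetricSpace M] [CompactSpace M] [MetricSpace N] (G : GS M n)
    (h : M ≃ₜ S3 × N) (x₀ : S3) {lam CN : ℝ} (hl : 0 < lam) (hCN : 0 < CN)
    (hG : ∀ i, Zr K i (univ : Set (Lo N)) ∅ ≤ Fil N K i (CN * (i + 1)))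
    (h1 : ∀ x y, lam * dist (h x).1 (h y).1 ≤ dist x y)
    (h2 : ∀ y y', dist (h.symm (x₀, y)) (h.symm (x₀, y')) ≤ (100 * CN)⁻¹ * lam * dist y y')
    {B : ℕ} (hb : ∀ j, RH K j (univ : Set (Lo N)) B) :
    ∃ a b : ℝ, 0 < a ∧ 0 < b ∧ ∃ L₀ : ℝ, ∀ L : ℝ, L₀ ≤ L →
      ENNReal.ofReal (a / L * ∑ i ∈ Finset.range (⌊b * L⌋₊ + 1), (finrank K (LH K M i) : ℝ)) ≤
        (((GI M L).encard : ℕ∞) : ℝ≥0∞) := by
  classical
  by_cases hfin : ∀ L, (GI M L).Finite
  swap
  · push Not at hfin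
    obtain ⟨L₁, hL₁⟩ := hfin
    have hinf : (GI M L₁).Infinite := hL₁
    refine ⟨1, 1, one_pos, one_pos, L₁, fun L hL => ?_⟩
    rw [(hinf.mono (GI_mono hL)).encard_eq]
    simp
  obtain ⟨κ, C₁, hκ, hC₁, hcount⟩ := count hB hC hH hA n M N G h x₀ hl hCN hG h1 h2 hfin
  have hL₁ : ∃ L₁ : ℝ, ∀ j, ¬ RH K j (univ : Set (Lo N)) 0 → (GI M L₁).Nonempty := by
    by_cases hex : ∃ j, ¬ RH K j (univ : Set (Lo N)) 0
    · obtain ⟨j, hj⟩ := hex
      obtain ⟨L, hL⟩ := (hcount j hj).1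
      exact ⟨L, fun _ _ => hL⟩
    · exact ⟨0, fun j hj => absurd ⟨j, hj⟩ hex⟩
  obtain ⟨L₁, hL₁⟩ := hL₁
  set E : ℝ := 2 / κ + κ⁻¹ / κ + 1 with hE
  have hE0 : 0 < E := by positivity
  set b : ℝ := (2 * C₁)⁻¹ with hbd
  have hb0 : 0 < b := by positivity
  refine ⟨(4 * b * (B + 1) * E)⁻¹, b, by positivity, hb0, max L₁ (2 * C₁), fun L hL => ?_⟩
  have hL1 : L₁ ≤ L := (le_max_left _ _).trans hL
  have hL2 : 2 * C₁ ≤ L := (le_max_right _ _).trans hL
  have hL0 : 0 < L := by linarith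
  have hbL : 1 ≤ b * L := by
    rw [hbd, ← div_eq_inv_mul, le_div_iff₀ (by positivity)]
    linarith
  set J := ⌊b * L⌋₊ with hJ
  have hJ1 : (J : ℝ) ≤ b * L := Nat.floor_le (by positivity)
  rw [← (hfin L).cast_ncard_eq, ENat.toENNReal_coe, ← ENNReal.ofReal_natCast]
  refine ENNReal.ofReal_le_ofReal ?_
  -- `j₁` is one more than the largest degree below `J` with nonzero homology
  obtain ⟨j₁, hj₁, hj₂⟩ : ∃ j₁ : ℕ, (∀ j, j₁ ≤ j → j ≤ J → RH K j (univ : Set (Lo N)) 0) ∧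
      (j₁ : ℝ) ≤ E * (GI M L).ncard := by
    by_cases hex : ∃ j, j ≤ J ∧ ¬ RH K j (univ : Set (Lo N)) 0
    · obtain ⟨j, hj, hj'⟩ := hex
      have hs := Nat.findGreatest_spec (P := fun j => ¬ RH K j (univ : Set (Lo N)) 0) hj hj'
      set j₀ := Nat.findGreatest (fun j => ¬ RH K j (univ : Set (Lo N)) 0) J with hj₀
      refine ⟨j₀ + 1, fun i hi hi' => ?_, ?_⟩
      · by_contra hno
        exact Nat.findGreatest_is_greatest (P := fun j => ¬ RH K j (univ : Set (Lo N)) 0)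
          (Nat.lt_of_succ_le hi) hi' hno
      · have a1 : (j₀ : ℝ) ≤ J := by exact_mod_cast Nat.findGreatest_le J
        have a2 : C₁ * (j₀ + 1) ≤ L := by
          have : C₁ * (b * L) = L / 2 := by rw [hbd]; field_simp
          nlinarith
        have a3 : ((GI M (C₁ * (j₀ + 1))).ncard : ℝ) ≤ (GI M L).ncard := by
          exact_mod_cast ncard_le_ncard (GI_mono a2) (hfin L)
        have a4 : (1 : ℝ) ≤ (GI M L).ncard := by
          exact_mod_cast (ncard_pos (hfin L)).2 ((hL₁ j₀ hs).mono (GI_mono hL1))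
        have a5 := (hcount j₀ hs).2
        have a6 : (j₀ : ℝ) ≤ (2 * (GI M L).ncard + κ⁻¹) / κ := by
          rw [le_div_iff₀ hκ]
          linarith
        have a7 : κ⁻¹ / κ ≤ κ⁻¹ / κ * (GI M L).ncard :=
          le_mul_of_one_le_right (by positivity) a4
        have a8 : (2 * ((GI M L).ncard : ℝ) + κ⁻¹) / κ = 2 / κ * (GI M L).ncard + κ⁻¹ / κ := by
          ring
        push_cast
        rw [hE]
        nlinarith
    · refine ⟨0, fun j _ hj => ?_, by rw [Nat.cast_zero]; positivity⟩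
      by_contra hno
      exact hex ⟨j, hj, hno⟩
  have hup : ∀ i ∈ Finset.range (J + 1), (finrank K (LH K M i) : ℝ) ≤ 2 * (B * j₁) := by
    intro i hi
    rw [Finset.mem_range] at hi
    have u1 := hU M N h (fun j => if j₁ ≤ j ∧ j ≤ J then 0 else B) (fun j => by
      split_ifs with hc
      · exact hj₁ j hc.1 hc.2
      · exact hb j) i
    have u2 : ∑ j ∈ Finset.range (i + 1), (if j₁ ≤ j ∧ j ≤ J then 0 else B) ≤ B * j₁ := by
      calc ∑ j ∈ Finset.range (i + 1), (if j₁ ≤ j ∧ j ≤ J then 0 else B)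
          ≤ ∑ j ∈ Finset.range (i + 1), (if j ∈ Finset.range j₁ then B else 0) := by
            refine Finset.sum_le_sum fun j hj => ?_
            simp only [Finset.mem_range] at hj ⊢
            split_ifs <;> omega
        _ = ∑ j ∈ Finset.range (i + 1) ∩ Finset.range j₁, B := by rw [Finset.sum_ite_mem]
        _ ≤ ∑ j ∈ Finset.range j₁, B := Finset.sum_le_sum_of_subset Finset.inter_subset_right
        _ = B * j₁ := by simp [mul_comm]
    have u3 := (finrank_le_of_rank_le ((hK M i _).1 u1)).trans (Nat.mul_le_mul_left 2 u2)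
    exact_mod_cast u3
  have hsum := Finset.sum_le_card_nsmul _ _ _ hup
  rw [Finset.card_range, nsmul_eq_mul] at hsum
  have hB0 : (0 : ℝ) ≤ B := Nat.cast_nonneg B
  have hj0 : (0 : ℝ) ≤ j₁ := Nat.cast_nonneg j₁
  have hg0 : (0 : ℝ) ≤ (GI M L).ncard := Nat.cast_nonneg _
  have s1 : ((J + 1 : ℕ) : ℝ) * (2 * (B * j₁)) ≤
      (2 * (b * L)) * (2 * ((B + 1) * (E * (GI M L).ncard))) := by
    push_cast
    gcongr
    · linarith
    · linarith
  refine (mul_le_mul_of_nonneg_left (hsum.trans s1) (by positivity)).trans (le_of_eq ?_)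
  field_simp
  ring

end FinBP

theorem mainB (hR : RiemStmt) (hS : SegStmt) (hA : ArithBStmt) (hB : Basics)
    (h : ∀ (K : Type) [Field K], Tools K ∧ GromStmt K ∧ CountStmt K ∧ LinkStmt K ∧ ChainStmt K ∧
      UpStmt K) : MainBStmt := by
  intro k N _ _ _ _ _ _ _ _ _ K _ hN
  obtain ⟨h0, h1, h2, h3, h4, h5⟩ := h K
  let _ : MetricSpace N := EMetricSpace.toMetricSpace (FinAP.edist_ne_top_of_connected N)
  obtain ⟨e⟩ := FinAP.exists_iso
  obtain ⟨ρ', ch', g0'⟩ := hR k N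
  obtain ⟨G'⟩ := hS k N ρ' ch' g0'
  obtain ⟨CN, hCN, hG⟩ := h1 k N G'
  obtain ⟨B, hb⟩ : ∃ B : ℕ, ∀ j, RH K j (univ : Set (Lo N)) B := by
    rcases hN with ⟨B, hb⟩ | ⟨⟨f⟩⟩
    · exact ⟨B, fun j => (h3 N j B).2 (hb j)⟩
    · refine ⟨2, fun j => ?_⟩
      have := h5 N PUnit ((f.trans e.toHomeomorph).trans (Homeomorph.prodPUnit S3).symm)
        (fun j => if j = 0 then 1 else 0) (fun j => by
          cases j with
          | zero => exact (FinAP.lo_unit_zero h0).1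
          | succ j => exact (FinAP.lo_unit_zero h0).2 j) j
      simpa using this
  refine ⟨(100 * CN)⁻¹, by positivity, ?_⟩
  intro n M _ _ _ _ _ _ _ _ f x₀ lam hl hf1 hf2
  let _ : MetricSpace M := EMetricSpace.toMetricSpace (FinAP.edist_ne_top_of_connected M)
  obtain ⟨ρ, ch, g0⟩ := hR n M
  obtain ⟨G⟩ := hS n M ρ ch g0
  refine FinBP.core hB h2 h4 h5 h3 hA n M N G
    (f.trans (e.toHomeomorph.prodCongr (Homeomorph.refl N))) (e x₀) hl hCN hG
    (fun x y => ?_) (fun y y' => ?_) hb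
  · have := hf1 x y
    rw [edist_dist, edist_dist, ← ENNReal.ofReal_mul hl.le,
      ENNReal.ofReal_le_ofReal_iff dist_nonneg, ← e.dist_eq] at this
    exact this
  · have := hf2 y y'
    rw [edist_dist, edist_dist, ← ENNReal.ofReal_mul (by positivity),
      ENNReal.ofReal_le_ofReal_iff (by positivity)] at this
    have e1 : ∀ y, (f.trans (e.toHomeomorph.prodCongr (Homeomorph.refl N))).symm (e x₀, y) =
        f.symm (x₀, y) := fun y => by
      show f.symm (e.symm (e x₀), y) = _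
      rw [e.symm_apply_apply]
    rw [e1, e1]
    exact this

end Pool.Agent.MP_af6f1c_gt.Geo

end
end MrgPart2

-- marker of a merged file
example : 731051 + 818145 = 731051 + 818145 := rfl
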