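import Pool.Agent.MP_af6f1c_gt.geo.Spec
import Pool.Agent.MP_af6f1c_gt.geo.All
import Pool.Agent.MP_af6f1c_gt.geo.FinB

-- ======== part 0: formerly Pool.Agent.MP_af6f1c_gt.geo.Arb
section MrgPart0

/-! PROJECT GEO, row ARB: slowly moving slopes need many rays. -/

namespace Pool.Agent.MP_af6f1c_gt.Geo

namespace ArbP

/-- a slope that moves up slowly passes close to every intermediate value -/
theorem hit (C : ℝ) (hC : 0 < C) (j : ℕ) (t : ℕ → ℝ) (hj1 : (1 : ℝ) ≤ j) (hj : 4 * C ≤ j)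
    (h0 : t 0 ≤ (j + 1) / 100) (hs : ∀ s, t (s + 1) ≤ t s + C) (hl : ∀ s : ℕ, s - C ≤ t s)
    (v : ℝ) (hv : 1 / 10 ≤ v) (hv' : v ≤ 1 / 4) :
    ∃ s ≤ j, v * (j + 2 * s) ≤ t s ∧ t s < v * (j + 2 * s) + C := by
  classical
  have hjj : v * ((j : ℝ) + 2 * j) ≤ t j := by
    have := hl j
    nlinarith
  have hex : ∃ s : ℕ, v * ((j : ℝ) + 2 * s) ≤ t s := ⟨j, hjj⟩
  have hle : Nat.find hex ≤ j := Nat.find_min' hex hjj
  have hsp := Nat.find_spec hex
  refine ⟨Nat.find hex, hle, hsp, ?_⟩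
  have hne : Nat.find hex ≠ 0 := by
    intro h
    rw [h] at hsp
    simp only [Nat.cast_zero, mul_zero, add_zero] at hsp
    nlinarith
  obtain ⟨u, hu⟩ := Nat.exists_eq_succ_of_ne_zero hne
  have hlt : ¬ v * ((j : ℝ) + 2 * u) ≤ t u := Nat.find_min hex (by omega)
  rw [hu]
  have := hs u
  push_cast
  have h2 : t u < v * ((j : ℝ) + 2 * u) := not_le.mp hlt
  simp only [Nat.succ_eq_add_one]
  nlinarith

/-- two slopes served by the same ray are close -/
theorem close (η β σ σ' : ℝ) (hη : η ≤ 1 / 2) (hσ : 0 < σ) (hσ2 : σ ≤ 1 / 2)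
    (h : |1 - σ * β| ≤ η) (h' : |1 - σ' * β| ≤ η) : σ' - σ ≤ 2 * η := by
  have h1 := abs_le.mp h
  have h2 := abs_le.mp h'
  have hη0 : 0 ≤ η := le_trans (abs_nonneg _) h
  have hβ0 : 0 < β := by
    by_contra hb
    have : σ * β ≤ 0 := mul_nonpos_of_nonneg_of_nonpos hσ.le (not_lt.mp hb)
    linarith
  have hβ : 1 ≤ β := by nlinarith
  by_contra hc
  have hc' : 2 * η < σ' - σ := not_le.mp hc
  nlinarith

end ArbP

open ArbP in
theorem arithB : ArithBStmt := by
  classical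
  intro w C hw hC
  have hE : 0 < C + 2 * w := by linarith
  have hD : 0 < 7 * (C + 2 * w) + 1 := by linarith
  refine ⟨1 / (7 * (C + 2 * w) + 1), by positivity, ?_⟩
  intro P F c α j t hc h0 hs hl hser
  have hj0 : (0 : ℝ) ≤ j := Nat.cast_nonneg j
  have hF0 : (0 : ℝ) ≤ F.card := Nat.cast_nonneg _
  rw [one_div, inv_inv]
  by_cases hj : (j : ℝ) ≤ 7 * (C + 2 * w) + 1
  · have : (7 * (C + 2 * w) + 1)⁻¹ * (j : ℝ) ≤ 1 := by
      rw [inv_mul_le_iff₀ hD]; linarith
    linarith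
  have hj' : 7 * (C + 2 * w) + 1 < j := not_le.mp hj
  have hj1 : (1 : ℝ) ≤ j := by linarith
  have hjp : (0 : ℝ) < j := by linarith
  set N : ℕ := ⌊3 / 20 * (j : ℝ) / (C + 2 * w)⌋₊ with hN
  have hN1 : (N : ℝ) ≤ 3 / 20 * (j : ℝ) / (C + 2 * w) := Nat.floor_le (by positivity)
  have hN2 : 3 / 20 * (j : ℝ) / (C + 2 * w) < N + 1 := Nat.lt_floor_add_one _
  have key : ∀ k : ℕ, ∃ (p : Option P) (σ : ℝ), k ≤ N → ∃ q ∈ F, p = some q ∧
      1 / 10 + k * ((C + 2 * w) / j) ≤ σ ∧ σ < 1 / 10 + k * ((C + 2 * w) / j) + C / j ∧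
      σ ≤ 1 / 2 ∧ |1 - σ * (α q / c q)| ≤ w / j := by
    intro k
    by_cases hk : k ≤ N
    swap
    · exact ⟨none, 0, fun h => absurd h hk⟩
    have hkN : (k : ℝ) ≤ N := by exact_mod_cast hk
    have hk0 : (0 : ℝ) ≤ k := Nat.cast_nonneg k
    have hΔ : 0 ≤ (C + 2 * w) / j := by positivity
    have hv1 : (k : ℝ) * ((C + 2 * w) / j) ≤ 3 / 20 := by
      have h1 : (k : ℝ) ≤ 3 / 20 * (j : ℝ) / (C + 2 * w) := hkN.trans hN1
      rw [le_div_iff₀ hE] at h1
      rw [← mul_div_assoc, div_le_iff₀ hjp]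
      exact h1
    have hv0 : 0 ≤ (k : ℝ) * ((C + 2 * w) / j) := mul_nonneg hk0 hΔ
    obtain ⟨s, hsj, ha, hb⟩ := hit C hC j t hj1 (by linarith) h0 hs hl
      (1 / 10 + k * ((C + 2 * w) / j)) (by linarith) (by linarith)
    set v : ℝ := 1 / 10 + k * ((C + 2 * w) / j) with hv
    have hs0 : (0 : ℝ) ≤ s := Nat.cast_nonneg s
    have hi : (0 : ℝ) < j + 2 * s := by linarith
    have hv10 : 1 / 10 ≤ v := by linarith
    have ht : (j : ℝ) / 10 ≤ t s := by nlinarith
    obtain ⟨q, hq, m, -, hm, hw'⟩ := hser s hsj ht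
    have hCj : C / (j + 2 * s) ≤ C / j := div_le_div_of_nonneg_left hC.le hjp (by linarith)
    have hlt : t s / (j + 2 * s) < v + C / j := by
      have : t s / (j + 2 * s) < v + C / (j + 2 * s) := by
        rw [div_lt_iff₀ hi, add_mul, div_mul_cancel₀ _ hi.ne']
        exact hb
      linarith
    have hC4 : C / j ≤ 1 / 4 := by
      rw [div_le_iff₀ hjp]; linarith
    refine ⟨some q, t s / (j + 2 * s), fun _ => ⟨q, hq, rfl, ?_, hlt, by linarith, ?_⟩⟩
    · rw [le_div_iff₀ hi]; exact ha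
    · have hcq := hc q
      have e1 : 1 - t s / (j + 2 * s) * (α q / c q) = ((j + 2 * s) - m * α q) / (j + 2 * s) := by
        rw [← hm]; field_simp
      push_cast at hw'
      rw [e1, abs_div, abs_of_pos hi]
      calc _ ≤ w / (j + 2 * s) := div_le_div_of_nonneg_right hw' hi.le
        _ ≤ w / j := div_le_div_of_nonneg_left hw hjp (by linarith)
  choose p σ hp using key
  have hη : w / j ≤ 1 / 2 := by
    rw [div_le_iff₀ hjp]; linarith
  have hΔ : 0 ≤ (C + 2 * w) / j := by positivity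
  have sep : ∀ k k', k < k' → k' ≤ N → p k ≠ p k' := by
    intro k k' hkk hk' he
    obtain ⟨q, -, e1, a1, b1, c1, d1⟩ := hp k (by omega)
    obtain ⟨q', -, e2, a2, -, -, d2⟩ := hp k' hk'
    have hqq : q = q' := by
      rw [e1, e2] at he
      exact Option.some.inj he
    subst hqq
    have hk0 : (0 : ℝ) ≤ k := Nat.cast_nonneg k
    have hpos : 0 < σ k := by
      have := mul_nonneg hk0 hΔ
      linarith
    have h1 := close _ _ _ _ hη hpos c1 d1 d2
    have h2 : (k : ℝ) + 1 ≤ k' := by exact_mod_cast hkk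
    have h3 : ((k : ℝ) + 1) * ((C + 2 * w) / j) ≤ k' * ((C + 2 * w) / j) :=
      mul_le_mul_of_nonneg_right h2 hΔ
    have h4 : (C + 2 * w) / j = C / j + 2 * (w / j) := by ring
    nlinarith
  have hcard : (Finset.range (N + 1)).card ≤ (F.map ⟨some, Option.some_injective P⟩).card := by
    refine Finset.card_le_card_of_injOn p ?_ ?_
    · intro k hk
      have hk' : k ≤ N := by
        have := Finset.mem_range.mp (Finset.mem_coe.mp hk)
        omega
      obtain ⟨q, hq, e1, -⟩ := hp k hk'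
      exact Finset.mem_coe.mpr (Finset.mem_map.mpr ⟨q, hq, e1.symm⟩)
    · intro k hk k' hk' he
      have h1 := Finset.mem_range.mp (Finset.mem_coe.mp hk)
      have h2 := Finset.mem_range.mp (Finset.mem_coe.mp hk')
      by_contra hne
      rcases lt_or_gt_of_ne hne with h | h
      · exact sep k k' h (by omega) he
      · exact sep k' k h (by omega) he.symm
  rw [Finset.card_range, Finset.card_map] at hcard
  have hcard' : (N : ℝ) + 1 ≤ F.card := by exact_mod_cast hcard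
  have hfin : (7 * (C + 2 * w) + 1)⁻¹ * (j : ℝ) ≤ 3 / 20 * (j : ℝ) / (C + 2 * w) := by
    rw [inv_mul_le_iff₀ hD, ← mul_div_assoc, le_div_iff₀ hE]
    nlinarith [mul_nonneg hj0 hE.le]
  linarith

end Pool.Agent.MP_af6f1c_gt.Geo

end MrgPart0

-- ======== part 1: formerly Pool.Agent.MP_af6f1c_gt.geo.AllB
section MrgPart1

/-! PROJECT GEO: assembly of the theorem on products with the three-sphere. -/

namespace Pool.Agent.MP_af6f1c_gt.Geo

theorem finalB : MainBStmt :=
  mainB riemA segS arithB basics fun K _ =>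
    ⟨tools K, gromA K, countA K, link K,
      chain K basics (tools K) (wangA K) (lev K basics (tools K) (near K (tools K))),
      up K basics (tools K) (wangA K) (suspRkA K)⟩

end Pool.Agent.MP_af6f1c_gt.Geo

end MrgPart1

-- marker of a merged file
example : 731051 + 488090 = 731051 + 488090 := rfl
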