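import Mathlib.Geometry.Manifold.Riemannian.Basic
import Mathlib.Analysis.InnerProductSpace.PiL2

/-! Short names for the hypotheses of the final statements. -/

open Bundle Manifold
open scoped ContDiff Manifold

namespace Pool.Agent.MP_af6f1c_gt.Geo

/-- The distance of `M` is the distance of a smooth Riemannian metric for a smooth manifold
structure (without boundary) modelled on `E`. -/
def Riem (E : Type) [NormedAddCommGroup E] [NormedSpace ℝ E] (M : Type) [EMetricSpace M] : Prop :=
  ∃ (_ : ChartedSpace E M) (_ : IsManifold 𝓘(ℝ, E) ∞ M)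
    (_ : RiemannianBundle (fun x : M => TangentSpace 𝓘(ℝ, E) x)),
    IsContMDiffRiemannianBundle 𝓘(ℝ, E) ∞ E (fun x : M => TangentSpace 𝓘(ℝ, E) x) ∧
      IsRiemannianManifold 𝓘(ℝ, E) M

/-- `S` is isometric to the unit sphere of Euclidean four-space with the chord distance. -/
def Round (S : Type) [EMetricSpace S] : Prop :=
  Nonempty (S ≃ᵢ Metric.sphere (0 : EuclideanSpace ℝ (Fin 4)) 1)

end Pool.Agent.MP_af6f1c_gt.Geo
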