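import Mathlib.Analysis.SpecialFunctions.Trigonometric.Inverse
import Mathlib.Topology.EMetricSpace.Defs

/-! The great circle distance on a unit sphere, from the chord distance. -/

namespace Pool.Agent.MP_af6f1c_gt.Geo

/-- The angle (great circle distance) between two points of a unit sphere, computed from their
chord distance. -/
noncomputable def Arc {S : Type} [EMetricSpace S] (u v : S) : ℝ :=
  Real.arccos (1 - (edist u v).toReal ^ 2 / 2)

end Pool.Agent.MP_af6f1c_gt.Geo
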