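import Mathlib.Geometry.Manifold.ContMDiff.Atlas
import Mathlib.Geometry.Manifold.ContMDiff.NormedSpace
import Mathlib.Analysis.Calculus.ContDiff.Operations
import Pool.Agent.MP_af6f1c_gt.geo.Spec
import Pool.Agent.MP_af6f1c_gt.geo.Base

-- ======== part 0: formerly Pool.Agent.MP_af6f1c_gt.geo.R6
section MrgPart0

/-! PROJECT GEO, row R6: the geodesic structure of a compact Riemannian manifold. -/

open Set Topology Metric Module Bundle Filter
open scoped ContDiff ENNReal Manifold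

noncomputable section

namespace Pool.Agent.MP_af6f1c_gt.Geo

namespace R6P

section calc1

variable {E : Type} [NormedAddCommGroup E] [NormedSpace ℝ E]

/-- a product of two coordinate changes has no mixed second derivative -/
theorem mixed (F : E × E → ℝ) (α β : E → E) (a b : E) (hF : ContDiffAt ℝ 2 F (α a, β b))
    (hα : ContDiffAt ℝ 2 α a) (hβ : ContDiffAt ℝ 2 β b) (u v : E) :
    D2 (fun w : E × E => F (α w.1, β w.2)) (a, b) (u, 0) (0, v) =
      D2 F (α a, β b) (fderiv ℝ α a u, 0) (0, fderiv ℝ β b v) := by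
  set G : E × E → ℝ := fun w => F (α w.1, β w.2) with hG
  have hΦ : ContDiffAt ℝ 2 (fun w : E × E => (α w.1, β w.2)) (a, b) :=
    (hα.comp (a, b) contDiffAt_fst).prodMk (hβ.comp (a, b) contDiffAt_snd)
  have hGc : ContDiffAt ℝ 2 G (a, b) := ContDiffAt.comp (g := F) (a, b) hF hΦ
  have hG1 : DifferentiableAt ℝ (fderiv ℝ G) (a, b) :=
    (hGc.fderiv_right (m := 1) (by norm_num)).differentiableAt (by norm_num)
  have hF1 : DifferentiableAt ℝ (fderiv ℝ F) (α a, β b) :=
    (hF.fderiv_right (m := 1) (by norm_num)).differentiableAt (by norm_num)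
  have hαd : HasFDerivAt α (fderiv ℝ α a) a := (hα.differentiableAt (by norm_num)).hasFDerivAt
  have hβd : HasFDerivAt β (fderiv ℝ β b) b := (hβ.differentiableAt (by norm_num)).hasFDerivAt
  have h1 : HasFDerivAt (fun x => fderiv ℝ G (x, b) (0, v))
      ((ContinuousLinearMap.apply ℝ ℝ ((0, v) : E × E)).comp
        ((D2 G (a, b)).comp (ContinuousLinearMap.inl ℝ E E))) a :=
    (ContinuousLinearMap.apply ℝ ℝ ((0, v) : E × E)).hasFDerivAt.comp a
      (HasFDerivAt.comp (f := fun x : E => (x, b)) a hG1.hasFDerivAt (hasFDerivAt_prodMk_left a b))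
  have h2 : HasFDerivAt (fun x => fderiv ℝ F (α x, β b) (0, fderiv ℝ β b v))
      ((ContinuousLinearMap.apply ℝ ℝ ((0, fderiv ℝ β b v) : E × E)).comp
        ((D2 F (α a, β b)).comp ((fderiv ℝ α a).prod 0))) a :=
    (ContinuousLinearMap.apply ℝ ℝ ((0, fderiv ℝ β b v) : E × E)).hasFDerivAt.comp a
      (HasFDerivAt.comp (f := fun x : E => (α x, β b)) a hF1.hasFDerivAt
        (hαd.prodMk (hasFDerivAt_const (β b) a)))
  have e1 : ∀ᶠ x in 𝓝 a, DifferentiableAt ℝ α x :=
    (hα.eventually (by simp)).mono fun x hx => hx.differentiableAt (by norm_num)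
  have e2 : ∀ᶠ x in 𝓝 a, DifferentiableAt ℝ F (α x, β b) := by
    have t : ContinuousAt (fun x => (α x, β b)) a := hα.continuousAt.prodMk continuousAt_const
    exact t.eventually
      ((hF.eventually (by simp)).mono fun x hx => hx.differentiableAt (by norm_num))
  have e3 : (fun x => fderiv ℝ G (x, b) (0, v)) =ᶠ[𝓝 a]
      fun x => fderiv ℝ F (α x, β b) (0, fderiv ℝ β b v) := by
    filter_upwards [e1, e2] with x hx1 hx2
    have p1 : HasFDerivAt (fun w : E × E => α w.1)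
        ((fderiv ℝ α x).comp (ContinuousLinearMap.fst ℝ E E)) (x, b) :=
      HasFDerivAt.comp (g := α) (f := Prod.fst) (x, b) hx1.hasFDerivAt hasFDerivAt_fst
    have p2 : HasFDerivAt (fun w : E × E => β w.2)
        ((fderiv ℝ β b).comp (ContinuousLinearMap.snd ℝ E E)) (x, b) :=
      HasFDerivAt.comp (g := β) (f := Prod.snd) (x, b) hβd hasFDerivAt_snd
    have p3 := HasFDerivAt.comp (g := F) (f := fun w : E × E => (α w.1, β w.2)) (x, b)
      hx2.hasFDerivAt (p1.prodMk p2)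
    have p4 : fderiv ℝ G (x, b) = _ := p3.fderiv
    rw [p4]
    simp
  have h3 := (h2.congr_of_eventuallyEq e3).unique h1
  have h4 := congrArg (fun L : E →L[ℝ] ℝ => L u) h3
  simpa using h4.symm

theorem bij [FiniteDimensional ℝ E] (α α' : E → E) (a : E) (hα : DifferentiableAt ℝ α a)
    (hα' : DifferentiableAt ℝ α' (α a)) (h : (fun x => α' (α x)) =ᶠ[𝓝 a] fun x => x) :
    Function.Bijective (fderiv ℝ α a) := by
  have h1 := (hα'.hasFDerivAt.comp a hα.hasFDerivAt).unique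
    ((hasFDerivAt_id a).congr_of_eventuallyEq h)
  have inj : Function.Injective (fderiv ℝ α a) := by
    intro x y hxy
    have hx := congrArg (fun L : E →L[ℝ] E => L x) h1
    have hy := congrArg (fun L : E →L[ℝ] E => L y) h1
    simp only [ContinuousLinearMap.comp_apply, ContinuousLinearMap.id_apply] at hx hy
    rw [← hx, ← hy, hxy]
  exact ⟨inj, (LinearMap.injective_iff_surjective (f := (fderiv ℝ α a).toLinearMap)).1 inj⟩

theorem tw (F : E × E → ℝ) (α β : E → E) (a b : E) (hF : ContDiffAt ℝ 2 F (α a, β b))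
    (hα : ContDiffAt ℝ 2 α a) (hβ : ContDiffAt ℝ 2 β b)
    (bα : Function.Bijective (fderiv ℝ α a)) (bβ : Function.Bijective (fderiv ℝ β b))
    (h : Tw (D2 F (α a, β b))) : Tw (D2 (fun w : E × E => F (α w.1, β w.2)) (a, b)) := by
  constructor
  · intro u hu
    apply bα.1
    rw [map_zero]
    refine h.1 _ fun v => ?_
    obtain ⟨v, rfl⟩ := bβ.2 v
    rw [← mixed F α β a b hF hα hβ]
    exact hu v
  · intro v hv
    apply bβ.1
    rw [map_zero]
    refine h.2 _ fun u => ?_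
    obtain ⟨u, rfl⟩ := bα.2 u
    rw [← mixed F α β a b hF hα hβ]
    exact hv u

end calc1

section charts

variable {n : ℕ} {M : Type} [MetricSpace M] [ChartedSpace (Eu n) M] [IsManifold (𝓡 n) ∞ M]

theorem trans_smooth (p q x : M) (hp : x ∈ (chartAt (Eu n) p).source)
    (hq : x ∈ (chartAt (Eu n) q).source) :
    ContDiffAt ℝ 2 (fun y => chartAt (Eu n) p ((chartAt (Eu n) q).symm y)) (chartAt (Eu n) q x) := by
  have h1 : ContMDiffAt (𝓡 n) (𝓡 n) ∞ (chartAt (Eu n) q).symm (chartAt (Eu n) q x) :=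
    (contMDiffOn_chart_symm (I := 𝓡 n) (n := ∞) (x := q)).contMDiffAt
      ((chartAt (Eu n) q).open_target.mem_nhds ((chartAt (Eu n) q).map_source hq))
  have h2 : ContMDiffAt (𝓡 n) (𝓡 n) ∞ (chartAt (Eu n) p)
      ((chartAt (Eu n) q).symm (chartAt (Eu n) q x)) := by
    rw [(chartAt (Eu n) q).left_inv hq]
    exact (contMDiffOn_chart (I := 𝓡 n) (n := ∞) (x := p)).contMDiffAt
      ((chartAt (Eu n) p).open_source.mem_nhds hp)
  exact (contMDiffAt_iff_contDiffAt.1 (h2.comp _ h1)).of_le (WithTop.coe_le_coe.2 (le_top : (2 : ℕ∞) ≤ ⊤))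

omit [IsManifold (𝓡 n) ∞ M] in
theorem ev_mem (p q x : M) (hp : x ∈ (chartAt (Eu n) p).source)
    (hq : x ∈ (chartAt (Eu n) q).source) :
    ∀ᶠ y in 𝓝 (chartAt (Eu n) q x), y ∈ (chartAt (Eu n) q).target ∧
      (chartAt (Eu n) q).symm y ∈ (chartAt (Eu n) p).source := by
  have ht := (chartAt (Eu n) q).map_source hq
  refine Eventually.and ((chartAt (Eu n) q).open_target.mem_nhds ht) ?_
  refine ((chartAt (Eu n) q).continuousAt_symm ht).eventually ?_
  rw [(chartAt (Eu n) q).left_inv hq]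
  exact (chartAt (Eu n) p).open_source.mem_nhds hp

theorem trans_bij (p q x : M) (hp : x ∈ (chartAt (Eu n) p).source)
    (hq : x ∈ (chartAt (Eu n) q).source) :
    Function.Bijective (fderiv ℝ (fun y => chartAt (Eu n) p ((chartAt (Eu n) q).symm y))
      (chartAt (Eu n) q x)) := by
  refine bij _ (fun y => chartAt (Eu n) q ((chartAt (Eu n) p).symm y)) _
    ((trans_smooth p q x hp hq).differentiableAt (by norm_num)) ?_ ?_
  · rw [(chartAt (Eu n) q).left_inv hq]
    exact (trans_smooth q p x hq hp).differentiableAt (by norm_num)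
  · filter_upwards [ev_mem p q x hp hq] with y hy
    rw [(chartAt (Eu n) p).left_inv hy.2, (chartAt (Eu n) q).right_inv hy.1]

theorem change (p x y : M) (hx : x ∈ (chartAt (Eu n) p).source)
    (hy : y ∈ (chartAt (Eu n) p).source)
    (h : ContDiffAt ℝ 2 (sqd (chartAt (Eu n) p) (chartAt (Eu n) p))
        (chartAt (Eu n) p x, chartAt (Eu n) p y) ∧
      Tw (D2 (sqd (chartAt (Eu n) p) (chartAt (Eu n) p)) (chartAt (Eu n) p x, chartAt (Eu n) p y))) :
    ContDiffAt ℝ 2 (sqd (chartAt (Eu n) x) (chartAt (Eu n) y))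
        (chartAt (Eu n) x x, chartAt (Eu n) y y) ∧
      Tw (D2 (sqd (chartAt (Eu n) x) (chartAt (Eu n) y))
        (chartAt (Eu n) x x, chartAt (Eu n) y y)) := by
  have mx := mem_chart_source (Eu n) x
  have my := mem_chart_source (Eu n) y
  set α : Eu n → Eu n := fun z => chartAt (Eu n) p ((chartAt (Eu n) x).symm z) with hα
  set β : Eu n → Eu n := fun z => chartAt (Eu n) p ((chartAt (Eu n) y).symm z) with hβ
  have ea : α (chartAt (Eu n) x x) = chartAt (Eu n) p x := by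
    simp only [hα, (chartAt (Eu n) x).left_inv mx]
  have eb : β (chartAt (Eu n) y y) = chartAt (Eu n) p y := by
    simp only [hβ, (chartAt (Eu n) y).left_inv my]
  rw [← ea, ← eb] at h
  have sα : ContDiffAt ℝ 2 α _ := trans_smooth p x x hx mx
  have sβ : ContDiffAt ℝ 2 β _ := trans_smooth p y y hy my
  have ev : sqd (chartAt (Eu n) x) (chartAt (Eu n) y) =ᶠ[𝓝 (chartAt (Eu n) x x, chartAt (Eu n) y y)]
      fun w => sqd (chartAt (Eu n) p) (chartAt (Eu n) p) (α w.1, β w.2) := by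
    have t1 := (continuous_fst.tendsto (chartAt (Eu n) x x, chartAt (Eu n) y y)).eventually
      (ev_mem p x x hx mx)
    have t2 := (continuous_snd.tendsto (chartAt (Eu n) x x, chartAt (Eu n) y y)).eventually
      (ev_mem p y y hy my)
    filter_upwards [t1, t2] with w h1 h2
    simp only [sqd, hα, hβ, (chartAt (Eu n) p).left_inv h1.2, (chartAt (Eu n) p).left_inv h2.2]
  constructor
  · refine ContDiffAt.congr_of_eventuallyEq ?_ ev
    exact ContDiffAt.comp (g := sqd (chartAt (Eu n) p) (chartAt (Eu n) p))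
      (f := fun w : Eu n × Eu n => (α w.1, β w.2)) _ h.1
      ((ContDiffAt.comp (g := α) (f := Prod.fst) _ sα contDiffAt_fst).prodMk
        (ContDiffAt.comp (g := β) (f := Prod.snd) _ sβ contDiffAt_snd))
  · have e2 : D2 (sqd (chartAt (Eu n) x) (chartAt (Eu n) y))
        (chartAt (Eu n) x x, chartAt (Eu n) y y) = _ := ev.fderiv.fderiv_eq
    rw [e2]
    exact tw _ α β _ _ h.1 sα sβ (trans_bij p x x hx mx) (trans_bij p y y hy my) h.2

end charts

end R6P

open R6P in
theorem riem (h1 : ChartMetricStmt) (h2 : GeodStmt) (h3 : VarStmt) (h4 : DistStmt)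
    (h5 : LocalStmt) : RiemStmt := by
  intro n M _ _ _ _ _ _ _
  have loc : ∀ p : M, ∃ s > (0 : ℝ), ball p (2 * s) ⊆ (chartAt (Eu n) p).source ∧
      Short (ball p s) s ∧ ∀ x ∈ ball p (2 * s), ∀ y ∈ ball p (2 * s),
        ContDiffAt ℝ 2 (sqd (chartAt (Eu n) p) (chartAt (Eu n) p))
          (chartAt (Eu n) p x, chartAt (Eu n) p y) ∧
        Tw (D2 (sqd (chartAt (Eu n) p) (chartAt (Eu n) p))
          (chartAt (Eu n) p x, chartAt (Eu n) p y)) := by
    intro p
    obtain ⟨g, hg⟩ := h1 n M p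
    have mp := mem_chart_source (Eu n) p
    obtain ⟨D⟩ := h2 n g _ _ (chartAt (Eu n) p).open_target ((chartAt (Eu n) p).map_source mp)
      hg.smooth hg.symm hg.pos
    have hV := h3 n g _ _ D (chartAt (Eu n) p).open_target hg.smooth hg.symm
    obtain ⟨r, hr, a1, a2, a3⟩ := h4 n M _ g p D mp hg hV
    exact h5 n M _ g p D r mp hg hV hr a1 a2 a3
  choose s hs sub sh sm using loc
  obtain ⟨T, hT⟩ := isCompact_univ.elim_finite_subcover (fun p : M => ball p (s p))
    (fun _ => isOpen_ball) fun x _ => mem_iUnion.2 ⟨x, mem_ball_self (hs x)⟩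
  obtain ⟨ρ, hρ, hle⟩ : ∃ ρ > (0 : ℝ), ∀ p ∈ T, ρ ≤ s p := by
    have : ∀ᶠ ρ in 𝓝[>] (0 : ℝ), ∀ p ∈ T, ρ ≤ s p :=
      (eventually_all_finset T).2 fun p _ =>
        mem_nhdsWithin_of_mem_nhds (Iic_mem_nhds (hs p))
    obtain ⟨ρ, h, h'⟩ := (this.and self_mem_nhdsWithin).exists
    exact ⟨ρ, h', h⟩
  have cov : ∀ x : M, ∃ p, ρ ≤ s p ∧ x ∈ ball p (s p) := by
    intro x
    obtain ⟨p, hp, hx⟩ := mem_iUnion₂.1 (hT (mem_univ x))
    exact ⟨p, hle p hp, hx⟩
  have key : ∀ x y : M, dist x y < ρ →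
      ContDiffAt ℝ 2 (sqd (chartAt (Eu n) x) (chartAt (Eu n) y))
        (chartAt (Eu n) x x, chartAt (Eu n) y y) ∧
      Tw (D2 (sqd (chartAt (Eu n) x) (chartAt (Eu n) y))
        (chartAt (Eu n) x x, chartAt (Eu n) y y)) := by
    intro x y hxy
    obtain ⟨p, hp, hx⟩ := cov x
    have hx' : dist x p < s p := hx
    have mx : x ∈ ball p (2 * s p) := by
      have := hs p
      rw [mem_ball]
      linarith
    have my : y ∈ ball p (2 * s p) := by
      have := dist_triangle y x p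
      rw [dist_comm y x] at this
      rw [mem_ball]
      linarith
    exact change p x y (sub p mx) (sub p my) (sm p x mx y my)
  refine ⟨ρ, chartAt (Eu n), hρ, ⟨?_, ?_, ?_, ?_⟩, mem_chart_source (Eu n),
    fun x y h => (key x y h).1, fun x y h => (key x y h).2⟩
  · intro x _ y hxy
    obtain ⟨p, hp, hx⟩ := cov x
    exact (sh p).btw x hx y (hxy.trans_le hp)
  · intro x _ y hxy t h h'
    obtain ⟨p, hp, hx⟩ := cov x
    exact (sh p).ext x hx y hxy t h (h'.trans_le hp)
  · intro x _ z y y' hz h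
    obtain ⟨p, hp, hx⟩ := cov x
    exact (sh p).nobr x hx z y y' hz (h.trans_le hp)
  · intro x _ a b m h h'
    obtain ⟨p, hp, hx⟩ := cov x
    exact (sh p).mid x hx a b m (h.trans_le hp) (h'.trans_le hp)

end Pool.Agent.MP_af6f1c_gt.Geo

end
end MrgPart0

-- ======== part 1: formerly Pool.Agent.MP_af6f1c_gt.geo.Wb
section MrgPart1

/-! PROJECT GEO, row WB: the index window and the uniform bound for the iterates. -/

set_option linter.unusedSectionVars false

open Set Topology Metric Module Filter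

noncomputable section

namespace Pool.Agent.MP_af6f1c_gt.Geo

namespace WbP

lemma exists_k {c ρ : ℝ} (hρ : 0 < ρ) : ∃ k : ℕ, 3 ≤ k ∧ 2 * c / k < ρ := by
  obtain ⟨k, hk⟩ := exists_nat_gt (2 * c / ρ)
  refine ⟨k + 3, by omega, ?_⟩
  have h0 : (0 : ℝ) < ((k + 3 : ℕ) : ℝ) := by positivity
  rw [div_lt_iff₀ h0]
  rw [div_lt_iff₀ hρ] at hk
  push_cast
  nlinarith

lemma small_div {c ρ : ℝ} {k m : ℕ} (hc : 0 < c) (hk : 3 ≤ k) (hm : 1 ≤ m)
    (h : 2 * c / k < ρ) : (m : ℝ) * c / ((k * m : ℕ) : ℝ) < ρ := by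
  have hk' : (0 : ℝ) < k := by exact_mod_cast (by omega : 0 < k)
  have hm' : (0 : ℝ) < m := by exact_mod_cast hm
  have e : (m : ℝ) * c / ((k * m : ℕ) : ℝ) = c / k := by
    push_cast
    field_simp
  rw [e]
  refine lt_of_le_of_lt ?_ h
  gcongr
  linarith

/-- from the local homology of one sample to the local homology of the geodesic -/
lemma locG {K : Type} [Field K] (h4 : TransStmt K) (h5 : CircStmt K) {n : ℕ} {M : Type}
    [MetricSpace M] [CompactSpace M] (G : GS M n) {γ : ℝ → M} {c : ℝ} (hγ : CG γ c) (N' : ℕ)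
    [NeZero N'] (hN' : c / N' < G.ρ) (i r : ℕ)
    (h : ∀ j, j ≤ i → i ≤ j + 1 → Lp K j (Sub M N' c) (smp N' γ) r) : LocG K i γ c (4 * r) := by
  obtain ⟨N₀, hN₀⟩ := exists_nat_gt (c / G.ρ)
  refine ⟨N₀, fun N _ hN => ?_⟩
  have hρ := G.g0.pos
  have hNp : (0 : ℝ) < N := by exact_mod_cast Nat.pos_of_ne_zero (NeZero.ne N)
  have hs : c / N < G.ρ := by
    have h1 : (N₀ : ℝ) ≤ N := by exact_mod_cast hN
    rw [div_lt_iff₀ hρ] at hN₀
    rw [div_lt_iff₀ hNp]
    nlinarith
  have hT := h4 n M G N N' γ c hγ hs hN'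
  obtain ⟨c0, c1⟩ := h5 n M G N γ c hγ hs
  cases i with
  | zero => exact (c0 r (hT 0 r (h 0 le_rfl (by omega)))).mono (by omega)
  | succ i =>
    exact (c1 i r r (hT i r (h i (by omega) le_rfl))
      (hT (i + 1) r (h (i + 1) le_rfl (by omega)))).mono (by omega)

lemma sum_zmod (N : ℕ) [NeZero N] (φ : ZMod N → ℝ) :
    ∑ j, φ j = ∑ i ∈ Finset.range N, φ (i : ZMod N) := by
  refine Finset.sum_nbij' (fun j => j.val) (fun i => (i : ZMod N)) ?_ ?_ ?_ ?_ ?_
  · intro j _
    simpa using ZMod.val_lt j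
  · intro i _
    simp
  · intro j _
    simp
  · intro i hi
    exact ZMod.val_cast_of_lt (by simpa using hi)
  · intro j _
    simp

lemma per_mul {α : Type} {S : ℕ → α} {k : ℕ} (h : ∀ j, S (j + k) = S j) (l j : ℕ) :
    S (j + k * l) = S j := by
  induction l with
  | zero => simp
  | succ l ih => rw [Nat.mul_succ, ← add_assoc, h, ih]

lemma per_mod {α : Type} {S : ℕ → α} {k : ℕ} (h : ∀ j, S (j + k) = S j) {a b : ℕ}
    (hab : a ≡ b [MOD k]) : S a = S b := by
  have key : ∀ a, S a = S (a % k) := fun a => by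
    conv_lhs => rw [← Nat.mod_add_div a k]
    exact per_mul h _ _
  rw [key a, key b, hab]

lemma sum_per {ψ : ℕ → ℝ} {T : ℕ} (h : ∀ j, ψ (j + T) = ψ j) (q : ℕ) :
    ∑ i ∈ Finset.range (T * q), ψ i = q * ∑ i ∈ Finset.range T, ψ i := by
  induction q with
  | zero => simp
  | succ q ih =>
    rw [Nat.mul_succ, Finset.sum_range_add, ih]
    have : ∑ x ∈ Finset.range T, ψ (T * q + x) = ∑ x ∈ Finset.range T, ψ x :=
      Finset.sum_congr rfl fun x _ => by rw [add_comm, per_mul h]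
    rw [this]
    push_cast
    ring

section af

variable {E : Type} [NormedAddCommGroup E] [NormedSpace ℝ E]

/-- the shift by `a` -/
def shf (E : Type) [NormedAddCommGroup E] [NormedSpace ℝ E] {N : ℕ} (a : ZMod N) :
    (ZMod N → E) →L[ℝ] (ZMod N → E) :=
  ContinuousLinearMap.pi fun j => ContinuousLinearMap.proj (j + a)

lemma shf_apply {N : ℕ} (a : ZMod N) (ξ : ZMod N → E) (j : ZMod N) : shf E a ξ j = ξ (j + a) :=
  rfl

lemma AF_shf {S : ℕ → E × E → ℝ} {k : ℕ} (h : ∀ j, S (j + k) = S j) {N : ℕ} [NeZero N]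
    (hN : k ∣ N) {a : ℕ} (ha : k ∣ a) (ξ : ZMod N → E) :
    AF S N (shf E (a : ZMod N) ξ) = AF S N ξ := by
  unfold AF
  rw [← Equiv.sum_comp (Equiv.addRight (a : ZMod N)) fun j => S j.val (ξ j, ξ (j + 1))]
  refine Finset.sum_congr rfl fun j _ => ?_
  have e : S j.val = S (j + (a : ZMod N)).val := by
    refine per_mod h ?_
    rw [ZMod.val_add, ZMod.val_natCast]
    refine Nat.ModEq.symm (((Nat.mod_modEq _ N).of_dvd hN).trans ?_)
    have h1 : a % N ≡ 0 [MOD k] :=
      ((Nat.mod_modEq a N).of_dvd hN).trans ((Nat.modEq_zero_iff_dvd).2 ha)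
    simpa using h1.add_left j.val
  simp only [shf_apply, Equiv.coe_addRight, e, add_right_comm j 1]

lemma shf_fix {N T : ℕ} {y : ZMod N → E} (hy : y ∈ Fx E N T) (l : ℕ) :
    shf E ((l * T : ℕ) : ZMod N) y = y := by
  funext j
  rw [shf_apply]
  induction l with
  | zero => simp
  | succ l ih =>
    have := hy (j + ((l * T : ℕ) : ZMod N))
    rw [← ih, ← this]
    congr 1
    push_cast
    ring

/-- the derivative at a periodic sequence kills the sequences with zero average -/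
lemma fderiv_zero {S : ℕ → E × E → ℝ} {k : ℕ} (h : ∀ j, S (j + k) = S j) {N T q : ℕ} [NeZero N]
    (hN : k ∣ N) (hT : k ∣ T) (hq : 1 ≤ q) {y u : ZMod N → E} (hy : y ∈ Fx E N T)
    (hd : DifferentiableAt ℝ (AF S N) y)
    (hu : ∀ j, ∑ l ∈ Finset.range q, u (j + (l * T : ℕ)) = 0) :
    fderiv ℝ (AF S N) y u = 0 := by
  have h1 : ∀ l : ℕ, fderiv ℝ (AF S N) y (shf E ((l * T : ℕ) : ZMod N) u) =
      fderiv ℝ (AF S N) y u := by
    intro l
    have e : AF S N ∘ shf E ((l * T : ℕ) : ZMod N) = AF S N :=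
      funext fun ξ => AF_shf h hN (hT.mul_left l) ξ
    have h2 : HasFDerivAt (AF S N) (fderiv ℝ (AF S N) y) (shf E ((l * T : ℕ) : ZMod N) y) := by
      rw [shf_fix hy]
      exact hd.hasFDerivAt
    have h3 := (h2.comp y (shf E ((l * T : ℕ) : ZMod N)).hasFDerivAt).fderiv
    rw [e] at h3
    conv_rhs => rw [h3]
    rfl
  have h2 : ∑ l ∈ Finset.range q, shf E ((l * T : ℕ) : ZMod N) u = 0 := by
    funext j
    rw [Finset.sum_apply]
    exact hu j
  have h3 := congrArg (fderiv ℝ (AF S N) y) h2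
  rw [map_sum, map_zero, Finset.sum_congr rfl fun l _ => h1 l, Finset.sum_const,
    Finset.card_range, nsmul_eq_mul] at h3
  have hq' : (q : ℝ) ≠ 0 := by exact_mod_cast (by omega : q ≠ 0)
  exact (mul_eq_zero.1 h3).resolve_left hq'

/-- periodic extension -/
def ext (N T : ℕ) (ξ : ZMod T → E) : ZMod N → E := fun j => ξ (j.val : ZMod T)

lemma cast_val_add {N T : ℕ} [NeZero N] (hTN : T ∣ N) (j : ZMod N) (a : ℕ) :
    (((j + (a : ZMod N)).val : ℕ) : ZMod T) = (j.val : ZMod T) + a := by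
  rw [← Nat.cast_add, ZMod.natCast_eq_natCast_iff, ZMod.val_add, ZMod.val_natCast]
  exact ((Nat.mod_modEq _ N).of_dvd hTN).trans
    (((Nat.mod_modEq a N).of_dvd hTN).add_left j.val)

lemma ext_mem {N T : ℕ} [NeZero N] (hTN : T ∣ N) (ξ : ZMod T → E) : ext N T ξ ∈ Fx E N T := by
  intro j
  simp only [ext]
  rw [cast_val_add hTN]
  simp

lemma AF_ext {S : ℕ → E × E → ℝ} {k : ℕ} (h : ∀ j, S (j + k) = S j) {N T q : ℕ} [NeZero N]
    [NeZero T] (hN : N = T * q) (hT : k ∣ T) (ξ : ZMod T → E) :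
    AF S N (ext N T ξ) = q * AF S T ξ := by
  have hTN : T ∣ N := ⟨q, hN⟩
  let ψ : ℕ → ℝ := fun i => S i (ξ (i : ZMod T), ξ ((i : ZMod T) + 1))
  have hψ : ∀ j, ψ (j + T) = ψ j := fun j => by
    obtain ⟨l, rfl⟩ := hT
    simp only [ψ, per_mul h]
    simp
  have e1 : AF S N (ext N T ξ) = ∑ i ∈ Finset.range N, ψ i := by
    unfold AF
    rw [sum_zmod]
    refine Finset.sum_congr rfl fun i hi => ?_
    have hi' : ((i : ZMod N)).val = i := ZMod.val_cast_of_lt (by simpa using hi)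
    have h1 := cast_val_add hTN (i : ZMod N) 1
    simp only [Nat.cast_one, hi'] at h1
    simp only [ψ, ext, hi', h1]
  have e2 : AF S T ξ = ∑ i ∈ Finset.range T, ψ i := by
    unfold AF
    rw [sum_zmod]
    refine Finset.sum_congr rfl fun i hi => ?_
    have hi' : ((i : ZMod T)).val = i := ZMod.val_cast_of_lt (by simpa using hi)
    simp only [ψ, hi']
  rw [e1, e2, hN, sum_per hψ]

lemma ext_res {N T : ℕ} [NeZero N] {y : ZMod N → E} (hy : y ∈ Fx E N T) :
    ext N T (ext T N y) = y := by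
  funext j
  simp only [ext, ZMod.val_natCast]
  have h1 := congrFun (shf_fix hy (j.val / T)) ((j.val % T : ℕ) : ZMod N)
  rw [shf_apply, ← Nat.cast_add, mul_comm, Nat.mod_add_div] at h1
  rw [← h1]
  simp

/-- the local homology of the restriction to the periodic sequences -/
lemma lp_fix {K : Type} [Field K] (T : Tools K) {S : ℕ → E × E → ℝ} {k : ℕ}
    (h : ∀ j, S (j + k) = S j) {N P q : ℕ} [NeZero N] [NeZero P] (hN : N = P * q) (hP : k ∣ P)
    (hq : 1 ≤ q) {j r : ℕ} (hl : Lp K j {ξ | AF S P ξ < AF S P 0} 0 r) :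
    Lp K j {y : Fx E N P | AF S N y < AF S N 0} 0 r := by
  have hPN : P ∣ N := ⟨q, hN⟩
  have hq' : (0 : ℝ) < q := by exact_mod_cast hq
  have e0 : AF S N 0 = q * AF S P 0 := AF_ext h hN hP 0
  refine T.dom (Fx E N P) (ZMod P → E) (fun y => ext P N y) (fun ξ => ⟨ext N P ξ, ext_mem hPN ξ⟩)
    (fun p => p.2) 0 0 _ univ _ univ j r univ_mem univ_mem ?_ ?_ rfl rfl ?_ ?_
    continuous_snd.continuousOn (fun _ _ => rfl) (fun y _ => Subtype.ext (ext_res y.2).symm)
    (fun _ _ => rfl) (fun p hp => hp.2.2) hl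
  · refine Continuous.continuousOn (continuous_pi fun i => ?_)
    exact (continuous_apply _).comp continuous_subtype_val
  · refine Continuous.continuousOn (Continuous.subtype_mk (continuous_pi fun i => ?_) _)
    exact continuous_apply _
  · intro y hy
    have h1 : AF S N y < AF S N 0 := hy.2
    have h2 := AF_ext h hN hP (ext P N (y : ZMod N → E))
    rw [ext_res y.2] at h2
    rw [h2, e0] at h1
    exact lt_of_mul_lt_mul_left h1 hq'.le
  · intro ξ hξ
    have h1 : AF S P ξ < AF S P 0 := hξ.2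
    show AF S N (ext N P ξ) < AF S N 0
    rw [AF_ext h hN hP, e0]
    exact mul_lt_mul_of_pos_left h1 hq'

end af

end WbP

open WbP

theorem win (K : Type) [Field K] (h1 : ChartStmt K) (h2 : IndexStmt) (h3 : SplitVStmt K)
    (h4 : TransStmt K) (h5 : CircStmt K) : WinStmt K := by
  intro n M _ _ G γ c hγ
  obtain ⟨k, hk, hkρ⟩ := exists_k (c := c) G.g0.pos
  obtain ⟨S, hper, -, htw, hsym, hS⟩ := h1 n M G γ c k hγ hk hkρ
  obtain ⟨α, hα⟩ := h2 n k (fun j => D2 (S j) 0) hk (fun j => by simp only [hper]) hsym htw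
  refine ⟨α, fun m i hm hi => ?_⟩
  have : NeZero (k * m) := ⟨Nat.mul_ne_zero (by omega) (by omega)⟩
  obtain ⟨hc2, hd0, hD2, hiff⟩ := hS m (k * m) rfl
  obtain ⟨Um, Up, hUm, hUp, dm, dp⟩ := hα m (k * m) rfl
  have := locG h4 h5 G (hγ.itr hm) (k * m) (small_div hγ.2.2.1 hk hm hkρ) i 0 fun j hj1 hj2 => ?_
  · simpa using this
  refine (hiff j 0).1 ?_
  have hj1' : (j : ℝ) ≤ i := by exact_mod_cast hj1
  have hj2' : (i : ℝ) ≤ j + 1 := by exact_mod_cast hj2
  have hn : (0 : ℝ) ≤ n := Nat.cast_nonneg n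
  rcases lt_abs.1 hi with hi | hi
  · refine (h3 _ (AF S (k * m)) Up hc2 hd0).2 (fun u hu h0 => by rw [hD2]; exact hUp u hu h0) j ?_
    have e : finrank ℝ (ZMod (k * m) → Eu n) = n * (k * m) := by
      rw [Module.finrank_pi_fintype]
      simp [ZMod.card, mul_comm]
    rw [e]
    have : ((n * (k * m) : ℕ) : ℝ) < ((j + finrank ℝ Up : ℕ) : ℝ) := by
      rw [Nat.cast_mul n, Nat.cast_add]
      linarith
    exact_mod_cast this
  · refine (h3 _ (AF S (k * m)) Um hc2 hd0).1 (fun u hu h0 => by rw [hD2]; exact hUm u hu h0) j ?_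
    have : (j : ℝ) < finrank ℝ Um := by linarith
    exact_mod_cast this

theorem bnd (K : Type) [Field K] (T : Tools K) (h1 : ChartStmt K) (h2 : TypeStmt)
    (h3 : SplitBStmt K) (h4 : TransStmt K) (h5 : CircStmt K) (h6 : FinlStmt K) : BndStmt K := by
  intro n M _ _ G γ c hF hγ
  obtain ⟨k, hk, hkρ⟩ := exists_k (c := c) G.g0.pos
  obtain ⟨S, hper, -, htw, hsym, hS⟩ := h1 n M G γ c k hγ hk hkρ
  obtain ⟨m₀, hm₀, hty⟩ :=
    h2 n k (fun j => D2 (S j) 0) hk (fun j => by simp only [hper]) hsym htw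
  have hfin : ∀ d : ℕ, ∃ r : ℕ, ∀ [NeZero (k * d)], 1 ≤ d →
      ∀ i, Lp K i {ξ | AF S (k * d) ξ < AF S (k * d) 0} 0 r := by
    intro d
    by_cases hd : 1 ≤ d
    · have : NeZero (k * d) := ⟨Nat.mul_ne_zero (by omega) (by omega)⟩
      obtain ⟨r, hr⟩ := h6 n M G (k * d) (itr d γ) (d * c) hF (hγ.itr hd)
        (small_div hγ.2.2.1 hk hd hkρ)
      exact ⟨r, fun _ i => ((hS d (k * d) rfl).2.2.2 i r).2 (hr i)⟩
    · exact ⟨0, fun h => absurd h hd⟩
  choose r hr using hfin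
  refine ⟨4 * ∑ d ∈ Finset.range (m₀ + 1), r d, fun m i hm => ?_⟩
  have : NeZero (k * m) := ⟨Nat.mul_ne_zero (by omega) (by omega)⟩
  obtain ⟨hc2, -, hD2, hiff⟩ := hS m (k * m) rfl
  obtain ⟨d, hdm, hd0, Nm, Np, hNm, hNp, hco, hav⟩ := hty m (k * m) rfl
  have hd1 : 1 ≤ d := Nat.pos_of_dvd_of_pos hdm hm
  have hq : 1 ≤ m / d := Nat.div_pos (Nat.le_of_dvd hm hdm) hd1
  have : NeZero (k * d) := ⟨Nat.mul_ne_zero (by omega) (by omega)⟩
  have hle : r d ≤ ∑ d ∈ Finset.range (m₀ + 1), r d :=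
    Finset.single_le_sum (fun _ _ => Nat.zero_le _)
      (Finset.mem_range.2 (Nat.lt_succ_of_le (Nat.le_of_dvd hm₀ hd0)))
  refine locG h4 h5 G (hγ.itr hm) (k * m) (small_div hγ.2.2.1 hk hm hkρ) i _ fun j _ _ => ?_
  refine ((hiff j _).1 ?_).mono hle
  refine h3 _ (AF S (k * m)) (Fx (Eu n) (k * m) (k * d)) Nm Np (r d) hc2 hco
    (fun u hu h0 => by rw [hD2]; exact hNm u hu h0)
    (fun u hu h0 => by rw [hD2]; exact hNp u hu h0) ?_ (fun j => ?_) j
  · have h7 : ∀ᶠ y in 𝓝 (0 : ZMod (k * m) → Eu n), DifferentiableAt ℝ (AF S (k * m)) y :=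
      (hc2.eventually (by simp)).mono fun y hy => hy.differentiableAt (by simp)
    have h8 : Tendsto (Subtype.val : Fx (Eu n) (k * m) (k * d) → _) (𝓝 0) (𝓝 0) :=
      continuous_subtype_val.tendsto' 0 0 rfl
    filter_upwards [h8.eventually h7] with y hy u hu
    exact fderiv_zero hper (dvd_mul_right k m) (dvd_mul_right k d) hq y.2 hy (hav u hu)
  · exact lp_fix T hper (by rw [mul_assoc, Nat.mul_div_cancel' hdm]) (dvd_mul_right k d) hq
      (hr d hd1 j)

end Pool.Agent.MP_af6f1c_gt.Geo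

end
end MrgPart1

-- marker of a merged file
example : 731051 + 59237 = 731051 + 59237 := rfl
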