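import Mathlib.Geometry.Euclidean.Angle.Unoriented.TriangleInequality
import Mathlib.Analysis.SpecialFunctions.Trigonometric.Sinc
import Pool.Agent.MP_af6f1c_gt.geo.Wang
import Pool.Agent.MP_af6f1c_gt.geo.FinB

-- ======== part 0: formerly Pool.Agent.MP_af6f1c_gt.geo.Sh1
section MrgPart0

/-! PROJECT GEO, sharp form: great circle distance and geodesic arcs of the three-sphere. -/

open Set Topology Metric Real
open scoped ENNReal

noncomputable section

namespace Pool.Agent.MP_af6f1c_gt.Geo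

namespace ShP

open WangP

/-- great circle distance -/
def an (x y : S3) : ℝ := arccos (1 - dist x y ^ 2 / 2)

lemma nrm (x : S3) : ‖(x : Quaternion ℝ)‖ = 1 := norm_eq_of_mem_sphere x

lemma an_eq (x y : S3) : an x y = InnerProductGeometry.angle (x : Quaternion ℝ) y := by
  rw [an, InnerProductGeometry.angle, nrm, nrm, Subtype.dist_eq, dist_eq_norm, norm_sub_sq_real,
    nrm, nrm]
  congr 1
  ring

lemma an_tri (x y z : S3) : an x z ≤ an x y + an y z := by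
  simp only [an_eq]
  exact InnerProductGeometry.angle_le_angle_add_angle _ _ _

lemma an_self (x : S3) : an x x = 0 := by simp [an]

lemma an_comm (x y : S3) : an x y = an y x := by rw [an, an, dist_comm]

lemma an_nonneg (x y : S3) : 0 ≤ an x y := arccos_nonneg _

lemma an_le_pi (x y : S3) : an x y ≤ π := arccos_le_pi _

lemma an_neg (x y : S3) : an x (-y) = π - an x y := by
  rw [an_eq, an_eq, coe_neg_sphere, InnerProductGeometry.angle_neg_right]

lemma continuous_an : Continuous fun q : S3 × S3 => an q.1 q.2 :=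
  continuous_arccos.comp (by fun_prop)

lemma cos_an (x y : S3) : cos (an x y) = 1 - dist x y ^ 2 / 2 := by
  have h : dist x y ≤ 2 := by
    rw [Subtype.dist_eq, dist_eq_norm]
    linarith [norm_sub_le (x : Quaternion ℝ) y, nrm x, nrm y]
  have := dist_nonneg (x := x) (y := y)
  exact cos_arccos (by nlinarith) (by nlinarith)

lemma dist_le_an (x y : S3) : dist x y ≤ an x y := by
  have h := one_sub_sq_div_two_le_cos (x := an x y)
  rw [cos_an] at h
  exact abs_le_of_sq_le_sq' (by linarith) (an_nonneg x y) |>.2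

lemma an_mul_left (q x y : S3) : an (q * x) (q * y) = an x y := by
  have : dist (q * x) (q * y) = dist x y := by
    simp only [Subtype.dist_eq, dist_eq_norm, Metric.unitSphere.coe_mul]
    rw [← mul_sub, norm_mul, nrm, one_mul]
  rw [an, an, this]

lemma an_mul_right (q x y : S3) : an (x * q) (y * q) = an x y := by
  have : dist (x * q) (y * q) = dist x y := by
    simp only [Subtype.dist_eq, dist_eq_norm, Metric.unitSphere.coe_mul]
    rw [← sub_mul, norm_mul, nrm, mul_one]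
  rw [an, an, this]

lemma an_mul (x y x' y' : S3) : an (x * y) (x' * y') ≤ an x x' + an y y' := by
  have := an_tri (x * y) (x' * y) (x' * y')
  rwa [an_mul_left, an_mul_right] at this

lemma an_inv (x y : S3) : an x⁻¹ y⁻¹ = an x y := by
  rw [← an_mul_left x, ← an_mul_right y, an_comm]
  simp

/-- the three-sphere with the great circle distance -/
def SA : Type := S3

instance : MetricSpace SA where
  dist := an
  dist_self := an_self
  dist_comm := an_comm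
  dist_triangle := an_tri
  eq_of_dist_eq_zero := fun {x y} h =>
    eq_of_dist_eq_zero (γ := S3) (le_antisymm ((dist_le_an x y).trans (le_of_eq h)) dist_nonneg)

/-- a path read in `SA` -/
def ta' (w : PS) (t : unitInterval) : SA := w t

/-- length of a path for the great circle distance -/
def AV (w : PS) : ℝ≥0∞ := eVariationOn (ta' w) univ

lemma edist_ta (w : PS) (s t : unitInterval) :
    edist (ta' w s) (ta' w t) = ENNReal.ofReal (an (w s) (w t)) := edist_dist _ _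

lemma av_mul (w k : PS) : AV (w * k) ≤ AV w + AV k := by
  refine iSup_le fun ⟨n, u, hu, hs⟩ => ?_
  refine le_trans ?_ (add_le_add (eVariationOn.sum_le (f := ta' w) (n := n) hu hs)
    (eVariationOn.sum_le (f := ta' k) (n := n) hu hs))
  rw [← Finset.sum_add_distrib]
  refine Finset.sum_le_sum fun i _ => ?_
  rw [edist_ta, edist_ta, edist_ta, ← ENNReal.ofReal_add (an_nonneg _ _) (an_nonneg _ _)]
  exact ENNReal.ofReal_le_ofReal (an_mul _ _ _ _)

lemma av_cn {u : ℝ} (hu : u ∈ Icc (0 : ℝ) 1) (w : PS) :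
    AV (cn (u, w)) + ENNReal.ofReal (an (cn (u, w) 1) (w 1)) ≤ AV w := by
  let c : unitInterval := ⟨u, hu⟩
  have hc : cn (u, w) 1 = w c := by
    simp [cn_apply, c, projIcc_of_mem _ hu]
  have h1 : AV (cn (u, w)) ≤ eVariationOn (ta' w) (Iic c) := by
    refine eVariationOn.comp_le_of_monotoneOn (ta' w)
      (fun t : unitInterval => projIcc 0 1 zero_le_one (u * t)) (t := univ) ?_ ?_
    · exact fun a _ b _ hab => monotone_projIcc _ (mul_le_mul_of_nonneg_left hab hu.1)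
    · intro t _
      have : projIcc 0 1 zero_le_one u = c := projIcc_of_mem _ hu
      rw [mem_Iic, ← this]
      exact monotone_projIcc _ (mul_le_of_le_one_right hu.1 t.2.2)
  have h2 : edist (ta' w c) (ta' w 1) ≤ eVariationOn (ta' w) (Ici c) :=
    eVariationOn.edist_le (ta' w) (mem_Ici.2 le_rfl) (mem_Ici.2 c.2.2)
  have h3 := eVariationOn.union (ta' w) (isGreatest_Iic (a := c)) (isLeast_Ici (a := c))
  rw [Iic_union_Ici] at h3
  rw [hc, AV, AV, h3, ← edist_ta]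
  exact add_le_add h1 h2

lemma var_lip {E : Type} [MetricSpace E] (f : unitInterval → E) {B : ℝ} (hB : 0 ≤ B)
    (h : ∀ s t, dist (f s) (f t) ≤ B * |(s : ℝ) - t|) : eVariationOn f univ ≤ ENNReal.ofReal B := by
  have := ChainP.var_le f (fun _ : ℝ => (0 : ℝ)) (A := 0) (a := 0) le_rfl hB le_rfl
    (fun s t => by simpa using h s t) (by
      rw [len, eVariationOn.constant_on (by rintro _ ⟨_, _, rfl⟩ _ ⟨_, _, rfl⟩; rfl)]
      exact zero_le)
  simpa using this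

/-! ### geodesic arcs -/

lemma cos_one (b : S3) : cos (an 1 b) = (b : Quaternion ℝ).re := by
  rw [an_eq, InnerProductGeometry.cos_angle, nrm, nrm, Quaternion.inner_def]
  simp

lemma sq_sum (b : S3) : (b : Quaternion ℝ).re ^ 2 + (b : Quaternion ℝ).imI ^ 2 +
    (b : Quaternion ℝ).imJ ^ 2 + (b : Quaternion ℝ).imK ^ 2 = 1 := by
  have := Quaternion.normSq_eq_norm_mul_self (b : Quaternion ℝ)
  rw [nrm, Quaternion.normSq_def'] at this
  linarith

lemma an_lt {b : S3} (hb : b ≠ -1) : an 1 b < π := by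
  refine (an_le_pi 1 b).lt_of_ne fun e => hb ?_
  have h := an_neg 1 (-b)
  rw [neg_neg, e] at h
  have h2 := dist_le_an 1 (-b)
  have h3 : (1 : S3) = -b := eq_of_dist_eq_zero (le_antisymm (by linarith) dist_nonneg)
  rw [h3, neg_neg]

lemma sinc_pos {b : S3} (hb : b ≠ -1) : 0 < sinc (an 1 b) := by
  rcases (an_nonneg 1 b).eq_or_lt with e | e
  · rw [← e, sinc_zero]; exact one_pos
  · rw [sinc_of_ne_zero e.ne']
    exact div_pos (sin_pos_of_pos_of_lt_pi e (an_lt hb)) e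

lemma mul_sinc (x : ℝ) : x * sinc x = sin x := by
  by_cases h : x = 0
  · simp [h]
  · rw [sinc_of_ne_zero h]; field_simp

/-- coefficient of the imaginary part -/
def cf (b : S3) (t : ℝ) : ℝ := t * sinc (t * an 1 b) / sinc (an 1 b)

/-- the arc from `1` to `b` -/
def gq (b : S3) (t : ℝ) : Quaternion ℝ :=
  cos (t * an 1 b) • 1 + cf b t • (b : Quaternion ℝ).im

lemma cf_sin {b : S3} (hb : b ≠ -1) (t : ℝ) : cf b t * sin (an 1 b) = sin (t * an 1 b) := by
  have := (sinc_pos hb).ne'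
  rw [← mul_sinc, ← mul_sinc, cf]
  field_simp

lemma nsq (b : S3) (x y : ℝ) :
    ‖x • (1 : Quaternion ℝ) + y • (b : Quaternion ℝ).im‖ ^ 2 = x ^ 2 + (y * sin (an 1 b)) ^ 2 := by
  rw [sq, ← Quaternion.normSq_eq_norm_mul_self, Quaternion.normSq_def', mul_pow, sin_sq, cos_one]
  simp only [Quaternion.re_add, Quaternion.re_smul, Quaternion.re_one, Quaternion.imI_add,
    Quaternion.imI_smul, Quaternion.imI_one, Quaternion.imJ_add, Quaternion.imJ_smul,
    Quaternion.imJ_one, Quaternion.imK_add, Quaternion.imK_smul, Quaternion.imK_one, smul_eq_mul,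
    Quaternion.re_im, Quaternion.imI_im, Quaternion.imJ_im, Quaternion.imK_im]
  linear_combination y ^ 2 * sq_sum b

lemma gq_mem {b : S3} (hb : b ≠ -1) (t : ℝ) : gq b t ∈ sphere (0 : Quaternion ℝ) 1 := by
  have := nsq b (cos (t * an 1 b)) (cf b t)
  rw [cf_sin hb, cos_sq_add_sin_sq] at this
  rw [mem_sphere_zero_iff_norm, gq]
  nlinarith [norm_nonneg (cos (t * an 1 b) • (1 : Quaternion ℝ) + cf b t • (b : Quaternion ℝ).im)]

lemma cont_gq : ContinuousOn (fun x : S3 × ℝ => gq x.1 x.2) ({-1}ᶜ ×ˢ univ) := by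
  have h1 : Continuous fun x : S3 × ℝ => an 1 x.1 :=
    continuous_an.comp (f := fun x : S3 × ℝ => ((1 : S3), x.1)) (by fun_prop)
  have h2 : ContinuousOn (fun x : S3 × ℝ => cf x.1 x.2) ({-1}ᶜ ×ˢ univ) :=
    ((continuous_snd.mul (continuous_sinc.comp (continuous_snd.mul h1))).continuousOn).div
      (continuous_sinc.comp h1).continuousOn fun x hx => (sinc_pos hx.1).ne'
  have h3 : Continuous fun x : S3 × ℝ => (x.1 : Quaternion ℝ).im :=
    Quaternion.continuous_im.comp (by fun_prop)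
  exact ((continuous_cos.comp (continuous_snd.mul h1)).smul continuous_const).continuousOn.add
    (h2.smul h3.continuousOn)

open Classical in
/-- the initial part of the arc from `1` to `b` as a path -/
def gp (x : ℝ × S3) : PS :=
  if h : x.2 ≠ -1 then ⟨fun t => ⟨gq x.2 (x.1 * t), gq_mem h _⟩,
    (cont_gq.comp_continuous (f := fun t : unitInterval => (x.2, x.1 * (t : ℝ))) (by fun_prop)
      fun _ => ⟨h, trivial⟩).subtype_mk _⟩ else 1

lemma gp_coe {x : ℝ × S3} (h : x.2 ≠ -1) (t : unitInterval) :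
    (gp x t : Quaternion ℝ) = gq x.2 (x.1 * t) := by
  rw [gp, dif_pos h]
  rfl

lemma cont_gp : ContinuousOn gp (univ ×ˢ {-1}ᶜ) := by
  rw [continuousOn_iff_continuous_domRestrict]
  refine ContinuousMap.continuous_of_continuous_uncurry _ (continuous_induced_rng.2 ?_)
  have : Continuous fun q : (univ ×ˢ {-1}ᶜ : Set (ℝ × S3)) × unitInterval =>
      gq q.1.1.2 (q.1.1.1 * q.2) :=
    cont_gq.comp_continuous (f := fun q : (univ ×ˢ {-1}ᶜ : Set (ℝ × S3)) × unitInterval =>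
      (q.1.1.2, q.1.1.1 * (q.2 : ℝ))) (by fun_prop) fun q => ⟨q.1.2.2, trivial⟩
  exact this.congr fun q => (gp_coe q.1.2.2 q.2).symm

lemma gp_eq_one {x : ℝ × S3} {t : unitInterval} (h : x.1 * t = 0 ∨ x.2 = 1) : gp x t = 1 := by
  by_cases hx : x.2 ≠ -1
  · refine Subtype.ext ?_
    rw [gp_coe hx]
    rcases h with h | h
    · simp [h, gq, cf]
    · have : ((1 : S3) : Quaternion ℝ).im = 0 := by ext <;> rfl
      rw [h, gq, this, an_self]
      simp
  · rw [gp, dif_neg hx]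
    rfl

lemma gp_one {b : S3} (h : b ≠ -1) : gp (1, b) 1 = b := by
  refine Subtype.ext ?_
  rw [gp_coe h]
  have := (sinc_pos h).ne'
  simp only [gq, cf, Set.Icc.coe_one, mul_one, one_mul, div_self this, one_smul, cos_one]
  rw [← Algebra.algebraMap_eq_smul_one]
  exact Quaternion.re_add_im _

lemma an_gq {b : S3} (h : b ≠ -1) {x y : S3} {s t : ℝ} (hx : (x : Quaternion ℝ) = gq b s)
    (hy : (y : Quaternion ℝ) = gq b t) : an x y ≤ an 1 b * |s - t| := by
  have e : gq b s - gq b t = (cos (s * an 1 b) - cos (t * an 1 b)) • (1 : Quaternion ℝ) +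
      (cf b s - cf b t) • (b : Quaternion ℝ).im := by
    simp only [gq, sub_smul]
    abel
  have e2 : 1 - dist x y ^ 2 / 2 = cos (an 1 b * |s - t|) := by
    rw [Subtype.dist_eq, dist_eq_norm, hx, hy, e, nsq, sub_mul, cf_sin h, cf_sin h,
      ← abs_of_nonneg (an_nonneg 1 b), ← abs_mul, cos_abs, abs_of_nonneg (an_nonneg 1 b), mul_sub,
      cos_sub, mul_comm _ s, mul_comm _ t]
    linear_combination (-1 / 2) * cos_sq_add_sin_sq (s * an 1 b) +
      (-1 / 2) * cos_sq_add_sin_sq (t * an 1 b)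
  rw [an, e2]
  rcases le_total (an 1 b * |s - t|) π with h1 | h1
  · rw [arccos_cos (mul_nonneg (an_nonneg _ _) (abs_nonneg _)) h1]
  · exact (arccos_le_pi _).trans h1

lemma gp_lip {b : S3} (h : b ≠ -1) (s t : unitInterval) :
    an (gp (1, b) s) (gp (1, b) t) ≤ an 1 b * |(s : ℝ) - t| := by
  have := an_gq h (gp_coe (x := (1, b)) h s) (gp_coe (x := (1, b)) h t)
  simpa using this

lemma gp_ne {b : S3} (h : b ≠ -1) {u : ℝ} (hu : u ∈ Icc (0 : ℝ) 1) : gp (u, b) 1 ≠ -b := by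
  intro e
  have h1 := an_gq h (gp_coe (x := (1, b)) h 1) (gp_coe (x := (u, b)) h 1)
  rw [gp_one h, e, an_neg, an_self] at h1
  have h2 := an_lt h
  have h3 : |(1 : ℝ) * ((1 : unitInterval) : ℝ) - u * ((1 : unitInterval) : ℝ)| ≤ 1 := by
    simp only [Set.Icc.coe_one, mul_one]
    rw [abs_le]
    constructor <;> linarith [hu.1, hu.2]
  nlinarith [an_nonneg 1 b]

/-! ### the Wang map with sharp constants -/

/-- paths from `1` to `q` of great circle length at most `a` -/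
def OmA (q : S3) (a : ℝ) : Set PS := {w | w ∈ Om q ∧ AV w ≤ ENNReal.ofReal a}

lemma av_lip {w : PS} {B : ℝ} (hB : 0 ≤ B) (h : ∀ s t, an (w s) (w t) ≤ B * |(s : ℝ) - t|) :
    AV w ≤ ENNReal.ofReal B := var_lip (ta' w) hB h

lemma omA_empty {p : S3} (hp : p ≠ 1) {a : ℝ} (ha : a ≤ 0) : OmA p a = ∅ := by
  refine eq_empty_of_forall_notMem fun w hw => hp ?_
  have h1 := (eVariationOn.edist_le (ta' w) (mem_univ 0) (mem_univ 1)).trans hw.2
  rw [ENNReal.ofReal_of_nonpos ha, nonpos_iff_eq_zero, edist_eq_zero] at h1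
  exact hw.1.2.symm.trans (h1.symm.trans hw.1.1)

lemma mul_neg' (x y : S3) : x * -y = -(x * y) := Subtype.ext (mul_neg (x : Quaternion ℝ) y)

lemma inv_mul_ne {b p : S3} (h : b ≠ -p) : b⁻¹ * p ≠ -1 := fun e => h (by
  rw [inv_mul_eq_iff_eq_mul] at e
  rw [e, mul_neg', neg_neg, mul_one])

lemma an_inv_mul (b p : S3) : an 1 (b⁻¹ * p) = an b p := by
  rw [← an_mul_left b]
  simp

lemma exists_pk2 (p : S3) (hp : p ≠ 1) {d : ℝ} (hd : d < π) (hd0 : 0 ≤ d) :
    ∃ σ ε k l U, Pk p σ ε k l U ∧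
      (∀ b ∈ U, AV (k (ε b)) + ENNReal.ofReal d ≤ ENNReal.ofReal (an b (-p))) ∧
      ∀ s ≠ 0, ∀ a b, an (ka σ k l s a) (ka σ k l s b) ≤ π * |(a : ℝ) - b| := by
  obtain ⟨σ, ε, h⟩ := exists_cht p
  have hpp : p ≠ -p := ne_neg_of_mem_unit_sphere ℝ p
  have c1 : Continuous fun b => an b p :=
    continuous_an.comp (f := fun b : S3 => (b, p)) (by fun_prop)
  have h1 : ∀ᶠ b in 𝓝 p, 2 * an b p + d < π := by
    refine ContinuousAt.eventually_lt (by fun_prop) (by fun_prop) ?_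
    rw [an_self]
    linarith
  have h2 : ∀ᶠ b in 𝓝 p, an b p + 1 < dist b (-p) := by
    refine ContinuousAt.eventually_lt (by fun_prop) (by fun_prop) ?_
    rw [an_self, dist_neg]
    norm_num
  have h3 : ∀ᶠ b in 𝓝 p, b ≠ 1 := isOpen_compl_singleton.mem_nhds hp
  have h4 : ∀ᶠ b in 𝓝 p, b ≠ -p := isOpen_compl_singleton.mem_nhds hpp
  obtain ⟨U, hU, hUo, hUp⟩ := _root_.mem_nhds_iff.1 (h1.and (h2.and (h3.and h4)))
  have n1 : ∀ s, (σ s)⁻¹ * p ≠ -1 := fun s => inv_mul_ne (h.ne s)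
  have n2 : ∀ b, b ≠ p → b⁻¹ * -p ≠ -1 := fun b hb => inv_mul_ne (by rwa [neg_neg])
  have hpr := continuous_projIcc (α := ℝ) (a := 0) (b := 1) (h := zero_le_one)
  have cσ := h.cσ
  have L : ∀ b, b ≠ -p → ∀ s t : unitInterval, an (gp (1, (σ (ε b))⁻¹ * p) s)
      (gp (1, (σ (ε b))⁻¹ * p) t) ≤ an b p * |(s : ℝ) - t| := fun b hb s t => by
    have := gp_lip (n1 (ε b)) s t
    rw [an_inv_mul, h.right b hb] at this
    rwa [h.right b hb]
  have P : Pk p σ ε (fun s => gp (1, (σ s)⁻¹ * p))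
      (fun x => gp (projIcc 0 1 zero_le_one x.1, x.2⁻¹ * -p)) U := by
    refine ⟨h, cont_gp.comp_continuous (by fun_prop) fun s => ⟨trivial, n1 s⟩,
      fun s => gp_eq_one (by simp), fun s => ?_,
      cont_gp.comp (by fun_prop) fun x hx => ⟨trivial, n2 _ hx.2⟩, fun x => gp_eq_one (by simp),
      fun b => ?_, fun u b hb e => ?_, fun b hb => ?_, ?_, hUo, hUp, fun h => (hU h).2.2.1 rfl,
      fun h => (hU h).2.2.2 rfl, fun b hb => ?_⟩
    · rw [gp_one (n1 s), mul_inv_cancel_left]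
    · ext1 t
      exact gp_eq_one (by simp)
    · refine gp_ne (n2 b hb) (projIcc 0 1 zero_le_one u).2 ?_
      rw [← eq_inv_mul_iff_mul_eq] at e
      rw [e, mul_neg', neg_neg]
    · simp only [projIcc_right]
      rw [gp_one (n2 b hb), mul_inv_cancel_left]
    · ext1 t
      exact gp_eq_one (by simp)
    · refine (add_le_add_left (var_lip _ (an_nonneg b p) fun s t =>
        (dist_le_an _ _).trans (L b (hU hb).2.2.2 s t)) 1).trans ?_
      rw [edist_dist, ← ENNReal.ofReal_one, ← ENNReal.ofReal_add (an_nonneg _ _) zero_le_one]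
      exact ENNReal.ofReal_le_ofReal (hU hb).2.1.le
  refine ⟨σ, ε, _, _, U, P, fun b hb => ?_, fun s hs a b => ?_⟩
  · refine (add_le_add_left (av_lip (an_nonneg b p) (L b (hU hb).2.2.2)) _).trans ?_
    rw [← ENNReal.ofReal_add (an_nonneg _ _) hd0, an_neg]
    exact ENNReal.ofReal_le_ofReal (by linarith [(hU hb).1])
  · refine (an_mul _ _ _ _).trans ?_
    have e1 := gp_lip (n1 s) a b
    have e2 := gp_lip (n2 _ (P.sig_ne hs)) a b
    rw [an_inv_mul] at e1 e2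
    rw [an_neg] at e2
    simp only [projIcc_right, ContinuousMap.inv_apply, an_inv]
    linarith

variable {K : Type} [Field K] {Y : Type} [TopologicalSpace Y]

lemma level2 {p : S3} {σ : R3 → S3} {ε : S3 → R3} {k : R3 → PS} {l : ℝ × S3 → PS} {U : Set S3}
    {c : ∀ n, Ch K n (PS × Y) →ₗ[K] Ch K (n + 3) ((PS × Y) × R3)}
    (h : Pk p σ ε k l U) (hp : p ≠ 1) (T : Tools K) (hc : Su c) {d : ℝ} (hd : 0 ≤ d)
    (hv : ∀ b ∈ U, AV (k (ε b)) + ENNReal.ofReal d ≤ ENNReal.ofReal (an b (-p))) {j : ℕ} (a : ℝ)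
    {z : Ch K j (PS × Y)} (hz : z ∈ Zr K j (Om p ×ˢ univ) ∅)
    (hb : Tm σ k l c j z ∈
      Zr K (j + 2) (OmA (-p) a ×ˢ univ) ∅ ⊔ Br K (j + 2) (Om (-p) ×ˢ univ) ∅) :
    z ∈ Zr K j (OmA p (a - d) ×ˢ univ) ∅ ⊔ Br K j (Om p ×ˢ univ) ∅ := by
  obtain ⟨u, hu, β, hβ, e⟩ := Submodule.mem_sup.1 hb
  have h1 : push K (j + 2) Prod.snd u ∈ Br K (j + 2) (univ : Set Y) ∅ := by
    have := sub_mem (h.tm_snd hc hz)
      (push_Br continuous_snd.continuousOn (mapsTo_univ _ _) (mapsTo_empty _ _) hβ)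
    rwa [← map_sub, ← e, add_sub_cancel_right] at this
  have hL : ∀ (q : S3) (b : ℝ), OmA q b ×ˢ (univ : Set Y) ⊆ Om q ×ˢ univ := fun q b =>
    prod_mono (fun _ hw => hw.1) Subset.rfl
  obtain ⟨z', hz', h2⟩ := h.tm_onto T hc (S := OmA (-p) a ×ˢ univ)
    (S' := {x | x.1 0 = 1 ∧
      (x.1 1 ≠ 1 → AV x.1 + ENNReal.ofReal (an (x.1 1) (-p)) ≤ ENNReal.ofReal a)})
    (V := OmA p (a - d) ×ˢ univ) (hL _ _) (fun x hx => ⟨hx.1, trivial⟩)
    (fun x hx => ⟨(cn_start (x.1, x.2.1)).trans hx.2.1.1.1, fun _ => by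
      have := av_cn hx.1 x.2.1
      rw [hx.2.1.1.2] at this
      exact this.trans hx.2.1.2⟩)
    (fun y => ⟨rfl, fun e => (e rfl).elim⟩) h.op h.mem h.neg
    (fun x hx hU => ⟨⟨h.mu_mem hx.1 fun e => h.neg (e ▸ hU), by
      have h3 := hx.2 fun e => h.one (e ▸ hU)
      rw [ENNReal.ofReal_sub _ hd]
      refine ENNReal.le_sub_of_add_le_right ENNReal.ofReal_ne_top (le_trans ?_ h3)
      refine (add_le_add_left (av_mul _ _) _).trans ?_
      rw [add_assoc]
      exact add_le_add_right (hv _ hU) _⟩, trivial⟩) (hL _ _) hu h1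
  have h4 : z - z' ∈ Br K j (Om p ×ˢ univ) ∅ := by
    refine h.tm_inj hp T hc (sub_mem hz (Zr_mono (hL _ _) Subset.rfl hz')) ?_
    rw [map_sub, ← e, add_sub_right_comm]
    exact add_mem h2 hβ
  exact Submodule.mem_sup.2 ⟨z', hz', z - z', h4, add_sub_cancel _ _⟩

/-- the Wang map with sharp constants -/
structure WD (p : S3) (d : ℝ) (κ : R3 → PS)
    (c : ∀ j, Ch K j (PS × Y) →ₗ[K] Ch K (j + 2) ((PS × Y) × R3))
    (T : ∀ j, Ch K j (PS × Y) →ₗ[K] Ch K (j + 2) (PS × Y)) : Prop where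
  cont : ContinuousOn κ (sphere 0 1)
  ends : ∀ s ∈ sphere (0 : R3) 1, κ s 0 = 1 ∧ p * κ s 1 = -p
  lip : ∀ s ∈ sphere (0 : R3) 1, ∀ a b, an (κ s a) (κ s b) ≤ π * |(a : ℝ) - b|
  zr : ∀ j (A : Set (PS × Y)), ∀ z ∈ Zr K j A ∅, c j z ∈ Zr K (j + 2) (A ×ˢ sphere 0 1) ∅
  eq : ∀ j z, T j z = push K (j + 2) (fun b : (PS × Y) × R3 => (b.1.1 * κ b.2, b.1.2)) (c j z)
  br : ∀ j, ∀ z ∈ Br K j (Om p ×ˢ (univ : Set Y)) ∅, T j z ∈ Br K (j + 2) (Om (-p) ×ˢ univ) ∅
  lev : ∀ j (a : ℝ), ∀ z ∈ Zr K j (Om p ×ˢ (univ : Set Y)) ∅,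
    T j z ∈ Zr K (j + 2) (OmA (-p) a ×ˢ univ) ∅ ⊔ Br K (j + 2) (Om (-p) ×ˢ univ) ∅ →
    z ∈ Zr K j (OmA p (a - d) ×ˢ univ) ∅ ⊔ Br K j (Om p ×ˢ univ) ∅

lemma exists_wd (T : Tools K) (hS : SuspStmt K) (Y : Type) [TopologicalSpace Y] {d : ℝ}
    (hd : d < π) (hd0 : 0 ≤ d) (p : S3) : ∃ κ c T', p ≠ 1 → WD (K := K) (Y := Y) p d κ c T' := by
  by_cases hp : p = 1
  · exact ⟨fun _ => 1, fun _ => 0, fun _ => 0, fun h => (h hp).elim⟩
  obtain ⟨σ, ε, k, l, U, h, hv, hl⟩ := exists_pk2 p hp hd hd0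
  obtain ⟨c, hc⟩ := exists_su hS (PS × Y)
  refine ⟨ka σ k l, fun j => bd K (j + 2) ∘ₗ c j, Tm σ k l c, fun _ => ⟨h.cka.mono sph_sub,
    fun s hs => ⟨by simp [ka, h.k0, h.l0], ?_⟩, fun s hs => hl s (sph_sub hs),
    fun j A z hz => bd_mem_Zr (hc.zr j A z hz).2, fun j z => rfl, fun j z hz => h.tm_br hc hz,
    fun j a z hz hb => level2 h hp T hc hd0 hv a hz hb⟩⟩
  have h1 := h.l1 _ (h.sig_ne (sph_sub hs))
  have h2 : p * (k s 1)⁻¹ = σ s := by rw [mul_inv_eq_iff_eq_mul, h.k1]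
  rw [← h1, ← h2, mul_assoc, h2]
  rfl

end ShP

end Pool.Agent.MP_af6f1c_gt.Geo

end
end MrgPart0

-- ======== part 1: formerly Pool.Agent.MP_af6f1c_gt.geo.Sh2
section MrgPart1

/-! PROJECT GEO, sharp form: a chain of classes with sharp control of the levels. -/

open Set Topology Metric Real

noncomputable section

namespace Pool.Agent.MP_af6f1c_gt.Geo

namespace ShP

open WangP UpP ChainP

variable {K : Type} [Field K] {Y : Type} [TopologicalSpace Y]

/-- Lipschitz paths from `1` to `q` -/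
def OmP (q : S3) (B : ℝ) : Set PS :=
  {w | w ∈ Om q ∧ ∀ s t, an (w s) (w t) ≤ B * |(s : ℝ) - t|}

section wd

variable {p : S3} {d : ℝ} {κ : R3 → PS}
  {c : ∀ j, Ch K j (PS × Y) →ₗ[K] Ch K (j + 2) ((PS × Y) × R3)}
  {T : ∀ j, Ch K j (PS × Y) →ₗ[K] Ch K (j + 2) (PS × Y)}

lemma WD.m1 (H : WD p d κ c T) (A : Set (PS × Y)) :
    ContinuousOn (fun b : (PS × Y) × R3 => (b.1.1 * κ b.2, b.1.2)) (A ×ˢ sphere 0 1) := by
  have : ContinuousOn (fun b : (PS × Y) × R3 => κ b.2) (A ×ˢ sphere 0 1) :=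
    H.cont.comp continuous_snd.continuousOn fun b hb => hb.2
  exact (ContinuousOn.mul (by fun_prop) this).prodMk (by fun_prop)

lemma WD.mem (H : WD p d κ c T) {w : PS} (hw : w ∈ Om p) {s : R3} (hs : s ∈ sphere (0 : R3) 1) :
    w * κ s ∈ Om (-p) := by
  constructor
  · show w 0 * κ s 0 = 1
    rw [hw.1, (H.ends _ hs).1, mul_one]
  · show w 1 * κ s 1 = -p
    rw [hw.2, (H.ends _ hs).2]

lemma WD.tz (H : WD p d κ c T) {j : ℕ} {z : Ch K j (PS × Y)}
    (hz : z ∈ Zr K j (Om p ×ˢ univ) ∅) : T j z ∈ Zr K (j + 2) (Om (-p) ×ˢ univ) ∅ := by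
  rw [H.eq]
  exact push_Zr (H.m1 _) (fun b hb => mk_mem_prod (H.mem hb.1.1 hb.2) (mem_univ _)) (mapsTo_empty _ _)
    (H.zr j _ z hz)

lemma WD.tp (H : WD p d κ c T) {j : ℕ} {z : Ch K j (PS × Y)} {B : ℝ} {W : Set Y}
    (hz : z ∈ Zr K j (OmP p B ×ˢ W) ∅) : T j z ∈ Zr K (j + 2) (OmP (-p) (B + π) ×ˢ W) ∅ := by
  rw [H.eq]
  refine push_Zr (H.m1 _) (fun b hb => mk_mem_prod
    (And.intro (H.mem hb.1.1.1 hb.2) fun s t => ?_) hb.1.2)
    (mapsTo_empty _ _) (H.zr j _ z hz)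
  refine (an_mul _ _ _ _).trans ?_
  linarith [hb.1.1.2 s t, H.lip _ hb.2 s t]

end wd

variable {M N : Type} [MetricSpace M] [MetricSpace N] (h : M ≃ₜ S3 × N)

/-- one step of the chain raises the level by a constant -/
lemma step2 (hL : LoopStmt M) (hV : LevStmt K) {n : ℕ} [CompactSpace M] (G : GS M n) {p : S3}
    {d : ℝ} {κ : R3 → PS} {η η' : PS} (e1 : η ∈ Om p) (e2 : η' ∈ Om (-p))
    {c : ∀ j, Ch K j (PS × S3 × Lo N) →ₗ[K] Ch K (j + 2) ((PS × S3 × Lo N) × R3)}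
    {T : ∀ j, Ch K j (PS × S3 × Lo N) →ₗ[K] Ch K (j + 2) (PS × S3 × Lo N)} (H : WD p d κ c T) :
    ∃ C : ℝ, 0 < C ∧ ∀ j, ∀ z ∈ Zr K j (Om p ×ˢ (univ : Set (S3 × Lo N))) ∅, ∀ a : ℝ, 0 ≤ a →
      push K j (Ψ h η) z ∈ Fil M K j a →
      push K (j + 2) (Ψ h η') (T j z) ∈ Fil M K (j + 2) (a + C) := by
  let ν : R3 → PS := fun s => η * κ s * η'⁻¹
  have hν : ContinuousOn ν (sphere 0 1) := (continuousOn_const.mul H.cont).mul continuousOn_const
  have hpr := continuous_projIcc (α := ℝ) (a := 0) (b := 1) (h := zero_le_one)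
  obtain ⟨C, hC, h4⟩ := hV n M R3 G (sphere 0 1)
    (fun b => h.symm ((h b.1).1 * ν b.2.1 (projIcc 0 1 zero_le_one b.2.2), (h b.1).2))
    (isCompact_sphere _ _)
    (by
      have : ContinuousOn (fun b : M × R3 × ℝ => ν b.2.1) (univ ×ˢ sphere 0 1 ×ˢ Icc 0 1) :=
        hν.comp (by fun_prop) fun b hb => hb.2.1
      have : ContinuousOn (fun b : M × R3 × ℝ => ν b.2.1 (projIcc 0 1 zero_le_one b.2.2))
          (univ ×ˢ sphere 0 1 ×ˢ Icc 0 1) := this.eval (by fun_prop)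
      exact h.symm.continuous.comp_continuousOn
        ((ContinuousOn.mul (by fun_prop) this).prodMk (by fun_prop)))
    (fun x s hs => by
      have a0 : ν s 0 = 1 := by
        show η 0 * κ s 0 * (η' 0)⁻¹ = 1
        rw [e1.1, (H.ends s hs).1, e2.1, mul_one, mul_inv_cancel]
      have a1 : ν s 1 = 1 := by
        show η 1 * κ s 1 * (η' 1)⁻¹ = 1
        rw [e1.2, (H.ends s hs).2, e2.2, mul_inv_cancel]
      constructor
      · show h.symm ((h x).1 * ν s (projIcc 0 1 zero_le_one 0), (h x).2) = x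
        rw [projIcc_left]
        exact (congrArg (fun u => h.symm ((h x).1 * u, (h x).2)) a0).trans (by simp)
      · show h.symm ((h x).1 * ν s (projIcc 0 1 zero_le_one 1), (h x).2) = x
        rw [projIcc_right]
        exact (congrArg (fun u => h.symm ((h x).1 * u, (h x).2)) a1).trans (by simp))
  refine ⟨C, hC, fun j z hz a ha hz' => ?_⟩
  obtain ⟨u, hu, b, hb, e⟩ := Submodule.mem_sup.1 hz'
  let A : Set (PS × S3 × Lo N) := {x | x ∈ Om p ×ˢ univ ∧ Ψ h η x ∈ LL M a}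
  have hu' : push K j (Φ h η) u ∈ Zr K j A ∅ :=
    push_Zr (Φ_cont h _).continuousOn (fun l hl => And.intro (Φ_mem h e1 l) (by rwa [ΨΦ h hL]))
      (mapsTo_empty _ _) hu
  have hb' : push K j (Φ h η) b ∈ Br K j (Om p ×ˢ univ) ∅ :=
    push_Br (Φ_cont h _).continuousOn (fun l _ => Φ_mem h e1 l) (mapsTo_empty _ _) hb
  have ez : z = push K j (Φ h η) u + push K j (Φ h η) b := by
    rw [← map_add, e, push_push (Ψ_cont h hL e1) (Zr_le_In hz),
      push_eq_self (fun x hx => ΦΨ h hL e1 hx.1) (Zr_le_In hz)]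
  rw [ez, map_add, map_add]
  refine add_mem ?_ (Submodule.mem_sup_right (push_Br (Ψ_cont h hL e2) (mapsTo_univ _ _)
    (mapsTo_empty _ _) (H.br j _ hb')))
  have f1 := H.zr j A _ hu'
  have m3 : ContinuousOn (fun b : (PS × S3 × Lo N) × R3 => (Ψ h η b.1, b.2)) (A ×ˢ sphere 0 1) :=
    ((Ψ_cont h hL e1).comp continuous_fst.continuousOn fun b hb => hb.1.1).prodMk
      continuous_snd.continuousOn
  have := h4 a (j + 2) ha _
    (push_Zr m3 (fun b hb => mk_mem_prod hb.1.2 hb.2) (mapsTo_empty _ _) f1)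
  rw [push_push m3 (Zr_le_In f1)] at this
  rw [H.eq, push_push (g := Ψ h η') (H.m1 A) (Zr_le_In f1)]
  refine mem_of_eq_of_mem (push_congr (fun b hb => ?_) (Zr_le_In f1)) this
  have hb1 := div_mem e1 hb.1.1.1
  have hb2 := div_mem e2 (H.mem hb.1.1.1 hb.2)
  have key : ∀ t ∈ Icc (0 : ℝ) 1, glc h (b.1.1 * κ b.2 * η'⁻¹, b.1.2) t =
      h.symm ((h (crv (Ψ h η b.1) t)).1 * ν b.2 (projIcc 0 1 zero_le_one t),
        (h (crv (Ψ h η b.1) t)).2) := fun t ht => by
    rw [Ψ, crv_gl hL h hb1 ht, glc, glc, h.apply_symm_apply]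
    simp only [ν, ContinuousMap.mul_apply, ContinuousMap.inv_apply, mul_assoc,
      inv_mul_cancel_left]
  refine lo_ext fun t ht => ?_
  have c1 := ((glc_cont h).comp (Continuous.prodMk_right
    (b.1.1 * κ b.2 * η'⁻¹, b.1.2))).continuousOn (s := Icc 0 1)
  refine (crv_gl hL h hb2 ht).trans ((key t ht).trans (hL.crv_mk _ (c1.congr fun t ht =>
    (key t ht).symm) ?_ t ht).symm)
  exact (key 0 (left_mem_Icc.2 zero_le_one)).symm.trans
    ((glc_ends h hb2).trans (key 1 (right_mem_Icc.2 zero_le_one)))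

/-- loops with Lipschitz first component and second component in `W` -/
def LP (B : ℝ) (W : Set (Lo N)) : Set (Lo M) :=
  {l | (∀ s t : unitInterval, an (h (crv l s)).1 (h (crv l t)).1 ≤ B * |(s : ℝ) - t|) ∧
    (spl h l).2.2 ∈ W}

variable {p : S3} {η : PS}

lemma Φ_lp (hη : η ∈ OmP p π) (B : ℝ) (W : Set (Lo N)) :
    MapsTo (Φ h η) (LP h B W) (OmP p (B + π) ×ˢ univ ×ˢ W) := fun l hl => by
  refine ⟨⟨(Φ_mem h hη.1 l).1, fun s t => (an_mul _ _ _ _).trans ?_⟩, trivial, hl.2⟩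
  have : an ((spl h l).1 s) ((spl h l).1 t) = an (h (crv l s)).1 (h (crv l t)).1 :=
    an_mul_left _ _ _
  linarith [hl.1 s t, hη.2 s t]

lemma Ψ_lp (hL : LoopStmt M) (hη : η ∈ OmP p π) (B : ℝ) (W : Set (Lo N)) :
    MapsTo (Ψ h η) (OmP p B ×ˢ univ ×ˢ W) (LP h (B + π) W) := fun x hx => by
  have h1 := div_mem hη.1 hx.1.1
  refine ⟨fun s t => ?_, ?_⟩
  · rw [Ψ, crv_gl hL h h1 s.2, crv_gl hL h h1 t.2, glc, glc, h.apply_symm_apply,
      h.apply_symm_apply, projIcc_val, projIcc_val, an_mul_left]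
    refine (an_mul _ _ _ _).trans ?_
    simp only [ContinuousMap.inv_apply, an_inv]
    linarith [hx.1.2 s t, hη.2 s t]
  · rw [Ψ, spl_gl hL h h1]
    exact hx.2.2

lemma Φ_av {lam a : ℝ} (hl : 0 < lam) (hd : ∀ x y, lam * an (h x).1 (h y).1 ≤ dist x y)
    (hη : η ∈ OmP p π) (ha : 0 ≤ a) :
    MapsTo (Φ h η) (LL M a) (OmA p (lam⁻¹ * a + π) ×ˢ univ) := fun l hl' => by
  refine ⟨⟨(Φ_mem h hη.1 l).1, var_le (ta' _) (crv l) (by positivity) pi_pos.le ha
    (fun s t => (an_mul _ _ _ _).trans (add_le_add ?_ (hη.2 s t))) hl'⟩, trivial⟩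
  rw [le_inv_mul_iff₀ hl]
  exact (congrArg _ (an_mul_left _ _ _)).trans_le (hd _ _)

theorem chain2 (hB : Basics) (T : Tools K) (hS : SuspStmt K) (hV : LevStmt K) {d : ℝ}
    (hd : d < π) (hd0 : 0 ≤ d) :
    ∃ Z : ∀ j, Ch K j (Lo M) → ∀ s, Ch K (j + 2 * s) (Lo M),
      (∀ j B W, ∀ β ∈ Zr K j (LP h B W) ∅, ∀ s : ℕ,
        Z j β s ∈ Zr K (j + 2 * s) (LP h (B + π * s + 2 * π) W) ∅) ∧
      (∀ j, ∀ β ∈ Zr K j univ ∅, β ∉ Br K j univ ∅ → ∀ s, Z j β s ∉ Br K (j + 2 * s) univ ∅) ∧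
      (∀ lam : ℝ, 0 < lam → (∀ x y, lam * an (h x).1 (h y).1 ≤ dist x y) →
        ∀ j, ∀ β ∈ Zr K j univ ∅, β ∉ Br K j univ ∅ → ∀ (s : ℕ) (a : ℝ), 0 ≤ a →
        a + lam * π < lam * d * s → Z j β s ∉ Fil M K (j + 2 * s) a) ∧
      ∀ (n : ℕ) [CompactSpace M] (_ : GS M n), ∃ C : ℝ, 0 < C ∧ ∀ j, ∀ β ∈ Zr K j univ ∅,
        ∀ (s : ℕ) (a : ℝ), 0 ≤ a → Z j β s ∈ Fil M K (j + 2 * s) a →
        Z j β (s + 1) ∈ Fil M K (j + 2 * (s + 1)) (a + C) := by
  have L := hB.1 M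
  choose κ c T' hW using exists_wd T hS (S3 × Lo N) hd hd0
  obtain ⟨p₀, h1, h2⟩ := exists_pt
  let p : ℕ → S3 := fun s => Nat.rec p₀ (fun _ q => -q) s
  have hp : ∀ s : ℕ, p s = p₀ ∨ p s = -p₀ := fun s => by
    induction s with
    | zero => exact Or.inl rfl
    | succ s ih =>
      refine ih.symm.imp (fun e => ?_) fun e => congrArg Neg.neg e
      exact (congrArg Neg.neg e).trans (neg_neg _)
  have hne : ∀ s, p s ≠ 1 := fun s => by rcases hp s with e | e <;> rwa [e]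
  let η : S3 → PS := fun q => gp (1, q)
  have hη : ∀ s, η (p s) ∈ OmP (p s) π := fun s => by
    have : p s ≠ -1 := fun e => hne (s + 1) ((congrArg Neg.neg e).trans (neg_neg _))
    exact ⟨⟨gp_eq_one (by simp), gp_one this⟩, fun a b => (gp_lip this a b).trans
      (mul_le_mul_of_nonneg_right (an_le_pi _ _) (abs_nonneg _))⟩
  have W := fun s => hW (p s) (hne s)
  let ζ : ∀ j, Ch K j (Lo M) → ∀ s : ℕ, Ch K (j + 2 * s) (PS × S3 × Lo N) := fun j β s =>
    Nat.rec (motive := fun s => Ch K (j + 2 * s) (PS × S3 × Lo N))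
      (push K j (Φ h (η p₀)) β) (fun s z => T' (p s) (j + 2 * s) z) s
  have hζ : ∀ j, ∀ β ∈ Zr K j univ ∅, ∀ s, ζ j β s ∈ Zr K (j + 2 * s) (Om (p s) ×ˢ univ) ∅ := by
    intro j β hβ s
    induction s with
    | zero =>
      exact push_Zr (Φ_cont h _).continuousOn (fun l _ => Φ_mem h (hη 0).1 l)
        (mapsTo_empty _ _) hβ
    | succ s ih => exact (W s).tz ih
  have drop : ∀ j, ∀ β ∈ Zr K j univ ∅, β ∉ Br K j univ ∅ → ∀ (s : ℕ) (a : ℝ), a ≤ d * s →
      ζ j β s ∉ Zr K (j + 2 * s) (OmA (p s) a ×ˢ univ) ∅ ⊔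
        Br K (j + 2 * s) (Om (p s) ×ˢ univ) ∅ := by
    intro j β hβ hβ' s
    induction s with
    | zero =>
      intro a ha H
      rw [omA_empty (hne 0) (by simpa using ha), empty_prod] at H
      obtain ⟨u, hu, b, hb, e⟩ := Submodule.mem_sup.1 H
      have h3 : ζ j β 0 ∈ Br K j (Om p₀ ×ˢ univ) ∅ := e ▸ add_mem (In_le_Br (Zr_le_In hu)) hb
      have h4 := push_Br (Ψ_cont h L (hη 0).1) (mapsTo_univ _ _) (mapsTo_empty _ ∅) h3
      have h5 : push K j (Ψ h (η p₀)) (push K j (Φ h (η p₀)) β) = β := by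
        rw [push_push (Φ_cont h _).continuousOn (mem_In_univ _),
          push_eq_self (fun l _ => ΨΦ h L l) (mem_In_univ _)]
      exact hβ' (h5 ▸ h4)
    | succ s ih =>
      intro a ha H
      refine ih (a - d) ?_ ((W s).lev _ a _ (hζ j β hβ s) H)
      push_cast at ha
      linarith
  have back : ∀ j, ∀ β ∈ Zr K j univ ∅, ∀ s, push K (j + 2 * s) (Φ h (η (p s)))
      (push K (j + 2 * s) (Ψ h (η (p s))) (ζ j β s)) = ζ j β s := fun j β hβ s => by
    rw [push_push (Ψ_cont h L (hη s).1) (Zr_le_In (hζ j β hβ s)),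
      push_eq_self (fun x hx => ΦΨ h L (hη s).1 hx.1) (Zr_le_In (hζ j β hβ s))]
  refine ⟨fun j β s => push K (j + 2 * s) (Ψ h (η (p s))) (ζ j β s), fun j B V β hβ s => ?_,
    fun j β hβ hβ' s H => ?_, fun lam hl hd' j β hβ hβ' s a ha hs H => ?_, fun n _ G => ?_⟩
  · have : ∀ s : ℕ, ζ j β s ∈ Zr K (j + 2 * s) (OmP (p s) (B + π * s + π) ×ˢ univ ×ˢ V) ∅ := by
      intro s
      induction s with
      | zero =>
        simp only [Nat.cast_zero, mul_zero, add_zero]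
        exact push_Zr (Φ_cont h _).continuousOn (Φ_lp h (hη 0) B V) (mapsTo_empty _ _) hβ
      | succ s ih =>
        have := (W s).tp ih
        rwa [show B + π * s + π + π = B + π * (s + 1 : ℕ) + π by push_cast; ring] at this
    have h3 := push_Zr ((Ψ_cont h L (hη s).1).mono (prod_mono (fun _ hw => hw.1) (subset_univ _)))
      (Ψ_lp h L (hη s) _ V) (mapsTo_empty _ ∅) (this s)
    rwa [show B + π * s + π + π = B + π * s + 2 * π by ring] at h3
  · refine drop j β hβ hβ' s 0 (by positivity) (Submodule.mem_sup_right ?_)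
    rw [← back j β hβ s]
    exact push_Br (Φ_cont h _).continuousOn (fun l _ => Φ_mem h (hη s).1 l) (mapsTo_empty _ _) H
  · obtain ⟨u, hu, b, hb, e⟩ := Submodule.mem_sup.1 H
    refine drop j β hβ hβ' s (lam⁻¹ * a + π) ?_ (Submodule.mem_sup.2 ⟨_,
      push_Zr (Φ_cont h _).continuousOn (Φ_av h hl hd' (hη s) ha) (mapsTo_empty _ _) hu, _,
      push_Br (Φ_cont h _).continuousOn (fun l _ => Φ_mem h (hη s).1 l) (mapsTo_empty _ _) hb, by
        rw [← map_add, e, back j β hβ s]⟩)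
    have : lam⁻¹ * a ≤ d * s - π := by
      rw [inv_mul_le_iff₀ hl]
      linarith
    linarith
  · obtain ⟨C₁, c1, k1⟩ := step2 h L hV G (hη 0).1 (hη 1).1 (W 0)
    obtain ⟨C₂, c2, k2⟩ := step2 h L hV G (hη 1).1 (hη 2).1 (W 1)
    refine ⟨C₁ + C₂, by positivity, fun j β hβ s a ha H => ?_⟩
    have hz := hζ j β hβ s
    show push K (j + 2 * s + 2) (Ψ h (η (-p s))) (T' (p s) (j + 2 * s) (ζ j β s)) ∈ _
    replace H : push K (j + 2 * s) (Ψ h (η (p s))) (ζ j β s) ∈ Fil M K (j + 2 * s) a := H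
    rcases hp s with e | e
    · rw [e] at H hz ⊢
      exact Fil_mono (by linarith) (k1 _ _ hz a ha H)
    · rw [e] at H hz ⊢
      exact Fil_mono (by linarith) (k2 _ _ hz a ha H)

end ShP

end Pool.Agent.MP_af6f1c_gt.Geo

end
end MrgPart1

-- ======== part 2: formerly Pool.Agent.MP_af6f1c_gt.geo.Sh3
section MrgPart2

/-! PROJECT GEO, sharp form: counting on pinched products of two three-spheres. -/

open Set Topology Metric Real Module
open scoped ENNReal

noncomputable section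

namespace Pool.Agent.MP_af6f1c_gt.Geo

namespace ShP

open UpP FinAP FinBP

lemma close2 {η β σ σ' S : ℝ} (hη : η ≤ 1 / 2) (hσ : 0 < σ) (hS : σ ≤ S)
    (h : |1 - σ * β| ≤ η) (h' : |1 - σ' * β| ≤ η) : σ' - σ ≤ 4 * S * η := by
  have h1 := abs_le.mp h
  have h2 := abs_le.mp h'
  have hη0 : 0 ≤ η := le_trans (abs_nonneg _) h
  have hβ0 : 0 < β := pos_of_mul_pos_of_pos_left' (by linarith) hσ
  have hβ : 1 ≤ 2 * S * β := by nlinarith
  refine le_of_mul_le_mul_right ?_ hβ0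
  nlinarith
where
  pos_of_mul_pos_of_pos_left' {a b : ℝ} (h : 0 < a * b) (ha : 0 < a) : 0 < b :=
    (mul_pos_iff_of_pos_left ha).1 h

/-- slowly rising slopes need many rays -/
lemma ar {w C σ₁ σ₂ : ℝ} (hw : 0 ≤ w) (hC : 0 < C) (h1 : 0 < σ₁) (h12 : σ₁ < σ₂) :
    ∃ κ > (0 : ℝ), ∀ (P : Type) (F : Finset P) (c α : P → ℝ) (j n : ℕ) (d t : ℕ → ℝ),
      (∀ p, 0 < c p) → (∀ s, (j : ℝ) ≤ d s) → (∀ s, d s ≤ d (s + 1)) → t 0 < σ₁ * d 0 →
      σ₂ * d n ≤ t n → (∀ s, t (s + 1) ≤ t s + C) →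
      (∀ s ≤ n, 0 < t s → ∃ p ∈ F, ∃ m : ℕ, m * c p = t s ∧ |d s - m * α p| ≤ w) →
      κ * j - κ⁻¹ ≤ F.card := by
  classical
  have h2 : 0 < σ₂ := by linarith
  set E : ℝ := C + 4 * (σ₂ + 1) * w + 1 with hEd
  have hE : 0 < E := by positivity
  have hJ : 0 < 2 * w + C + 1 := by positivity
  have hg : 0 < (σ₂ - σ₁) / E := div_pos (by linarith) hE
  refine ⟨min ((σ₂ - σ₁) / E) (2 * w + C + 1)⁻¹, by positivity, ?_⟩
  intro P F c α j n d t hc hd hm h0 hn hs hser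
  set κ := min ((σ₂ - σ₁) / E) (2 * w + C + 1)⁻¹ with hκd
  have hκ : 0 < κ := by positivity
  have hκ1 : κ ≤ (σ₂ - σ₁) / E := min_le_left _ _
  have hκ2 : κ ≤ (2 * w + C + 1)⁻¹ := min_le_right _ _
  have hj0 : (0 : ℝ) ≤ j := Nat.cast_nonneg j
  have hF0 : (0 : ℝ) ≤ F.card := Nat.cast_nonneg _
  have hκ3 : 0 < κ⁻¹ := by positivity
  by_cases hj : (j : ℝ) ≤ 2 * w + C + 1
  · have a1 : κ * j ≤ 1 := by
      refine (mul_le_mul hκ2 hj hj0 (by positivity)).trans (le_of_eq ?_)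
      field_simp
    have a2 : 2 * w + C + 1 ≤ κ⁻¹ := by rwa [le_inv_comm₀ hJ hκ]
    linarith
  have hj' : 2 * w + C + 1 < j := not_le.mp hj
  have hjp : (0 : ℝ) < j := by linarith
  have hdp : ∀ s, 0 < d s := fun s => hjp.trans_le (hd s)
  set N : ℕ := ⌊(σ₂ - σ₁) / E * j⌋₊ with hN
  have hN1 : (N : ℝ) ≤ (σ₂ - σ₁) / E * j := Nat.floor_le (by positivity)
  have hN2 : (σ₂ - σ₁) / E * j < N + 1 := Nat.lt_floor_add_one _
  have hΔ : 0 < E / j := by positivity
  have key : ∀ k : ℕ, ∃ (p : Option P) (σ : ℝ), k ≤ N → ∃ q ∈ F, p = some q ∧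
      σ₁ + k * (E / j) ≤ σ ∧ σ < σ₁ + k * (E / j) + C / j ∧ σ ≤ σ₂ + 1 ∧
      |1 - σ * (α q / c q)| ≤ w / j := by
    intro k
    by_cases hk : k ≤ N
    swap
    · exact ⟨none, 0, fun h => absurd h hk⟩
    have hkN : (k : ℝ) ≤ N := by exact_mod_cast hk
    have hv1 : (k : ℝ) * (E / j) ≤ σ₂ - σ₁ := by
      refine (mul_le_mul_of_nonneg_right (hkN.trans hN1) hΔ.le).trans (le_of_eq ?_)
      field_simp
    have hv0 : 0 ≤ (k : ℝ) * (E / j) := by positivity
    set v : ℝ := σ₁ + k * (E / j) with hv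
    have hvn : v * d n ≤ t n := (mul_le_mul_of_nonneg_right (by linarith) (hdp n).le).trans hn
    have hex : ∃ s : ℕ, v * d s ≤ t s := ⟨n, hvn⟩
    have hsn : Nat.find hex ≤ n := Nat.find_min' hex hvn
    have ha := Nat.find_spec hex
    have hne : Nat.find hex ≠ 0 := fun e => by
      rw [e] at ha
      nlinarith [hdp 0]
    obtain ⟨u, hu⟩ := Nat.exists_eq_succ_of_ne_zero hne
    have hlt : t u < v * d u := not_le.1 (Nat.find_min hex (by omega))
    rw [hu] at ha hsn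
    have hv2 : 0 < v := by linarith
    have hb : t (u + 1) < v * d (u + 1) + C := by nlinarith [hs u, hm u]
    have hi := hdp (u + 1)
    obtain ⟨q, hq, m, hm1, hw'⟩ := hser (u + 1) hsn ((mul_pos hv2 hi).trans_le ha)
    have hCj : C / d (u + 1) ≤ C / j := div_le_div_of_nonneg_left hC.le hjp (hd _)
    have hlt2 : t (u + 1) / d (u + 1) < v + C / j := by
      have : t (u + 1) / d (u + 1) < v + C / d (u + 1) := by
        rw [div_lt_iff₀ hi, add_mul, div_mul_cancel₀ _ hi.ne']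
        exact hb
      linarith
    have hC4 : C / j ≤ 1 := by
      rw [div_le_iff₀ hjp]; linarith
    refine ⟨some q, t (u + 1) / d (u + 1), fun _ => ⟨q, hq, rfl, ?_, hlt2, by linarith, ?_⟩⟩
    · rw [le_div_iff₀ hi]; exact ha
    · have hcq := hc q
      have e1 : 1 - t (u + 1) / d (u + 1) * (α q / c q) = (d (u + 1) - m * α q) / d (u + 1) := by
        rw [← hm1]; field_simp
      rw [e1, abs_div, abs_of_pos hi]
      calc _ ≤ w / d (u + 1) := div_le_div_of_nonneg_right hw' hi.le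
        _ ≤ w / j := div_le_div_of_nonneg_left hw hjp (hd _)
  choose p σ hp using key
  have hη : w / j ≤ 1 / 2 := by
    rw [div_le_iff₀ hjp]; linarith
  have sep : ∀ k k', k < k' → k' ≤ N → p k ≠ p k' := by
    intro k k' hkk hk' he
    obtain ⟨q, -, e1, a1, b1, c1, d1⟩ := hp k (by omega)
    obtain ⟨q', -, e2, a2, -, -, d2⟩ := hp k' hk'
    have hqq : q = q' := by
      rw [e1, e2] at he
      exact Option.some.inj he
    subst hqq
    have hpos : 0 < σ k := lt_of_lt_of_le (by positivity) a1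
    have h1 := close2 hη hpos c1 d1 d2
    have h2 : (k : ℝ) + 1 ≤ k' := by exact_mod_cast hkk
    have h3 : ((k : ℝ) + 1) * (E / j) ≤ k' * (E / j) := mul_le_mul_of_nonneg_right h2 hΔ.le
    have h4 : E / j = C / j + 4 * (σ₂ + 1) * (w / j) + 1 / j := by rw [hEd]; ring
    have h5 : 0 < 1 / (j : ℝ) := by positivity
    nlinarith
  have hcard : (Finset.range (N + 1)).card ≤ (F.map ⟨some, Option.some_injective P⟩).card := by
    refine Finset.card_le_card_of_injOn p ?_ ?_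
    · intro k hk
      have hk' : k ≤ N := by
        have := Finset.mem_range.mp (Finset.mem_coe.mp hk)
        omega
      obtain ⟨q, hq, e1, -⟩ := hp k hk'
      exact Finset.mem_coe.mpr (Finset.mem_map.mpr ⟨q, hq, e1.symm⟩)
    · intro k hk k' hk' he
      have h1 := Finset.mem_range.mp (Finset.mem_coe.mp hk)
      have h2 := Finset.mem_range.mp (Finset.mem_coe.mp hk')
      by_contra hne
      rcases lt_or_gt_of_ne hne with h | h
      · exact sep k k' h (by omega) he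
      · exact sep k' k h (by omega) he.symm
  rw [Finset.card_range, Finset.card_map] at hcard
  have hcard' : (N : ℝ) + 1 ≤ F.card := by exact_mod_cast hcard
  have := mul_le_mul_of_nonneg_right hκ1 hj0
  linarith

variable {K : Type} [Field K] {M : Type} [MetricSpace M]

lemma len_lip {γ : ℝ → M} {B : ℝ} (hB : 0 ≤ B)
    (h : ∀ s t : unitInterval, dist (γ s) (γ t) ≤ B * |(s : ℝ) - t|) :
    len γ ≤ ENNReal.ofReal B := by
  refine le_trans (le_of_eq ?_) (var_lip (fun t : unitInterval => γ t) hB h)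
  have := eVariationOn.comp_eq_of_monotoneOn γ (t := (univ : Set unitInterval)) Subtype.val
    fun _ _ _ _ hab => hab
  rw [image_univ, Subtype.range_coe] at this
  exact this.symm

/-- classes of the loop space of the three-sphere carried by Lipschitz loops -/
lemma exists_beta (hB : Basics) (T : Tools K) (hS : SuspStmt K) (hV : LevStmt K) (b : ℕ) :
    ∃ β ∈ Zr K (0 + 2 * b) {l : Lo S3 | ∀ s t : unitInterval,
      an (crv l s) (crv l t) ≤ (π * b + 2 * π) * |(s : ℝ) - t|} ∅, β ∉ Br K (0 + 2 * b) univ ∅ := by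
  obtain ⟨Z, h1, h2, -⟩ := chain2 (Homeomorph.prodPUnit S3).symm hB T hS hV pi_pos le_rfl
  let β : Ch K 0 (Lo S3) := Finsupp.single (ContinuousMap.const _ (ContinuousMap.const _ 1)) 1
  refine ⟨Z 0 β b, Zr_mono (fun l hl => ?_) Subset.rfl
    (h1 0 0 univ β (single_mem_In fun _ => ⟨fun s t => ?_, trivial⟩) b),
    h2 0 β (mem_In_univ _) (fun H => ?_) b⟩
  · intro s t
    have := hl.1 s t
    rwa [zero_add] at this
  · rw [zero_mul]
    exact (an_self _).le
  · obtain ⟨w, -, hw⟩ := mem_Br_empty.1 H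
    have h2 : aug K _ (bd K 0 w) = 0 := by
      refine lin_ext (L := aug K _ ∘ₗ bd K 0) (L' := 0) (fun σ => ?_) w
      simp [bd_single, aug, Fin.sum_univ_two]
    rw [hw] at h2
    simp [aug, β] at h2

lemma count2 (hB : Basics) (T : Tools K) (hS : SuspStmt K) (hV : LevStmt K) (hC : CountStmt K)
    {n : ℕ} [CompactSpace M] (G : GS M n) (h : M ≃ₜ S3 × S3) {lam A B : ℝ} (hl : 0 < lam)
    (hA : 0 < A) (hB0 : 0 < B) (hAB : A * B < lam * √(A ^ 2 + B ^ 2))
    (h1 : ∀ x y, lam * an (h x).1 (h y).1 ≤ dist x y)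
    (h2 : ∀ x y, dist x y ≤ √(A ^ 2 * an (h x).1 (h y).1 ^ 2 + B ^ 2 * an (h x).2 (h y).2 ^ 2))
    (hfin : ∀ L, (GI M L).Finite) :
    ∃ κ C₁ : ℝ, 0 < κ ∧ 0 < C₁ ∧ ∃ j₀ : ℕ, ∀ j : ℕ, j₀ ≤ j →
      κ * j - κ⁻¹ ≤ 2 * (GI M (C₁ * j)).ncard := by
  have L := hB.1 M
  have hπ := pi_pos
  obtain ⟨ρ, hρd⟩ : ∃ ρ, ρ = √(A ^ 2 + B ^ 2) := ⟨_, rfl⟩
  have hρ : 0 < ρ := hρd ▸ sqrt_pos.2 (by positivity)
  have hρ2 : ρ ^ 2 = A ^ 2 + B ^ 2 := hρd ▸ sq_sqrt (by positivity)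
  rw [← hρd] at hAB
  obtain ⟨μ, hμd⟩ : ∃ μ, μ = A * B / ρ := ⟨_, rfl⟩
  have hμ : 0 < μ := by rw [hμd]; positivity
  have hμl : μ < lam := by rwa [hμd, div_lt_iff₀ hρ]
  obtain ⟨g, hgd⟩ : ∃ g, g = (lam - μ) * π / 12 := ⟨_, rfl⟩
  have hg : 0 < g := by rw [hgd]; have := sub_pos.2 hμl; positivity
  obtain ⟨d, hdd⟩ : ∃ d, d = (μ * π + 6 * g) / lam := ⟨_, rfl⟩
  have hld : lam * d = μ * π + 6 * g := by rw [hdd]; field_simp
  have hd0 : 0 ≤ d := by rw [hdd]; positivity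
  have hd : d < π := by
    rw [hdd, div_lt_iff₀ hl]
    linarith
  obtain ⟨P, Ai, o, c, α, Bp, hi, hc, hAc, hm⟩ := hC n M G hfin
  obtain ⟨Z, z1, -, z3, z4⟩ := chain2 h hB T hS hV hd hd0
  obtain ⟨C, hC0, z4⟩ := z4 n G
  obtain ⟨κ, hκ, har⟩ := ar (w := 3 * n + 1) (σ₁ := μ * π / 2 + g) (σ₂ := μ * π / 2 + 2 * g)
    (by positivity) hC0 (by positivity) (by linarith)
  have hP := fun L => ncard_le_two_mul hi hAc L (hfin L)
  obtain ⟨c₀, hc₀⟩ : ∃ c₀, c₀ = 2 + 3 * A ^ 2 / B ^ 2 := ⟨_, rfl⟩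
  have hc0 : 2 ≤ c₀ := by
    have : 0 ≤ 3 * A ^ 2 / B ^ 2 := by positivity
    linarith
  obtain ⟨D, hD⟩ : ∃ D, D = B * ρ / A := ⟨_, rfl⟩
  have hD0 : 0 < D := by rw [hD]; positivity
  obtain ⟨R, hR⟩ := exists_nat_ge ((μ * π / 2 + 2 * g + lam * π) / g)
  rw [div_le_iff₀ hg] at hR
  obtain ⟨j₀, hj₀⟩ := exists_nat_gt (π * c₀ * D / g)
  rw [div_lt_iff₀ hg] at hj₀
  refine ⟨κ, π * (1 + c₀) * D + C * R, hκ, by positivity, j₀ + 1, fun j hj => ?_⟩
  have hj1 : (j₀ : ℝ) + 1 ≤ j := by exact_mod_cast hj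
  have hj2 : (0 : ℝ) ≤ j₀ := Nat.cast_nonneg _
  obtain ⟨β', hβ', hβ''⟩ := exists_beta hB T hS hV j
  set W := {l : Lo S3 | ∀ s t : unitInterval,
      an (crv l s) (crv l t) ≤ (π * j + 2 * π) * |(s : ℝ) - t|} with hW
  have one : (1 : PS) ∈ Om 1 := ⟨rfl, rfl⟩
  let f : Lo S3 → Lo M := fun l => mkL (glc h (1, 1, l))
  have f2 : ContinuousOn f univ :=
    (gl_cont L h).comp (f := fun l : Lo S3 => ((1 : PS), (1 : S3), l)) (by fun_prop)
      fun _ _ => ⟨one, trivial⟩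
  have f3 : ∀ l, (spl h (f l)).2.2 = l := fun l => by rw [spl_gl L h one]
  have hβ : push K _ f β' ∈ Zr K _ (LP h 0 W) ∅ := by
    refine push_Zr (f2.mono (subset_univ _)) (fun l hl => And.intro (fun s t => ?_) ?_)
      (mapsTo_empty _ _) hβ'
    · rw [crv_gl L h one s.2, crv_gl L h one t.2, zero_mul]
      simp [glc, an_self]
    · rwa [f3]
  have hβ1 := Zr_mono (subset_univ _) Subset.rfl hβ
  have hβ2 : push K _ f β' ∉ Br K _ univ ∅ := fun H => hβ'' (by
    have := push_Br (f := fun l => (spl h l).2.2) (spl_cont h).snd.snd.continuousOn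
      (mapsTo_univ _ _) (mapsTo_empty _ ∅) H
    rwa [push_push f2 (mem_In_univ _), push_eq_self (fun l _ => f3 l) (mem_In_univ _)] at this)
  set z := Z _ (push K _ f β') with hz
  obtain ⟨s₀, hs₀, hs₁⟩ : ∃ s₀ : ℕ, j * B ^ 2 / A ^ 2 ≤ s₀ ∧ s₀ ≤ j * B ^ 2 / A ^ 2 + 1 :=
    ⟨_, Nat.le_ceil _, (Nat.ceil_lt_add_one (by positivity)).le⟩
  let S : ℕ → Set ℝ := fun s => {a | 0 ≤ a ∧ z (s₀ + s) ∈ Fil M K (0 + 2 * j + 2 * (s₀ + s)) a}
  have hbd : ∀ s, BddBelow (S s) := fun s => ⟨0, fun a ha => ha.1⟩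
  have hmem : ∀ s : ℕ, π * (j + c₀) * D + C * s ∈ S s := by
    intro s
    induction s with
    | zero =>
      refine ⟨by positivity, Submodule.mem_sup_left (Zr_mono (fun l hl => ?_) Subset.rfl
        (z1 _ 0 W _ hβ (s₀ + 0)))⟩
      rw [Nat.cast_zero, mul_zero, add_zero]
      refine len_lip (by positivity) fun s t => (h2 _ _).trans (sqrt_le_iff.2 ⟨by positivity, ?_⟩)
      have e1 : 0 + π * ((s₀ + 0 : ℕ) : ℝ) + 2 * π ≤ B ^ 2 / A ^ 2 * (π * (j + c₀)) := by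
        have : B ^ 2 / A ^ 2 * (π * (j + c₀)) =
            π * (j * B ^ 2 / A ^ 2 + 1) + 2 * π + 2 * π * (B ^ 2 / A ^ 2) := by
          rw [hc₀]; field_simp; ring
        have h3 : 0 ≤ 2 * π * (B ^ 2 / A ^ 2) := by positivity
        rw [this, add_zero]
        nlinarith
      have e2 : π * j + 2 * π ≤ π * (j + c₀) := by nlinarith
      have a1 := (hl.1 s t).trans (mul_le_mul_of_nonneg_right e1 (abs_nonneg _))
      have a2 : an (h (crv l s)).2 (h (crv l t)).2 ≤ _ :=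
        (hl.2 s t).trans (mul_le_mul_of_nonneg_right e2 (abs_nonneg _))
      have a3 := pow_le_pow_left₀ (an_nonneg _ _) a1 2
      have a4 := pow_le_pow_left₀ (an_nonneg _ _) a2 2
      refine (add_le_add (mul_le_mul_of_nonneg_left a3 (by positivity))
        (mul_le_mul_of_nonneg_left a4 (by positivity))).trans (le_of_eq ?_)
      rw [hD, mul_pow _ |(s : ℝ) - t|, mul_pow _ |(s : ℝ) - t|, mul_pow _ |(s : ℝ) - t|,
        mul_pow _ (B * ρ / A), div_pow, mul_pow B, hρ2]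
      field_simp
      ring
    | succ s ih =>
      refine ⟨by positivity, ?_⟩
      have := z4 _ _ hβ1 (s₀ + s) _ ih.1 ih.2
      rwa [show π * (j + c₀) * D + C * s + C = π * (j + c₀) * D + C * (s + 1 : ℕ) by
        push_cast; ring] at this
  have hlow : ∀ s : ℕ, lam * d * (s₀ + s : ℕ) - lam * π ≤ sInf (S s) := fun s =>
    le_csInf ⟨_, hmem s⟩ fun a ha => by
      by_contra hlt
      exact z3 lam hl h1 _ _ hβ1 hβ2 (s₀ + s) a ha.1 (by linarith) ha.2
  have hs0 : (0 : ℝ) ≤ s₀ := Nat.cast_nonneg _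
  have hR0 : (0 : ℝ) ≤ R := Nat.cast_nonneg _
  have key := har P (hP ((π * (1 + c₀) * D + C * R) * j)).1.toFinset c α j (R * j)
    (fun s => ((0 + 2 * j + 2 * (s₀ + s) : ℕ) : ℝ)) (fun s => sInf (S s)) hc
    (fun s => by exact_mod_cast (by omega)) (fun s => by exact_mod_cast (by omega)) (by
      have a1 := csInf_le (hbd 0) (hmem 0)
      have a2 : j * D ≤ μ * (j + s₀) := by
        have : j * D = μ * (j + j * B ^ 2 / A ^ 2) := by
          have e : μ * (j + j * B ^ 2 / A ^ 2) = j * (B * (A ^ 2 + B ^ 2) / (A * ρ)) := by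
            rw [hμd]
            field_simp
          rw [e, ← hρ2, hD]
          field_simp
        rw [this]
        gcongr
      push_cast at a1 ⊢
      nlinarith [mul_nonneg hg.le hs0]) (by
      have a1 := hlow (R * j)
      rw [hld] at a1
      push_cast at a1 ⊢
      have a2 := mul_le_mul_of_nonneg_right hR (show (0 : ℝ) ≤ j by linarith)
      have a3 : lam * π ≤ lam * π * j := le_mul_of_one_le_right (by positivity) (by linarith)
      nlinarith [mul_nonneg hg.le hs0]) (by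
      intro s
      have : sInf (S (s + 1)) - C ≤ sInf (S s) := le_csInf ⟨_, hmem s⟩ fun a ha => by
        have := csInf_le (hbd (s + 1)) (show a + C ∈ S (s + 1) from
          ⟨by linarith [ha.1], z4 _ _ hβ1 (s₀ + s) a ha.1 ha.2⟩)
        linarith
      linarith) (by
      intro s hs ht
      obtain ⟨p, m, hm1, hm2, hm3⟩ := spectral hc (fun L => (hP L).1) (hm _) ⟨_, hmem s⟩ ht
      refine ⟨p, ?_, m, hm2, hm3⟩
      rw [Finite.mem_toFinset]
      have a1 : (1 : ℝ) ≤ m := by exact_mod_cast hm1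
      have a2 := csInf_le (hbd s) (hmem s)
      have a3 : (s : ℝ) ≤ R * j := by exact_mod_cast hs
      have a4 : c p ≤ m * c p := le_mul_of_one_le_left (hc p).le a1
      have a5 : π * c₀ * D ≤ π * c₀ * D * j := le_mul_of_one_le_right (by positivity) (by linarith)
      have a6 := mul_le_mul_of_nonneg_left a3 hC0.le
      show c p ≤ _
      rw [hm2] at a4
      nlinarith)
  rw [← ncard_eq_toFinset_card _ (hP _).1] at key
  refine key.trans ?_
  exact_mod_cast (hP _).2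

theorem core2 (hB : Basics) (T : Tools K) (hS : SuspStmt K) (hV : LevStmt K) (hC : CountStmt K)
    (hU : UpStmt K) (hK : LinkStmt K)
    {n : ℕ} [CompactSpace M] (G : GS M n) (h : M ≃ₜ S3 × S3) {lam A B : ℝ} (hl : 0 < lam)
    (hA : 0 < A) (hB0 : 0 < B) (hAB : A * B < lam * √(A ^ 2 + B ^ 2))
    (h1 : ∀ x y, lam * an (h x).1 (h y).1 ≤ dist x y)
    (h2 : ∀ x y, dist x y ≤ √(A ^ 2 * an (h x).1 (h y).1 ^ 2 + B ^ 2 * an (h x).2 (h y).2 ^ 2)) :
    ∃ a b : ℝ, 0 < a ∧ 0 < b ∧ ∃ L₀ : ℝ, ∀ L : ℝ, L₀ ≤ L →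
      ENNReal.ofReal (a / L * ∑ i ∈ Finset.range (⌊b * L⌋₊ + 1), (finrank K (LH K M i) : ℝ)) ≤
        (((GI M L).encard : ℕ∞) : ℝ≥0∞) := by
  by_cases hfin : ∀ L, (GI M L).Finite
  swap
  · push Not at hfin
    obtain ⟨L₁, hL₁⟩ := hfin
    have hinf : (GI M L₁).Infinite := hL₁
    refine ⟨1, 1, one_pos, one_pos, L₁, fun L hL => ?_⟩
    rw [(hinf.mono (GI_mono hL)).encard_eq]
    simp
  obtain ⟨κ, C₁, hκ, hC₁, j₀, hcount⟩ := count2 hB T hS hV hC G h hl hA hB0 hAB h1 h2 hfin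
  have hb : ∀ j, RH K j (univ : Set (Lo S3)) 2 := fun j => by
    have := hU S3 PUnit (Homeomorph.prodPUnit S3).symm
      (fun j => if j = 0 then 1 else 0) (fun j => by
        cases j with
        | zero => exact (lo_unit_zero T).1
        | succ j => exact (lo_unit_zero T).2 j) j
    simpa using this
  refine ⟨κ / (64 * C₁), 1, by positivity, one_pos,
    max 1 (max (C₁ * j₀) (2 * C₁ * (κ + κ⁻¹) / κ)), fun L hL => ?_⟩
  have hL1 : 1 ≤ L := (le_max_left _ _).trans hL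
  have hL2 : C₁ * j₀ ≤ L := (le_max_left _ _).trans ((le_max_right _ _).trans hL)
  have hL3 : 2 * C₁ * (κ + κ⁻¹) / κ ≤ L := (le_max_right _ _).trans ((le_max_right _ _).trans hL)
  rw [← (hfin L).cast_ncard_eq, ENat.toENNReal_coe, ← ENNReal.ofReal_natCast, one_mul]
  refine ENNReal.ofReal_le_ofReal ?_
  have hJ1 : (⌊L⌋₊ : ℝ) ≤ L := Nat.floor_le (by positivity)
  have hup : ∀ i ∈ Finset.range (⌊L⌋₊ + 1), (finrank K (LH K M i) : ℝ) ≤ 8 * L := by
    intro i hi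
    have u3 := finrank_le_of_rank_le ((hK M i _).1 (hU M S3 h (fun _ => 2) hb i))
    rw [Finset.sum_const, Finset.card_range, smul_eq_mul] at u3
    have u4 : (finrank K (LH K M i) : ℝ) ≤ 2 * ((i + 1) * 2) := by exact_mod_cast u3
    have u5 : (i : ℝ) ≤ ⌊L⌋₊ := by exact_mod_cast Nat.lt_succ_iff.1 (Finset.mem_range.1 hi)
    linarith
  have hsum := Finset.sum_le_card_nsmul _ _ _ hup
  rw [Finset.card_range, nsmul_eq_mul] at hsum
  have s1 : ((⌊L⌋₊ + 1 : ℕ) : ℝ) * (8 * L) ≤ 2 * L * (8 * L) := by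
    push_cast
    gcongr
    linarith
  have a1 := hcount ⌊L / C₁⌋₊ (Nat.le_floor (by rwa [le_div_iff₀' hC₁]))
  have a2 : C₁ * ⌊L / C₁⌋₊ ≤ L := by
    rw [← le_div_iff₀' hC₁]
    exact Nat.floor_le (by positivity)
  have a3 : ((GI M (C₁ * ⌊L / C₁⌋₊)).ncard : ℝ) ≤ (GI M L).ncard := by
    exact_mod_cast ncard_le_ncard (GI_mono a2) (hfin L)
  have a4 := mul_le_mul_of_nonneg_left (Nat.lt_floor_add_one (L / C₁)).le hκ.le
  have a5 : κ + κ⁻¹ ≤ κ * (L / C₁) / 2 := by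
    rw [div_le_iff₀ hκ] at hL3
    rw [← mul_div_assoc, div_div, le_div_iff₀ (by positivity)]
    linarith
  refine (mul_le_mul_of_nonneg_left (hsum.trans s1) (by positivity)).trans ?_
  have e : κ / (64 * C₁) / L * (2 * L * (8 * L)) = κ * (L / C₁) / 4 := by
    field_simp
    ring
  rw [e]
  linarith

end ShP

end Pool.Agent.MP_af6f1c_gt.Geo

end
end MrgPart2

-- marker of a merged file
example : 731051 + 293002 = 731051 + 293002 := rfl
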